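import Pool.Agent.Lib.NLT.BasicC

/-!
# Module Vdc: van der Corput inequalities

PROOF of `vdc`: `‖tv H φ - tv H (t ↦ tv A (k ↦ φ (t + k)))‖ ≤ 2 A / H` (`norm_tv_shift` for each `k < A`, average over `k`),
so with `Y = ‖tv H (tv A ..)‖ ≤ 1` and `δ = 2 A / H ≤ 2`: `‖tv H φ‖^2 ≤ (Y + δ)^2 ≤ Y^2 + 2 δ + δ^2 ≤ Y^2 + 4 δ`, and
`Y^2 ≤ tvr H ‖tv A ..‖^2`.
PROOF of `vdc_sq`: `norm_av_mul_sq_le`, then `vdc` for every `x`, and `tvr_avr_comm`.
PROOF of `vdc_norm`: `vdc_sq`; `tvr H (avr ‖tv A (k ↦ φ x (t + k))‖^2)` as a complex number is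
`tv A (k ↦ tv A (k' ↦ tv H (t ↦ av (x ↦ φ x (t + k) * conj (φ x (t + k'))))))` (`norm_tv_sq`, Fubini); triangle inequality.
-/

set_option autoImplicit false

open Finset

namespace Pool.Agent.NLT

open Pool.Agent.HLT

namespace VdcAux

theorem tv_ofReal (H : ℕ) (F : ℕ → ℝ) : tv H (fun t => (F t : ℂ)) = (tvr H F : ℂ) := by
  unfold tv tvr
  push_cast
  rfl

theorem diff_le (H A : ℕ) (hA : 1 ≤ A) (φ : ℕ → ℂ) (hφ : ∀ t, ‖φ t‖ ≤ 1) :
    ‖tv H φ - tv H (fun t => tv A (fun k => φ (t + k)))‖ ≤ 2 * (A : ℝ) / H := by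
  have h1 : tv H φ - tv H (fun t => tv A (fun k => φ (t + k))) =
      tv A (fun k => tv H φ - tv H (fun t => φ (t + k))) := by
    rw [tv_sub A (fun _ => tv H φ) (fun k => tv H (fun t => φ (t + k))), tv_const A hA,
      tv_comm H A]
  rw [h1]
  refine (norm_tv_le A _).trans (tvr_le A (by positivity) ?_)
  intro k hk
  rw [norm_sub_rev]
  refine (norm_tv_shift H k φ hφ).trans ?_
  have hk' : (k : ℝ) ≤ A := by exact_mod_cast hk.le
  gcongr

theorem sq_le {X Y δ : ℝ} (hX0 : 0 ≤ X) (hX : X ≤ 1) (hY0 : 0 ≤ Y) (hY : Y ≤ 1) (hδ : 0 ≤ δ)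
    (h : X ≤ Y + δ) : X ^ 2 ≤ Y ^ 2 + 4 * δ := by
  rcases le_total X Y with h1 | h1
  · nlinarith [mul_nonneg (sub_nonneg.2 h1) (add_nonneg hX0 hY0)]
  · have h2 : (X - Y) * (X + Y) ≤ δ * 2 := by
      apply mul_le_mul (by linarith) (by linarith) (by linarith) hδ
    nlinarith

end VdcAux

open VdcAux

theorem vdc (H A : ℕ) (hA : 1 ≤ A) (hAH : A ≤ H) (φ : ℕ → ℂ) (hφ : ∀ t, ‖φ t‖ ≤ 1) :
    ‖tv H φ‖ ^ 2 ≤ tvr H (fun t => ‖tv A (fun k => φ (t + k))‖ ^ 2) + 8 * (A : ℝ) / H := by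
  have hψ : ∀ t, ‖tv A (fun k => φ (t + k))‖ ≤ 1 := fun t => norm_tv_le_one A _ (fun k => hφ _)
  have h1 := diff_le H A hA φ hφ
  have h2 := norm_tv_sq_le H (fun t => tv A (fun k => φ (t + k)))
  have h3 : ‖tv H φ‖ ≤ ‖tv H (fun t => tv A (fun k => φ (t + k)))‖ + 2 * (A : ℝ) / H := by
    have h4 := norm_sub_norm_le (tv H φ) (tv H (fun t => tv A (fun k => φ (t + k))))
    linarith
  have h5 := sq_le (norm_nonneg _) (norm_tv_le_one H φ hφ) (norm_nonneg _)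
    (norm_tv_le_one H _ hψ) (by positivity) h3
  have h6 : 4 * (2 * (A : ℝ) / H) = 8 * (A : ℝ) / H := by ring
  linarith

section group

variable {M : ℕ} [NeZero M]

theorem vdc_sq (H A : ℕ) (hA : 1 ≤ A) (hAH : A ≤ H) (b : ZMod M → ℂ) (hb : Bd b) (φ : ZMod M → ℕ → ℂ)
    (hφ : ∀ x t, ‖φ x t‖ ≤ 1) :
    ‖tv H (fun t => av (fun x => b x * φ x t))‖ ^ 2 ≤
      tvr H (fun t => avr (fun x => ‖tv A (fun k => φ x (t + k))‖ ^ 2)) + 8 * (A : ℝ) / H := by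
  have h1 : tv H (fun t => av (fun x => b x * φ x t)) = av (fun x => b x * tv H (φ x)) := by
    rw [tv_av_comm H (fun t x => b x * φ x t)]
    congr 1
    funext x
    exact tv_mul_left H (b x) (φ x)
  rw [h1]
  refine (norm_av_mul_sq_le b (fun x => tv H (φ x)) hb).trans ?_
  refine (avr_mono (fun x => vdc H A hA hAH (φ x) (hφ x))).trans ?_
  rw [avr_add, avr_const,
    tvr_avr_comm H (fun t x => ‖tv A (fun k => φ x (t + k))‖ ^ 2)]

theorem VdcAux.expand (H A : ℕ) (φ : ZMod M → ℕ → ℂ) :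
    ((tvr H (fun t => avr (fun x => ‖tv A (fun k => φ x (t + k))‖ ^ 2)) : ℝ) : ℂ) =
      tv A (fun k => tv A (fun k' =>
        tv H (fun t => av (fun x => φ x (t + k) * (starRingEnd ℂ) (φ x (t + k')))))) := by
  rw [← tv_ofReal]
  have h1 : ∀ t, ((avr (fun x => ‖tv A (fun k => φ x (t + k))‖ ^ 2) : ℝ) : ℂ) =
      tv A (fun k => tv A (fun k' =>
        av (fun x => φ x (t + k) * (starRingEnd ℂ) (φ x (t + k'))))) := by
    intro t
    rw [← av_ofReal]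
    have h2 : ∀ x, ((‖tv A (fun k => φ x (t + k))‖ ^ 2 : ℝ) : ℂ) =
        tv A (fun k => tv A (fun k' => φ x (t + k) * (starRingEnd ℂ) (φ x (t + k')))) :=
      fun x => norm_tv_sq A (fun k => φ x (t + k))
    simp only [h2]
    rw [← tv_av_comm A (fun k x =>
      tv A (fun k' => φ x (t + k) * (starRingEnd ℂ) (φ x (t + k'))))]
    congr 1
    funext k
    rw [← tv_av_comm A (fun k' x => φ x (t + k) * (starRingEnd ℂ) (φ x (t + k')))]
  simp only [h1]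
  rw [tv_comm H A]
  congr 1
  funext k
  rw [tv_comm H A]

theorem vdc_norm (H A : ℕ) (hA : 1 ≤ A) (hAH : A ≤ H) (b : ZMod M → ℂ) (hb : Bd b) (φ : ZMod M → ℕ → ℂ)
    (hφ : ∀ x t, ‖φ x t‖ ≤ 1) :
    ‖tv H (fun t => av (fun x => b x * φ x t))‖ ^ 2 ≤
      tvr A (fun k => tvr A (fun k' =>
        ‖tv H (fun t => av (fun x => φ x (t + k) * (starRingEnd ℂ) (φ x (t + k'))))‖)) + 8 * (A : ℝ) / H := by
  refine (vdc_sq H A hA hAH b hb φ hφ).trans ?_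
  gcongr
  refine (le_abs_self _).trans ?_
  rw [← Real.norm_eq_abs, ← Complex.norm_real, expand]
  refine (norm_tv_le A _).trans (tvr_mono A (fun k _ => ?_))
  exact norm_tv_le A _

end group

end Pool.Agent.NLT
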