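import Pool.Agent.Lib.NLT.Defs

/-!
# Module BasicA: characters of `ZMod M` and averages over `ZMod M`

Toolkit. Everything is elementary (unfold `av`, `avr`, `tv`, `tvr`, `dv`, `dvc`, `chi`; `ZMod.stdAddChar`,
`ZMod.stdAddChar_coe`, `ZMod.isPrimitive_stdAddChar`, `AddChar.sum_mulShift`; Cauchy-Schwarz
`sq_sum_le_card_mul_sum_sq` / `inner_mul_le_norm_mul_norm`; power means `inner_le_nnorm_mul_nnorm` or
`Finset.sum_pow_le_pow_sum`, `inner_mul_le_norm_mul_norm`, Jensen `Real.pow_arith_mean_le_arith_mean_pow`).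
Add no further imports if possible. Keep all names and statements.
-/

set_option autoImplicit false

open Finset

namespace Pool.Agent.NLT

open Pool.Agent.HLT

section group

variable {M : ℕ} [NeZero M]

/-! ### Characters -/

lemma norm_chi (ξ x : ZMod M) : ‖chi ξ x‖ = 1 := by
  unfold chi
  rw [ZMod.stdAddChar_apply]
  exact Circle.norm_coe _

lemma chi_zero_left (x : ZMod M) : chi 0 x = 1 := by
  simp [chi]

lemma chi_zero_right (ξ : ZMod M) : chi ξ 0 = 1 := by
  simp [chi]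

lemma chi_add_left (ξ η x : ZMod M) : chi (ξ + η) x = chi ξ x * chi η x := by
  unfold chi
  rw [add_mul, AddChar.map_add_eq_mul]

lemma chi_add_right (ξ x y : ZMod M) : chi ξ (x + y) = chi ξ x * chi ξ y := by
  unfold chi
  rw [mul_add, AddChar.map_add_eq_mul]

lemma chi_neg_left (ξ x : ZMod M) : chi (-ξ) x = (starRingEnd ℂ) (chi ξ x) := by
  have h1 : chi (-ξ) x * chi ξ x = 1 := by
    rw [← chi_add_left, neg_add_cancel, chi_zero_left]
  have h2 : (starRingEnd ℂ) (chi ξ x) * chi ξ x = 1 := by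
    rw [mul_comm, Complex.mul_conj, Complex.normSq_eq_norm_sq, norm_chi]
    norm_num
  have h3 : chi ξ x ≠ 0 := by
    intro h
    rw [h, mul_zero] at h1
    exact zero_ne_one h1
  exact mul_right_cancel₀ h3 (h1.trans h2.symm)

lemma chi_neg_right (ξ x : ZMod M) : chi ξ (-x) = (starRingEnd ℂ) (chi ξ x) := by
  have h : chi ξ (-x) = chi (-ξ) x := by
    unfold chi
    rw [mul_neg, neg_mul]
  rw [h, chi_neg_left]

lemma chi_sub_left (ξ η x : ZMod M) : chi (ξ - η) x = chi ξ x * (starRingEnd ℂ) (chi η x) := by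
  rw [sub_eq_add_neg, chi_add_left, chi_neg_left]

lemma chi_sub_right (ξ x y : ZMod M) : chi ξ (x - y) = chi ξ x * (starRingEnd ℂ) (chi ξ y) := by
  rw [sub_eq_add_neg, chi_add_right, chi_neg_right]

lemma chi_comm (ξ x : ZMod M) : chi ξ x = chi x ξ := by
  unfold chi
  rw [mul_comm]

lemma chi_mul_conj (ξ x : ZMod M) : chi ξ x * (starRingEnd ℂ) (chi ξ x) = 1 := by
  rw [Complex.mul_conj, Complex.normSq_eq_norm_sq, norm_chi]
  norm_num

lemma sum_chi (ξ : ZMod M) : ∑ x, chi ξ x = if ξ = 0 then (M : ℂ) else 0 := by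
  have h := AddChar.sum_mulShift (R := ZMod M) (R' := ℂ) (ψ := ZMod.stdAddChar) ξ
    (ZMod.isPrimitive_stdAddChar M)
  unfold chi
  rw [ZMod.card] at h
  have h2 : ∑ x : ZMod M, ZMod.stdAddChar (ξ * x) = ∑ x : ZMod M, ZMod.stdAddChar (x * ξ) :=
    Finset.sum_congr rfl (fun x _ => by rw [mul_comm])
  rw [h2, h]
  split_ifs
  · rfl
  · exact Nat.cast_zero

lemma chi_int (ξ : ZMod M) (n : ℤ) : chi ξ (n : ZMod M) = ex ((n : ℝ) * ((ξ.val : ℝ) / (M : ℝ))) := by
  unfold chi ex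
  have h1 : ξ * (n : ZMod M) = (((ξ.val : ℤ) * n : ℤ) : ZMod M) := by
    push_cast
    rw [ZMod.natCast_zmod_val]
  rw [h1, ZMod.stdAddChar_coe]
  congr 1
  push_cast
  ring

/-! ### Averages over the group -/

lemma av_const (c : ℂ) : av (fun _ : ZMod M => c) = c := by
  have hM : (M : ℂ) ≠ 0 := by exact_mod_cast NeZero.ne M
  unfold av
  rw [Finset.sum_const, Finset.card_univ, ZMod.card, nsmul_eq_mul]
  field_simp

lemma avr_const (c : ℝ) : avr (fun _ : ZMod M => c) = c := by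
  have hM : (M : ℝ) ≠ 0 := by exact_mod_cast NeZero.ne M
  unfold avr
  rw [Finset.sum_const, Finset.card_univ, ZMod.card, nsmul_eq_mul]
  field_simp

lemma av_shift (f : ZMod M → ℂ) (h : ZMod M) : av (fun x => f (x + h)) = av f := by
  unfold av
  congr 1
  exact Equiv.sum_comp (Equiv.addRight h) f

lemma av_shift_sub (f : ZMod M → ℂ) (h : ZMod M) : av (fun x => f (x - h)) = av f := by
  unfold av
  congr 1
  exact Equiv.sum_comp (Equiv.subRight h) f

lemma avr_shift (f : ZMod M → ℝ) (h : ZMod M) : avr (fun x => f (x + h)) = avr f := by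
  unfold avr
  congr 1
  exact Equiv.sum_comp (Equiv.addRight h) f

lemma avr_shift_sub (f : ZMod M → ℝ) (h : ZMod M) : avr (fun x => f (x - h)) = avr f := by
  unfold avr
  congr 1
  exact Equiv.sum_comp (Equiv.subRight h) f

lemma av_neg (f : ZMod M → ℂ) : av (fun x => f (-x)) = av f := by
  unfold av
  congr 1
  exact Equiv.sum_comp (Equiv.neg (ZMod M)) f

lemma av_add (f g : ZMod M → ℂ) : av (fun x => f x + g x) = av f + av g := by
  unfold av
  rw [Finset.sum_add_distrib, add_div]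

lemma av_sub (f g : ZMod M → ℂ) : av (fun x => f x - g x) = av f - av g := by
  unfold av
  rw [Finset.sum_sub_distrib, sub_div]

lemma avr_add (f g : ZMod M → ℝ) : avr (fun x => f x + g x) = avr f + avr g := by
  unfold avr
  rw [Finset.sum_add_distrib, add_div]

lemma av_mul_left (c : ℂ) (f : ZMod M → ℂ) : av (fun x => c * f x) = c * av f := by
  unfold av
  rw [← Finset.mul_sum, mul_div_assoc]

lemma av_mul_right (c : ℂ) (f : ZMod M → ℂ) : av (fun x => f x * c) = av f * c := by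
  unfold av
  rw [← Finset.sum_mul, mul_div_right_comm]

lemma avr_mul_left (c : ℝ) (f : ZMod M → ℝ) : avr (fun x => c * f x) = c * avr f := by
  unfold avr
  rw [← Finset.mul_sum, mul_div_assoc]

lemma av_sum {ι : Type} (s : Finset ι) (f : ι → ZMod M → ℂ) :
    av (fun x => ∑ i ∈ s, f i x) = ∑ i ∈ s, av (f i) := by
  unfold av
  rw [Finset.sum_comm, Finset.sum_div]

lemma avr_sum {ι : Type} (s : Finset ι) (f : ι → ZMod M → ℝ) :
    avr (fun x => ∑ i ∈ s, f i x) = ∑ i ∈ s, avr (f i) := by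
  unfold avr
  rw [Finset.sum_comm, Finset.sum_div]

lemma av_comm (f : ZMod M → ZMod M → ℂ) : av (fun x => av (fun y => f x y)) = av (fun y => av (fun x => f x y)) := by
  unfold av
  rw [← Finset.sum_div, ← Finset.sum_div, Finset.sum_comm]

lemma avr_comm (f : ZMod M → ZMod M → ℝ) :
    avr (fun x => avr (fun y => f x y)) = avr (fun y => avr (fun x => f x y)) := by
  unfold avr
  rw [← Finset.sum_div, ← Finset.sum_div, Finset.sum_comm]

lemma av_ofReal (f : ZMod M → ℝ) : av (fun x => (f x : ℂ)) = (avr f : ℂ) := by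
  unfold av avr
  push_cast
  rfl

lemma av_conj (f : ZMod M → ℂ) : av (fun x => (starRingEnd ℂ) (f x)) = (starRingEnd ℂ) (av f) := by
  unfold av
  rw [map_div₀, map_sum, Complex.conj_natCast]

lemma avr_nonneg {f : ZMod M → ℝ} (h : ∀ x, 0 ≤ f x) : 0 ≤ avr f := by
  unfold avr
  exact div_nonneg (Finset.sum_nonneg (fun x _ => h x)) (Nat.cast_nonneg M)

lemma avr_mono {f g : ZMod M → ℝ} (h : ∀ x, f x ≤ g x) : avr f ≤ avr g := by
  unfold avr
  exact div_le_div_of_nonneg_right (Finset.sum_le_sum (fun x _ => h x)) (Nat.cast_nonneg M)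

lemma avr_le {f : ZMod M → ℝ} {c : ℝ} (h : ∀ x, f x ≤ c) : avr f ≤ c := by
  calc avr f ≤ avr (fun _ => c) := avr_mono h
    _ = c := avr_const c

lemma norm_av_le (f : ZMod M → ℂ) : ‖av f‖ ≤ avr (fun x => ‖f x‖) := by
  unfold av avr
  rw [norm_div, Complex.norm_natCast]
  exact div_le_div_of_nonneg_right (norm_sum_le _ _) (Nat.cast_nonneg M)

lemma norm_av_le_one {f : ZMod M → ℂ} (hf : Bd f) : ‖av f‖ ≤ 1 := by
  exact (norm_av_le f).trans (avr_le hf)

lemma avr_sq_le (f : ZMod M → ℝ) : avr f ^ 2 ≤ avr (fun x => f x ^ 2) := by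
  have hM : (0 : ℝ) < (M : ℝ) := by
    have := NeZero.pos M
    exact_mod_cast this
  have h := sq_sum_le_card_mul_sum_sq (s := (univ : Finset (ZMod M))) (f := f)
  rw [Finset.card_univ, ZMod.card] at h
  unfold avr
  rw [div_pow, div_le_div_iff₀ (by positivity) hM]
  have h2 : (∑ x, f x) ^ 2 * (M : ℝ) ≤ ((M : ℝ) * ∑ x, f x ^ 2) * (M : ℝ) :=
    mul_le_mul_of_nonneg_right h hM.le
  calc (∑ x, f x) ^ 2 * (M : ℝ) ≤ ((M : ℝ) * ∑ x, f x ^ 2) * (M : ℝ) := h2
    _ = (∑ x, f x ^ 2) * (M : ℝ) ^ 2 := by ring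

lemma norm_av_sq_le (f : ZMod M → ℂ) : ‖av f‖ ^ 2 ≤ avr (fun x => ‖f x‖ ^ 2) := by
  have h1 : ‖av f‖ ^ 2 ≤ avr (fun x => ‖f x‖) ^ 2 :=
    pow_le_pow_left₀ (norm_nonneg _) (norm_av_le f) 2
  exact h1.trans (avr_sq_le _)

/-- Cauchy-Schwarz: a bounded factor is removed. -/
lemma norm_av_mul_sq_le (f g : ZMod M → ℂ) (hf : Bd f) :
    ‖av (fun x => f x * g x)‖ ^ 2 ≤ avr (fun x => ‖g x‖ ^ 2) := by
  refine (norm_av_sq_le _).trans (avr_mono (fun x => ?_))
  rw [norm_mul, mul_pow]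
  have h1 : ‖f x‖ ^ 2 ≤ 1 := pow_le_one₀ (norm_nonneg _) (hf x)
  calc ‖f x‖ ^ 2 * ‖g x‖ ^ 2 ≤ 1 * ‖g x‖ ^ 2 := mul_le_mul_of_nonneg_right h1 (by positivity)
    _ = ‖g x‖ ^ 2 := one_mul _

/-- Expansion of a square. -/
lemma norm_av_sq (f : ZMod M → ℂ) : ((‖av f‖ ^ 2 : ℝ) : ℂ) = av (fun u => av (Dl u f)) := by
  have h1 : ((‖av f‖ ^ 2 : ℝ) : ℂ) = av f * (starRingEnd ℂ) (av f) := by
    rw [Complex.mul_conj, Complex.normSq_eq_norm_sq]
  rw [h1, av_comm]
  have h2 : ∀ x : ZMod M, av (fun u => Dl u f x) = f x * (starRingEnd ℂ) (av f) := by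
    intro x
    unfold Dl
    rw [av_mul_left]
    congr 1
    rw [← av_conj]
    have h3 := av_shift (fun y => (starRingEnd ℂ) (f y)) x
    rw [← h3]
    congr 1
    funext u
    rw [add_comm]
  calc av f * (starRingEnd ℂ) (av f) = av (fun x => f x * (starRingEnd ℂ) (av f)) := (av_mul_right _ _).symm
    _ = av (fun x => av (fun u => Dl u f x)) := by
        congr 1
        funext x
        exact (h2 x).symm

/-- There is a point where the function is at least its average. -/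
lemma exists_avr_le (f : ZMod M → ℝ) : ∃ x, avr f ≤ f x := by
  by_contra hcon
  push Not at hcon
  have hM : (0 : ℝ) < (M : ℝ) := by
    have := NeZero.pos M
    exact_mod_cast this
  have h1 : ∑ x, f x < ∑ _x : ZMod M, avr f :=
    Finset.sum_lt_sum_of_nonempty ⟨0, mem_univ _⟩ (fun x _ => hcon x)
  rw [Finset.sum_const, Finset.card_univ, ZMod.card, nsmul_eq_mul] at h1
  unfold avr at h1
  rw [mul_div_cancel₀ _ hM.ne'] at h1
  exact lt_irrefl _ h1

end group

end Pool.Agent.NLT
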