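import Pool.Agent.Lib.NLT.Defs

/-!
# Module BasicT: averages over `range H` and over differences

Toolkit. Everything is elementary (unfold `tv`, `tvr`, `dv`, `dvc`, `av`, `avr`; the cases `H = 0`, `A = 0` are trivial
since then both sides are 0). Power means: Jensen `inner_le_nnorm_mul_nnorm`, `inner_mul_le_norm_mul_norm`,
`Real.pow_arith_mean_le_arith_mean_pow`, or `inner_mul_le_norm_mul_norm`; `inf_sum...`; sums over a product set
`range A ×ˢ range A` of cardinality `A ^ 2`. `dv_le_sum`: for each `i < A` the map `j ↦ j - i` is injective into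
`Icc (-A) A`, so the inner sum is at most the full sum over `Icc (-A) A`. `norm_dvc_shift`: for each `i` the sums over
`j ∈ range A` of `F (j - i + k)` and `F (j - i)` differ by at most `2 k` terms of norm at most one.
Keep all names and statements.
-/

set_option autoImplicit false

open Finset

namespace Pool.Agent.NLT

open Pool.Agent.HLT

section group

variable {M : ℕ} [NeZero M]

/-! ### Averages over `range H` -/

lemma tv_const (H : ℕ) (hH : 1 ≤ H) (c : ℂ) : tv H (fun _ => c) = c := by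
  have h : (H : ℂ) ≠ 0 := by
    have : H ≠ 0 := by omega
    exact_mod_cast this
  unfold tv
  rw [Finset.sum_const, Finset.card_range, nsmul_eq_mul]
  field_simp

lemma tvr_const (H : ℕ) (hH : 1 ≤ H) (c : ℝ) : tvr H (fun _ => c) = c := by
  have h : (H : ℝ) ≠ 0 := by
    have : H ≠ 0 := by omega
    exact_mod_cast this
  unfold tvr
  rw [Finset.sum_const, Finset.card_range, nsmul_eq_mul]
  field_simp

lemma tv_mul_left (H : ℕ) (c : ℂ) (F : ℕ → ℂ) : tv H (fun t => c * F t) = c * tv H F := by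
  unfold tv
  rw [← Finset.mul_sum, mul_div_assoc]

lemma tv_sub (H : ℕ) (F G : ℕ → ℂ) : tv H (fun t => F t - G t) = tv H F - tv H G := by
  unfold tv
  rw [Finset.sum_sub_distrib, sub_div]

lemma tvr_nonneg (H : ℕ) {F : ℕ → ℝ} (h : ∀ t, 0 ≤ F t) : 0 ≤ tvr H F := by
  unfold tvr
  exact div_nonneg (Finset.sum_nonneg (fun t _ => h t)) (Nat.cast_nonneg H)

lemma tvr_mono (H : ℕ) {F G : ℕ → ℝ} (h : ∀ t < H, F t ≤ G t) : tvr H F ≤ tvr H G := by
  unfold tvr
  exact div_le_div_of_nonneg_right (Finset.sum_le_sum (fun t ht => h t (Finset.mem_range.mp ht)))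
    (Nat.cast_nonneg H)

lemma tvr_le (H : ℕ) {F : ℕ → ℝ} {c : ℝ} (hc : 0 ≤ c) (h : ∀ t < H, F t ≤ c) : tvr H F ≤ c := by
  rcases Nat.eq_zero_or_pos H with hH | hH
  · subst hH
    unfold tvr
    simpa using hc
  · calc tvr H F ≤ tvr H (fun _ => c) := tvr_mono H h
      _ = c := tvr_const H hH c

lemma norm_tv_le (H : ℕ) (F : ℕ → ℂ) : ‖tv H F‖ ≤ tvr H (fun t => ‖F t‖) := by
  unfold tv tvr
  rw [norm_div, Complex.norm_natCast]
  exact div_le_div_of_nonneg_right (norm_sum_le _ _) (Nat.cast_nonneg H)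

lemma norm_tv_le_one (H : ℕ) (F : ℕ → ℂ) (hF : ∀ t, ‖F t‖ ≤ 1) : ‖tv H F‖ ≤ 1 := by
  exact (norm_tv_le H F).trans (tvr_le H zero_le_one (fun t _ => hF t))

lemma tvr_sq_le (H : ℕ) (F : ℕ → ℝ) : tvr H F ^ 2 ≤ tvr H (fun t => F t ^ 2) := by
  rcases Nat.eq_zero_or_pos H with hH | hH
  · subst hH
    unfold tvr
    simp
  · have hM : (0 : ℝ) < (H : ℝ) := by exact_mod_cast hH
    have h := sq_sum_le_card_mul_sum_sq (s := range H) (f := F)
    rw [Finset.card_range] at h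
    unfold tvr
    rw [div_pow, div_le_div_iff₀ (by positivity) hM]
    have h2 : (∑ x ∈ range H, F x) ^ 2 * (H : ℝ) ≤ ((H : ℝ) * ∑ x ∈ range H, F x ^ 2) * (H : ℝ) :=
      mul_le_mul_of_nonneg_right h hM.le
    calc (∑ x ∈ range H, F x) ^ 2 * (H : ℝ) ≤ ((H : ℝ) * ∑ x ∈ range H, F x ^ 2) * (H : ℝ) := h2
      _ = (∑ x ∈ range H, F x ^ 2) * (H : ℝ) ^ 2 := by ring

lemma norm_tv_sq_le (H : ℕ) (F : ℕ → ℂ) : ‖tv H F‖ ^ 2 ≤ tvr H (fun t => ‖F t‖ ^ 2) := by
  have h1 : ‖tv H F‖ ^ 2 ≤ tvr H (fun t => ‖F t‖) ^ 2 :=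
    pow_le_pow_left₀ (norm_nonneg _) (norm_tv_le H F) 2
  exact h1.trans (tvr_sq_le H _)

lemma tv_comm (H K : ℕ) (F : ℕ → ℕ → ℂ) :
    tv H (fun s => tv K (fun t => F s t)) = tv K (fun t => tv H (fun s => F s t)) := by
  unfold tv
  rw [← Finset.sum_div, ← Finset.sum_div, Finset.sum_comm, div_div, div_div, mul_comm (K : ℂ) (H : ℂ)]

lemma tv_av_comm (H : ℕ) (F : ℕ → ZMod M → ℂ) :
    tv H (fun t => av (F t)) = av (fun x => tv H (fun t => F t x)) := by
  unfold tv av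
  rw [← Finset.sum_div, ← Finset.sum_div, Finset.sum_comm, div_div, div_div, mul_comm (M : ℂ) (H : ℂ)]

lemma tvr_avr_comm (H : ℕ) (F : ℕ → ZMod M → ℝ) :
    tvr H (fun t => avr (F t)) = avr (fun x => tvr H (fun t => F t x)) := by
  unfold tvr avr
  rw [← Finset.sum_div, ← Finset.sum_div, Finset.sum_comm, div_div, div_div, mul_comm (M : ℝ) (H : ℝ)]

lemma norm_tv_sq (H : ℕ) (F : ℕ → ℂ) :
    ((‖tv H F‖ ^ 2 : ℝ) : ℂ) = tv H (fun s => tv H (fun t => F s * (starRingEnd ℂ) (F t))) := by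
  have h1 : ((‖tv H F‖ ^ 2 : ℝ) : ℂ) = tv H F * (starRingEnd ℂ) (tv H F) := by
    rw [Complex.mul_conj, Complex.normSq_eq_norm_sq]
  have h2 : (starRingEnd ℂ) (tv H F) = tv H (fun t => (starRingEnd ℂ) (F t)) := by
    unfold tv
    rw [map_div₀, map_sum, Complex.conj_natCast]
  rw [h1, h2]
  have h3 : (fun s => tv H (fun t => F s * (starRingEnd ℂ) (F t))) =
      fun s => tv H (fun t => (starRingEnd ℂ) (F t)) * F s := by
    funext s
    rw [tv_mul_left, mul_comm]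
  rw [h3, tv_mul_left, mul_comm]

/-- Shifting the variable changes an average of a bounded function by at most `2 k / H`. -/
lemma norm_tv_shift (H k : ℕ) (F : ℕ → ℂ) (hF : ∀ t, ‖F t‖ ≤ 1) :
    ‖tv H (fun t => F (t + k)) - tv H F‖ ≤ 2 * k / H := by
  have h1 : ∑ t ∈ range H, F (t + k) - ∑ t ∈ range H, F t =
      ∑ j ∈ range k, F (H + j) - ∑ j ∈ range k, F j := by
    have e1 := Finset.sum_range_add F H k
    have e2 := Finset.sum_range_add F k H
    rw [add_comm k H] at e2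
    have e3 : ∑ t ∈ range H, F (t + k) = ∑ t ∈ range H, F (k + t) :=
      Finset.sum_congr rfl (fun t _ => by rw [add_comm])
    rw [e3]
    have e4 := e1.symm.trans e2
    linear_combination -e4
  rw [← tv_sub]
  unfold tv
  rw [Finset.sum_sub_distrib, h1, norm_div, Complex.norm_natCast]
  refine div_le_div_of_nonneg_right ?_ (Nat.cast_nonneg H)
  have h2 : ‖∑ j ∈ range k, F (H + j)‖ ≤ k := by
    refine (norm_sum_le _ _).trans ?_
    calc ∑ j ∈ range k, ‖F (H + j)‖ ≤ ∑ _j ∈ range k, (1 : ℝ) := Finset.sum_le_sum (fun j _ => hF _)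
      _ = k := by rw [Finset.sum_const, Finset.card_range, nsmul_eq_mul, mul_one]
  have h3 : ‖∑ j ∈ range k, F j‖ ≤ k := by
    refine (norm_sum_le _ _).trans ?_
    calc ∑ j ∈ range k, ‖F j‖ ≤ ∑ _j ∈ range k, (1 : ℝ) := Finset.sum_le_sum (fun j _ => hF _)
      _ = k := by rw [Finset.sum_const, Finset.card_range, nsmul_eq_mul, mul_one]
  calc ‖∑ j ∈ range k, F (H + j) - ∑ j ∈ range k, F j‖
      ≤ ‖∑ j ∈ range k, F (H + j)‖ + ‖∑ j ∈ range k, F j‖ := norm_sub_le _ _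
    _ ≤ 2 * k := by linarith

/-! ### Averages over differences -/

private lemma dv_eq_prod (A : ℕ) (F : ℤ → ℝ) :
    dv A F = (∑ p ∈ range A ×ˢ range A, F ((p.2 : ℤ) - p.1)) / (A : ℝ) ^ 2 := by
  unfold dv
  rw [Finset.sum_product]

private lemma dvc_eq_prod (A : ℕ) (F : ℤ → ℂ) :
    dvc A F = (∑ p ∈ range A ×ˢ range A, F ((p.2 : ℤ) - p.1)) / (A : ℂ) ^ 2 := by
  unfold dvc
  rw [Finset.sum_product]

private lemma abs_diff_lt {A i j : ℕ} (hi : i ∈ range A) (hj : j ∈ range A) : |((j : ℤ) - i)| < A := by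
  rw [Finset.mem_range] at hi hj
  rw [abs_lt]
  constructor <;> omega

lemma dvc_eq_tv (A : ℕ) (F : ℤ → ℂ) : dvc A F = tv A (fun i => tv A (fun j => F ((j : ℤ) - i))) := by
  unfold dvc tv
  rw [← Finset.sum_div, div_div, sq]

lemma dv_nonneg (A : ℕ) {F : ℤ → ℝ} (h : ∀ k, 0 ≤ F k) : 0 ≤ dv A F := by
  unfold dv
  exact div_nonneg (Finset.sum_nonneg (fun i _ => Finset.sum_nonneg (fun j _ => h _))) (by positivity)

lemma dv_mono (A : ℕ) {F G : ℤ → ℝ} (h : ∀ k : ℤ, |k| < A → F k ≤ G k) : dv A F ≤ dv A G := by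
  unfold dv
  exact div_le_div_of_nonneg_right
    (Finset.sum_le_sum (fun i hi => Finset.sum_le_sum (fun j hj => h _ (abs_diff_lt hi hj)))) (by positivity)

lemma dv_le (A : ℕ) {F : ℤ → ℝ} {c : ℝ} (hc : 0 ≤ c) (h : ∀ k : ℤ, |k| < A → F k ≤ c) : dv A F ≤ c := by
  rcases Nat.eq_zero_or_pos A with hA | hA
  · subst hA
    unfold dv
    simpa using hc
  · have hA0 : (A : ℝ) ≠ 0 := by
      have : A ≠ 0 := by omega
      exact_mod_cast this
    have h1 : dv A F ≤ dv A (fun _ => c) := dv_mono A h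
    have h2 : dv A (fun _ => c) = c := by
      unfold dv
      rw [Finset.sum_const, Finset.sum_const, Finset.card_range, nsmul_eq_mul, nsmul_eq_mul]
      field_simp
    exact h1.trans h2.le

lemma dv_const (A : ℕ) (hA : 1 ≤ A) (c : ℝ) : dv A (fun _ => c) = c := by
  have h : (A : ℝ) ≠ 0 := by
    have : A ≠ 0 := by omega
    exact_mod_cast this
  unfold dv
  rw [Finset.sum_const, Finset.sum_const, Finset.card_range, nsmul_eq_mul, nsmul_eq_mul]
  field_simp

lemma dv_add (A : ℕ) (F G : ℤ → ℝ) : dv A (fun k => F k + G k) = dv A F + dv A G := by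
  rw [dv_eq_prod, dv_eq_prod, dv_eq_prod, Finset.sum_add_distrib, add_div]

lemma dv_mul_left (A : ℕ) (c : ℝ) (F : ℤ → ℝ) : dv A (fun k => c * F k) = c * dv A F := by
  rw [dv_eq_prod, dv_eq_prod, ← Finset.mul_sum, mul_div_assoc]

lemma dv_comm (A B : ℕ) (F : ℤ → ℤ → ℝ) :
    dv A (fun i => dv B (fun j => F i j)) = dv B (fun j => dv A (fun i => F i j)) := by
  simp only [dv_eq_prod]
  rw [← Finset.sum_div, ← Finset.sum_div, Finset.sum_comm, div_div, div_div,
    mul_comm ((B : ℝ) ^ 2) ((A : ℝ) ^ 2)]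

lemma dv_avr_comm (A : ℕ) (F : ℤ → ZMod M → ℝ) :
    dv A (fun k => avr (F k)) = avr (fun x => dv A (fun k => F k x)) := by
  simp only [dv_eq_prod]
  unfold avr
  rw [← Finset.sum_div, ← Finset.sum_div, Finset.sum_comm, div_div, div_div,
    mul_comm (M : ℝ) ((A : ℝ) ^ 2)]

lemma dvc_av_comm (A : ℕ) (F : ℤ → ZMod M → ℂ) :
    dvc A (fun k => av (F k)) = av (fun x => dvc A (fun k => F k x)) := by
  simp only [dvc_eq_prod]
  unfold av
  rw [← Finset.sum_div, ← Finset.sum_div, Finset.sum_comm, div_div, div_div,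
    mul_comm (M : ℂ) ((A : ℂ) ^ 2)]

lemma dvc_ofReal (A : ℕ) (F : ℤ → ℝ) : dvc A (fun k => (F k : ℂ)) = (dv A F : ℂ) := by
  unfold dvc dv
  push_cast
  rfl

/-- Power means. -/
lemma dv_pow_le (A k : ℕ) (hk : 1 ≤ k) {F : ℤ → ℝ} (hF : ∀ i, 0 ≤ F i) : dv A F ^ k ≤ dv A (fun i => F i ^ k) := by
  rcases Nat.eq_zero_or_pos A with hA | hA
  · subst hA
    unfold dv
    have hk0 : k ≠ 0 := by omega
    simp [hk0]
  · have hA0 : (A : ℝ) ≠ 0 := by
      have : A ≠ 0 := by omega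
      exact_mod_cast this
    have h := Real.pow_arith_mean_le_arith_mean_pow (range A ×ˢ range A)
      (fun _ => 1 / (A : ℝ) ^ 2) (fun p => F ((p.2 : ℤ) - p.1)) (fun _ _ => by positivity)
      (by
        rw [Finset.sum_const, Finset.card_product, Finset.card_range, nsmul_eq_mul]
        push_cast
        field_simp) (fun p _ => hF _) k
    rw [dv_eq_prod, dv_eq_prod]
    rw [← Finset.mul_sum, ← Finset.mul_sum] at h
    rw [div_eq_inv_mul, div_eq_inv_mul, ← one_div]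
    exact h

/-- The differences have density at most `1 / A`. -/
lemma dv_le_sum (A : ℕ) {F : ℤ → ℝ} (hF : ∀ i, 0 ≤ F i) : dv A F ≤ (∑ k ∈ Icc (-(A : ℤ)) A, F k) / A := by
  rcases Nat.eq_zero_or_pos A with hA | hA
  · subst hA
    unfold dv
    simp
  · have hA0 : (0 : ℝ) < (A : ℝ) := by exact_mod_cast hA
    have h1 : ∀ i ∈ range A, ∑ j ∈ range A, F ((j : ℤ) - i) ≤ ∑ k ∈ Icc (-(A : ℤ)) A, F k := by
      intro i hi
      have hinj : Set.InjOn (fun j : ℕ => (j : ℤ) - i) (range A : Set ℕ) := by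
        intro a _ b _ hab
        have hab' : (a : ℤ) - i = (b : ℤ) - i := hab
        omega
      have h2 : ∑ j ∈ range A, F ((j : ℤ) - i) = ∑ k ∈ (range A).image (fun j : ℕ => (j : ℤ) - i), F k := by
        rw [Finset.sum_image hinj]
      rw [h2]
      refine Finset.sum_le_sum_of_subset_of_nonneg ?_ (fun k _ _ => hF k)
      intro k hk
      rw [Finset.mem_image] at hk
      obtain ⟨j, hj, rfl⟩ := hk
      have h3 := abs_diff_lt hi hj
      rw [abs_lt] at h3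
      rw [Finset.mem_Icc]
      exact ⟨h3.1.le, h3.2.le⟩
    unfold dv
    rw [div_le_div_iff₀ (by positivity) hA0]
    have h4 : ∑ i ∈ range A, ∑ j ∈ range A, F ((j : ℤ) - i) ≤ A * ∑ k ∈ Icc (-(A : ℤ)) A, F k := by
      calc ∑ i ∈ range A, ∑ j ∈ range A, F ((j : ℤ) - i)
          ≤ ∑ _i ∈ range A, ∑ k ∈ Icc (-(A : ℤ)) A, F k := Finset.sum_le_sum h1
        _ = A * ∑ k ∈ Icc (-(A : ℤ)) A, F k := by rw [Finset.sum_const, Finset.card_range, nsmul_eq_mul]
    calc (∑ i ∈ range A, ∑ j ∈ range A, F ((j : ℤ) - i)) * A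
        ≤ (A * ∑ k ∈ Icc (-(A : ℤ)) A, F k) * A := mul_le_mul_of_nonneg_right h4 hA0.le
      _ = (∑ k ∈ Icc (-(A : ℤ)) A, F k) * (A : ℝ) ^ 2 := by ring

lemma norm_dvc_le (A : ℕ) (F : ℤ → ℂ) : ‖dvc A F‖ ≤ dv A (fun k => ‖F k‖) := by
  rw [dvc_eq_prod, dv_eq_prod, norm_div, norm_pow, Complex.norm_natCast]
  exact div_le_div_of_nonneg_right (norm_sum_le _ _) (by positivity)

lemma norm_dvc_le_one (A : ℕ) (F : ℤ → ℂ) (hF : ∀ k, ‖F k‖ ≤ 1) : ‖dvc A F‖ ≤ 1 := by
  exact (norm_dvc_le A F).trans (dv_le A zero_le_one (fun k _ => hF k))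

/-- Shifting the variable changes the average by at most `2 j / A`. -/
lemma norm_dvc_shift (A : ℕ) (F : ℤ → ℂ) (hF : ∀ k, ‖F k‖ ≤ 1) (j : ℕ) :
    ‖dvc A (fun k => F (k + j)) - dvc A F‖ ≤ 2 * j / A := by
  rw [dvc_eq_tv, dvc_eq_tv, ← tv_sub]
  refine (norm_tv_le A _).trans (tvr_le A (by positivity) (fun i _ => ?_))
  have h := norm_tv_shift A j (fun l : ℕ => F ((l : ℤ) - i)) (fun l => hF _)
  have e : (fun l : ℕ => F ((l : ℤ) - i + j)) = fun l : ℕ => F (((l + j : ℕ) : ℤ) - i) := by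
    funext l
    congr 1
    push_cast
    ring
  rw [e]
  exact h

end group

end Pool.Agent.NLT
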