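import Pool.Agent.Lib.NLT.BasicA
import Pool.Agent.Lib.NLT.BasicT

/-!
# Module BasicB: derivatives and Fourier coefficients on `ZMod M`

PROOFS.
* `inversion`, `parseval`, `parseval_series`: orthogonality `sum_chi` (and `chi_comm`).
* `ft_shift`: substitute `x → x - h` in the average.
* `av_Dl`: insert the inversion formula for `g x` and for `conj (g (x + u))`; orthogonality in `x` leaves the diagonal.
* `norm_ft_sq`: `‖ft g ξ‖ ^ 2 = av_x av_y g x conj (g y) chi (-ξ) (x - y)`, `y = x + u`; or multiply `av_Dl` by `chi ξ u`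
  and average over `u`.
-/

set_option autoImplicit false

open Finset

namespace Pool.Agent.NLT

open Pool.Agent.HLT

variable {M : ℕ} [NeZero M]

/-! ### Derivatives -/

lemma Dl_Bd (h : ZMod M) {f : ZMod M → ℂ} (hf : Bd f) : Bd (Dl h f) := by
  intro x
  unfold Dl
  rw [norm_mul, RCLike.norm_conj]
  exact mul_le_one₀ (hf x) (norm_nonneg _) (hf _)

lemma Dl_comm (u v : ZMod M) (f : ZMod M → ℂ) : Dl u (Dl v f) = Dl v (Dl u f) := by
  funext x
  unfold Dl
  simp only [map_mul, Complex.conj_conj]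
  rw [add_right_comm x u v]
  ring

lemma Dl_shift (u h : ZMod M) (f : ZMod M → ℂ) : Dl u (fun x => f (x + h)) = fun x => Dl u f (x + h) := by
  funext x
  unfold Dl
  simp only
  rw [add_right_comm x u h]

lemma Dl_conj (u : ZMod M) (f : ZMod M → ℂ) :
    Dl u (fun x => (starRingEnd ℂ) (f x)) = fun x => (starRingEnd ℂ) (Dl u f x) := by
  funext x
  unfold Dl
  rw [map_mul]

lemma Bd_shift (h : ZMod M) {f : ZMod M → ℂ} (hf : Bd f) : Bd (fun x => f (x + h)) := fun x => hf (x + h)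

lemma Bd_conj {f : ZMod M → ℂ} (hf : Bd f) : Bd (fun x => (starRingEnd ℂ) (f x)) := fun x => by
  simp only [RCLike.norm_conj]
  exact hf x

lemma Bd_mul {f g : ZMod M → ℂ} (hf : Bd f) (hg : Bd g) : Bd (fun x => f x * g x) := fun x => by
  simp only [norm_mul]
  exact mul_le_one₀ (hf x) (norm_nonneg _) (hg x)

/-! ### Fourier coefficients -/

namespace BasicBAux

lemma M_ne : (M : ℂ) ≠ 0 := Nat.cast_ne_zero.mpr (NeZero.ne M)

lemma av_chi (ξ : ZMod M) : av (fun x => chi ξ x) = if ξ = 0 then 1 else 0 := by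
  unfold av
  rw [sum_chi]
  split_ifs
  · exact div_self M_ne
  · exact zero_div _

lemma sum_chi' (x : ZMod M) : ∑ ξ, chi ξ x = if x = 0 then (M : ℂ) else 0 := by
  rw [← sum_chi x]
  exact sum_congr rfl (fun ξ _ => chi_comm ξ x)

end BasicBAux

open BasicBAux

lemma inversion (f : ZMod M → ℂ) (x : ZMod M) : f x = ∑ ξ, ft f ξ * chi ξ x := by
  have h1 : ∀ ξ, ft f ξ * chi ξ x = ∑ y, (f y / M) * chi ξ (x - y) := by
    intro ξ
    unfold ft av
    rw [div_mul_eq_mul_div, sum_mul, sum_div]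
    refine sum_congr rfl (fun y _ => ?_)
    rw [chi_sub_right, chi_neg_left]
    ring
  simp only [h1]
  rw [sum_comm]
  have h2 : ∀ y, ∑ ξ, (f y / M) * chi ξ (x - y) = if y = x then f y else 0 := by
    intro y
    rw [← mul_sum, sum_chi']
    by_cases h : y = x
    · rw [if_pos h, if_pos (by rw [h, sub_self])]
      exact div_mul_cancel₀ _ M_ne
    · rw [if_neg h, if_neg (by
        intro h3
        exact h (sub_eq_zero.mp h3).symm), mul_zero]
  simp only [h2]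
  rw [sum_ite_eq' univ x f, if_pos (mem_univ x)]

namespace BasicBAux

lemma bilin (a b : ZMod M → ℂ) :
    av (fun x => (∑ ξ, a ξ * chi ξ x) * (starRingEnd ℂ) (∑ ξ, b ξ * chi ξ x)) =
      ∑ ξ, a ξ * (starRingEnd ℂ) (b ξ) := by
  have h1 : ∀ x : ZMod M, (∑ ξ, a ξ * chi ξ x) * (starRingEnd ℂ) (∑ ξ, b ξ * chi ξ x) =
      ∑ ξ, ∑ η, (a ξ * (starRingEnd ℂ) (b η)) * chi (ξ - η) x := by
    intro x
    rw [map_sum, sum_mul_sum]
    refine sum_congr rfl (fun ξ _ => sum_congr rfl (fun η _ => ?_))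
    rw [chi_sub_left, map_mul]
    ring
  simp only [h1]
  rw [av_sum univ (fun ξ x => ∑ η, (a ξ * (starRingEnd ℂ) (b η)) * chi (ξ - η) x)]
  refine sum_congr rfl (fun ξ _ => ?_)
  rw [av_sum univ (fun η x => (a ξ * (starRingEnd ℂ) (b η)) * chi (ξ - η) x)]
  rw [sum_eq_single ξ]
  · rw [av_mul_left, av_chi, if_pos (sub_self ξ), mul_one]
  · intro η _ h
    rw [av_mul_left, av_chi, if_neg (fun h3 => h (sub_eq_zero.mp h3).symm), mul_zero]
  · intro h
    exact absurd (mem_univ ξ) h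

lemma bilin_ft (f g : ZMod M → ℂ) :
    av (fun x => f x * (starRingEnd ℂ) (g x)) = ∑ ξ, ft f ξ * (starRingEnd ℂ) (ft g ξ) := by
  rw [← bilin]
  congr 1
  funext x
  rw [← inversion, ← inversion]

end BasicBAux

lemma parseval (f : ZMod M → ℂ) : ∑ ξ, ‖ft f ξ‖ ^ 2 = avr (fun x => ‖f x‖ ^ 2) := by
  have h := bilin_ft f f
  have h2 : ∀ z : ℂ, z * (starRingEnd ℂ) z = ((‖z‖ ^ 2 : ℝ) : ℂ) := by
    intro z
    rw [Complex.mul_conj, Complex.normSq_eq_norm_sq]
  simp only [h2] at h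
  rw [av_ofReal (fun x => ‖f x‖ ^ 2)] at h
  exact_mod_cast h.symm

/-- Parseval for a function given by its Fourier series. -/
lemma parseval_series (a : ZMod M → ℂ) : avr (fun x => ‖∑ ξ, a ξ * chi ξ x‖ ^ 2) = ∑ ξ, ‖a ξ‖ ^ 2 := by
  have h := bilin a a
  have h2 : ∀ z : ℂ, z * (starRingEnd ℂ) z = ((‖z‖ ^ 2 : ℝ) : ℂ) := by
    intro z
    rw [Complex.mul_conj, Complex.normSq_eq_norm_sq]
  simp only [h2] at h
  rw [av_ofReal (fun x => ‖∑ ξ, a ξ * chi ξ x‖ ^ 2)] at h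
  exact_mod_cast h

lemma norm_ft_le_one {f : ZMod M → ℂ} (hf : Bd f) (ξ : ZMod M) : ‖ft f ξ‖ ≤ 1 := by
  unfold ft
  refine norm_av_le_one (Bd_mul hf ?_)
  intro x
  exact (norm_chi _ _).le

lemma sum_ft_sq_le_one {f : ZMod M → ℂ} (hf : Bd f) : ∑ ξ, ‖ft f ξ‖ ^ 2 ≤ 1 := by
  rw [parseval]
  exact avr_le (fun x => pow_le_one₀ (norm_nonneg _) (hf x))

lemma ft_shift (f : ZMod M → ℂ) (h ξ : ZMod M) : ft (fun x => f (x + h)) ξ = chi ξ h * ft f ξ := by
  unfold ft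
  have h1 : ∀ x, f (x + h) * chi (-ξ) x = (fun y => chi ξ h * (f y * chi (-ξ) y)) (x + h) := by
    intro x
    simp only
    rw [chi_add_right (-ξ) x h]
    have h2 : chi ξ h * chi (-ξ) h = 1 := by
      rw [chi_neg_left]
      exact chi_mul_conj ξ h
    calc f (x + h) * chi (-ξ) x = (chi ξ h * chi (-ξ) h) * (f (x + h) * chi (-ξ) x) := by rw [h2, one_mul]
      _ = _ := by ring
  simp only [h1]
  rw [av_shift (fun y => chi ξ h * (f y * chi (-ξ) y)) h, av_mul_left]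

lemma ft_conj (f : ZMod M → ℂ) (ξ : ZMod M) :
    ft (fun x => (starRingEnd ℂ) (f x)) ξ = (starRingEnd ℂ) (ft f (-ξ)) := by
  unfold ft
  rw [← av_conj]
  congr 1
  funext x
  rw [map_mul, ← chi_neg_left (-(-ξ)) x, neg_neg]

lemma av_Dl (g : ZMod M → ℂ) (u : ZMod M) : av (Dl u g) = ∑ ξ, ((‖ft g ξ‖ ^ 2 : ℝ) : ℂ) * chi (-ξ) u := by
  unfold Dl
  rw [bilin_ft g (fun x => g (x + u))]
  refine sum_congr rfl (fun ξ _ => ?_)
  rw [ft_shift, map_mul, ← chi_neg_left, ← Complex.normSq_eq_norm_sq, ← Complex.mul_conj]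
  ring

lemma norm_ft_sq (g : ZMod M → ℂ) (ξ : ZMod M) :
    ((‖ft g ξ‖ ^ 2 : ℝ) : ℂ) = av (fun u => chi ξ u * av (Dl u g)) := by
  have h1 : ∀ u, chi ξ u * av (Dl u g) = ∑ η, ((‖ft g η‖ ^ 2 : ℝ) : ℂ) * chi (ξ - η) u := by
    intro u
    rw [av_Dl, mul_sum]
    refine sum_congr rfl (fun η _ => ?_)
    rw [chi_sub_left, ← chi_neg_left]
    ring
  simp only [h1]
  rw [av_sum univ (fun η u => ((‖ft g η‖ ^ 2 : ℝ) : ℂ) * chi (ξ - η) u), sum_eq_single ξ]
  · rw [av_mul_left, av_chi, if_pos (sub_self ξ), mul_one]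
  · intro η _ h
    rw [av_mul_left, av_chi, if_neg (fun h3 => h (sub_eq_zero.mp h3).symm), mul_zero]
  · intro h
    exact absurd (mem_univ ξ) h

end Pool.Agent.NLT
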