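import Pool.Agent.Lib.HLT.Geom
import Pool.Agent.Lib.NLT.BasicA

/-!
# Module Geo: distance to the nearest integer, geometric sums, major arcs

PROOFS. `nrm α = |α - round α|`; `round_le`, `round_add_int`. `norm_ex_sub_one_le`: `HLT.norm_ex_sub_one`,
`ex_sub_round`, `|sin t| ≤ |t|`, `2 π ≤ 7`. `geo_Ico`: `HLT.geom_Ioc` (or summation of the geometric progression) and
`HLT.mn_le_right`; if `nrm α = 0` the claim is `0 ≤ 1`. `chi_Ico`: `chi_int` and `geo_Ico`.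
`neg_mem_Maj`: `(-ξ).val = M - ξ.val` for `ξ ≠ 0` and `nrm (-α + k) = nrm α`.
-/

set_option autoImplicit false

open Finset

namespace Pool.Agent.NLT

open Pool.Agent.HLT

lemma nrm_zero : nrm 0 = 0 := by
  unfold nrm
  simp


lemma nrm_add_int (α : ℝ) (k : ℤ) : nrm (α + k) = nrm α := by
  unfold nrm
  rw [round_add_intCast]
  push_cast
  rw [show α + k - ((round α : ℝ) + k) = α - round α by ring]

lemma nrm_le_abs_sub (α : ℝ) (m : ℤ) : nrm α ≤ |α - m| := round_le α m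

lemma nrm_ng (α : ℝ) : nrm (-α) = nrm α := by
  have key : ∀ β : ℝ, nrm (-β) ≤ nrm β := by
    intro β
    have h := nrm_le_abs_sub (-β) (-round β)
    refine h.trans (le_of_eq ?_)
    unfold nrm
    push_cast
    rw [show -β - -(round β : ℝ) = -(β - round β) by ring, abs_neg]
  refine le_antisymm (key α) ?_
  have h := key (-α)
  rwa [neg_neg] at h

lemma nrm_le_abs (α : ℝ) : nrm α ≤ |α| := by
  have h := nrm_le_abs_sub α 0
  rwa [Int.cast_zero, sub_zero] at h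

lemma nrm_add_le (α β : ℝ) : nrm (α + β) ≤ nrm α + nrm β := by
  refine (nrm_le_abs_sub (α + β) (round α + round β)).trans ?_
  unfold nrm
  push_cast
  rw [show α + β - ((round α : ℝ) + round β) = (α - round α) + (β - round β) by ring]
  exact abs_add_le _ _

lemma nrm_int_mul_le (k : ℤ) (α : ℝ) : nrm (k * α) ≤ |(k : ℝ)| * nrm α := by
  refine (nrm_le_abs_sub (k * α) (k * round α)).trans ?_
  unfold nrm
  push_cast
  rw [show (k : ℝ) * α - (k : ℝ) * round α = k * (α - round α) by ring, abs_mul]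

lemma norm_ex_sub_one_le (θ : ℝ) : ‖ex θ - 1‖ ≤ 7 * nrm θ := by
  rw [ex_sub_round, norm_ex_sub_one]
  have h1 : |Real.sin (Real.pi * (θ - round θ))| ≤ |Real.pi * (θ - round θ)| := Real.abs_sin_le_abs
  have h2 : |Real.pi * (θ - round θ)| = Real.pi * nrm θ := by
    rw [abs_mul, abs_of_pos Real.pi_pos]
    rfl
  rw [h2] at h1
  have h3 := nrm_nonneg θ
  have h4 : Real.pi ≤ 3.5 := by
    have := Real.pi_lt_d2
    norm_num at this ⊢
    linarith
  nlinarith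

/-- Geometric sums over intervals. -/
lemma geo_Ico (s e : ℕ) (α β : ℝ) : 2 * nrm α * ‖∑ t ∈ Ico s e, ex ((t : ℝ) * α + β)‖ ≤ 1 := by
  rcases Nat.lt_or_ge e s with hse | hse
  · rw [Ico_eq_empty_of_le hse.le, sum_empty, norm_zero, mul_zero]
    exact zero_le_one
  have hsum : (∑ t ∈ Ico s e, ex ((t : ℝ) * α + β)) * (ex α - 1) =
      ex ((e : ℝ) * α + β) - ex ((s : ℝ) * α + β) := by
    induction e, hse using Nat.le_induction with
    | base => simp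
    | succ e hse ih =>
      rw [sum_Ico_succ_top hse, add_mul, ih]
      have : ex (((e + 1 : ℕ) : ℝ) * α + β) = ex ((e : ℝ) * α + β) * ex α := by
        rw [← ex_add]
        congr 1
        push_cast
        ring
      rw [this]
      ring
  have h1 : ‖∑ t ∈ Ico s e, ex ((t : ℝ) * α + β)‖ * ‖ex α - 1‖ ≤ 2 := by
    rw [← norm_mul, hsum]
    refine (norm_sub_le _ _).trans ?_
    rw [norm_ex, norm_ex]
    norm_num
  have h2 := four_nrm_le α
  have h3 := mul_le_mul_of_nonneg_left h2 (norm_nonneg (∑ t ∈ Ico s e, ex ((t : ℝ) * α + β)))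
  linarith

section group

variable {M : ℕ} [NeZero M]

lemma chi_Ico (ξ : ZMod M) (m n : ℤ) (s e : ℕ) :
    2 * nrm ((m : ℝ) * ((ξ.val : ℝ) / M)) * ‖∑ t ∈ Ico s e, chi ξ ((m * (t : ℤ) + n : ℤ) : ZMod M)‖ ≤ 1 := by
  have h1 : ∀ t : ℕ, chi ξ ((m * (t : ℤ) + n : ℤ) : ZMod M) =
      ex ((t : ℝ) * ((m : ℝ) * ((ξ.val : ℝ) / M)) + (n : ℝ) * ((ξ.val : ℝ) / M)) := by
    intro t
    rw [chi_int]
    congr 1
    push_cast
    ring
  simp only [h1]
  exact geo_Ico s e _ _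

/-- The average over `range H`. -/
lemma chi_tv (H : ℕ) (ξ : ZMod M) (m n : ℤ) :
    2 * H * nrm ((m : ℝ) * ((ξ.val : ℝ) / M)) * ‖tv H (fun t => chi ξ ((m * (t : ℤ) + n : ℤ) : ZMod M))‖ ≤ 1 := by
  rcases Nat.eq_zero_or_pos H with h0 | h0
  · subst h0
    simp
  · have h := chi_Ico ξ m n 0 H
    rw [← range_eq_Ico] at h
    unfold tv
    rw [norm_div, Complex.norm_natCast]
    have hH : (0 : ℝ) < H := by exact_mod_cast h0
    have e1 : 2 * (H : ℝ) * nrm ((m : ℝ) * ((ξ.val : ℝ) / M)) *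
        (‖∑ t ∈ range H, chi ξ ((m * (t : ℤ) + n : ℤ) : ZMod M)‖ / H) =
        2 * nrm ((m : ℝ) * ((ξ.val : ℝ) / M)) * ‖∑ t ∈ range H, chi ξ ((m * (t : ℤ) + n : ℤ) : ZMod M)‖ := by
      field_simp
    rw [e1]
    exact h

lemma norm_chi_sub_one_le (ξ : ZMod M) (m : ℤ) :
    ‖chi ξ (m : ZMod M) - 1‖ ≤ 7 * nrm ((m : ℝ) * ((ξ.val : ℝ) / M)) := by
  rw [chi_int]
  exact norm_ex_sub_one_le _

lemma mem_Maj (H K : ℕ) (ξ : ZMod M) :
    ξ ∈ Maj M H K ↔ ∃ q : ℕ, 1 ≤ q ∧ q ≤ K ∧ nrm ((q : ℝ) * ((ξ.val : ℝ) / M)) ≤ (K : ℝ) / (H : ℝ) ^ 2 := by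
  unfold Maj
  rw [mem_filter]
  constructor
  · rintro ⟨_, q, hq, h⟩
    rw [mem_Icc] at hq
    refine ⟨q, hq.1, hq.2, ?_⟩
    rw [Nat.cast_mul, mul_div_assoc] at h
    exact h
  · rintro ⟨q, h1, h2, h⟩
    refine ⟨mem_univ _, q, mem_Icc.mpr ⟨h1, h2⟩, ?_⟩
    rw [Nat.cast_mul, mul_div_assoc]
    exact h

lemma Maj_mono {H K K' : ℕ} (h : K ≤ K') : Maj M H K ⊆ Maj M H K' := by
  intro ξ hξ
  rw [mem_Maj] at hξ ⊢
  obtain ⟨q, h1, h2, h3⟩ := hξ
  refine ⟨q, h1, h2.trans h, h3.trans ?_⟩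
  have hK : (K : ℝ) ≤ K' := by exact_mod_cast h
  gcongr

lemma neg_mem_Maj {H K : ℕ} {ξ : ZMod M} (h : ξ ∈ Maj M H K) : -ξ ∈ Maj M H K := by
  by_cases h0 : ξ = 0
  · rw [h0, neg_zero, ← h0]
    exact h
  rw [mem_Maj] at h ⊢
  obtain ⟨q, h1, h2, h3⟩ := h
  refine ⟨q, h1, h2, ?_⟩
  have hM : (M : ℝ) ≠ 0 := Nat.cast_ne_zero.mpr (NeZero.ne M)
  have hv : ((-ξ).val : ℝ) = (M : ℝ) - ξ.val := by
    rw [ZMod.neg_val, if_neg h0, Nat.cast_sub (ZMod.val_lt ξ).le]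
  have e1 : (q : ℝ) * (((-ξ).val : ℝ) / M) = -((q : ℝ) * ((ξ.val : ℝ) / M)) + ((q : ℤ) : ℝ) := by
    rw [hv]
    push_cast
    field_simp
    ring
  rw [e1, nrm_add_int, nrm_ng]
  exact h3

end group

end Pool.Agent.NLT
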