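import Pool.Agent.Lib.NLT.ApWin

/-!
# Module Auto: autocorrelations summed over all differences

PROOF of `auto_gen`. `I` is a finite index set, `a i : ℤ → ℂ` are functions vanishing outside `[-Y, Y]` with
`∑ i ∈ I, ‖∑ n ∈ Icc (-Y) Y, a i n * ex (n θ)‖^2 ≤ D` for every real `θ`. Let `P = 4 Y + 1`. For fixed `i` the function
`c h = ∑ n ∈ Icc (-Y) Y, a i n * conj (E (n + h))` vanishes for `|h| > 2 Y`, and the integers of `[-2Y, 2Y]` are a system of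
representatives mod `P`, so (Plancherel for the finite exponential sums, orthogonality of `ex (h k / P)`, `k < P`)
`∑ h, ‖c h‖^2 = (1 / P) ∑_{k < P} ‖∑ h c h ex (-h k / P)‖^2 = (1 / P) ∑_{k < P} ‖∑ n a i n ex (n k / P)‖^2 ‖∑ m E m ex (m k / P)‖^2`.
Sum over `i` (hypothesis with `θ = k / P`): `≤ D (1 / P) ∑_{k < P} ‖∑ m E m ex (m k / P)‖^2 = D ∑ ‖E m‖^2`.
PROOF of `auto_win`: `auto_gen` with `I = U`, `a y n = E n ex (n β)` for `y < n ≤ y + W`, 0 otherwise (zero outside `[-Y, Y]`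
because `E` is); `θ + β` for `α` in `WB`. PROOF of `auto_ap`: `a n0 m = E m` for `m = n0 + q j`, `j < J`; `ap_win`.
-/

set_option autoImplicit false

open Finset Filter

namespace Pool.Agent.NLT

open Pool.Agent.HLT

namespace AutoAux

theorem ex_eq_one_iff {N : ℕ} (hN : 0 < N) (k : ℤ) : ex (k / N) = 1 ↔ (N : ℤ) ∣ k := by
  unfold ex
  rw [Complex.exp_eq_one_iff]
  have hN' : (N : ℂ) ≠ 0 := by exact_mod_cast hN.ne'
  have hpi : (2 * (Real.pi : ℂ) * Complex.I) ≠ 0 := Complex.two_pi_I_ne_zero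
  constructor
  · rintro ⟨m, hm⟩
    refine ⟨m, ?_⟩
    have h1 : ((k : ℂ) / N) * (2 * (Real.pi : ℂ) * Complex.I) =
        m * (2 * (Real.pi : ℂ) * Complex.I) := by
      rw [← hm]
      push_cast
      ring
    have h2 := mul_right_cancel₀ hpi h1
    rw [div_eq_iff hN'] at h2
    have h3 : ((k : ℤ) : ℂ) = ((N * m : ℤ) : ℂ) := by
      rw [h2]
      push_cast
      ring
    exact_mod_cast h3
  · rintro ⟨m, rfl⟩
    refine ⟨m, ?_⟩
    push_cast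
    field_simp

theorem sum_ex {N : ℕ} (hN : 0 < N) (k : ℤ) :
    ∑ ξ ∈ range N, ex (k * (ξ / N)) = if (N : ℤ) ∣ k then (N : ℂ) else 0 := by
  have h1 : ∀ ξ : ℕ, ex (k * (ξ / N)) = ex (k / N) ^ ξ := by
    intro ξ
    rw [← ex_nat_mul]
    congr 1
    ring
  simp_rw [h1]
  split_ifs with h
  · rw [(ex_eq_one_iff hN k).2 h]
    simp
  · have hne : ex (k / N) ≠ 1 := fun h' => h ((ex_eq_one_iff hN k).1 h')
    rw [geom_sum_eq hne]
    have h2 : ex (k / N) ^ N = 1 := by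
      rw [← ex_nat_mul]
      have h3 : ((N : ℝ) * ((k : ℝ) / N)) = ((k : ℤ) : ℝ) := by
        have : (N : ℝ) ≠ 0 := by exact_mod_cast hN.ne'
        field_simp
      rw [h3]
      exact ex_int k
    rw [h2, sub_self, zero_div]

theorem sq_expand (I : Finset ℤ) (f : ℤ → ℂ) (θ : ℝ) :
    ((‖∑ n ∈ I, f n * ex ((n : ℝ) * θ)‖ ^ 2 : ℝ) : ℂ) =
      ∑ n ∈ I, ∑ m ∈ I, f n * (starRingEnd ℂ) (f m) * ex (((n - m : ℤ) : ℝ) * θ) := by
  rw [← Complex.normSq_eq_norm_sq, ← Complex.mul_conj, map_sum, sum_mul_sum]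
  refine sum_congr rfl fun n _ => sum_congr rfl fun m _ => ?_
  have h1 : ex (((n - m : ℤ) : ℝ) * θ) = ex ((n : ℝ) * θ) * (starRingEnd ℂ) (ex ((m : ℝ) * θ)) := by
    rw [← ex_neg, ← ex_add]
    congr 1
    push_cast
    ring
  rw [h1, map_mul]
  ring

/-- Plancherel. -/
theorem planch (K P : ℕ) (hP : 2 * K + 1 ≤ P) (f : ℤ → ℂ) :
    ∑ k ∈ range P, ‖∑ n ∈ Icc (-(K : ℤ)) K, f n * ex ((n : ℝ) * ((k : ℝ) / P))‖ ^ 2 =
      P * ∑ n ∈ Icc (-(K : ℤ)) K, ‖f n‖ ^ 2 := by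
  have hP0 : 0 < P := by omega
  have h : ((∑ k ∈ range P, ‖∑ n ∈ Icc (-(K : ℤ)) K, f n * ex ((n : ℝ) * ((k : ℝ) / P))‖ ^ 2 : ℝ) :
      ℂ) = ((P * ∑ n ∈ Icc (-(K : ℤ)) K, ‖f n‖ ^ 2 : ℝ) : ℂ) := by
    rw [Complex.ofReal_sum]
    simp_rw [sq_expand]
    rw [sum_comm]
    rw [Complex.ofReal_mul, Complex.ofReal_natCast, Complex.ofReal_sum, mul_sum]
    refine sum_congr rfl fun n hn => ?_
    rw [sum_comm]
    have h1 : ∀ m ∈ Icc (-(K : ℤ)) K, ∑ k ∈ range P,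
        f n * (starRingEnd ℂ) (f m) * ex (((n - m : ℤ) : ℝ) * ((k : ℝ) / P)) =
        if m = n then (P : ℂ) * ((‖f n‖ ^ 2 : ℝ) : ℂ) else 0 := by
      intro m hm
      rw [← mul_sum, sum_ex hP0]
      rw [mem_Icc] at hn hm
      by_cases hmn : m = n
      · subst hmn
        rw [if_pos rfl, sub_self, if_pos (dvd_zero _), Complex.mul_conj,
          Complex.normSq_eq_norm_sq]
        ring
      · rw [if_neg hmn, if_neg, mul_zero]
        rintro ⟨c, hc⟩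
        rcases lt_trichotomy c 0 with h0 | h0 | h0
        · have : (P : ℤ) * c ≤ P * (-1) := by
            apply mul_le_mul_of_nonneg_left (by omega) (by omega)
          omega
        · subst h0
          rw [mul_zero] at hc
          omega
        · have : (P : ℤ) * 1 ≤ P * c := by
            apply mul_le_mul_of_nonneg_left (by omega) (by omega)
          omega
    rw [sum_congr rfl h1, sum_ite_eq', if_pos hn]
  exact_mod_cast h

/-- The exponential sum of the correlation. -/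
theorem corr_ex (a E : ℤ → ℂ) (Y : ℕ) (hE : ∀ n : ℤ, (Y : ℤ) < |n| → E n = 0) (θ : ℝ) :
    ∑ h ∈ Icc (-((2 * Y : ℕ) : ℤ)) (2 * Y : ℕ), (starRingEnd ℂ)
        (∑ n ∈ Icc (-(Y : ℤ)) Y, a n * (starRingEnd ℂ) (E (n + h))) * ex ((h : ℝ) * θ) =
      (starRingEnd ℂ) (∑ n ∈ Icc (-(Y : ℤ)) Y, a n * ex ((n : ℝ) * θ)) *
        ∑ m ∈ Icc (-(Y : ℤ)) Y, E m * ex ((m : ℝ) * θ) := by
  simp_rw [map_sum, sum_mul]
  rw [sum_comm]
  refine sum_congr rfl fun n hn => ?_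
  rw [mem_Icc] at hn
  rw [mul_sum]
  have h1 : ∑ h ∈ Icc (-((2 * Y : ℕ) : ℤ)) (2 * Y : ℕ),
      (starRingEnd ℂ) (a n * (starRingEnd ℂ) (E (n + h))) * ex ((h : ℝ) * θ) =
      ∑ m ∈ Icc (n - 2 * Y) (n + 2 * Y),
        (starRingEnd ℂ) (a n * ex ((n : ℝ) * θ)) * (E m * ex ((m : ℝ) * θ)) := by
    refine sum_bij' (fun h _ => n + h) (fun m _ => m - n) ?_ ?_ ?_ ?_ ?_
    · intro h hh
      rw [mem_Icc] at hh ⊢
      push_cast at hh
      constructor <;> omega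
    · intro m hm
      rw [mem_Icc] at hm ⊢
      push_cast
      constructor <;> omega
    · intro h _
      ring
    · intro m _
      ring
    · intro h _
      have h2 : ex ((h : ℝ) * θ) =
          (starRingEnd ℂ) (ex ((n : ℝ) * θ)) * ex (((n + h : ℤ) : ℝ) * θ) := by
        rw [← ex_neg, ← ex_add]
        congr 1
        push_cast
        ring
      rw [h2, map_mul, map_mul, Complex.conj_conj]
      ring
  rw [h1]
  symm
  apply sum_subset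
  · intro m hm
    rw [mem_Icc] at hm ⊢
    constructor <;> omega
  · intro m _ hm
    have : (Y : ℤ) < |m| := by
      rw [mem_Icc] at hm
      by_contra hc
      rw [not_lt, abs_le] at hc
      exact hm hc
    rw [hE m this, zero_mul, mul_zero]

theorem corr_zero (a E : ℤ → ℂ) (Y : ℕ) (hE : ∀ n : ℤ, (Y : ℤ) < |n| → E n = 0) (h : ℤ)
    (hh : h ∉ Icc (-((2 * Y : ℕ) : ℤ)) (2 * Y : ℕ)) :
    ∑ n ∈ Icc (-(Y : ℤ)) Y, a n * (starRingEnd ℂ) (E (n + h)) = 0 := by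
  refine sum_eq_zero fun n hn => ?_
  rw [mem_Icc] at hn hh
  have : (Y : ℤ) < |n + h| := by
    by_contra hc
    rw [not_lt, abs_le] at hc
    apply hh
    push_cast
    constructor <;> omega
  rw [hE _ this, map_zero, mul_zero]

theorem one (a E : ℤ → ℂ) (Y : ℕ) (hE : ∀ n : ℤ, (Y : ℤ) < |n| → E n = 0) :
    ((4 * Y + 1 : ℕ) : ℝ) * ∑ h ∈ Icc (-((2 * Y : ℕ) : ℤ)) (2 * Y : ℕ),
        ‖∑ n ∈ Icc (-(Y : ℤ)) Y, a n * (starRingEnd ℂ) (E (n + h))‖ ^ 2 =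
      ∑ k ∈ range (4 * Y + 1),
        ‖∑ n ∈ Icc (-(Y : ℤ)) Y, a n * ex ((n : ℝ) * ((k : ℝ) / (4 * Y + 1 : ℕ)))‖ ^ 2 *
        ‖∑ m ∈ Icc (-(Y : ℤ)) Y, E m * ex ((m : ℝ) * ((k : ℝ) / (4 * Y + 1 : ℕ)))‖ ^ 2 := by
  have h1 := planch (2 * Y) (4 * Y + 1) (by omega) (fun h => (starRingEnd ℂ)
    (∑ n ∈ Icc (-(Y : ℤ)) Y, a n * (starRingEnd ℂ) (E (n + h))))
  simp only [RCLike.norm_conj] at h1
  rw [← h1]
  refine sum_congr rfl fun k _ => ?_
  rw [corr_ex a E Y hE, norm_mul, RCLike.norm_conj, mul_pow]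

end AutoAux

open AutoAux

theorem auto_gen {ι : Type} (I : Finset ι) (a : ι → ℤ → ℂ) (E : ℤ → ℂ) (Y : ℕ)
    (hE : ∀ n : ℤ, (Y : ℤ) < |n| → E n = 0) (D : ℝ)
    (hD : ∀ θ : ℝ, ∑ i ∈ I, ‖∑ n ∈ Icc (-(Y : ℤ)) Y, a i n * ex ((n : ℝ) * θ)‖ ^ 2 ≤ D) (S : Finset ℤ) :
    ∑ h ∈ S, ∑ i ∈ I, ‖∑ n ∈ Icc (-(Y : ℤ)) Y, a i n * (starRingEnd ℂ) (E (n + h))‖ ^ 2 ≤
      (∑ n ∈ Icc (-(Y : ℤ)) Y, ‖E n‖ ^ 2) * D := by
  classical
  set J := Icc (-((2 * Y : ℕ) : ℤ)) (2 * Y : ℕ) with hJ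
  have hP0 : (0 : ℝ) < ((4 * Y + 1 : ℕ) : ℝ) := by exact_mod_cast Nat.succ_pos _
  have h1 : ∑ h ∈ S, ∑ i ∈ I, ‖∑ n ∈ Icc (-(Y : ℤ)) Y, a i n * (starRingEnd ℂ) (E (n + h))‖ ^ 2 ≤
      ∑ h ∈ J, ∑ i ∈ I, ‖∑ n ∈ Icc (-(Y : ℤ)) Y, a i n * (starRingEnd ℂ) (E (n + h))‖ ^ 2 := by
    have h2 : ∑ h ∈ S, ∑ i ∈ I,
        ‖∑ n ∈ Icc (-(Y : ℤ)) Y, a i n * (starRingEnd ℂ) (E (n + h))‖ ^ 2 =
        ∑ h ∈ S ∩ J, ∑ i ∈ I,
          ‖∑ n ∈ Icc (-(Y : ℤ)) Y, a i n * (starRingEnd ℂ) (E (n + h))‖ ^ 2 := by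
      symm
      apply sum_subset inter_subset_left
      intro h hS hJ'
      refine sum_eq_zero fun i _ => ?_
      rw [corr_zero (a i) E Y hE h (fun hc => hJ' (mem_inter.2 ⟨hS, hc⟩)), norm_zero]
      norm_num
    rw [h2]
    exact sum_le_sum_of_subset_of_nonneg inter_subset_right
      (fun _ _ _ => sum_nonneg fun _ _ => by positivity)
  refine h1.trans ?_
  rw [← mul_le_mul_iff_right₀ hP0, sum_comm, mul_sum]
  simp_rw [hJ, one _ E Y hE]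
  rw [sum_comm]
  have h3 := planch Y (4 * Y + 1) (by omega) E
  have h4 : ((4 * Y + 1 : ℕ) : ℝ) * ((∑ n ∈ Icc (-(Y : ℤ)) Y, ‖E n‖ ^ 2) * D) =
      ∑ k ∈ range (4 * Y + 1), D *
        ‖∑ m ∈ Icc (-(Y : ℤ)) Y, E m * ex ((m : ℝ) * ((k : ℝ) / (4 * Y + 1 : ℕ)))‖ ^ 2 := by
    rw [← mul_sum, h3]
    ring
  rw [h4]
  refine sum_le_sum fun k _ => ?_
  rw [← sum_mul]
  exact mul_le_mul_of_nonneg_right (hD _) (by positivity)

theorem auto_win (E : ℤ → ℂ) (Y : ℕ) (hE : ∀ n : ℤ, (Y : ℤ) < |n| → E n = 0) (W : ℕ) (D : ℝ) (hW : WB E W D)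
    (β : ℝ) (S U : Finset ℤ) :
    ∑ h ∈ S, ∑ y ∈ U, ‖∑ n ∈ Ioc y (y + W), cr h E n * ex ((n : ℝ) * β)‖ ^ 2 ≤
      (∑ n ∈ Icc (-(Y : ℤ)) Y, ‖E n‖ ^ 2) * D := by
  classical
  have hz : ∀ n : ℤ, n ∉ Icc (-(Y : ℤ)) Y → E n = 0 := by
    intro n hn
    apply hE
    by_contra hc
    rw [not_lt, abs_le] at hc
    exact hn (mem_Icc.2 hc)
  have key : ∀ (y : ℤ) (G : ℤ → ℂ), (∀ n, E n = 0 → G n = 0) →
      ∑ n ∈ Icc (-(Y : ℤ)) Y, (if n ∈ Ioc y (y + W) then G n else 0) =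
        ∑ n ∈ Ioc y (y + W), G n := by
    intro y G hG
    rw [← sum_filter, filter_mem_eq_inter]
    apply sum_subset inter_subset_right
    intro n hn hn'
    apply hG
    apply hz
    intro hc
    exact hn' (mem_inter.2 ⟨hc, hn⟩)
  have h1 := auto_gen U (fun y n => if n ∈ Ioc y (y + W) then E n * ex ((n : ℝ) * β) else 0) E Y
    hE D (by
      intro θ
      refine le_trans (le_of_eq ?_) (hW (θ + β) U)
      refine sum_congr rfl fun y _ => ?_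
      congr 2
      rw [← key y (fun n => E n * ex ((n : ℝ) * (θ + β))) (fun n hn => by rw [hn, zero_mul])]
      refine sum_congr rfl fun n _ => ?_
      split_ifs
      · rw [mul_assoc, ← ex_add]
        congr 2
        ring
      · rw [zero_mul]) S
  refine le_trans (le_of_eq ?_) h1
  refine sum_congr rfl fun h _ => sum_congr rfl fun y _ => ?_
  congr 2
  rw [← key y (fun n => cr h E n * ex ((n : ℝ) * β))
    (fun n hn => by unfold cr; rw [hn, zero_mul, zero_mul])]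
  refine sum_congr rfl fun n _ => ?_
  split_ifs
  · unfold cr
    ring
  · rw [zero_mul]

theorem auto_ap (E : ℤ → ℂ) (Y : ℕ) (hE : ∀ n : ℤ, (Y : ℤ) < |n| → E n = 0) (q J : ℕ) (hq : 1 ≤ q) (D : ℝ)
    (hW : WB E (q * J) D) (S U : Finset ℤ) :
    ∑ h ∈ S, ∑ n ∈ U, ‖∑ j ∈ range J, cr h E (n + q * j)‖ ^ 2 ≤
      (∑ n ∈ Icc (-(Y : ℤ)) Y, ‖E n‖ ^ 2) * D := by
  classical
  have hz : ∀ n : ℤ, n ∉ Icc (-(Y : ℤ)) Y → E n = 0 := by
    intro n hn
    apply hE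
    by_contra hc
    rw [not_lt, abs_le] at hc
    exact hn (mem_Icc.2 hc)
  have key : ∀ (y : ℤ) (G : ℤ → ℂ), (∀ n, E n = 0 → G n = 0) →
      ∑ m ∈ Icc (-(Y : ℤ)) Y, (∑ j ∈ range J, if m = y + q * j then G m else 0) =
        ∑ j ∈ range J, G (y + q * j) := by
    intro y G hG
    rw [sum_comm]
    refine sum_congr rfl fun j _ => ?_
    rw [sum_ite_eq']
    split_ifs with hc
    · rfl
    · exact (hG _ (hz _ hc)).symm
  have h1 := auto_gen U (fun y m => ∑ j ∈ range J, if m = y + q * j then E m else 0) E Y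
    hE D (by
      intro θ
      refine le_trans (le_of_eq ?_) (ap_win E q J hq D hW θ U)
      refine sum_congr rfl fun y _ => ?_
      congr 2
      rw [← key y (fun n => E n * ex ((n : ℝ) * θ)) (fun n hn => by rw [hn, zero_mul])]
      refine sum_congr rfl fun n _ => ?_
      rw [sum_mul]
      refine sum_congr rfl fun j _ => ?_
      split_ifs
      · rfl
      · rw [zero_mul]) S
  refine le_trans (le_of_eq ?_) h1
  refine sum_congr rfl fun h _ => sum_congr rfl fun y _ => ?_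
  congr 2
  rw [← key y (fun n => cr h E n) (fun n hn => by unfold cr; rw [hn, zero_mul])]
  refine sum_congr rfl fun n _ => ?_
  rw [sum_mul]
  refine sum_congr rfl fun j _ => ?_
  split_ifs
  · rfl
  · rw [zero_mul]

end Pool.Agent.NLT
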