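import Pool.Agent.Lib.NLT.WDefs

/-!
# Module Blocks: many blocks on which the counting operator is large

`b = bb a c d`, `B = b H^2`, `N2 = (2 b + 1) H^2`, `P t = PP c d t`; `|a t|, |P t| ≤ b H^2` for `t < H`.

PROOF. Expand the squares, `n' = n + h`: the sum is `S = ∑_{|h| ≤ X} ∑ n ∑_{t < H} cr h w n * cr h g (n + a t) * cr h e (n + P t)`
(`cr h w n = w n conj w (n + h)` vanishes unless `0 < n, n + h ≤ X`; real and equal to the left side). Every `n ∈ (0, X]` is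
`y + z` with `z ∈ (B, B + H^2]` for exactly `H^2` integers `y`, all in `[-B - H^2, X]`, so `H^2 S = ∑_{|h| ≤ X} ∑_{y ∈ [-B - H^2, X]} T h y`,
`T h y = ∑_{z ∈ (B, B + H^2]} ∑_t cr h w (y + z) * cr h g (y + z + a t) * cr h e (y + z + P t)`. `‖T h y‖ ≤ H^3`, and there are at most
`(2 X + 1) (X + B + H^2 + 1) ≤ 3 X * (b + 3) X` pairs. Since `H^3 X^2 / R < ∑ ‖T h y‖`, the set `P` of the pairs with
`‖T h y‖ ≥ H^3 / (6 (b + 3) R)` has at least `X^2 / (2 R)` elements. Finally `T h y = M H * TT a c d H (..)` for the block functions: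
for `z : ZMod M` with `B < z.val ≤ B + H^2` the residues `z + a t`, `z + P t` have the values `z.val + a t`, `z.val + P t`, which lie in
`(0, N2]` (`N2 < M`), and other `z` contribute 0. `‖TT‖ ≥ H^2 / (6 (b + 3) R M) ≥ 1 / (24 (b + 3) (b + 1) R) ≥ R^-C` because
`M ≤ 4 (b + 1) H^2`. (`|p.2| ≤ B + H^2 + X ≤ (b + 2) X`.)
-/

set_option autoImplicit false

open Finset Filter

namespace Pool.Agent.NLT

open Pool.Agent.HLT

namespace BlocksAux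

lemma val_add_int {M : ℕ} [NeZero M] (x : ZMod M) (k : ℤ) (h0 : 0 ≤ (x.val : ℤ) + k)
    (h1 : (x.val : ℤ) + k < M) : ((x + (k : ZMod M)).val : ℤ) = (x.val : ℤ) + k := by
  obtain ⟨m, hm⟩ := Int.eq_ofNat_of_zero_le h0
  have hx : x + (k : ZMod M) = (m : ZMod M) := by
    have h2 : ((((x.val : ℤ) + k : ℤ)) : ZMod M) = ((m : ℤ) : ZMod M) := by rw [hm]
    push_cast at h2
    rw [ZMod.natCast_zmod_val] at h2
    exact h2
  have hmM : m < M := by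
    have h3 : (m : ℤ) < M := by rw [← hm]; exact h1
    exact_mod_cast h3
  rw [hx, ZMod.val_natCast_of_lt hmM]
  exact hm.symm

lemma bb_cast (a c d : ℤ) : ((bb a c d : ℕ) : ℤ) = |a| + |c| + |d| := by
  unfold bb
  push_cast
  rfl

lemma lin_bound (a c d : ℤ) {H t : ℕ} (ht : t < H) : |a * (t : ℤ)| ≤ (bb a c d : ℤ) * (H : ℤ) ^ 2 := by
  rw [bb_cast, abs_mul]
  have h1 : (0 : ℤ) ≤ t := Int.natCast_nonneg t
  have h2 : (t : ℤ) < H := by exact_mod_cast ht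
  rw [abs_of_nonneg h1]
  have h3 : (t : ℤ) ≤ (H : ℤ) ^ 2 := by nlinarith
  have h4 : |a| * (t : ℤ) ≤ |a| * (H : ℤ) ^ 2 := mul_le_mul_of_nonneg_left h3 (abs_nonneg a)
  have h5 : 0 ≤ (|c| + |d|) * (H : ℤ) ^ 2 := by positivity
  nlinarith

lemma quad_bound (a c d : ℤ) {H t : ℕ} (ht : t < H) : |PP c d t| ≤ (bb a c d : ℤ) * (H : ℤ) ^ 2 := by
  unfold PP
  rw [bb_cast]
  have h1 : (0 : ℤ) ≤ t := Int.natCast_nonneg t
  have h2 : (t : ℤ) < H := by exact_mod_cast ht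
  have h3 : (t : ℤ) ≤ (H : ℤ) ^ 2 := by nlinarith
  have h3' : (t : ℤ) ^ 2 ≤ (H : ℤ) ^ 2 := pow_le_pow_left₀ h1 h2.le 2
  have h4 : |c * (t : ℤ) ^ 2 + d * t| ≤ |c| * (t : ℤ) ^ 2 + |d| * t := by
    refine (abs_add_le _ _).trans ?_
    rw [abs_mul, abs_mul, abs_of_nonneg h1, abs_of_nonneg (pow_nonneg h1 2)]
  have h5 : |c| * (t : ℤ) ^ 2 ≤ |c| * (H : ℤ) ^ 2 := mul_le_mul_of_nonneg_left h3' (abs_nonneg c)
  have h6 : |d| * (t : ℤ) ≤ |d| * (H : ℤ) ^ 2 := mul_le_mul_of_nonneg_left h3 (abs_nonneg d)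
  have h7 : 0 ≤ |a| * (H : ℤ) ^ 2 := by positivity
  nlinarith

/-- the sum over a long interval of a function supported on `(0, X]` -/
lemma shift_full {X : ℕ} (f : ℤ → ℂ) (hf : ∀ n : ℤ, ¬ (0 < n ∧ n ≤ X) → f n = 0) (lo hi z : ℤ)
    (h1 : lo + z ≤ 1) (h2 : (X : ℤ) ≤ hi + z) :
    ∑ y ∈ Icc lo hi, f (y + z) = ∑ n ∈ Ioc (0 : ℤ) X, f n := by
  have e1 : ∑ y ∈ Icc lo hi, f (y + z) = ∑ n ∈ Icc (lo + z) (hi + z), f n := by
    rw [← Finset.map_add_right_Icc, Finset.sum_map]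
    rfl
  rw [e1]
  symm
  apply Finset.sum_subset
  · intro n hn
    rw [Finset.mem_Ioc] at hn
    rw [Finset.mem_Icc]
    omega
  · intro n _ hn
    rw [Finset.mem_Ioc] at hn
    exact hf n hn

lemma expand {X : ℕ} (F : ℤ → ℂ) (hF : ∀ n : ℤ, ¬ (0 < n ∧ n ≤ X) → F n = 0) :
    ((‖∑ n ∈ Ioc (0 : ℤ) X, F n‖ ^ 2 : ℝ) : ℂ) =
      ∑ h ∈ Icc (-(X : ℤ)) X, ∑ n ∈ Ioc (0 : ℤ) X, F n * (starRingEnd ℂ) (F (n + h)) := by
  rw [Finset.sum_comm]
  have e1 : ((‖∑ n ∈ Ioc (0 : ℤ) X, F n‖ ^ 2 : ℝ) : ℂ) =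
      (∑ n ∈ Ioc (0 : ℤ) X, F n) * (starRingEnd ℂ) (∑ n ∈ Ioc (0 : ℤ) X, F n) := by
    rw [Complex.mul_conj, Complex.normSq_eq_norm_sq]
  rw [e1, Finset.sum_mul]
  refine Finset.sum_congr rfl fun n hn => ?_
  rw [← Finset.mul_sum, ← map_sum]
  rw [Finset.mem_Ioc] at hn
  have e2 := shift_full F hF (-(X : ℤ)) X n (by omega) (by omega)
  rw [← e2]
  congr 2
  refine Finset.sum_congr rfl fun h _ => ?_
  rw [add_comm]

/-- the sum over the residues -/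
lemma sum_val {M : ℕ} [NeZero M] (lo hi : ℕ) (hM : hi < M) (f : ℤ → ℂ) :
    ∑ x : ZMod M, (if lo < x.val ∧ x.val ≤ hi then f (x.val : ℤ) else 0) =
      ∑ z ∈ Ioc (lo : ℤ) hi, f z := by
  rw [← Finset.sum_filter]
  refine Finset.sum_nbij' (fun x => (x.val : ℤ)) (fun z => ((z.toNat : ℕ) : ZMod M)) ?_ ?_ ?_ ?_ ?_
  · intro x hx
    obtain ⟨h1, h2⟩ := (Finset.mem_filter.1 hx).2
    exact Finset.mem_Ioc.2 ⟨by exact_mod_cast h1, by exact_mod_cast h2⟩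
  · intro z hz
    rw [Finset.mem_Ioc] at hz
    rw [Finset.mem_filter]
    refine ⟨Finset.mem_univ _, ?_⟩
    rw [ZMod.val_natCast_of_lt (by omega)]
    omega
  · intro x _
    show (((x.val : ℤ).toNat : ℕ) : ZMod M) = x
    rw [Int.toNat_natCast, ZMod.natCast_zmod_val]
  · intro z hz
    rw [Finset.mem_Ioc] at hz
    show ((((z.toNat : ℕ) : ZMod M).val : ℕ) : ℤ) = z
    rw [ZMod.val_natCast_of_lt (by omega)]
    omega
  · intro x _
    rfl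

lemma cr_norm {f : ℤ → ℂ} (hf : Bd f) (h n : ℤ) : ‖cr h f n‖ ≤ 1 := by
  unfold cr
  rw [norm_mul, Complex.norm_conj]
  exact mul_le_one₀ (hf _) (norm_nonneg _) (hf _)

/-- the summand -/
noncomputable def fs (a c d : ℤ) (w g e : ℤ → ℂ) (h n : ℤ) (t : ℕ) : ℂ :=
  cr h w n * cr h g (n + a * t) * cr h e (n + PP c d t)

/-- the block sum -/
noncomputable def bs (a c d : ℤ) (H : ℕ) (w g e : ℤ → ℂ) (h y : ℤ) : ℂ :=
  ∑ z ∈ Ioc (((bb a c d * H ^ 2 : ℕ)) : ℤ) (((bb a c d + 1) * H ^ 2 : ℕ)),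
    ∑ t ∈ range H, fs a c d w g e h (y + z) t

lemma fs_norm (a c d : ℤ) {w g e : ℤ → ℂ} (hw : Bd w) (hg : Bd g) (he : Bd e) (h n : ℤ) (t : ℕ) :
    ‖fs a c d w g e h n t‖ ≤ 1 := by
  unfold fs
  rw [norm_mul, norm_mul]
  exact mul_le_one₀ (mul_le_one₀ (cr_norm hw _ _) (norm_nonneg _) (cr_norm hg _ _))
    (norm_nonneg _) (cr_norm he _ _)

lemma fs_zero (a c d : ℤ) {w : ℤ → ℂ} (g e : ℤ → ℂ) {X : ℕ}
    (hw : ∀ n : ℤ, ¬ (0 < n ∧ n ≤ X) → w n = 0) (h n : ℤ) (t : ℕ) (hn : ¬ (0 < n ∧ n ≤ X)) :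
    fs a c d w g e h n t = 0 := by
  unfold fs cr
  rw [hw n hn]
  simp

lemma bs_norm (a c d : ℤ) (H : ℕ) {w g e : ℤ → ℂ} (hw : Bd w) (hg : Bd g) (he : Bd e) (h y : ℤ) :
    ‖bs a c d H w g e h y‖ ≤ (H : ℝ) ^ 3 := by
  unfold bs
  refine (norm_sum_le _ _).trans ?_
  have h1 : ∀ z ∈ Ioc (((bb a c d * H ^ 2 : ℕ)) : ℤ) (((bb a c d + 1) * H ^ 2 : ℕ)),
      ‖∑ t ∈ range H, fs a c d w g e h (y + z) t‖ ≤ (H : ℝ) := by
    intro z _
    refine (norm_sum_le _ _).trans ?_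
    calc ∑ t ∈ range H, ‖fs a c d w g e h (y + z) t‖ ≤ ∑ _t ∈ range H, (1 : ℝ) :=
          Finset.sum_le_sum fun t _ => fs_norm a c d hw hg he _ _ _
      _ = H := by simp
  refine (Finset.sum_le_sum h1).trans ?_
  rw [Finset.sum_const, nsmul_eq_mul, Int.card_Ioc]
  have h2 : ((((bb a c d + 1) * H ^ 2 : ℕ) : ℤ) - ((bb a c d * H ^ 2 : ℕ) : ℤ)).toNat = H ^ 2 := by
    have : (((bb a c d + 1) * H ^ 2 : ℕ) : ℤ) - ((bb a c d * H ^ 2 : ℕ) : ℤ) = ((H ^ 2 : ℕ) : ℤ) := by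
      push_cast
      ring
    rw [this]
    exact Int.toNat_natCast _
  rw [h2]
  push_cast
  apply le_of_eq
  ring

/-- `TT` of the block functions is the block sum -/
lemma bs_eq (a c d : ℤ) (H M : ℕ) [NeZero M] (hH : 1 ≤ H)
    (hM : (2 * bb a c d + 2) * H ^ 2 ≤ M) (w g e : ℤ → ℂ) (h y : ℤ) :
    TT a c d H
        (bl M y (bb a c d * H ^ 2) ((bb a c d + 1) * H ^ 2) (cr h w))
        (bl M y 0 ((2 * bb a c d + 1) * H ^ 2) (cr h g))
        (bl M y 0 ((2 * bb a c d + 1) * H ^ 2) (cr h e)) =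
      bs a c d H w g e h y / (M * H) := by
  have hH2 : 1 ≤ H ^ 2 := Nat.one_le_pow _ _ hH
  have key : ∀ t ∈ range H, ∑ x : ZMod M,
      bl M y (bb a c d * H ^ 2) ((bb a c d + 1) * H ^ 2) (cr h w) x *
      bl M y 0 ((2 * bb a c d + 1) * H ^ 2) (cr h g) (x + ((a * (t : ℤ) : ℤ) : ZMod M)) *
      bl M y 0 ((2 * bb a c d + 1) * H ^ 2) (cr h e) (x + ((PP c d t : ℤ) : ZMod M)) =
      ∑ z ∈ Ioc (((bb a c d * H ^ 2 : ℕ)) : ℤ) (((bb a c d + 1) * H ^ 2 : ℕ)),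
        fs a c d w g e h (y + z) t := by
    intro t ht
    rw [Finset.mem_range] at ht
    rw [← sum_val (M := M) (bb a c d * H ^ 2) ((bb a c d + 1) * H ^ 2) (by nlinarith)
      (fun z => fs a c d w g e h (y + z) t)]
    refine Finset.sum_congr rfl fun x _ => ?_
    by_cases hx : bb a c d * H ^ 2 < x.val ∧ x.val ≤ (bb a c d + 1) * H ^ 2
    · have hM' : ((2 * bb a c d + 2 : ℕ) : ℤ) * (H : ℤ) ^ 2 ≤ M := by exact_mod_cast hM
      have hx1 : ((bb a c d : ℕ) : ℤ) * (H : ℤ) ^ 2 < x.val := by exact_mod_cast hx.1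
      have hx2 : (x.val : ℤ) ≤ ((bb a c d : ℕ) + 1 : ℤ) * (H : ℤ) ^ 2 := by exact_mod_cast hx.2
      have hH2' : (1 : ℤ) ≤ (H : ℤ) ^ 2 := by exact_mod_cast hH2
      push_cast at hM'
      have aux : ∀ k : ℤ, |k| ≤ (bb a c d : ℤ) * (H : ℤ) ^ 2 → ∀ u : ℤ → ℂ,
          bl M y 0 ((2 * bb a c d + 1) * H ^ 2) u (x + (k : ZMod M)) = u (y + x.val + k) := by
        intro k hk u
        obtain ⟨hk1, hk2⟩ := abs_le.1 hk
        have hv := val_add_int x k (by linarith) (by nlinarith)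
        have hv1 : (0 : ℤ) < ((x + (k : ZMod M)).val : ℤ) := by rw [hv]; linarith
        have hv2 : ((x + (k : ZMod M)).val : ℤ) ≤ ((2 * bb a c d + 1) * H ^ 2 : ℕ) := by
          rw [hv]
          push_cast
          nlinarith
        unfold bl
        rw [if_pos ⟨by exact_mod_cast hv1, by exact_mod_cast hv2⟩, hv]
        congr 1
        ring
      rw [aux _ (lin_bound a c d ht), aux _ (quad_bound a c d ht), if_pos hx]
      unfold bl fs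
      rw [if_pos hx]
    · rw [if_neg hx]
      unfold bl
      rw [if_neg hx]
      simp
  unfold TT tv av bs
  rw [Finset.sum_comm]
  have e2 : ∀ t ∈ range H, (∑ x : ZMod M,
      bl M y (bb a c d * H ^ 2) ((bb a c d + 1) * H ^ 2) (cr h w) x *
      bl M y 0 ((2 * bb a c d + 1) * H ^ 2) (cr h g) (x + ((a * (t : ℤ) : ℤ) : ZMod M)) *
      bl M y 0 ((2 * bb a c d + 1) * H ^ 2) (cr h e) (x + ((PP c d t : ℤ) : ZMod M))) / (M : ℂ) =
      (∑ z ∈ Ioc (((bb a c d * H ^ 2 : ℕ)) : ℤ) (((bb a c d + 1) * H ^ 2 : ℕ)),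
        fs a c d w g e h (y + z) t) / (M : ℂ) := fun t ht => by rw [key t ht]
  rw [Finset.sum_congr rfl e2, ← Finset.sum_div, div_div]

lemma total (a c d : ℤ) (H X : ℕ) {w : ℤ → ℂ} (g e : ℤ → ℂ)
    (hw : ∀ n : ℤ, ¬ (0 < n ∧ n ≤ X) → w n = 0) :
    ∑ h ∈ Icc (-(X : ℤ)) X, ∑ y ∈ Icc (-(((bb a c d + 1) * H ^ 2 : ℕ) : ℤ)) X,
        bs a c d H w g e h y =
      (H : ℂ) ^ 2 * ((∑ t ∈ range H, ‖∑ n ∈ Ioc (0 : ℤ) X,
        w n * g (n + a * t) * e (n + PP c d t)‖ ^ 2 : ℝ) : ℂ) := by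
  have e1 : ∀ h ∈ Icc (-(X : ℤ)) X, ∑ y ∈ Icc (-(((bb a c d + 1) * H ^ 2 : ℕ) : ℤ)) X,
      bs a c d H w g e h y =
      (H : ℂ) ^ 2 * ∑ t ∈ range H, ∑ n ∈ Ioc (0 : ℤ) X, fs a c d w g e h n t := by
    intro h _
    unfold bs
    rw [Finset.sum_comm]
    have e2 : ∀ z ∈ Ioc (((bb a c d * H ^ 2 : ℕ)) : ℤ) (((bb a c d + 1) * H ^ 2 : ℕ)),
        ∑ y ∈ Icc (-(((bb a c d + 1) * H ^ 2 : ℕ) : ℤ)) X,
          ∑ t ∈ range H, fs a c d w g e h (y + z) t =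
        ∑ t ∈ range H, ∑ n ∈ Ioc (0 : ℤ) X, fs a c d w g e h n t := by
      intro z hz
      rw [Finset.mem_Ioc] at hz
      rw [Finset.sum_comm]
      refine Finset.sum_congr rfl fun t _ => ?_
      have h0 : (0 : ℤ) ≤ ((bb a c d * H ^ 2 : ℕ) : ℤ) := Int.natCast_nonneg _
      exact shift_full (fun n => fs a c d w g e h n t)
        (fun n hn => fs_zero a c d g e hw h n t hn) _ _ z (by omega) (by omega)
    rw [Finset.sum_congr rfl e2, Finset.sum_const, nsmul_eq_mul, Int.card_Ioc]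
    have h2 : ((((bb a c d + 1) * H ^ 2 : ℕ) : ℤ) - ((bb a c d * H ^ 2 : ℕ) : ℤ)).toNat = H ^ 2 := by
      have : (((bb a c d + 1) * H ^ 2 : ℕ) : ℤ) - ((bb a c d * H ^ 2 : ℕ) : ℤ) =
          ((H ^ 2 : ℕ) : ℤ) := by
        push_cast
        ring
      rw [this]
      exact Int.toNat_natCast _
    rw [h2]
    push_cast
    rfl
  rw [Finset.sum_congr rfl e1, ← Finset.mul_sum]
  congr 1
  rw [Complex.ofReal_sum, Finset.sum_comm]
  refine Finset.sum_congr rfl fun t _ => ?_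
  rw [expand (fun n => w n * g (n + a * t) * e (n + PP c d t))]
  · refine Finset.sum_congr rfl fun h _ => Finset.sum_congr rfl fun n _ => ?_
    unfold fs cr
    have e3 : n + h + a * (t : ℤ) = n + a * t + h := by ring
    have e4 : n + h + PP c d t = n + PP c d t + h := by ring
    simp only [map_mul, e3, e4]
    ring
  · intro n hn
    rw [hw n hn]
    simp

end BlocksAux

open BlocksAux

theorem many_blocks (a c d : ℤ) : ∃ C : ℕ, ∀ (R H X M : ℕ) [NeZero M], 2 ≤ R → R ^ C ≤ H → H ^ 2 ≤ X →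
    (2 * bb a c d + 2) * H ^ 2 ≤ M → M ≤ 2 * ((2 * bb a c d + 2) * H ^ 2) →
    ∀ w g e : ℤ → ℂ, Bd w → Bd g → Bd e → (∀ n : ℤ, ¬ (0 < n ∧ n ≤ X) → w n = 0) →
    (H : ℝ) * X ^ 2 / R <
      ∑ t ∈ range H, ‖∑ n ∈ Ioc (0 : ℤ) X, w n * g (n + a * t) * e (n + PP c d t)‖ ^ 2 →
    ∃ P : Finset (ℤ × ℤ), (X : ℝ) ^ 2 / (R : ℝ) ^ C ≤ P.card ∧ ∀ p ∈ P, |p.1| ≤ X ∧ |p.2| ≤ C * X ∧
      1 / (R : ℝ) ^ C ≤ ‖TT a c d H
        (bl M p.2 (bb a c d * H ^ 2) ((bb a c d + 1) * H ^ 2) (cr p.1 w))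
        (bl M p.2 0 ((2 * bb a c d + 1) * H ^ 2) (cr p.1 g))
        (bl M p.2 0 ((2 * bb a c d + 1) * H ^ 2) (cr p.1 e))‖ := by
  classical
  set b := bb a c d with hb
  refine ⟨2 * b + 20, ?_⟩
  intro R H X M _ hR hRH hHX hM1 hM2 w g e hw hg he hsupp hbig
  have hR0 : 0 < R := by omega
  have hH1 : 1 ≤ H := le_trans (Nat.one_le_pow _ _ hR0) hRH
  have hHr : (1 : ℝ) ≤ H := by exact_mod_cast hH1
  have hHp : (0 : ℝ) < H := by linarith
  have hRr : (2 : ℝ) ≤ R := by exact_mod_cast hR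
  have hRp : (0 : ℝ) < R := by linarith
  have hHXr : (H : ℝ) ^ 2 ≤ X := by exact_mod_cast hHX
  have hX1 : (1 : ℝ) ≤ X := le_trans (one_le_pow₀ hHr) hHXr
  have hbr : (0 : ℝ) ≤ b := Nat.cast_nonneg b
  set S : ℝ := ∑ t ∈ range H, ‖∑ n ∈ Ioc (0 : ℤ) X, w n * g (n + a * t) * e (n + PP c d t)‖ ^ 2
    with hS
  have hS0 : 0 ≤ S := Finset.sum_nonneg fun _ _ => by positivity
  set Q : Finset (ℤ × ℤ) := Icc (-(X : ℤ)) X ×ˢ Icc (-(((b + 1) * H ^ 2 : ℕ) : ℤ)) X with hQ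
  set τ : ℝ := (H : ℝ) ^ 3 / (6 * (b + 3) * R) with hτ
  have hτ0 : 0 < τ := by positivity
  have htot := total a c d H X g e hsupp
  rw [← hS, ← hb] at htot
  have h1 : (H : ℝ) ^ 2 * S ≤ ∑ p ∈ Q, ‖bs a c d H w g e p.1 p.2‖ := by
    have e1 : (H : ℝ) ^ 2 * S = ‖(H : ℂ) ^ 2 * (S : ℂ)‖ := by
      rw [norm_mul, norm_pow, Complex.norm_natCast, Complex.norm_real, Real.norm_of_nonneg hS0]
    rw [e1, ← htot, ← Finset.sum_product']
    exact norm_sum_le _ _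
  have hcard : (Q.card : ℝ) ≤ 3 * (b + 3) * (X : ℝ) ^ 2 := by
    rw [hQ, Finset.card_product, Int.card_Icc, Int.card_Icc]
    have e1 : ((X : ℤ) + 1 - -(X : ℤ)).toNat = 2 * X + 1 := by omega
    have e2 : ((X : ℤ) + 1 - -(((b + 1) * H ^ 2 : ℕ) : ℤ)).toNat = X + 1 + (b + 1) * H ^ 2 := by
      omega
    rw [e1, e2]
    push_cast
    have e3 : 2 * (X : ℝ) + 1 ≤ 3 * X := by linarith
    have e4 : (X : ℝ) + 1 + (b + 1) * (H : ℝ) ^ 2 ≤ (b + 3) * X := by nlinarith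
    calc (2 * (X : ℝ) + 1) * ((X : ℝ) + 1 + (b + 1) * (H : ℝ) ^ 2)
        ≤ (3 * X) * ((b + 3) * X) := mul_le_mul e3 e4 (by positivity) (by positivity)
      _ = 3 * (b + 3) * (X : ℝ) ^ 2 := by ring
  refine ⟨Q.filter (fun p => τ ≤ ‖bs a c d H w g e p.1 p.2‖), ?_, ?_⟩
  · set P := Q.filter (fun p => τ ≤ ‖bs a c d H w g e p.1 p.2‖) with hP
    have h2 : ∑ p ∈ Q, ‖bs a c d H w g e p.1 p.2‖ ≤ P.card * (H : ℝ) ^ 3 + Q.card * τ := by
      rw [← Finset.sum_filter_add_sum_filter_not Q (fun p => τ ≤ ‖bs a c d H w g e p.1 p.2‖)]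
      apply add_le_add
      · rw [← hP]
        calc ∑ p ∈ P, ‖bs a c d H w g e p.1 p.2‖ ≤ ∑ _p ∈ P, (H : ℝ) ^ 3 :=
              Finset.sum_le_sum fun p _ => bs_norm a c d H hw hg he _ _
          _ = _ := by rw [Finset.sum_const, nsmul_eq_mul]
      · calc ∑ p ∈ Q.filter (fun p => ¬ τ ≤ ‖bs a c d H w g e p.1 p.2‖),
              ‖bs a c d H w g e p.1 p.2‖
            ≤ ∑ _p ∈ Q.filter (fun p => ¬ τ ≤ ‖bs a c d H w g e p.1 p.2‖), τ :=
              Finset.sum_le_sum fun p hp => (not_le.1 (Finset.mem_filter.1 hp).2).le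
          _ = ((Q.filter (fun p => ¬ τ ≤ ‖bs a c d H w g e p.1 p.2‖)).card : ℝ) * τ := by
              rw [Finset.sum_const, nsmul_eq_mul]
          _ ≤ Q.card * τ := by
              apply mul_le_mul_of_nonneg_right _ hτ0.le
              exact_mod_cast Finset.card_filter_le _ _
    have h3 : (Q.card : ℝ) * τ ≤ (H : ℝ) ^ 3 * (X : ℝ) ^ 2 / (2 * R) := by
      calc (Q.card : ℝ) * τ ≤ (3 * (b + 3) * (X : ℝ) ^ 2) * τ :=
            mul_le_mul_of_nonneg_right hcard hτ0.le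
        _ = (H : ℝ) ^ 3 * (X : ℝ) ^ 2 / (2 * R) := by
            rw [hτ]
            field_simp
            ring
    have h4 : (H : ℝ) ^ 3 * (X : ℝ) ^ 2 / R < (H : ℝ) ^ 2 * S := by
      calc (H : ℝ) ^ 3 * (X : ℝ) ^ 2 / R = (H : ℝ) ^ 2 * ((H : ℝ) * X ^ 2 / R) := by ring
        _ < (H : ℝ) ^ 2 * S := mul_lt_mul_of_pos_left hbig (by positivity)
    have h5 : (H : ℝ) ^ 3 * (X : ℝ) ^ 2 / R = 2 * ((H : ℝ) ^ 3 * (X : ℝ) ^ 2 / (2 * R)) := by
      field_simp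
    have h6 : (H : ℝ) ^ 3 * ((X : ℝ) ^ 2 / (2 * R)) ≤ (H : ℝ) ^ 3 * (P.card : ℝ) := by
      have e1 : (H : ℝ) ^ 3 * ((X : ℝ) ^ 2 / (2 * R)) = (H : ℝ) ^ 3 * (X : ℝ) ^ 2 / (2 * R) := by
        ring
      rw [e1]
      linarith
    have h7 : (X : ℝ) ^ 2 / (2 * R) ≤ P.card := le_of_mul_le_mul_left h6 (by positivity)
    refine le_trans ?_ h7
    apply div_le_div_of_nonneg_left (by positivity) (by positivity)
    calc 2 * (R : ℝ) ≤ R * R := mul_le_mul_of_nonneg_right hRr hRp.le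
      _ = (R : ℝ) ^ 2 := by ring
      _ ≤ (R : ℝ) ^ (2 * b + 20) := pow_le_pow_right₀ (by linarith) (by omega)
  · intro p hp
    obtain ⟨hpQ, hpτ⟩ := Finset.mem_filter.1 hp
    rw [hQ, Finset.mem_product, Finset.mem_Icc, Finset.mem_Icc] at hpQ
    obtain ⟨⟨hp1, hp2⟩, hp3, hp4⟩ := hpQ
    refine ⟨abs_le.2 ⟨hp1, hp2⟩, ?_, ?_⟩
    · have hHX' : (H : ℤ) ^ 2 ≤ X := by exact_mod_cast hHX
      have hX0 : (0 : ℤ) ≤ X := Int.natCast_nonneg X
      have hb0 : (0 : ℤ) ≤ b := Int.natCast_nonneg b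
      push_cast at hp3 ⊢
      have h8 : ((b : ℤ) + 1) * (H : ℤ) ^ 2 ≤ ((b : ℤ) + 1) * X :=
        mul_le_mul_of_nonneg_left hHX' (by positivity)
      have h9 : ((b : ℤ) + 1) * X ≤ (2 * (b : ℤ) + 20) * X :=
        mul_le_mul_of_nonneg_right (by linarith) hX0
      have h10 : (X : ℤ) ≤ (2 * (b : ℤ) + 20) * X := by nlinarith
      exact abs_le.2 ⟨by linarith, by linarith⟩
    · have hb' := bs_eq a c d H M hH1 (by rw [← hb]; exact hM1) w g e p.1 p.2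
      rw [← hb] at hb'
      rw [hb', norm_div, norm_mul, Complex.norm_natCast, Complex.norm_natCast]
      have hMp : (0 : ℝ) < M := by exact_mod_cast Nat.pos_of_ne_zero (NeZero.ne M)
      have hMr : (M : ℝ) ≤ 4 * (b + 1) * (H : ℝ) ^ 2 := by
        have : (M : ℝ) ≤ ((2 * ((2 * b + 2) * H ^ 2) : ℕ) : ℝ) := by exact_mod_cast hM2
        push_cast at this
        linarith
      rw [le_div_iff₀ (by positivity)]
      refine le_trans ?_ hpτ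
      rw [hτ]
      have hpow : 24 * ((b : ℝ) + 1) * (b + 3) * R ≤ (R : ℝ) ^ (2 * b + 20) := by
        have e1 : (b : ℝ) + 1 ≤ (R : ℝ) ^ (b + 1) := by
          have : b + 1 < 2 ^ (b + 1) := Nat.lt_two_pow_self
          calc (b : ℝ) + 1 ≤ (2 : ℝ) ^ (b + 1) := by exact_mod_cast this.le
            _ ≤ (R : ℝ) ^ (b + 1) := pow_le_pow_left₀ (by norm_num) hRr _
        have e2 : (b : ℝ) + 3 ≤ (R : ℝ) ^ (b + 3) := by
          have : b + 3 < 2 ^ (b + 3) := Nat.lt_two_pow_self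
          calc (b : ℝ) + 3 ≤ (2 : ℝ) ^ (b + 3) := by exact_mod_cast this.le
            _ ≤ (R : ℝ) ^ (b + 3) := pow_le_pow_left₀ (by norm_num) hRr _
        have e3 : (24 : ℝ) ≤ (R : ℝ) ^ 5 := by
          calc (24 : ℝ) ≤ 2 ^ 5 := by norm_num
            _ ≤ (R : ℝ) ^ 5 := pow_le_pow_left₀ (by norm_num) hRr _
        calc 24 * ((b : ℝ) + 1) * (b + 3) * R
            ≤ (R : ℝ) ^ 5 * (R : ℝ) ^ (b + 1) * (R : ℝ) ^ (b + 3) * R := by
              apply mul_le_mul_of_nonneg_right _ hRp.le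
              apply mul_le_mul _ e2 (by positivity) (by positivity)
              exact mul_le_mul e3 e1 (by positivity) (by positivity)
          _ = (R : ℝ) ^ (2 * b + 10) := by ring
          _ ≤ (R : ℝ) ^ (2 * b + 20) := pow_le_pow_right₀ (by linarith) (by omega)
      calc 1 / (R : ℝ) ^ (2 * b + 20) * ((M : ℝ) * H)
          ≤ 1 / (24 * ((b : ℝ) + 1) * (b + 3) * R) * ((4 * (b + 1) * (H : ℝ) ^ 2) * H) := by
            apply mul_le_mul _ _ (by positivity) (by positivity)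
            · exact one_div_le_one_div_of_le (by positivity) hpow
            · exact mul_le_mul_of_nonneg_right hMr hHp.le
        _ = (H : ℝ) ^ 3 / (6 * (b + 3) * R) := by
            field_simp
            ring

end Pool.Agent.NLT
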