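import Pool.Agent.Lib.NLT.InvTwo
import Pool.Agent.Lib.NLT.Auto
import Pool.Agent.Lib.NLT.Blocks

/-!
# Module PmsTwo: mean square with the structured function in the quadratic slot

PROOF. `b = bb a c d`, `N2 = (2 b + 1) H^2`. Suppose the bound fails. Take a prime `M` with
`(2 b + 2) H^2 < M ≤ 2 (2 b + 2) H^2` (`Nat.exists_prime_lt_and_le_two_mul`) and `P` from `many_blocks` (constant `C1`). `inv_two` with `R^k`
for `R`, where `k ≥ C1` and `4 (b + 1) ≤ R^k`: for each `p = (h, y) ∈ P` some `ξ ∈ Maj M H (R^C2)` with `‖ft f2 ξ‖ ≥ R^-C2`,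
`f2 = bl M y 0 N2 (cr h e)` (`Bd` because `Bd e`). `card_Maj`: at most `R^C3` values, so one `ξ` serves a set `P' ⊆ P` with
`P'.card ≥ X^2 / R^C4`. For `p ∈ P'`: `M ‖ft f2 ξ‖ = ‖∑_{z ∈ (0, N2]} cr h e (y + z) chi (-ξ) z‖ = ‖∑ n ∈ Ioc y (y + N2), cr h e n * ex (n β)‖`
with `β = - ξ.val / M` (`chi_int`; the factor `ex (-y β)` has norm one). So
`X^2 / R^C4 * (H^2 / R^C2)^2 ≤ ∑_{h ∈ S} ∑_{y ∈ U} ‖∑ n ∈ Ioc y (y + N2), cr h e n * ex (n β)‖^2` (`S`, `U` intervals containing all `h`, `y`)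
`≤ (∑_{|n| ≤ 3 X} ‖e n‖^2) * (X N2^2 / R^C) ≤ 7 X * X * (2 b + 1)^2 H^4 / R^C` by `auto_win` (`Y = 3 X`) and the hypothesis with `W = N2`.
Contradiction for `C` large (`7 (2 b + 1)^2 R^(C4 + 2 C2) < R^C`).
-/

set_option autoImplicit false

open Finset Filter

namespace Pool.Agent.NLT

open Pool.Agent.HLT

namespace PmsTwoAux

lemma Bd_cr (h : ℤ) (e : ℤ → ℂ) (he : Bd e) : Bd (cr h e) := by
  intro n
  unfold cr
  rw [norm_mul, Complex.norm_conj]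
  exact mul_le_one₀ (he _) (norm_nonneg _) (he _)

lemma Bd_bl (M : ℕ) (y : ℤ) (lo hi : ℕ) (f : ℤ → ℂ) (hf : Bd f) : Bd (bl M y lo hi f) := by
  intro z
  unfold bl
  split_ifs
  · exact hf _
  · rw [norm_zero]
    exact zero_le_one

/-- A sum over `ZMod M` of a function of the value. -/
lemma sum_val (M : ℕ) [NeZero M] (N : ℕ) (hN : N < M) (F : ℕ → ℂ) :
    ∑ z : ZMod M, (if 0 < z.val ∧ z.val ≤ N then F z.val else 0) = ∑ v ∈ Ioc 0 N, F v := by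
  rw [← sum_filter]
  refine Finset.sum_nbij' (fun z : ZMod M => z.val) (fun v : ℕ => (v : ZMod M)) ?_ ?_ ?_ ?_ ?_
  · intro z hz
    rw [mem_filter] at hz
    rw [mem_Ioc]
    exact hz.2
  · intro v hv
    rw [mem_Ioc] at hv
    rw [mem_filter, ZMod.val_natCast, Nat.mod_eq_of_lt (by omega)]
    exact ⟨mem_univ _, hv⟩
  · intro z _
    exact ZMod.natCast_zmod_val z
  · intro v hv
    rw [mem_Ioc] at hv
    rw [ZMod.val_natCast, Nat.mod_eq_of_lt (by omega)]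
  · intro z _
    rfl

/-- The Fourier coefficient of a block function. -/
lemma norm_ft_bl (M : ℕ) [NeZero M] (N : ℕ) (hN : N < M) (y : ℤ) (f : ℤ → ℂ) (ξ : ZMod M) :
    ‖ft (bl M y 0 N f) ξ‖ * M =
      ‖∑ n ∈ Ioc y (y + N), f n * ex ((n : ℝ) * (((-ξ).val : ℝ) / (M : ℝ)))‖ := by
  set β : ℝ := ((-ξ).val : ℝ) / (M : ℝ) with hβ
  have hM : (M : ℂ) ≠ 0 := by exact_mod_cast NeZero.ne M
  have e1 : ft (bl M y 0 N f) ξ * M = ∑ v ∈ Ioc 0 N, f (y + (v : ℤ)) * ex ((v : ℝ) * β) := by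
    unfold ft av
    rw [div_mul_cancel₀ _ hM, ← sum_val M N hN (fun v => f (y + (v : ℤ)) * ex ((v : ℝ) * β))]
    refine sum_congr rfl fun z _ => ?_
    change bl M y 0 N f z * chi (-ξ) z = _
    unfold bl
    split_ifs with h
    · have h1 : chi (-ξ) z = ex ((z.val : ℝ) * β) := by
        have h2 := chi_int (-ξ) (z.val : ℤ)
        rw [Int.cast_natCast, ZMod.natCast_zmod_val, Int.cast_natCast] at h2
        exact h2
      rw [h1]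
    · rw [zero_mul]
  have e2 : ∑ n ∈ Ioc y (y + N), f n * ex ((n : ℝ) * β) =
      ex ((y : ℝ) * β) * ∑ v ∈ Ioc 0 N, f (y + (v : ℤ)) * ex ((v : ℝ) * β) := by
    rw [mul_sum]
    refine Finset.sum_nbij' (fun n : ℤ => (n - y).toNat) (fun v : ℕ => y + (v : ℤ)) ?_ ?_ ?_ ?_ ?_
    · intro n hn
      rw [mem_Ioc] at hn ⊢
      omega
    · intro v hv
      rw [mem_Ioc] at hv ⊢
      omega
    · intro n hn
      rw [mem_Ioc] at hn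
      omega
    · intro v hv
      rw [mem_Ioc] at hv
      omega
    · intro n hn
      rw [mem_Ioc] at hn
      have h1 : (((n - y).toNat : ℕ) : ℤ) = n - y := Int.toNat_of_nonneg (by omega)
      have h2 : (((n - y).toNat : ℕ) : ℝ) = (n : ℝ) - y := by
        have h3 : ((((n - y).toNat : ℕ) : ℤ) : ℝ) = ((n - y : ℤ) : ℝ) := by rw [h1]
        push_cast at h3
        rw [← h3]
      rw [h1, h2]
      have h4 : y + (n - y) = n := by ring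
      have h5 : (n : ℝ) * β = (y : ℝ) * β + ((n : ℝ) - y) * β := by ring
      rw [h4, h5, ex_add]
      ring
  rw [e2, norm_mul, norm_ex, one_mul, ← e1, norm_mul, Complex.norm_natCast]

end PmsTwoAux

open PmsTwoAux in
theorem pms_two (a c d : ℤ) (ha : a ≠ 0) (hc : c ≠ 0) : ∃ C : ℕ, ∀ (R H X : ℕ), 2 ≤ R → R ^ C ≤ H →
    H ^ 2 ≤ X → ∀ w g e : ℤ → ℂ, Bd w → Bd g → Bd e → (∀ n : ℤ, ¬ (0 < n ∧ n ≤ X) → w n = 0) →
    (∀ n : ℤ, 3 * (X : ℤ) < |n| → e n = 0) →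
    (∀ W : ℕ, H ≤ R ^ C * W → W ≤ C * H ^ 2 → WB e W ((X : ℝ) * W ^ 2 / (R : ℝ) ^ C)) →
    ∑ t ∈ range H, ‖∑ n ∈ Ioc (0 : ℤ) X, w n * g (n + a * t) * e (n + PP c d t)‖ ^ 2 ≤
      (H : ℝ) * X ^ 2 / R := by
  obtain ⟨C1, hmb⟩ := many_blocks a c d
  obtain ⟨C2, hinv⟩ := inv_two a c d ha hc
  set b : ℕ := bb a c d with hb
  obtain ⟨k, hk⟩ : ∃ k : ℕ, k = C1 + 4 * (b + 1) := ⟨_, rfl⟩
  obtain ⟨C, hC⟩ : ∃ C : ℕ, C = 6 + 4 * (k * C2) + k + C1 + (2 * b + 1) := ⟨_, rfl⟩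
  refine ⟨C, ?_⟩
  intro R H X hR hRH hHX w g e hw hg he hw0 he0 hWB
  by_contra hcon
  push Not at hcon
  have hR1 : 1 ≤ R := by omega
  have hRr : (2 : ℝ) ≤ R := by exact_mod_cast hR
  have hRr1 : (1 : ℝ) ≤ R := by linarith
  have hRpos : (0 : ℝ) < R := by linarith
  have hpow : ∀ n : ℕ, n ≤ C → R ^ n ≤ H := fun n hn => (Nat.pow_le_pow_right hR1 hn).trans hRH
  have hH1 : 1 ≤ H := (Nat.one_le_pow _ _ hR1).trans hRH
  have hHsq : H ≤ H ^ 2 := by nlinarith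
  have hX1 : 1 ≤ X := le_trans hH1 (hHsq.trans hHX)
  have hXr : (1 : ℝ) ≤ X := by exact_mod_cast hX1
  obtain ⟨M, hMp, hM1, hM2⟩ := Nat.exists_prime_lt_and_le_two_mul ((2 * b + 2) * H ^ 2) (by positivity)
  have : Fact M.Prime := ⟨hMp⟩
  obtain ⟨P, hPc, hP⟩ := hmb R H X M hR (hpow C1 (by omega)) hHX hM1.le hM2 w g e hw hg he hw0 hcon
  have hkR : 4 * (b + 1) ≤ R ^ k := by
    have h1 : k < R ^ k := Nat.lt_pow_self (by omega)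
    omega
  have hk1 : 1 ≤ k := by omega
  have hMR : M ≤ R ^ k * H ^ 2 := by
    refine hM2.trans ?_
    calc 2 * ((2 * b + 2) * H ^ 2) = 4 * (b + 1) * H ^ 2 := by ring
      _ ≤ R ^ k * H ^ 2 := Nat.mul_le_mul_right _ hkR
  set N2 : ℕ := (2 * b + 1) * H ^ 2 with hN2
  have hN2M : N2 < M := by
    refine lt_of_le_of_lt ?_ hM1
    rw [hN2]
    exact Nat.mul_le_mul_right _ (by omega)
  obtain ⟨K, hK⟩ : ∃ K : ℕ, K = (R ^ k) ^ C2 := ⟨_, rfl⟩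
  have hKp : K = R ^ (k * C2) := by rw [hK, ← pow_mul]
  have hK1 : 1 ≤ K := by
    rw [hKp]
    exact Nat.one_le_pow _ _ hR1
  have hKH : K ≤ H := by
    rw [hKp]
    exact hpow _ (by nlinarith)
  have hHM : H ^ 2 ≤ M := by
    refine le_trans ?_ hM1.le
    exact Nat.le_mul_of_pos_left _ (by omega)
  have hKM : K < M := by
    have h1 : H ^ 2 < M := by
      refine lt_of_le_of_lt ?_ hM1
      exact Nat.le_mul_of_pos_left _ (by omega)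
    omega
  have hcard := card_Maj M H K (R ^ k) hK1 (Nat.one_le_pow _ _ hR1) hKM hMR
  have hKr : (1 : ℝ) ≤ K := by exact_mod_cast hK1
  have hMr : (0 : ℝ) < M := by exact_mod_cast hMp.pos
  -- the Fourier coefficients
  have hlow : ∀ p ∈ P, 1 / (K : ℝ) ^ 2 ≤ ∑ ξ ∈ Maj M H K, ‖ft (bl M p.2 0 N2 (cr p.1 e)) ξ‖ ^ 2 := by
    intro p hp
    obtain ⟨_, _, hp3⟩ := hP p hp
    have h1 : 1 / ((R ^ k : ℕ) : ℝ) ≤ 1 / (R : ℝ) ^ C1 := by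
      push_cast
      exact one_div_le_one_div_of_le (by positivity) (pow_le_pow_right₀ hRr1 (by omega))
    obtain ⟨ξ, hξ, hξ2⟩ := hinv (R ^ k) H M (by
        calc 2 ≤ R := hR
          _ = R ^ 1 := (pow_one R).symm
          _ ≤ R ^ k := Nat.pow_le_pow_right hR1 hk1) (by rw [← hK]; exact hKH) hHM hMR _ _ _
        (Bd_bl M p.2 _ _ _ (Bd_cr p.1 w hw)) (Bd_bl M p.2 _ _ _ (Bd_cr p.1 g hg))
        (Bd_bl M p.2 _ _ _ (Bd_cr p.1 e he)) (h1.trans hp3)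
    rw [← hK] at hξ
    have h2 : 1 / (K : ℝ) ≤ ‖ft (bl M p.2 0 N2 (cr p.1 e)) ξ‖ := by
      have h3 : (K : ℝ) = ((R ^ k : ℕ) : ℝ) ^ C2 := by
        rw [hK]
        push_cast
        rfl
      rw [h3]
      exact hξ2
    calc 1 / (K : ℝ) ^ 2 = (1 / (K : ℝ)) ^ 2 := by rw [one_div_pow]
      _ ≤ ‖ft (bl M p.2 0 N2 (cr p.1 e)) ξ‖ ^ 2 := pow_le_pow_left₀ (by positivity) h2 2
      _ ≤ _ := single_le_sum (f := fun ξ => ‖ft (bl M p.2 0 N2 (cr p.1 e)) ξ‖ ^ 2)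
          (fun _ _ => sq_nonneg _) hξ
  -- the upper bound for one frequency
  have hsq : ∑ n ∈ Icc (-((3 * X : ℕ) : ℤ)) ((3 * X : ℕ) : ℤ), ‖e n‖ ^ 2 ≤ 7 * X := by
    calc ∑ n ∈ Icc (-((3 * X : ℕ) : ℤ)) ((3 * X : ℕ) : ℤ), ‖e n‖ ^ 2
        ≤ ∑ n ∈ Icc (-((3 * X : ℕ) : ℤ)) ((3 * X : ℕ) : ℤ), (1 : ℝ) :=
          sum_le_sum fun n _ => pow_le_one₀ (norm_nonneg _) (he n)
      _ = ((6 * X + 1 : ℕ) : ℝ) := by
          rw [sum_const, Int.card_Icc, nsmul_eq_mul, mul_one]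
          congr 1
          omega
      _ ≤ 7 * X := by
          push_cast
          linarith
  have hW := hWB N2 (by
      calc H ≤ H ^ 2 := hHsq
        _ ≤ N2 := Nat.le_mul_of_pos_left _ (by omega)
        _ ≤ R ^ C * N2 := Nat.le_mul_of_pos_left _ (Nat.pow_pos (by omega)))
      (Nat.mul_le_mul_right _ (by omega))
  have hup : ∀ ξ : ZMod M, ∑ p ∈ P, ‖ft (bl M p.2 0 N2 (cr p.1 e)) ξ‖ ^ 2 * (M : ℝ) ^ 2 ≤
      7 * X * ((X : ℝ) * N2 ^ 2 / (R : ℝ) ^ C) := by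
    intro ξ
    have h1 := auto_win e (3 * X) (by
      intro n hn
      exact he0 n (by push_cast at hn; exact hn)) N2 _ hW (((-ξ).val : ℝ) / (M : ℝ))
      (Icc (-(X : ℤ)) X) (Icc (-((C1 * X : ℕ) : ℤ)) ((C1 * X : ℕ) : ℤ))
    have h2 : ∑ p ∈ P, ‖ft (bl M p.2 0 N2 (cr p.1 e)) ξ‖ ^ 2 * (M : ℝ) ^ 2 ≤
        ∑ h ∈ Icc (-(X : ℤ)) X, ∑ y ∈ Icc (-((C1 * X : ℕ) : ℤ)) ((C1 * X : ℕ) : ℤ),
          ‖∑ n ∈ Ioc y (y + N2), cr h e n * ex ((n : ℝ) * (((-ξ).val : ℝ) / (M : ℝ)))‖ ^ 2 := by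
      rw [← sum_product']
      have h3 : ∀ p ∈ P, ‖ft (bl M p.2 0 N2 (cr p.1 e)) ξ‖ ^ 2 * (M : ℝ) ^ 2 =
          ‖∑ n ∈ Ioc p.2 (p.2 + N2), cr p.1 e n * ex ((n : ℝ) * (((-ξ).val : ℝ) / (M : ℝ)))‖ ^ 2 := by
        intro p _
        rw [← norm_ft_bl M N2 hN2M, mul_pow]
      rw [sum_congr rfl h3]
      refine sum_le_sum_of_subset_of_nonneg ?_ (fun _ _ _ => sq_nonneg _)
      intro p hp
      obtain ⟨hp1, hp2, _⟩ := hP p hp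
      rw [mem_product, mem_Icc, mem_Icc]
      rw [abs_le] at hp1 hp2
      push_cast
      exact ⟨hp1, hp2⟩
    refine h2.trans (h1.trans ?_)
    exact mul_le_mul_of_nonneg_right hsq (by positivity)
  -- comparison
  have hmain : (X : ℝ) ^ 2 / (R : ℝ) ^ C1 * (1 / (K : ℝ) ^ 2) * (M : ℝ) ^ 2 ≤
      3 * (K : ℝ) ^ 2 * (R ^ k : ℕ) * (7 * X * ((X : ℝ) * N2 ^ 2 / (R : ℝ) ^ C)) := by
    calc (X : ℝ) ^ 2 / (R : ℝ) ^ C1 * (1 / (K : ℝ) ^ 2) * (M : ℝ) ^ 2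
        ≤ P.card * (1 / (K : ℝ) ^ 2) * (M : ℝ) ^ 2 := by gcongr
      _ = (∑ _p ∈ P, (1 / (K : ℝ) ^ 2)) * (M : ℝ) ^ 2 := by rw [sum_const, nsmul_eq_mul]
      _ ≤ (∑ p ∈ P, ∑ ξ ∈ Maj M H K, ‖ft (bl M p.2 0 N2 (cr p.1 e)) ξ‖ ^ 2) * (M : ℝ) ^ 2 :=
          mul_le_mul_of_nonneg_right (sum_le_sum hlow) (by positivity)
      _ = ∑ ξ ∈ Maj M H K, ∑ p ∈ P, ‖ft (bl M p.2 0 N2 (cr p.1 e)) ξ‖ ^ 2 * (M : ℝ) ^ 2 := by
          rw [sum_comm, sum_mul]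
          exact sum_congr rfl fun ξ _ => sum_mul _ _ _
      _ ≤ ∑ _ξ ∈ Maj M H K, 7 * X * ((X : ℝ) * N2 ^ 2 / (R : ℝ) ^ C) := sum_le_sum fun ξ _ => hup ξ
      _ = (Maj M H K).card * (7 * X * ((X : ℝ) * N2 ^ 2 / (R : ℝ) ^ C)) := by rw [sum_const, nsmul_eq_mul]
      _ ≤ _ := mul_le_mul_of_nonneg_right hcard (by positivity)
  have hN2r : (N2 : ℝ) ^ 2 ≤ (M : ℝ) ^ 2 := by
    have : (N2 : ℝ) ≤ M := by exact_mod_cast hN2M.le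
    exact pow_le_pow_left₀ (Nat.cast_nonneg _) this 2
  have hKrp : (K : ℝ) = (R : ℝ) ^ (k * C2) := by
    rw [hKp]
    push_cast
    rfl
  have hXM : (0 : ℝ) < (X : ℝ) ^ 2 * (M : ℝ) ^ 2 := by positivity
  have hfin : (R : ℝ) ^ C ≤ 21 * ((K : ℝ) ^ 4 * (R : ℝ) ^ k * (R : ℝ) ^ C1) := by
    have h1 : (X : ℝ) ^ 2 / (R : ℝ) ^ C1 * (1 / (K : ℝ) ^ 2) * (M : ℝ) ^ 2 =
        (X : ℝ) ^ 2 * (M : ℝ) ^ 2 * (1 / ((R : ℝ) ^ C1 * (K : ℝ) ^ 2)) := by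
      field_simp
    have h2 : 3 * (K : ℝ) ^ 2 * (R ^ k : ℕ) * (7 * X * ((X : ℝ) * N2 ^ 2 / (R : ℝ) ^ C)) ≤
        (X : ℝ) ^ 2 * (M : ℝ) ^ 2 * (21 * (K : ℝ) ^ 2 * (R : ℝ) ^ k / (R : ℝ) ^ C) := by
      push_cast
      calc 3 * (K : ℝ) ^ 2 * (R : ℝ) ^ k * (7 * X * ((X : ℝ) * N2 ^ 2 / (R : ℝ) ^ C))
          ≤ 3 * (K : ℝ) ^ 2 * (R : ℝ) ^ k * (7 * X * ((X : ℝ) * M ^ 2 / (R : ℝ) ^ C)) := by gcongr
        _ = _ := by ring
    rw [h1] at hmain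
    have h3 := le_of_mul_le_mul_left (hmain.trans h2) hXM
    rw [div_le_div_iff₀ (by positivity) (by positivity), one_mul] at h3
    calc (R : ℝ) ^ C ≤ _ := h3
      _ = 21 * ((K : ℝ) ^ 4 * (R : ℝ) ^ k * (R : ℝ) ^ C1) := by ring
  have hbig : 21 * ((K : ℝ) ^ 4 * (R : ℝ) ^ k * (R : ℝ) ^ C1) < (R : ℝ) ^ C := by
    have h1 : (21 : ℝ) < (R : ℝ) ^ 5 := by
      have : (2 : ℝ) ^ 5 ≤ (R : ℝ) ^ 5 := pow_le_pow_left₀ (by norm_num) hRr 5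
      linarith
    calc 21 * ((K : ℝ) ^ 4 * (R : ℝ) ^ k * (R : ℝ) ^ C1)
        < (R : ℝ) ^ 5 * ((K : ℝ) ^ 4 * (R : ℝ) ^ k * (R : ℝ) ^ C1) :=
          mul_lt_mul_of_pos_right h1 (by positivity)
      _ = (R : ℝ) ^ (5 + 4 * (k * C2) + k + C1) := by
          rw [hKrp]
          ring
      _ ≤ (R : ℝ) ^ C := pow_le_pow_right₀ hRr1 (by omega)
  linarith

end Pool.Agent.NLT
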