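import Pool.Agent.Lib.NLT.PmsOne
import Pool.Agent.Lib.NLT.PmsTwo
import Pool.Agent.Lib.VK.FourierShort
import Pool.Agent.Lib.HLU.Base

/-!
# Module PairMs: mean squares for the pair of shifts `(a t + u, c t^2 + d t + v)`

PROOF. `L = log x`; `C1 ≥` both constants of `pms_one`, `pms_two` (for the two theorems separately). Let `R = ⌈L^k⌉₊`-like natural number with
`L^k ≤ R ≤ 2 L^k`, `k = 4 K + B + 10`; `R^C1 ≤ H` for large `x` (`H ≥ x^(1/6)`). Apply `pms_two` with `H + 1` for `H`?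
NO: `(H + 1)^2 ≤ X` may fail; take `X = 2 x` (`(H + 1)^2 ≤ 2 x` for `H ≥ 3`) and
`w' n = w n / L^K` for `1 ≤ n ≤ x`, else 0; `g n = G (n + u) / L^K` for `1 ≤ n + u ≤ 2 x`, else 0; `e = EZ A x v`
(`n ↦ ff (n + v) / L^2` cut off). `e` vanishes for `|n| > 3 X`; all functions are bounded by 1 (`|ff| ≤ L^2`: `HLU.lp_le_sq`, `nuz_le`,
`DZ_inv_le`, as in `VN.msp_spec`). Window bounds: for `H + 1 ≤ R^C1 W`, `W ≤ C1 (H + 1)^2` we have `W ≥ x^(1/6 + ε/2)` and `W ≤ 4 C1 x`, so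
`WBA A B' (4 C1) (ε / 2) x` gives `WB e W (x W^2 / L^B') ` and `x / L^B' ≤ 2 x / R^C1` if `B' ≥ (k + 1) C1`. Result:
`∑ t ∈ range (H + 1), ‖..‖^2 ≤ L^(4 K + 4)`-multiple of `(H + 1) (2 x)^2 / R ≤ (H + 1) x^2 / L^B` (`n + (a t + u).toNat = (n + a t) + u` etc.; for
`1 ≤ n ≤ x` the arguments lie in `[1, 2 x]` because the shifts are in `[0, x]`). Second statement the same with `pms_one`.
-/

set_option autoImplicit false

open Finset Filter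

namespace Pool.Agent.NLT

open Pool.Agent.HLT

namespace PairMsAux

open Pool.Agent.HLB Pool.Agent.HL Pool.Agent.HLU

/-- The weight, normalised and cut off. -/
noncomputable def cw (x : ℕ) (D : ℝ) (w : ℕ → ℂ) : ℤ → ℂ :=
  fun n => if 1 ≤ n ∧ n ≤ (x : ℤ) then w n.toNat / (D : ℂ) else 0

/-- A function, shifted, normalised and cut off. -/
noncomputable def cg (x u : ℕ) (D : ℝ) (G : ℕ → ℝ) : ℤ → ℂ :=
  fun n => if 1 ≤ n + u ∧ n + u ≤ 2 * (x : ℤ) then ((G (n + u).toNat / D : ℝ) : ℂ) else 0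

lemma EZ_eq (A x v : ℕ) : EZ A x v = cg x v (Real.log x ^ 2) (ff (zA A x)) := rfl

lemma bd_cw {x : ℕ} {D : ℝ} {w : ℕ → ℂ} (hD : 0 < D) (hw : ∀ n ∈ Icc 1 x, ‖w n‖ ≤ D) :
    Bd (cw x D w) := by
  intro n
  unfold cw
  split_ifs with h
  · rw [norm_div, Complex.norm_real, Real.norm_of_nonneg hD.le, div_le_one hD]
    apply hw
    rw [mem_Icc]
    omega
  · rw [norm_zero]
    exact zero_le_one

lemma bd_cg {x u : ℕ} {D : ℝ} {G : ℕ → ℝ} (hD : 0 < D) (hG : ∀ n ∈ Icc 1 (2 * x), |G n| ≤ D) :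
    Bd (cg x u D G) := by
  intro n
  unfold cg
  split_ifs with h
  · rw [Complex.norm_real, Real.norm_eq_abs, abs_div, abs_of_pos hD, div_le_one hD]
    apply hG
    rw [mem_Icc]
    omega
  · rw [norm_zero]
    exact zero_le_one

lemma cw_zero {x : ℕ} {D : ℝ} {w : ℕ → ℂ} (n : ℤ) (hn : ¬ (0 < n ∧ n ≤ ((2 * x : ℕ) : ℤ))) :
    cw x D w n = 0 := by
  unfold cw
  rw [if_neg]
  intro h
  apply hn
  push_cast
  omega

lemma cg_zero {x u : ℕ} {D : ℝ} {G : ℕ → ℝ} (hu : u ≤ x) (n : ℤ)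
    (hn : 3 * ((2 * x : ℕ) : ℤ) < |n|) : cg x u D G n = 0 := by
  unfold cg
  rw [if_neg]
  intro h
  push_cast at hn
  rcases abs_cases n with ⟨h1, h2⟩ | ⟨h1, h2⟩
  · rw [h1] at hn
    omega
  · rw [h1] at hn
    omega

lemma sum_id {x u v : ℕ} {D D1 D2 : ℝ} {w : ℕ → ℂ} {G1 G2 : ℕ → ℝ} {α β : ℤ}
    (hα : 0 ≤ α + u ∧ α + u ≤ x) (hβ : 0 ≤ β + v ∧ β + v ≤ x) :
    ∑ n ∈ Ioc (0 : ℤ) ((2 * x : ℕ) : ℤ), cw x D w n * cg x u D1 G1 (n + α) * cg x v D2 G2 (n + β) =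
      (∑ n ∈ Icc 1 x, w n * (G1 (n + (α + u).toNat) : ℂ) * (G2 (n + (β + v).toNat) : ℂ)) /
        ((D * D1 * D2 : ℝ) : ℂ) := by
  rw [Finset.sum_div]
  symm
  apply Finset.sum_of_injOn (fun n : ℕ => (n : ℤ))
  · intro a _ b _ hab
    exact Nat.cast_injective (R := ℤ) hab
  · intro n hn
    rw [Finset.mem_coe, mem_Icc] at hn
    rw [Finset.mem_coe, mem_Ioc]
    push_cast
    omega
  · intro n _ hn
    have h : cw x D w n = 0 := by
      unfold cw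
      rw [if_neg]
      rintro ⟨h1, h2⟩
      apply hn
      refine ⟨n.toNat, ?_, ?_⟩
      · rw [Finset.mem_coe, mem_Icc]
        omega
      · show ((n.toNat : ℕ) : ℤ) = n
        omega
    rw [h, zero_mul, zero_mul]
  · intro n hn
    rw [mem_Icc] at hn
    have h1 : cw x D w (n : ℤ) = w n / (D : ℂ) := by
      unfold cw
      rw [if_pos (by omega), Int.toNat_natCast]
    have h2 : cg x u D1 G1 ((n : ℤ) + α) = ((G1 (n + (α + u).toNat) / D1 : ℝ) : ℂ) := by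
      unfold cg
      rw [if_pos (by omega)]
      have e : ((n : ℤ) + α + u).toNat = n + (α + u).toNat := by omega
      rw [e]
    have h3 : cg x v D2 G2 ((n : ℤ) + β) = ((G2 (n + (β + v).toNat) / D2 : ℝ) : ℂ) := by
      unfold cg
      rw [if_pos (by omega)]
      have e : ((n : ℤ) + β + v).toNat = n + (β + v).toNat := by omega
      rw [e]
    rw [h1, h2, h3]
    push_cast
    ring

lemma fin_step {H x K B R : ℕ} {L D : ℝ} (hL : 2 ≤ L) (hD : D = L ^ (2 * K + 2))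
    (hR : L ^ (4 * K + B + 10) ≤ R) (S : ℕ → ℂ)
    (h : ∑ t ∈ range (H + 1), ‖S t / (D : ℂ)‖ ^ 2 ≤
      ((H + 1 : ℕ) : ℝ) * ((2 * x : ℕ) : ℝ) ^ 2 / R) :
    ∑ t ∈ range (H + 1), ‖S t‖ ^ 2 ≤ ((H + 1 : ℕ) : ℝ) * ((x : ℝ) ^ 2 / L ^ B) := by
  have hL0 : 0 < L := by linarith
  have hL1 : 1 ≤ L := by linarith
  have hD0 : 0 < D := by
    rw [hD]
    positivity
  have hR0 : (0 : ℝ) < R := lt_of_lt_of_le (by positivity) hR
  have h1 : ∑ t ∈ range (H + 1), ‖S t / (D : ℂ)‖ ^ 2 = (∑ t ∈ range (H + 1), ‖S t‖ ^ 2) / D ^ 2 := by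
    rw [Finset.sum_div]
    refine Finset.sum_congr rfl fun t _ => ?_
    rw [norm_div, Complex.norm_real, Real.norm_of_nonneg hD0.le, div_pow]
  rw [h1, div_le_iff₀ (by positivity)] at h
  refine h.trans ?_
  have h2 : ((H + 1 : ℕ) : ℝ) * ((2 * x : ℕ) : ℝ) ^ 2 / R * D ^ 2 ≤
      ((H + 1 : ℕ) : ℝ) * ((2 * x : ℕ) : ℝ) ^ 2 / L ^ (4 * K + B + 10) * D ^ 2 := by
    apply mul_le_mul_of_nonneg_right _ (by positivity)
    exact div_le_div_of_nonneg_left (by positivity) (by positivity) hR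
  refine h2.trans ?_
  have h3 : (4 : ℝ) ≤ L ^ 6 := by
    calc (4 : ℝ) ≤ 2 ^ 6 := by norm_num
      _ ≤ L ^ 6 := pow_le_pow_left₀ (by norm_num) hL 6
  have e1 : ((H + 1 : ℕ) : ℝ) * ((2 * x : ℕ) : ℝ) ^ 2 / L ^ (4 * K + B + 10) * D ^ 2 =
      ((H + 1 : ℕ) : ℝ) * ((x : ℝ) ^ 2 / L ^ B) * (4 / L ^ 6) := by
    rw [hD]
    have hn : L ≠ 0 := hL0.ne'
    push_cast
    field_simp
    ring
  rw [e1]
  have h4 : 4 / L ^ 6 ≤ 1 := by
    rw [div_le_one (by positivity)]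
    exact h3
  calc ((H + 1 : ℕ) : ℝ) * ((x : ℝ) ^ 2 / L ^ B) * (4 / L ^ 6) ≤
        ((H + 1 : ℕ) : ℝ) * ((x : ℝ) ^ 2 / L ^ B) * 1 :=
        mul_le_mul_of_nonneg_left h4 (by positivity)
    _ = ((H + 1 : ℕ) : ℝ) * ((x : ℝ) ^ 2 / L ^ B) := mul_one _

lemma ev_rpow (m : ℕ) {δ : ℝ} (hδ : 0 < δ) : ∀ᶠ x : ℕ in atTop, Real.log x ^ m ≤ (x : ℝ) ^ δ := by
  have h1 : (fun x : ℝ => Real.log x ^ m) =o[atTop] (fun x : ℝ => x ^ δ) := by
    have h := isLittleO_log_rpow_rpow_atTop (m : ℝ) hδ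
    simp only [Real.rpow_natCast] at h
    exact h
  have h2 := (h1.comp_tendsto tendsto_natCast_atTop_atTop).bound (show (0:ℝ) < 1 by norm_num)
  filter_upwards [h2, ev_log 1, eventually_ge_atTop 1] with x hx hL hx1
  have hL0 : 0 < Real.log x := by linarith
  simp only [Function.comp_def, one_mul] at hx
  rw [Real.norm_of_nonneg (by positivity), Real.norm_of_nonneg (by positivity)] at hx
  exact hx

lemma ev_rpow_ge (c : ℝ) {δ : ℝ} (hδ : 0 < δ) : ∀ᶠ x : ℕ in atTop, c ≤ (x : ℝ) ^ δ :=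
  ((tendsto_rpow_atTop hδ).comp tendsto_natCast_atTop_atTop).eventually_ge_atTop c

lemma win {A B' Cc x v C H R : ℕ} {ε : ℝ} (hWBA : WBA A B' Cc (ε / 2) x)
    (hL : 2 ≤ Real.log x) (hR0 : 0 < R) (hRC : (R : ℝ) ^ C ≤ Real.log x ^ B')
    (hRx : (R : ℝ) ^ C ≤ (x : ℝ) ^ (ε / 2)) (hx : 1 ≤ x)
    (hH : (x : ℝ) ^ (1 / 6 + ε) ≤ H) (hH2 : (H + 1) ^ 2 ≤ 2 * x) (hC : 2 * C ≤ Cc) :
    ∀ W : ℕ, H + 1 ≤ R ^ C * W → W ≤ C * (H + 1) ^ 2 →
      WB (EZ A x v) W (((2 * x : ℕ) : ℝ) * W ^ 2 / (R : ℝ) ^ C) := by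
  intro W h1 h2 α U
  have hx0 : (0 : ℝ) < x := by exact_mod_cast hx
  have hR0' : (0 : ℝ) < R := by exact_mod_cast hR0
  have hL0 : 0 < Real.log x := by linarith
  have h3 : (x : ℝ) ^ (1 / 6 + ε / 2) ≤ W := by
    have h4 : (x : ℝ) ^ (1 / 6 + ε) = (x : ℝ) ^ (1 / 6 + ε / 2) * (x : ℝ) ^ (ε / 2) := by
      rw [← Real.rpow_add hx0]
      congr 1
      ring
    have h5 : ((H + 1 : ℕ) : ℝ) ≤ (R : ℝ) ^ C * W := by
      exact_mod_cast h1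
    have h6 : (R : ℝ) ^ C * W ≤ (x : ℝ) ^ (ε / 2) * W :=
      mul_le_mul_of_nonneg_right hRx (Nat.cast_nonneg _)
    have h7 : (H : ℝ) ≤ ((H + 1 : ℕ) : ℝ) := by
      push_cast
      linarith
    have h8 : 0 < (x : ℝ) ^ (ε / 2) := Real.rpow_pos_of_pos hx0 _
    have h9 : (x : ℝ) ^ (1 / 6 + ε / 2) * (x : ℝ) ^ (ε / 2) ≤ (W : ℝ) * (x : ℝ) ^ (ε / 2) := by
      rw [← h4]
      linarith
    exact le_of_mul_le_mul_right h9 h8
  have h4 : W ≤ Cc * x := by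
    calc W ≤ C * (H + 1) ^ 2 := h2
      _ ≤ C * (2 * x) := Nat.mul_le_mul_left _ hH2
      _ = (2 * C) * x := by ring
      _ ≤ Cc * x := Nat.mul_le_mul_right _ hC
  refine (hWBA W v h3 h4 α U).trans ?_
  have h5 : (x : ℝ) * W ^ 2 / Real.log x ^ B' ≤ (x : ℝ) * W ^ 2 / (R : ℝ) ^ C :=
    div_le_div_of_nonneg_left (by positivity) (by positivity) hRC
  refine h5.trans ?_
  apply div_le_div_of_nonneg_right _ (by positivity)
  apply mul_le_mul_of_nonneg_right _ (by positivity)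
  push_cast
  linarith

end PairMsAux

open PairMsAux Pool.Agent.HLB Pool.Agent.HL Pool.Agent.HLU in
theorem pair_ms (a c d : ℤ) (ha : a ≠ 0) (hc : c ≠ 0) (K B : ℕ) (ε : ℝ) (hε : 0 < ε) :
    ∃ B' C : ℕ, ∀ A : ℕ, ∀ᶠ x : ℕ in atTop, WBA A B' C (ε / 2) x →
    ∀ H : ℕ, (x : ℝ) ^ (1 / 6 + ε) ≤ H → H ^ 2 ≤ x → ∀ u v : ℕ,
    (∀ t : ℕ, t ≤ H → 0 ≤ a * t + u ∧ a * t + u ≤ x) → (∀ t : ℕ, t ≤ H → 0 ≤ PP c d t + v ∧ PP c d t + v ≤ x) →
    ∀ w : ℕ → ℂ, (∀ n ∈ Icc 1 x, ‖w n‖ ≤ Real.log x ^ K) → ∀ G : ℕ → ℝ, (∀ n ∈ Icc 1 (2 * x), |G n| ≤ Real.log x ^ K) →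
    (∑ t ∈ range (H + 1), ‖∑ n ∈ Icc 1 x, w n * (G (n + (a * t + u).toNat) : ℂ) *
        (ff (zA A x) (n + (PP c d t + v).toNat) : ℂ)‖ ^ 2 ≤ ((H + 1 : ℕ) : ℝ) * ((x : ℝ) ^ 2 / Real.log x ^ B)) ∧
    (∑ t ∈ range (H + 1), ‖∑ n ∈ Icc 1 x, w n * (ff (zA A x) (n + (a * t + u).toNat) : ℂ) *
        (G (n + (PP c d t + v).toNat) : ℂ)‖ ^ 2 ≤ ((H + 1 : ℕ) : ℝ) * ((x : ℝ) ^ 2 / Real.log x ^ B)) := by
  classical
  obtain ⟨C1, hC1⟩ := pms_one a c d ha hc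
  obtain ⟨C2, hC2⟩ := pms_two a c d ha hc
  refine ⟨(4 * K + B + 11) * (C1 + C2), 2 * (C1 + C2), fun A => ?_⟩
  filter_upwards [DZ_inv_le A, ev_log 2, eventually_ge_atTop 1,
    ev_rpow ((4 * K + B + 11) * (C1 + C2)) (show (0 : ℝ) < ε / 2 by linarith),
    ev_rpow_ge 3 (show (0 : ℝ) < 1 / 6 by norm_num)] with
    x hDZ hL hx hpow hx3 hWBA H hH hH2 u v hu hv w hw G hG
  have hx0 : (0 : ℝ) < x := by exact_mod_cast hx
  have hx1 : (1 : ℝ) ≤ x := by exact_mod_cast hx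
  have hL0 : 0 < Real.log x := by linarith
  have hL1 : 1 ≤ Real.log x := by linarith
  set L : ℝ := Real.log x with hLdef
  set R : ℕ := ⌈L ^ (4 * K + B + 10)⌉₊ with hRdef
  have hR1 : L ^ (4 * K + B + 10) ≤ R := Nat.le_ceil _
  have hLk : (2 : ℝ) ≤ L ^ (4 * K + B + 10) := by
    calc (2 : ℝ) ≤ L := hL
      _ = L ^ 1 := (pow_one L).symm
      _ ≤ L ^ (4 * K + B + 10) := pow_le_pow_right₀ hL1 (by omega)
  have hR2 : (R : ℝ) ≤ L ^ (4 * K + B + 11) := by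
    have h1 : (R : ℝ) < L ^ (4 * K + B + 10) + 1 := Nat.ceil_lt_add_one (by positivity)
    have h2 : L ^ (4 * K + B + 11) = L ^ (4 * K + B + 10) * L := pow_succ _ _
    rw [h2]
    nlinarith
  have hRge : 2 ≤ R := by
    have h1 : (2 : ℝ) ≤ R := hLk.trans hR1
    exact_mod_cast h1
  have hR0 : 0 < R := by omega
  have hRr : (1 : ℝ) ≤ R := by
    have : (2 : ℝ) ≤ R := by exact_mod_cast hRge
    linarith
  have hRC : ∀ C : ℕ, C ≤ C1 + C2 → (R : ℝ) ^ C ≤ L ^ ((4 * K + B + 11) * (C1 + C2)) := by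
    intro C hC
    calc (R : ℝ) ^ C ≤ (R : ℝ) ^ (C1 + C2) := pow_le_pow_right₀ hRr hC
      _ ≤ (L ^ (4 * K + B + 11)) ^ (C1 + C2) := pow_le_pow_left₀ (by linarith) hR2 _
      _ = L ^ ((4 * K + B + 11) * (C1 + C2)) := (pow_mul _ _ _).symm
  have hRx : ∀ C : ℕ, C ≤ C1 + C2 → (R : ℝ) ^ C ≤ (x : ℝ) ^ (ε / 2) :=
    fun C hC => (hRC C hC).trans hpow
  have hH3 : (3 : ℝ) ≤ H := by
    calc (3 : ℝ) ≤ (x : ℝ) ^ (1 / 6 : ℝ) := hx3
      _ ≤ (x : ℝ) ^ (1 / 6 + ε) := Real.rpow_le_rpow_of_exponent_le hx1 (by linarith)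
      _ ≤ H := hH
  have hH3' : 3 ≤ H := by exact_mod_cast hH3
  have hHX : (H + 1) ^ 2 ≤ 2 * x := by nlinarith
  have hRH : ∀ C : ℕ, C ≤ C1 + C2 → R ^ C ≤ H + 1 := by
    intro C hC
    have h1 : (R : ℝ) ^ C ≤ H := by
      calc (R : ℝ) ^ C ≤ (x : ℝ) ^ (ε / 2) := hRx C hC
        _ ≤ (x : ℝ) ^ (1 / 6 + ε) := Real.rpow_le_rpow_of_exponent_le hx1 (by linarith)
        _ ≤ H := hH
    have h2 : R ^ C ≤ H := by exact_mod_cast h1
    omega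
  have hux : u ≤ x := by
    have h1 := (hu 0 (Nat.zero_le _)).2
    push_cast at h1
    omega
  have hvx : v ≤ x := by
    have h1 := (hv 0 (Nat.zero_le _)).2
    unfold PP at h1
    push_cast at h1
    omega
  have hff : ∀ n ∈ Icc 1 (2 * x), |ff (zA A x) n| ≤ L ^ 2 := by
    intro n hn
    rw [mem_Icc] at hn
    unfold ff
    have hLL : L ≤ L ^ 2 := by nlinarith
    have e1 := lp_le_sq hL hn.2
    have e2 := (nuz_le (zA A x) n).trans (hDZ.trans hLL)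
    have e3 := lp_nonneg n
    have e4 := nuz_nonneg (zA A x) n
    rw [abs_le]
    constructor <;> linarith
  have hK0 : 0 < L ^ K := by positivity
  have h20 : 0 < L ^ 2 := by positivity
  constructor
  · have h1 := hC2 R (H + 1) (2 * x) hRge (hRH C2 (by omega)) hHX (cw x (L ^ K) w)
      (cg x u (L ^ K) G) (EZ A x v) (bd_cw hK0 hw) (bd_cg hK0 hG)
      (by rw [EZ_eq]; exact bd_cg h20 hff) (fun n hn => cw_zero n hn)
      (fun n hn => by rw [EZ_eq]; exact cg_zero hvx n hn)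
      (win hWBA hL hR0 (hRC C2 (by omega)) (hRx C2 (by omega)) hx hH hHX (by omega))
    refine fin_step (D := L ^ K * L ^ K * L ^ 2) hL (by ring) hR1 _ ?_
    refine le_trans (le_of_eq ?_) h1
    refine Finset.sum_congr rfl fun t ht => ?_
    rw [mem_range] at ht
    rw [EZ_eq, sum_id (hu t (by omega)) (hv t (by omega))]
  · have h1 := hC1 R (H + 1) (2 * x) hRge (hRH C1 (by omega)) hHX (cw x (L ^ K) w)
      (cg x v (L ^ K) G) (EZ A x u) (bd_cw hK0 hw) (bd_cg hK0 hG)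
      (by rw [EZ_eq]; exact bd_cg h20 hff) (fun n hn => cw_zero n hn)
      (fun n hn => by rw [EZ_eq]; exact cg_zero hux n hn)
      (win hWBA hL hR0 (hRC C1 (by omega)) (hRx C1 (by omega)) hx hH hHX (by omega))
    refine fin_step (D := L ^ K * L ^ 2 * L ^ K) hL (by ring) hR1 _ ?_
    refine le_trans (le_of_eq ?_) h1
    refine Finset.sum_congr rfl fun t ht => ?_
    rw [mem_range] at ht
    rw [EZ_eq, sum_id (hu t (by omega)) (hv t (by omega))]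

end Pool.Agent.NLT
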