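import Pool.Agent.Lib.NLT.WDefs
import Pool.Agent.Lib.VK.Gallagher
import Pool.Agent.Lib.VK.ShortDefs
import Pool.Agent.Lib.VM.WinSup6

/-!
# Module WnWb: from window bounds in the time domain to the property `WN`

PROOF: the proof of `VM.win_sup6` (file VM/WinSup6.lean) with `si6` replaced by the hypothesis `WBA A B' 1 (ε / 2) x`, `v = 0`,
`α = k0 / (4 x + 1)`: for the windows `(u, u + h]`, `u ∈ range (2 x + 1)`, `h = H' / 4`,
`∑ n ∈ (Ioc u (u + h)).filter (· ≤ 2 x), ff n ex (n α) = L^2 ∑ n ∈ Ioc (u : ℤ) (u + h), EZ A x 0 n ex (n α)`.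
So the window sums of `ff` are at most `L^4 x h^2 / L^B'`; take `B' = B + 6` or so. `H' = min H ⌊x / L^m⌋` is not needed for the range
(the hypothesis covers all `h ≤ x`) but for the error term of `VK.gallagher`; keep it as in the original proof.
-/

set_option autoImplicit false

open Finset Filter

namespace Pool.Agent.NLT

open Pool.Agent.HLT Pool.Agent.VK

private lemma win_eq (A x u h : ℕ) (hL : Real.log x ≠ 0) (α : ℝ) :
    ∑ n ∈ (Ioc u (u + h)).filter (fun n => n ≤ 2 * x), (ff (zA A x) n : ℂ) * ex (n * α) =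
      ((Real.log x ^ 2 : ℝ) : ℂ) * ∑ n ∈ Ioc (u : ℤ) (u + h), EZ A x 0 n * ex ((n : ℝ) * α) := by
  have h1 : Ioc (u : ℤ) (u + h) = (Ioc u (u + h)).map ⟨fun n : ℕ => (n : ℤ), Nat.cast_injective⟩ := by
    ext z
    simp only [mem_Ioc, Finset.mem_map, Function.Embedding.coeFn_mk]
    constructor
    · intro hz
      refine ⟨z.toNat, ?_, ?_⟩ <;> omega
    · rintro ⟨n, hn, rfl⟩
      omega
  rw [h1, sum_map, mul_sum, sum_filter]
  refine sum_congr rfl fun n hn => ?_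
  rw [mem_Ioc] at hn
  simp only [Function.Embedding.coeFn_mk, EZ]
  by_cases hnx : n ≤ 2 * x
  · rw [if_pos hnx, if_pos (by push_cast; omega)]
    have e1 : ((n : ℤ) + ((0 : ℕ) : ℤ)).toNat = n := by omega
    rw [e1]
    obtain ⟨l, hl⟩ : ∃ l, l = Real.log x := ⟨_, rfl⟩
    rw [← hl] at hL ⊢
    have e2 : (l : ℂ) ≠ 0 := by exact_mod_cast hL
    push_cast
    field_simp
  · rw [if_neg hnx, if_neg (by push_cast; omega)]
    simp

theorem wn_of_wba (B : ℕ) (ε : ℝ) (hε : 0 < ε) : ∃ B' : ℕ, ∀ A : ℕ, ∀ᶠ x : ℕ in atTop, WBA A B' 1 (ε / 2) x →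
    ∀ H : ℕ, (x : ℝ) ^ (1 / 6 + ε) ≤ H → H ≤ x → WN A B x H := by
  rcases lt_or_ge (5 / 6) ε with hbig | hsmall
  · refine ⟨0, fun A => ?_⟩
    filter_upwards [eventually_ge_atTop 2] with x hx2 _ H hH hHx
    exfalso
    have hx1 : (1 : ℝ) < x := by exact_mod_cast (by omega : 1 < x)
    have e1 : (x : ℝ) ^ (1 : ℝ) < (x : ℝ) ^ (1 / 6 + ε) :=
      Real.rpow_lt_rpow_of_exponent_lt hx1 (by linarith only [hbig])
    rw [Real.rpow_one] at e1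
    have e2 : (H : ℝ) ≤ x := by exact_mod_cast hHx
    linarith only [e1, e2, hH]
  obtain ⟨e, he⟩ : ∃ e : ℝ, e = ε / 2 := ⟨_, rfl⟩
  rw [← he]
  have he0 : 0 < e := by rw [he]; linarith only [hε]
  have he2 : e ≤ 5 / 12 := by rw [he]; linarith only [hsmall]
  have hee : 0 < ε - e := by rw [he]; linarith only [hε]
  obtain ⟨m, hm⟩ : ∃ m, m = B + 8 := ⟨_, rfl⟩
  refine ⟨B + 5, fun A => ?_⟩
  -- asymptotic facts
  have ev1 : ∀ᶠ x : ℕ in atTop, (8 : ℝ) ≤ (x : ℝ) ^ (ε - e) :=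
    ((tendsto_rpow_atTop hee).comp
      tendsto_natCast_atTop_atTop).eventually_ge_atTop 8
  have ev2 : ∀ᶠ x : ℕ in atTop, 9 * Real.log x ^ m ≤ (x : ℝ) ^ (1 / 4 : ℝ) := by
    have h1 := isLittleO_log_rpow_rpow_atTop ((m : ℕ) : ℝ) (show (0 : ℝ) < 1 / 4 by norm_num)
    simp only [Real.rpow_natCast] at h1
    have h2 := (h1.comp_tendsto tendsto_natCast_atTop_atTop).bound (show (0 : ℝ) < 1 / 9 by norm_num)
    filter_upwards [h2, Pool.Agent.HLU.ev_log 1] with x hx hL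
    simp only [Function.comp_def] at hx
    rw [Real.norm_of_nonneg (by positivity), Real.norm_of_nonneg (by positivity)] at hx
    linarith only [hx]
  filter_upwards [ev1, ev2, Pool.Agent.HLU.ev_log 1360, DZ_inv_le A,
    eventually_ge_atTop 1] with x h8 h9 hL hDZ hx1 hWB H hH hHx k0
  unfold WBA at hWB
  obtain ⟨L, hLd⟩ : ∃ L, L = Real.log x := ⟨_, rfl⟩
  have hL' : Real.log x = L := hLd.symm
  rw [← hLd] at hWB h9 hL hDZ ⊢
  have hL1 : 1 ≤ L := by linarith only [he0, he2, hL]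
  have hL0 : 0 < L := by linarith only [he0, he2, hL]
  have hx0 : (0 : ℝ) < x := by exact_mod_cast hx1
  have hx1' : (1 : ℝ) ≤ x := by exact_mod_cast hx1
  have hLm : 0 < L ^ m := pow_pos hL0 m
  -- the length
  obtain ⟨y, hy⟩ : ∃ y : ℝ, y = (x : ℝ) / L ^ m := ⟨_, rfl⟩
  have hy0 : 0 ≤ y := by rw [hy]; (clear * - hx1 hL; positivity)
  obtain ⟨H', hH'⟩ : ∃ H', H' = min H ⌊y⌋₊ := ⟨_, rfl⟩
  have hH'H : H' ≤ H := by rw [hH']; exact min_le_left _ _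
  have hH'y : (H' : ℝ) ≤ y := by
    have : H' ≤ ⌊y⌋₊ := by rw [hH']; exact min_le_right _ _
    exact (Nat.cast_le.2 this).trans (Nat.floor_le hy0)
  have hpe : (1 : ℝ) ≤ (x : ℝ) ^ (1 / 6 + e) := Real.one_le_rpow hx1' (by linarith only [he0, he2])
  have hHlow : 8 * (x : ℝ) ^ (1 / 6 + e) ≤ H := by
    refine le_trans ?_ hH
    have e1 : (x : ℝ) ^ (1 / 6 + ε) = (x : ℝ) ^ (ε - e) * (x : ℝ) ^ (1 / 6 + e) := by
      rw [← Real.rpow_add hx0]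
      congr 1
      ring
    rw [e1]
    gcongr
  have hylow : 8 * (x : ℝ) ^ (1 / 6 + e) + 1 ≤ y := by
    rw [hy, le_div_iff₀ hLm]
    have e1 : (x : ℝ) ^ (1 / 6 + e) ≤ (x : ℝ) ^ (3 / 4 : ℝ) :=
      Real.rpow_le_rpow_of_exponent_le hx1' (by linarith only [he0, he2])
    have e2 : (x : ℝ) ^ (3 / 4 : ℝ) * (x : ℝ) ^ (1 / 4 : ℝ) = x := by
      rw [← Real.rpow_add hx0]
      norm_num
    have e3 : (0 : ℝ) < (x : ℝ) ^ (3 / 4 : ℝ) := by (clear * - hx1; positivity)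
    calc (8 * (x : ℝ) ^ (1 / 6 + e) + 1) * L ^ m ≤ (9 * (x : ℝ) ^ (1 / 6 + e)) * L ^ m := by
          gcongr
          linarith only [hpe]
      _ ≤ (9 * (x : ℝ) ^ (3 / 4 : ℝ)) * L ^ m := by gcongr
      _ = (x : ℝ) ^ (3 / 4 : ℝ) * (9 * L ^ m) := by ring
      _ ≤ (x : ℝ) ^ (3 / 4 : ℝ) * (x : ℝ) ^ (1 / 4 : ℝ) := by gcongr
      _ = x := e2
  have hH'low : 8 * (x : ℝ) ^ (1 / 6 + e) ≤ H' := by
    rw [hH', Nat.cast_min, le_min_iff]
    refine ⟨hHlow, ?_⟩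
    have := Nat.lt_floor_add_one y
    linarith only [hylow, this]
  have hH'8 : 8 ≤ H' := by
    have : (8 : ℝ) ≤ H' := by linarith only [hpe, hH'low]
    exact_mod_cast this
  obtain ⟨h, hh⟩ : ∃ h, h = H' / 4 := ⟨_, rfl⟩
  have hh8 : (H' : ℝ) ≤ 8 * h := by exact_mod_cast (by omega : H' ≤ 8 * h)
  have hh4 : 4 * (h : ℝ) ≤ H' := by exact_mod_cast (by omega : 4 * h ≤ H')
  have hhlow : (x : ℝ) ^ (1 / 6 + e) ≤ h := by linarith only [hH'low, hh8]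
  have hhup : h ≤ 1 * x := by omega
  have hK : ∀ n ∈ Icc 1 (2 * x), |ff (zA A x) n| ≤ L ^ 2 := by
    intro n hn
    rw [mem_Icc] at hn
    have e1 := Pool.Agent.HLU.lp_le_sq (x := x) (n := n) (by rw [← hLd]; linarith only [he0, he2, hL]) hn.2
    rw [← hLd] at e1
    have e2 := nuz_le (zA A x) n
    have e3 := nuz_nonneg (zA A x) n
    have e4 := lp_nonneg n
    have e5 : L ≤ L ^ 2 := by nlinarith only [he0, he2, hL]
    unfold ff
    rw [abs_le]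
    constructor <;> linarith only [hDZ, e2, e4, e5, e1, e3]
  have hwin : ∑ u ∈ range (2 * x + 1), ‖∑ n ∈ (Ioc u (u + h)).filter (fun n => n ≤ 2 * x), (ff (zA A x) n : ℂ) *
      ex (n * (k0 / ((4 * x + 1 : ℕ) : ℝ)))‖ ^ 2 ≤ x * (h : ℝ) ^ 2 / L ^ (B + 1) := by
    have e0 := hWB h 0 hhlow hhup ((k0 : ℝ) / ((4 * x + 1 : ℕ) : ℝ))
      ((range (2 * x + 1)).map ⟨fun n : ℕ => (n : ℤ), Nat.cast_injective⟩)
    rw [sum_map] at e0
    simp only [Function.Embedding.coeFn_mk] at e0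
    have e1 : ∀ u : ℕ, ‖∑ n ∈ (Ioc u (u + h)).filter (fun n => n ≤ 2 * x), (ff (zA A x) n : ℂ) *
      ex (n * (k0 / ((4 * x + 1 : ℕ) : ℝ)))‖ ^ 2 = L ^ 4 *
        ‖∑ n ∈ Ioc (u : ℤ) (u + h), EZ A x 0 n * ex ((n : ℝ) * (k0 / ((4 * x + 1 : ℕ) : ℝ)))‖ ^ 2 := by
      intro u
      rw [win_eq A x u h (by rw [hL']; exact hL0.ne'), norm_mul, Complex.norm_real, mul_pow, hL',
        Real.norm_of_nonneg (by positivity)]
      ring
    simp only [e1]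
    rw [← mul_sum]
    calc L ^ 4 * ∑ u ∈ range (2 * x + 1),
          ‖∑ n ∈ Ioc (u : ℤ) (u + h), EZ A x 0 n * ex ((n : ℝ) * (k0 / ((4 * x + 1 : ℕ) : ℝ)))‖ ^ 2 ≤
        L ^ 4 * ((x : ℝ) * (h : ℝ) ^ 2 / L ^ (B + 5)) := by
          refine mul_le_mul_of_nonneg_left e0 (by positivity)
      _ = x * (h : ℝ) ^ 2 / L ^ (B + 1) := by
          have e3 : L ^ (B + 5) = L ^ 4 * L ^ (B + 1) := by rw [← pow_add]; congr 1; omega
          rw [e3]
          have e4 : L ^ 4 ≠ 0 := (pow_pos hL0 4).ne'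
          have e5 : L ^ (B + 1) ≠ 0 := (pow_pos hL0 _).ne'
          field_simp
  have hgal := VK.gallagher x H' (by omega) (by omega) (ff (zA A x)) (L ^ 2) hK k0
    (x * (h : ℝ) ^ 2 / L ^ (B + 1)) (by
      rw [← hh]
      exact hwin)
  have hH0 : (0 : ℝ) < H := by
    have : 0 < H := by omega
    exact_mod_cast this
  have hH'0 : (0 : ℝ) < H' := by
    have : 0 < H' := by omega
    exact_mod_cast this
  have hH'Hr : (H' : ℝ) ≤ H := by exact_mod_cast hH'H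
  have hsub : wdw x H k0 ⊆
      (range (4 * x + 1)).filter
      (fun k : ℕ => nrm (((k : ℝ) - k0) / ((4 * x + 1 : ℕ) : ℝ)) ≤ 2 / (H' : ℝ)) := by
    intro k hk
    unfold wdw at hk
    rw [mem_filter] at hk ⊢
    refine ⟨hk.1, hk.2.trans ?_⟩
    exact div_le_div_of_nonneg_left (by norm_num) hH'0 hH'Hr
  refine (sum_le_sum_of_subset_of_nonneg hsub fun _ _ _ => by (clear * -; positivity)).trans (hgal.trans ?_)
  have hN5 : ((4 * x + 1 : ℕ) : ℝ) ≤ 5 * x := by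
    push_cast
    linarith only [hx1']
  have hB1 : 0 < L ^ (B + 1) := pow_pos hL0 _
  -- first term
  have t1 : 256 / (H' : ℝ) ^ 2 * ((4 * x + 1 : ℕ) : ℝ) * (x * (h : ℝ) ^ 2 / L ^ (B + 1)) ≤
      80 * ((x : ℝ) ^ 2 / L ^ (B + 1)) := by
    have e1 : (h : ℝ) ≤ H' / 4 := by linarith only [hh4]
    calc 256 / (H' : ℝ) ^ 2 * ((4 * x + 1 : ℕ) : ℝ) * (x * (h : ℝ) ^ 2 / L ^ (B + 1)) ≤
        256 / (H' : ℝ) ^ 2 * (5 * x) * (x * (H' / 4 : ℝ) ^ 2 / L ^ (B + 1)) := by gcongr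
      _ = 80 * ((x : ℝ) ^ 2 / L ^ (B + 1)) := by
          field_simp
          ring
  -- second term
  have t2 : 256 / (H' : ℝ) ^ 2 * ((4 * x + 1 : ℕ) : ℝ) * ((H' : ℝ) ^ 3 * (L ^ 2) ^ 2) ≤
      1280 * ((x : ℝ) ^ 2 / L ^ (B + 1)) := by
    calc 256 / (H' : ℝ) ^ 2 * ((4 * x + 1 : ℕ) : ℝ) * ((H' : ℝ) ^ 3 * (L ^ 2) ^ 2) ≤
        256 / (H' : ℝ) ^ 2 * (5 * x) * ((H' : ℝ) ^ 3 * (L ^ 2) ^ 2) := by gcongr
      _ = 1280 * (x * (H' * L ^ 4)) := by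
          field_simp
          ring
      _ ≤ 1280 * (x * (x / L ^ m * L ^ 4)) := by
          rw [← hy]
          gcongr
      _ ≤ 1280 * ((x : ℝ) ^ 2 / L ^ (B + 1)) := by
          have e1 : L ^ m = L ^ (B + 1) * (L ^ 4 * L ^ 3) := by
            rw [← pow_add, ← pow_add]
            congr 1
          have e2 : 1 ≤ L ^ 3 := one_le_pow₀ hL1
          have e3 : (x : ℝ) / L ^ m * L ^ 4 ≤ x / L ^ (B + 1) := by
            rw [e1, div_mul_eq_mul_div, div_le_div_iff₀ (by (clear * - hL; positivity)) hB1]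
            have e4 : 0 < (x : ℝ) * L ^ 4 * L ^ (B + 1) := by (clear * - hx1 hL; positivity)
            nlinarith only [he0, he2, e2, e4]
          calc 1280 * (x * (x / L ^ m * L ^ 4)) ≤ 1280 * (x * (x / L ^ (B + 1))) := by gcongr
            _ = 1280 * ((x : ℝ) ^ 2 / L ^ (B + 1)) := by ring
  calc 256 / (H' : ℝ) ^ 2 * ((4 * x + 1 : ℕ) : ℝ) *
        (x * (h : ℝ) ^ 2 / L ^ (B + 1) + (H' : ℝ) ^ 3 * (L ^ 2) ^ 2) =
      256 / (H' : ℝ) ^ 2 * ((4 * x + 1 : ℕ) : ℝ) * (x * (h : ℝ) ^ 2 / L ^ (B + 1)) +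
      256 / (H' : ℝ) ^ 2 * ((4 * x + 1 : ℕ) : ℝ) * ((H' : ℝ) ^ 3 * (L ^ 2) ^ 2) := by ring
    _ ≤ 80 * ((x : ℝ) ^ 2 / L ^ (B + 1)) + 1280 * ((x : ℝ) ^ 2 / L ^ (B + 1)) := add_le_add t1 t2
    _ = 1360 * ((x : ℝ) ^ 2 / L ^ (B + 1)) := by ring
    _ ≤ L * ((x : ℝ) ^ 2 / L ^ (B + 1)) := by gcongr
    _ = (x : ℝ) ^ 2 / L ^ B := by
        rw [pow_succ L B]
        field_simp

end Pool.Agent.NLT
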