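import Pool.Agent.Lib.NLT.MsqDefs
import Pool.Agent.Lib.NLT.PairMs
import Pool.Agent.Lib.NLT.WnWb

/-!
# Module MsqAll: the mean square property for products of one-shift and two-shift blocks

`shf a c d u v (S, t) = (S_1, .., S_m', a_j t_j + u_j (j ≤ m), c_j t_j^2 + d_j t_j + v_j (j ≤ m))`.

PROOF of `msq_all`. Let `r = m' + (m + m)`, `K1 = K * (r + 1)`. The constants: for every `j < m` take `B'`, `C` of `pair_ms (a j) (c j) (d j)` with
`K1`, `B`, `ε`, for the one-shift blocks take `b0`, `B1` of `VN.msp_spec K1 B F` and `B'` of `wn_of_wba B1 ε`; the final `B'`, `C` are the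
maxima (`WBA` is monotone: larger `B'`, `C` are stronger, `log x ≥ 1`; include `C ≥ 1`), `b0` that of `msp_spec`. `SpT F b0 x H T` is the hypothesis
used by `msp_spec`. Fix a position `i0 : Fin r`, `w`, `G`. Case (1): `i0` is the position of `S_j`: fix all other coordinates; the factors
at the other positions are bounded by `(log x)^K` on `[1, 2x]` (the shifts are `≤ x`), absorb them into `w` (bounded by
`(log x)^K1` on `[1, x]`): `MSP A K1 B x (T j)` gives the bound `(T j).card * (x^2 / (log x)^B)` for the sum over `S_j`; sum over the other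
coordinates and divide, as in `VN.last_ms` (there for `Fintype.piFinset T`: `card_mul_sum_update`). Case (2): `i0` is the position of
`a_j t_j + u_j` or `c_j t_j^2 + d_j t_j + v_j`: fix all coordinates except `t_j` and absorb all factors except the two factors at
`a_j t_j + u_j`, `c_j t_j^2 + d_j t_j + v_j` into `w`; `pair_ms` (second or first part). `Fin.prod_univ_add`, `Fin.append_left`,
`Fin.append_right`. (`(range (H j + 1)).card = H j + 1`.) To handle both cases at once: for a finite product set and a nonnegative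
function, if for every fixed value of the other coordinates the sum over one coordinate is at most (card of that factor) * D, then
the total sum is at most (card of the product) * D. Empty factors: then the sum is empty.
-/

set_option autoImplicit false

open Finset Filter

namespace Pool.Agent.NLT

open Pool.Agent.HLT Pool.Agent.VN

/-- The shifts of the blocks. -/
def shf {m' m : ℕ} (a c d : Fin m → ℤ) (u v : Fin m → ℕ) (p : (Fin m' → ℕ) × (Fin m → ℕ)) :
    Fin (m' + (m + m)) → ℕ :=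
  Fin.append p.1 (Fin.append (fun j => (a j * (p.2 j : ℤ) + u j).toNat)
    (fun j => (c j * (p.2 j : ℤ) ^ 2 + d j * (p.2 j : ℤ) + v j).toNat))

namespace MsqAllAux

open Pool.Agent.HLB Pool.Agent.HL Pool.Agent.HLU Pool.Agent.VK

lemma WBA_mono {A B B' C C' x : ℕ} {ε : ℝ} (h : WBA A B' C' ε x) (hB : B ≤ B') (hC : C ≤ C')
    (hL : 1 ≤ Real.log x) : WBA A B C ε x := by
  intro W v h1 h2 α U
  refine (h W v h1 (h2.trans (Nat.mul_le_mul_right _ hC)) α U).trans ?_
  have h0 : 0 < Real.log x := by linarith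
  exact div_le_div_of_nonneg_left (by positivity) (pow_pos h0 _) (pow_le_pow_right₀ hL hB)

/-- Averaging over one coordinate. -/
lemma avg {k : ℕ} (j : Fin k) (T : Fin k → Finset ℕ) (Φ : (Fin k → ℕ) → ℝ) (E : ℝ)
    (h : ∀ t ∈ Fintype.piFinset T,
      ∑ u ∈ T j, Φ (Function.update t j u) ≤ ((T j).card : ℝ) * E) :
    ∑ t ∈ Fintype.piFinset T, Φ t ≤ ((Fintype.piFinset T).card : ℝ) * E := by
  by_cases hj : (T j).card = 0
  · have h1 : T j = ∅ := Finset.card_eq_zero.mp hj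
    have h2 : Fintype.piFinset T = ∅ := by
      rw [Finset.eq_empty_iff_forall_notMem]
      intro t ht
      have h3 := (Fintype.mem_piFinset.mp ht) j
      rw [h1] at h3
      exact absurd h3 (Finset.notMem_empty _)
    rw [h2, Finset.sum_empty, Finset.card_empty, Nat.cast_zero, zero_mul]
  · have hpos : (0 : ℝ) < (T j).card := by exact_mod_cast Nat.pos_of_ne_zero hj
    have h1 := Finset.sum_le_sum h
    rw [card_mul_sum_update, Finset.sum_const, nsmul_eq_mul] at h1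
    have h2 : ((T j).card : ℝ) * ∑ t ∈ Fintype.piFinset T, Φ t ≤
        ((T j).card : ℝ) * (((Fintype.piFinset T).card : ℝ) * E) := by
      refine h1.trans (le_of_eq ?_)
      ring
    exact le_of_mul_le_mul_left h2 hpos

lemma norm_prod_le' {ι : Type} (s : Finset ι) (g : ι → ℝ) {M : ℝ}
    (h : ∀ i ∈ s, |g i| ≤ M) : ‖∏ i ∈ s, (g i : ℂ)‖ ≤ M ^ s.card := by
  rw [norm_prod, ← Finset.prod_const]
  refine Finset.prod_le_prod (fun i _ => norm_nonneg _) (fun i hi => ?_)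
  rw [Complex.norm_real, Real.norm_eq_abs]
  exact h i hi

lemma prod_shf {m' m : ℕ} (a c d : Fin m → ℤ) (u v : Fin m → ℕ)
    (G : Fin (m' + (m + m)) → ℕ → ℝ) (n : ℕ) (S : Fin m' → ℕ) (t : Fin m → ℕ) :
    ∏ i, (G i (n + shf a c d u v (S, t) i) : ℂ) =
      (∏ i : Fin m', (G (Fin.castAdd (m + m) i) (n + S i) : ℂ)) *
      ((∏ j : Fin m, (G (Fin.natAdd m' (Fin.castAdd m j)) (n + (a j * (t j : ℤ) + u j).toNat) : ℂ)) *
      (∏ j : Fin m, (G (Fin.natAdd m' (Fin.natAdd m j))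
        (n + (c j * (t j : ℤ) ^ 2 + d j * (t j : ℤ) + v j).toNat) : ℂ))) := by
  rw [Fin.prod_univ_add, Fin.prod_univ_add]
  unfold shf
  simp only [Fin.append_left, Fin.append_right]

lemma one_le_of_log {x : ℕ} (hL : 2 ≤ Real.log x) : (1 : ℝ) ≤ x := by
  rcases Nat.eq_zero_or_pos x with h | h
  · subst h
    simp at hL
    linarith
  · exact_mod_cast h

lemma ev_rpow_one : ∀ᶠ x : ℕ in atTop, (1 : ℝ) ≤ (x : ℝ) ^ (1 / 6 : ℝ) := by
  filter_upwards [eventually_ge_atTop 1] with x hx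
  exact Real.one_le_rpow (by exact_mod_cast hx) (by norm_num)

section slots

variable {m' m K x : ℕ} {a c d : Fin m → ℤ} {u v H : Fin m → ℕ} {T : Fin m' → Finset ℕ}
  {w : ℕ → ℂ} {G : Fin (m' + (m + m)) → ℕ → ℝ}

lemma lin_le (hu : ∀ j, ∀ t : ℕ, t ≤ H j → 0 ≤ a j * t + u j ∧ a j * t + u j ≤ x) {t : Fin m → ℕ}
    (ht : t ∈ Fintype.piFinset (fun j => range (H j + 1))) (j : Fin m) :
    (a j * (t j : ℤ) + u j).toNat ≤ x := by
  have h1 := Finset.mem_range.mp ((Fintype.mem_piFinset.mp ht) j)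
  have h2 := (hu j (t j) (by omega)).2
  omega

lemma quad_le (hv : ∀ j, ∀ t : ℕ, t ≤ H j → 0 ≤ c j * (t : ℤ) ^ 2 + d j * t + v j ∧
      c j * (t : ℤ) ^ 2 + d j * t + v j ≤ x) {t : Fin m → ℕ}
    (ht : t ∈ Fintype.piFinset (fun j => range (H j + 1))) (j : Fin m) :
    (c j * (t j : ℤ) ^ 2 + d j * (t j : ℤ) + v j).toNat ≤ x := by
  have h1 := Finset.mem_range.mp ((Fintype.mem_piFinset.mp ht) j)
  have h2 := (hv j (t j) (by omega)).2
  exact Int.toNat_le.mpr h2

lemma T_le (hT : ∀ i, T i ⊆ range (x + 1)) {S : Fin m' → ℕ} (hS : S ∈ Fintype.piFinset T)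
    (i : Fin m') : S i ≤ x := by
  have h1 := Finset.mem_range.mp (hT i ((Fintype.mem_piFinset.mp hS) i))
  omega

/-- The bound for the products over a subset of the positions. -/
lemma part_le (hL : 1 ≤ Real.log x) {ι : Type} (s : Finset ι) (e : ι → Fin (m' + (m + m)))
    (hG : ∀ i, ∀ n ∈ Icc 1 (2 * x), |G i n| ≤ Real.log x ^ K) (σ : ι → ℕ) (hσ : ∀ i ∈ s, σ i ≤ x)
    {n : ℕ} (hn : n ∈ Icc 1 x) {N : ℕ} (hN : s.card ≤ N) :
    ‖∏ i ∈ s, (G (e i) (n + σ i) : ℂ)‖ ≤ Real.log x ^ (K * N) := by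
  have h1 : ‖∏ i ∈ s, (G (e i) (n + σ i) : ℂ)‖ ≤ (Real.log x ^ K) ^ s.card := by
    refine norm_prod_le' s (fun i => G (e i) (n + σ i)) fun i hi => ?_
    apply hG
    have h2 := hσ i hi
    rw [mem_Icc] at hn ⊢
    omega
  refine h1.trans ?_
  rw [← pow_mul]
  exact pow_le_pow_right₀ hL (Nat.mul_le_mul_left _ hN)

lemma four_le {L : ℝ} (hL : 1 ≤ L) {z1 z2 z3 z4 : ℂ} {n1 n2 n3 n4 N : ℕ} (h1 : ‖z1‖ ≤ L ^ n1)
    (h2 : ‖z2‖ ≤ L ^ n2) (h3 : ‖z3‖ ≤ L ^ n3) (h4 : ‖z4‖ ≤ L ^ n4) (hN : n1 + n2 + n3 + n4 ≤ N) :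
    ‖z1 * z2 * z3 * z4‖ ≤ L ^ N := by
  rw [norm_mul, norm_mul, norm_mul]
  have h0 : 0 < L := by linarith
  calc ‖z1‖ * ‖z2‖ * ‖z3‖ * ‖z4‖ ≤ L ^ n1 * L ^ n2 * L ^ n3 * L ^ n4 := by gcongr
    _ = L ^ (n1 + n2 + n3 + n4) := by rw [pow_add, pow_add, pow_add]
    _ ≤ L ^ N := pow_le_pow_right₀ hL hN

/-- Positions of the two-shift blocks. -/
lemma two_slot (hL : 1 ≤ Real.log x) (j0 : Fin m) (E : ℝ) (hT : ∀ i, T i ⊆ range (x + 1))
    (hu : ∀ j, ∀ t : ℕ, t ≤ H j → 0 ≤ a j * t + u j ∧ a j * t + u j ≤ x)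
    (hv : ∀ j, ∀ t : ℕ, t ≤ H j → 0 ≤ c j * (t : ℤ) ^ 2 + d j * t + v j ∧
      c j * (t : ℤ) ^ 2 + d j * t + v j ≤ x)
    (hw : ∀ n ∈ Icc 1 x, ‖w n‖ ≤ Real.log x ^ K)
    (hG : ∀ i, ∀ n ∈ Icc 1 (2 * x), |G i n| ≤ Real.log x ^ K)
    (hpair : ∀ w' : ℕ → ℂ, (∀ n ∈ Icc 1 x, ‖w' n‖ ≤ Real.log x ^ (K * (m' + (m + m) + 1))) →
      ∑ s ∈ range (H j0 + 1), ‖∑ n ∈ Icc 1 x, w' n *
        (G (Fin.natAdd m' (Fin.castAdd m j0)) (n + (a j0 * (s : ℤ) + u j0).toNat) : ℂ) *
        (G (Fin.natAdd m' (Fin.natAdd m j0))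
          (n + (c j0 * (s : ℤ) ^ 2 + d j0 * (s : ℤ) + v j0).toNat) : ℂ)‖ ^ 2 ≤
        ((H j0 + 1 : ℕ) : ℝ) * E) :
    ∑ p ∈ Fintype.piFinset T ×ˢ Fintype.piFinset (fun j => range (H j + 1)),
      ‖∑ n ∈ Icc 1 x, w n * ∏ i, (G i (n + shf a c d u v p i) : ℂ)‖ ^ 2 ≤
      ((Fintype.piFinset T ×ˢ Fintype.piFinset (fun j => range (H j + 1))).card : ℝ) * E := by
  classical
  rw [Finset.sum_product, Finset.card_product, Nat.cast_mul, mul_assoc, ← nsmul_eq_mul,
    ← Finset.sum_const]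
  refine Finset.sum_le_sum fun S hS => ?_
  apply avg j0 (fun j => range (H j + 1))
    (fun t => ‖∑ n ∈ Icc 1 x, w n * ∏ i, (G i (n + shf a c d u v (S, t) i) : ℂ)‖ ^ 2) E
  intro t ht
  set h : ℕ → ℂ := fun n => w n *
    (∏ i : Fin m', (G (Fin.castAdd (m + m) i) (n + S i) : ℂ)) *
    (∏ j ∈ univ.erase j0, (G (Fin.natAdd m' (Fin.castAdd m j))
      (n + (a j * (t j : ℤ) + u j).toNat) : ℂ)) *
    (∏ j ∈ univ.erase j0, (G (Fin.natAdd m' (Fin.natAdd m j))
        (n + (c j * (t j : ℤ) ^ 2 + d j * (t j : ℤ) + v j).toNat) : ℂ)) with hh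
  have h1 : ∀ s : ℕ, ∑ n ∈ Icc 1 x, w n *
      ∏ i, (G i (n + shf a c d u v (S, Function.update t j0 s) i) : ℂ) =
      ∑ n ∈ Icc 1 x, h n *
        (G (Fin.natAdd m' (Fin.castAdd m j0)) (n + (a j0 * (s : ℤ) + u j0).toNat) : ℂ) *
        (G (Fin.natAdd m' (Fin.natAdd m j0))
          (n + (c j0 * (s : ℤ) ^ 2 + d j0 * (s : ℤ) + v j0).toNat) : ℂ) := by
    intro s
    refine Finset.sum_congr rfl fun n _ => ?_
    rw [prod_shf]
    rw [← Finset.mul_prod_erase univ (fun j => (G (Fin.natAdd m' (Fin.castAdd m j))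
      (n + (a j * ((Function.update t j0 s) j : ℤ) + u j).toNat) : ℂ)) (Finset.mem_univ j0),
      ← Finset.mul_prod_erase univ (fun j => (G (Fin.natAdd m' (Fin.natAdd m j))
        (n + (c j * ((Function.update t j0 s) j : ℤ) ^ 2 + d j * ((Function.update t j0 s) j : ℤ) +
          v j).toNat) : ℂ)) (Finset.mem_univ j0), Function.update_self]
    have e2 : ∏ j ∈ univ.erase j0, (G (Fin.natAdd m' (Fin.castAdd m j))
        (n + (a j * ((Function.update t j0 s) j : ℤ) + u j).toNat) : ℂ) =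
        ∏ j ∈ univ.erase j0, (G (Fin.natAdd m' (Fin.castAdd m j))
        (n + (a j * (t j : ℤ) + u j).toNat) : ℂ) := by
      refine Finset.prod_congr rfl fun j hj => ?_
      rw [Function.update_of_ne (Finset.ne_of_mem_erase hj)]
    have e3 : ∏ j ∈ univ.erase j0, (G (Fin.natAdd m' (Fin.natAdd m j))
        (n + (c j * ((Function.update t j0 s) j : ℤ) ^ 2 + d j * ((Function.update t j0 s) j : ℤ) +
          v j).toNat) : ℂ) =
        ∏ j ∈ univ.erase j0, (G (Fin.natAdd m' (Fin.natAdd m j))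
        (n + (c j * (t j : ℤ) ^ 2 + d j * (t j : ℤ) + v j).toNat) : ℂ) := by
      refine Finset.prod_congr rfl fun j hj => ?_
      rw [Function.update_of_ne (Finset.ne_of_mem_erase hj)]
    rw [e2, e3, hh]
    ring
  have h2 : ∀ n ∈ Icc 1 x, ‖h n‖ ≤ Real.log x ^ (K * (m' + (m + m) + 1)) := by
    intro n hn
    have hc : ((univ : Finset (Fin m)).erase j0).card ≤ m := by
      refine (Finset.card_le_univ _).trans ?_
      rw [Fintype.card_fin]
    refine four_le hL (hw n hn)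
      (part_le hL univ (fun i => Fin.castAdd (m + m) i) hG S (fun i _ => T_le hT hS i) hn
        (N := m') (by rw [Finset.card_univ, Fintype.card_fin]))
      (part_le hL (univ.erase j0) (fun j => Fin.natAdd m' (Fin.castAdd m j)) hG
        (fun j => (a j * (t j : ℤ) + u j).toNat) (fun j _ => lin_le hu ht j) hn (N := m) hc)
      (part_le hL (univ.erase j0) (fun j => Fin.natAdd m' (Fin.natAdd m j)) hG
        (fun j => (c j * (t j : ℤ) ^ 2 + d j * (t j : ℤ) + v j).toNat)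
        (fun j _ => quad_le hv ht j) hn (N := m) hc) ?_
    apply le_of_eq
    ring
  have h3 := hpair h h2
  simp only [h1]
  rw [Finset.card_range]
  exact h3

/-- Positions of the one-shift blocks. -/
lemma one_slot {A B : ℕ} (hL : 2 ≤ Real.log x) (j0 : Fin m') (hT : ∀ i, T i ⊆ range (x + 1))
    (hu : ∀ j, ∀ t : ℕ, t ≤ H j → 0 ≤ a j * t + u j ∧ a j * t + u j ≤ x)
    (hv : ∀ j, ∀ t : ℕ, t ≤ H j → 0 ≤ c j * (t : ℤ) ^ 2 + d j * t + v j ∧
      c j * (t : ℤ) ^ 2 + d j * t + v j ≤ x)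
    (hw : ∀ n ∈ Icc 1 x, ‖w n‖ ≤ Real.log x ^ K)
    (hG : ∀ i, ∀ n ∈ Icc 1 (2 * x), |G i n| ≤ Real.log x ^ K)
    (hTj : MSP A (K * (2 * m + 1) * (m' + 1)) B x (T j0))
    (hGj : G (Fin.castAdd (m + m) j0) = ff (zA A x)) :
    ∑ p ∈ Fintype.piFinset T ×ˢ Fintype.piFinset (fun j => range (H j + 1)),
      ‖∑ n ∈ Icc 1 x, w n * ∏ i, (G i (n + shf a c d u v p i) : ℂ)‖ ^ 2 ≤
      ((Fintype.piFinset T ×ˢ Fintype.piFinset (fun j => range (H j + 1))).card : ℝ) *
        ((x : ℝ) ^ 2 / Real.log x ^ B) := by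
  classical
  have hL1 : 1 ≤ Real.log x := by linarith
  rw [Finset.sum_product_right, Finset.card_product, mul_comm (Fintype.piFinset T).card, Nat.cast_mul,
    mul_assoc, ← nsmul_eq_mul, ← Finset.sum_const]
  refine Finset.sum_le_sum fun t ht => ?_
  set h : ℕ → ℂ := fun n => w n * 1 *
    (∏ j : Fin m, (G (Fin.natAdd m' (Fin.castAdd m j))
      (n + (a j * (t j : ℤ) + u j).toNat) : ℂ)) *
    (∏ j : Fin m, (G (Fin.natAdd m' (Fin.natAdd m j))
        (n + (c j * (t j : ℤ) ^ 2 + d j * (t j : ℤ) + v j).toNat) : ℂ)) with hh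
  have h2 : ∀ n ∈ Icc 1 x, ‖h n‖ ≤ Real.log x ^ (K * (2 * m + 1)) := by
    intro n hn
    have hc : (univ : Finset (Fin m)).card ≤ m := by
      rw [Finset.card_univ, Fintype.card_fin]
    refine four_le hL1 (hw n hn) (n2 := 0) (by rw [norm_one, pow_zero])
      (part_le hL1 univ (fun j => Fin.natAdd m' (Fin.castAdd m j)) hG
        (fun j => (a j * (t j : ℤ) + u j).toNat) (fun j _ => lin_le hu ht j) hn (N := m) hc)
      (part_le hL1 univ (fun j => Fin.natAdd m' (Fin.natAdd m j)) hG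
        (fun j => (c j * (t j : ℤ) ^ 2 + d j * (t j : ℤ) + v j).toNat)
        (fun j _ => quad_le hv ht j) hn (N := m) hc) ?_
    apply le_of_eq
    ring
  have h3 := last_ms m' (K * (2 * m + 1)) B A x hL j0 T hT hTj h
    (fun i => G (Fin.castAdd (m + m) i)) h2 (fun i n hn => (hG _ n hn).trans
      (pow_le_pow_right₀ hL1 (Nat.le_mul_of_pos_right _ (by omega)))) hGj
  rw [Fintype.card_piFinset]
  push_cast
  refine le_trans (le_of_eq ?_) h3
  refine Finset.sum_congr rfl fun S _ => ?_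
  congr 2
  refine Finset.sum_congr rfl fun n _ => ?_
  rw [prod_shf, hh]
  ring

end slots

end MsqAllAux

open MsqAllAux Pool.Agent.HLB Pool.Agent.HL Pool.Agent.HLU Pool.Agent.VK in
theorem msq_all (m' m K B : ℕ) (F : ℕ → ℕ) (ε : ℝ) (hε : 0 < ε) (a c d : Fin m → ℤ) (ha : ∀ j, a j ≠ 0)
    (hc : ∀ j, c j ≠ 0) : ∃ b0 B' C : ℕ, ∀ A : ℕ, ∀ᶠ x : ℕ in atTop, WBA A B' C (ε / 2) x →
    ∀ (D : Fin m' → ℕ) (T : Fin m' → Finset ℕ),
    (∀ i, (x : ℝ) ^ (1 / 6 + ε) ≤ D i ∧ D i ≤ x ∧ T i ⊆ range (x + 1) ∧ SpT F b0 x (D i) (T i)) →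
    ∀ (H u v : Fin m → ℕ), (∀ j, (x : ℝ) ^ (1 / 6 + ε) ≤ H j ∧ H j ^ 2 ≤ x) →
    (∀ j, ∀ t : ℕ, t ≤ H j → 0 ≤ a j * t + u j ∧ a j * t + u j ≤ x) →
    (∀ j, ∀ t : ℕ, t ≤ H j → 0 ≤ c j * (t : ℤ) ^ 2 + d j * t + v j ∧ c j * (t : ℤ) ^ 2 + d j * t + v j ≤ x) →
    MSQ (m' + (m + m)) A K B x (Fintype.piFinset T ×ˢ Fintype.piFinset (fun j => range (H j + 1)))
      (shf a c d u v) := by
  classical
  obtain ⟨b0, B1, hmsp⟩ := msp_spec (K * (2 * m + 1) * (m' + 1)) B F
  obtain ⟨B2, hwn⟩ := wn_of_wba B1 ε hε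
  have hp := fun j : Fin m => pair_ms (a j) (c j) (d j) (ha j) (hc j)
    (K * (2 * m + 1) * (m' + 1)) B ε hε
  choose B3 C3 hp using hp
  refine ⟨b0, B2 + ∑ j, B3 j, 1 + ∑ j, C3 j, fun A => ?_⟩
  filter_upwards [hmsp A, hwn A, eventually_all.2 (fun j => hp j A), ev_log 2,
    ev_rpow_one] with x hmsp hwn hp hL hx1 hWBA D T hDT H u v hH hu hv
  have hL1 : 1 ≤ Real.log x := by linarith
  have hT : ∀ i, T i ⊆ range (x + 1) := fun i => (hDT i).2.2.1
  refine ⟨?_, ?_⟩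
  · rintro ⟨S, t⟩ hp i
    rw [Finset.mem_product] at hp
    refine Fin.addCases (fun i => ?_) (fun j => ?_) i
    · unfold shf
      rw [Fin.append_left]
      exact T_le hT hp.1 i
    · refine Fin.addCases (fun j => ?_) (fun j => ?_) j
      · unfold shf
        rw [Fin.append_right, Fin.append_left]
        exact lin_le hu hp.2 j
      · unfold shf
        rw [Fin.append_right, Fin.append_right]
        exact quad_le hv hp.2 j
  · intro i0 w G hw hG
    have hK : K ≤ K * (2 * m + 1) * (m' + 1) := by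
      calc K = K * 1 * 1 := by ring
        _ ≤ K * (2 * m + 1) * (m' + 1) :=
          Nat.mul_le_mul (Nat.mul_le_mul_left _ (by omega)) (by omega)
    have hK2 : K * (m' + (m + m) + 1) ≤ K * (2 * m + 1) * (m' + 1) := by
      rw [mul_assoc]
      apply Nat.mul_le_mul_left
      nlinarith [Nat.zero_le (m * m')]
    have hWj : ∀ j, WBA A (B3 j) (C3 j) (ε / 2) x := by
      intro j
      have h1 : B3 j ≤ ∑ j, B3 j := Finset.single_le_sum (fun _ _ => Nat.zero_le _) (Finset.mem_univ j)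
      have h2 : C3 j ≤ ∑ j, C3 j := Finset.single_le_sum (fun _ _ => Nat.zero_le _) (Finset.mem_univ j)
      exact WBA_mono hWBA (by omega) (by omega) hL1
    refine Fin.addCases (fun j => ?_) (fun j => ?_) i0
    · intro hGj
      refine one_slot hL j hT hu hv hw hG ?_ hGj
      obtain ⟨h1, h2, h3, h4⟩ := hDT j
      have hW : WBA A B2 1 (ε / 2) x := WBA_mono hWBA (by omega) (by omega) hL1
      refine hmsp (D j) ?_ h2 (hwn hW (D j) h1 h2) (T j) h3 h4
      have h5 : (1 : ℝ) ≤ D j := hx1.trans (le_trans (Real.rpow_le_rpow_of_exponent_le (one_le_of_log hL) (by linarith)) h1)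
      exact_mod_cast h5
    · refine Fin.addCases (fun j => ?_) (fun j => ?_) j
      · intro hGj
        refine two_slot hL1 j _ hT hu hv hw hG ?_
        intro w' hw'
        rw [hGj]
        exact (hp j (hWj j) (H j) (hH j).1 (hH j).2 (u j) (v j) (hu j) (hv j) w'
          (fun n hn => (hw' n hn).trans (pow_le_pow_right₀ hL1 hK2))
          (G (Fin.natAdd m' (Fin.natAdd m j)))
          (fun n hn => (hG _ n hn).trans (pow_le_pow_right₀ hL1 hK))).2
      · intro hGj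
        refine two_slot hL1 j _ hT hu hv hw hG ?_
        intro w' hw'
        rw [hGj]
        exact (hp j (hWj j) (H j) (hH j).1 (hH j).2 (u j) (v j) (hu j) (hv j) w'
          (fun n hn => (hw' n hn).trans (pow_le_pow_right₀ hL1 hK2))
          (G (Fin.natAdd m' (Fin.castAdd m j)))
          (fun n hn => (hG _ n hn).trans (pow_le_pow_right₀ hL1 hK))).1

end Pool.Agent.NLT
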