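import Pool.Agent.Lib.NLT.NT

/-!
# Module MajLem: a criterion for major arcs, and their number

PROOF of `maj_of_count`: `nt_major` with `θ = m (ξ.val / M)` gives `q`; take `q * m.natAbs`
(`nrm (q |m| ξ / M) = nrm (q m ξ / M)`); `mem_Maj`.

PROOF of `card_Maj`: for `1 ≤ q ≤ K < M` the map `ξ ↦ q ξ` of `ZMod M` is injective (`M` prime) and
`nrm ((q ξ.val) / M)` depends only on the residue `ρ = (q ξ.val) % M`; `nrm (ρ / M) ≤ K / H^2` means
`ρ ≤ K M / H^2 ≤ K R` or `M - ρ ≤ K R`: at most `2 K R + 1 ≤ 3 K R` residues. Sum over `q`. (`H ≥ 1` because `M > 0`.)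
-/

set_option autoImplicit false

open Finset

namespace Pool.Agent.NLT

open Pool.Agent.HLT

theorem maj_of_count (M H B K K' : ℕ) [NeZero M] (ξ : ZMod M) (m : ℤ) (hm : m ≠ 0) (hK : 1 ≤ K) (hH : 1 ≤ H)
    (hB : 28 * K ^ 2 ≤ B) (h1 : 5 * K * m.natAbs ≤ K') (h2 : 100 * K ^ 3 * H ^ 2 ≤ K' * B ^ 2) (S : Finset ℤ)
    (hS : ∀ g ∈ S, |g| ≤ B ∧ nrm ((g : ℝ) * ((m : ℝ) * ((ξ.val : ℝ) / M))) ≤ (K : ℝ) / B)
    (hc : (B : ℝ) / K ≤ S.card) : ξ ∈ Maj M H K' := by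
  obtain ⟨q, hq1, hq5, hq⟩ := nt_major ((m : ℝ) * ((ξ.val : ℝ) / M)) B K hK hB S hS hc
  have hBr : 28 * (K : ℝ) ^ 2 ≤ B := by exact_mod_cast hB
  have hKr : (1 : ℝ) ≤ K := by exact_mod_cast hK
  have hB0 : (0 : ℝ) < B := by nlinarith
  have hH0 : (0 : ℝ) < H := by exact_mod_cast hH
  unfold Maj
  rw [Finset.mem_filter]
  refine ⟨Finset.mem_univ _, q * m.natAbs, ?_, ?_⟩
  · rw [Finset.mem_Icc]
    refine ⟨Nat.mul_pos hq1 (Int.natAbs_pos.2 hm), ?_⟩
    exact (Nat.mul_le_mul_right _ hq5).trans h1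
  · have e : nrm (((q * m.natAbs * ξ.val : ℕ) : ℝ) / (M : ℝ)) =
        nrm ((q : ℝ) * ((m : ℝ) * ((ξ.val : ℝ) / M))) := by
      have hz : ((m.natAbs : ℕ) : ℝ) = |(m : ℝ)| := by
        rw [Nat.cast_natAbs, Int.cast_abs]
      rcases abs_choice (m : ℝ) with h | h
      · congr 1
        push_cast
        rw [hz, h]
        ring
      · rw [← nrm_ng ((q : ℝ) * ((m : ℝ) * ((ξ.val : ℝ) / M)))]
        congr 1
        push_cast
        rw [hz, h]
        ring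
    rw [e]
    refine hq.trans ?_
    rw [div_le_div_iff₀ (by positivity) (by positivity)]
    exact_mod_cast h2

theorem card_Maj (M H K R : ℕ) [Fact M.Prime] (hK : 1 ≤ K) (hR : 1 ≤ R) (hKM : K < M) (hM : M ≤ R * H ^ 2) :
    ((Maj M H K).card : ℝ) ≤ 3 * (K : ℝ) ^ 2 * R := by
  classical
  have hMp : 0 < M := (Fact.out : M.Prime).pos
  have hMr : (0 : ℝ) < M := by exact_mod_cast hMp
  have hH : 0 < H := by
    rcases Nat.eq_zero_or_pos H with h | h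
    · rw [h] at hM
      simp at hM
      omega
    · exact h
  have hHr : (0 : ℝ) < H := by exact_mod_cast hH
  have hMR : (M : ℝ) ≤ R * (H : ℝ) ^ 2 := by exact_mod_cast hM
  -- the image
  obtain ⟨J, hJ⟩ : ∃ J : Finset (ZMod M), J = (Finset.Icc (-((K * R : ℕ) : ℤ)) ((K * R : ℕ) : ℤ)).image
      (fun j : ℤ => (j : ZMod M)) := ⟨_, rfl⟩
  have hJc : J.card ≤ 3 * (K * R) := by
    have h1 : J.card ≤ (Finset.Icc (-((K * R : ℕ) : ℤ)) ((K * R : ℕ) : ℤ)).card := by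
      rw [hJ]
      exact Finset.card_image_le
    rw [Int.card_Icc] at h1
    have h2 : 1 ≤ K * R := Nat.mul_pos hK hR
    omega
  have hsub : Maj M H K ⊆ (Finset.Icc 1 K).biUnion
      (fun q => univ.filter (fun ξ : ZMod M => ((q : ℕ) : ZMod M) * ξ ∈ J)) := by
    intro ξ hξ
    unfold Maj at hξ
    rw [Finset.mem_filter] at hξ
    obtain ⟨-, q, hq, hn⟩ := hξ
    rw [Finset.mem_biUnion]
    refine ⟨q, hq, ?_⟩
    rw [Finset.mem_filter]
    refine ⟨Finset.mem_univ _, ?_⟩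
    rw [hJ, Finset.mem_image]
    refine ⟨((q * ξ.val : ℕ) : ℤ) - round (((q * ξ.val : ℕ) : ℝ) / (M : ℝ)) * (M : ℤ), ?_, ?_⟩
    · rw [Finset.mem_Icc, ← abs_le]
      have h3 : |(((q * ξ.val : ℕ) : ℝ)) - (round (((q * ξ.val : ℕ) : ℝ) / (M : ℝ)) : ℝ) * (M : ℝ)| ≤
          ((K * R : ℕ) : ℝ) := by
        have e : (((q * ξ.val : ℕ) : ℝ)) - (round (((q * ξ.val : ℕ) : ℝ) / (M : ℝ)) : ℝ) * (M : ℝ) =
            ((((q * ξ.val : ℕ) : ℝ)) / M - (round (((q * ξ.val : ℕ) : ℝ) / (M : ℝ)) : ℝ)) * (M : ℝ) := by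
          field_simp
        rw [e, abs_mul, abs_of_pos hMr]
        have hn' : |(((q * ξ.val : ℕ) : ℝ)) / M - (round (((q * ξ.val : ℕ) : ℝ) / (M : ℝ)) : ℝ)| ≤
            (K : ℝ) / (H : ℝ) ^ 2 := hn
        calc _ ≤ (K : ℝ) / (H : ℝ) ^ 2 * M := mul_le_mul_of_nonneg_right hn' hMr.le
          _ ≤ (K : ℝ) / (H : ℝ) ^ 2 * (R * (H : ℝ) ^ 2) := mul_le_mul_of_nonneg_left hMR (by positivity)
          _ = ((K * R : ℕ) : ℝ) := by
            push_cast
            field_simp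
      exact_mod_cast h3
    · push_cast
      rw [ZMod.natCast_self, mul_zero, sub_zero, ZMod.natCast_zmod_val]
  have hcard : (Maj M H K).card ≤ ∑ q ∈ Finset.Icc 1 K, J.card := by
    refine (Finset.card_le_card hsub).trans (Finset.card_biUnion_le.trans ?_)
    refine Finset.sum_le_sum (fun q hq => ?_)
    rw [Finset.mem_Icc] at hq
    have hq0 : ((q : ℕ) : ZMod M) ≠ 0 := by
      intro h
      rw [ZMod.natCast_eq_zero_iff] at h
      have := Nat.le_of_dvd (by omega) h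
      omega
    refine Finset.card_le_card_of_injOn (fun ξ => ((q : ℕ) : ZMod M) * ξ) ?_ ?_
    · intro ξ hξ
      exact (Finset.mem_filter.1 hξ).2
    · intro a _ b _ hab
      exact mul_left_cancel₀ hq0 hab
  rw [Finset.sum_const, Nat.card_Icc, smul_eq_mul] at hcard
  have h4 : (Maj M H K).card ≤ K * (3 * (K * R)) := by
    refine hcard.trans ?_
    rw [Nat.add_sub_cancel]
    exact Nat.mul_le_mul_left _ hJc
  have h5 : ((Maj M H K).card : ℝ) ≤ ((K * (3 * (K * R)) : ℕ) : ℝ) := by exact_mod_cast h4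
  refine h5.trans (le_of_eq ?_)
  push_cast
  ring

end Pool.Agent.NLT
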