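import Pool.Agent.Lib.NLT.WDefs
import Pool.Agent.Lib.VM.SI6

/-!
# Module EdgeWin: window bounds for the primes

PROOF. `VM.si6 A0 B1 (ε / 2)` gives `A ≥ A0`, `c`: for `x^(1/6 + ε/2) ≤ H ≤ x / (log x)^c` and all real `α`,
`∑ u ∈ range (2 x + 1), ‖∑ n ∈ (Ioc u (u + H)).filter (· ≤ 2 x), ff (zA A x) n ex (n α)‖^2 ≤ x H^2 / (log x)^B1`. Let `L = log x`,
`F m = ff (zA A x) m / L^2` for `1 ≤ m ≤ 2 x`, 0 otherwise (`m : ℤ`); `‖F m‖ ≤ 1` (`|ff| ≤ L^2`: `HLU.lp_le_sq`, `nuz_le`, `DZ_inv_le`, see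
`VM.win_sup6` or `VN.msp_spec`). (1) Translation: `EZ A x v n = F (n + v)`, so with `y' = y + v` the sum for `EZ` and `U` is the sum for
`F` and the translated finite set (a factor of norm one). (2) Short windows `W ≤ x / L^c'`, `c' = max c (B + 2)`,
`W ≥ x^(1/6 + ε/2)`: for `y ≥ 0` the bound `si6` (divided by `L^4`; windows with `y > 2 x` are 0), for `-W < y < 0` at most `W`
windows, each `≤ W^2`: `W^3 ≤ x W^2 / L^(B+2)`; other windows vanish. Total `≤ x W^2 / L^(B+1)` with `B1 = B + 2`.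
(3) Long windows `x / L^c' < W ≤ C x`: let `k = ⌈C L^c'⌉ + 1`-like, `W' = W / k` (natural division), `W = k W' + r`, `r < k`,
`x^(1/6+ε/2) ≤ W' ≤ x / L^c'`. The window is the union of `k` windows of length `W'` and one of length `r`:
`‖S_y(W)‖^2 ≤ 2 k ∑_{i<k} ‖S_{y + i W'}(W')‖^2 + 2 ‖S_{y + k W'}(r)‖^2`; sum over `y ∈ U`: `≤ 2 k^2 x W'^2 / L^B2 + 2 (2 x + r) r^2`
`≤ 2 x W^2 / L^B2 + 6 x k^2 ≤ x W^2 / L^B` with `B2 = B + 1` in (2) (`k^2 ≤ W^2 / L^(B+3)` because `W` exceeds a power of `x`).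
Use (2) with `B2` in place of `B`.
-/

set_option autoImplicit false

open Finset Filter

namespace Pool.Agent.NLT

open Pool.Agent.HLT

namespace EdgeWinAux

open Pool.Agent.VL.SI3Aux Pool.Agent.HLU Pool.Agent.HLB

/-- The window sum. -/
noncomputable def SS (F : ℤ → ℂ) (α : ℝ) (y : ℤ) (W : ℕ) : ℂ := ∑ n ∈ Ioc y (y + W), F n * ex ((n : ℝ) * α)

theorem wb_iff (F : ℤ → ℂ) (W : ℕ) (D : ℝ) :
    WB F W D ↔ ∀ (α : ℝ) (U : Finset ℤ), ∑ y ∈ U, ‖SS F α y W‖ ^ 2 ≤ D := Iff.rfl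

theorem SS_add (F : ℤ → ℂ) (α : ℝ) (y : ℤ) (W V : ℕ) : SS F α y (W + V) = SS F α y W + SS F α (y + W) V := by
  unfold SS
  have h1 : y ≤ y + (W : ℤ) := by omega
  have h2 : y + (W : ℤ) ≤ y + ((W + V : ℕ) : ℤ) := by push_cast; omega
  rw [← Finset.Ioc_union_Ioc_eq_Ioc h1 h2, Finset.sum_union (Finset.Ioc_disjoint_Ioc_of_le le_rfl)]
  have h3 : y + ((W + V : ℕ) : ℤ) = y + (W : ℤ) + (V : ℤ) := by push_cast; ring
  rw [h3]

theorem SS_mul (F : ℤ → ℂ) (α : ℝ) (y : ℤ) (W k : ℕ) :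
    SS F α y (k * W) = ∑ i ∈ range k, SS F α (y + (i : ℤ) * W) W := by
  induction k with
  | zero => simp [SS]
  | succ k ih =>
    rw [Nat.succ_mul, SS_add, ih, Finset.sum_range_succ]
    congr 2

/-- Sums over translates. -/
theorem wb_shift {F : ℤ → ℂ} {W : ℕ} {D : ℝ} (h : WB F W D) (α : ℝ) (U : Finset ℤ) (t : ℤ) :
    ∑ y ∈ U, ‖SS F α (y + t) W‖ ^ 2 ≤ D := by
  have := h α (U.map (addRightEmbedding t))
  rw [Finset.sum_map] at this
  exact this

theorem wb_mono {F : ℤ → ℂ} {W : ℕ} {D D' : ℝ} (h : WB F W D) (hD : D ≤ D') : WB F W D' :=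
  fun α U => (h α U).trans hD

/-- Translation of the function. -/
theorem wb_trans {F : ℤ → ℂ} {W : ℕ} {D : ℝ} (h : WB F W D) (v : ℤ) : WB (fun n => F (n + v)) W D := by
  intro α U
  refine le_trans (le_of_eq ?_) (wb_shift h α U v)
  refine Finset.sum_congr rfl (fun y _ => ?_)
  have h1 : SS F α (y + v) W = ex (v * α) * ∑ n ∈ Ioc y (y + (W : ℤ)), F (n + v) * ex ((n : ℝ) * α) := by
    unfold SS
    have h2 : Ioc (y + v) (y + v + (W : ℤ)) = (Ioc y (y + (W : ℤ))).map (addRightEmbedding v) := by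
      rw [Finset.map_add_right_Ioc]
      congr 1
      ring
    rw [h2, Finset.sum_map, Finset.mul_sum]
    refine Finset.sum_congr rfl (fun n _ => ?_)
    simp only [addRightEmbedding_apply]
    push_cast
    rw [add_mul, ex_add]
    ring
  rw [h1, norm_mul, norm_ex, one_mul]

/-- Long windows from short windows. -/
theorem wb_long {F : ℤ → ℂ} {W r : ℕ} {D D' : ℝ} (k : ℕ) (h1 : WB F W D) (h2 : WB F r D') :
    WB F (k * W + r) (2 * (k * (k * D)) + 2 * D') := by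
  intro α U
  have hpt : ∀ y : ℤ, ‖SS F α y (k * W + r)‖ ^ 2 ≤
      2 * (k * ∑ i ∈ range k, ‖SS F α (y + (i : ℤ) * W) W‖ ^ 2) + 2 * ‖SS F α (y + (k * W : ℕ)) r‖ ^ 2 := by
    intro y
    rw [SS_add, SS_mul]
    have ha : ‖∑ i ∈ range k, SS F α (y + (i : ℤ) * W) W‖ ^ 2 ≤
        k * ∑ i ∈ range k, ‖SS F α (y + (i : ℤ) * W) W‖ ^ 2 := by
      have h3 := sq_sum_le_card_mul_sum_sq (s := range k) (f := fun i => ‖SS F α (y + (i : ℤ) * W) W‖)
      rw [Finset.card_range] at h3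
      refine le_trans ?_ h3
      exact pow_le_pow_left₀ (norm_nonneg _) (norm_sum_le _ _) 2
    set a := ‖∑ i ∈ range k, SS F α (y + (i : ℤ) * W) W‖ with ha'
    set b := ‖SS F α (y + (k * W : ℕ)) r‖ with hb
    have h4 := norm_add_le (∑ i ∈ range k, SS F α (y + (i : ℤ) * W) W) (SS F α (y + (k * W : ℕ)) r)
    rw [← ha', ← hb] at h4
    calc _ ≤ (a + b) ^ 2 := pow_le_pow_left₀ (norm_nonneg _) h4 2
      _ ≤ 2 * a ^ 2 + 2 * b ^ 2 := by nlinarith only [sq_nonneg (a - b)]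
      _ ≤ _ := by linarith only [ha]
  have hs : ∑ y ∈ U, ‖SS F α y (k * W + r)‖ ^ 2 ≤
      2 * (k * ∑ i ∈ range k, ∑ y ∈ U, ‖SS F α (y + (i : ℤ) * W) W‖ ^ 2) +
        2 * ∑ y ∈ U, ‖SS F α (y + (k * W : ℕ)) r‖ ^ 2 := by
    refine (Finset.sum_le_sum (fun y _ => hpt y)).trans (le_of_eq ?_)
    rw [Finset.sum_add_distrib, ← Finset.mul_sum, ← Finset.mul_sum, ← Finset.mul_sum, Finset.sum_comm]
  refine hs.trans ?_
  have h3 : ∑ i ∈ range k, ∑ y ∈ U, ‖SS F α (y + (i : ℤ) * W) W‖ ^ 2 ≤ k * D := by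
    refine (Finset.sum_le_sum (fun i _ => wb_shift h1 α U _)).trans (le_of_eq ?_)
    rw [Finset.sum_const, Finset.card_range, nsmul_eq_mul]
  have h4 := wb_shift h2 α U (k * W : ℕ)
  have h5 : (k : ℝ) * ∑ i ∈ range k, ∑ y ∈ U, ‖SS F α (y + (i : ℤ) * W) W‖ ^ 2 ≤ k * (k * D) :=
    mul_le_mul_of_nonneg_left h3 (Nat.cast_nonneg _)
  linarith only [h4, h5]

/-- The trivial bound for one window. -/
theorem SS_le {F : ℤ → ℂ} (hF : ∀ n, ‖F n‖ ≤ 1) (α : ℝ) (y : ℤ) (W : ℕ) : ‖SS F α y W‖ ≤ W := by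
  unfold SS
  refine (norm_sum_le _ _).trans ?_
  calc ∑ n ∈ Ioc y (y + (W : ℤ)), ‖F n * ex ((n : ℝ) * α)‖ ≤ ∑ n ∈ Ioc y (y + (W : ℤ)), (1 : ℝ) := by
        refine Finset.sum_le_sum (fun n _ => ?_)
        rw [norm_mul, norm_ex, mul_one]
        exact hF n
    _ = W := by
        rw [Finset.sum_const, Int.card_Ioc, nsmul_eq_mul, mul_one]
        congr 1
        omega

/-- Windows outside the support vanish. -/
theorem SS_zero {F : ℤ → ℂ} {N : ℕ} (hF : ∀ n : ℤ, ¬ (1 ≤ n ∧ n ≤ N) → F n = 0) (α : ℝ) (y : ℤ) (W : ℕ)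
    (h : y ≤ -(W : ℤ) ∨ (N : ℤ) ≤ y) : SS F α y W = 0 := by
  unfold SS
  refine Finset.sum_eq_zero (fun n hn => ?_)
  rw [Finset.mem_Ioc] at hn
  rw [hF n (by omega), zero_mul]

/-- The trivial bound for all windows. -/
theorem wb_triv {F : ℤ → ℂ} {N : ℕ} (hF : ∀ n, ‖F n‖ ≤ 1) (hF0 : ∀ n : ℤ, ¬ (1 ≤ n ∧ n ≤ N) → F n = 0) (W : ℕ) :
    WB F W ((W + N) * (W : ℝ) ^ 2) := by
  intro α U
  have h1 : ∑ y ∈ U, ‖SS F α y W‖ ^ 2 ≤ ∑ y ∈ Ico (-(W : ℤ)) N, ‖SS F α y W‖ ^ 2 := by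
    have h2 : ∑ y ∈ U, ‖SS F α y W‖ ^ 2 = ∑ y ∈ U.filter (fun y => y ∈ Ico (-(W : ℤ)) N), ‖SS F α y W‖ ^ 2 := by
      rw [Finset.sum_filter]
      refine Finset.sum_congr rfl (fun y _ => ?_)
      split_ifs with h
      · rfl
      · rw [Finset.mem_Ico] at h
        rw [SS_zero hF0 α y W (by omega), norm_zero]
        norm_num
    rw [h2]
    refine Finset.sum_le_sum_of_subset_of_nonneg ?_ (fun _ _ _ => by positivity)
    intro y hy
    exact (Finset.mem_filter.1 hy).2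
  refine h1.trans ?_
  calc ∑ y ∈ Ico (-(W : ℤ)) N, ‖SS F α y W‖ ^ 2 ≤ ∑ y ∈ Ico (-(W : ℤ)) N, (W : ℝ) ^ 2 :=
        Finset.sum_le_sum (fun y _ => pow_le_pow_left₀ (norm_nonneg _) (SS_le hF α y W) 2)
    _ = (W + N) * (W : ℝ) ^ 2 := by
        rw [Finset.sum_const, Int.card_Ico, nsmul_eq_mul]
        congr 1
        have : ((N : ℤ) - -(W : ℤ)).toNat = W + N := by omega
        rw [this]
        push_cast
        ring

/-- Windows starting at nonnegative integers suffice. -/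
theorem wb_nonneg {F : ℤ → ℂ} {N : ℕ} (hF : ∀ n, ‖F n‖ ≤ 1) (hF0 : ∀ n : ℤ, ¬ (1 ≤ n ∧ n ≤ N) → F n = 0) (W : ℕ) (D : ℝ)
    (h : ∀ α : ℝ, ∑ u ∈ range (N + 1), ‖SS F α (u : ℤ) W‖ ^ 2 ≤ D) : WB F W (D + W * (W : ℝ) ^ 2) := by
  intro α U
  have h1 : ∑ y ∈ U, ‖SS F α y W‖ ^ 2 ≤ ∑ y ∈ Ico (-(W : ℤ)) (N + 1), ‖SS F α y W‖ ^ 2 := by
    have h2 : ∑ y ∈ U, ‖SS F α y W‖ ^ 2 = ∑ y ∈ U.filter (fun y => y ∈ Ico (-(W : ℤ)) (N + 1)), ‖SS F α y W‖ ^ 2 := by
      rw [Finset.sum_filter]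
      refine Finset.sum_congr rfl (fun y _ => ?_)
      split_ifs with h
      · rfl
      · rw [Finset.mem_Ico] at h
        rw [SS_zero hF0 α y W (by omega), norm_zero]
        norm_num
    rw [h2]
    refine Finset.sum_le_sum_of_subset_of_nonneg ?_ (fun _ _ _ => by positivity)
    intro y hy
    exact (Finset.mem_filter.1 hy).2
  refine h1.trans ?_
  have h3 : Ico (-(W : ℤ)) (N + 1) = Ico (-(W : ℤ)) 0 ∪ (range (N + 1)).map Nat.castEmbedding := by
    ext y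
    simp only [Finset.mem_Ico, Finset.mem_union, Finset.mem_map, Finset.mem_range, Nat.castEmbedding_apply]
    constructor
    · intro hy
      by_cases h0 : y < 0
      · left; omega
      · right; exact ⟨y.toNat, by omega, by omega⟩
    · rintro (hy | ⟨a, ha, rfl⟩)
      · omega
      · omega
  have h4 : Disjoint (Ico (-(W : ℤ)) 0) ((range (N + 1)).map Nat.castEmbedding) := by
    rw [Finset.disjoint_left]
    intro y hy hy2
    simp only [Finset.mem_Ico, Finset.mem_map, Finset.mem_range, Nat.castEmbedding_apply] at hy hy2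
    obtain ⟨a, ha, rfl⟩ := hy2
    omega
  rw [h3, Finset.sum_union h4, Finset.sum_map]
  have h5 : ∑ y ∈ Ico (-(W : ℤ)) 0, ‖SS F α y W‖ ^ 2 ≤ W * (W : ℝ) ^ 2 := by
    calc ∑ y ∈ Ico (-(W : ℤ)) 0, ‖SS F α y W‖ ^ 2 ≤ ∑ y ∈ Ico (-(W : ℤ)) 0, (W : ℝ) ^ 2 :=
          Finset.sum_le_sum (fun y _ => pow_le_pow_left₀ (norm_nonneg _) (SS_le hF α y W) 2)
      _ = W * (W : ℝ) ^ 2 := by
          rw [Finset.sum_const, Int.card_Ico, nsmul_eq_mul]
          congr 1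
          have : ((0 : ℤ) - -(W : ℤ)).toNat = W := by omega
          rw [this]
  have h6 := h α
  simp only [Nat.castEmbedding_apply]
  linarith only [h5, h6]

/-- The window sum of `EZ` in terms of natural numbers. -/
theorem SS_EZ (A x : ℕ) (α : ℝ) (u W : ℕ) :
    SS (EZ A x 0) α (u : ℤ) W = ((1 / Real.log x ^ 2 : ℝ) : ℂ) *
      ∑ n ∈ (Ioc u (u + W)).filter (fun n => n ≤ 2 * x), (ff (zA A x) n : ℂ) * ex (n * α) := by
  unfold SS
  have h1 : Ioc (u : ℤ) ((u : ℤ) + (W : ℤ)) = (Ioc u (u + W)).map Nat.castEmbedding := by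
    ext y
    simp only [Finset.mem_Ioc, Finset.mem_map, Nat.castEmbedding_apply]
    constructor
    · intro hy
      exact ⟨y.toNat, by omega, by omega⟩
    · rintro ⟨a, ha, rfl⟩
      omega
  rw [h1, Finset.sum_map, Finset.mul_sum, Finset.sum_filter]
  refine Finset.sum_congr rfl (fun n hn => ?_)
  rw [Finset.mem_Ioc] at hn
  simp only [Nat.castEmbedding_apply, EZ]
  split_ifs with h1 h2 h2
  · have h3 : ((n : ℤ) + ((0 : ℕ) : ℤ)).toNat = n := by omega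
    rw [h3]
    push_cast
    ring
  · exfalso; omega
  · exfalso; omega
  · rw [zero_mul]

theorem EZ_zero (A x : ℕ) (n : ℤ) (h : ¬ (1 ≤ n ∧ n ≤ ((2 * x : ℕ) : ℤ))) : EZ A x 0 n = 0 := by
  unfold EZ
  rw [if_neg]
  push_cast at h ⊢
  omega

theorem EZ_norm {A x : ℕ} (hL : 2 ≤ Real.log x) (hD : (DZ (zA A x))⁻¹ ≤ Real.log x) (n : ℤ) : ‖EZ A x 0 n‖ ≤ 1 := by
  unfold EZ
  split_ifs with h
  · have h1 := ff_norm (n := (n + ((0 : ℕ) : ℤ)).toNat) hL hD (by omega)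
    have hL0 : 0 < Real.log x ^ 2 := by positivity
    push_cast at h1 ⊢
    rw [norm_div, norm_pow]
    have h2 : ‖(Real.log x : ℂ)‖ = Real.log x := by
      rw [Complex.norm_real, Real.norm_eq_abs, abs_of_pos (by linarith only [hL])]
    have h3 : (Complex.log (x : ℂ)) = ((Real.log x : ℝ) : ℂ) := by
      rw [Complex.natCast_log]
    rw [h3, h2, div_le_one hL0]
    exact h1
  · rw [norm_zero]; norm_num

end EdgeWinAux

open EdgeWinAux Pool.Agent.VL.SI3Aux Pool.Agent.HLU Pool.Agent.HLB in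
theorem edge_win (A0 B C : ℕ) (ε : ℝ) (hε : 0 < ε) :
    ∃ A : ℕ, A0 ≤ A ∧ ∀ᶠ x : ℕ in atTop, WBA A B C ε x := by
  obtain ⟨δ, hδ⟩ : ∃ δ, δ = min ε (1 / 2) := ⟨_, rfl⟩
  have hδ0 : 0 < δ := by rw [hδ]; exact lt_min hε (by norm_num)
  have hδ1 : δ ≤ ε := by rw [hδ]; exact min_le_left _ _
  have hδ2 : δ ≤ 1 / 2 := by rw [hδ]; exact min_le_right _ _
  obtain ⟨A, c, hA, hsi⟩ := Pool.Agent.VM.si6 A0 (B + 3) δ hδ0
  obtain ⟨c', hc'⟩ : ∃ c', c' = max c (B + 3) := ⟨_, rfl⟩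
  refine ⟨A, hA, ?_⟩
  filter_upwards [hsi, DZ_inv_le A, ev_log 3, ev_log (C + 2), eventually_ge_atTop 1,
    ev_lp (2 * c' + 1) 2 (1 / 3) (by norm_num), ev_lp (4 * c' + B + 4) 6 1 (by norm_num)]
    with x hsi hDZ hL3 hLC hx1 e1 e2
  set L := Real.log x with hLdef
  have hx1' : (1 : ℝ) ≤ x := by exact_mod_cast hx1
  have hx0 : (0 : ℝ) < x := by linarith only [hx1']
  have hL0 : 0 < L := by linarith only [hL3]
  have hL1 : 1 ≤ L := by linarith only [hL3]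
  have hFn : ∀ n, ‖EZ A x 0 n‖ ≤ 1 := EZ_norm (by linarith only [hL3]) hDZ
  have hF0 : ∀ n : ℤ, ¬ (1 ≤ n ∧ n ≤ ((2 * x : ℕ) : ℤ)) → EZ A x 0 n = 0 := EZ_zero A x
  have hxδ : (x : ℝ) ^ (1 / 6 + δ) ≤ (x : ℝ) ^ (1 / 6 + ε) :=
    Real.rpow_le_rpow_of_exponent_le hx1' (by linarith only [hδ1])
  -- short windows
  have hshort : ∀ W : ℕ, (x : ℝ) ^ (1 / 6 + δ) ≤ W → (W : ℝ) ≤ x / L ^ c' →
      WB (EZ A x 0) W (x * (W : ℝ) ^ 2 / L ^ (B + 2)) := by
    intro W hW1 hW2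
    have hWc : (W : ℝ) ≤ x / L ^ c := by
      refine hW2.trans (div_le_div_of_nonneg_left hx0.le (by positivity) ?_)
      exact pow_le_pow_right₀ hL1 (by rw [hc']; exact le_max_left _ _)
    have hWB : (W : ℝ) ≤ x / L ^ (B + 3) := by
      refine hW2.trans (div_le_div_of_nonneg_left hx0.le (by positivity) ?_)
      exact pow_le_pow_right₀ hL1 (by rw [hc']; exact le_max_right _ _)
    have h1 := wb_nonneg hFn hF0 W (x * (W : ℝ) ^ 2 / L ^ (B + 3)) (by
      intro α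
      have h2 := hsi W α hW1 hWc
      have h3 : ∑ u ∈ range (2 * x + 1), ‖SS (EZ A x 0) α (u : ℤ) W‖ ^ 2 = (1 / L ^ 2) ^ 2 *
          ∑ u ∈ range (2 * x + 1), ‖∑ n ∈ (Ioc u (u + W)).filter (fun n => n ≤ 2 * x), (ff (zA A x) n : ℂ) * ex (n * α)‖ ^ 2 := by
        rw [Finset.mul_sum]
        refine Finset.sum_congr rfl (fun u _ => ?_)
        rw [SS_EZ, norm_mul, mul_pow, Complex.norm_real, Real.norm_eq_abs, abs_of_pos (by positivity)]
      rw [h3]
      have h4 : (1 / L ^ 2) ^ 2 ≤ 1 := by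
        have h5 : 1 / L ^ 2 ≤ 1 := by
          rw [div_le_one (by positivity)]
          exact one_le_pow₀ hL1
        exact pow_le_one₀ (by positivity) h5
      calc _ ≤ 1 * ∑ u ∈ range (2 * x + 1), ‖∑ n ∈ (Ioc u (u + W)).filter (fun n => n ≤ 2 * x), (ff (zA A x) n : ℂ) * ex (n * α)‖ ^ 2 :=
            mul_le_mul_of_nonneg_right h4 (Finset.sum_nonneg (fun _ _ => by positivity))
        _ ≤ _ := by rw [one_mul]; exact h2)
    refine wb_mono h1 ?_
    have h2 : (W : ℝ) * (W : ℝ) ^ 2 ≤ x * (W : ℝ) ^ 2 / L ^ (B + 3) := by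
      have h3 := mul_le_mul_of_nonneg_right hWB (sq_nonneg (W : ℝ))
      refine h3.trans (le_of_eq ?_)
      ring
    have h4 : x * (W : ℝ) ^ 2 / L ^ (B + 2) = L * (x * (W : ℝ) ^ 2 / L ^ (B + 3)) := by
      have : L ^ (B + 3) = L ^ (B + 2) * L := by rw [← pow_succ]
      rw [this]
      field_simp
    rw [h4]
    have h5 : 0 ≤ x * (W : ℝ) ^ 2 / L ^ (B + 3) := by positivity
    nlinarith only [h2, h5, hL3]
  -- the claim for `v = 0`
  have hzero : ∀ W : ℕ, (x : ℝ) ^ (1 / 6 + ε) ≤ W → W ≤ C * x → WB (EZ A x 0) W (x * (W : ℝ) ^ 2 / L ^ B) := by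
    intro W hW1 hW2
    have hW1' := hxδ.trans hW1
    have hW0 : (0 : ℝ) < W := lt_of_lt_of_le (Real.rpow_pos_of_pos hx0 _) hW1
    rcases le_or_gt (W : ℝ) (x / L ^ c') with hs | hs
    · refine wb_mono (hshort W hW1' hs) ?_
      refine div_le_div_of_nonneg_left (by positivity) (by positivity) ?_
      exact pow_le_pow_right₀ hL1 (by omega)
    · have hC1 : 1 ≤ C := by
        by_contra h
        have h0 : C = 0 := by omega
        rw [h0, zero_mul] at hW2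
        have : (W : ℝ) ≤ 0 := by exact_mod_cast hW2
        linarith only [this, hW0]
      have hC1' : (1 : ℝ) ≤ C := by exact_mod_cast hC1
      have hLc1 : 1 ≤ L ^ c' := one_le_pow₀ hL1
      obtain ⟨k, hk⟩ : ∃ k, k = ⌈(C : ℝ) * L ^ c'⌉₊ + 1 := ⟨_, rfl⟩
      have hk1 : (C : ℝ) * L ^ c' ≤ k := by
        rw [hk]; push_cast
        have := Nat.le_ceil ((C : ℝ) * L ^ c')
        linarith only [this]
      have hk2 : (k : ℝ) ≤ L ^ (c' + 1) := by
        have h1 := (Nat.ceil_lt_add_one (by positivity : (0 : ℝ) ≤ (C : ℝ) * L ^ c')).le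
        have h2 : (k : ℝ) ≤ C * L ^ c' + 2 := by
          rw [hk]; push_cast
          linarith only [h1]
        refine h2.trans ?_
        rw [pow_succ]
        nlinarith only [hLC, hLc1]
      have hk0 : 0 < k := by omega
      have hk0' : (0 : ℝ) < k := by exact_mod_cast hk0
      obtain ⟨W', hW'⟩ : ∃ W', W' = W / k := ⟨_, rfl⟩
      obtain ⟨r, hr⟩ : ∃ r, r = W % k := ⟨_, rfl⟩
      have hWk : W = k * W' + r := by rw [hW', hr]; exact (Nat.div_add_mod W k).symm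
      have hrk : r < k := by rw [hr]; exact Nat.mod_lt _ hk0
      have hWkr : (W : ℝ) = k * W' + r := by exact_mod_cast hWk
      have hrkr : (r : ℝ) ≤ k := by exact_mod_cast hrk.le
      have hr0 : (0 : ℝ) ≤ r := Nat.cast_nonneg _
      have hW'0 : (0 : ℝ) ≤ W' := Nat.cast_nonneg _
      have hkW : (k : ℝ) * W' ≤ W := by linarith only [hWkr, hr0]
      have hW2r : (W : ℝ) ≤ C * x := by exact_mod_cast hW2
      -- upper bound for the short windows
      have hup : (W' : ℝ) ≤ x / L ^ c' := by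
        rw [le_div_iff₀ (by positivity)]
        have h1 : (C : ℝ) * (W' * L ^ c') ≤ C * x := by
          calc (C : ℝ) * (W' * L ^ c') = (C * L ^ c') * W' := by ring
            _ ≤ k * W' := mul_le_mul_of_nonneg_right hk1 hW'0
            _ ≤ C * x := hkW.trans hW2r
        exact le_of_mul_le_mul_left h1 (by linarith only [hC1'])
      -- lower bound
      have hlow : (x : ℝ) ^ (1 / 6 + δ) ≤ W' := by
        have h1 : (x : ℝ) ^ (1 / 6 + δ) ≤ (x : ℝ) ^ (2 / 3 : ℝ) :=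
          Real.rpow_le_rpow_of_exponent_le hx1' (by linarith only [hδ2])
        have h2 : (1 : ℝ) ≤ (x : ℝ) ^ (2 / 3 : ℝ) := Real.one_le_rpow hx1' (by norm_num)
        have h3 : (x : ℝ) = (x : ℝ) ^ (2 / 3 : ℝ) * (x : ℝ) ^ (1 / 3 : ℝ) := by
          rw [← Real.rpow_add hx0]
          norm_num
        have h4 : (x : ℝ) ≤ L ^ c' * W := by
          rw [div_lt_iff₀ (by positivity)] at hs
          linarith only [hs]
        have h5 : (W : ℝ) ≤ k * (W' + 1) := by linarith only [hWkr, hrkr]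
        have h6 : (x : ℝ) ≤ L ^ (2 * c' + 1) * (W' + 1) := by
          calc (x : ℝ) ≤ L ^ c' * W := h4
            _ ≤ L ^ c' * (k * (W' + 1)) := mul_le_mul_of_nonneg_left h5 (by positivity)
            _ ≤ L ^ c' * (L ^ (c' + 1) * (W' + 1)) := by
                refine mul_le_mul_of_nonneg_left ?_ (by positivity)
                exact mul_le_mul_of_nonneg_right hk2 (by positivity)
            _ = L ^ (2 * c' + 1) * (W' + 1) := by
                have : L ^ (2 * c' + 1) = L ^ c' * L ^ (c' + 1) := by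
                  rw [← pow_add]; congr 1; ring
                rw [this]; ring
        have h7 : (x : ℝ) ^ (2 / 3 : ℝ) * (2 * L ^ (2 * c' + 1)) ≤ L ^ (2 * c' + 1) * (W' + 1) := by
          refine le_trans ?_ h6
          calc (x : ℝ) ^ (2 / 3 : ℝ) * (2 * L ^ (2 * c' + 1)) ≤ (x : ℝ) ^ (2 / 3 : ℝ) * (x : ℝ) ^ (1 / 3 : ℝ) :=
                mul_le_mul_of_nonneg_left e1 (by positivity)
            _ = x := h3.symm
        have h8 : L ^ (2 * c' + 1) * (2 * (x : ℝ) ^ (2 / 3 : ℝ)) ≤ L ^ (2 * c' + 1) * (W' + 1) := by linarith only [h7]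
        have h9 := le_of_mul_le_mul_left h8 (by positivity)
        linarith only [h1, h2, h9]
      have hlong := wb_long k (hshort W' hlow hup) (wb_triv hFn hF0 r)
      rw [← hWk] at hlong
      refine wb_mono hlong ?_
      -- arithmetic
      have hkx : (k : ℝ) ≤ x := by
        refine hk2.trans ?_
        have h1 : L ^ (c' + 1) ≤ L ^ (4 * c' + B + 4) := pow_le_pow_right₀ hL1 (by omega)
        rw [Real.rpow_one] at e2
        have h2 : 0 ≤ L ^ (4 * c' + B + 4) := by positivity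
        linarith only [e2, h1, h2]
      have hD0 : 0 ≤ x * (W : ℝ) ^ 2 / L ^ (B + 2) := by positivity
      have hp1 : (k : ℝ) * (k * (x * (W' : ℝ) ^ 2 / L ^ (B + 2))) ≤ x * (W : ℝ) ^ 2 / L ^ (B + 2) := by
        have h1 : (k : ℝ) * (k * (x * (W' : ℝ) ^ 2 / L ^ (B + 2))) = x * (k * W' : ℝ) ^ 2 / L ^ (B + 2) := by ring
        rw [h1]
        refine div_le_div_of_nonneg_right ?_ (by positivity)
        refine mul_le_mul_of_nonneg_left ?_ hx0.le
        exact pow_le_pow_left₀ (by positivity) hkW 2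
      have hp2 : 2 * (((r : ℝ) + ((2 * x : ℕ) : ℝ)) * (r : ℝ) ^ 2) ≤ x * (W : ℝ) ^ 2 / L ^ (B + 2) := by
        have h1 : 2 * (((r : ℝ) + ((2 * x : ℕ) : ℝ)) * (r : ℝ) ^ 2) ≤ 2 * ((3 * x) * (k : ℝ) ^ 2) := by
          refine mul_le_mul_of_nonneg_left ?_ (by norm_num)
          refine mul_le_mul ?_ (pow_le_pow_left₀ hr0 hrkr 2) (by positivity) (by positivity)
          push_cast
          linarith only [hrkr, hkx]
        refine h1.trans ?_
        rw [le_div_iff₀ (by positivity)]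
        have h2 : (x : ℝ) ≤ L ^ c' * W := by
          rw [div_lt_iff₀ (by positivity)] at hs
          linarith only [hs]
        have h3 : 6 * (k : ℝ) ^ 2 * L ^ (B + 2) ≤ (W : ℝ) ^ 2 := by
          have h4 : (x : ℝ) ^ 2 ≤ (L ^ c') ^ 2 * (W : ℝ) ^ 2 := by
            rw [← mul_pow]
            exact pow_le_pow_left₀ hx0.le h2 2
          have h5 : 6 * L ^ (4 * c' + B + 4) ≤ (x : ℝ) ^ 2 := by
            rw [Real.rpow_one] at e2
            refine e2.trans ?_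
            nlinarith only [hx1']
          have h6 : 6 * (k : ℝ) ^ 2 * L ^ (B + 2) * (L ^ c') ^ 2 ≤ 6 * L ^ (4 * c' + B + 4) := by
            have h7 : (k : ℝ) ^ 2 ≤ (L ^ (c' + 1)) ^ 2 := pow_le_pow_left₀ hk0'.le hk2 2
            have h8 : 6 * L ^ (4 * c' + B + 4) = 6 * (L ^ (c' + 1)) ^ 2 * L ^ (B + 2) * (L ^ c') ^ 2 := by
              have h9 : L ^ (4 * c' + B + 4) = (L ^ (c' + 1)) ^ 2 * L ^ (B + 2) * (L ^ c') ^ 2 := by
                rw [← pow_mul, ← pow_mul, ← pow_add, ← pow_add]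
                congr 1
                ring
              rw [h9]
              ring
            rw [h8]
            refine mul_le_mul_of_nonneg_right ?_ (by positivity)
            refine mul_le_mul_of_nonneg_right ?_ (by positivity)
            exact mul_le_mul_of_nonneg_left h7 (by norm_num)
          have h9 : (L ^ c') ^ 2 * (6 * (k : ℝ) ^ 2 * L ^ (B + 2)) ≤ (L ^ c') ^ 2 * (W : ℝ) ^ 2 := by
            linarith only [h4, h5, h6]
          exact le_of_mul_le_mul_left h9 (by positivity)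
        calc 2 * ((3 * x) * (k : ℝ) ^ 2) * L ^ (B + 2) = x * (6 * (k : ℝ) ^ 2 * L ^ (B + 2)) := by ring
          _ ≤ x * (W : ℝ) ^ 2 := mul_le_mul_of_nonneg_left h3 hx0.le
      have hfin : x * (W : ℝ) ^ 2 / L ^ B = L ^ 2 * (x * (W : ℝ) ^ 2 / L ^ (B + 2)) := by
        have : L ^ (B + 2) = L ^ B * L ^ 2 := by rw [← pow_add]
        rw [this]
        field_simp
      rw [hfin]
      have hL2 : (3 : ℝ) ≤ L ^ 2 := by nlinarith only [hL3]
      nlinarith only [hp1, hp2, hD0, hL2]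
  intro W v hW1 hW2
  have h1 := wb_trans (hzero W hW1 hW2) (v : ℤ)
  have h2 : (fun n : ℤ => EZ A x 0 (n + v)) = EZ A x v := by
    funext n
    simp only [EZ, Nat.cast_zero, add_zero]
  rw [h2] at h1
  exact h1

end Pool.Agent.NLT
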