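import Pool.Agent.Lib.NLT.Geo

/-!
# Module NT: many multiples close to integers force a rational approximation; major arcs

PROOF of `nt_major`. (1) `S ⊆ [-B, B]` has at least `B / K ≥ 28 K` elements, so two of them differ by some
`1 ≤ q ≤ 5 K` (if all gaps were `≥ 5 K + 1`, then `(S.card - 1) (5 K + 1) ≤ 2 B`, but
`(B / K - 1) (5 K) ≥ (27 / 28) (B / K) (5 K) > 2 B`). Hence `nrm (q θ) ≤ 2 K / B` (`nrm_add_le`, `nrm_ng`). Let
`q θ = N + η`, `N = round (q θ)`, `|η| = nrm (q θ) ≤ 2 K / B`. If `η = 0` we are done. (2) Count `S`: every `g ∈ S` is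
`g = r + q k`, `0 ≤ r < q` (`r = g % q`, `k = g / q`), `|k| ≤ B / q + 1`, and
`nrm (θ g) = nrm (θ r + η k)` (`k N` is an integer). For fixed `r` let `m = round (θ r + η k)`; then
`|θ r + η k - m| ≤ K / B`. The numbers `θ r + η k` lie in an interval of length `≤ |η| (2 B / q + 2)`, so there are at
most `|η| (2 B / q + 2) + 2` values of `m`; for given `r, m` the `k` lie in an interval of length `2 K / (B |η|)`, so
there are at most `2 K / (B |η|) + 1` of them. Altogether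
`S.card ≤ q (|η| (2 B / q + 2) + 2) (2 K / (B |η|) + 1) ≤ (|η| (2 B + 2 q) + 2 q) (2 K / (B |η|) + 1)
 ≤ 15 K (2 K / (B |η|) + 1)` (`|η| (2 B + 10 K) ≤ 4 K + 20 K^2 / B ≤ 5 K`, `2 q ≤ 10 K`).
With `B / K ≤ S.card` and `15 K ≤ (15 / 28) B / K` this gives `(13 / 28) B / K ≤ 30 K^2 / (B |η|)`, i.e.
`|η| ≤ 65 K^3 / B^2`. (The constants are not important: `100` leaves room.)

-/

set_option autoImplicit false

open Finset

namespace Pool.Agent.NLT

open Pool.Agent.HLT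

namespace NTAux

private lemma nrm_eq_abs {x : ℝ} (h : |x| ≤ 1 / 2) : nrm x = |x| := by
  refine le_antisymm (nrm_le_abs x) ?_
  unfold nrm
  by_cases h0 : round x = 0
  · rw [h0, Int.cast_zero, sub_zero]
  · have h1 : (1 : ℝ) ≤ |(round x : ℝ)| := by
      have h2 : (1 : ℤ) ≤ |round x| := Int.one_le_abs h0
      exact_mod_cast h2
    have h3 : |(round x : ℝ)| - |x| ≤ |x - round x| := by
      rw [abs_sub_comm]
      exact abs_sub_abs_le_abs_sub _ _
    linarith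

private lemma nrm_sub_le (θ : ℝ) (c : ℝ) (g g' : ℤ) (h : nrm ((g : ℝ) * θ) ≤ c)
    (h' : nrm ((g' : ℝ) * θ) ≤ c) : nrm (((g - g' : ℤ) : ℝ) * θ) ≤ 2 * c := by
  have e : ((g - g' : ℤ) : ℝ) * θ = (g : ℝ) * θ + -((g' : ℝ) * θ) := by
    push_cast
    ring
  rw [e]
  refine (nrm_add_le _ _).trans ?_
  rw [nrm_ng]
  linarith

private lemma div_mem {B : ℕ} {g W : ℤ} (hW : 0 < W) (hg : |g| ≤ B) :
    (g + B) / W ∈ Finset.Icc (0 : ℤ) ((2 * B) / W) := by
  rw [abs_le] at hg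
  rw [Finset.mem_Icc]
  exact ⟨Int.ediv_nonneg (by linarith) hW.le, Int.ediv_le_ediv hW (by linarith)⟩

private lemma card_Icc_le {B : ℕ} {W : ℤ} (hW : 0 < W) :
    ((Finset.Icc (0 : ℤ) ((2 * B) / W)).card : ℝ) ≤ 2 * B / W + 1 := by
  rw [Int.card_Icc]
  have h0 : (0 : ℤ) ≤ (2 * B) / W := Int.ediv_nonneg (by positivity) hW.le
  have h1 : (((2 * (B : ℤ)) / W + 1 - 0).toNat : ℤ) = (2 * B) / W + 1 := by
    rw [Int.toNat_of_nonneg (by linarith)]
    ring
  have h2 : ((((2 * (B : ℤ)) / W + 1 - 0).toNat : ℕ) : ℝ) = (((2 * (B : ℤ)) / W : ℤ) : ℝ) + 1 := by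
    exact_mod_cast h1
  rw [h2]
  have hWr : (0 : ℝ) < (W : ℝ) := by exact_mod_cast hW
  have h3 : (((2 * (B : ℤ)) / W : ℤ) : ℝ) ≤ 2 * B / W := by
    rw [le_div_iff₀ hWr]
    have := Int.ediv_mul_le (2 * (B : ℤ)) hW.ne'
    exact_mod_cast this
  linarith

private lemma same_block {g g' W : ℤ} {B : ℕ} (hW : 0 < W) (h : (g + B) / W = (g' + B) / W) :
    |g - g'| < W := by
  have h1 := Int.emod_add_mul_ediv (g + B) W
  have h2 := Int.emod_add_mul_ediv (g' + B) W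
  have h3 := Int.emod_nonneg (g + B) hW.ne'
  have h4 := Int.emod_lt_of_pos (g + B) hW
  have h5 := Int.emod_nonneg (g' + B) hW.ne'
  have h6 := Int.emod_lt_of_pos (g' + B) hW
  rw [h] at h1
  rw [abs_lt]
  constructor <;> linarith

end NTAux

open NTAux in
theorem nt_major (θ : ℝ) (B K : ℕ) (hK : 1 ≤ K) (hB : 28 * K ^ 2 ≤ B) (S : Finset ℤ)
    (hS : ∀ g ∈ S, |g| ≤ B ∧ nrm ((g : ℝ) * θ) ≤ (K : ℝ) / B) (hc : (B : ℝ) / K ≤ S.card) :
    ∃ q : ℕ, 1 ≤ q ∧ q ≤ 5 * K ∧ nrm ((q : ℝ) * θ) ≤ 100 * (K : ℝ) ^ 3 / (B : ℝ) ^ 2 := by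
  have hKr : (1 : ℝ) ≤ K := by exact_mod_cast hK
  have hK0 : (0 : ℝ) < K := by linarith
  have hBr : 28 * (K : ℝ) ^ 2 ≤ B := by exact_mod_cast hB
  have hB0 : (0 : ℝ) < B := by nlinarith
  -- the real number `x = B / K`
  obtain ⟨x, hx⟩ : ∃ x : ℝ, x = (B : ℝ) / K := ⟨_, rfl⟩
  have hBx : (B : ℝ) = x * K := by rw [hx]; field_simp
  have hxK : 28 * (K : ℝ) ≤ x := by
    rw [hx, le_div_iff₀ hK0]
    nlinarith
  have hx0 : 0 < x := by linarith
  rw [← hx] at hc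
  -- step 1
  obtain ⟨g1, hg1, g2, hg2, hne, hblk⟩ : ∃ g1 ∈ S, ∃ g2 ∈ S, g1 ≠ g2 ∧
      (g1 + B) / ((5 * K : ℕ) : ℤ) = (g2 + B) / ((5 * K : ℕ) : ℤ) := by
    have hW : (0 : ℤ) < ((5 * K : ℕ) : ℤ) := by
      have : 0 < 5 * K := by omega
      exact_mod_cast this
    refine Finset.exists_ne_map_eq_of_card_lt_of_maps_to
      (t := Finset.Icc (0 : ℤ) ((2 * B) / ((5 * K : ℕ) : ℤ))) ?_ (fun g hg => div_mem hW (hS g hg).1)
    have h1 := card_Icc_le (B := B) hW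
    have h2 : 2 * (B : ℝ) / (((5 * K : ℕ) : ℤ) : ℝ) + 1 < x := by
      have e : 2 * (B : ℝ) / (((5 * K : ℕ) : ℤ) : ℝ) = 2 / 5 * x := by
        rw [hBx]
        push_cast
        field_simp
      rw [e]
      linarith
    have h3 : ((Finset.Icc (0 : ℤ) ((2 * B) / ((5 * K : ℕ) : ℤ))).card : ℝ) < S.card := by linarith
    exact_mod_cast h3
  have hq5 : |g1 - g2| < ((5 * K : ℕ) : ℤ) := same_block (by
    have : 0 < 5 * K := by omega
    exact_mod_cast this) hblk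
  obtain ⟨q, hq⟩ : ∃ q : ℕ, (q : ℤ) = |g1 - g2| := ⟨(g1 - g2).natAbs, by rw [Int.abs_eq_natAbs]⟩
  have hq1 : 1 ≤ q := by
    have h : (0 : ℤ) < q := by rw [hq]; exact abs_pos.2 (sub_ne_zero.2 hne)
    exact_mod_cast h
  have hqK : q < 5 * K := by
    have h : (q : ℤ) < ((5 * K : ℕ) : ℤ) := by rw [hq]; exact hq5
    exact_mod_cast h
  have hqθ : nrm ((q : ℝ) * θ) ≤ 2 * ((K : ℝ) / B) := by
    have h1 := nrm_sub_le θ _ g1 g2 (hS g1 hg1).2 (hS g2 hg2).2
    rcases abs_choice (g1 - g2) with h | h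
    · rw [h] at hq
      have e : ((g1 - g2 : ℤ) : ℝ) = (q : ℝ) := by rw [← hq]; push_cast; rfl
      rwa [e] at h1
    · rw [h] at hq
      have e : ((g1 - g2 : ℤ) : ℝ) = -(q : ℝ) := by
        have : g1 - g2 = -(q : ℤ) := by linarith
        rw [this]
        push_cast
        rfl
      rw [e, neg_mul, nrm_ng] at h1
      exact h1
  refine ⟨q, hq1, hqK.le, ?_⟩
  have hqr1 : (1 : ℝ) ≤ q := by exact_mod_cast hq1
  have hqrK : (q : ℝ) ≤ 5 * K := by exact_mod_cast hqK.le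
  -- step 2
  obtain ⟨w, hw⟩ : ∃ w : ℕ, w = B / (4 * K) := ⟨_, rfl⟩
  have hwle : (w : ℝ) * (4 * K) ≤ B := by
    have h := Nat.div_mul_le_self B (4 * K)
    rw [← hw] at h
    exact_mod_cast h
  have hwlow : (B : ℝ) < (w + 1) * (4 * K) := by
    have h := Nat.lt_mul_div_succ B (show 0 < 4 * K by omega)
    rw [← hw] at h
    have h' : (B : ℝ) < (4 * K : ℝ) * (w + 1) := by exact_mod_cast h
    linarith
  have hBK : 28 * (K : ℝ) ≤ B := by nlinarith
  have hw3 : 3 * (B : ℝ) ≤ 14 * K * w := by nlinarith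
  have hw0 : (0 : ℝ) < w := by
    by_contra h
    push Not at h
    nlinarith
  have hwN : 0 < w := by exact_mod_cast hw0
  obtain ⟨n, hn⟩ : ∃ n : ℕ, n = ⌈x / (50 * K)⌉₊ := ⟨_, rfl⟩
  have hn1 : x / (50 * K) ≤ n := by rw [hn]; exact Nat.le_ceil _
  have hn2 : (n : ℝ) < x / (50 * K) + 1 := by rw [hn]; exact Nat.ceil_lt_add_one (by positivity)
  have hW : (0 : ℤ) < ((q * w : ℕ) : ℤ) := by exact_mod_cast Nat.mul_pos hq1 hwN
  have hqz : (0 : ℤ) < (q : ℤ) := by exact_mod_cast hq1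
  obtain ⟨y, -, hy⟩ : ∃ y ∈ (Finset.Icc (0 : ℤ) ((2 * B) / ((q * w : ℕ) : ℤ))) ×ˢ
      (Finset.Ico (0 : ℤ) q), n < (S.filter (fun g : ℤ => ((g + B) / ((q * w : ℕ) : ℤ), g % q) = y)).card := by
    refine Finset.exists_lt_card_fiber_of_mul_lt_card_of_maps_to ?_ ?_
    · intro g hg
      rw [Finset.mem_product]
      exact ⟨div_mem hW (hS g hg).1, Finset.mem_Ico.2 ⟨Int.emod_nonneg _ hqz.ne', Int.emod_lt_of_pos _ hqz⟩⟩
    · rw [Finset.card_product, Int.card_Ico, sub_zero, Int.toNat_natCast]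
      have h1 := card_Icc_le (B := B) hW
      have e : 2 * (B : ℝ) / (((q * w : ℕ) : ℤ) : ℝ) * q = 2 * B / w := by
        push_cast
        field_simp
      have h2 : 2 * (B : ℝ) / w ≤ 28 / 3 * K := by
        rw [div_le_iff₀ hw0]
        linarith
      have h3 : (((Finset.Icc (0 : ℤ) ((2 * B) / ((q * w : ℕ) : ℤ))).card : ℝ)) * q ≤ 43 / 3 * K := by
        calc _ ≤ (2 * (B : ℝ) / (((q * w : ℕ) : ℤ) : ℝ) + 1) * q := mul_le_mul_of_nonneg_right h1 (by positivity)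
          _ = 2 * B / w + q := by rw [add_mul, e, one_mul]
          _ ≤ 43 / 3 * K := by linarith
      have h4 : (((Finset.Icc (0 : ℤ) ((2 * B) / ((q * w : ℕ) : ℤ))).card : ℝ)) * q * n < x := by
        calc _ ≤ 43 / 3 * (K : ℝ) * n := mul_le_mul_of_nonneg_right h3 (by positivity)
          _ ≤ 43 / 3 * (K : ℝ) * (x / (50 * K) + 1) := mul_le_mul_of_nonneg_left hn2.le (by positivity)
          _ = 43 / 150 * x + 43 / 3 * K := by field_simp; ring
          _ < x := by linarith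
      have h5 : (((Finset.Icc (0 : ℤ) ((2 * B) / ((q * w : ℕ) : ℤ))).card : ℝ)) * q * n < S.card := by linarith
      exact_mod_cast h5
  set T := S.filter (fun g : ℤ => ((g + B) / ((q * w : ℕ) : ℤ), g % q) = y) with hT
  -- two elements of `T` far apart
  obtain ⟨a, ha, b, hb, hab⟩ : ∃ a ∈ T, ∃ b ∈ T, (n : ℤ) ≤ a / q - b / q := by
    have hinj : Set.InjOn (fun g : ℤ => g / q) T := by
      intro g hg g' hg' h
      have h1 : g % q = g' % q := by
        have e1 := (Finset.mem_filter.1 (Finset.mem_coe.1 hg)).2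
        have e2 := (Finset.mem_filter.1 (Finset.mem_coe.1 hg')).2
        rw [← e2] at e1
        exact (Prod.ext_iff.1 e1).2
      have h2 := Int.emod_add_mul_ediv g q
      have h3 := Int.emod_add_mul_ediv g' q
      simp only at h
      rw [h, h1] at h2
      linarith
    have hcard : n < (T.image (fun g : ℤ => g / q)).card := by
      rw [Finset.card_image_of_injOn hinj]
      exact hy
    have hne' : (T.image (fun g : ℤ => g / q)).Nonempty := Finset.card_pos.1 (by omega)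
    obtain ⟨a, ha, hamax⟩ := Finset.mem_image.1 (Finset.max'_mem _ hne')
    obtain ⟨b, hb, hbmin⟩ := Finset.mem_image.1 (Finset.min'_mem _ hne')
    refine ⟨a, ha, b, hb, ?_⟩
    rw [show a / (q : ℤ) = _ from hamax, show b / (q : ℤ) = _ from hbmin]
    have hsub : T.image (fun g : ℤ => g / q) ⊆
        Finset.Icc ((T.image (fun g : ℤ => g / q)).min' hne') ((T.image (fun g : ℤ => g / q)).max' hne') :=
      fun z hz => Finset.mem_Icc.2 ⟨Finset.min'_le _ _ hz, Finset.le_max' _ _ hz⟩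
    have h1 := Finset.card_le_card hsub
    rw [Int.card_Icc] at h1
    omega
  obtain ⟨haS, hay⟩ := Finset.mem_filter.1 ha
  obtain ⟨hbS, hby⟩ := Finset.mem_filter.1 hb
  rw [← hby] at hay
  have hblock := same_block hW (Prod.ext_iff.1 hay).1
  have hres : a % q = b % q := (Prod.ext_iff.1 hay).2
  obtain ⟨k, hk⟩ : ∃ k : ℤ, k = a / q - b / q := ⟨_, rfl⟩
  have hdiff : a - b = q * k := by
    have h2 := Int.emod_add_mul_ediv a q
    have h3 := Int.emod_add_mul_ediv b q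
    rw [hk]
    rw [hres] at h2
    linarith
  have hkn : (n : ℤ) ≤ k := by rw [hk]; exact hab
  have hk0 : 0 ≤ k := le_trans (by positivity) hkn
  have hkw : k < w := by
    have h1 := (abs_lt.1 hblock).2
    rw [hdiff] at h1
    push_cast at h1
    exact lt_of_mul_lt_mul_left h1 hqz.le
  have hkr : (0 : ℝ) ≤ k := by exact_mod_cast hk0
  have hkwr : (k : ℝ) ≤ w := by exact_mod_cast hkw.le
  have hknr : (n : ℝ) ≤ k := by exact_mod_cast hkn
  -- the small number `η`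
  obtain ⟨η, hη⟩ : ∃ η : ℝ, η = (q : ℝ) * θ - round ((q : ℝ) * θ) := ⟨_, rfl⟩
  have hηn : nrm ((q : ℝ) * θ) = |η| := by rw [hη]; rfl
  have hη2 : |η| ≤ 2 * ((K : ℝ) / B) := by rw [← hηn]; exact hqθ
  have h1 := nrm_sub_le θ _ a b (hS a haS).2 (hS b hbS).2
  have e1 : ((a - b : ℤ) : ℝ) * θ = (k : ℝ) * η + ((k * round ((q : ℝ) * θ) : ℤ) : ℝ) := by
    rw [hdiff, hη]
    push_cast
    ring
  rw [e1, nrm_add_int] at h1
  have h2 : |(k : ℝ) * η| ≤ 1 / 2 := by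
    rw [abs_mul, abs_of_nonneg hkr]
    calc (k : ℝ) * |η| ≤ w * (2 * ((K : ℝ) / B)) := mul_le_mul hkwr hη2 (abs_nonneg _) (by positivity)
      _ = (w * (4 * K)) / B / 2 := by field_simp; ring
      _ ≤ B / B / 2 := by gcongr
      _ = 1 / 2 := by rw [div_self hB0.ne']
  rw [nrm_eq_abs h2, abs_mul, abs_of_nonneg hkr] at h1
  have h3 : (x / (50 * K)) * |η| ≤ 2 * ((K : ℝ) / B) :=
    (mul_le_mul_of_nonneg_right (hn1.trans hknr) (abs_nonneg _)).trans h1
  rw [hηn, le_div_iff₀ (by positivity)]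
  rw [hBx] at h3 ⊢
  have h4 : x / (50 * K) * |η| * (50 * K * (x * K ^ 2)) ≤ 2 * ((K : ℝ) / (x * K)) * (50 * K * (x * K ^ 2)) :=
    mul_le_mul_of_nonneg_right h3 (by positivity)
  have e2 : x / (50 * K) * |η| * (50 * K * (x * K ^ 2)) = |η| * (x * K) ^ 2 := by field_simp
  have e3 : 2 * ((K : ℝ) / (x * K)) * (50 * K * (x * K ^ 2)) = 100 * (K : ℝ) ^ 3 := by field_simp; ring
  rw [e2, e3] at h4
  exact h4

end Pool.Agent.NLT
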