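import Pool.Agent.Lib.NLT.WDefs

/-!
# Module ApWin: window bounds for sums over progressions

PROOF. `m = n + q j`, `j < J`, are exactly the `m ∈ (n - 1, n - 1 + q J]` with `m ≡ n` mod `q`. So
`∑ j, E (n + q j) ex ((n + q j) α) = (1 / q) ∑_{b < q} ex (-n b / q) ∑_{m ∈ (n - 1, n - 1 + q J]} E m ex (m (α + b / q))`
(`∑_{b < q} ex ((m - n) b / q) = q` or `0`; geometric sum). Cauchy-Schwarz over `b`:
`‖..‖^2 ≤ (1 / q) ∑ b ‖∑_{m ∈ Ioc (n - 1) (n - 1 + q J)} E m ex (m (α + b / q))‖^2`; sum over `n ∈ U` (the points `n - 1` form a finite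
set) and use `WB E (q J) D` for each `b`.
-/

set_option autoImplicit false

open Finset Filter

namespace Pool.Agent.NLT

open Pool.Agent.HLT

namespace ApWinAux

lemma ex_eq_one_iff {N : ℕ} (hN : 0 < N) (k : ℤ) : ex (k / N) = 1 ↔ (N : ℤ) ∣ k := by
  unfold ex
  rw [Complex.exp_eq_one_iff]
  have hN' : (N : ℂ) ≠ 0 := by exact_mod_cast hN.ne'
  have hpi : (2 * (Real.pi : ℂ) * Complex.I) ≠ 0 := Complex.two_pi_I_ne_zero
  constructor
  · rintro ⟨m, hm⟩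
    refine ⟨m, ?_⟩
    have h1 : ((k : ℂ) / N) * (2 * (Real.pi : ℂ) * Complex.I) = m * (2 * (Real.pi : ℂ) * Complex.I) := by
      rw [← hm]
      push_cast
      ring
    have h2 := mul_right_cancel₀ hpi h1
    rw [div_eq_iff hN'] at h2
    have h3 : ((k : ℤ) : ℂ) = ((N * m : ℤ) : ℂ) := by
      rw [h2]
      push_cast
      ring
    exact_mod_cast h3
  · rintro ⟨m, rfl⟩
    refine ⟨m, ?_⟩
    push_cast
    field_simp

lemma sum_ex {N : ℕ} (hN : 0 < N) (k : ℤ) :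
    ∑ ξ ∈ range N, ex (k * (ξ / N)) = if (N : ℤ) ∣ k then (N : ℂ) else 0 := by
  have h1 : ∀ ξ : ℕ, ex (k * (ξ / N)) = ex (k / N) ^ ξ := by
    intro ξ
    rw [← ex_nat_mul]
    congr 1
    ring
  simp_rw [h1]
  split_ifs with h
  · rw [(ex_eq_one_iff hN k).2 h]
    simp
  · have hne : ex (k / N) ≠ 1 := fun h' => h ((ex_eq_one_iff hN k).1 h')
    rw [geom_sum_eq hne]
    have h2 : ex (k / N) ^ N = 1 := by
      rw [← ex_nat_mul]
      have h3 : ((N : ℝ) * ((k : ℝ) / N)) = ((k : ℤ) : ℝ) := by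
        have : (N : ℝ) ≠ 0 := by exact_mod_cast hN.ne'
        field_simp
      rw [h3]
      exact ex_int k
    rw [h2, sub_self, zero_div]

/-- The points of the progression in the window. -/
lemma sum_window (F : ℤ → ℂ) (q J : ℕ) (hq : 1 ≤ q) (n : ℤ) :
    ∑ m ∈ Ioc (n - 1) (n - 1 + ((q * J : ℕ) : ℤ)), (if (q : ℤ) ∣ m - n then F m else 0) =
      ∑ j ∈ range J, F (n + q * j) := by
  have hq0 : (0 : ℤ) < q := by exact_mod_cast hq
  rw [← Finset.sum_filter]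
  symm
  refine Finset.sum_bij (fun j _ => n + q * j) ?_ ?_ ?_ ?_
  · intro j hj
    rw [mem_range] at hj
    rw [mem_filter, mem_Ioc]
    refine ⟨⟨?_, ?_⟩, ⟨j, by ring⟩⟩
    · have : (0 : ℤ) ≤ q * j := by positivity
      omega
    · have h1 : (q : ℤ) * (j + 1) ≤ q * J := mul_le_mul_of_nonneg_left (by exact_mod_cast hj) hq0.le
      push_cast
      linarith
  · intro i _ j _ hij
    have h1 : (q : ℤ) * i = q * j := by linarith
    have h2 := mul_left_cancel₀ hq0.ne' h1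
    exact_mod_cast h2
  · intro m hm
    rw [mem_filter, mem_Ioc] at hm
    obtain ⟨⟨h1, h2⟩, c, hc⟩ := hm
    have hc0 : 0 ≤ c := by
      by_contra h
      have : (q : ℤ) * c ≤ q * (-1) := mul_le_mul_of_nonneg_left (by omega) hq0.le
      linarith
    have hcJ : c < J := by
      by_contra h
      have : (q : ℤ) * J ≤ q * c := mul_le_mul_of_nonneg_left (by omega) hq0.le
      push_cast at h2
      linarith
    refine ⟨c.toNat, ?_, ?_⟩
    · rw [mem_range]; omega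
    · have : ((c.toNat : ℕ) : ℤ) = c := Int.toNat_of_nonneg hc0
      rw [this]; linarith
  · intro j _
    rfl

/-- Detecting the progression by additive characters. -/
lemma detect (F : ℤ → ℂ) (q J : ℕ) (hq : 1 ≤ q) (n : ℤ) (α : ℝ) :
    ∑ b ∈ range q, ex (-(n * (b / q))) * ∑ m ∈ Ioc (n - 1) (n - 1 + ((q * J : ℕ) : ℤ)),
        F m * ex ((m : ℝ) * (α + b / q)) =
      q * ∑ j ∈ range J, F (n + q * j) * ex (((n + q * j : ℤ) : ℝ) * α) := by
  have h1 := sum_window (fun m => F m * ex ((m : ℝ) * α)) q J hq n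
  rw [← h1, Finset.mul_sum]
  simp only [Finset.mul_sum]
  rw [Finset.sum_comm]
  refine Finset.sum_congr rfl fun m _ => ?_
  have h2 : ∀ b ∈ range q, ex (-(n * (b / q))) * (F m * ex ((m : ℝ) * (α + b / q))) =
      F m * ex ((m : ℝ) * α) * ex (((m - n : ℤ) : ℝ) * (b / q)) := by
    intro b _
    have e1 : ex ((m : ℝ) * (α + b / q)) = ex ((m : ℝ) * α) * ex ((m : ℝ) * (b / q)) := by
      rw [← ex_add]; congr 1; ring
    have e2 : ex (((m - n : ℤ) : ℝ) * (b / q)) = ex (-(n * (b / q))) * ex ((m : ℝ) * (b / q)) := by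
      rw [← ex_add]; congr 1; push_cast; ring
    rw [e1, e2]; ring
  rw [Finset.sum_congr rfl h2, ← Finset.mul_sum, sum_ex (by omega : 0 < q)]
  split_ifs with h
  · ring
  · simp

end ApWinAux

open ApWinAux

theorem ap_win (E : ℤ → ℂ) (q J : ℕ) (hq : 1 ≤ q) (D : ℝ) (hW : WB E (q * J) D) (α : ℝ) (U : Finset ℤ) :
    ∑ n ∈ U, ‖∑ j ∈ range J, E (n + q * j) * ex (((n + q * j : ℤ) : ℝ) * α)‖ ^ 2 ≤ D := by
  classical
  have hq0 : (0 : ℝ) < q := by exact_mod_cast hq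
  set S : ℕ → ℤ → ℂ := fun b n => ∑ m ∈ Ioc (n - 1) (n - 1 + ((q * J : ℕ) : ℤ)),
    E m * ex ((m : ℝ) * (α + b / q)) with hS
  have h1 : ∀ n : ℤ, (q : ℝ) ^ 2 * ‖∑ j ∈ range J, E (n + q * j) * ex (((n + q * j : ℤ) : ℝ) * α)‖ ^ 2 ≤
      q * ∑ b ∈ range q, ‖S b n‖ ^ 2 := by
    intro n
    have h2 := detect E q J hq n α
    have h3 : (q : ℝ) * ‖∑ j ∈ range J, E (n + q * j) * ex (((n + q * j : ℤ) : ℝ) * α)‖ ≤
        ∑ b ∈ range q, ‖S b n‖ := by
      have h4 : (q : ℝ) * ‖∑ j ∈ range J, E (n + q * j) * ex (((n + q * j : ℤ) : ℝ) * α)‖ =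
          ‖(q : ℂ) * ∑ j ∈ range J, E (n + q * j) * ex (((n + q * j : ℤ) : ℝ) * α)‖ := by
        rw [norm_mul, Complex.norm_natCast]
      rw [h4, ← h2]
      refine (norm_sum_le _ _).trans (Finset.sum_le_sum fun b _ => ?_)
      rw [norm_mul, norm_ex, one_mul]
    have h5 : (∑ b ∈ range q, ‖S b n‖) ^ 2 ≤ q * ∑ b ∈ range q, ‖S b n‖ ^ 2 := by
      have := sq_sum_le_card_mul_sum_sq (s := range q) (f := fun b => ‖S b n‖)
      rwa [card_range] at this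
    calc (q : ℝ) ^ 2 * ‖∑ j ∈ range J, E (n + q * j) * ex (((n + q * j : ℤ) : ℝ) * α)‖ ^ 2
        = ((q : ℝ) * ‖∑ j ∈ range J, E (n + q * j) * ex (((n + q * j : ℤ) : ℝ) * α)‖) ^ 2 := by
          rw [mul_pow]
      _ ≤ (∑ b ∈ range q, ‖S b n‖) ^ 2 := pow_le_pow_left₀ (by positivity) h3 2
      _ ≤ _ := h5
  have h6 : ∀ b ∈ range q, ∑ n ∈ U, ‖S b n‖ ^ 2 ≤ D := by
    intro b _
    have h7 := hW (α + b / q) (U.image (fun n => n - 1))
    rw [Finset.sum_image (by intro x _ y _ hxy; simpa using hxy)] at h7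
    exact h7
  have h8 : (q : ℝ) ^ 2 * ∑ n ∈ U, ‖∑ j ∈ range J, E (n + q * j) * ex (((n + q * j : ℤ) : ℝ) * α)‖ ^ 2 ≤
      (q : ℝ) ^ 2 * D := by
    calc (q : ℝ) ^ 2 * ∑ n ∈ U, ‖∑ j ∈ range J, E (n + q * j) * ex (((n + q * j : ℤ) : ℝ) * α)‖ ^ 2
        = ∑ n ∈ U, (q : ℝ) ^ 2 * ‖∑ j ∈ range J, E (n + q * j) * ex (((n + q * j : ℤ) : ℝ) * α)‖ ^ 2 := by
          rw [Finset.mul_sum]
      _ ≤ ∑ n ∈ U, q * ∑ b ∈ range q, ‖S b n‖ ^ 2 := Finset.sum_le_sum fun n _ => h1 n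
      _ = q * ∑ b ∈ range q, ∑ n ∈ U, ‖S b n‖ ^ 2 := by
          rw [← Finset.mul_sum, Finset.sum_comm]
      _ ≤ q * ∑ _b ∈ range q, D :=
          mul_le_mul_of_nonneg_left (Finset.sum_le_sum h6) hq0.le
      _ = (q : ℝ) ^ 2 * D := by
          rw [Finset.sum_const, card_range, nsmul_eq_mul]; ring
  exact le_of_mul_le_mul_left h8 (by positivity)

end Pool.Agent.NLT
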