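import Pool.Agent.Lib.NLT.BasicB

/-!
# Module BasicC: the quantities `Q2`, `QQ`, `RR`, `BX`, `U2`, `U3`, `U4`

PROOFS.
* `Q2_eq`: for fixed `ξ` the function `x ↦ tv A (fun i => g (x + v i))` has the Fourier coefficient
  `ft g ξ * tv A (fun i => chi ξ (v i))`; Parseval.
* `Q2_dvc`: expand the square (`norm_tv_sq`), shift `x` by `- v i`; `dvc_eq_tv`. (The pair `(i, j)` with first factor
  `g (x + v i)` and conjugated factor `g (x + v j)` gives `Dl (v (j - i)) g`.)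
* `Q2_shift`: shift the variable of the average. `Q2_conj`: norms do not change.
* `U2_eq`: `U2 g = ∑ ‖ft g ξ‖^4`, and `u ↦ av (Dl u g)` has by `av_Dl` the Fourier coefficients `‖ft g ξ‖^2`
  (up to the sign of the frequency); `parseval_series`.
* `U2_eq_av`: `U2_eq`, then `norm_av_sq` for `Dl u g`, `Dl_comm`.
* `avr_ft_Dl_le`: `avr_u ‖ft (Dl u g) ξ‖^2 = ∑ η, ‖ft g η‖^2 ‖ft g (η - ξ)‖^2` (the function `u ↦ ft (Dl u g) ξ` is
  `∑ η, conj (ft g η) * ft g (η + ξ) * chi (-η) u`; `parseval_series`) and `2 a b ≤ a^2 + b^2`.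
* `exists_U2_le`: take a maximal `‖ft g ξ‖`; `∑ ‖ft g ξ‖^4 ≤ max ‖ft g ξ‖^2 * ∑ ‖ft g ξ‖^2 ≤ max ‖ft g ξ‖^2`.
-/

set_option autoImplicit false

open Finset

namespace Pool.Agent.NLT

open Pool.Agent.HLT

variable {M : ℕ} [NeZero M]

namespace BasicCAux

lemma tv_finsum (H : ℕ) {ι : Type} (s : Finset ι) (F : ι → ℕ → ℂ) :
    tv H (fun t => ∑ i ∈ s, F i t) = ∑ i ∈ s, tv H (F i) := by
  unfold tv
  rw [Finset.sum_comm, Finset.sum_div]

lemma tv_conj (H : ℕ) (F : ℕ → ℂ) :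
    tv H (fun t => (starRingEnd ℂ) (F t)) = (starRingEnd ℂ) (tv H F) := by
  unfold tv
  rw [map_div₀, map_sum, Complex.conj_natCast]

lemma sum_neg_eq {α : Type} [AddCommMonoid α] (F : ZMod M → α) : ∑ ξ, F (-ξ) = ∑ ξ, F ξ :=
  Equiv.sum_comp (Equiv.neg (ZMod M)) F

lemma sum_add_eq {α : Type} [AddCommMonoid α] (F : ZMod M → α) (h : ZMod M) :
    ∑ ξ, F (ξ + h) = ∑ ξ, F ξ :=
  Equiv.sum_comp (Equiv.addRight h) F

lemma norm_cast_sq (r : ℝ) : ‖((r ^ 2 : ℝ) : ℂ)‖ ^ 2 = r ^ 4 := by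
  rw [Complex.norm_real, Real.norm_eq_abs, abs_of_nonneg (by positivity)]
  ring

lemma ft_Dl (g : ZMod M → ℂ) (u ξ : ZMod M) :
    ft (Dl u g) ξ = ∑ η, ((starRingEnd ℂ) (ft g (-η)) * ft g (-η + ξ)) * chi η u := by
  have h1 : ft (Dl u g) ξ = ∑ η, ((starRingEnd ℂ) (ft g η) * ft g (η + ξ)) * chi (-η) u := by
    have h2 : ∀ x : ZMod M, Dl u g x * chi (-ξ) x =
        ∑ η, ((starRingEnd ℂ) (ft g η) * chi (-η) u) * (g x * chi (-(η + ξ)) x) := by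
      intro x
      have h3 : (starRingEnd ℂ) (g (x + u)) = ∑ η, (starRingEnd ℂ) (ft g η) * (chi (-η) x * chi (-η) u) := by
        conv_lhs => rw [inversion g (x + u)]
        rw [map_sum]
        refine Finset.sum_congr rfl (fun η _ => ?_)
        rw [map_mul, ← chi_neg_left, chi_add_right]
      unfold Dl
      rw [h3, Finset.mul_sum, Finset.sum_mul]
      refine Finset.sum_congr rfl (fun η _ => ?_)
      have h4 : chi (-(η + ξ)) x = chi (-η) x * chi (-ξ) x := by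
        rw [neg_add, chi_add_left]
      rw [h4]
      ring
    unfold ft
    rw [show (fun x => Dl u g x * chi (-ξ) x) = (fun x => ∑ η, ((starRingEnd ℂ) (ft g η) * chi (-η) u) *
      (g x * chi (-(η + ξ)) x)) from funext h2]
    rw [av_sum]
    refine Finset.sum_congr rfl (fun η _ => ?_)
    rw [av_mul_left]
    unfold ft
    ring
  rw [h1, ← sum_neg_eq]
  refine Finset.sum_congr rfl (fun η _ => ?_)
  rw [neg_neg]

end BasicCAux

open BasicCAux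

lemma Q2_eq (A : ℕ) (g : ZMod M → ℂ) (v : ZMod M) :
    Q2 A g v = ∑ ξ, ‖ft g ξ‖ ^ 2 * ‖tv A (fun i => chi ξ (v * (i : ZMod M)))‖ ^ 2 := by
  have h : ∀ x : ZMod M, tv A (fun i => g (x + v * (i : ZMod M))) =
      ∑ ξ, (ft g ξ * tv A (fun i => chi ξ (v * (i : ZMod M)))) * chi ξ x := by
    intro x
    have h1 : (fun i : ℕ => g (x + v * (i : ZMod M))) =
        fun i : ℕ => ∑ ξ, (ft g ξ * chi ξ x) * chi ξ (v * (i : ZMod M)) := by
      funext i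
      rw [inversion g (x + v * (i : ZMod M))]
      refine Finset.sum_congr rfl (fun ξ _ => ?_)
      rw [chi_add_right]
      ring
    rw [h1, tv_finsum]
    refine Finset.sum_congr rfl (fun ξ _ => ?_)
    rw [tv_mul_left]
    ring
  unfold Q2
  simp_rw [h]
  rw [parseval_series]
  refine Finset.sum_congr rfl (fun ξ _ => ?_)
  rw [norm_mul, mul_pow]

lemma Q2_dvc (A : ℕ) (g : ZMod M → ℂ) (v : ZMod M) :
    ((Q2 A g v : ℝ) : ℂ) = dvc A (fun k => av (Dl (v * (k : ZMod M)) g)) := by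
  have h0 : ((Q2 A g v : ℝ) : ℂ) = av (fun x => tv A (fun s => tv A (fun t =>
      g (x + v * (s : ZMod M)) * (starRingEnd ℂ) (g (x + v * (t : ZMod M)))))) := by
    unfold Q2
    rw [← av_ofReal]
    congr 1
    funext x
    exact norm_tv_sq A (fun i => g (x + v * (i : ZMod M)))
  rw [h0, dvc_eq_tv, ← tv_av_comm A (fun s x => tv A (fun t =>
      g (x + v * (s : ZMod M)) * (starRingEnd ℂ) (g (x + v * (t : ZMod M)))))]
  congr 1
  funext s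
  rw [← tv_av_comm A (fun t x =>
      g (x + v * (s : ZMod M)) * (starRingEnd ℂ) (g (x + v * (t : ZMod M))))]
  congr 1
  funext t
  rw [← av_shift (Dl (v * (((t : ℤ) - (s : ℤ) : ℤ) : ZMod M)) g) (v * (s : ZMod M))]
  congr 1
  funext x
  unfold Dl
  have h1 : x + v * (s : ZMod M) + v * (((t : ℤ) - (s : ℤ) : ℤ) : ZMod M) = x + v * (t : ZMod M) := by
    push_cast
    ring
  rw [h1]

lemma Q2_nonneg (A : ℕ) (g : ZMod M → ℂ) (v : ZMod M) : 0 ≤ Q2 A g v := by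
  unfold Q2
  exact avr_nonneg (fun x => by positivity)

lemma Q2_le_one (A : ℕ) {g : ZMod M → ℂ} (hg : Bd g) (v : ZMod M) : Q2 A g v ≤ 1 := by
  unfold Q2
  refine avr_le (fun x => ?_)
  exact pow_le_one₀ (norm_nonneg _) (norm_tv_le_one A _ (fun i => hg _))

lemma Q2_shift (A : ℕ) (g : ZMod M → ℂ) (v h : ZMod M) : Q2 A (fun x => g (x + h)) v = Q2 A g v := by
  unfold Q2
  rw [← avr_shift (fun x => ‖tv A (fun i => g (x + v * (i : ZMod M)))‖ ^ 2) h]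
  congr 1
  funext x
  have h1 : (fun i : ℕ => g (x + v * (i : ZMod M) + h)) = fun i : ℕ => g (x + h + v * (i : ZMod M)) := by
    funext i
    congr 1
    ring
  rw [h1]

lemma Q2_conj (A : ℕ) (g : ZMod M → ℂ) (v : ZMod M) : Q2 A (fun x => (starRingEnd ℂ) (g x)) v = Q2 A g v := by
  unfold Q2
  congr 1
  funext x
  rw [tv_conj A (fun i => g (x + v * (i : ZMod M))), RCLike.norm_conj]

lemma QQ_nonneg (A : ℕ) (γ γ' : ZMod M) (G : ZMod M → ℂ) : 0 ≤ QQ A γ γ' G := by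
  unfold QQ
  exact dv_nonneg A (fun k => Q2_nonneg _ _ _)

lemma QQ_le_one (A : ℕ) (γ γ' : ZMod M) {G : ZMod M → ℂ} (hG : Bd G) : QQ A γ γ' G ≤ 1 := by
  unfold QQ
  exact dv_le A zero_le_one (fun k _ => Q2_le_one A (Dl_Bd _ hG) _)

lemma QQ_conj (A : ℕ) (γ γ' : ZMod M) (G : ZMod M → ℂ) :
    QQ A γ γ' (fun x => (starRingEnd ℂ) (G x)) = QQ A γ γ' G := by
  unfold QQ
  congr 1
  funext j
  rw [Dl_conj, Q2_conj]

lemma RR_nonneg (κ : ZMod M) (A : ℕ) (α : ℤ) (g : ZMod M → ℂ) : 0 ≤ RR κ A α g := by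
  unfold RR
  exact dv_nonneg A (fun k => dv_nonneg A (fun m => Q2_nonneg _ _ _))

lemma RR_le_one (κ : ZMod M) (A : ℕ) (α : ℤ) {g : ZMod M → ℂ} (hg : Bd g) : RR κ A α g ≤ 1 := by
  unfold RR
  exact dv_le A zero_le_one (fun k _ => dv_le A zero_le_one (fun m _ => Q2_le_one A (Dl_Bd _ hg) _))

lemma BX_nonneg (κ : ZMod M) (A : ℕ) (f : ZMod M → ℂ) : 0 ≤ BX κ A f := by
  unfold BX
  exact dv_nonneg A (fun k => dv_nonneg A (fun m => RR_nonneg _ _ _ _))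

/-! ### The uniformity averages -/

lemma U2_nonneg (g : ZMod M → ℂ) : 0 ≤ U2 g := by
  unfold U2
  exact Finset.sum_nonneg (fun ξ _ => by positivity)

lemma U3_nonneg (g : ZMod M → ℂ) : 0 ≤ U3 g := by
  unfold U3
  exact avr_nonneg (fun h => U2_nonneg _)

lemma U4_nonneg (g : ZMod M → ℂ) : 0 ≤ U4 g := by
  unfold U4
  exact avr_nonneg (fun h => U3_nonneg _)

lemma U2_le_one {g : ZMod M → ℂ} (hg : Bd g) : U2 g ≤ 1 := by
  unfold U2
  refine le_trans (Finset.sum_le_sum (fun ξ _ => ?_)) (sum_ft_sq_le_one hg)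
  exact pow_le_pow_of_le_one (norm_nonneg _) (norm_ft_le_one hg ξ) (by norm_num)

lemma U3_le_one {g : ZMod M → ℂ} (hg : Bd g) : U3 g ≤ 1 := by
  unfold U3
  exact avr_le (fun h => U2_le_one (Dl_Bd h hg))

lemma U2_eq (g : ZMod M → ℂ) : U2 g = avr (fun u => ‖av (Dl u g)‖ ^ 2) := by
  have h : ∀ u : ZMod M, av (Dl u g) = ∑ ξ, ((‖ft g (-ξ)‖ ^ 2 : ℝ) : ℂ) * chi ξ u := by
    intro u
    rw [av_Dl, ← sum_neg_eq]
    refine Finset.sum_congr rfl (fun η _ => ?_)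
    rw [neg_neg]
  simp_rw [h]
  rw [parseval_series]
  unfold U2
  rw [← sum_neg_eq]
  refine Finset.sum_congr rfl (fun ξ _ => ?_)
  rw [norm_cast_sq]

lemma U2_eq_av (g : ZMod M → ℂ) : ((U2 g : ℝ) : ℂ) = av (fun u => av (fun v => av (Dl u (Dl v g)))) := by
  rw [U2_eq, ← av_ofReal]
  congr 1
  funext u
  rw [norm_av_sq]
  congr 1
  funext v
  rw [Dl_comm]

lemma avr_ft_Dl_le (g : ZMod M → ℂ) (ξ : ZMod M) : avr (fun u => ‖ft (Dl u g) ξ‖ ^ 2) ≤ U2 g := by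
  simp_rw [ft_Dl g]
  rw [parseval_series]
  have h1 : ∀ η : ZMod M, ‖(starRingEnd ℂ) (ft g (-η)) * ft g (-η + ξ)‖ ^ 2 ≤
      (‖ft g (-η)‖ ^ 4 + ‖ft g (-η + ξ)‖ ^ 4) / 2 := by
    intro η
    rw [norm_mul, RCLike.norm_conj, mul_pow]
    nlinarith [sq_nonneg (‖ft g (-η)‖ ^ 2 - ‖ft g (-η + ξ)‖ ^ 2)]
  refine le_trans (Finset.sum_le_sum (fun η _ => h1 η)) (le_of_eq ?_)
  rw [← Finset.sum_div, Finset.sum_add_distrib, sum_neg_eq (fun η => ‖ft g η‖ ^ 4),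
    sum_neg_eq (fun η => ‖ft g (η + ξ)‖ ^ 4), sum_add_eq (fun η => ‖ft g η‖ ^ 4) ξ]
  unfold U2
  ring

lemma exists_U2_le {g : ZMod M → ℂ} (hg : Bd g) : ∃ ξ, U2 g ≤ ‖ft g ξ‖ ^ 2 := by
  obtain ⟨ξ, hξ⟩ := Finite.exists_max (fun ξ : ZMod M => ‖ft g ξ‖)
  refine ⟨ξ, ?_⟩
  unfold U2
  calc ∑ η, ‖ft g η‖ ^ 4 ≤ ∑ η, ‖ft g ξ‖ ^ 2 * ‖ft g η‖ ^ 2 := by
        refine Finset.sum_le_sum (fun η _ => ?_)
        have h1 : ‖ft g η‖ ^ 2 ≤ ‖ft g ξ‖ ^ 2 := pow_le_pow_left₀ (norm_nonneg _) (hξ η) 2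
        nlinarith [sq_nonneg (‖ft g η‖), h1]
    _ = ‖ft g ξ‖ ^ 2 * ∑ η, ‖ft g η‖ ^ 2 := by rw [Finset.mul_sum]
    _ ≤ ‖ft g ξ‖ ^ 2 * 1 := by
        exact mul_le_mul_of_nonneg_left (sum_ft_sq_le_one hg) (by positivity)
    _ = ‖ft g ξ‖ ^ 2 := mul_one _

end Pool.Agent.NLT
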