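import Pool.Agent.Lib.NLT.BasicC

/-!
# Module BoxCS: the box Cauchy-Schwarz inequality

PROOF of `box_cs`. Write the average as `av_x tv_j b1 x j * (tv_i G (x + γ i + γ' j) * b2 x i)`. Cauchy-Schwarz in `(x, j)`
removes `b1`: `‖..‖^2 ≤ avr_x tvr_j ‖tv_i G (x + γ i + γ' j) b2 x i‖^2
 = av_x tv_i tv_i' b2 x i * conj (b2 x i') * tv_j G (x + γ i + γ' j) * conj (G (x + γ i' + γ' j))`.
Cauchy-Schwarz in `(x, i, i')` removes the `b2`: `‖..‖^4 ≤ avr_x tvr_i tvr_i' ‖tv_j G (x + γ i + γ' j) * conj (G (x + γ i' + γ' j))‖^2`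
`= tv_j tv_j' av_x ‖tv_i (Dl (γ' (j' - j)) G) (x + γ' j + γ i)‖^2`: expand both squares, with `Dl v G y = G y * conj (G (y + v))`.
Shift `x` by `- γ' j`: this is `dv A' (j ↦ Q2 A' (Dl (γ' j) G) γ) = QQ A' γ γ' G`.
(All manipulations can be done with finite sums: `tv`, `av` are finite sums divided by constants; `A' = 0` is trivial.)
-/

set_option autoImplicit false

open Finset

namespace Pool.Agent.NLT

open Pool.Agent.HLT

namespace BoxCSAux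

variable {M : ℕ} [NeZero M]

lemma tv_ofReal (H : ℕ) (F : ℕ → ℝ) : tv H (fun t => (F t : ℂ)) = (tvr H F : ℂ) := by
  unfold tv tvr
  push_cast
  rfl

/-- the inner average -/
noncomputable def SS (A : ℕ) (γ γ' : ZMod M) (G : ZMod M → ℂ) (b2 : ZMod M → ℕ → ℂ) (x : ZMod M) (j : ℕ) : ℂ :=
  tv A (fun i => G (x + γ * (i : ZMod M) + γ' * (j : ZMod M)) * b2 x i)

/-- the correlation -/
noncomputable def PC (A : ℕ) (γ γ' : ZMod M) (G : ZMod M → ℂ) (x : ZMod M) (i i' : ℕ) : ℂ :=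
  tv A (fun j => G (x + γ * (i : ZMod M) + γ' * (j : ZMod M)) *
    (starRingEnd ℂ) (G (x + γ * (i' : ZMod M) + γ' * (j : ZMod M))))

lemma step0 (A : ℕ) (γ γ' : ZMod M) (G : ZMod M → ℂ) (b1 b2 : ZMod M → ℕ → ℂ) :
    av (fun x => tv A (fun i => tv A (fun j =>
        G (x + γ * (i : ZMod M) + γ' * (j : ZMod M)) * b1 x j * b2 x i))) =
      av (fun x => tv A (fun j => b1 x j * SS A γ γ' G b2 x j)) := by
  refine congrArg av (funext fun x => ?_)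
  rw [tv_comm]
  refine congrArg (tv A) (funext fun j => ?_)
  unfold SS
  rw [← tv_mul_left]
  refine congrArg (tv A) (funext fun i => ?_)
  ring

lemma step1 (A : ℕ) (γ γ' : ZMod M) (G : ZMod M → ℂ) (b1 b2 : ZMod M → ℕ → ℂ) (h1 : ∀ x j, ‖b1 x j‖ ≤ 1) :
    ‖av (fun x => tv A (fun j => b1 x j * SS A γ γ' G b2 x j))‖ ^ 2 ≤
      avr (fun x => tvr A (fun j => ‖SS A γ γ' G b2 x j‖ ^ 2)) := by
  refine (norm_av_sq_le _).trans (avr_mono fun x => ?_)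
  refine (norm_tv_sq_le _ _).trans (tvr_mono A fun j _ => ?_)
  rw [norm_mul]
  refine pow_le_pow_left₀ (by positivity) ?_ 2
  calc ‖b1 x j‖ * ‖SS A γ γ' G b2 x j‖ ≤ 1 * ‖SS A γ γ' G b2 x j‖ :=
        mul_le_mul_of_nonneg_right (h1 x j) (norm_nonneg _)
    _ = _ := one_mul _

lemma step2 (A : ℕ) (γ γ' : ZMod M) (G : ZMod M → ℂ) (b2 : ZMod M → ℕ → ℂ) :
    ((avr (fun x => tvr A (fun j => ‖SS A γ γ' G b2 x j‖ ^ 2)) : ℝ) : ℂ) =
      av (fun x => tv A (fun i => tv A (fun i' => (b2 x i * (starRingEnd ℂ) (b2 x i')) * PC A γ γ' G x i i'))) := by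
  rw [← av_ofReal]
  refine congrArg av (funext fun x => ?_)
  rw [← tv_ofReal]
  have e1 : (fun j : ℕ => ((‖SS A γ γ' G b2 x j‖ ^ 2 : ℝ) : ℂ)) = fun j : ℕ => tv A (fun i => tv A (fun i' =>
      (b2 x i * (starRingEnd ℂ) (b2 x i')) * (G (x + γ * (i : ZMod M) + γ' * (j : ZMod M)) *
        (starRingEnd ℂ) (G (x + γ * (i' : ZMod M) + γ' * (j : ZMod M)))))) := by
    funext j
    unfold SS
    rw [norm_tv_sq]
    refine congrArg (tv A) (funext fun i => congrArg (tv A) (funext fun i' => ?_))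
    rw [map_mul]
    ring
  rw [e1, tv_comm]
  refine congrArg (tv A) (funext fun i => ?_)
  rw [tv_comm]
  refine congrArg (tv A) (funext fun i' => ?_)
  unfold PC
  rw [← tv_mul_left]

lemma step3 (A : ℕ) (γ γ' : ZMod M) (G : ZMod M → ℂ) (b2 : ZMod M → ℕ → ℂ) (h2 : ∀ x i, ‖b2 x i‖ ≤ 1) :
    ‖av (fun x => tv A (fun i => tv A (fun i' => (b2 x i * (starRingEnd ℂ) (b2 x i')) * PC A γ γ' G x i i')))‖ ^ 2 ≤
      avr (fun x => tvr A (fun i => tvr A (fun i' => ‖PC A γ γ' G x i i'‖ ^ 2))) := by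
  refine (norm_av_sq_le _).trans (avr_mono fun x => ?_)
  refine (norm_tv_sq_le _ _).trans (tvr_mono A fun i _ => ?_)
  refine (norm_tv_sq_le _ _).trans (tvr_mono A fun i' _ => ?_)
  rw [norm_mul, norm_mul, RCLike.norm_conj]
  refine pow_le_pow_left₀ (by positivity) ?_ 2
  calc ‖b2 x i‖ * ‖b2 x i'‖ * ‖PC A γ γ' G x i i'‖ ≤ 1 * ‖PC A γ γ' G x i i'‖ :=
        mul_le_mul_of_nonneg_right (mul_le_one₀ (h2 x i) (norm_nonneg _) (h2 x i')) (norm_nonneg _)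
    _ = _ := one_mul _

lemma PC_sq (A : ℕ) (γ γ' : ZMod M) (G : ZMod M → ℂ) (x : ZMod M) (i i' : ℕ) :
    ((‖PC A γ γ' G x i i'‖ ^ 2 : ℝ) : ℂ) = tv A (fun j => tv A (fun j' =>
      Dl (γ' * (((j' : ℤ) - j : ℤ) : ZMod M)) G ((x + γ' * (j : ZMod M)) + γ * (i : ZMod M)) *
      (starRingEnd ℂ) (Dl (γ' * (((j' : ℤ) - j : ℤ) : ZMod M)) G
        ((x + γ' * (j : ZMod M)) + γ * (i' : ZMod M))))) := by
  unfold PC
  rw [norm_tv_sq]
  refine congrArg (tv A) (funext fun j => congrArg (tv A) (funext fun j' => ?_))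
  unfold Dl
  simp only [map_mul, Complex.conj_conj]
  have e1 : ∀ u : ZMod M, x + γ' * (j : ZMod M) + γ * u + γ' * (((j' : ℤ) - j : ℤ) : ZMod M) =
      x + γ * u + γ' * (j' : ZMod M) := by
    intro u
    push_cast
    ring
  have e2 : ∀ u : ZMod M, x + γ' * (j : ZMod M) + γ * u = x + γ * u + γ' * (j : ZMod M) := by
    intro u
    ring
  rw [e1, e1, e2, e2]
  ring

lemma Q2_form (A : ℕ) (γ : ZMod M) (D : ZMod M → ℂ) (h : ZMod M) :
    av (fun x => tv A (fun i => tv A (fun i' => D ((x + h) + γ * (i : ZMod M)) *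
      (starRingEnd ℂ) (D ((x + h) + γ * (i' : ZMod M)))))) = ((Q2 A D γ : ℝ) : ℂ) := by
  have e1 : ∀ x : ZMod M, tv A (fun i => tv A (fun i' => D ((x + h) + γ * (i : ZMod M)) *
      (starRingEnd ℂ) (D ((x + h) + γ * (i' : ZMod M))))) =
      (fun y : ZMod M => ((‖tv A (fun i => D (y + γ * (i : ZMod M)))‖ ^ 2 : ℝ) : ℂ)) (x + h) := by
    intro x
    simp only
    rw [norm_tv_sq]
  simp only [e1]
  rw [av_shift (fun y : ZMod M => ((‖tv A (fun i => D (y + γ * (i : ZMod M)))‖ ^ 2 : ℝ) : ℂ)) h, av_ofReal]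
  rfl

lemma step4 (A : ℕ) (γ γ' : ZMod M) (G : ZMod M → ℂ) :
    ((avr (fun x => tvr A (fun i => tvr A (fun i' => ‖PC A γ γ' G x i i'‖ ^ 2))) : ℝ) : ℂ) =
      ((QQ A γ γ' G : ℝ) : ℂ) := by
  rw [← av_ofReal]
  simp only [← tv_ofReal, PC_sq]
  have e1 : ∀ x : ZMod M, tv A (fun i => tv A (fun i' => tv A (fun j => tv A (fun j' =>
      Dl (γ' * (((j' : ℤ) - j : ℤ) : ZMod M)) G ((x + γ' * (j : ZMod M)) + γ * (i : ZMod M)) *
      (starRingEnd ℂ) (Dl (γ' * (((j' : ℤ) - j : ℤ) : ZMod M)) G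
        ((x + γ' * (j : ZMod M)) + γ * (i' : ZMod M))))))) =
      tv A (fun j => tv A (fun j' => tv A (fun i => tv A (fun i' =>
      Dl (γ' * (((j' : ℤ) - j : ℤ) : ZMod M)) G ((x + γ' * (j : ZMod M)) + γ * (i : ZMod M)) *
      (starRingEnd ℂ) (Dl (γ' * (((j' : ℤ) - j : ℤ) : ZMod M)) G
        ((x + γ' * (j : ZMod M)) + γ * (i' : ZMod M))))))) := by
    intro x
    have s1 : ∀ i : ℕ, tv A (fun i' => tv A (fun j => tv A (fun j' =>
        Dl (γ' * (((j' : ℤ) - j : ℤ) : ZMod M)) G ((x + γ' * (j : ZMod M)) + γ * (i : ZMod M)) *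
        (starRingEnd ℂ) (Dl (γ' * (((j' : ℤ) - j : ℤ) : ZMod M)) G
          ((x + γ' * (j : ZMod M)) + γ * (i' : ZMod M)))))) =
        tv A (fun j => tv A (fun j' => tv A (fun i' =>
        Dl (γ' * (((j' : ℤ) - j : ℤ) : ZMod M)) G ((x + γ' * (j : ZMod M)) + γ * (i : ZMod M)) *
        (starRingEnd ℂ) (Dl (γ' * (((j' : ℤ) - j : ℤ) : ZMod M)) G
          ((x + γ' * (j : ZMod M)) + γ * (i' : ZMod M)))))) := by
      intro i
      rw [tv_comm]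
      refine congrArg (tv A) (funext fun j => ?_)
      rw [tv_comm]
    simp only [s1]
    rw [tv_comm]
    refine congrArg (tv A) (funext fun j => ?_)
    rw [tv_comm]
  simp only [e1]
  rw [← tv_av_comm]
  have e2 : (fun j : ℕ => av (fun x => tv A (fun j' => tv A (fun i => tv A (fun i' =>
      Dl (γ' * (((j' : ℤ) - j : ℤ) : ZMod M)) G ((x + γ' * (j : ZMod M)) + γ * (i : ZMod M)) *
      (starRingEnd ℂ) (Dl (γ' * (((j' : ℤ) - j : ℤ) : ZMod M)) G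
        ((x + γ' * (j : ZMod M)) + γ * (i' : ZMod M)))))))) =
      fun j : ℕ => tv A (fun j' => (((Q2 A (Dl (γ' * (((j' : ℤ) - j : ℤ) : ZMod M)) G) γ : ℝ)) : ℂ)) := by
    funext j
    rw [← tv_av_comm]
    refine congrArg (tv A) (funext fun j' => ?_)
    exact Q2_form A γ (Dl (γ' * (((j' : ℤ) - j : ℤ) : ZMod M)) G) (γ' * (j : ZMod M))
  rw [e2]
  unfold QQ
  rw [← dvc_ofReal, dvc_eq_tv]

end BoxCSAux

open BoxCSAux

variable {M : ℕ} [NeZero M]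

theorem box_cs (A : ℕ) (γ γ' : ZMod M) (G : ZMod M → ℂ) (b1 b2 : ZMod M → ℕ → ℂ) (h1 : ∀ x j, ‖b1 x j‖ ≤ 1)
    (h2 : ∀ x i, ‖b2 x i‖ ≤ 1) :
    ‖av (fun x => tv A (fun i => tv A (fun j =>
        G (x + γ * (i : ZMod M) + γ' * (j : ZMod M)) * b1 x j * b2 x i)))‖ ^ 4 ≤ QQ A γ γ' G := by
  rw [step0]
  set Z : ℂ := av (fun x => tv A (fun j => b1 x j * SS A γ γ' G b2 x j)) with hZ
  set r1 : ℝ := avr (fun x => tvr A (fun j => ‖SS A γ γ' G b2 x j‖ ^ 2)) with hr1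
  have a1 : ‖Z‖ ^ 2 ≤ r1 := step1 A γ γ' G b1 b2 h1
  have a2 : r1 ^ 2 ≤ QQ A γ γ' G := by
    have e1 : r1 ^ 2 = ‖(r1 : ℂ)‖ ^ 2 := by
      rw [Complex.norm_real, Real.norm_eq_abs, sq_abs]
    rw [e1, hr1, step2]
    refine (step3 A γ γ' G b2 h2).trans (le_of_eq ?_)
    exact_mod_cast step4 A γ γ' G
  calc ‖Z‖ ^ 4 = (‖Z‖ ^ 2) ^ 2 := by ring
    _ ≤ r1 ^ 2 := pow_le_pow_left₀ (by positivity) a1 2
    _ ≤ _ := a2

end Pool.Agent.NLT
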