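import Pool.Agent.Lib.NLT.BasicC

/-!
# Module Scale: dilation by a unit

PROOF (`κ ≠ 0`, `M` prime, `f' x = f (κ x)`). `(Dl (κ h) f) (κ x) = (Dl h f') x`; averages over `ZMod M` do not change under
`x → κ x` (bijection). `BX κ A f = BX 1 A f'`: unfold `BX`, `RR`, `Q2`. `ft f' ξ = ft f (κ⁻¹ ξ)` (substitute `x → κ⁻¹ x`,
`chi (-ξ) (κ⁻¹ x) = chi (-(κ⁻¹ ξ)) x`), hence `U2 f' = U2 f`; `Dl h f' = (Dl (κ h) f)'`, hence `U3 f' = U3 f`, `U4 f' = U4 f`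
(substitute `h → κ h`).
-/

set_option autoImplicit false

open Finset

namespace Pool.Agent.NLT

open Pool.Agent.HLT

namespace ScaleAux

lemma avr_sc (M : ℕ) [Fact M.Prime] (κ : ZMod M) (hκ : κ ≠ 0) (f : ZMod M → ℝ) :
    avr (fun x => f (κ * x)) = avr f := by
  unfold avr
  congr 1
  exact Equiv.sum_comp (Equiv.mulLeft₀ κ hκ) f

lemma av_sc (M : ℕ) [Fact M.Prime] (κ : ZMod M) (hκ : κ ≠ 0) (f : ZMod M → ℂ) :
    av (fun x => f (κ * x)) = av f := by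
  unfold av
  congr 1
  exact Equiv.sum_comp (Equiv.mulLeft₀ κ hκ) f

lemma Dl_sc (M : ℕ) [Fact M.Prime] (κ h : ZMod M) (f : ZMod M → ℂ) :
    Dl h (fun x => f (κ * x)) = fun x => Dl (κ * h) f (κ * x) := by
  funext x
  simp only [Dl, mul_add]

lemma ft_sc (M : ℕ) [Fact M.Prime] (κ : ZMod M) (hκ : κ ≠ 0) (f : ZMod M → ℂ) (ξ : ZMod M) :
    ft (fun x => f (κ * x)) ξ = ft f (κ⁻¹ * ξ) := by
  unfold ft
  rw [← av_sc M κ hκ (fun x => f x * chi (-(κ⁻¹ * ξ)) x)]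
  congr 1
  funext x
  have h1 : chi (-(κ⁻¹ * ξ)) (κ * x) = chi (-ξ) x := by
    unfold chi
    congr 1
    field_simp
  rw [h1]

lemma U2_sc (M : ℕ) [Fact M.Prime] (κ : ZMod M) (hκ : κ ≠ 0) (f : ZMod M → ℂ) :
    U2 (fun x => f (κ * x)) = U2 f := by
  unfold U2
  simp only [ft_sc M κ hκ]
  exact Equiv.sum_comp (Equiv.mulLeft₀ κ⁻¹ (inv_ne_zero hκ)) (fun ξ => ‖ft f ξ‖ ^ 4)

lemma U3_sc (M : ℕ) [Fact M.Prime] (κ : ZMod M) (hκ : κ ≠ 0) (f : ZMod M → ℂ) :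
    U3 (fun x => f (κ * x)) = U3 f := by
  unfold U3
  simp only [Dl_sc, U2_sc M κ hκ]
  exact avr_sc M κ hκ (fun h => U2 (Dl h f))

lemma Q2_sc (M : ℕ) [Fact M.Prime] (A : ℕ) (κ : ZMod M) (hκ : κ ≠ 0) (g : ZMod M → ℂ) (v : ZMod M) :
    Q2 A (fun x => g (κ * x)) v = Q2 A g (κ * v) := by
  unfold Q2
  rw [← avr_sc M κ hκ (fun x => ‖tv A (fun i => g (x + κ * v * (i : ZMod M)))‖ ^ 2)]
  simp only [mul_add, mul_assoc]

lemma RR_sc (M : ℕ) [Fact M.Prime] (A : ℕ) (κ : ZMod M) (hκ : κ ≠ 0) (α : ℤ) (g : ZMod M → ℂ) :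
    RR κ A α g = RR 1 A α (fun x => g (κ * x)) := by
  unfold RR
  simp only [Dl_sc, Q2_sc M A κ hκ, one_mul, mul_assoc]

end ScaleAux

theorem BX_scale (M A : ℕ) [Fact M.Prime] (κ : ZMod M) (hκ : κ ≠ 0) (f : ZMod M → ℂ) :
    BX κ A f = BX 1 A (fun x => f (κ * x)) := by
  unfold BX
  simp only [ScaleAux.RR_sc M A κ hκ, ScaleAux.Dl_sc, one_mul, mul_assoc]

theorem U4_scale (M : ℕ) [Fact M.Prime] (κ : ZMod M) (hκ : κ ≠ 0) (f : ZMod M → ℂ) :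
    U4 (fun x => f (κ * x)) = U4 f := by
  unfold U4
  simp only [ScaleAux.Dl_sc, ScaleAux.U3_sc M κ hκ]
  exact ScaleAux.avr_sc M κ hκ (fun h => U3 (Dl h f))

end Pool.Agent.NLT
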