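import Pool.Agent.Lib.NLT.ConcIneq
import Pool.Agent.Lib.NLT.Scale

/-!
# Module Conc: concatenation

PROOF. First `κ = 1`. Let `C0` be the constant of `conc_ineq`, `R' = R^3` (`M ≤ R H^2 ≤ R^3 A^2`), `K = R^18`, `A' = A / R^6`
(so `A ≤ 2 R^6 A'`, `H ≤ R^8 A'`), `R1 = R^60`; `m1 ≤ 3 R1^(2 C0) R` (`card_Maj`; `K < M` since `M ≥ H^2`), `R2 = R^c2` with
`c2 = 120 C0 + 70`, `m2 ≤ 3 R2^(2 C0) R`, `R3 = R^c3`, `c3 = (120 + 2 c2) C0 + 100` (any powers large enough, chosen in the order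
`K, A', R1, R2, R3`). Then in `conc_ineq` the terms `72 / K`, `2048 (A'/A)^4`, `8*15*K^2*R'*5/R1`,
`8*15*K^2*R'*5*m1/R2`, `8*15*K^2*R'*25*m1*m2/R3` are each at most `R^-8 / 8` and `BX^8 ≥ R^-8`, so
`8*15*K^2*R'*125*m1*m2*m3*U4 f ≥ (3/8) R^-8`, `m3 ≤ 3 R3^(2 C0) R`: `U4 f ≥ R^-C`. (`R ≥ 2`, so numerical constants are
powers of `R`; all conditions `.. ≤ H` hold for large `C`.)
General `κ ≠ 0`: `BX_scale`, `U4_scale` and the case `κ = 1` for `x ↦ f (κ x)`.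
-/

set_option autoImplicit false

open Finset

namespace Pool.Agent.NLT

open Pool.Agent.HLT

namespace ConcAux

lemma arith (r : ℝ) (hr : 2 ≤ r) (p q s : ℕ) (m1 m2 m3 U X η : ℝ) (hm2 : 0 ≤ m2)
    (hm3 : 0 ≤ m3) (hU : 0 ≤ U) (h1 : m1 ≤ r ^ p) (h2 : m2 ≤ r ^ q) (h3 : m3 ≤ r ^ s) (hη : 0 ≤ η)
    (hη' : η ≤ 1 / r ^ 6) (hX : 1 / r ^ 8 ≤ X)
    (h : X ≤ 8 * (15 * (r ^ 18) ^ 2 * r ^ 3 * (25 * m1 * m2 * (5 * m3 * U + 1 / r ^ (p + q + 94)) +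
      5 * m1 / r ^ (p + 67) + 5 / r ^ 60) + 9 / r ^ 18) + 2048 * η ^ 4) :
    1 / r ^ (p + q + s + 63) ≤ U := by
  have hr0 : (0 : ℝ) < r := by linarith
  have hpow : ∀ k : ℕ, (2 : ℝ) ^ k ≤ r ^ k := fun k => pow_le_pow_left₀ (by norm_num) hr k
  have hz : ∀ k : ℕ, (0 : ℝ) < r ^ k := fun k => pow_pos hr0 k
  -- the small terms
  have A1 : 600 / r ^ 21 ≤ 1 / (8 * r ^ 8) := by
    rw [div_le_div_iff₀ (hz _) (by have := hz 8; positivity)]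
    have := hpow 13
    have e : r ^ 21 = r ^ 13 * r ^ 8 := by ring
    rw [e]
    have h8 := hz 8
    nlinarith
  have A4 : 72 / r ^ 18 ≤ 1 / (8 * r ^ 8) := by
    rw [div_le_div_iff₀ (hz _) (by have := hz 8; positivity)]
    have := hpow 10
    have e : r ^ 18 = r ^ 10 * r ^ 8 := by ring
    rw [e]
    have h8 := hz 8
    nlinarith
  have A2 : 600 / r ^ 28 ≤ 1 / (8 * r ^ 8) := by
    rw [div_le_div_iff₀ (hz _) (by have := hz 8; positivity)]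
    have := hpow 20
    have e : r ^ 28 = r ^ 20 * r ^ 8 := by ring
    rw [e]
    have h8 := hz 8
    nlinarith
  have A3 : 3000 / r ^ 55 ≤ 1 / (8 * r ^ 8) := by
    rw [div_le_div_iff₀ (hz _) (by have := hz 8; positivity)]
    have := hpow 47
    have e : r ^ 55 = r ^ 47 * r ^ 8 := by ring
    rw [e]
    have h8 := hz 8
    nlinarith
  have A5 : 2048 * η ^ 4 ≤ 1 / (8 * r ^ 8) := by
    have e1 : η ^ 4 ≤ (1 / r ^ 6) ^ 4 := pow_le_pow_left₀ hη hη' 4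
    have e2 : (1 / r ^ 6) ^ 4 = 1 / r ^ 24 := by
      rw [div_pow, one_pow, ← pow_mul]
    have e3 : 2048 / r ^ 24 ≤ 1 / (8 * r ^ 8) := by
      rw [div_le_div_iff₀ (hz _) (by have := hz 8; positivity)]
      have := hpow 16
      have e : r ^ 24 = r ^ 16 * r ^ 8 := by ring
      rw [e]
      have h8 := hz 8
      nlinarith
    calc 2048 * η ^ 4 ≤ 2048 * (1 / r ^ 24) := by rw [← e2]; linarith
      _ = 2048 / r ^ 24 := by ring
      _ ≤ _ := e3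
  -- rewrite the right side
  have hm12 : m1 * m2 ≤ r ^ p * r ^ q := mul_le_mul h1 h2 hm2 (hz _).le
  have hm123 : m1 * m2 * m3 ≤ r ^ p * r ^ q * r ^ s :=
    mul_le_mul hm12 h3 hm3 (mul_pos (hz _) (hz _)).le
  have B2 : 600 * r ^ 39 * (m1 / r ^ (p + 67)) ≤ 1 / (8 * r ^ 8) := by
    have : m1 / r ^ (p + 67) ≤ 1 / r ^ 67 := by
      rw [div_le_div_iff₀ (hz _) (hz _), pow_add]
      have := hz 67
      nlinarith
    calc 600 * r ^ 39 * (m1 / r ^ (p + 67)) ≤ 600 * r ^ 39 * (1 / r ^ 67) := by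
          have := hz 39
          gcongr
      _ = 600 / r ^ 28 := by
          have : r ^ 67 = r ^ 39 * r ^ 28 := by ring
          rw [this]; field_simp
      _ ≤ _ := A2
  have B3 : 3000 * r ^ 39 * (m1 * m2 * (1 / r ^ (p + q + 94))) ≤ 1 / (8 * r ^ 8) := by
    have : m1 * m2 * (1 / r ^ (p + q + 94)) ≤ 1 / r ^ 94 := by
      have e : r ^ (p + q + 94) = r ^ p * r ^ q * r ^ 94 := by rw [pow_add, pow_add]
      rw [e, mul_one_div, div_le_div_iff₀ (by have := hz p; have := hz q; have := hz 94; positivity) (hz _)]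
      have := hz 94
      nlinarith
    calc 3000 * r ^ 39 * (m1 * m2 * (1 / r ^ (p + q + 94))) ≤ 3000 * r ^ 39 * (1 / r ^ 94) := by
          have := hz 39
          gcongr
      _ = 3000 / r ^ 55 := by
          have : r ^ 94 = r ^ 39 * r ^ 55 := by ring
          rw [this]; field_simp
      _ ≤ _ := A3
  have B1 : 600 * r ^ 39 * (1 / r ^ 60) ≤ 1 / (8 * r ^ 8) := by
    calc 600 * r ^ 39 * (1 / r ^ 60) = 600 / r ^ 21 := by
          have : r ^ 60 = r ^ 39 * r ^ 21 := by ring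
          rw [this]; field_simp
      _ ≤ _ := A1
  have Bm : 15000 * r ^ 39 * (m1 * m2 * m3) * U ≤ 15000 * r ^ 39 * (r ^ p * r ^ q * r ^ s) * U := by
    have := hz 39
    gcongr
  have key : 3 / (8 * r ^ 8) ≤ 15000 * r ^ 39 * (r ^ p * r ^ q * r ^ s) * U := by
    have e : 8 * (15 * (r ^ 18) ^ 2 * r ^ 3 * (25 * m1 * m2 * (5 * m3 * U + 1 / r ^ (p + q + 94)) +
      5 * m1 / r ^ (p + 67) + 5 / r ^ 60) + 9 / r ^ 18) + 2048 * η ^ 4 =
      15000 * r ^ 39 * (m1 * m2 * m3) * U + 3000 * r ^ 39 * (m1 * m2 * (1 / r ^ (p + q + 94))) +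
      600 * r ^ 39 * (m1 / r ^ (p + 67)) + 600 * r ^ 39 * (1 / r ^ 60) + 72 / r ^ 18 + 2048 * η ^ 4 := by
      ring
    rw [e] at h
    have e8 : 1 / r ^ 8 = 8 * (1 / (8 * r ^ 8)) := by field_simp
    have e3 : 3 / (8 * r ^ 8) = 3 * (1 / (8 * r ^ 8)) := by ring
    rw [e3]
    rw [e8] at hX
    linarith
  -- conclusion
  have e1 : r ^ (p + q + s + 63) = r ^ 16 * r ^ 8 * r ^ 39 * (r ^ p * r ^ q * r ^ s) := by
    rw [pow_add, pow_add, pow_add]; ring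
  rw [e1]
  set W := r ^ p * r ^ q * r ^ s with hW
  have hWpos : 0 < W := by have := hz p; have := hz q; have := hz s; positivity
  have h16 := hpow 16
  have h8 := hz 8
  have h39 := hz 39
  rw [div_le_iff₀ (by have := hz 16; positivity)]
  rw [div_le_iff₀ (by positivity)] at key
  -- key : 3 ≤ 15000 r^39 W U (8 r^8)
  have hnn : 0 ≤ r ^ 8 * r ^ 39 * W * U := by positivity
  have : (2 : ℝ) ^ 16 * (r ^ 8 * r ^ 39 * W * U) ≤ r ^ 16 * (r ^ 8 * r ^ 39 * W * U) :=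
    mul_le_mul_of_nonneg_right h16 hnn
  nlinarith

lemma three_le (r : ℝ) (hr : 2 ≤ r) (k : ℕ) : 3 * r ^ k * r ≤ r ^ (k + 3) := by
  have hr0 : (0 : ℝ) < r := by linarith
  have hk : (0 : ℝ) < r ^ k := pow_pos hr0 k
  have e : r ^ (k + 3) = r ^ k * r ^ 3 := pow_add _ _ _
  rw [e]
  have h4 : 4 ≤ r ^ 2 := by nlinarith
  have h5 : 3 * r ≤ r ^ 3 := by
    have e3 : r ^ 3 = r * r ^ 2 := by ring
    rw [e3]; nlinarith
  nlinarith

end ConcAux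

open ConcAux in
theorem conc_one_dir : ∃ C : ℕ, ∀ (R H M A : ℕ) [Fact M.Prime], 2 ≤ R → R ^ C ≤ H → A ≤ H → H ≤ R * A → H ^ 2 ≤ M →
    M ≤ R * H ^ 2 → ∀ f : ZMod M → ℂ, Bd f → 1 / (R : ℝ) ≤ BX 1 A f → 1 / (R : ℝ) ^ C ≤ U4 f := by
  obtain ⟨C0, hC0⟩ := conc_ineq
  set c2 := 120 * C0 + 70 with hc2
  set c3 := (120 + 2 * c2) * C0 + 100 with hc3
  set C := (120 * C0 + 3) + (2 * c2 * C0 + 3) + (2 * c3 * C0 + 3) + 63 with hC
  refine ⟨C, ?_⟩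
  intro R H M A hM hR hRH hAH hHA hHM hMR f hf hBX
  have hM0 : 0 < M := hM.out.pos
  have hR1 : 1 ≤ R := by omega
  have hRpos : 0 < R := by omega
  have hRR : (2 : ℝ) ≤ (R : ℝ) := by exact_mod_cast hR
  have hR0 : (0 : ℝ) < (R : ℝ) := by linarith
  -- powers of R below H
  have hpowH : ∀ k, k ≤ C → R ^ k ≤ H := fun k hk => le_trans (Nat.pow_le_pow_right hRpos hk) hRH
  have hpowA : ∀ k, k + 1 ≤ C → R ^ k ≤ A := by
    intro k hk
    have h1 : R ^ (k + 1) ≤ R * A := le_trans (hpowH _ hk) hHA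
    rw [pow_succ, mul_comm] at h1
    exact Nat.le_of_mul_le_mul_left h1 hRpos
  have hA6 : R ^ 6 ≤ A := hpowA 6 (by omega)
  have hR6 : 0 < R ^ 6 := Nat.pow_pos hRpos
  set A' := A / R ^ 6 with hA'
  have hA'1 : 1 ≤ A' := Nat.div_pos hA6 hR6
  have hA'A : A' ≤ A := Nat.div_le_self _ _
  have hA'mul : A' * R ^ 6 ≤ A := Nat.div_mul_le_self _ _
  have hAlt : A < (A' + 1) * R ^ 6 := by
    have := Nat.lt_succ_iff.mpr (le_refl A')
    exact (Nat.div_lt_iff_lt_mul hR6).mp this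
  have hH8 : H ≤ R ^ 8 * A' := by
    have h1 : A ≤ 2 * R ^ 6 * A' := by nlinarith
    have h2 : R * A ≤ R * (2 * R ^ 6 * A') := Nat.mul_le_mul_left _ h1
    have h3 : R * (2 * R ^ 6 * A') ≤ R ^ 8 * A' := by
      have e1 : R * (2 * R ^ 6 * A') = 2 * (R ^ 7 * A') := by ring
      have e2 : R ^ 8 * A' = R * (R ^ 7 * A') := by ring
      rw [e1, e2]
      exact Nat.mul_le_mul_right _ hR
    omega
  have hHi : ∀ k, 8 ≤ k → H ≤ R ^ k * A' := fun k hk =>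
    le_trans hH8 (Nat.mul_le_mul_right _ (Nat.pow_le_pow_right hRpos hk))
  have h2pow : ∀ k, 1 ≤ k → 2 ≤ R ^ k := fun k hk =>
    le_trans hR (Nat.le_self_pow (by omega) R)
  have hHH : H < M := by
    have h4 : 2 ≤ H := le_trans (h2pow 1 le_rfl) (hpowH 1 (by omega))
    nlinarith
  have hR3A : M ≤ R ^ 3 * A ^ 2 := by
    have h1 : H ^ 2 ≤ (R * A) ^ 2 := Nat.pow_le_pow_left hHA 2
    calc M ≤ R * H ^ 2 := hMR
      _ ≤ R * (R * A) ^ 2 := Nat.mul_le_mul_left _ h1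
      _ = R ^ 3 * A ^ 2 := by ring
  have hA2M : A ^ 2 ≤ M := le_trans (Nat.pow_le_pow_left hAH 2) hHM
  -- exponents
  have hk1 : (R ^ 60) ^ C0 ≤ H := by
    rw [← pow_mul]; exact hpowH _ (by omega)
  have hk2 : (R ^ c2) ^ C0 ≤ H := by
    rw [← pow_mul]
    refine hpowH _ ?_
    have : c2 * C0 ≤ 2 * c2 * C0 := by nlinarith
    omega
  have hk3 : (R ^ c3) ^ C0 ≤ H := by
    rw [← pow_mul]
    refine hpowH _ ?_
    have : c3 * C0 ≤ 2 * c3 * C0 := by nlinarith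
    omega
  have hc2' : 8 ≤ c2 := by omega
  have hc3' : 8 ≤ c3 := by omega
  have main := hC0 (R ^ 3) (R ^ 60) (R ^ c2) (R ^ c3) (R ^ 18) H M A A' (h2pow _ (by norm_num))
    (h2pow _ (by omega)) (h2pow _ (by omega)) hk1 hk2 hk3 hA'1 hA'A hAH (hHi _ (by norm_num))
    (hHi _ hc2') (hHi _ hc3') (Nat.one_le_pow _ _ hRpos)
    (hpowA 18 (by omega)) hA2M hR3A f hf
  -- sizes of the major arcs
  have hcard : ∀ c : ℕ, (R ^ c) ^ C0 ≤ H → ((Maj M H ((R ^ c) ^ C0)).card : ℝ) ≤ (R : ℝ) ^ (2 * c * C0 + 3) := by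
    intro c hc
    have h1 := card_Maj M H ((R ^ c) ^ C0) R (Nat.one_le_pow _ _ (Nat.pow_pos hRpos)) hR1
      (lt_of_le_of_lt hc hHH) hMR
    have e : ((((R ^ c) ^ C0 : ℕ)) : ℝ) ^ 2 = (R : ℝ) ^ (2 * c * C0) := by
      push_cast
      rw [← pow_mul, ← pow_mul]
      congr 1
      ring
    rw [e] at h1
    exact le_trans h1 (three_le (R : ℝ) hRR _)
  have hm1 := hcard 60 hk1
  have hm2 := hcard c2 hk2
  have hm3 := hcard c3 hk3
  have hA0 : (0 : ℝ) < (A : ℝ) := by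
    have : 1 ≤ A := le_trans hA'1 hA'A
    exact_mod_cast this
  have hη : (A' : ℝ) / A ≤ 1 / (R : ℝ) ^ 6 := by
    rw [div_le_div_iff₀ hA0 (pow_pos hR0 6)]
    have : (A' : ℝ) * (R : ℝ) ^ 6 ≤ (A : ℝ) := by exact_mod_cast hA'mul
    linarith
  have hX : 1 / (R : ℝ) ^ 8 ≤ BX 1 A f ^ 8 := by
    have h1 := pow_le_pow_left₀ (by positivity : (0 : ℝ) ≤ 1 / (R : ℝ)) hBX 8
    rwa [div_pow, one_pow] at h1
  push_cast at main
  have ep : 2 * 60 * C0 + 3 + 67 = c2 := by omega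
  have eq3 : 2 * 60 * C0 + 3 + (2 * c2 * C0 + 3) + 94 = c3 := by rw [hc3]; ring
  have eC : 2 * 60 * C0 + 3 + (2 * c2 * C0 + 3) + (2 * c3 * C0 + 3) + 63 = C := by rw [hC]
  have fin := arith (R : ℝ) hRR (2 * 60 * C0 + 3) (2 * c2 * C0 + 3) (2 * c3 * C0 + 3)
    ((Maj M H ((R ^ 60) ^ C0)).card : ℝ) ((Maj M H ((R ^ c2) ^ C0)).card : ℝ)
    ((Maj M H ((R ^ c3) ^ C0)).card : ℝ) (U4 f) (BX 1 A f ^ 8) ((A' : ℝ) / A)
    (Nat.cast_nonneg _) (Nat.cast_nonneg _) (U4_nonneg f) hm1 hm2 hm3 (by positivity) hη hX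
    (by rw [ep, eq3]; exact main)
  rwa [eC] at fin

theorem conc : ∃ C : ℕ, ∀ (R H M A : ℕ) [Fact M.Prime], 2 ≤ R → R ^ C ≤ H → A ≤ H → H ≤ R * A → H ^ 2 ≤ M →
    M ≤ R * H ^ 2 → ∀ κ : ZMod M, κ ≠ 0 → ∀ f : ZMod M → ℂ, Bd f → 1 / (R : ℝ) ≤ BX κ A f →
    1 / (R : ℝ) ^ C ≤ U4 f := by
  obtain ⟨C, hC⟩ := conc_one_dir
  refine ⟨C, ?_⟩
  intro R H M A hM hR hRH hAH hHA hHM hMR κ hκ f hf hBX
  rw [BX_scale M A κ hκ f] at hBX
  have := hC R H M A hR hRH hAH hHA hHM hMR (fun x => f (κ * x)) (fun x => hf _) hBX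
  rwa [U4_scale M κ hκ f] at this

end Pool.Agent.NLT
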