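import Pool.Agent.Lib.NLT.BasicT

/-!
# Module DensB: bad pairs are rare

PROOF. The indicator of `not (A ≤ K |b1| ∧ gcd b1 b2 ≤ K)` is at most
`1[K |b1| < A] + ∑ g ∈ (K, A), 1[b1 ≠ 0, g ∣ b1] * 1[g ∣ b2]` (if `K |b1| ≥ A` then `b1 ≠ 0`, and `g = gcd b1 b2 > K` divides
both and is `≤ |b1| < A`; `dv` only sees `|b1|, |b2| < A`). Densities `≤ 1 / A` (`dv_le_sum`):
`dv 1[K |b| < A] ≤ (2 A / K + 1) / A ≤ 3 / K`; `dv 1[b ≠ 0, g ∣ b] ≤ (2 A / g) / A = 2 / g` (count `0 < |b| < A`),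
`dv 1[g ∣ b] ≤ (2 A / g + 1) / A ≤ 3 / g`; `∑ g > K, 6 / g^2 ≤ 6 / K` (telescoping `1 / (g - 1) - 1 / g`).
-/

set_option autoImplicit false

open Finset

namespace Pool.Agent.NLT

open Pool.Agent.HLT

namespace DensBAux

theorem dv_zero (A : ℕ) : dv A (fun _ => (0 : ℝ)) = 0 := by
  simp [dv]

theorem dv_sum (A : ℕ) (S : Finset ℕ) (F : ℕ → ℤ → ℝ) :
    dv A (fun k => ∑ g ∈ S, F g k) = ∑ g ∈ S, dv A (F g) := by
  classical
  induction S using Finset.induction_on with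
  | empty => simp [dv_zero]
  | insert g S hg ih =>
    rw [sum_insert hg, ← ih, ← dv_add]
    congr 1
    funext k
    rw [sum_insert hg]

theorem dv_mul_right (A : ℕ) (F : ℤ → ℝ) (c : ℝ) : dv A (fun k => F k * c) = dv A F * c := by
  have h := dv_mul_left A c F
  rw [mul_comm (dv A F) c, ← h]
  congr 1
  funext k
  ring

/-- A set of integers contained in the multiples of `g`. -/
theorem card_dvd (A g : ℕ) (hg : 1 ≤ g) :
    ((Icc (-(A : ℤ)) A).filter (fun b => (g : ℤ) ∣ b)).card ≤ 2 * (A / g) + 1 := by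
  have hg' : (0 : ℤ) < g := by exact_mod_cast hg
  have h1 : (Icc (-(A : ℤ)) A).filter (fun b => (g : ℤ) ∣ b) ⊆
      (Icc (-((A / g : ℕ) : ℤ)) ((A / g : ℕ) : ℤ)).image (fun k => (g : ℤ) * k) := by
    intro b hb
    rw [mem_filter, mem_Icc] at hb
    obtain ⟨⟨h2, h3⟩, k, rfl⟩ := hb
    rw [mem_image]
    refine ⟨k, ?_, rfl⟩
    rw [mem_Icc, Int.natCast_div]
    constructor
    · rw [neg_le, Int.le_ediv_iff_mul_le hg']
      nlinarith
    · rw [Int.le_ediv_iff_mul_le hg']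
      nlinarith
  refine (card_le_card h1).trans (card_image_le.trans ?_)
  rw [Int.card_Icc]
  omega

theorem card_dvd' (A g : ℕ) (hg : 1 ≤ g) :
    ((Icc (-(A : ℤ)) A).filter (fun b => b ≠ 0 ∧ (g : ℤ) ∣ b)).card ≤ 2 * (A / g) := by
  have h1 : (Icc (-(A : ℤ)) A).filter (fun b => b ≠ 0 ∧ (g : ℤ) ∣ b) =
      ((Icc (-(A : ℤ)) A).filter (fun b => (g : ℤ) ∣ b)).erase 0 := by
    ext b
    simp only [mem_filter, mem_erase]
    tauto
  have h2 : (0 : ℤ) ∈ (Icc (-(A : ℤ)) A).filter (fun b => (g : ℤ) ∣ b) := by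
    rw [mem_filter, mem_Icc]
    refine ⟨⟨by omega, by omega⟩, dvd_zero _⟩
  rw [h1, card_erase_of_mem h2]
  have := card_dvd A g hg
  omega

theorem card_small (A K : ℕ) (hK : 1 ≤ K) :
    ((Icc (-(A : ℤ)) A).filter (fun b => (K : ℤ) * |b| < A)).card ≤ 2 * (A / K) + 1 := by
  have hK' : (0 : ℤ) < K := by exact_mod_cast hK
  have h1 : (Icc (-(A : ℤ)) A).filter (fun b => (K : ℤ) * |b| < A) ⊆
      Icc (-((A / K : ℕ) : ℤ)) ((A / K : ℕ) : ℤ) := by
    intro b hb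
    rw [mem_filter, mem_Icc] at hb
    obtain ⟨⟨h2, h3⟩, h4⟩ := hb
    rw [mem_Icc, ← abs_le, Int.natCast_div, Int.le_ediv_iff_mul_le hK', mul_comm]
    exact h4.le
  refine (card_le_card h1).trans ?_
  rw [Int.card_Icc]
  omega

theorem div_le (A g : ℕ) : ((A / g : ℕ) : ℝ) ≤ (A : ℝ) / g := Nat.cast_div_le

/-- Density of an indicator. -/
theorem dv_ind (A : ℕ) (p : ℤ → Prop) [DecidablePred p] (N : ℕ)
    (h : ((Icc (-(A : ℤ)) A).filter p).card ≤ N) :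
    dv A (fun b => if p b then (1 : ℝ) else 0) ≤ (N : ℝ) / A := by
  refine (dv_le_sum A (fun i => by split <;> norm_num)).trans ?_
  rw [sum_boole]
  refine div_le_div_of_nonneg_right ?_ (Nat.cast_nonneg A)
  exact_mod_cast h

theorem dv_small (A K : ℕ) (hK : 1 ≤ K) (hKA : K ≤ A) :
    dv A (fun b => if (K : ℤ) * |b| < A then (1 : ℝ) else 0) ≤ 3 / (K : ℝ) := by
  have hA : (0 : ℝ) < A := by exact_mod_cast lt_of_lt_of_le hK hKA
  have hK0 : (0 : ℝ) < K := by exact_mod_cast hK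
  have hKA' : (K : ℝ) ≤ A := by exact_mod_cast hKA
  refine (dv_ind A _ _ (card_small A K hK)).trans ?_
  have h1 := div_le A K
  rw [div_le_div_iff₀ hA hK0]
  push_cast
  have h2 : (A : ℝ) / K * K = A := div_mul_cancel₀ _ hK0.ne'
  nlinarith

theorem dv_dvd' (A g : ℕ) (hg : 1 ≤ g) (hA : 1 ≤ A) :
    dv A (fun b => if b ≠ 0 ∧ (g : ℤ) ∣ b then (1 : ℝ) else 0) ≤ 2 / (g : ℝ) := by
  have hA' : (0 : ℝ) < A := by exact_mod_cast hA
  have hg0 : (0 : ℝ) < g := by exact_mod_cast hg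
  refine (dv_ind A _ _ (card_dvd' A g hg)).trans ?_
  have h1 := div_le A g
  rw [div_le_div_iff₀ hA' hg0]
  push_cast
  have h2 : (A : ℝ) / g * g = A := div_mul_cancel₀ _ hg0.ne'
  nlinarith

theorem dv_dvd (A g : ℕ) (hg : 1 ≤ g) (hgA : g ≤ A) :
    dv A (fun b => if (g : ℤ) ∣ b then (1 : ℝ) else 0) ≤ 3 / (g : ℝ) := by
  have hA' : (0 : ℝ) < A := by exact_mod_cast lt_of_lt_of_le hg hgA
  have hg0 : (0 : ℝ) < g := by exact_mod_cast hg
  have hgA' : (g : ℝ) ≤ A := by exact_mod_cast hgA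
  refine (dv_ind A _ _ (card_dvd A g hg)).trans ?_
  have h1 := div_le A g
  rw [div_le_div_iff₀ hA' hg0]
  push_cast
  have h2 : (A : ℝ) / g * g = A := div_mul_cancel₀ _ hg0.ne'
  nlinarith

theorem tail (K : ℕ) (hK : 1 ≤ K) (n : ℕ) :
    ∑ g ∈ Ioc K (K + n), 6 / ((g : ℝ) ^ 2) ≤ 6 / (K : ℝ) - 6 / ((K + n : ℕ) : ℝ) := by
  induction n with
  | zero => simp
  | succ n ih =>
    have h1 : Ioc K (K + (n + 1)) = insert (K + n + 1) (Ioc K (K + n)) := by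
      ext x
      simp only [mem_Ioc, mem_insert]
      omega
    rw [h1, sum_insert (by simp)]
    have hx : (0 : ℝ) < ((K + n : ℕ) : ℝ) := by
      have : 0 < K + n := by omega
      exact_mod_cast this
    have h2 : 6 / (((K + n + 1 : ℕ) : ℝ) ^ 2) ≤
        6 / ((K + n : ℕ) : ℝ) - 6 / ((K + n + 1 : ℕ) : ℝ) := by
      have e : ((K + n + 1 : ℕ) : ℝ) = ((K + n : ℕ) : ℝ) + 1 := by push_cast; ring
      rw [e]
      set y := ((K + n : ℕ) : ℝ)
      rw [div_sub_div _ _ hx.ne' (by positivity), div_le_div_iff₀ (by positivity) (by positivity)]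
      nlinarith [sq_nonneg y]
    have e2 : K + (n + 1) = K + n + 1 := rfl
    rw [e2]
    linarith

theorem tail' (K A : ℕ) (hK : 1 ≤ K) :
    ∑ g ∈ Ioo K A, 6 / ((g : ℝ) ^ 2) ≤ 6 / (K : ℝ) := by
  have h1 : Ioo K A ⊆ Ioc K (K + A) := by
    intro x hx
    rw [mem_Ioo] at hx
    rw [mem_Ioc]
    omega
  refine (sum_le_sum_of_subset_of_nonneg h1 fun g _ _ => by positivity).trans ?_
  have h2 := tail K hK A
  have h3 : (0 : ℝ) ≤ 6 / ((K + A : ℕ) : ℝ) := by positivity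
  linarith

end DensBAux

open DensBAux in
theorem dens_bad (A K : ℕ) (hK : 1 ≤ K) (hKA : K ≤ A) :
    dv A (fun b1 => dv A (fun b2 => if (A : ℤ) ≤ K * |b1| ∧ Int.gcd b1 b2 ≤ K then 0 else 1)) ≤
      9 / (K : ℝ) := by
  have hA : 1 ≤ A := hK.trans hKA
  have key : ∀ b1 : ℤ, |b1| < A → ∀ b2 : ℤ, |b2| < A →
      (if (A : ℤ) ≤ K * |b1| ∧ Int.gcd b1 b2 ≤ K then (0 : ℝ) else 1) ≤
      (if (K : ℤ) * |b1| < A then 1 else 0) + ∑ g ∈ Ioo K A,
        (if b1 ≠ 0 ∧ (g : ℤ) ∣ b1 then (1 : ℝ) else 0) * (if (g : ℤ) ∣ b2 then 1 else 0) := by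
    intro b1 hb1 b2 _
    have hs : 0 ≤ ∑ g ∈ Ioo K A,
        (if b1 ≠ 0 ∧ (g : ℤ) ∣ b1 then (1 : ℝ) else 0) * (if (g : ℤ) ∣ b2 then 1 else 0) :=
      sum_nonneg fun g _ => mul_nonneg (by split <;> norm_num) (by split <;> norm_num)
    split
    · exact add_nonneg (by split <;> norm_num) hs
    · rename_i h
      by_cases h1 : (K : ℤ) * |b1| < A
      · rw [if_pos h1]
        linarith
      · rw [if_neg h1, zero_add]
        rw [not_lt] at h1
        have h2 : K < Int.gcd b1 b2 := by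
          by_contra hcon
          exact h ⟨h1, not_lt.1 hcon⟩
        have hb0 : b1 ≠ 0 := by
          rintro rfl
          rw [abs_zero, mul_zero] at h1
          have : (1 : ℤ) ≤ A := by exact_mod_cast hA
          omega
        have h3 : ((Int.gcd b1 b2 : ℕ) : ℤ) ∣ b1 := Int.gcd_dvd_left ..
        have h4 : ((Int.gcd b1 b2 : ℕ) : ℤ) ∣ b2 := Int.gcd_dvd_right ..
        have h5 : ((Int.gcd b1 b2 : ℕ) : ℤ) ≤ |b1| :=
          Int.le_of_dvd (abs_pos.2 hb0) ((dvd_abs _ _).2 h3)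
        have h6 : Int.gcd b1 b2 ∈ Ioo K A := by
          rw [mem_Ioo]
          refine ⟨h2, ?_⟩
          have := h5.trans_lt hb1
          exact_mod_cast this
        have h7 : (if b1 ≠ 0 ∧ ((Int.gcd b1 b2 : ℕ) : ℤ) ∣ b1 then (1 : ℝ) else 0) *
            (if ((Int.gcd b1 b2 : ℕ) : ℤ) ∣ b2 then 1 else 0) = 1 := by
          rw [if_pos ⟨hb0, h3⟩, if_pos h4, mul_one]
        refine (le_of_eq h7.symm).trans ?_
        exact single_le_sum (f := fun g : ℕ => (if b1 ≠ 0 ∧ (g : ℤ) ∣ b1 then (1 : ℝ) else 0) *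
          (if (g : ℤ) ∣ b2 then 1 else 0))
          (fun g _ => mul_nonneg (by split <;> norm_num) (by split <;> norm_num)) h6
  have h1 : dv A (fun b1 => dv A (fun b2 =>
      if (A : ℤ) ≤ K * |b1| ∧ Int.gcd b1 b2 ≤ K then (0 : ℝ) else 1)) ≤
      dv A (fun b1 => (if (K : ℤ) * |b1| < A then (1 : ℝ) else 0) + ∑ g ∈ Ioo K A,
        (if b1 ≠ 0 ∧ (g : ℤ) ∣ b1 then (1 : ℝ) else 0) *
          dv A (fun b2 => if (g : ℤ) ∣ b2 then (1 : ℝ) else 0)) := by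
    refine dv_mono A fun b1 hb1 => ?_
    refine (dv_mono A (key b1 hb1)).trans (le_of_eq ?_)
    rw [dv_add, dv_const A hA, dv_sum]
    congr 1
    refine sum_congr rfl fun g _ => ?_
    rw [dv_mul_left]
  refine h1.trans ?_
  rw [dv_add, dv_sum]
  have h2 : ∑ g ∈ Ioo K A, dv A (fun b1 => (if b1 ≠ 0 ∧ (g : ℤ) ∣ b1 then (1 : ℝ) else 0) *
      dv A (fun b2 => if (g : ℤ) ∣ b2 then (1 : ℝ) else 0)) ≤ ∑ g ∈ Ioo K A, 6 / ((g : ℝ) ^ 2) := by
    refine sum_le_sum fun g hg => ?_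
    rw [mem_Ioo] at hg
    have hg1 : 1 ≤ g := by omega
    have hg0 : (0 : ℝ) < g := by exact_mod_cast hg1
    rw [dv_mul_right]
    have h3 := dv_dvd' A g hg1 hA
    have h4 := dv_dvd A g hg1 hg.2.le
    have h5 : 0 ≤ dv A (fun b2 => if (g : ℤ) ∣ b2 then (1 : ℝ) else 0) :=
      dv_nonneg A fun k => by split <;> norm_num
    refine (mul_le_mul h3 h4 h5 (by positivity)).trans (le_of_eq ?_)
    field_simp
    norm_num
  have h3 := dv_small A K hK hKA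
  have h4 := tail' K A hK
  have h5 : 9 / (K : ℝ) = 3 / K + 6 / K := by ring
  rw [h5]
  linarith

end Pool.Agent.NLT
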