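import Pool.Agent.Lib.NLT.DensA
import Pool.Agent.Lib.NLT.DensB

/-!
# Module Dens: the joint distribution of `(α + b1, α + b2, b2 l2 - b1 l1)`

PROOF. Reorder (`dv_comm`) to `dv_b1 dv_b2 dv_l1 dv_l2`. For good `(b1, b2)` (`A ≤ K |b1|`, `gcd b1 b2 ≤ K`) the inner average is
at most `15 K^2 R avr_d Φ (α + b1) (α + b2) d` (`dens_good`), for bad pairs at most `1`. So the left side is at most
`dv_b1 dv_b2 (15 K^2 R avr Φ (α + b1) (α + b2)) + dv_b1 dv_b2 1[bad]`, the second term is `≤ 9 / K` (`dens_bad`), and by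
`dv_le_sum` twice and `|α + b| ≤ 2 A` (the terms are `≥ 0`; shift the summation variable) the first term is at most
`15 K^2 R (∑ γ ∑ γ' avr Φ γ γ') / A^2`.
-/

set_option autoImplicit false

open Finset

namespace Pool.Agent.NLT

open Pool.Agent.HLT

namespace DensAux


/-- average of `F (j - i)` over `i, j < A` -/
noncomputable def dv (A : ℕ) (F : ℤ → ℝ) : ℝ :=
  (1 / (A : ℝ) ^ 2) * ∑ i ∈ range A, ∑ j ∈ range A, F ((j : ℤ) - i)

lemma dv_mono (A : ℕ) {F G : ℤ → ℝ} (h : ∀ k : ℤ, |k| < A → F k ≤ G k) : dv A F ≤ dv A G := by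
  unfold dv
  apply mul_le_mul_of_nonneg_left _ (by positivity)
  apply sum_le_sum; intro i hi
  apply sum_le_sum; intro j hj
  apply h
  rw [mem_range] at hi hj
  rw [abs_lt]; constructor <;> omega

lemma dv_add (A : ℕ) (F G : ℤ → ℝ) : dv A (fun k => F k + G k) = dv A F + dv A G := by
  unfold dv
  rw [← mul_add, ← sum_add_distrib]
  congr 1
  apply sum_congr rfl; intro i _
  rw [← sum_add_distrib]

lemma dv_const_mul (A : ℕ) (c : ℝ) (F : ℤ → ℝ) : dv A (fun k => c * F k) = c * dv A F := by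
  unfold dv
  have : ∑ i ∈ range A, ∑ j ∈ range A, c * F ((j : ℤ) - i)
      = c * ∑ i ∈ range A, ∑ j ∈ range A, F ((j : ℤ) - i) := by
    rw [mul_sum]; apply sum_congr rfl; intro i _; rw [mul_sum]
  rw [this]; ring

lemma dv_const (A : ℕ) (hA : 1 ≤ A) (c : ℝ) : dv A (fun _ => c) = c := by
  unfold dv
  have : (A : ℝ) ≠ 0 := by positivity
  simp only [sum_const, card_range, nsmul_eq_mul]
  field_simp

lemma dv_nonneg (A : ℕ) {F : ℤ → ℝ} (h : ∀ k : ℤ, |k| < A → 0 ≤ F k) : 0 ≤ dv A F := by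
  unfold dv
  apply mul_nonneg (by positivity)
  apply sum_nonneg; intro i hi
  apply sum_nonneg; intro j hj
  apply h
  rw [mem_range] at hi hj
  rw [abs_lt]; constructor <;> omega

/-- density of the differences is at most `1 / A` -/
lemma dv_le_sum (A : ℕ) {F : ℤ → ℝ} (h : ∀ k : ℤ, |k| < A → 0 ≤ F k) :
    dv A F ≤ (1 / (A : ℝ)) * ∑ k ∈ Ioo (-(A : ℤ)) A, F k := by
  unfold dv
  rcases Nat.eq_zero_or_pos A with rfl | hA
  · simp
  have hA0 : (0 : ℝ) < A := by exact_mod_cast hA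
  have h1 : ∀ i ∈ range A, ∑ j ∈ range A, F ((j : ℤ) - i) ≤ ∑ k ∈ Ioo (-(A : ℤ)) A, F k := by
    intro i hi
    rw [mem_range] at hi
    have h2 : ∑ j ∈ range A, F ((j : ℤ) - i)
        = ∑ k ∈ (range A).image (fun j : ℕ => (j : ℤ) - i), F k := by
      rw [sum_image]
      intro x _ y _ hxy
      simp only at hxy
      omega
    rw [h2]
    apply sum_le_sum_of_subset_of_nonneg
    · intro k hk
      rw [mem_image] at hk
      obtain ⟨j, hj, rfl⟩ := hk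
      rw [mem_range] at hj
      rw [mem_Ioo]; constructor <;> omega
    · intro k hk _
      apply h
      rw [mem_Ioo] at hk
      rw [abs_lt]; exact hk
  have h3 : ∑ i ∈ range A, ∑ j ∈ range A, F ((j : ℤ) - i)
      ≤ A * ∑ k ∈ Ioo (-(A : ℤ)) A, F k := by
    calc _ ≤ ∑ _i ∈ range A, ∑ k ∈ Ioo (-(A : ℤ)) A, F k := sum_le_sum h1
      _ = _ := by rw [sum_const, card_range, nsmul_eq_mul]
  calc _ ≤ (1 / (A : ℝ) ^ 2) * (A * ∑ k ∈ Ioo (-(A : ℤ)) A, F k) :=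
        mul_le_mul_of_nonneg_left h3 (by positivity)
    _ = _ := by field_simp

lemma card_le_of_diff' (F : Finset ℤ) (D : ℝ)
    (h : ∀ k ∈ F, ∀ k' ∈ F, (k : ℝ) - k' ≤ D) : F.card ≤ ⌊D⌋₊ + 1 := by
  classical
  rcases F.eq_empty_or_nonempty with rfl | hne
  · simp
  · have hD : 0 ≤ D := by
      obtain ⟨k, hk⟩ := hne
      simpa using h k hk k hk
    set k0 := F.min' hne with hk0
    have hsub : F ⊆ Finset.Icc k0 (k0 + (⌊D⌋₊ : ℤ)) := by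
      intro k hk
      rw [Finset.mem_Icc]
      refine ⟨F.min'_le k hk, ?_⟩
      have h1 := h k hk k0 (F.min'_mem hne)
      have h2 : (k - k0 : ℤ) ≤ ⌊D⌋ := by
        rw [Int.le_floor]; push_cast; exact h1
      have h3 : ((⌊D⌋₊ : ℕ) : ℤ) = ⌊D⌋ := Int.natCast_floor_eq_floor hD
      omega
    calc F.card ≤ (Finset.Icc k0 (k0 + (⌊D⌋₊ : ℤ))).card := Finset.card_le_card hsub
      _ = ⌊D⌋₊ + 1 := by
        rw [Int.card_Icc]; omega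

/-- a finite set in one class mod `m` and of diameter at most `D m` -/
lemma card_cong (F : Finset ℤ) (m : ℤ) (hm : 0 < m) (D : ℝ)
    (h : ∀ x ∈ F, ∀ y ∈ F, m ∣ x - y ∧ ((x : ℝ) - y) ≤ D * m) : F.card ≤ ⌊D⌋₊ + 1 := by
  classical
  have hrel : ∀ x ∈ F, ∀ y ∈ F, x - y = m * (x / m - y / m) := by
    intro x hx y hy
    have h1 := (h x hx y hy).1
    have h2 : x % m = y % m := (Int.modEq_iff_dvd.mpr h1).symm
    have h3 := Int.emod_add_mul_ediv x m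
    have h4 := Int.emod_add_mul_ediv y m
    linear_combination h4 - h3 + h2
  have hcard : F.card = (F.image (fun x => x / m)).card := by
    rw [card_image_of_injOn]
    intro x hx y hy hxy
    have h1 := hrel x hx y hy
    simp only at hxy
    rw [hxy, sub_self, mul_zero] at h1
    omega
  rw [hcard]
  apply card_le_of_diff'
  intro k hk k' hk'
  rw [mem_image] at hk hk'
  obtain ⟨x, hx, rfl⟩ := hk
  obtain ⟨y, hy, rfl⟩ := hk'
  have h1 := hrel x hx y hy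
  have h2 := (h x hx y hy).2
  have h3 : (x : ℝ) - y = m * (((x / m : ℤ) : ℝ) - ((y / m : ℤ) : ℝ)) := by exact_mod_cast h1
  have hm' : (0 : ℝ) < m := by exact_mod_cast hm
  rw [h3, mul_comm D] at h2
  exact le_of_mul_le_mul_left h2 hm'

/-- solutions of `b2 l2 - b1 l1 = δ` in the box -/
lemma card_sol (A : ℕ) (K : ℝ) (hK : 1 ≤ K) (b1 b2 δ : ℤ) (hb : b1 ≠ 0)
    (hb1 : (A : ℝ) / K ≤ |(b1 : ℝ)|) (hg : ((Int.gcd b1 b2 : ℕ) : ℝ) ≤ K) :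
    ((((Ioo (-(A : ℤ)) A) ×ˢ (Ioo (-(A : ℤ)) A)).filter
      (fun p : ℤ × ℤ => b2 * p.2 - b1 * p.1 = δ)).card : ℝ) ≤ 2 * K ^ 2 + 1 := by
  classical
  set S := ((Ioo (-(A : ℤ)) A) ×ˢ (Ioo (-(A : ℤ)) A)).filter
      (fun p : ℤ × ℤ => b2 * p.2 - b1 * p.1 = δ) with hS
  have hK0 : 0 < K := by linarith
  set g : ℤ := (Int.gcd b1 b2 : ℤ) with hgdef
  have hgpos : 0 < g := by
    have : Int.gcd b1 b2 ≠ 0 := by
      intro h0
      rw [Int.gcd_eq_zero_iff] at h0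
      exact hb h0.1
    omega
  obtain ⟨c1, hc1⟩ : g ∣ b1 := Int.gcd_dvd_left b1 b2
  obtain ⟨c2, hc2⟩ : g ∣ b2 := Int.gcd_dvd_right b1 b2
  have hcop : IsCoprime c1 c2 := by
    rw [Int.isCoprime_iff_gcd_eq_one]
    have h1 : Int.gcd b1 b2 = Int.gcd b1 b2 * Int.gcd c1 c2 := by
      have : Int.gcd (g * c1) (g * c2) = g.natAbs * Int.gcd c1 c2 := Int.gcd_mul_left g c1 c2
      rw [← hc1, ← hc2] at this
      rw [this]
      have : g.natAbs = Int.gcd b1 b2 := by rw [hgdef]; simp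
      rw [this]
      -- gcd = gcd * gcd c1 c2
      have h2 : Int.gcd b1 b2 * Int.gcd c1 c2 = Int.gcd b1 b2 := by
        have h3 : Int.gcd (g * c1) (g * c2) = g.natAbs * Int.gcd c1 c2 := Int.gcd_mul_left g c1 c2
        rw [← hc1, ← hc2, this] at h3
        exact h3.symm
      rw [h2, h2]
    have h4 : Int.gcd b1 b2 ≠ 0 := by omega
    have h5 : Int.gcd b1 b2 * 1 = Int.gcd b1 b2 * Int.gcd c1 c2 := by rw [mul_one]; exact h1
    exact (Nat.eq_of_mul_eq_mul_left (Nat.pos_of_ne_zero h4) h5).symm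
  have hc1ne : c1 ≠ 0 := by rintro rfl; apply hb; rw [hc1]; ring
  -- injection to the second coordinate
  have hcard : S.card = (S.image Prod.snd).card := by
    rw [card_image_of_injOn]
    rintro ⟨x1, x2⟩ hx ⟨y1, y2⟩ hy hxy
    simp only [hS, coe_filter, Set.mem_ofPred_eq] at hx hy
    simp only at hxy
    subst hxy
    have : b1 * x1 = b1 * y1 := by linarith [hx.2, hy.2]
    have := mul_left_cancel₀ hb this
    rw [this]
  rw [hcard]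
  have hK2 : (⌊2 * K ^ 2⌋₊ : ℝ) ≤ 2 * K ^ 2 := Nat.floor_le (by positivity)
  have hmain : (S.image Prod.snd).card ≤ ⌊2 * K ^ 2⌋₊ + 1 := by
    apply card_cong _ |c1| (by positivity)
    intro x hx y hy
    rw [mem_image] at hx hy
    obtain ⟨⟨x1, x2⟩, hx, rfl⟩ := hx
    obtain ⟨⟨y1, y2⟩, hy, rfl⟩ := hy
    rw [hS, mem_filter, mem_product, mem_Ioo, mem_Ioo] at hx hy
    simp only at hx hy ⊢
    constructor
    · rw [abs_dvd]
      have h1 : c2 * (x2 - y2) = c1 * (x1 - y1) := by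
        have h2 : b2 * x2 - b1 * x1 = b2 * y2 - b1 * y1 := hx.2.trans hy.2.symm
        rw [hc1, hc2] at h2
        have h3 : g * (c2 * (x2 - y2)) = g * (c1 * (x1 - y1)) := by linear_combination h2
        exact mul_left_cancel₀ hgpos.ne' h3
      exact hcop.dvd_of_dvd_mul_left ⟨_, h1⟩
    · have h1 : ((x2 : ℤ) : ℝ) < A := by exact_mod_cast hx.1.2.2
      have h2 : (-(A : ℝ)) < ((y2 : ℤ) : ℝ) := by exact_mod_cast hy.1.2.1
      have h3 : |(b1 : ℝ)| = (g : ℝ) * |(c1 : ℝ)| := by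
        rw [hc1]; push_cast
        rw [abs_mul, abs_of_pos (by exact_mod_cast hgpos : (0 : ℝ) < g)]
      have h4 : (g : ℝ) ≤ K := by
        rw [hgdef]; exact_mod_cast hg
      have h5 : (A : ℝ) / K ≤ K * |(c1 : ℝ)| := by
        calc (A : ℝ) / K ≤ |(b1 : ℝ)| := hb1
          _ = (g : ℝ) * |(c1 : ℝ)| := h3
          _ ≤ K * |(c1 : ℝ)| := mul_le_mul_of_nonneg_right h4 (abs_nonneg _)
      rw [div_le_iff₀ hK0] at h5
      push_cast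
      nlinarith
  calc ((S.image Prod.snd).card : ℝ) ≤ ((⌊2 * K ^ 2⌋₊ + 1 : ℕ) : ℝ) := by exact_mod_cast hmain
    _ = (⌊2 * K ^ 2⌋₊ : ℝ) + 1 := by push_cast; ring
    _ ≤ _ := by linarith

/-- solutions of `b2 l2 - b1 l1 = d` mod `M` in the box -/
lemma card_sol_mod (A M : ℕ) (hA : 1 ≤ A) (hM : A ^ 2 ≤ M) (K : ℝ) (hK : 1 ≤ K) (b1 b2 : ℤ)
    (hb : b1 ≠ 0) (hA1 : |b1| < A) (hA2 : |b2| < A)
    (hb1 : (A : ℝ) / K ≤ |(b1 : ℝ)|) (hg : ((Int.gcd b1 b2 : ℕ) : ℝ) ≤ K) (d : ZMod M) :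
    ((((Ioo (-(A : ℤ)) A) ×ˢ (Ioo (-(A : ℤ)) A)).filter
      (fun p : ℤ × ℤ => ((b2 * p.2 - b1 * p.1 : ℤ) : ZMod M) = d)).card : ℝ)
      ≤ 5 * (2 * K ^ 2 + 1) := by
  classical
  set S := ((Ioo (-(A : ℤ)) A) ×ˢ (Ioo (-(A : ℤ)) A)).filter
      (fun p : ℤ × ℤ => ((b2 * p.2 - b1 * p.1 : ℤ) : ZMod M) = d) with hS
  set f : ℤ × ℤ → ℤ := fun p => b2 * p.2 - b1 * p.1 with hf
  have hMpos : 0 < M := lt_of_lt_of_le (by positivity) hM
  have himg : (S.image f).card ≤ 5 := by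
    have : (S.image f).card ≤ ⌊(4 : ℝ)⌋₊ + 1 := by
      apply card_cong _ (M : ℤ) (by exact_mod_cast hMpos)
      intro x hx y hy
      rw [mem_image] at hx hy
      obtain ⟨⟨x1, x2⟩, hx, rfl⟩ := hx
      obtain ⟨⟨y1, y2⟩, hy, rfl⟩ := hy
      rw [hS, mem_filter, mem_product, mem_Ioo, mem_Ioo] at hx hy
      simp only [hf] at hx hy ⊢
      constructor
      · rw [← ZMod.intCast_zmod_eq_zero_iff_dvd, Int.cast_sub, hx.2, hy.2, sub_self]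
      · have key : ∀ l1 l2 : ℤ, (-(A : ℤ) < l1 ∧ l1 < A) → (-(A : ℤ) < l2 ∧ l2 < A) →
            |((b2 * l2 - b1 * l1 : ℤ) : ℝ)| ≤ 2 * (A : ℝ) ^ 2 := by
          intro l1 l2 h1 h2
          have e1 : |((l1 : ℤ) : ℝ)| ≤ A := by
            rw [abs_le]; constructor
            · have := h1.1.le; exact_mod_cast this
            · have := h1.2.le; exact_mod_cast this
          have e2 : |((l2 : ℤ) : ℝ)| ≤ A := by
            rw [abs_le]; constructor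
            · have := h2.1.le; exact_mod_cast this
            · have := h2.2.le; exact_mod_cast this
          have e3 : |((b1 : ℤ) : ℝ)| ≤ A := by
            have := hA1.le
            have h' : ((|b1| : ℤ) : ℝ) ≤ ((A : ℤ) : ℝ) := by exact_mod_cast this
            rw [Int.cast_abs] at h'; exact_mod_cast h'
          have e4 : |((b2 : ℤ) : ℝ)| ≤ A := by
            have := hA2.le
            have h' : ((|b2| : ℤ) : ℝ) ≤ ((A : ℤ) : ℝ) := by exact_mod_cast this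
            rw [Int.cast_abs] at h'; exact_mod_cast h'
          push_cast
          calc |(b2 : ℝ) * l2 - b1 * l1| ≤ |(b2 : ℝ) * l2| + |(b1 : ℝ) * l1| := abs_sub _ _
            _ = |(b2 : ℝ)| * |(l2 : ℝ)| + |(b1 : ℝ)| * |(l1 : ℝ)| := by rw [abs_mul, abs_mul]
            _ ≤ A * A + A * A := by
              gcongr
            _ = _ := by ring
        have h1 := key x1 x2 hx.1.1 hx.1.2
        have h2 := key y1 y2 hy.1.1 hy.1.2
        rw [abs_le] at h1 h2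
        have h3 : (A : ℝ) ^ 2 ≤ M := by exact_mod_cast hM
        push_cast at h1 h2 ⊢
        linarith [h1.2, h2.1]
    simpa using this
  have h1 : S.card = ∑ δ ∈ S.image f, (S.filter (fun p => f p = δ)).card :=
    card_eq_sum_card_image f S
  have h2 : ∀ δ ∈ S.image f, ((S.filter (fun p => f p = δ)).card : ℝ) ≤ 2 * K ^ 2 + 1 := by
    intro δ _
    refine le_trans ?_ (card_sol A K hK b1 b2 δ hb hb1 hg)
    have : S.filter (fun p => f p = δ) ⊆ ((Ioo (-(A : ℤ)) A) ×ˢ (Ioo (-(A : ℤ)) A)).filter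
      (fun p : ℤ × ℤ => b2 * p.2 - b1 * p.1 = δ) := by
      intro p hp
      rw [mem_filter, hS, mem_filter] at hp
      rw [mem_filter]
      exact ⟨hp.1.1, hp.2⟩
    exact_mod_cast card_le_card this
  calc (S.card : ℝ) = ∑ δ ∈ S.image f, ((S.filter (fun p => f p = δ)).card : ℝ) := by
        rw [h1]; push_cast; rfl
    _ ≤ ∑ _δ ∈ S.image f, (2 * K ^ 2 + 1) := sum_le_sum h2
    _ = ((S.image f).card : ℝ) * (2 * K ^ 2 + 1) := by rw [sum_const, nsmul_eq_mul]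
    _ ≤ 5 * (2 * K ^ 2 + 1) := by
      apply mul_le_mul_of_nonneg_right _ (by positivity)
      exact_mod_cast himg

/-- multiples of `g` in the box -/
lemma card_mult (A g : ℕ) (hg : 1 ≤ g) (hgA : g ≤ A) :
    (((Ioo (-(A : ℤ)) A).filter (fun b : ℤ => (g : ℤ) ∣ b)).card : ℝ) ≤ 3 * A / g := by
  classical
  have hg0 : (0 : ℝ) < g := by exact_mod_cast hg
  have h1 : ((Ioo (-(A : ℤ)) A).filter (fun b : ℤ => (g : ℤ) ∣ b)).card ≤ ⌊2 * (A : ℝ) / g⌋₊ + 1 := by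
    apply card_cong _ (g : ℤ) (by exact_mod_cast hg)
    intro x hx y hy
    rw [mem_filter, mem_Ioo] at hx hy
    refine ⟨dvd_sub hx.2 hy.2, ?_⟩
    have e1 : (x : ℝ) < A := by exact_mod_cast hx.1.2
    have e2 : -(A : ℝ) < y := by exact_mod_cast hy.1.1
    have e3 : 2 * (A : ℝ) / g * ((g : ℤ) : ℝ) = 2 * A := by push_cast; field_simp
    rw [e3]; linarith
  have h2 : (⌊2 * (A : ℝ) / g⌋₊ : ℝ) ≤ 2 * (A : ℝ) / g := Nat.floor_le (by positivity)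
  have h3 : (1 : ℝ) ≤ A / g := by
    rw [le_div_iff₀ hg0]; simpa using (by exact_mod_cast hgA : (g : ℝ) ≤ A)
  calc _ ≤ ((⌊2 * (A : ℝ) / g⌋₊ + 1 : ℕ) : ℝ) := by exact_mod_cast h1
    _ = (⌊2 * (A : ℝ) / g⌋₊ : ℝ) + 1 := by push_cast; ring
    _ ≤ 2 * A / g + A / g := by linarith
    _ = 3 * A / g := by ring

/-- nonzero multiples of `g` in the box -/
lemma card_mult_ne (A g : ℕ) (hg : 1 ≤ g) :
    (((Ioo (-(A : ℤ)) A).filter (fun b : ℤ => b ≠ 0 ∧ (g : ℤ) ∣ b)).card : ℝ) ≤ 2 * A / g := by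
  classical
  have hg0 : (0 : ℝ) < g := by exact_mod_cast hg
  set T := (Ioo (-(A : ℤ)) A).filter (fun b : ℤ => b ≠ 0 ∧ (g : ℤ) ∣ b) with hT
  -- map b to b / g, nonzero of absolute value at most A / g
  have h1 : T.card ≤ ((Icc (-(⌊(A : ℝ) / g⌋₊ : ℤ)) (⌊(A : ℝ) / g⌋₊ : ℤ)).erase 0).card := by
    apply card_le_card_of_injOn (fun b : ℤ => b / g)
    · intro b hb
      simp only [hT, coe_filter, Set.mem_ofPred_eq, mem_Ioo] at hb
      obtain ⟨⟨hb1, hb2⟩, hb0, c, hc⟩ := hb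
      have hgZ : (0 : ℤ) < g := by exact_mod_cast hg
      have hbc : b / g = c := by rw [hc]; exact Int.mul_ediv_cancel_left c hgZ.ne'
      simp only [coe_erase, coe_Icc]
      rw [hbc]
      have hc0 : c ≠ 0 := by rintro rfl; apply hb0; rw [hc]; ring
      have e1 : (c : ℝ) ≤ (A : ℝ) / g := by
        rw [le_div_iff₀ hg0]
        have : (c * g : ℤ) < A := by rw [mul_comm, ← hc]; exact hb2
        have : ((c * g : ℤ) : ℝ) < A := by exact_mod_cast this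
        push_cast at this; linarith
      have e2 : (-c : ℝ) ≤ (A : ℝ) / g := by
        rw [le_div_iff₀ hg0]
        have : (-(A : ℤ)) < c * g := by rw [mul_comm, ← hc]; exact hb1
        have : (-(A : ℝ)) < ((c * g : ℤ) : ℝ) := by exact_mod_cast this
        push_cast at this; linarith
      have hfl : ((⌊(A : ℝ) / g⌋₊ : ℕ) : ℤ) = ⌊(A : ℝ) / g⌋ := Int.natCast_floor_eq_floor (by positivity)
      refine ⟨⟨?_, ?_⟩, hc0⟩
      · have : (-c : ℤ) ≤ ⌊(A : ℝ) / g⌋ := by rw [Int.le_floor]; push_cast; exact e2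
        omega
      · have : (c : ℤ) ≤ ⌊(A : ℝ) / g⌋ := by rw [Int.le_floor]; exact e1
        omega
    · intro x hx y hy hxy
      simp only [hT, coe_filter, Set.mem_ofPred_eq, mem_Ioo] at hx hy
      simp only at hxy
      rw [← Int.ediv_mul_cancel hx.2.2, ← Int.ediv_mul_cancel hy.2.2, hxy]
  have h2 : ((Icc (-(⌊(A : ℝ) / g⌋₊ : ℤ)) (⌊(A : ℝ) / g⌋₊ : ℤ)).erase 0).card
      = 2 * ⌊(A : ℝ) / g⌋₊ := by
    rw [card_erase_of_mem (by rw [mem_Icc]; constructor <;> omega), Int.card_Icc]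
    omega
  rw [h2] at h1
  have h3 : (⌊(A : ℝ) / g⌋₊ : ℝ) ≤ (A : ℝ) / g := Nat.floor_le (by positivity)
  calc (T.card : ℝ) ≤ ((2 * ⌊(A : ℝ) / g⌋₊ : ℕ) : ℝ) := by exact_mod_cast h1
    _ = 2 * (⌊(A : ℝ) / g⌋₊ : ℝ) := by push_cast; ring
    _ ≤ 2 * ((A : ℝ) / g) := by linarith
    _ = _ := by ring

/-- tail of the sum of inverse squares -/
lemma sum_inv_sq (K A : ℕ) (hK : 1 ≤ K) :
    ∑ g ∈ Ioo K A, (1 : ℝ) / (g : ℝ) ^ 2 ≤ 1 / K := by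
  rcases le_or_gt K A with h | h
  · have h1 := sum_Ioc_inv_sq_le_sub (α := ℝ) (k := K) (n := A) (by omega) h
    have h2 : ∑ g ∈ Ioo K A, (1 : ℝ) / (g : ℝ) ^ 2 ≤ ∑ i ∈ Ioc K A, ((i : ℝ) ^ 2)⁻¹ := by
      calc ∑ g ∈ Ioo K A, (1 : ℝ) / (g : ℝ) ^ 2 = ∑ g ∈ Ioo K A, ((g : ℝ) ^ 2)⁻¹ := by
            apply sum_congr rfl; intro g _; rw [one_div]
        _ ≤ _ := sum_le_sum_of_subset_of_nonneg Ioo_subset_Ioc_self (fun _ _ _ => by positivity)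
    have h3 : (0 : ℝ) ≤ (A : ℝ)⁻¹ := by positivity
    rw [one_div]; linarith
  · rw [Ioo_eq_empty (by omega), sum_empty]; positivity

/-- good pairs -/
def Good (A K : ℕ) (b1 b2 : ℤ) : Prop :=
  b1 ≠ 0 ∧ (A : ℝ) / K ≤ |(b1 : ℝ)| ∧ Int.gcd b1 b2 ≤ K

open Classical in
/-- the good part for one pair -/
lemma good_part (A M K : ℕ) [NeZero M] (hK : 1 ≤ K) (hA : 1 ≤ A) (hM : A ^ 2 ≤ M)
    (G : ZMod M → ℝ) (h0 : ∀ d, 0 ≤ G d) (b1 b2 : ℤ) (hA1 : |b1| < A) (hA2 : |b2| < A)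
    (hgood : Good A K b1 b2) :
    ∑ l1 ∈ Ioo (-(A : ℤ)) A, ∑ l2 ∈ Ioo (-(A : ℤ)) A, G ((b2 * l2 - b1 * l1 : ℤ) : ZMod M)
      ≤ 15 * (K : ℝ) ^ 2 * ∑ d, G d := by
  have hK1 : (1 : ℝ) ≤ K := by exact_mod_cast hK
  rw [← sum_product']
  have h1 : ∑ p ∈ (Ioo (-(A : ℤ)) A) ×ˢ (Ioo (-(A : ℤ)) A), G ((b2 * p.2 - b1 * p.1 : ℤ) : ZMod M)
      = ∑ d, ∑ p ∈ ((Ioo (-(A : ℤ)) A) ×ˢ (Ioo (-(A : ℤ)) A)).filter
      (fun p : ℤ × ℤ => ((b2 * p.2 - b1 * p.1 : ℤ) : ZMod M) = d),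
        G ((b2 * p.2 - b1 * p.1 : ℤ) : ZMod M) := by
    rw [sum_fiberwise]
  rw [h1, mul_sum]
  apply sum_le_sum
  intro d _
  have h2 : ∑ p ∈ ((Ioo (-(A : ℤ)) A) ×ˢ (Ioo (-(A : ℤ)) A)).filter
      (fun p : ℤ × ℤ => ((b2 * p.2 - b1 * p.1 : ℤ) : ZMod M) = d),
        G ((b2 * p.2 - b1 * p.1 : ℤ) : ZMod M)
      = ∑ p ∈ ((Ioo (-(A : ℤ)) A) ×ˢ (Ioo (-(A : ℤ)) A)).filter
      (fun p : ℤ × ℤ => ((b2 * p.2 - b1 * p.1 : ℤ) : ZMod M) = d), G d := by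
    apply sum_congr rfl
    intro p hp
    rw [mem_filter] at hp
    rw [hp.2]
  rw [h2, sum_const, nsmul_eq_mul]
  apply mul_le_mul_of_nonneg_right _ (h0 d)
  have h3 := card_sol_mod A M hA hM (K : ℝ) hK1 b1 b2 hgood.1 hA1 hA2 hgood.2.1
    (by exact_mod_cast hgood.2.2) d
  refine h3.trans ?_
  nlinarith

open Classical in
theorem density (A M K : ℕ) [NeZero M] (R' : ℝ) (hK : 1 ≤ K) (hKA : K ≤ A) (hM : A ^ 2 ≤ M)
    (hM' : (M : ℝ) ≤ R' * (A : ℝ) ^ 2) (α : ℤ) (hα : |α| ≤ A)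
    (Φ : ℤ → ℤ → ZMod M → ℝ) (h0 : ∀ a b d, 0 ≤ Φ a b d) (h1 : ∀ a b d, Φ a b d ≤ 1) :
    dv A (fun b1 => dv A (fun l1 => dv A (fun b2 => dv A (fun l2 =>
      Φ (α + b1) (α + b2) ((b2 * l2 - b1 * l1 : ℤ) : ZMod M)))))
    ≤ 15 * (K : ℝ) ^ 2 * R' * ((1 / (A : ℝ) ^ 2) * ∑ γ ∈ Icc (-(2 * A : ℤ)) (2 * A),
        ∑ γ' ∈ Icc (-(2 * A : ℤ)) (2 * A), (1 / (M : ℝ)) * ∑ d : ZMod M, Φ γ γ' d) + 9 / K := by
  have hA : 1 ≤ A := le_trans hK hKA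
  have hA0 : (0 : ℝ) < A := by exact_mod_cast hA
  have hK0 : (0 : ℝ) < K := by exact_mod_cast hK
  have hKA' : (K : ℝ) ≤ A := by exact_mod_cast hKA
  have hM0 : (0 : ℝ) < M := by
    have := NeZero.pos M
    exact_mod_cast this
  set Ψ : ℤ → ℤ → ℤ → ℤ → ℝ := fun b1 l1 b2 l2 =>
    if Good A K b1 b2 then Φ (α + b1) (α + b2) ((b2 * l2 - b1 * l1 : ℤ) : ZMod M) else 0 with hΨ
  set β1 : ℤ → ℝ := fun b1 => if |(b1 : ℝ)| < (A : ℝ) / K then 1 else 0 with hβ1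
  set β2 : ℤ → ℤ → ℝ := fun b1 b2 => ∑ g ∈ Ioo K A,
    (if b1 ≠ 0 ∧ (g : ℤ) ∣ b1 then 1 else 0) * (if (g : ℤ) ∣ b2 then 1 else 0) with hβ2
  have hβ2n : ∀ b1 b2, 0 ≤ β2 b1 b2 := by
    intro b1 b2
    rw [hβ2]
    apply sum_nonneg; intro g _
    apply mul_nonneg <;> split_ifs <;> norm_num
  have hpt : ∀ b1 l1 b2 l2 : ℤ, |b1| < A →
      Φ (α + b1) (α + b2) ((b2 * l2 - b1 * l1 : ℤ) : ZMod M) ≤ Ψ b1 l1 b2 l2 + (β1 b1 + β2 b1 b2) := by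
    intro b1 l1 b2 l2 hb
    by_cases hgood : Good A K b1 b2
    · have e1 : Ψ b1 l1 b2 l2 = Φ (α + b1) (α + b2) ((b2 * l2 - b1 * l1 : ℤ) : ZMod M) := by
        rw [hΨ]; simp only [if_pos hgood]
      have e2 : 0 ≤ β1 b1 := by rw [hβ1]; simp only; split_ifs <;> norm_num
      linarith [hβ2n b1 b2]
    · have e1 : Ψ b1 l1 b2 l2 = 0 := by
        rw [hΨ]; simp only [if_neg hgood]
      have e0 := h1 (α + b1) (α + b2) ((b2 * l2 - b1 * l1 : ℤ) : ZMod M)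
      by_cases hs : |(b1 : ℝ)| < (A : ℝ) / K
      · have e2 : β1 b1 = 1 := by rw [hβ1]; simp only [if_pos hs]
        linarith [hβ2n b1 b2]
      · have e2 : β1 b1 = 0 := by rw [hβ1]; simp only [if_neg hs]
        have hb0 : b1 ≠ 0 := by
          rintro rfl
          apply hs
          simp only [Int.cast_zero, abs_zero]
          positivity
        have hgK : K < Int.gcd b1 b2 := by
          by_contra hc
          exact hgood ⟨hb0, not_lt.mp hs, not_lt.mp hc⟩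
        have hgA : Int.gcd b1 b2 < A := by
          have hd : (Int.gcd b1 b2 : ℤ) ∣ b1 := Int.gcd_dvd_left b1 b2
          have hd2 : (Int.gcd b1 b2 : ℤ) ∣ |b1| := (dvd_abs _ _).mpr hd
          have hd3 := Int.le_of_dvd (abs_pos.mpr hb0) hd2
          omega
        have e3 : 1 ≤ β2 b1 b2 := by
          rw [hβ2]
          refine le_trans ?_ (single_le_sum (f := fun g : ℕ =>
            ((if b1 ≠ 0 ∧ (g : ℤ) ∣ b1 then 1 else 0) * (if (g : ℤ) ∣ b2 then 1 else 0) : ℝ)) ?_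
            (mem_Ioo.mpr ⟨hgK, hgA⟩))
          · rw [if_pos ⟨hb0, Int.gcd_dvd_left b1 b2⟩, if_pos (Int.gcd_dvd_right b1 b2)]
            norm_num
          · intro g _
            apply mul_nonneg <;> split_ifs <;> norm_num
        linarith
  have hstep : dv A (fun b1 => dv A (fun l1 => dv A (fun b2 => dv A (fun l2 =>
      Φ (α + b1) (α + b2) ((b2 * l2 - b1 * l1 : ℤ) : ZMod M)))))
      ≤ dv A (fun b1 => dv A (fun l1 => dv A (fun b2 => dv A (fun l2 => Ψ b1 l1 b2 l2))))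
        + (dv A β1 + dv A (fun b1 => dv A (fun b2 => β2 b1 b2))) := by
    rw [← dv_add, ← dv_add]
    apply dv_mono; intro b1 hb1
    have e1 : dv A (fun l1 => dv A (fun b2 => dv A (fun l2 => Ψ b1 l1 b2 l2)))
        + (β1 b1 + dv A (fun b2 => β2 b1 b2))
        = dv A (fun l1 => dv A (fun b2 => dv A (fun l2 => Ψ b1 l1 b2 l2))
          + (β1 b1 + dv A (fun b2 => β2 b1 b2))) := by
      rw [dv_add, dv_const A hA]
    rw [e1]
    apply dv_mono; intro l1 _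
    have e2 : dv A (fun b2 => dv A (fun l2 => Ψ b1 l1 b2 l2))
          + (β1 b1 + dv A (fun b2 => β2 b1 b2))
        = dv A (fun b2 => dv A (fun l2 => Ψ b1 l1 b2 l2) + (β1 b1 + β2 b1 b2)) := by
      rw [dv_add, dv_add, dv_const A hA]
    rw [e2]
    apply dv_mono; intro b2 _
    have e3 : dv A (fun l2 => Ψ b1 l1 b2 l2) + (β1 b1 + β2 b1 b2)
        = dv A (fun l2 => Ψ b1 l1 b2 l2 + (β1 b1 + β2 b1 b2)) := by
      rw [dv_add, dv_const A hA]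
    rw [e3]
    apply dv_mono; intro l2 _
    exact hpt b1 l1 b2 l2 hb1
  -- bad 1
  have hbad1 : dv A β1 ≤ 3 / K := by
    refine (dv_le_sum A ?_).trans ?_
    · intro k _; rw [hβ1]; simp only; split_ifs <;> norm_num
    have e1 : ∑ k ∈ Ioo (-(A : ℤ)) A, β1 k = (((Ioo (-(A : ℤ)) A).filter
        (fun k : ℤ => |(k : ℝ)| < (A : ℝ) / K)).card : ℝ) := by
      rw [hβ1, ← sum_filter, sum_const, nsmul_eq_mul, mul_one]
    have e2 : ((Ioo (-(A : ℤ)) A).filter (fun k : ℤ => |(k : ℝ)| < (A : ℝ) / K)).card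
        ≤ ⌊2 * ((A : ℝ) / K)⌋₊ + 1 := by
      apply card_le_of_diff'
      intro x hx y hy
      rw [mem_filter, abs_lt] at hx hy
      linarith [hx.2.2, hy.2.1]
    have e3 : (⌊2 * ((A : ℝ) / K)⌋₊ : ℝ) ≤ 2 * ((A : ℝ) / K) := Nat.floor_le (by positivity)
    have e4 : (1 : ℝ) ≤ A / K := by rw [le_div_iff₀ hK0]; linarith
    have e5 : ∑ k ∈ Ioo (-(A : ℤ)) A, β1 k ≤ 3 * ((A : ℝ) / K) := by
      rw [e1]
      calc _ ≤ ((⌊2 * ((A : ℝ) / K)⌋₊ + 1 : ℕ) : ℝ) := by exact_mod_cast e2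
        _ = (⌊2 * ((A : ℝ) / K)⌋₊ : ℝ) + 1 := by push_cast; ring
        _ ≤ _ := by linarith
    calc (1 / (A : ℝ)) * ∑ k ∈ Ioo (-(A : ℤ)) A, β1 k ≤ (1 / (A : ℝ)) * (3 * ((A : ℝ) / K)) :=
          mul_le_mul_of_nonneg_left e5 (by positivity)
      _ = 3 / K := by field_simp
  -- bad 2
  have hbad2 : dv A (fun b1 => dv A (fun b2 => β2 b1 b2)) ≤ 6 / K := by
    have s1 : dv A (fun b1 => dv A (fun b2 => β2 b1 b2)) ≤
        (1 / (A : ℝ)) * ∑ b1 ∈ Ioo (-(A : ℤ)) A, (1 / (A : ℝ)) * ∑ b2 ∈ Ioo (-(A : ℤ)) A, β2 b1 b2 := by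
      refine (dv_le_sum A (fun k _ => dv_nonneg A (fun k' _ => hβ2n k k'))).trans ?_
      apply mul_le_mul_of_nonneg_left _ (by positivity)
      apply sum_le_sum; intro b1 _
      exact dv_le_sum A (fun k' _ => hβ2n b1 k')
    refine s1.trans ?_
    have s2 : ∑ b1 ∈ Ioo (-(A : ℤ)) A, (1 / (A : ℝ)) * ∑ b2 ∈ Ioo (-(A : ℤ)) A, β2 b1 b2
        = (1 / (A : ℝ)) * ∑ g ∈ Ioo K A,
          (((Ioo (-(A : ℤ)) A).filter (fun b : ℤ => b ≠ 0 ∧ (g : ℤ) ∣ b)).card : ℝ)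
          * (((Ioo (-(A : ℤ)) A).filter (fun b : ℤ => (g : ℤ) ∣ b)).card : ℝ) := by
      rw [← mul_sum]
      congr 1
      have : ∀ b1 b2, β2 b1 b2 = ∑ g ∈ Ioo K A,
        (if b1 ≠ 0 ∧ (g : ℤ) ∣ b1 then (1:ℝ) else 0) * (if (g : ℤ) ∣ b2 then (1:ℝ) else 0) := by
        intro b1 b2; rfl
      simp only [this]
      calc ∑ b1 ∈ Ioo (-(A : ℤ)) A, ∑ b2 ∈ Ioo (-(A : ℤ)) A, ∑ g ∈ Ioo K A,
            (if b1 ≠ 0 ∧ (g : ℤ) ∣ b1 then (1:ℝ) else 0) * (if (g : ℤ) ∣ b2 then (1:ℝ) else 0)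
          = ∑ b1 ∈ Ioo (-(A : ℤ)) A, ∑ g ∈ Ioo K A, ∑ b2 ∈ Ioo (-(A : ℤ)) A,
            (if b1 ≠ 0 ∧ (g : ℤ) ∣ b1 then (1:ℝ) else 0) * (if (g : ℤ) ∣ b2 then (1:ℝ) else 0) := by
            apply sum_congr rfl; intro b1 _; rw [sum_comm]
        _ = ∑ g ∈ Ioo K A, ∑ b1 ∈ Ioo (-(A : ℤ)) A, ∑ b2 ∈ Ioo (-(A : ℤ)) A,
            (if b1 ≠ 0 ∧ (g : ℤ) ∣ b1 then (1:ℝ) else 0) * (if (g : ℤ) ∣ b2 then (1:ℝ) else 0) := by
            rw [sum_comm]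
        _ = _ := by
            apply sum_congr rfl; intro g _
            rw [← sum_mul_sum]
            congr 1
            · rw [← sum_filter, sum_const, nsmul_eq_mul, mul_one]
            · rw [← sum_filter, sum_const, nsmul_eq_mul, mul_one]
    rw [s2]
    have s3 : ∑ g ∈ Ioo K A,
          (((Ioo (-(A : ℤ)) A).filter (fun b : ℤ => b ≠ 0 ∧ (g : ℤ) ∣ b)).card : ℝ)
          * (((Ioo (-(A : ℤ)) A).filter (fun b : ℤ => (g : ℤ) ∣ b)).card : ℝ)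
        ≤ ∑ g ∈ Ioo K A, 6 * (A : ℝ) ^ 2 * (1 / (g : ℝ) ^ 2) := by
      apply sum_le_sum
      intro g hg
      rw [mem_Ioo] at hg
      have hg1 : 1 ≤ g := by omega
      have hg0 : (0 : ℝ) < g := by exact_mod_cast hg1
      have t1 := card_mult_ne A g hg1
      have t2 := card_mult A g hg1 hg.2.le
      calc _ ≤ (2 * A / g : ℝ) * (3 * A / g) := mul_le_mul t1 t2 (by positivity) (by positivity)
        _ = _ := by field_simp; ring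
    have s4 := sum_inv_sq K A hK
    calc (1 / (A : ℝ)) * ((1 / (A : ℝ)) * ∑ g ∈ Ioo K A,
          (((Ioo (-(A : ℤ)) A).filter (fun b : ℤ => b ≠ 0 ∧ (g : ℤ) ∣ b)).card : ℝ)
          * (((Ioo (-(A : ℤ)) A).filter (fun b : ℤ => (g : ℤ) ∣ b)).card : ℝ))
        ≤ (1 / (A : ℝ)) * ((1 / (A : ℝ)) * ∑ g ∈ Ioo K A, 6 * (A : ℝ) ^ 2 * (1 / (g : ℝ) ^ 2)) := by
          apply mul_le_mul_of_nonneg_left _ (by positivity)
          exact mul_le_mul_of_nonneg_left s3 (by positivity)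
      _ = 6 * ∑ g ∈ Ioo K A, (1 / (g : ℝ) ^ 2) := by
          rw [← mul_sum]; field_simp
      _ ≤ 6 * (1 / K) := by linarith
      _ = 6 / K := by ring
  -- good part
  have hΨn : ∀ b1 l1 b2 l2, 0 ≤ Ψ b1 l1 b2 l2 := by
    intro b1 l1 b2 l2; rw [hΨ]; simp only; split_ifs
    · exact h0 _ _ _
    · exact le_rfl
  have hgood1 : dv A (fun b1 => dv A (fun l1 => dv A (fun b2 => dv A (fun l2 => Ψ b1 l1 b2 l2))))
      ≤ (1 / (A : ℝ)) * ∑ b1 ∈ Ioo (-(A : ℤ)) A, (1 / (A : ℝ)) * ∑ l1 ∈ Ioo (-(A : ℤ)) A,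
        (1 / (A : ℝ)) * ∑ b2 ∈ Ioo (-(A : ℤ)) A, (1 / (A : ℝ)) * ∑ l2 ∈ Ioo (-(A : ℤ)) A, Ψ b1 l1 b2 l2 := by
    refine (dv_le_sum A (fun b1 _ => dv_nonneg A (fun l1 _ => dv_nonneg A
      (fun b2 _ => dv_nonneg A (fun l2 _ => hΨn b1 l1 b2 l2))))).trans ?_
    apply mul_le_mul_of_nonneg_left _ (by positivity)
    apply sum_le_sum; intro b1 _
    refine (dv_le_sum A (fun l1 _ => dv_nonneg A
      (fun b2 _ => dv_nonneg A (fun l2 _ => hΨn b1 l1 b2 l2)))).trans ?_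
    apply mul_le_mul_of_nonneg_left _ (by positivity)
    apply sum_le_sum; intro l1 _
    refine (dv_le_sum A (fun b2 _ => dv_nonneg A (fun l2 _ => hΨn b1 l1 b2 l2))).trans ?_
    apply mul_le_mul_of_nonneg_left _ (by positivity)
    apply sum_le_sum; intro b2 _
    exact dv_le_sum A (fun l2 _ => hΨn b1 l1 b2 l2)
  have hgood2 : (1 / (A : ℝ)) * ∑ b1 ∈ Ioo (-(A : ℤ)) A, (1 / (A : ℝ)) * ∑ l1 ∈ Ioo (-(A : ℤ)) A,
        (1 / (A : ℝ)) * ∑ b2 ∈ Ioo (-(A : ℤ)) A, (1 / (A : ℝ)) * ∑ l2 ∈ Ioo (-(A : ℤ)) A, Ψ b1 l1 b2 l2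
      = (1 / (A : ℝ) ^ 4) * ∑ b1 ∈ Ioo (-(A : ℤ)) A, ∑ b2 ∈ Ioo (-(A : ℤ)) A,
        ∑ l1 ∈ Ioo (-(A : ℤ)) A, ∑ l2 ∈ Ioo (-(A : ℤ)) A, Ψ b1 l1 b2 l2 := by
    have : ∀ b1, ∑ l1 ∈ Ioo (-(A : ℤ)) A,
        (1 / (A : ℝ)) * ∑ b2 ∈ Ioo (-(A : ℤ)) A, (1 / (A : ℝ)) * ∑ l2 ∈ Ioo (-(A : ℤ)) A, Ψ b1 l1 b2 l2
        = (1 / (A : ℝ)) * ((1 / (A : ℝ)) * ∑ b2 ∈ Ioo (-(A : ℤ)) A,
        ∑ l1 ∈ Ioo (-(A : ℤ)) A, ∑ l2 ∈ Ioo (-(A : ℤ)) A, Ψ b1 l1 b2 l2) := by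
      intro b1
      rw [← mul_sum]
      congr 1
      rw [sum_comm, mul_sum]
      apply sum_congr rfl; intro b2 _
      rw [← mul_sum]
    simp only [this]
    rw [← mul_sum, ← mul_sum, ← mul_sum]
    have hA' : (A : ℝ) ≠ 0 := hA0.ne'
    field_simp
  have hgood3 : ∑ b1 ∈ Ioo (-(A : ℤ)) A, ∑ b2 ∈ Ioo (-(A : ℤ)) A,
        ∑ l1 ∈ Ioo (-(A : ℤ)) A, ∑ l2 ∈ Ioo (-(A : ℤ)) A, Ψ b1 l1 b2 l2
      ≤ ∑ b1 ∈ Ioo (-(A : ℤ)) A, ∑ b2 ∈ Ioo (-(A : ℤ)) A,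
        15 * (K : ℝ) ^ 2 * ∑ d, Φ (α + b1) (α + b2) d := by
    apply sum_le_sum; intro b1 hb1
    apply sum_le_sum; intro b2 hb2
    rw [mem_Ioo] at hb1 hb2
    by_cases hgood : Good A K b1 b2
    · have := good_part A M K hK hA hM (Φ (α + b1) (α + b2)) (h0 _ _) b1 b2
        (abs_lt.mpr hb1) (abs_lt.mpr hb2) hgood
      refine le_trans (le_of_eq ?_) this
      apply sum_congr rfl; intro l1 _
      apply sum_congr rfl; intro l2 _
      rw [hΨ]; simp only [if_pos hgood]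
    · have : ∑ l1 ∈ Ioo (-(A : ℤ)) A, ∑ l2 ∈ Ioo (-(A : ℤ)) A, Ψ b1 l1 b2 l2 = 0 := by
        apply sum_eq_zero; intro l1 _
        apply sum_eq_zero; intro l2 _
        rw [hΨ]; simp only [if_neg hgood]
      rw [this]
      have := sum_nonneg (s := (univ : Finset (ZMod M))) (fun d _ => h0 (α + b1) (α + b2) d)
      positivity
  have hFn : ∀ γ γ', 0 ≤ ∑ d, Φ γ γ' d := fun γ γ' => sum_nonneg (fun d _ => h0 γ γ' d)
  have hshift : ∀ (f : ℤ → ℝ), (∀ k, 0 ≤ f k) →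
      ∑ b ∈ Ioo (-(A : ℤ)) A, f (α + b) ≤ ∑ γ ∈ Icc (-(2 * A : ℤ)) (2 * A), f γ := by
    intro f hf
    have e1 : ∑ b ∈ Ioo (-(A : ℤ)) A, f (α + b) = ∑ γ ∈ (Ioo (-(A : ℤ)) A).image (fun b => α + b), f γ := by
      rw [sum_image]
      intro x _ y _ hxy
      simpa using hxy
    rw [e1]
    apply sum_le_sum_of_subset_of_nonneg
    · intro γ hγ
      rw [mem_image] at hγ
      obtain ⟨b, hb, rfl⟩ := hγ
      rw [mem_Ioo] at hb
      rw [abs_le] at hα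
      rw [mem_Icc]; constructor <;> omega
    · intro γ _ _; exact hf γ
  have hgood4 : ∑ b1 ∈ Ioo (-(A : ℤ)) A, ∑ b2 ∈ Ioo (-(A : ℤ)) A,
        15 * (K : ℝ) ^ 2 * ∑ d, Φ (α + b1) (α + b2) d
      ≤ 15 * (K : ℝ) ^ 2 * ∑ γ ∈ Icc (-(2 * A : ℤ)) (2 * A),
        ∑ γ' ∈ Icc (-(2 * A : ℤ)) (2 * A), ∑ d, Φ γ γ' d := by
    simp only [← mul_sum]
    apply mul_le_mul_of_nonneg_left _ (by positivity)
    calc ∑ b1 ∈ Ioo (-(A : ℤ)) A, ∑ b2 ∈ Ioo (-(A : ℤ)) A, ∑ d, Φ (α + b1) (α + b2) d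
        ≤ ∑ b1 ∈ Ioo (-(A : ℤ)) A, ∑ γ' ∈ Icc (-(2 * A : ℤ)) (2 * A), ∑ d, Φ (α + b1) γ' d := by
          apply sum_le_sum; intro b1 _
          exact hshift (fun γ' => ∑ d, Φ (α + b1) γ' d) (fun k => hFn _ k)
      _ ≤ _ := hshift (fun γ => ∑ γ' ∈ Icc (-(2 * A : ℤ)) (2 * A), ∑ d, Φ γ γ' d)
          (fun k => sum_nonneg (fun γ' _ => hFn k γ'))
  have hgoodF : dv A (fun b1 => dv A (fun l1 => dv A (fun b2 => dv A (fun l2 => Ψ b1 l1 b2 l2))))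
      ≤ 15 * (K : ℝ) ^ 2 * R' * ((1 / (A : ℝ) ^ 2) * ∑ γ ∈ Icc (-(2 * A : ℤ)) (2 * A),
        ∑ γ' ∈ Icc (-(2 * A : ℤ)) (2 * A), (1 / (M : ℝ)) * ∑ d : ZMod M, Φ γ γ' d) := by
    set S0 : ℝ := ∑ γ ∈ Icc (-(2 * A : ℤ)) (2 * A),
        ∑ γ' ∈ Icc (-(2 * A : ℤ)) (2 * A), ∑ d, Φ γ γ' d with hS0
    have hSn : 0 ≤ S0 := sum_nonneg (fun γ _ => sum_nonneg (fun γ' _ => hFn γ γ'))
    have e1 : ∑ γ ∈ Icc (-(2 * A : ℤ)) (2 * A),
        ∑ γ' ∈ Icc (-(2 * A : ℤ)) (2 * A), (1 / (M : ℝ)) * ∑ d : ZMod M, Φ γ γ' d = (1 / (M : ℝ)) * S0 := by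
      simp only [← mul_sum]; rw [hS0]
    rw [e1]
    calc _ ≤ _ := hgood1
      _ = _ := hgood2
      _ ≤ (1 / (A : ℝ) ^ 4) * (15 * (K : ℝ) ^ 2 * S0) := by
        apply mul_le_mul_of_nonneg_left (hgood3.trans hgood4) (by positivity)
      _ = 15 * (K : ℝ) ^ 2 * S0 * (1 / (A : ℝ) ^ 2) * (1 / (A : ℝ) ^ 2) := by
        field_simp
      _ ≤ 15 * (K : ℝ) ^ 2 * S0 * (1 / (A : ℝ) ^ 2) * (R' / M) := by
        apply mul_le_mul_of_nonneg_left _ (by positivity)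
        rw [div_le_div_iff₀ (by positivity) hM0]; linarith
      _ = _ := by ring
  calc _ ≤ _ := hstep
    _ ≤ 15 * (K : ℝ) ^ 2 * R' * ((1 / (A : ℝ) ^ 2) * ∑ γ ∈ Icc (-(2 * A : ℤ)) (2 * A),
        ∑ γ' ∈ Icc (-(2 * A : ℤ)) (2 * A), (1 / (M : ℝ)) * ∑ d : ZMod M, Φ γ γ' d)
        + (3 / K + 6 / K) := add_le_add hgoodF (add_le_add hbad1 hbad2)
    _ = _ := by ring


end DensAux

theorem density (M A K R : ℕ) [NeZero M] (hK : 1 ≤ K) (hKA : K ≤ A) (hAM : A ^ 2 ≤ M) (hMR : M ≤ R * A ^ 2)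
    (α : ℤ) (hα : |α| ≤ A) (Φ : ℤ → ℤ → ZMod M → ℝ) (h0 : ∀ γ γ' d, 0 ≤ Φ γ γ' d) (h1 : ∀ γ γ' d, Φ γ γ' d ≤ 1) :
    dv A (fun b1 => dv A (fun l1 => dv A (fun b2 => dv A (fun l2 =>
        Φ (α + b1) (α + b2) ((b2 * l2 - b1 * l1 : ℤ) : ZMod M))))) ≤
      15 * (K : ℝ) ^ 2 * R * ((∑ γ ∈ Icc (-(2 * A : ℤ)) (2 * A), ∑ γ' ∈ Icc (-(2 * A : ℤ)) (2 * A),
        avr (fun d => Φ γ γ' d)) / (A : ℝ) ^ 2) + 9 / (K : ℝ) := by
  have e : ∀ F : ℤ → ℝ, dv A F = DensAux.dv A F := by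
    intro F; unfold dv DensAux.dv; ring
  have hMR' : (M : ℝ) ≤ (R : ℝ) * (A : ℝ) ^ 2 := by exact_mod_cast hMR
  have h := DensAux.density A M K (R : ℝ) hK hKA hAM hMR' α hα Φ h0 h1
  simp only [e]
  refine h.trans (le_of_eq ?_)
  have e2 : ∀ φ : ZMod M → ℝ, avr φ = (1 / (M : ℝ)) * ∑ d : ZMod M, φ d := by
    intro φ; unfold avr; ring
  simp only [e2]
  ring

end Pool.Agent.NLT
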