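import Pool.Agent.Lib.NLT.BasicC

/-!
# Module RRSq: the first Cauchy-Schwarz step for `RR`

`cc A α b l g x` is the average over `m` of `conj (g (x + (α + b) m)) * g (x + b l + (α + b) m)`.

PROOF of `RR_sq`. By `Q2_dvc` (and `κ = 1`),
`RR 1 A α g = dvc_β dvc_m dvc_l av (Dl (β l) (Dl ((α + β) m) g))` and
`Dl (β l) (Dl (u m) g) x = g x * conj (g (x + u m)) * conj (g (x + β l)) * g (x + β l + u m)`, so (Fubini)
`RR 1 A α g = av_x g x * D x`, `D x = dvc_β dvc_l conj (g (x + β l)) * cc A α β l g x`.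
Cauchy-Schwarz (`norm_av_mul_sq_le`): `RR^2 ≤ avr ‖D x‖^2 = av_x dvc_b1 dvc_l1 dvc_b2 dvc_l2
  conj (g (x + b1 l1)) * cc A α b1 l1 g x * g (x + b2 l2) * conj (cc A α b2 l2 g x)`; shift `x` by `- b1 l1`:
`conj (g x) * g (x + d) = conj (Dl d g x)`, `d = b2 l2 - b1 l1`, so the average over `x` is `ZZ`; triangle inequality.
-/

set_option autoImplicit false

open Finset

namespace Pool.Agent.NLT

open Pool.Agent.HLT

variable {M : ℕ} [NeZero M]

noncomputable def cc (A : ℕ) (α b l : ℤ) (g : ZMod M → ℂ) (x : ZMod M) : ℂ :=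
  dvc A (fun m => (starRingEnd ℂ) (g (x + ((α + b : ℤ) : ZMod M) * (m : ZMod M))) *
    g (x + ((b * l : ℤ) : ZMod M) + ((α + b : ℤ) : ZMod M) * (m : ZMod M)))

noncomputable def ZZ (A : ℕ) (α b1 l1 b2 l2 : ℤ) (g : ZMod M → ℂ) : ℂ :=
  av (fun x => (starRingEnd ℂ) (Dl ((b2 * l2 - b1 * l1 : ℤ) : ZMod M) g x) *
    cc A α b1 l1 g (x - ((b1 * l1 : ℤ) : ZMod M)) *
    (starRingEnd ℂ) (cc A α b2 l2 g (x - ((b1 * l1 : ℤ) : ZMod M))))

namespace RRSqAux

lemma dvc_eq_prod (A : ℕ) (F : ℤ → ℂ) :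
    dvc A F = (∑ p ∈ range A ×ˢ range A, F ((p.2 : ℤ) - p.1)) / (A : ℂ) ^ 2 := by
  unfold dvc
  rw [Finset.sum_product]

lemma dvc_mul_left (A : ℕ) (c : ℂ) (F : ℤ → ℂ) : dvc A (fun k => c * F k) = c * dvc A F := by
  rw [dvc_eq_prod, dvc_eq_prod, ← Finset.mul_sum, mul_div_assoc]

lemma dvc_mul_right (A : ℕ) (c : ℂ) (F : ℤ → ℂ) : dvc A (fun k => F k * c) = dvc A F * c := by
  rw [dvc_eq_prod, dvc_eq_prod, ← Finset.sum_mul, mul_div_right_comm]

lemma dvc_conj (A : ℕ) (F : ℤ → ℂ) :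
    dvc A (fun k => (starRingEnd ℂ) (F k)) = (starRingEnd ℂ) (dvc A F) := by
  rw [dvc_eq_prod, dvc_eq_prod, map_div₀, map_sum, map_pow, Complex.conj_natCast]

lemma dvc_comm (A B : ℕ) (F : ℤ → ℤ → ℂ) :
    dvc A (fun i => dvc B (fun j => F i j)) = dvc B (fun j => dvc A (fun i => F i j)) := by
  simp only [dvc_eq_prod]
  rw [← Finset.sum_div, ← Finset.sum_div, Finset.sum_comm, div_div, div_div,
    mul_comm ((B : ℂ) ^ 2) ((A : ℂ) ^ 2)]

/-- The inner average. -/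
noncomputable def DD (A : ℕ) (α : ℤ) (g : ZMod M → ℂ) (x : ZMod M) : ℂ :=
  dvc A (fun b => dvc A (fun l => (starRingEnd ℂ) (g (x + ((b * l : ℤ) : ZMod M))) * cc A α b l g x))

lemma RR_eq (A : ℕ) (α : ℤ) (g : ZMod M → ℂ) :
    ((RR 1 A α g : ℝ) : ℂ) = av (fun x => g x * DD A α g x) := by
  have h1 : ((RR 1 A α g : ℝ) : ℂ) = dvc A (fun b => dvc A (fun m => dvc A (fun l =>
      av (Dl (1 * (b : ZMod M) * (l : ZMod M)) (Dl (1 * ((α + b : ℤ) : ZMod M) * (m : ZMod M)) g))))) := by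
    unfold RR
    rw [← dvc_ofReal]
    congr 1
    funext b
    rw [← dvc_ofReal]
    congr 1
    funext m
    exact Q2_dvc A _ _
  rw [h1]
  have h2 : ∀ b : ℤ, dvc A (fun m => dvc A (fun l =>
      av (Dl (1 * (b : ZMod M) * (l : ZMod M)) (Dl (1 * ((α + b : ℤ) : ZMod M) * (m : ZMod M)) g)))) =
      av (fun x => g x * dvc A (fun l => (starRingEnd ℂ) (g (x + ((b * l : ℤ) : ZMod M))) * cc A α b l g x)) := by
    intro b
    rw [dvc_comm]
    have h3 : ∀ l : ℤ, dvc A (fun m =>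
        av (Dl (1 * (b : ZMod M) * (l : ZMod M)) (Dl (1 * ((α + b : ℤ) : ZMod M) * (m : ZMod M)) g))) =
        av (fun x => g x * ((starRingEnd ℂ) (g (x + ((b * l : ℤ) : ZMod M))) * cc A α b l g x)) := by
      intro l
      rw [dvc_av_comm]
      congr 1
      funext x
      unfold cc
      rw [← dvc_mul_left, ← dvc_mul_left]
      congr 1
      funext m
      unfold Dl
      rw [map_mul, Complex.conj_conj, one_mul, one_mul]
      have e1 : ((b * l : ℤ) : ZMod M) = (b : ZMod M) * (l : ZMod M) := by push_cast; ring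
      rw [e1]
      ring
    simp only [h3]
    rw [dvc_av_comm]
    congr 1
    funext x
    rw [← dvc_mul_left]
  simp only [h2]
  rw [dvc_av_comm]
  congr 1
  funext x
  unfold DD
  rw [← dvc_mul_left]

lemma DD_sq (A : ℕ) (α : ℤ) (g : ZMod M → ℂ) :
    ((avr (fun x => ‖DD A α g x‖ ^ 2) : ℝ) : ℂ) = dvc A (fun b1 => dvc A (fun l1 => dvc A (fun b2 =>
      dvc A (fun l2 => ZZ A α b1 l1 b2 l2 g)))) := by
  rw [← av_ofReal]
  have h1 : ∀ x : ZMod M, ((‖DD A α g x‖ ^ 2 : ℝ) : ℂ) = dvc A (fun b1 => dvc A (fun l1 => dvc A (fun b2 =>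
      dvc A (fun l2 => ((starRingEnd ℂ) (g (x + ((b1 * l1 : ℤ) : ZMod M))) * cc A α b1 l1 g x) *
        (starRingEnd ℂ) ((starRingEnd ℂ) (g (x + ((b2 * l2 : ℤ) : ZMod M))) * cc A α b2 l2 g x))))) := by
    intro x
    have e0 : ((‖DD A α g x‖ ^ 2 : ℝ) : ℂ) = DD A α g x * (starRingEnd ℂ) (DD A α g x) := by
      rw [Complex.mul_conj, Complex.normSq_eq_norm_sq]
    rw [e0]
    conv_lhs => enter [1]; unfold DD
    rw [← dvc_mul_right]
    congr 1
    funext b1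
    rw [← dvc_mul_right]
    congr 1
    funext l1
    unfold DD
    rw [← dvc_conj, ← dvc_mul_left]
    congr 1
    funext b2
    rw [← dvc_conj, ← dvc_mul_left]
  simp only [h1]
  rw [← dvc_av_comm]
  congr 1
  funext b1
  rw [← dvc_av_comm]
  congr 1
  funext l1
  rw [← dvc_av_comm]
  congr 1
  funext b2
  rw [← dvc_av_comm]
  congr 1
  funext l2
  unfold ZZ
  rw [← av_shift_sub _ ((b1 * l1 : ℤ) : ZMod M)]
  congr 1
  funext x
  have e1 : x - ((b1 * l1 : ℤ) : ZMod M) + ((b1 * l1 : ℤ) : ZMod M) = x := by ring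
  have e2 : x - ((b1 * l1 : ℤ) : ZMod M) + ((b2 * l2 : ℤ) : ZMod M) =
      x + ((b2 * l2 - b1 * l1 : ℤ) : ZMod M) := by push_cast; ring
  unfold Dl
  rw [e1, e2]
  simp only [map_mul, Complex.conj_conj]
  ring

end RRSqAux

open RRSqAux in
theorem RR_sq (A : ℕ) (α : ℤ) (g : ZMod M → ℂ) (hg : Bd g) :
    RR 1 A α g ^ 2 ≤ dv A (fun b1 => dv A (fun l1 => dv A (fun b2 => dv A (fun l2 =>
      ‖ZZ A α b1 l1 b2 l2 g‖)))) := by
  have h0 : RR 1 A α g ^ 2 ≤ avr (fun x => ‖DD A α g x‖ ^ 2) := by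
    have e : RR 1 A α g ^ 2 = ‖av (fun x => g x * DD A α g x)‖ ^ 2 := by
      rw [← RR_eq, Complex.norm_real, Real.norm_eq_abs, sq_abs]
    rw [e]
    exact norm_av_mul_sq_le g _ hg
  refine h0.trans ?_
  have h2 : avr (fun x => ‖DD A α g x‖ ^ 2) = ‖((avr (fun x => ‖DD A α g x‖ ^ 2) : ℝ) : ℂ)‖ := by
    rw [Complex.norm_real, Real.norm_eq_abs, abs_of_nonneg]
    exact avr_nonneg (fun x => by positivity)
  rw [h2, DD_sq]
  refine (norm_dvc_le A _).trans (dv_mono A (fun b1 _ => ?_))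
  refine (norm_dvc_le A _).trans (dv_mono A (fun l1 _ => ?_))
  refine (norm_dvc_le A _).trans (dv_mono A (fun b2 _ => ?_))
  exact norm_dvc_le A _

end Pool.Agent.NLT
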