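import Pool.Agent.Lib.NLT.BoxCS
import Pool.Agent.Lib.NLT.RRSq

/-!
# Module RRPow: the Cauchy-Schwarz inequality for `RR`

PROOF of `ZZ_le`. `c1 = cc A α b1 l1 g` satisfies `‖c1 x‖ ≤ 1` and, for `i < A'`, `‖c1 (x + (α + b1) i) - c1 x‖ ≤ 2 A' / A`
(`norm_dvc_shift`: shifting `x` by `(α + b1) i` replaces `m` by `m + i`). The same for `c2 = cc A α b2 l2 g` and `α + b2`.
Let `γ = α + b1`, `γ' = α + b2`, `G = conj ∘ Dl d g`, `a1 x = c1 (x - b1 l1)`, `a2 x = conj (c2 (x - b1 l1))`. For `i, j < A'`,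
shifting the variable, `ZZ = av_x G (x + γ i + γ' j) * a1 (x + γ i + γ' j) * a2 (x + γ i + γ' j)`; replace
`a1 (x + γ i + γ' j)` by `a1 (x + γ' j)` (error `2 A' / A`) and `a2 (x + γ i + γ' j)` by `a2 (x + γ i)` (error `2 A' / A`).
Average over `i, j < A'`: `‖ZZ - z‖ ≤ 4 A' / A`, `z = av_x tv_i tv_j G (x + γ i + γ' j) * a1 (x + γ' j) * a2 (x + γ i)`, and
`‖z‖^4 ≤ QQ A' γ γ' G = QQ A' γ γ' (Dl d g)` by `box_cs` and `QQ_conj`. Take `s = ‖z‖`.

PROOF of `RR_pow`. `RR^2 ≤ dv^4 ‖ZZ‖ ≤ dv^4 s + 4 η`, `η = A' / A`; `(a + b)^4 ≤ 8 (a^4 + b^4)`, power means (`dv_pow_le`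
four times, `k = 4`): `RR^8 ≤ 8 dv^4 s^4 + 8 (4 η)^4`, `8 * 256 = 2048`. (For the function `s` of `(b1, l1, b2, l2)` use
`Classical.choose` or `choose`; `s ≥ 0`.)
-/

set_option autoImplicit false

open Finset

namespace Pool.Agent.NLT

open Pool.Agent.HLT

variable {M : ℕ} [NeZero M]

namespace RRPowAux

lemma av_eq_shift (A' : ℕ) (hA' : 1 ≤ A') (γ γ' : ZMod M) (F : ZMod M → ℂ) :
    av F = av (fun x => tv A' (fun i => tv A' (fun j => F (x + γ * (i : ZMod M) + γ' * (j : ZMod M))))) := by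
  rw [← tv_av_comm]
  have h : ∀ i : ℕ, av (fun x => tv A' (fun j => F (x + γ * (i : ZMod M) + γ' * (j : ZMod M)))) = av F := by
    intro i
    rw [← tv_av_comm]
    have h2 : ∀ j : ℕ, av (fun x => F (x + γ * (i : ZMod M) + γ' * (j : ZMod M))) = av F := by
      intro j
      have h3 : (fun x => F (x + γ * (i : ZMod M) + γ' * (j : ZMod M))) =
          fun x => F (x + (γ * (i : ZMod M) + γ' * (j : ZMod M))) := by
        funext x
        rw [add_assoc]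
      rw [h3, av_shift]
    simp only [h2]
    exact tv_const A' hA' _
  simp only [h]
  exact (tv_const A' hA' _).symm

lemma norm_sub_le (A' : ℕ) (η : ℝ) (hη : 0 ≤ η) (W V : ZMod M → ℕ → ℕ → ℂ)
    (h : ∀ x, ∀ i < A', ∀ j < A', ‖W x i j - V x i j‖ ≤ η) :
    ‖av (fun x => tv A' (fun i => tv A' (fun j => W x i j)))‖ ≤
      ‖av (fun x => tv A' (fun i => tv A' (fun j => V x i j)))‖ + η := by
  have e : av (fun x => tv A' (fun i => tv A' (fun j => W x i j))) -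
      av (fun x => tv A' (fun i => tv A' (fun j => V x i j))) =
      av (fun x => tv A' (fun i => tv A' (fun j => W x i j - V x i j))) := by
    rw [← av_sub]
    congr 1
    funext x
    rw [← tv_sub]
    congr 1
    funext i
    rw [← tv_sub]
  have h2 : ‖av (fun x => tv A' (fun i => tv A' (fun j => W x i j - V x i j)))‖ ≤ η := by
    refine (norm_av_le _).trans ?_
    apply avr_le
    intro x
    refine (norm_tv_le _ _).trans ?_
    apply tvr_le _ hη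
    intro i hi
    refine (norm_tv_le _ _).trans ?_
    apply tvr_le _ hη
    intro j hj
    exact h x i hi j hj
  calc ‖av (fun x => tv A' (fun i => tv A' (fun j => W x i j)))‖
      = ‖av (fun x => tv A' (fun i => tv A' (fun j => V x i j))) +
          (av (fun x => tv A' (fun i => tv A' (fun j => W x i j))) -
          av (fun x => tv A' (fun i => tv A' (fun j => V x i j))))‖ := by
        congr 1
        ring
    _ ≤ ‖av (fun x => tv A' (fun i => tv A' (fun j => V x i j)))‖ +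
          ‖av (fun x => tv A' (fun i => tv A' (fun j => W x i j))) -
          av (fun x => tv A' (fun i => tv A' (fun j => V x i j)))‖ := norm_add_le _ _
    _ ≤ ‖av (fun x => tv A' (fun i => tv A' (fun j => V x i j)))‖ + η := by
        rw [e]
        linarith

lemma abs_le (A' : ℕ) (hA' : 1 ≤ A') (η : ℝ) (hη : 0 ≤ η) (γ γ' : ZMod M) (G a1 a2 : ZMod M → ℂ)
    (hG : Bd G) (h1 : Bd a1) (h2 : Bd a2)
    (e1 : ∀ x, ∀ i < A', ‖a1 (x + γ * (i : ZMod M)) - a1 x‖ ≤ η)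
    (e2 : ∀ x, ∀ j < A', ‖a2 (x + γ' * (j : ZMod M)) - a2 x‖ ≤ η) :
    ‖av (fun x => G x * a1 x * a2 x)‖ ≤
      ‖av (fun x => tv A' (fun i => tv A' (fun j =>
        G (x + γ * (i : ZMod M) + γ' * (j : ZMod M)) * a1 (x + γ' * (j : ZMod M)) *
          a2 (x + γ * (i : ZMod M)))))‖ + 2 * η := by
  rw [av_eq_shift A' hA' γ γ' (fun x => G x * a1 x * a2 x)]
  apply norm_sub_le A' (2 * η) (by linarith)
  intro x i hi j hj
  have d1 : ‖a1 (x + γ * (i : ZMod M) + γ' * (j : ZMod M)) - a1 (x + γ' * (j : ZMod M))‖ ≤ η := by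
    have h := e1 (x + γ' * (j : ZMod M)) i hi
    have hc : x + γ' * (j : ZMod M) + γ * (i : ZMod M) = x + γ * (i : ZMod M) + γ' * (j : ZMod M) := by ring
    rwa [hc] at h
  have d2 : ‖a2 (x + γ * (i : ZMod M) + γ' * (j : ZMod M)) - a2 (x + γ * (i : ZMod M))‖ ≤ η :=
    e2 (x + γ * (i : ZMod M)) j hj
  generalize x + γ * (i : ZMod M) + γ' * (j : ZMod M) = p at *
  generalize x + γ' * (j : ZMod M) = q at *
  generalize x + γ * (i : ZMod M) = r at *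
  have e : G p * a1 p * a2 p - G p * a1 q * a2 r =
      G p * (a1 p - a1 q) * a2 p + G p * a1 q * (a2 p - a2 r) := by ring
  show ‖G p * a1 p * a2 p - G p * a1 q * a2 r‖ ≤ 2 * η
  rw [e]
  refine (norm_add_le _ _).trans ?_
  rw [norm_mul, norm_mul, norm_mul, norm_mul]
  have hGp := hG p
  have h1q := h1 q
  have h2p := h2 p
  have n1 : ‖G p‖ * ‖a1 p - a1 q‖ * ‖a2 p‖ ≤ 1 * η * 1 := by
    apply mul_le_mul _ h2p (norm_nonneg _) (by linarith)
    exact mul_le_mul hGp d1 (norm_nonneg _) (by norm_num)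
  have n2 : ‖G p‖ * ‖a1 q‖ * ‖a2 p - a2 r‖ ≤ 1 * 1 * η := by
    apply mul_le_mul _ d2 (norm_nonneg _) (by norm_num)
    exact mul_le_mul hGp h1q (norm_nonneg _) (by norm_num)
  linarith

omit [NeZero M] in
lemma cc_Bd (A : ℕ) (α b l : ℤ) (g : ZMod M → ℂ) (hg : Bd g) : Bd (cc A α b l g) := by
  intro x
  unfold cc
  apply norm_dvc_le_one
  intro k
  rw [norm_mul, RCLike.norm_conj]
  exact mul_le_one₀ (hg _) (norm_nonneg _) (hg _)

omit [NeZero M] in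
lemma cc_shift (A : ℕ) (α b l : ℤ) (g : ZMod M → ℂ) (hg : Bd g) (x : ZMod M) (i : ℕ) :
    ‖cc A α b l g (x + ((α + b : ℤ) : ZMod M) * (i : ZMod M)) - cc A α b l g x‖ ≤ 2 * i / A := by
  have h := norm_dvc_shift A (fun m : ℤ => (starRingEnd ℂ) (g (x + ((α + b : ℤ) : ZMod M) * (m : ZMod M))) *
    g (x + ((b * l : ℤ) : ZMod M) + ((α + b : ℤ) : ZMod M) * (m : ZMod M))) (by
      intro k
      rw [norm_mul, RCLike.norm_conj]
      exact mul_le_one₀ (hg _) (norm_nonneg _) (hg _)) i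
  have e : cc A α b l g (x + ((α + b : ℤ) : ZMod M) * (i : ZMod M)) =
      dvc A (fun m : ℤ => (fun m : ℤ => (starRingEnd ℂ) (g (x + ((α + b : ℤ) : ZMod M) * (m : ZMod M))) *
        g (x + ((b * l : ℤ) : ZMod M) + ((α + b : ℤ) : ZMod M) * (m : ZMod M))) (m + i)) := by
    unfold cc
    congr 1
    funext m
    have e1 : x + ((α + b : ℤ) : ZMod M) * (i : ZMod M) + ((α + b : ℤ) : ZMod M) * (m : ZMod M) =
        x + ((α + b : ℤ) : ZMod M) * ((m + (i : ℤ) : ℤ) : ZMod M) := by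
      push_cast
      ring
    have e2 : x + ((α + b : ℤ) : ZMod M) * (i : ZMod M) + ((b * l : ℤ) : ZMod M) +
        ((α + b : ℤ) : ZMod M) * (m : ZMod M) =
        x + ((b * l : ℤ) : ZMod M) + ((α + b : ℤ) : ZMod M) * ((m + (i : ℤ) : ℤ) : ZMod M) := by
      push_cast
      ring
    simp only [e1, e2]
  rw [e]
  exact h

lemma add_pow_four (a b : ℝ) : (a + b) ^ 4 ≤ 8 * (a ^ 4 + b ^ 4) := by
  have h1 : (a + b) ^ 2 ≤ 2 * (a ^ 2 + b ^ 2) := by nlinarith [sq_nonneg (a - b)]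
  have h2 : ((a + b) ^ 2) ^ 2 ≤ (2 * (a ^ 2 + b ^ 2)) ^ 2 := by
    apply pow_le_pow_left₀ (sq_nonneg _) h1
  nlinarith [sq_nonneg (a ^ 2 - b ^ 2)]

/-- Fourfold average. -/
noncomputable def dq (A : ℕ) (F : ℤ → ℤ → ℤ → ℤ → ℝ) : ℝ :=
  dv A (fun b1 => dv A (fun l1 => dv A (fun b2 => dv A (fun l2 => F b1 l1 b2 l2))))

lemma dq_mono (A : ℕ) (F G : ℤ → ℤ → ℤ → ℤ → ℝ) (h : ∀ a b c d, F a b c d ≤ G a b c d) :
    dq A F ≤ dq A G :=
  dv_mono A (fun a _ => dv_mono A (fun b _ => dv_mono A (fun c _ => dv_mono A (fun d _ => h a b c d))))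

lemma dq_nonneg (A : ℕ) (F : ℤ → ℤ → ℤ → ℤ → ℝ) (h : ∀ a b c d, 0 ≤ F a b c d) : 0 ≤ dq A F :=
  dv_nonneg A (fun a => dv_nonneg A (fun b => dv_nonneg A (fun c => dv_nonneg A (fun d => h a b c d))))

lemma dq_add_const (A : ℕ) (hA : 1 ≤ A) (F : ℤ → ℤ → ℤ → ℤ → ℝ) (r : ℝ) :
    dq A (fun a b c d => F a b c d + r) = dq A F + r := by
  unfold dq
  simp only [dv_add, dv_const A hA]

lemma dq_pow (A : ℕ) (F : ℤ → ℤ → ℤ → ℤ → ℝ) (h : ∀ a b c d, 0 ≤ F a b c d) :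
    dq A F ^ 4 ≤ dq A (fun a b c d => F a b c d ^ 4) := by
  unfold dq
  refine (dv_pow_le A 4 (by norm_num) ?_).trans ?_
  · intro a
    exact dv_nonneg A (fun b => dv_nonneg A (fun c => dv_nonneg A (fun d => h a b c d)))
  apply dv_mono
  intro a _
  refine (dv_pow_le A 4 (by norm_num) ?_).trans ?_
  · intro b
    exact dv_nonneg A (fun c => dv_nonneg A (fun d => h a b c d))
  apply dv_mono
  intro b _
  refine (dv_pow_le A 4 (by norm_num) ?_).trans ?_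
  · intro c
    exact dv_nonneg A (fun d => h a b c d)
  apply dv_mono
  intro c _
  exact dv_pow_le A 4 (by norm_num) (fun d => h a b c d)

end RRPowAux

theorem ZZ_le (A A' : ℕ) (hA' : 1 ≤ A') (hA : A' ≤ A) (α b1 l1 b2 l2 : ℤ) (g : ZMod M → ℂ) (hg : Bd g) :
    ∃ s : ℝ, 0 ≤ s ∧ ‖ZZ A α b1 l1 b2 l2 g‖ ≤ s + 4 * A' / A ∧
      s ^ 4 ≤ QQ A' ((α + b1 : ℤ) : ZMod M) ((α + b2 : ℤ) : ZMod M)
        (Dl ((b2 * l2 - b1 * l1 : ℤ) : ZMod M) g) := by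
  have hA0 : (0 : ℝ) < A := by
    have h : 0 < A := by omega
    exact_mod_cast h
  have hη : (0 : ℝ) ≤ 2 * A' / A := by positivity
  have hmono : ∀ i : ℕ, i < A' → (2 * i / A : ℝ) ≤ 2 * A' / A := by
    intro i hi
    apply div_le_div_of_nonneg_right _ hA0.le
    have : (i : ℝ) ≤ A' := by exact_mod_cast hi.le
    linarith
  have hG : Bd (fun x : ZMod M => (starRingEnd ℂ) (Dl ((b2 * l2 - b1 * l1 : ℤ) : ZMod M) g x)) :=
    Bd_conj (Dl_Bd _ hg)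
  have h1 : Bd (fun x : ZMod M => cc A α b1 l1 g (x - ((b1 * l1 : ℤ) : ZMod M))) :=
    fun x => RRPowAux.cc_Bd A α b1 l1 g hg _
  have h2 : Bd (fun x : ZMod M => (starRingEnd ℂ) (cc A α b2 l2 g (x - ((b1 * l1 : ℤ) : ZMod M)))) :=
    Bd_conj (fun x => RRPowAux.cc_Bd A α b2 l2 g hg _)
  have key := RRPowAux.abs_le A' hA' (2 * A' / A) hη ((α + b1 : ℤ) : ZMod M) ((α + b2 : ℤ) : ZMod M)
    _ _ _ hG h1 h2
    (by
      intro x i hi
      have h := RRPowAux.cc_shift A α b1 l1 g hg (x - ((b1 * l1 : ℤ) : ZMod M)) i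
      have e : x - ((b1 * l1 : ℤ) : ZMod M) + ((α + b1 : ℤ) : ZMod M) * (i : ZMod M) =
          x + ((α + b1 : ℤ) : ZMod M) * (i : ZMod M) - ((b1 * l1 : ℤ) : ZMod M) := by ring
      rw [e] at h
      exact h.trans (hmono i hi))
    (by
      intro x i hi
      have h := RRPowAux.cc_shift A α b2 l2 g hg (x - ((b1 * l1 : ℤ) : ZMod M)) i
      have e : x - ((b1 * l1 : ℤ) : ZMod M) + ((α + b2 : ℤ) : ZMod M) * (i : ZMod M) =
          x + ((α + b2 : ℤ) : ZMod M) * (i : ZMod M) - ((b1 * l1 : ℤ) : ZMod M) := by ring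
      rw [e] at h
      show ‖(starRingEnd ℂ) _ - (starRingEnd ℂ) _‖ ≤ _
      rw [← map_sub, RCLike.norm_conj]
      exact h.trans (hmono i hi))
  refine ⟨‖av (fun x => tv A' (fun i => tv A' (fun j =>
    (starRingEnd ℂ) (Dl ((b2 * l2 - b1 * l1 : ℤ) : ZMod M) g
      (x + ((α + b1 : ℤ) : ZMod M) * (i : ZMod M) + ((α + b2 : ℤ) : ZMod M) * (j : ZMod M))) *
    cc A α b1 l1 g (x + ((α + b2 : ℤ) : ZMod M) * (j : ZMod M) - ((b1 * l1 : ℤ) : ZMod M)) *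
    (starRingEnd ℂ) (cc A α b2 l2 g (x + ((α + b1 : ℤ) : ZMod M) * (i : ZMod M) -
      ((b1 * l1 : ℤ) : ZMod M))))))‖, norm_nonneg _, ?_, ?_⟩
  · unfold ZZ
    have e4 : (4 * A' / A : ℝ) = 2 * (2 * A' / A) := by ring
    rw [e4]
    exact key
  · have h := box_cs A' ((α + b1 : ℤ) : ZMod M) ((α + b2 : ℤ) : ZMod M)
      (fun x : ZMod M => (starRingEnd ℂ) (Dl ((b2 * l2 - b1 * l1 : ℤ) : ZMod M) g x))
      (fun x j => cc A α b1 l1 g (x + ((α + b2 : ℤ) : ZMod M) * (j : ZMod M) - ((b1 * l1 : ℤ) : ZMod M)))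
      (fun x i => (starRingEnd ℂ) (cc A α b2 l2 g (x + ((α + b1 : ℤ) : ZMod M) * (i : ZMod M) -
        ((b1 * l1 : ℤ) : ZMod M))))
      (fun x j => RRPowAux.cc_Bd A α b1 l1 g hg _)
      (fun x i => by
        rw [RCLike.norm_conj]
        exact RRPowAux.cc_Bd A α b2 l2 g hg _)
    rw [QQ_conj] at h
    exact h

theorem RR_pow (A A' : ℕ) (hA' : 1 ≤ A') (hA : A' ≤ A) (α : ℤ) (g : ZMod M → ℂ) (hg : Bd g) :
    RR 1 A α g ^ 8 ≤ 8 * dv A (fun b1 => dv A (fun l1 => dv A (fun b2 => dv A (fun l2 =>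
      QQ A' ((α + b1 : ℤ) : ZMod M) ((α + b2 : ℤ) : ZMod M) (Dl ((b2 * l2 - b1 * l1 : ℤ) : ZMod M) g))))) +
      2048 * ((A' : ℝ) / A) ^ 4 := by
  have hA1 : 1 ≤ A := le_trans hA' hA
  choose s hs0 hs1 hs2 using fun b1 l1 b2 l2 => ZZ_le (M := M) A A' hA' hA α b1 l1 b2 l2 g hg
  have r1 : RR 1 A α g ^ 2 ≤ RRPowAux.dq A s + 4 * A' / A := by
    refine (RR_sq A α g hg).trans ?_
    rw [← RRPowAux.dq_add_const A hA1]
    exact RRPowAux.dq_mono A (fun b1 l1 b2 l2 => ‖ZZ A α b1 l1 b2 l2 g‖) _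
      (fun b1 l1 b2 l2 => hs1 b1 l1 b2 l2)
  have r2 : RRPowAux.dq A s ^ 4 ≤ dv A (fun b1 => dv A (fun l1 => dv A (fun b2 => dv A (fun l2 =>
      QQ A' ((α + b1 : ℤ) : ZMod M) ((α + b2 : ℤ) : ZMod M) (Dl ((b2 * l2 - b1 * l1 : ℤ) : ZMod M) g))))) :=
    (RRPowAux.dq_pow A s hs0).trans (RRPowAux.dq_mono A (fun a b c d => s a b c d ^ 4)
      (fun b1 l1 b2 l2 => QQ A' ((α + b1 : ℤ) : ZMod M) ((α + b2 : ℤ) : ZMod M)
        (Dl ((b2 * l2 - b1 * l1 : ℤ) : ZMod M) g)) (fun b1 l1 b2 l2 => hs2 b1 l1 b2 l2))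
  have r3 : (RR 1 A α g ^ 2) ^ 4 ≤ (RRPowAux.dq A s + 4 * A' / A) ^ 4 :=
    pow_le_pow_left₀ (sq_nonneg _) r1 4
  have r4 := RRPowAux.add_pow_four (RRPowAux.dq A s) (4 * A' / A)
  have e : (RR 1 A α g ^ 2) ^ 4 = RR 1 A α g ^ 8 := by rw [← pow_mul]
  have e2 : 8 * (4 * (A' : ℝ) / A) ^ 4 = 2048 * ((A' : ℝ) / A) ^ 4 := by ring
  rw [e] at r3
  linarith


end Pool.Agent.NLT
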