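import Pool.Agent.Lib.NLT.Kernel

/-!
# Module ThirdDir: the third direction

PROOF of `third_dir`. `Φ α := dv A (n ↦ U3 (Dl (α n) f)) ≥ 0`, so by `dv_le_sum` the left side is at most
`(∑ α ∈ Icc (-A) A, Φ α) / A ≤ (∑ α ∈ Icc (-2A) (2A), Φ α) / A`. `U3 (Dl v f) = avr_h U2 (Dl h (Dl v f))` and by
`U2_eq_av`, `U2 g = av_u av_w av (Dl u (Dl w g))`; the derivatives commute (`Dl_comm`), so
`U3 (Dl v f) = av_h av_u av_w av (Dl v (Dl h (Dl u (Dl w f))))`. Averaging over `v = α n` in the difference variable `n`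
gives by `Q2_dvc`: `Φ α = avr_h avr_u avr_w Q2 A (Dl h (Dl u (Dl w f))) α`. Now `kernel_two` with `A' = A` for the function
`Dl h (Dl u (Dl w f))`: left side `≤ avr_h avr_u avr_w (5 ∑ ξ ∈ Maj, ‖ft (Dl h (Dl u (Dl w f))) ξ‖^2 + 1 / R)`; by
`Dl_comm` the function is `Dl w (Dl h (Dl u f))`, and `avr_ft_Dl_le` in `w` gives `≤ 5 Maj.card * avr_h avr_u U2 (Dl h (Dl u f)) + 1/R`
`= 5 Maj.card * U4 f + 1 / R` (`U4 f = avr_h U3 (Dl h f) = avr_h avr_u U2 (Dl u (Dl h f))`).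
-/

set_option autoImplicit false

open Finset

namespace Pool.Agent.NLT

open Pool.Agent.HLT

namespace ThirdDirAux

variable {M : ℕ} [NeZero M]

lemma U3_eq_av (g : ZMod M → ℂ) :
    ((U3 g : ℝ) : ℂ) = av (fun h => av (fun u => av (fun w => av (Dl u (Dl w (Dl h g)))))) := by
  unfold U3
  rw [← av_ofReal]
  congr 1
  funext h
  rw [U2_eq_av]

lemma Phi_eq (A : ℕ) (v : ZMod M) (f : ZMod M → ℂ) :
    dv A (fun n => U3 (Dl (v * (n : ZMod M)) f)) =
      avr (fun h => avr (fun u => avr (fun w => Q2 A (Dl w (Dl u (Dl h f))) v))) := by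
  have key : ((dv A (fun n => U3 (Dl (v * (n : ZMod M)) f)) : ℝ) : ℂ) =
      ((avr (fun h => avr (fun u => avr (fun w => Q2 A (Dl w (Dl u (Dl h f))) v))) : ℝ) : ℂ) := by
    rw [← dvc_ofReal]
    have e1 : (fun n : ℤ => ((U3 (Dl (v * (n : ZMod M)) f) : ℝ) : ℂ)) =
        fun n : ℤ => av (fun h => av (fun u => av (fun w =>
          av (Dl (v * (n : ZMod M)) (Dl w (Dl u (Dl h f))))))) := by
      funext n
      rw [U3_eq_av]
      congr 1
      funext h
      congr 1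
      funext u
      congr 1
      funext w
      rw [Dl_comm h (v * (n : ZMod M)) f, Dl_comm w (v * (n : ZMod M)), Dl_comm u (v * (n : ZMod M)),
        Dl_comm u w]
    rw [e1, dvc_av_comm, ← av_ofReal]
    congr 1
    funext h
    rw [dvc_av_comm, ← av_ofReal]
    congr 1
    funext u
    rw [dvc_av_comm, ← av_ofReal]
    congr 1
    funext w
    rw [Q2_dvc]
  exact_mod_cast key

lemma sum_eq (s : Finset ℤ) (F : ℤ → ZMod M → ZMod M → ZMod M → ℝ) :
    ∑ k ∈ s, avr (fun h => avr (fun u => avr (fun w => F k h u w))) =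
      avr (fun h => avr (fun u => avr (fun w => ∑ k ∈ s, F k h u w))) := by
  rw [← avr_sum]
  congr 1
  funext h
  rw [← avr_sum]
  congr 1
  funext u
  rw [← avr_sum]

lemma div_eq (c : ℝ) (F : ZMod M → ZMod M → ZMod M → ℝ) :
    avr (fun h => avr (fun u => avr (fun w => F h u w))) / c =
      avr (fun h => avr (fun u => avr (fun w => F h u w / c))) := by
  rw [div_eq_inv_mul, ← avr_mul_left]
  congr 1
  funext h
  rw [← avr_mul_left]
  congr 1
  funext u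
  rw [← avr_mul_left]
  congr 1
  funext w
  rw [div_eq_inv_mul]

lemma inner_le (s : Finset (ZMod M)) (r : ℝ) (g : ZMod M → ℂ) :
    avr (fun w => 5 * ∑ ξ ∈ s, ‖ft (Dl w g) ξ‖ ^ 2 + r) ≤ 5 * (s.card : ℝ) * U2 g + r := by
  rw [avr_add, avr_const, avr_mul_left, avr_sum]
  have h : ∑ ξ ∈ s, avr (fun w => ‖ft (Dl w g) ξ‖ ^ 2) ≤ ∑ _ξ ∈ s, U2 g :=
    Finset.sum_le_sum (fun ξ _ => avr_ft_Dl_le g ξ)
  rw [Finset.sum_const, nsmul_eq_mul] at h
  linarith

lemma main_le (s : Finset (ZMod M)) (r : ℝ) (f : ZMod M → ℂ) :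
    avr (fun h => avr (fun u => avr (fun w => 5 * ∑ ξ ∈ s, ‖ft (Dl w (Dl u (Dl h f))) ξ‖ ^ 2 + r))) ≤
      5 * (s.card : ℝ) * U4 f + r := by
  calc avr (fun h => avr (fun u => avr (fun w => 5 * ∑ ξ ∈ s, ‖ft (Dl w (Dl u (Dl h f))) ξ‖ ^ 2 + r)))
      ≤ avr (fun h => avr (fun u => 5 * (s.card : ℝ) * U2 (Dl u (Dl h f)) + r)) :=
        avr_mono (fun h => avr_mono (fun u => inner_le s r _))
    _ = avr (fun h => 5 * (s.card : ℝ) * U3 (Dl h f) + r) := by
        congr 1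
        funext h
        rw [avr_add, avr_const, avr_mul_left]
        rfl
    _ = 5 * (s.card : ℝ) * U4 f + r := by
        rw [avr_add, avr_const, avr_mul_left]
        rfl

end ThirdDirAux

theorem third_dir : ∃ C : ℕ, ∀ (R H M A : ℕ) [NeZero M], 2 ≤ R → R ^ C ≤ H → H ≤ R * A → A ≤ H →
    ∀ f : ZMod M → ℂ, Bd f →
    dv A (fun α => dv A (fun n => U3 (Dl ((α : ZMod M) * (n : ZMod M)) f))) ≤
      5 * ((Maj M H (R ^ C)).card : ℝ) * U4 f + 1 / (R : ℝ) := by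
  obtain ⟨C, hC⟩ := kernel_two
  refine ⟨C, ?_⟩
  intro R H M A _ hR hH hA hAH f hf
  have hH1 : 1 ≤ H := le_trans (Nat.one_le_pow _ _ (by omega)) hH
  have hA1 : 1 ≤ A := by
    rcases Nat.eq_zero_or_pos A with h | h
    · subst h
      omega
    · exact h
  have hA0 : (0 : ℝ) < A := by exact_mod_cast hA1
  have hΦ : ∀ α : ℤ, 0 ≤ dv A (fun n => U3 (Dl ((α : ZMod M) * (n : ZMod M)) f)) :=
    fun α => dv_nonneg A (fun n => U3_nonneg _)
  calc dv A (fun α => dv A (fun n => U3 (Dl ((α : ZMod M) * (n : ZMod M)) f)))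
      ≤ (∑ k ∈ Icc (-(A : ℤ)) A, dv A (fun n => U3 (Dl ((k : ZMod M) * (n : ZMod M)) f))) / A :=
        dv_le_sum A hΦ
    _ ≤ (∑ k ∈ Icc (-(2 * A : ℤ)) (2 * A), dv A (fun n => U3 (Dl ((k : ZMod M) * (n : ZMod M)) f))) / A := by
        apply div_le_div_of_nonneg_right _ hA0.le
        apply Finset.sum_le_sum_of_subset_of_nonneg
        · apply Finset.Icc_subset_Icc
          · omega
          · omega
        · intro k _ _
          exact hΦ k
    _ = avr (fun h => avr (fun u => avr (fun w =>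
          (∑ k ∈ Icc (-(2 * A : ℤ)) (2 * A), Q2 A (Dl w (Dl u (Dl h f))) (k : ZMod M)) / A))) := by
        rw [← ThirdDirAux.div_eq, ← ThirdDirAux.sum_eq]
        congr 1
        apply Finset.sum_congr rfl
        intro k _
        exact ThirdDirAux.Phi_eq A (k : ZMod M) f
    _ ≤ avr (fun h => avr (fun u => avr (fun w =>
          5 * ∑ ξ ∈ Maj M H (R ^ C), ‖ft (Dl w (Dl u (Dl h f))) ξ‖ ^ 2 + 1 / (R : ℝ)))) :=
        avr_mono (fun h => avr_mono (fun u => avr_mono (fun w =>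
          hC R H M A A hR hH hA le_rfl hAH _ (Dl_Bd w (Dl_Bd u (Dl_Bd h hf))))))
    _ ≤ 5 * ((Maj M H (R ^ C)).card : ℝ) * U4 f + 1 / (R : ℝ) := ThirdDirAux.main_le _ _ f


end Pool.Agent.NLT
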