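import Pool.Agent.Lib.NLT.TwoDir
import Pool.Agent.Lib.NLT.ThirdDir
import Pool.Agent.Lib.NLT.RRPow
import Pool.Agent.Lib.NLT.Dens

/-!
# Module ConcIneq: the concatenation inequality

PROOF. `C` = maximum of the constants `C1` of `two_dir` and `C2` of `third_dir`; WARNING: the sets `Maj M H (R^C)` grow with `C`
(`Maj_mono`), so both inequalities stay true with the larger `C` (`U2, U4 ≥ 0`; `R^C ≤ H` implies `R^C1 ≤ H`).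
Let `g_{α n} = Dl (α n) f` (`κ = 1`). By power means (`dv_pow_le` twice, `k = 8`) `BX^8 ≤ dv_α dv_n RR 1 A α g_{α n} ^ 8`. For
`|α| < A`: `RR_pow`, then `density` with `Φ γ γ' d = QQ A' γ γ' (Dl d g)` (bounds `QQ_nonneg`, `QQ_le_one`), then, for every
`d`, `two_dir` for `G = Dl d g`, and `avr_d U2 (Dl d g) = U3 g` (definition). So
`RR^8 ≤ 8 (15 K^2 R' (25 m1 m2 U3 g + 5 m1 / R2 + 5 / R1) + 9 / K) + 2048 (A'/A)^4`; average over `α, n` and use `third_dir`: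
`dv_α dv_n U3 (Dl (α n) f) ≤ 5 m3 U4 f + 1 / R3`.
-/

set_option autoImplicit false

open Finset

namespace Pool.Agent.NLT

open Pool.Agent.HLT

namespace ConcIneqAux

lemma card_mono {M : ℕ} [NeZero M] {H R C C' : ℕ} (hR : 1 ≤ R) (h : C ≤ C') :
    ((Maj M H (R ^ C)).card : ℝ) ≤ (Maj M H (R ^ C')).card := by
  have h1 : Maj M H (R ^ C) ⊆ Maj M H (R ^ C') := Maj_mono (Nat.pow_le_pow_right hR h)
  exact_mod_cast Finset.card_le_card h1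

lemma two_dir' {C1 C : ℕ} (hC : C1 ≤ C)
    (h : ∀ (R1 R2 H M A A' : ℕ) [NeZero M], 2 ≤ R1 → 2 ≤ R2 → R1 ^ C1 ≤ H → R2 ^ C1 ≤ H →
      H ≤ R1 * A' → H ≤ R2 * A' → A' ≤ A → A ≤ H → ∀ G : ZMod M → ℂ, Bd G →
      (∑ γ ∈ Icc (-(2 * A : ℤ)) (2 * A), ∑ γ' ∈ Icc (-(2 * A : ℤ)) (2 * A),
          QQ A' (γ : ZMod M) (γ' : ZMod M) G) / (A : ℝ) ^ 2 ≤
        25 * ((Maj M H (R1 ^ C1)).card : ℝ) * (Maj M H (R2 ^ C1)).card * U2 G +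
          5 * ((Maj M H (R1 ^ C1)).card : ℝ) / R2 + 5 / R1)
    (R1 R2 H M A A' : ℕ) [NeZero M] (h1 : 2 ≤ R1) (h2 : 2 ≤ R2) (h3 : R1 ^ C ≤ H) (h4 : R2 ^ C ≤ H)
    (h5 : H ≤ R1 * A') (h6 : H ≤ R2 * A') (h7 : A' ≤ A) (h8 : A ≤ H) (G : ZMod M → ℂ) (hG : Bd G) :
    (∑ γ ∈ Icc (-(2 * A : ℤ)) (2 * A), ∑ γ' ∈ Icc (-(2 * A : ℤ)) (2 * A),
        QQ A' (γ : ZMod M) (γ' : ZMod M) G) / (A : ℝ) ^ 2 ≤
      25 * ((Maj M H (R1 ^ C)).card : ℝ) * (Maj M H (R2 ^ C)).card * U2 G +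
        (5 * ((Maj M H (R1 ^ C)).card : ℝ) / R2 + 5 / R1) := by
  have e1 : R1 ^ C1 ≤ H := (Nat.pow_le_pow_right (by omega) hC).trans h3
  have e2 : R2 ^ C1 ≤ H := (Nat.pow_le_pow_right (by omega) hC).trans h4
  refine (h R1 R2 H M A A' h1 h2 e1 e2 h5 h6 h7 h8 G hG).trans ?_
  have m1 := card_mono (M := M) (H := H) (R := R1) (by omega) hC
  have m2 := card_mono (M := M) (H := H) (R := R2) (by omega) hC
  have hU := U2_nonneg G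
  have hR2 : (0 : ℝ) ≤ R2 := Nat.cast_nonneg _
  rw [add_assoc]
  gcongr

lemma third_dir' {C2 C : ℕ} (hC : C2 ≤ C)
    (h : ∀ (R H M A : ℕ) [NeZero M], 2 ≤ R → R ^ C2 ≤ H → H ≤ R * A → A ≤ H →
      ∀ f : ZMod M → ℂ, Bd f →
      dv A (fun α => dv A (fun n => U3 (Dl ((α : ZMod M) * (n : ZMod M)) f))) ≤
        5 * ((Maj M H (R ^ C2)).card : ℝ) * U4 f + 1 / (R : ℝ))
    (R H M A : ℕ) [NeZero M] (h1 : 2 ≤ R) (h2 : R ^ C ≤ H) (h3 : H ≤ R * A) (h4 : A ≤ H)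
    (f : ZMod M → ℂ) (hf : Bd f) :
    dv A (fun α => dv A (fun n => U3 (Dl ((α : ZMod M) * (n : ZMod M)) f))) ≤
      5 * ((Maj M H (R ^ C)).card : ℝ) * U4 f + 1 / (R : ℝ) := by
  have e1 : R ^ C2 ≤ H := (Nat.pow_le_pow_right (by omega) hC).trans h2
  refine (h R H M A h1 e1 h3 h4 f hf).trans ?_
  have m1 := card_mono (M := M) (H := H) (R := R) (by omega) hC
  have hU := U4_nonneg f
  gcongr

lemma RR_le (M A A' K R' : ℕ) [NeZero M] (hA' : 1 ≤ A') (hA : A' ≤ A) (hK : 1 ≤ K) (hKA : K ≤ A)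
    (hAM : A ^ 2 ≤ M) (hMR : M ≤ R' * A ^ 2) (T S : ℝ)
    (h : ∀ G : ZMod M → ℂ, Bd G →
      (∑ γ ∈ Icc (-(2 * A : ℤ)) (2 * A), ∑ γ' ∈ Icc (-(2 * A : ℤ)) (2 * A),
        QQ A' (γ : ZMod M) (γ' : ZMod M) G) / (A : ℝ) ^ 2 ≤ T * U2 G + S)
    (α : ℤ) (hα : |α| < A) (g : ZMod M → ℂ) (hg : Bd g) :
    RR 1 A α g ^ 8 ≤ 8 * (15 * (K : ℝ) ^ 2 * R' * (T * U3 g + S) + 9 / K) +
      2048 * ((A' : ℝ) / A) ^ 4 := by
  refine (RR_pow A A' hA' hA α g hg).trans ?_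
  have hd := density M A K R' hK hKA hAM hMR α hα.le
    (fun γ γ' d => QQ A' (γ : ZMod M) (γ' : ZMod M) (Dl d g))
    (fun γ γ' d => QQ_nonneg _ _ _ _) (fun γ γ' d => QQ_le_one _ _ _ (Dl_Bd d hg))
  have hs : (∑ γ ∈ Icc (-(2 * A : ℤ)) (2 * A), ∑ γ' ∈ Icc (-(2 * A : ℤ)) (2 * A),
        avr (fun d => QQ A' (γ : ZMod M) (γ' : ZMod M) (Dl d g))) / (A : ℝ) ^ 2 ≤
      T * U3 g + S := by
    have e1 : (∑ γ ∈ Icc (-(2 * A : ℤ)) (2 * A), ∑ γ' ∈ Icc (-(2 * A : ℤ)) (2 * A),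
        avr (fun d => QQ A' (γ : ZMod M) (γ' : ZMod M) (Dl d g))) / (A : ℝ) ^ 2 =
        avr (fun d => (∑ γ ∈ Icc (-(2 * A : ℤ)) (2 * A), ∑ γ' ∈ Icc (-(2 * A : ℤ)) (2 * A),
          QQ A' (γ : ZMod M) (γ' : ZMod M) (Dl d g)) / (A : ℝ) ^ 2) := by
      have e2 : ∀ d : ZMod M, (∑ γ ∈ Icc (-(2 * A : ℤ)) (2 * A), ∑ γ' ∈ Icc (-(2 * A : ℤ)) (2 * A),
          QQ A' (γ : ZMod M) (γ' : ZMod M) (Dl d g)) / (A : ℝ) ^ 2 =
          (1 / (A : ℝ) ^ 2) * ∑ γ ∈ Icc (-(2 * A : ℤ)) (2 * A), ∑ γ' ∈ Icc (-(2 * A : ℤ)) (2 * A),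
          QQ A' (γ : ZMod M) (γ' : ZMod M) (Dl d g) := fun d => by ring
      simp only [e2]
      rw [avr_mul_left, avr_sum]
      simp only [avr_sum]
      ring
    rw [e1]
    refine (avr_mono (fun d => h (Dl d g) (Dl_Bd d hg))).trans ?_
    rw [avr_add, avr_mul_left, avr_const]
    exact le_of_eq rfl
  have hc : (0 : ℝ) ≤ 15 * (K : ℝ) ^ 2 * R' := by positivity
  have hfin := hd.trans (add_le_add_left (mul_le_mul_of_nonneg_left hs hc) _)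
  have := mul_le_mul_of_nonneg_left hfin (by norm_num : (0 : ℝ) ≤ 8)
  exact add_le_add_left this _

lemma dv2_affine (A : ℕ) (hA : 1 ≤ A) (F : ℤ → ℤ → ℝ) (c e : ℝ) :
    dv A (fun α => dv A (fun n => c * F α n + e)) = c * dv A (fun α => dv A (fun n => F α n)) + e := by
  have h1 : ∀ α : ℤ, dv A (fun n => c * F α n + e) = c * dv A (fun n => F α n) + e := by
    intro α
    rw [dv_add, dv_mul_left, dv_const A hA]
  simp only [h1]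
  rw [dv_add, dv_mul_left, dv_const A hA]

end ConcIneqAux

open ConcIneqAux

theorem conc_ineq : ∃ C : ℕ, ∀ (R' R1 R2 R3 K H M A A' : ℕ) [NeZero M], 2 ≤ R1 → 2 ≤ R2 → 2 ≤ R3 → R1 ^ C ≤ H →
    R2 ^ C ≤ H → R3 ^ C ≤ H → 1 ≤ A' → A' ≤ A → A ≤ H → H ≤ R1 * A' → H ≤ R2 * A' → H ≤ R3 * A' → 1 ≤ K → K ≤ A →
    A ^ 2 ≤ M → M ≤ R' * A ^ 2 → ∀ f : ZMod M → ℂ, Bd f →
    BX 1 A f ^ 8 ≤ 8 * (15 * (K : ℝ) ^ 2 * R' *
        (25 * ((Maj M H (R1 ^ C)).card : ℝ) * (Maj M H (R2 ^ C)).card *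
            (5 * ((Maj M H (R3 ^ C)).card : ℝ) * U4 f + 1 / R3) +
          5 * ((Maj M H (R1 ^ C)).card : ℝ) / R2 + 5 / R1) + 9 / K) +
      2048 * ((A' : ℝ) / A) ^ 4 := by
  obtain ⟨C1, h1⟩ := two_dir
  obtain ⟨C2, h2⟩ := third_dir
  refine ⟨max C1 C2, ?_⟩
  intro R' R1 R2 R3 K H M A A' _ hR1 hR2 hR3 p1 p2 p3 hA' hA hAH q1 q2 q3 hK hKA hAM hMR f hf
  have hA1 : 1 ≤ A := hA'.trans hA
  have hR3' : H ≤ R3 * A := q3.trans (Nat.mul_le_mul_left _ hA)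
  have t2 := two_dir' (le_max_left C1 C2) h1 R1 R2 H M A A' hR1 hR2 p1 p2 q1 q2 hA hAH
  have t3 := third_dir' (le_max_right C1 C2) h2 R3 H M A hR3 p3 hR3' hAH f hf
  have hRR := RR_le M A A' K R' hA' hA hK hKA hAM hMR _ _ t2
  have hB : BX 1 A f ^ 8 ≤ dv A (fun α => dv A (fun n =>
      RR 1 A α (Dl ((α : ZMod M) * (n : ZMod M)) f) ^ 8)) := by
    have e : BX 1 A f = dv A (fun α => dv A (fun n =>
        RR 1 A α (Dl ((α : ZMod M) * (n : ZMod M)) f))) := by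
      unfold BX
      simp only [one_mul]
    rw [e]
    refine (dv_pow_le A 8 (by norm_num) (fun α => dv_nonneg A (fun n => RR_nonneg _ _ _ _))).trans ?_
    refine dv_mono A (fun α _ => ?_)
    exact dv_pow_le A 8 (by norm_num) (fun n => RR_nonneg _ _ _ _)
  refine hB.trans ?_
  have hB2 := dv_mono A (F := fun α => dv A (fun n =>
      RR 1 A α (Dl ((α : ZMod M) * (n : ZMod M)) f) ^ 8))
    (fun α hα => dv_mono A (F := fun n => RR 1 A α (Dl ((α : ZMod M) * (n : ZMod M)) f) ^ 8)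
      (fun n _ => hRR α hα _ (Dl_Bd _ hf)))
  refine hB2.trans ?_
  set m1 : ℝ := ((Maj M H (R1 ^ max C1 C2)).card : ℝ) with hm1
  set m2 : ℝ := ((Maj M H (R2 ^ max C1 C2)).card : ℝ) with hm2
  set m3 : ℝ := ((Maj M H (R3 ^ max C1 C2)).card : ℝ) with hm3
  have hm1' : 0 ≤ m1 := by rw [hm1]; positivity
  have hm2' : 0 ≤ m2 := by rw [hm2]; positivity
  have hfun : ∀ α n : ℤ, 8 * (15 * (K : ℝ) ^ 2 * R' * (25 * m1 * m2 *
      U3 (Dl ((α : ZMod M) * (n : ZMod M)) f) + (5 * m1 / R2 + 5 / R1)) + 9 / K) +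
        2048 * ((A' : ℝ) / A) ^ 4 =
      (8 * (15 * (K : ℝ) ^ 2 * R' * (25 * m1 * m2))) * U3 (Dl ((α : ZMod M) * (n : ZMod M)) f) +
        (8 * (15 * (K : ℝ) ^ 2 * R' * (5 * m1 / R2 + 5 / R1) + 9 / K) +
          2048 * ((A' : ℝ) / A) ^ 4) := by
    intro α n
    ring
  simp only [hfun]
  rw [dv2_affine A hA1 (fun α n => U3 (Dl ((α : ZMod M) * (n : ZMod M)) f))]
  have hc : (0 : ℝ) ≤ 8 * (15 * (K : ℝ) ^ 2 * R' * (25 * m1 * m2)) := by positivity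
  refine (add_le_add_left (mul_le_mul_of_nonneg_left t3 hc) _).trans (le_of_eq ?_)
  ring

end Pool.Agent.NLT
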