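import Pool.Agent.Lib.NLT.MA

/-!
# Module ConcOne: a large Fourier coefficient of the dual function gives local structure of `f1`

PROOF. `ft (FF ..) η = av_x tv_t conj (f0 (x - P t) f1 (x - P t + a t)) chi (-η) x`; take the conjugate and shift `x` by `P t`:
`1 / R ≤ ‖tv_t av_x f0 x * f1 (x + a t) * chi η (x + P t)‖`. By `ma`, `η ∈ Maj M H (R^C1)`: `q0 ≤ R^C1` with
`nrm (q0 η / M) ≤ R^C1 / H^2` (`mem_Maj`). For `j < J` replace `t` by `t + q0 j` (`norm_tv_shift`, error `2 q0 J / H`) and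
`chi η (P (t + q0 j)) = chi η (P t) * chi η (q0 s)`, `s = 2 c j t + c q0 j^2 + d j`, `|s| ≤ J (3 |c| + |d|) H` (if `q0 J ≤ H`), so
`‖chi η (q0 s) - 1‖ ≤ 7 |s| nrm (q0 η / M) ≤ 7 (3 |c| + |d|) R^C1 J / H` (`norm_chi_sub_one_le`, `nrm_int_mul_le`). Average over
`j < J`: `1 / R ≤ ‖tv_t av_x f0 x chi η (x + P t) * tv_j f1 (x + a t + a q0 j)‖ + small ≤ avr_x ‖tv_j f1 (x + a q0 j)‖ + small` (shift `x` by
`- a t`), where `small ≤ 1 / (2 R)` if `J R^C ≤ H`. Take `q = |a| q0`; if `a < 0` reverse the progression: `j ↦ J - 1 - j` and shift `x`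
(`tv_j f1 (x - |a| q0 j)` at `x = y + |a| q0 (J - 1)` is `tv_j f1 (y + |a| q0 j)`).
-/

set_option autoImplicit false

open Finset

namespace Pool.Agent.NLT

open Pool.Agent.HLT

namespace ConcOneAux

variable {M : ℕ} [NeZero M]

lemma conj_tv (H : ℕ) (F : ℕ → ℂ) : (starRingEnd ℂ) (tv H F) = tv H (fun t => (starRingEnd ℂ) (F t)) := by
  unfold tv
  rw [map_div₀, map_sum, Complex.conj_natCast]

lemma tv_mul_right (H : ℕ) (c : ℂ) (F : ℕ → ℂ) : tv H (fun t => F t * c) = tv H F * c := by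
  rw [mul_comm (tv H F) c, ← tv_mul_left]
  congr 1
  funext t
  ring

/-- The correlation as a function of `t`. -/
noncomputable def Fc (a c d : ℤ) (f0 f1 : ZMod M → ℂ) (η : ZMod M) (t : ℕ) : ℂ :=
  av (fun x => f0 x * f1 (x + ((a * (t : ℤ) : ℤ) : ZMod M)) * chi η (x + ((PP c d t : ℤ) : ZMod M)))

lemma conj_ft (a c d : ℤ) (H : ℕ) (f0 f1 : ZMod M → ℂ) (η : ZMod M) :
    (starRingEnd ℂ) (ft (FF a c d H f0 f1) η) = tv H (Fc a c d f0 f1 η) := by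
  unfold ft
  rw [← av_conj]
  have h1 : ∀ x, (starRingEnd ℂ) (FF a c d H f0 f1 x * chi (-η) x) =
      tv H (fun t => (f0 (x - ((PP c d t : ℤ) : ZMod M)) *
        f1 (x - ((PP c d t : ℤ) : ZMod M) + ((a * (t : ℤ) : ℤ) : ZMod M))) * chi η x) := by
    intro x
    rw [map_mul, ← chi_neg_left (-η) x, neg_neg, tv_mul_right]
    unfold FF
    rw [conj_tv]
    simp only [Complex.conj_conj]
  simp only [h1]
  rw [← tv_av_comm H (fun t x => (f0 (x - ((PP c d t : ℤ) : ZMod M)) *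
        f1 (x - ((PP c d t : ℤ) : ZMod M) + ((a * (t : ℤ) : ℤ) : ZMod M))) * chi η x)]
  congr 1
  funext t
  unfold Fc
  rw [← av_shift_sub (fun x => f0 x * f1 (x + ((a * (t : ℤ) : ℤ) : ZMod M)) *
    chi η (x + ((PP c d t : ℤ) : ZMod M))) ((PP c d t : ℤ) : ZMod M)]
  congr 1
  funext x
  rw [sub_add_cancel]

lemma norm_Fc_le (a c d : ℤ) {f0 f1 : ZMod M → ℂ} (h0 : Bd f0) (h1 : Bd f1) (η : ZMod M) (t : ℕ) :
    ‖Fc a c d f0 f1 η t‖ ≤ 1 := by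
  unfold Fc
  refine norm_av_le_one ?_
  intro x
  rw [norm_mul, norm_mul, norm_chi, mul_one]
  exact mul_le_one₀ (h0 x) (norm_nonneg _) (h1 _)

/-- Shifting the phase. -/
lemma err {f0 f1 : ZMod M → ℂ} (h0 : Bd f0) (h1 : Bd f1) (η A B S : ZMod M) :
    ‖av (fun x => f0 x * f1 (x + A) * chi η (x + (B + S))) - av (fun x => f0 x * f1 (x + A) * chi η (x + B))‖ ≤
      ‖chi η S - 1‖ := by
  have e1 : av (fun x => f0 x * f1 (x + A) * chi η (x + (B + S))) - av (fun x => f0 x * f1 (x + A) * chi η (x + B)) =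
      (chi η S - 1) * av (fun x => f0 x * f1 (x + A) * chi η (x + B)) := by
    rw [← av_mul_left, ← av_sub]
    congr 1
    funext x
    rw [← add_assoc, chi_add_right η (x + B) S]
    ring
  rw [e1, norm_mul]
  have h2 : ‖av (fun x => f0 x * f1 (x + A) * chi η (x + B))‖ ≤ 1 := by
    refine norm_av_le_one ?_
    intro x
    rw [norm_mul, norm_mul, norm_chi, mul_one]
    exact mul_le_one₀ (h0 x) (norm_nonneg _) (h1 _)
  calc ‖chi η S - 1‖ * _ ≤ ‖chi η S - 1‖ * 1 := mul_le_mul_of_nonneg_left h2 (norm_nonneg _)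
    _ = _ := mul_one _

/-- Phase error on a progression with step `q0`. -/
lemma phase (c d : ℤ) (η : ZMod M) (q0 H J t j : ℕ) (ht : t < H) (hj : j < J) (hqJ : q0 * J ≤ H) (E : ℝ)
    (hE : nrm ((q0 : ℝ) * ((η.val : ℝ) / M)) ≤ E) :
    ‖chi η (((q0 : ℤ) * (2 * c * j * t + c * q0 * (j : ℤ) ^ 2 + d * j) : ℤ) : ZMod M) - 1‖ ≤
      7 * ((3 * |(c : ℝ)| + |(d : ℝ)|) * (J * H) * E) := by
  refine (norm_chi_sub_one_le _ _).trans ?_
  have e1 : (((q0 : ℤ) * (2 * c * j * t + c * q0 * (j : ℤ) ^ 2 + d * j) : ℤ) : ℝ) * ((η.val : ℝ) / M) =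
      ((2 * c * j * t + c * q0 * (j : ℤ) ^ 2 + d * j : ℤ) : ℝ) * ((q0 : ℝ) * ((η.val : ℝ) / M)) := by
    push_cast
    ring
  rw [e1]
  have h1 := nrm_int_mul_le (2 * c * j * t + c * q0 * (j : ℤ) ^ 2 + d * j) ((q0 : ℝ) * ((η.val : ℝ) / M))
  have hn := nrm_nonneg ((q0 : ℝ) * ((η.val : ℝ) / M))
  have hE0 : 0 ≤ E := hn.trans hE
  have htR : (t : ℝ) ≤ H := by exact_mod_cast ht.le
  have hjR : (j : ℝ) ≤ J := by exact_mod_cast hj.le
  have hqR : (q0 : ℝ) * J ≤ H := by exact_mod_cast hqJ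
  have hH1 : (1 : ℝ) ≤ H := by
    have : 1 ≤ H := by omega
    exact_mod_cast this
  have ht0 : (0 : ℝ) ≤ t := Nat.cast_nonneg t
  have hj0 : (0 : ℝ) ≤ j := Nat.cast_nonneg j
  have hq0 : (0 : ℝ) ≤ q0 := Nat.cast_nonneg q0
  have hJ0 : (0 : ℝ) ≤ J := Nat.cast_nonneg J
  have hH0 : (0 : ℝ) ≤ H := by linarith
  have h2 : |((2 * c * j * t + c * q0 * (j : ℤ) ^ 2 + d * j : ℤ) : ℝ)| ≤
      (3 * |(c : ℝ)| + |(d : ℝ)|) * (J * H) := by
    push_cast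
    have a1 : |2 * (c : ℝ) * j * t| ≤ 2 * |(c : ℝ)| * (J * H) := by
      rw [abs_mul, abs_mul, abs_mul, abs_of_nonneg ht0, abs_of_nonneg hj0, abs_of_pos (by norm_num : (0 : ℝ) < 2)]
      have : (j : ℝ) * t ≤ J * H := mul_le_mul hjR htR ht0 hJ0
      have hc0 := abs_nonneg (c : ℝ)
      nlinarith
    have a2 : |(c : ℝ) * q0 * (j : ℝ) ^ 2| ≤ |(c : ℝ)| * (J * H) := by
      rw [abs_mul, abs_mul, abs_of_nonneg hq0, abs_of_nonneg (sq_nonneg (j : ℝ))]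
      have b1 : (q0 : ℝ) * j ≤ H := (mul_le_mul_of_nonneg_left hjR hq0).trans hqR
      have b2 : (q0 : ℝ) * (j : ℝ) ^ 2 ≤ J * H := by
        calc (q0 : ℝ) * (j : ℝ) ^ 2 = j * (q0 * j) := by ring
          _ ≤ J * H := mul_le_mul hjR b1 (mul_nonneg hq0 hj0) hJ0
      calc |(c : ℝ)| * q0 * (j : ℝ) ^ 2 = |(c : ℝ)| * (q0 * (j : ℝ) ^ 2) := by ring
        _ ≤ _ := mul_le_mul_of_nonneg_left b2 (abs_nonneg _)
    have a3 : |(d : ℝ) * j| ≤ |(d : ℝ)| * (J * H) := by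
      rw [abs_mul, abs_of_nonneg hj0]
      refine mul_le_mul_of_nonneg_left ?_ (abs_nonneg _)
      calc (j : ℝ) ≤ J := hjR
        _ = J * 1 := (mul_one _).symm
        _ ≤ J * H := mul_le_mul_of_nonneg_left hH1 hJ0
    have a4 := abs_add_le (2 * (c : ℝ) * j * t + (c : ℝ) * q0 * (j : ℝ) ^ 2) ((d : ℝ) * j)
    have a5 := abs_add_le (2 * (c : ℝ) * j * t) ((c : ℝ) * q0 * (j : ℝ) ^ 2)
    calc _ ≤ 2 * |(c : ℝ)| * (J * H) + |(c : ℝ)| * (J * H) + |(d : ℝ)| * (J * H) := by linarith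
      _ = _ := by ring
  have h3 : |((2 * c * j * t + c * q0 * (j : ℤ) ^ 2 + d * j : ℤ) : ℝ)| * nrm ((q0 : ℝ) * ((η.val : ℝ) / M)) ≤
      (3 * |(c : ℝ)| + |(d : ℝ)|) * (J * H) * E :=
    mul_le_mul h2 hE hn (by positivity)
  linarith

/-- The main inequality on a progression with step `a q0`. -/
lemma main (a c d : ℤ) (q0 H J : ℕ) (hJ : 1 ≤ J) (hH : 1 ≤ H) (hqJ : q0 * J ≤ H) (E : ℝ)
    {f0 f1 : ZMod M → ℂ} (h0 : Bd f0) (h1 : Bd f1) (η : ZMod M)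
    (hE : nrm ((q0 : ℝ) * ((η.val : ℝ) / M)) ≤ E) :
    ‖tv H (Fc a c d f0 f1 η)‖ ≤ avr (fun x => ‖tv J (fun j => f1 (x + ((a * ((q0 * j : ℕ) : ℤ) : ℤ) : ZMod M)))‖) +
      (2 * ((q0 * J : ℕ) : ℝ) / H + 7 * ((3 * |(c : ℝ)| + |(d : ℝ)|) * (J * H) * E)) := by
  set F := Fc a c d f0 f1 η with hF
  set G : ℕ → ℕ → ℂ := fun j t => av (fun x => f0 x *
    f1 (x + ((a * ((t + q0 * j : ℕ) : ℤ) : ℤ) : ZMod M)) * chi η (x + ((PP c d t : ℤ) : ZMod M))) with hG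
  set ε1 := 2 * ((q0 * J : ℕ) : ℝ) / H with hε1
  set ε2 := 7 * ((3 * |(c : ℝ)| + |(d : ℝ)|) * (J * H) * E) with hε2
  have hHR : (0 : ℝ) < H := by exact_mod_cast hH
  have hstep : ∀ j < J, ‖tv H F - tv H (G j)‖ ≤ ε1 + ε2 := by
    intro j hj
    have e1 := norm_tv_shift H (q0 * j) F (norm_Fc_le a c d h0 h1 η)
    have e2 : ‖tv H (fun t => F (t + q0 * j)) - tv H (G j)‖ ≤ ε2 := by
      rw [← tv_sub]
      refine (norm_tv_le _ _).trans ?_
      have hpos : 0 ≤ ε2 := by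
        have := (nrm_nonneg _).trans hE
        positivity
      refine tvr_le H hpos ?_
      intro t ht
      have e3 : ((PP c d (t + q0 * j) : ℤ) : ZMod M) = ((PP c d t : ℤ) : ZMod M) +
          (((q0 : ℤ) * (2 * c * j * t + c * q0 * (j : ℤ) ^ 2 + d * j) : ℤ) : ZMod M) := by
        rw [← Int.cast_add]
        congr 1
        unfold PP
        push_cast
        ring
      have e4 := err h0 h1 η ((a * ((t + q0 * j : ℕ) : ℤ) : ℤ) : ZMod M) ((PP c d t : ℤ) : ZMod M)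
        (((q0 : ℤ) * (2 * c * j * t + c * q0 * (j : ℤ) ^ 2 + d * j) : ℤ) : ZMod M)
      rw [← e3] at e4
      exact e4.trans (phase c d η q0 H J t j ht hj hqJ E hE)
    have e5 : 2 * ((q0 * j : ℕ) : ℝ) / H ≤ ε1 := by
      rw [hε1]
      have : ((q0 * j : ℕ) : ℝ) ≤ ((q0 * J : ℕ) : ℝ) := by exact_mod_cast Nat.mul_le_mul_left q0 hj.le
      gcongr
    have e6 : tv H F - tv H (G j) = -(tv H (fun t => F (t + q0 * j)) - tv H F) +
        (tv H (fun t => F (t + q0 * j)) - tv H (G j)) := by ring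
    rw [e6]
    refine (norm_add_le _ _).trans ?_
    rw [norm_neg]
    linarith
  have hav : ‖tv H F - tv J (fun j => tv H (G j))‖ ≤ ε1 + ε2 := by
    rw [← tv_const J hJ (tv H F), ← tv_sub]
    refine (norm_tv_le _ _).trans ?_
    have hpos : 0 ≤ ε1 + ε2 := (norm_nonneg _).trans (hstep 0 (by omega))
    exact tvr_le J hpos hstep
  have hmain : ‖tv J (fun j => tv H (G j))‖ ≤
      avr (fun x => ‖tv J (fun j => f1 (x + ((a * ((q0 * j : ℕ) : ℤ) : ℤ) : ZMod M)))‖) := by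
    rw [tv_comm]
    refine (norm_tv_le _ _).trans ?_
    refine tvr_le H (avr_nonneg (fun x => norm_nonneg _)) ?_
    intro t _
    have e1 : tv J (fun j => G j t) = av (fun x => (f0 x * chi η (x + ((PP c d t : ℤ) : ZMod M))) *
        tv J (fun j => f1 ((x + ((a * (t : ℤ) : ℤ) : ZMod M)) + ((a * ((q0 * j : ℕ) : ℤ) : ℤ) : ZMod M)))) := by
      rw [hG]
      simp only
      rw [tv_av_comm J (fun j x => f0 x *
        f1 (x + ((a * ((t + q0 * j : ℕ) : ℤ) : ℤ) : ZMod M)) * chi η (x + ((PP c d t : ℤ) : ZMod M)))]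
      congr 1
      funext x
      rw [← tv_mul_left]
      congr 1
      funext j
      have e2 : x + ((a * ((t + q0 * j : ℕ) : ℤ) : ℤ) : ZMod M) =
          (x + ((a * (t : ℤ) : ℤ) : ZMod M)) + ((a * ((q0 * j : ℕ) : ℤ) : ℤ) : ZMod M) := by
        push_cast
        ring
      rw [e2]
      ring
    rw [e1]
    refine (norm_av_le _).trans ?_
    rw [← avr_shift (fun x => ‖tv J (fun j => f1 (x + ((a * ((q0 * j : ℕ) : ℤ) : ℤ) : ZMod M)))‖)
      ((a * (t : ℤ) : ℤ) : ZMod M)]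
    refine avr_mono (fun x => ?_)
    rw [norm_mul]
    refine mul_le_of_le_one_left (norm_nonneg _) ?_
    rw [norm_mul, norm_chi, mul_one]
    exact h0 x
  have h5 : ‖tv H F‖ ≤ ‖tv H F - tv J (fun j => tv H (G j))‖ + ‖tv J (fun j => tv H (G j))‖ := by
    have := norm_add_le (tv H F - tv J (fun j => tv H (G j))) (tv J (fun j => tv H (G j)))
    rwa [sub_add_cancel] at this
  linarith

/-- Reversing a progression. -/
lemma reverse (f : ZMod M → ℂ) (J : ℕ) (z : ZMod M) :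
    avr (fun x => ‖tv J (fun j => f (x - z * (j : ZMod M)))‖) = avr (fun x => ‖tv J (fun j => f (x + z * (j : ZMod M)))‖) := by
  rw [← avr_shift (fun x => ‖tv J (fun j => f (x - z * (j : ZMod M)))‖) (z * ((J - 1 : ℕ) : ZMod M))]
  congr 1
  funext x
  congr 1
  unfold tv
  congr 1
  rw [← sum_range_reflect (fun j => f (x + z * ((j : ℕ) : ZMod M)))]
  refine sum_congr rfl (fun j hj => ?_)
  rw [mem_range] at hj
  congr 1
  rw [Nat.cast_sub (show j ≤ J - 1 by omega)]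
  ring_nf

end ConcOneAux

open ConcOneAux in
theorem conc_f1 (a c d : ℤ) (ha : a ≠ 0) (hc : c ≠ 0) : ∃ C : ℕ, ∀ (R H M : ℕ) [NeZero M], 2 ≤ R → R ^ C ≤ H →
    ∀ f0 f1 : ZMod M → ℂ, Bd f0 → Bd f1 → ∀ η : ZMod M, 1 / (R : ℝ) ≤ ‖ft (FF a c d H f0 f1) η‖ →
    ∃ q : ℕ, 1 ≤ q ∧ q ≤ R ^ C ∧ ∀ J : ℕ, 1 ≤ J → J * R ^ C ≤ H →
      1 / (R : ℝ) ^ C ≤ avr (fun x => ‖tv J (fun j => f1 (x + ((q * j : ℕ) : ZMod M)))‖) := by
  obtain ⟨C1, hC1⟩ := ma a c d hc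
  set D : ℕ := 3 * c.natAbs + d.natAbs with hD
  set k : ℕ := 2 * (2 + 7 * D) with hk
  refine ⟨C1 + (1 + k + a.natAbs), ?_⟩
  intro R H M _ hR hRH f0 f1 h0 h1 η hη
  have hRpos : 0 < R := by omega
  have hRR : (2 : ℝ) ≤ R := by exact_mod_cast hR
  have hRH1 : R ^ C1 ≤ H := (Nat.pow_le_pow_right hRpos (by omega)).trans hRH
  have hH1 : 1 ≤ H := le_trans (Nat.one_le_pow _ _ hRpos) hRH
  have hT : 1 / (R : ℝ) ≤ ‖tv H (Fc a c d f0 f1 η)‖ := by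
    rw [← conj_ft, RCLike.norm_conj]
    exact hη
  have hmaj := hC1 R H M hR hRH1 f0 f1 h0 h1 η hT
  rw [mem_Maj] at hmaj
  obtain ⟨q0, hq1, hq2, hq3⟩ := hmaj
  refine ⟨a.natAbs * q0, ?_, ?_, ?_⟩
  · have : 1 ≤ a.natAbs := Int.natAbs_pos.mpr ha
    exact Nat.mul_pos this hq1
  · have e1 : a.natAbs ≤ R ^ a.natAbs := (Nat.lt_pow_self (by omega)).le
    calc a.natAbs * q0 ≤ R ^ a.natAbs * R ^ C1 := Nat.mul_le_mul e1 hq2
      _ = R ^ (C1 + a.natAbs) := by rw [← pow_add, add_comm]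
      _ ≤ _ := Nat.pow_le_pow_right hRpos (by omega)
  intro J hJ hJH
  -- sizes
  have hJ1 : J * (R ^ C1 * (R * k)) ≤ H := by
    have e1 : k ≤ R ^ k := (Nat.lt_pow_self (by omega)).le
    have e2 : R ^ C1 * (R * k) ≤ R ^ (C1 + (1 + k + a.natAbs)) := by
      calc R ^ C1 * (R * k) ≤ R ^ C1 * (R * R ^ k) := by gcongr
        _ = R ^ (C1 + (1 + k)) := by ring
        _ ≤ _ := Nat.pow_le_pow_right hRpos (by omega)
    exact (Nat.mul_le_mul_left J e2).trans hJH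
  have hk1 : 1 ≤ R * k := Nat.mul_pos hRpos (by omega)
  have hqJ : q0 * J ≤ H := by
    calc q0 * J ≤ R ^ C1 * J := Nat.mul_le_mul_right J hq2
      _ = J * (R ^ C1 * 1) := by ring
      _ ≤ J * (R ^ C1 * (R * k)) := by gcongr
      _ ≤ H := hJ1
  have hmain := main a c d q0 H J hJ hH1 hqJ _ h0 h1 η hq3
  have hHR : (0 : ℝ) < H := by exact_mod_cast hH1
  have hJ0 : (0 : ℝ) ≤ J := Nat.cast_nonneg J
  have hJR : (J : ℝ) * ((R : ℝ) ^ C1 * (R * k)) ≤ H := by exact_mod_cast hJ1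
  have hDR : (3 * |(c : ℝ)| + |(d : ℝ)|) = D := by
    rw [hD]
    push_cast
    rw [Nat.cast_natAbs, Nat.cast_natAbs, Int.cast_abs, Int.cast_abs]
  have hkR : (k : ℝ) = 2 * (2 + 7 * D) := by
    rw [hk]
    push_cast
    ring
  have hq2R : (q0 : ℝ) ≤ (R : ℝ) ^ C1 := by exact_mod_cast hq2
  have hsmall : 2 * ((q0 * J : ℕ) : ℝ) / H + 7 * ((3 * |(c : ℝ)| + |(d : ℝ)|) * (J * H) *
      (((R ^ C1 : ℕ) : ℝ) / (H : ℝ) ^ 2)) ≤ 1 / (2 * R) := by
    rw [hDR]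
    have e1 : 7 * ((D : ℝ) * (J * H) * (((R ^ C1 : ℕ) : ℝ) / (H : ℝ) ^ 2)) = 7 * D * J * (R : ℝ) ^ C1 / H := by
      push_cast
      field_simp
    rw [e1, ← add_div, div_le_div_iff₀ hHR (by linarith)]
    push_cast
    have e2 : (q0 : ℝ) * J ≤ (R : ℝ) ^ C1 * J := mul_le_mul_of_nonneg_right hq2R hJ0
    have e3 : (2 * ((q0 : ℝ) * J) + 7 * D * J * (R : ℝ) ^ C1) * (2 * R) ≤
        (2 * ((R : ℝ) ^ C1 * J) + 7 * D * J * (R : ℝ) ^ C1) * (2 * R) := by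
      have : (0 : ℝ) ≤ 2 * R := by linarith
      refine mul_le_mul_of_nonneg_right ?_ this
      linarith
    have e4 : (2 * ((R : ℝ) ^ C1 * J) + 7 * D * J * (R : ℝ) ^ C1) * (2 * R) = J * ((R : ℝ) ^ C1 * (R * k)) := by
      rw [hkR]
      ring
    linarith
  have hfin : 1 / (2 * (R : ℝ)) ≤
      avr (fun x => ‖tv J (fun j => f1 (x + ((a * ((q0 * j : ℕ) : ℤ) : ℤ) : ZMod M)))‖) := by
    have e1 : 1 / (R : ℝ) = 1 / (2 * R) + 1 / (2 * R) := by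
      field_simp
      norm_num
    linarith
  have hlow : 1 / (R : ℝ) ^ (C1 + (1 + k + a.natAbs)) ≤ 1 / (2 * (R : ℝ)) := by
    refine one_div_le_one_div_of_le (by linarith) ?_
    have e1 : R ^ 2 ≤ R ^ (C1 + (1 + k + a.natAbs)) := Nat.pow_le_pow_right hRpos (by omega)
    have e2 : (R : ℝ) ^ 2 ≤ (R : ℝ) ^ (C1 + (1 + k + a.natAbs)) := by exact_mod_cast e1
    nlinarith
  refine hlow.trans (hfin.trans (le_of_eq ?_))
  clear hlow hfin hsmall hmain hJH hk1 hJ1 hRH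
  have h2 := Int.natAbs_eq a
  generalize a.natAbs = n at h2 ⊢
  rcases h2 with h2 | h2
  · congr 1
    funext x
    congr 2
    funext j
    congr 2
    rw [h2, ← Nat.cast_mul, Int.cast_natCast, mul_assoc]
  · have e1 : ∀ (x : ZMod M) (j : ℕ), x + ((a * ((q0 * j : ℕ) : ℤ) : ℤ) : ZMod M) =
        x - ((n * q0 : ℕ) : ZMod M) * (j : ZMod M) := by
      intro x j
      rw [h2]
      push_cast
      ring
    have e2 : ∀ (x : ZMod M) (j : ℕ), x + ((n * q0 * j : ℕ) : ZMod M) =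
        x + ((n * q0 : ℕ) : ZMod M) * (j : ZMod M) := by
      intro x j
      push_cast
      ring
    simp only [e1, e2]
    exact reverse f1 J ((n * q0 : ℕ) : ZMod M)

end Pool.Agent.NLT
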