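import Pool.Agent.Lib.HLT.Defs

/-!
# Nonlinear triples: definitions

Averages over `ZMod M` (`av`, `avr`), over `range H` (`tv`, `tvr`), over differences of two elements of `range A`
(`dv`, `dvc`); multiplicative derivatives `Dl h f x = f x * conj (f (x + h))`; characters `chi ξ x = e (ξ x / M)`;
Fourier coefficients `ft`; the averages `U2`, `U3`, `U4`; the major arcs `Maj M H K`; the counting operator `TT`.
-/

set_option autoImplicit false

open Finset

namespace Pool.Agent.NLT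

open Pool.Agent.HLT

/-- Bounded by one. -/
def Bd {α : Type} (f : α → ℂ) : Prop := ∀ x, ‖f x‖ ≤ 1

/-- Average over `range H`. -/
noncomputable def tv (H : ℕ) (F : ℕ → ℂ) : ℂ := (∑ t ∈ range H, F t) / H

/-- Real average over `range H`. -/
noncomputable def tvr (H : ℕ) (F : ℕ → ℝ) : ℝ := (∑ t ∈ range H, F t) / H

/-- Average of `F (j - i)` over `i, j < A`. -/
noncomputable def dv (A : ℕ) (F : ℤ → ℝ) : ℝ :=
  (∑ i ∈ range A, ∑ j ∈ range A, F ((j : ℤ) - i)) / (A : ℝ) ^ 2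

/-- Complex average of `F (j - i)` over `i, j < A`. -/
noncomputable def dvc (A : ℕ) (F : ℤ → ℂ) : ℂ :=
  (∑ i ∈ range A, ∑ j ∈ range A, F ((j : ℤ) - i)) / (A : ℂ) ^ 2

section group

variable {M : ℕ} [NeZero M]

/-- Average over `ZMod M`. -/
noncomputable def av (f : ZMod M → ℂ) : ℂ := (∑ x, f x) / M

/-- Real average over `ZMod M`. -/
noncomputable def avr (f : ZMod M → ℝ) : ℝ := (∑ x, f x) / M

/-- Multiplicative derivative. -/
noncomputable def Dl (h : ZMod M) (f : ZMod M → ℂ) : ZMod M → ℂ :=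
  fun x => f x * (starRingEnd ℂ) (f (x + h))

/-- The character `e (ξ x / M)`. -/
noncomputable def chi (ξ x : ZMod M) : ℂ := ZMod.stdAddChar (ξ * x)

/-- Fourier coefficient. -/
noncomputable def ft (f : ZMod M → ℂ) (ξ : ZMod M) : ℂ := av (fun x => f x * chi (-ξ) x)

/-- The fourth power of the `U²` norm. -/
noncomputable def U2 (f : ZMod M → ℂ) : ℝ := ∑ ξ, ‖ft f ξ‖ ^ 4

/-- The eighth power of the `U³` norm. -/
noncomputable def U3 (f : ZMod M → ℂ) : ℝ := avr (fun h => U2 (Dl h f))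

/-- The sixteenth power of the `U⁴` norm. -/
noncomputable def U4 (f : ZMod M → ℂ) : ℝ := avr (fun h => U3 (Dl h f))

/-- Mean square of the averages of `g` over progressions `x, x + v, …, x + (A - 1) v`. -/
noncomputable def Q2 (A : ℕ) (g : ZMod M → ℂ) (v : ZMod M) : ℝ :=
  avr (fun x => ‖tv A (fun i => g (x + v * (i : ZMod M)))‖ ^ 2)

/-- Box norm with the directions `γ`, `γ'` (fourth power). -/
noncomputable def QQ (A : ℕ) (γ γ' : ZMod M) (G : ZMod M → ℂ) : ℝ :=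
  dv A (fun j => Q2 A (Dl (γ' * (j : ZMod M)) G) γ)

/-- Average of box norms with the directions `κ β`, `κ (α + β)` over `β`. -/
noncomputable def RR (κ : ZMod M) (A : ℕ) (α : ℤ) (g : ZMod M → ℂ) : ℝ :=
  dv A (fun β => dv A (fun m => Q2 A (Dl (κ * ((α + β : ℤ) : ZMod M) * (m : ZMod M)) g) (κ * (β : ZMod M))))

/-- Average of box norms with the directions `κ α`, `κ β`, `κ (α + β)`. -/
noncomputable def BX (κ : ZMod M) (A : ℕ) (f : ZMod M → ℂ) : ℝ :=
  dv A (fun α => dv A (fun n => RR κ A α (Dl (κ * (α : ZMod M) * (n : ZMod M)) f)))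

/-- Major arcs. -/
noncomputable def Maj (M : ℕ) [NeZero M] (H K : ℕ) : Finset (ZMod M) :=
  univ.filter (fun ξ => ∃ q ∈ Icc 1 K, nrm (((q * ξ.val : ℕ) : ℝ) / (M : ℝ)) ≤ (K : ℝ) / (H : ℝ) ^ 2)

/-- The quadratic `c t² + d t`. -/
def PP (c d : ℤ) (t : ℕ) : ℤ := c * (t : ℤ) ^ 2 + d * t

/-- The counting operator. -/
noncomputable def TT (a c d : ℤ) (H : ℕ) (f0 f1 f2 : ZMod M → ℂ) : ℂ :=
  tv H (fun t => av (fun x => f0 x * f1 (x + ((a * (t : ℤ) : ℤ) : ZMod M)) * f2 (x + ((PP c d t : ℤ) : ZMod M))))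

/-- The dual function. -/
noncomputable def FF (a c d : ℤ) (H : ℕ) (f0 f1 : ZMod M → ℂ) (x : ZMod M) : ℂ :=
  tv H (fun t => (starRingEnd ℂ) (f0 (x - ((PP c d t : ℤ) : ZMod M)) *
    f1 (x - ((PP c d t : ℤ) : ZMod M) + ((a * (t : ℤ) : ℤ) : ZMod M))))

end group

end Pool.Agent.NLT
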