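import Pool.Agent.Lib.NLT.BasicT

/-!
# Module DensA: `b2 l2 - b1 l1` is almost uniformly distributed for good pairs `(b1, b2)`

PROOF. (1) The differences have density at most `1 / A` (`dv_le_sum`; both in `l1` and in `l2`), and only `|l| < A` matters:
the left side is at most `(1 / A^2) ∑ l1, l2 ∈ (-A, A), φ (b2 l2 - b1 l1)`. (2) For an integer `δ` there are at most
`2 K^2 + 1` pairs `(l1, l2)` with `|l1|, |l2| < A` and `b2 l2 - b1 l1 = δ`: let `g = gcd b1 b2 ≤ K`, `g ≥ 1`; the difference of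
two solutions satisfies `b1 ∣ b2 (l2 - l2')`, so `(b1 / g) ∣ (l2 - l2')`, where `|b1| / g ≥ A / K^2`; so the `l2` lie in one
class modulo an integer `≥ A / K^2` and in an interval of length `< 2 A`; and `l2` determines `l1` (`b1 ≠ 0`).
(3) `|δ| < 2 A^2` (`|b| ≤ A`, `|l| < A`), and every class modulo `M ≥ A^2` contains at most `5` integers of
`(-2 A^2, 2 A^2)`. So the left side is at most `(1 / A^2) (2 K^2 + 1) 5 ∑ d, φ d ≤ 15 K^2 (M / A^2) avr φ`.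
-/

set_option autoImplicit false

open Finset

namespace Pool.Agent.NLT

open Pool.Agent.HLT

namespace DensAAux

lemma dv_eq (A : ℕ) (F : ℤ → ℝ) : dv A F =
    (1 / (A : ℝ) ^ 2) * ∑ i ∈ range A, ∑ j ∈ range A, F ((j : ℤ) - i) := by
  unfold dv; rw [div_eq_inv_mul, one_div]

lemma dv_nonneg (A : ℕ) {F : ℤ → ℝ} (h : ∀ k : ℤ, |k| < A → 0 ≤ F k) : 0 ≤ dv A F := by
  rw [dv_eq]
  apply mul_nonneg (by positivity)
  apply sum_nonneg; intro i hi
  apply sum_nonneg; intro j hj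
  apply h
  rw [mem_range] at hi hj
  rw [abs_lt]; constructor <;> omega

/-- density of the differences is at most `1 / A` -/
lemma dv_le_sum (A : ℕ) {F : ℤ → ℝ} (h : ∀ k : ℤ, |k| < A → 0 ≤ F k) :
    dv A F ≤ (1 / (A : ℝ)) * ∑ k ∈ Ioo (-(A : ℤ)) A, F k := by
  rw [dv_eq]
  rcases Nat.eq_zero_or_pos A with rfl | hA
  · simp
  have hA0 : (0 : ℝ) < A := by exact_mod_cast hA
  have h1 : ∀ i ∈ range A, ∑ j ∈ range A, F ((j : ℤ) - i) ≤ ∑ k ∈ Ioo (-(A : ℤ)) A, F k := by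
    intro i hi
    rw [mem_range] at hi
    have h2 : ∑ j ∈ range A, F ((j : ℤ) - i)
        = ∑ k ∈ (range A).image (fun j : ℕ => (j : ℤ) - i), F k := by
      rw [sum_image]
      intro x _ y _ hxy
      simp only at hxy
      omega
    rw [h2]
    apply sum_le_sum_of_subset_of_nonneg
    · intro k hk
      rw [mem_image] at hk
      obtain ⟨j, hj, rfl⟩ := hk
      rw [mem_range] at hj
      rw [mem_Ioo]; constructor <;> omega
    · intro k hk _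
      apply h
      rw [mem_Ioo] at hk
      rw [abs_lt]; exact hk
  have h3 : ∑ i ∈ range A, ∑ j ∈ range A, F ((j : ℤ) - i)
      ≤ A * ∑ k ∈ Ioo (-(A : ℤ)) A, F k := by
    calc _ ≤ ∑ _i ∈ range A, ∑ k ∈ Ioo (-(A : ℤ)) A, F k := sum_le_sum h1
      _ = _ := by rw [sum_const, card_range, nsmul_eq_mul]
  calc _ ≤ (1 / (A : ℝ) ^ 2) * (A * ∑ k ∈ Ioo (-(A : ℤ)) A, F k) :=
        mul_le_mul_of_nonneg_left h3 (by positivity)
    _ = _ := by field_simp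

lemma card_le_of_diff' (F : Finset ℤ) (D : ℝ)
    (h : ∀ k ∈ F, ∀ k' ∈ F, (k : ℝ) - k' ≤ D) : F.card ≤ ⌊D⌋₊ + 1 := by
  classical
  rcases F.eq_empty_or_nonempty with rfl | hne
  · simp
  · have hD : 0 ≤ D := by
      obtain ⟨k, hk⟩ := hne
      simpa using h k hk k hk
    set k0 := F.min' hne with hk0
    have hsub : F ⊆ Finset.Icc k0 (k0 + (⌊D⌋₊ : ℤ)) := by
      intro k hk
      rw [Finset.mem_Icc]
      refine ⟨F.min'_le k hk, ?_⟩
      have h1 := h k hk k0 (F.min'_mem hne)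
      have h2 : (k - k0 : ℤ) ≤ ⌊D⌋ := by
        rw [Int.le_floor]; push_cast; exact h1
      have h3 : ((⌊D⌋₊ : ℕ) : ℤ) = ⌊D⌋ := Int.natCast_floor_eq_floor hD
      omega
    calc F.card ≤ (Finset.Icc k0 (k0 + (⌊D⌋₊ : ℤ))).card := Finset.card_le_card hsub
      _ = ⌊D⌋₊ + 1 := by
        rw [Int.card_Icc]; omega

/-- a finite set in one class mod `m` and of diameter at most `D m` -/
lemma card_cong (F : Finset ℤ) (m : ℤ) (hm : 0 < m) (D : ℝ)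
    (h : ∀ x ∈ F, ∀ y ∈ F, m ∣ x - y ∧ ((x : ℝ) - y) ≤ D * m) : F.card ≤ ⌊D⌋₊ + 1 := by
  classical
  have hrel : ∀ x ∈ F, ∀ y ∈ F, x - y = m * (x / m - y / m) := by
    intro x hx y hy
    have h1 := (h x hx y hy).1
    have h2 : x % m = y % m := (Int.modEq_iff_dvd.mpr h1).symm
    have h3 := Int.emod_add_mul_ediv x m
    have h4 := Int.emod_add_mul_ediv y m
    linear_combination h4 - h3 + h2
  have hcard : F.card = (F.image (fun x => x / m)).card := by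
    rw [card_image_of_injOn]
    intro x hx y hy hxy
    have h1 := hrel x hx y hy
    simp only at hxy
    rw [hxy, sub_self, mul_zero] at h1
    omega
  rw [hcard]
  apply card_le_of_diff'
  intro k hk k' hk'
  rw [mem_image] at hk hk'
  obtain ⟨x, hx, rfl⟩ := hk
  obtain ⟨y, hy, rfl⟩ := hk'
  have h1 := hrel x hx y hy
  have h2 := (h x hx y hy).2
  have h3 : (x : ℝ) - y = m * (((x / m : ℤ) : ℝ) - ((y / m : ℤ) : ℝ)) := by exact_mod_cast h1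
  have hm' : (0 : ℝ) < m := by exact_mod_cast hm
  rw [h3, mul_comm D] at h2
  exact le_of_mul_le_mul_left h2 hm'

/-- solutions of `b2 l2 - b1 l1 = δ` in the box -/
lemma card_sol (A : ℕ) (K : ℝ) (hK : 1 ≤ K) (b1 b2 δ : ℤ) (hb : b1 ≠ 0)
    (hb1 : (A : ℝ) / K ≤ |(b1 : ℝ)|) (hg : ((Int.gcd b1 b2 : ℕ) : ℝ) ≤ K) :
    ((((Ioo (-(A : ℤ)) A) ×ˢ (Ioo (-(A : ℤ)) A)).filter
      (fun p : ℤ × ℤ => b2 * p.2 - b1 * p.1 = δ)).card : ℝ) ≤ 2 * K ^ 2 + 1 := by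
  classical
  set S := ((Ioo (-(A : ℤ)) A) ×ˢ (Ioo (-(A : ℤ)) A)).filter
      (fun p : ℤ × ℤ => b2 * p.2 - b1 * p.1 = δ) with hS
  have hK0 : 0 < K := by linarith
  set g : ℤ := (Int.gcd b1 b2 : ℤ) with hgdef
  have hgpos : 0 < g := by
    have : Int.gcd b1 b2 ≠ 0 := by
      intro h0
      rw [Int.gcd_eq_zero_iff] at h0
      exact hb h0.1
    omega
  obtain ⟨c1, hc1⟩ : g ∣ b1 := Int.gcd_dvd_left b1 b2
  obtain ⟨c2, hc2⟩ : g ∣ b2 := Int.gcd_dvd_right b1 b2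
  have hcop : IsCoprime c1 c2 := by
    rw [Int.isCoprime_iff_gcd_eq_one]
    have h1 : Int.gcd b1 b2 = Int.gcd b1 b2 * Int.gcd c1 c2 := by
      have : Int.gcd (g * c1) (g * c2) = g.natAbs * Int.gcd c1 c2 := Int.gcd_mul_left g c1 c2
      rw [← hc1, ← hc2] at this
      rw [this]
      have : g.natAbs = Int.gcd b1 b2 := by rw [hgdef]; simp
      rw [this]
      -- gcd = gcd * gcd c1 c2
      have h2 : Int.gcd b1 b2 * Int.gcd c1 c2 = Int.gcd b1 b2 := by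
        have h3 : Int.gcd (g * c1) (g * c2) = g.natAbs * Int.gcd c1 c2 := Int.gcd_mul_left g c1 c2
        rw [← hc1, ← hc2, this] at h3
        exact h3.symm
      rw [h2, h2]
    have h4 : Int.gcd b1 b2 ≠ 0 := by omega
    have h5 : Int.gcd b1 b2 * 1 = Int.gcd b1 b2 * Int.gcd c1 c2 := by rw [mul_one]; exact h1
    exact (Nat.eq_of_mul_eq_mul_left (Nat.pos_of_ne_zero h4) h5).symm
  have hc1ne : c1 ≠ 0 := by rintro rfl; apply hb; rw [hc1]; ring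
  -- injection to the second coordinate
  have hcard : S.card = (S.image Prod.snd).card := by
    rw [card_image_of_injOn]
    rintro ⟨x1, x2⟩ hx ⟨y1, y2⟩ hy hxy
    simp only [hS, coe_filter, Set.mem_ofPred_eq] at hx hy
    simp only at hxy
    subst hxy
    have : b1 * x1 = b1 * y1 := by linarith [hx.2, hy.2]
    have := mul_left_cancel₀ hb this
    rw [this]
  rw [hcard]
  have hK2 : (⌊2 * K ^ 2⌋₊ : ℝ) ≤ 2 * K ^ 2 := Nat.floor_le (by positivity)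
  have hmain : (S.image Prod.snd).card ≤ ⌊2 * K ^ 2⌋₊ + 1 := by
    apply card_cong _ |c1| (by positivity)
    intro x hx y hy
    rw [mem_image] at hx hy
    obtain ⟨⟨x1, x2⟩, hx, rfl⟩ := hx
    obtain ⟨⟨y1, y2⟩, hy, rfl⟩ := hy
    rw [hS, mem_filter, mem_product, mem_Ioo, mem_Ioo] at hx hy
    simp only at hx hy ⊢
    constructor
    · rw [abs_dvd]
      have h1 : c2 * (x2 - y2) = c1 * (x1 - y1) := by
        have h2 : b2 * x2 - b1 * x1 = b2 * y2 - b1 * y1 := hx.2.trans hy.2.symm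
        rw [hc1, hc2] at h2
        have h3 : g * (c2 * (x2 - y2)) = g * (c1 * (x1 - y1)) := by linear_combination h2
        exact mul_left_cancel₀ hgpos.ne' h3
      exact hcop.dvd_of_dvd_mul_left ⟨_, h1⟩
    · have h1 : ((x2 : ℤ) : ℝ) < A := by exact_mod_cast hx.1.2.2
      have h2 : (-(A : ℝ)) < ((y2 : ℤ) : ℝ) := by exact_mod_cast hy.1.2.1
      have h3 : |(b1 : ℝ)| = (g : ℝ) * |(c1 : ℝ)| := by
        rw [hc1]; push_cast
        rw [abs_mul, abs_of_pos (by exact_mod_cast hgpos : (0 : ℝ) < g)]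
      have h4 : (g : ℝ) ≤ K := by
        rw [hgdef]; exact_mod_cast hg
      have h5 : (A : ℝ) / K ≤ K * |(c1 : ℝ)| := by
        calc (A : ℝ) / K ≤ |(b1 : ℝ)| := hb1
          _ = (g : ℝ) * |(c1 : ℝ)| := h3
          _ ≤ K * |(c1 : ℝ)| := mul_le_mul_of_nonneg_right h4 (abs_nonneg _)
      rw [div_le_iff₀ hK0] at h5
      push_cast
      nlinarith
  calc ((S.image Prod.snd).card : ℝ) ≤ ((⌊2 * K ^ 2⌋₊ + 1 : ℕ) : ℝ) := by exact_mod_cast hmain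
    _ = (⌊2 * K ^ 2⌋₊ : ℝ) + 1 := by push_cast; ring
    _ ≤ _ := by linarith

/-- solutions of `b2 l2 - b1 l1 = d` mod `M` in the box -/
lemma card_sol_mod (A M : ℕ) (hA : 1 ≤ A) (hM : A ^ 2 ≤ M) (K : ℝ) (hK : 1 ≤ K) (b1 b2 : ℤ)
    (hb : b1 ≠ 0) (hA1 : |b1| ≤ A) (hA2 : |b2| ≤ A)
    (hb1 : (A : ℝ) / K ≤ |(b1 : ℝ)|) (hg : ((Int.gcd b1 b2 : ℕ) : ℝ) ≤ K) (d : ZMod M) :
    ((((Ioo (-(A : ℤ)) A) ×ˢ (Ioo (-(A : ℤ)) A)).filter
      (fun p : ℤ × ℤ => ((b2 * p.2 - b1 * p.1 : ℤ) : ZMod M) = d)).card : ℝ)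
      ≤ 5 * (2 * K ^ 2 + 1) := by
  classical
  set S := ((Ioo (-(A : ℤ)) A) ×ˢ (Ioo (-(A : ℤ)) A)).filter
      (fun p : ℤ × ℤ => ((b2 * p.2 - b1 * p.1 : ℤ) : ZMod M) = d) with hS
  set f : ℤ × ℤ → ℤ := fun p => b2 * p.2 - b1 * p.1 with hf
  have hMpos : 0 < M := lt_of_lt_of_le (by positivity) hM
  have himg : (S.image f).card ≤ 5 := by
    have : (S.image f).card ≤ ⌊(4 : ℝ)⌋₊ + 1 := by
      apply card_cong _ (M : ℤ) (by exact_mod_cast hMpos)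
      intro x hx y hy
      rw [mem_image] at hx hy
      obtain ⟨⟨x1, x2⟩, hx, rfl⟩ := hx
      obtain ⟨⟨y1, y2⟩, hy, rfl⟩ := hy
      rw [hS, mem_filter, mem_product, mem_Ioo, mem_Ioo] at hx hy
      simp only [hf] at hx hy ⊢
      constructor
      · rw [← ZMod.intCast_zmod_eq_zero_iff_dvd, Int.cast_sub, hx.2, hy.2, sub_self]
      · have key : ∀ l1 l2 : ℤ, (-(A : ℤ) < l1 ∧ l1 < A) → (-(A : ℤ) < l2 ∧ l2 < A) →
            |((b2 * l2 - b1 * l1 : ℤ) : ℝ)| ≤ 2 * (A : ℝ) ^ 2 := by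
          intro l1 l2 h1 h2
          have e1 : |((l1 : ℤ) : ℝ)| ≤ A := by
            rw [abs_le]; constructor
            · have := h1.1.le; exact_mod_cast this
            · have := h1.2.le; exact_mod_cast this
          have e2 : |((l2 : ℤ) : ℝ)| ≤ A := by
            rw [abs_le]; constructor
            · have := h2.1.le; exact_mod_cast this
            · have := h2.2.le; exact_mod_cast this
          have e3 : |((b1 : ℤ) : ℝ)| ≤ A := by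
            have := hA1
            have h' : ((|b1| : ℤ) : ℝ) ≤ ((A : ℤ) : ℝ) := by exact_mod_cast this
            rw [Int.cast_abs] at h'; exact_mod_cast h'
          have e4 : |((b2 : ℤ) : ℝ)| ≤ A := by
            have := hA2
            have h' : ((|b2| : ℤ) : ℝ) ≤ ((A : ℤ) : ℝ) := by exact_mod_cast this
            rw [Int.cast_abs] at h'; exact_mod_cast h'
          push_cast
          calc |(b2 : ℝ) * l2 - b1 * l1| ≤ |(b2 : ℝ) * l2| + |(b1 : ℝ) * l1| := abs_sub _ _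
            _ = |(b2 : ℝ)| * |(l2 : ℝ)| + |(b1 : ℝ)| * |(l1 : ℝ)| := by rw [abs_mul, abs_mul]
            _ ≤ A * A + A * A := by
              gcongr
            _ = _ := by ring
        have h1 := key x1 x2 hx.1.1 hx.1.2
        have h2 := key y1 y2 hy.1.1 hy.1.2
        rw [abs_le] at h1 h2
        have h3 : (A : ℝ) ^ 2 ≤ M := by exact_mod_cast hM
        push_cast at h1 h2 ⊢
        linarith [h1.2, h2.1]
    simpa using this
  have h1 : S.card = ∑ δ ∈ S.image f, (S.filter (fun p => f p = δ)).card :=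
    card_eq_sum_card_image f S
  have h2 : ∀ δ ∈ S.image f, ((S.filter (fun p => f p = δ)).card : ℝ) ≤ 2 * K ^ 2 + 1 := by
    intro δ _
    refine le_trans ?_ (card_sol A K hK b1 b2 δ hb hb1 hg)
    have : S.filter (fun p => f p = δ) ⊆ ((Ioo (-(A : ℤ)) A) ×ˢ (Ioo (-(A : ℤ)) A)).filter
      (fun p : ℤ × ℤ => b2 * p.2 - b1 * p.1 = δ) := by
      intro p hp
      rw [mem_filter, hS, mem_filter] at hp
      rw [mem_filter]
      exact ⟨hp.1.1, hp.2⟩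
    exact_mod_cast card_le_card this
  calc (S.card : ℝ) = ∑ δ ∈ S.image f, ((S.filter (fun p => f p = δ)).card : ℝ) := by
        rw [h1]; push_cast; rfl
    _ ≤ ∑ _δ ∈ S.image f, (2 * K ^ 2 + 1) := sum_le_sum h2
    _ = ((S.image f).card : ℝ) * (2 * K ^ 2 + 1) := by rw [sum_const, nsmul_eq_mul]
    _ ≤ 5 * (2 * K ^ 2 + 1) := by
      apply mul_le_mul_of_nonneg_right _ (by positivity)
      exact_mod_cast himg

/-- good pairs -/
def Good (A K : ℕ) (b1 b2 : ℤ) : Prop :=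
  b1 ≠ 0 ∧ (A : ℝ) / K ≤ |(b1 : ℝ)| ∧ Int.gcd b1 b2 ≤ K

open Classical in
/-- the good part for one pair -/
lemma good_part (A M K : ℕ) [NeZero M] (hK : 1 ≤ K) (hA : 1 ≤ A) (hM : A ^ 2 ≤ M)
    (G : ZMod M → ℝ) (h0 : ∀ d, 0 ≤ G d) (b1 b2 : ℤ) (hA1 : |b1| ≤ A) (hA2 : |b2| ≤ A)
    (hgood : Good A K b1 b2) :
    ∑ l1 ∈ Ioo (-(A : ℤ)) A, ∑ l2 ∈ Ioo (-(A : ℤ)) A, G ((b2 * l2 - b1 * l1 : ℤ) : ZMod M)
      ≤ 15 * (K : ℝ) ^ 2 * ∑ d, G d := by
  have hK1 : (1 : ℝ) ≤ K := by exact_mod_cast hK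
  rw [← sum_product']
  have h1 : ∑ p ∈ (Ioo (-(A : ℤ)) A) ×ˢ (Ioo (-(A : ℤ)) A), G ((b2 * p.2 - b1 * p.1 : ℤ) : ZMod M)
      = ∑ d, ∑ p ∈ ((Ioo (-(A : ℤ)) A) ×ˢ (Ioo (-(A : ℤ)) A)).filter
      (fun p : ℤ × ℤ => ((b2 * p.2 - b1 * p.1 : ℤ) : ZMod M) = d),
        G ((b2 * p.2 - b1 * p.1 : ℤ) : ZMod M) := by
    rw [sum_fiberwise]
  rw [h1, mul_sum]
  apply sum_le_sum
  intro d _
  have h2 : ∑ p ∈ ((Ioo (-(A : ℤ)) A) ×ˢ (Ioo (-(A : ℤ)) A)).filter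
      (fun p : ℤ × ℤ => ((b2 * p.2 - b1 * p.1 : ℤ) : ZMod M) = d),
        G ((b2 * p.2 - b1 * p.1 : ℤ) : ZMod M)
      = ∑ p ∈ ((Ioo (-(A : ℤ)) A) ×ˢ (Ioo (-(A : ℤ)) A)).filter
      (fun p : ℤ × ℤ => ((b2 * p.2 - b1 * p.1 : ℤ) : ZMod M) = d), G d := by
    apply sum_congr rfl
    intro p hp
    rw [mem_filter] at hp
    rw [hp.2]
  rw [h2, sum_const, nsmul_eq_mul]
  apply mul_le_mul_of_nonneg_right _ (h0 d)
  have h3 := card_sol_mod A M hA hM (K : ℝ) hK1 b1 b2 hgood.1 hA1 hA2 hgood.2.1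
    (by exact_mod_cast hgood.2.2) d
  refine h3.trans ?_
  nlinarith

end DensAAux

theorem dens_good (M A K R : ℕ) [NeZero M] (hK : 1 ≤ K) (hKA : K ≤ A) (hAM : A ^ 2 ≤ M) (hMR : M ≤ R * A ^ 2)
    (b1 b2 : ℤ) (h1 : |b1| ≤ A) (h2 : |b2| ≤ A) (hb : (A : ℤ) ≤ K * |b1|) (hg : Int.gcd b1 b2 ≤ K)
    (φ : ZMod M → ℝ) (hφ : ∀ d, 0 ≤ φ d) :
    dv A (fun l1 => dv A (fun l2 => φ ((b2 * l2 - b1 * l1 : ℤ) : ZMod M))) ≤ 15 * (K : ℝ) ^ 2 * R * avr φ := by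
  classical
  have hA : 1 ≤ A := le_trans hK hKA
  have hA0 : (0 : ℝ) < A := by exact_mod_cast hA
  have hK0 : (0 : ℝ) < K := by exact_mod_cast hK
  have hM0 : (0 : ℝ) < M := by
    have := NeZero.pos M
    exact_mod_cast this
  have hMR' : (M : ℝ) ≤ R * (A : ℝ) ^ 2 := by exact_mod_cast hMR
  have hbR : (A : ℝ) ≤ K * |(b1 : ℝ)| := by exact_mod_cast hb
  have hgood : DensAAux.Good A K b1 b2 := by
    refine ⟨?_, ?_, hg⟩
    · rintro rfl
      simp at hb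
      omega
    · rw [div_le_iff₀ hK0, mul_comm]; exact hbR
  have h0 := DensAAux.good_part A M K hK hA hAM φ hφ b1 b2 h1 h2 hgood
  have hinner : ∀ l1 : ℤ, dv A (fun l2 => φ ((b2 * l2 - b1 * l1 : ℤ) : ZMod M))
      ≤ (1 / (A : ℝ)) * ∑ l2 ∈ Ioo (-(A : ℤ)) A, φ ((b2 * l2 - b1 * l1 : ℤ) : ZMod M) :=
    fun l1 => DensAAux.dv_le_sum A (fun k _ => hφ _)
  calc dv A (fun l1 => dv A (fun l2 => φ ((b2 * l2 - b1 * l1 : ℤ) : ZMod M)))
      ≤ (1 / (A : ℝ)) * ∑ l1 ∈ Ioo (-(A : ℤ)) A, dv A (fun l2 => φ ((b2 * l2 - b1 * l1 : ℤ) : ZMod M)) :=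
        DensAAux.dv_le_sum A (fun k _ => DensAAux.dv_nonneg A (fun j _ => hφ _))
    _ ≤ (1 / (A : ℝ)) * ∑ l1 ∈ Ioo (-(A : ℤ)) A,
          ((1 / (A : ℝ)) * ∑ l2 ∈ Ioo (-(A : ℤ)) A, φ ((b2 * l2 - b1 * l1 : ℤ) : ZMod M)) := by
        apply mul_le_mul_of_nonneg_left _ (by positivity)
        exact sum_le_sum (fun l1 _ => hinner l1)
    _ = (1 / (A : ℝ) ^ 2) * ∑ l1 ∈ Ioo (-(A : ℤ)) A, ∑ l2 ∈ Ioo (-(A : ℤ)) A,
          φ ((b2 * l2 - b1 * l1 : ℤ) : ZMod M) := by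
        rw [← mul_sum]; ring
    _ ≤ (1 / (A : ℝ) ^ 2) * (15 * (K : ℝ) ^ 2 * ∑ d, φ d) :=
        mul_le_mul_of_nonneg_left h0 (by positivity)
    _ ≤ 15 * (K : ℝ) ^ 2 * R * avr φ := by
        have hs : 0 ≤ ∑ d, φ d := sum_nonneg (fun d _ => hφ d)
        have h3 : 1 / (A : ℝ) ^ 2 ≤ R / M := by
          rw [div_le_div_iff₀ (by positivity) hM0]; linarith
        have h4 : avr φ = (∑ d, φ d) / M := rfl
        rw [h4]
        calc (1 / (A : ℝ) ^ 2) * (15 * (K : ℝ) ^ 2 * ∑ d, φ d)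
            ≤ (R / M) * (15 * (K : ℝ) ^ 2 * ∑ d, φ d) :=
              mul_le_mul_of_nonneg_right h3 (by positivity)
          _ = _ := by ring

end Pool.Agent.NLT
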