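import Pool.Agent.Lib.NLT.BasicC
import Pool.Agent.Lib.NLT.MajLem

/-!
# Module MA: a correlation with a character `ξ (x + P t)` forces a major arc

PROOF. Put `g0 x = G0 x * chi ξ x` (bounded by 1). Cauchy-Schwarz in `x` (`norm_av_mul_sq_le`):
`R^-2 ≤ avr_x ‖tv_t G1 (x + a t) chi ξ (P t)‖^2 = (1 / H^2) ∑_{s, t < H} (av_x G1 (x + a s) conj G1 (x + a t)) chi ξ (P s - P t)`.
For `s = t + γ` the average over `x` depends only on `γ` (shift) and has norm `≤ 1`; `P (t + γ) - P t = 2 c γ t + const(γ)`. So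
`R^-2 H^2 ≤ ∑_{|γ| < H} ‖∑_{t, t + γ ∈ [0, H)} chi ξ (2 c γ t + const)‖`; the inner sum over an interval of `t` is `≤ H` and
by `chi_Ico` `2 nrm (2 c γ ξ / M) ‖..‖ ≤ 1`. Let `K = 4 R^2` and `S = {γ : |γ| < H, nrm (γ (2 c ξ / M)) ≤ K / H}`. For `γ ∉ S` the
inner sum is `≤ H / (2 K)`; these contribute `≤ 2 H * H / (2 K) = H^2 / (4 R^2)`. Hence `S.card * H ≥ H^2 / R^2 - H^2 / (4 R^2)`, so
`S.card ≥ H / (4 R^2) = H / K`. Now `maj_of_count` with `B = H`, `m = 2 c`, `K' = R^C`: need `28 K^2 = 448 R^4 ≤ H`,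
`5 K (2 |c|) = 40 |c| R^2 ≤ R^C`, `100 K^3 = 6400 R^6 ≤ R^C`: true for `C = 20 + 2 |c|`, say (`2^n ≥ n`).
-/

set_option autoImplicit false

open Finset

namespace Pool.Agent.NLT

open Pool.Agent.HLT

namespace MAAux

variable {M : ℕ} [NeZero M]

/-- grouping the pairs by their difference -/
lemma group_sum (H : ℕ) (A : ℤ → ℂ) (φ : ℤ → ℕ → ℂ) (F : ℕ → ℕ → ℂ)
    (hF : ∀ s t : ℕ, F s t = A ((s : ℤ) - t) * φ ((s : ℤ) - t) t) :
    ∑ s ∈ range H, ∑ t ∈ range H, F s t =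
      ∑ γ ∈ Ioo (-(H : ℤ)) H, A γ * ∑ t ∈ Ico (-γ).toNat (min (H : ℤ) (H - γ)).toNat, φ γ t := by
  rw [← sum_product']
  have hmaps : ∀ x ∈ range H ×ˢ range H, ((x.1 : ℤ) - x.2) ∈ Ioo (-(H : ℤ)) H := by
    intro x hx
    rw [mem_product, mem_range, mem_range] at hx
    rw [mem_Ioo]
    omega
  rw [← sum_fiberwise_of_maps_to hmaps]
  refine sum_congr rfl (fun γ hγ => ?_)
  rw [mul_sum]
  refine sum_bij' (fun x _ => x.2) (fun t _ => (((t : ℤ) + γ).toNat, t)) ?_ ?_ ?_ ?_ ?_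
  · intro x hx
    rw [mem_filter, mem_product, mem_range, mem_range] at hx
    rw [mem_Ico]
    omega
  · intro t ht
    rw [mem_Ico] at ht
    rw [mem_filter, mem_product, mem_range, mem_range]
    rw [mem_Ioo] at hγ
    simp only
    omega
  · intro x hx
    rw [mem_filter, mem_product, mem_range, mem_range] at hx
    ext
    · simp only
      omega
    · rfl
  · intro t ht
    rfl
  · intro x hx
    rw [mem_filter] at hx
    rw [hF, hx.2]

end MAAux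

theorem ma (a c d : ℤ) (hc : c ≠ 0) : ∃ C : ℕ, ∀ (R H M : ℕ) [NeZero M], 2 ≤ R → R ^ C ≤ H →
    ∀ G0 G1 : ZMod M → ℂ, Bd G0 → Bd G1 → ∀ ξ : ZMod M,
    1 / (R : ℝ) ≤ ‖tv H (fun t => av (fun x => G0 x * G1 (x + ((a * (t : ℤ) : ℤ) : ZMod M)) *
      chi ξ (x + ((PP c d t : ℤ) : ZMod M))))‖ → ξ ∈ Maj M H (R ^ C) := by
  refine ⟨20 + c.natAbs, ?_⟩
  intro R H M _ hR hRH G0 G1 hG0 hG1 ξ hξ
  have hRpow : 1 ≤ R ^ (20 + c.natAbs) := Nat.one_le_pow _ _ (by omega)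
  have hH : 1 ≤ H := le_trans hRpow hRH
  have hHr : (0 : ℝ) < H := by exact_mod_cast hH
  have hRr : (0 : ℝ) < R := by
    have : 0 < R := by omega
    exact_mod_cast this
  -- the correlation after exchanging the averages
  set T : ZMod M → ℕ → ℂ := fun x t => G1 (x + ((a * (t : ℤ) : ℤ) : ZMod M)) * chi ξ ((PP c d t : ℤ) : ZMod M) with hT
  have e1 : tv H (fun t => av (fun x => G0 x * G1 (x + ((a * (t : ℤ) : ℤ) : ZMod M)) *
      chi ξ (x + ((PP c d t : ℤ) : ZMod M)))) = av (fun x => (G0 x * chi ξ x) * tv H (T x)) := by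
    rw [tv_av_comm]
    congr 1
    funext x
    rw [← tv_mul_left]
    congr 1
    funext t
    rw [hT, chi_add_right]
    simp only
    ring
  have hg0 : Bd (fun x => G0 x * chi ξ x) := Bd_mul hG0 (fun x => (norm_chi ξ x).le)
  have h1 := norm_av_mul_sq_le (fun x => G0 x * chi ξ x) (fun x => tv H (T x)) hg0
  rw [← e1] at h1
  have h2 : (1 / (R : ℝ)) ^ 2 ≤ avr (fun x => ‖tv H (T x)‖ ^ 2) :=
    le_trans (pow_le_pow_left₀ (by positivity) hξ 2) h1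
  -- expansion of the square
  set A : ℤ → ℂ := fun γ => av (fun x => G1 (x + ((a * γ : ℤ) : ZMod M)) * (starRingEnd ℂ) (G1 x)) with hA
  set φ : ℤ → ℕ → ℂ := fun γ t => chi ξ (((2 * c * γ) * (t : ℤ) + (c * γ ^ 2 + d * γ) : ℤ) : ZMod M) with hφ
  have e2 : ((avr (fun x => ‖tv H (T x)‖ ^ 2) : ℝ) : ℂ) =
      tv H (fun s => tv H (fun t => A ((s : ℤ) - t) * φ ((s : ℤ) - t) t)) := by
    rw [← av_ofReal]
    have e3 : ∀ x, ((‖tv H (T x)‖ ^ 2 : ℝ) : ℂ) = tv H (fun s => tv H (fun t => T x s * (starRingEnd ℂ) (T x t))) :=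
      fun x => norm_tv_sq H (T x)
    simp only [e3]
    rw [← tv_av_comm H (fun s x => tv H (fun t => T x s * (starRingEnd ℂ) (T x t)))]
    congr 1
    funext s
    rw [← tv_av_comm H (fun t x => T x s * (starRingEnd ℂ) (T x t))]
    congr 1
    funext t
    have e4 : ∀ x, T x s * (starRingEnd ℂ) (T x t) =
        (fun y => (G1 (y + ((a * ((s : ℤ) - t) : ℤ) : ZMod M)) * (starRingEnd ℂ) (G1 y)) *
          φ ((s : ℤ) - t) t) (x + ((a * (t : ℤ) : ℤ) : ZMod M)) := by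
      intro x
      rw [hT, hφ]
      simp only
      rw [map_mul, show ((2 * c * ((s : ℤ) - t)) * (t : ℤ) + (c * ((s : ℤ) - t) ^ 2 + d * ((s : ℤ) - t)) : ℤ) =
        PP c d s - PP c d t by unfold PP; ring, Int.cast_sub (PP c d s), chi_sub_right,
        show x + ((a * (t : ℤ) : ℤ) : ZMod M) + ((a * ((s : ℤ) - t) : ℤ) : ZMod M) =
          x + ((a * (s : ℤ) : ℤ) : ZMod M) by push_cast; ring]
      ring
    simp only [e4]
    rw [av_shift (fun y => (G1 (y + ((a * ((s : ℤ) - t) : ℤ) : ZMod M)) * (starRingEnd ℂ) (G1 y)) *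
          φ ((s : ℤ) - t) t), av_mul_right]
  have hAn : ∀ γ, ‖A γ‖ ≤ 1 := fun γ => norm_av_le_one (Bd_mul (Bd_shift _ hG1) (Bd_conj hG1))
  set I : ℤ → ℝ := fun γ => ‖∑ t ∈ Ico (-γ).toNat (min (H : ℤ) (H - γ)).toNat, φ γ t‖ with hI
  have h3 : (H : ℝ) ^ 2 * avr (fun x => ‖tv H (T x)‖ ^ 2) ≤ ∑ γ ∈ Ioo (-(H : ℤ)) H, I γ := by
    have h4 : ((H : ℝ) ^ 2 * avr (fun x => ‖tv H (T x)‖ ^ 2) : ℝ) ≤
        ‖((H : ℂ) ^ 2 * ((avr (fun x => ‖tv H (T x)‖ ^ 2) : ℝ) : ℂ))‖ := by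
      rw [show ((H : ℂ) ^ 2 * ((avr (fun x => ‖tv H (T x)‖ ^ 2) : ℝ) : ℂ)) =
        (((H : ℝ) ^ 2 * avr (fun x => ‖tv H (T x)‖ ^ 2) : ℝ) : ℂ) by push_cast; ring, Complex.norm_real]
      exact le_abs_self _
    refine le_trans h4 ?_
    rw [e2]
    have h5 : (H : ℂ) ^ 2 * tv H (fun s => tv H (fun t => A ((s : ℤ) - t) * φ ((s : ℤ) - t) t)) =
        ∑ s ∈ range H, ∑ t ∈ range H, A ((s : ℤ) - t) * φ ((s : ℤ) - t) t := by
      unfold tv
      have hHc : (H : ℂ) ≠ 0 := by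
        exact_mod_cast hHr.ne'
      rw [← sum_div]
      field_simp
    rw [h5, MAAux.group_sum H A φ _ (fun s t => rfl)]
    refine le_trans (norm_sum_le _ _) (sum_le_sum (fun γ _ => ?_))
    rw [norm_mul]
    exact mul_le_of_le_one_left (norm_nonneg _) (hAn γ)
  -- bounds for the inner sums
  have hI1 : ∀ γ, I γ ≤ H := by
    intro γ
    rw [hI]
    refine le_trans (norm_sum_le _ _) ?_
    have h6 : ∀ t ∈ Ico (-γ).toNat (min (H : ℤ) (H - γ)).toNat, ‖φ γ t‖ ≤ 1 := fun t _ => (norm_chi _ _).le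
    refine le_trans (sum_le_card_nsmul _ _ 1 h6) ?_
    rw [nsmul_eq_mul, mul_one, Nat.card_Ico]
    have : (min (H : ℤ) (H - γ)).toNat - (-γ).toNat ≤ H := by omega
    exact_mod_cast this
  set K : ℕ := 4 * R ^ 2 with hK
  have hKr : (0 : ℝ) < (K : ℝ) := by
    rw [hK]
    push_cast
    positivity
  classical
  set S : Finset ℤ := (Ioo (-(H : ℤ)) (H : ℤ)).filter
    (fun g : ℤ => nrm ((g : ℝ) * (((2 * c : ℤ) : ℝ) * ((ξ.val : ℝ) / M))) ≤ (K : ℝ) / H) with hS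
  have hI2 : ∀ γ ∈ (Ioo (-(H : ℤ)) (H : ℤ)).filter
      (fun g : ℤ => ¬ nrm ((g : ℝ) * (((2 * c : ℤ) : ℝ) * ((ξ.val : ℝ) / M))) ≤ (K : ℝ) / H), I γ ≤ H / (2 * K) := by
    intro γ hγ
    rw [mem_filter, not_le] at hγ
    have h7 := chi_Ico ξ (2 * c * γ) (c * γ ^ 2 + d * γ) (-γ).toNat (min (H : ℤ) (H - γ)).toNat
    have h8 : (((2 * c * γ : ℤ) : ℝ)) * ((ξ.val : ℝ) / M) = (γ : ℝ) * (((2 * c : ℤ) : ℝ) * ((ξ.val : ℝ) / M)) := by
      push_cast
      ring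
    rw [h8] at h7
    have h9 : 2 * ((K : ℝ) / H) * I γ ≤ 1 := by
      refine le_trans ?_ h7
      have : 0 ≤ I γ := norm_nonneg _
      exact mul_le_mul_of_nonneg_right (by linarith [hγ.2]) this
    rw [le_div_iff₀ (by positivity)]
    have h10 : 2 * ((K : ℝ) / H) * I γ * H ≤ 1 * H := mul_le_mul_of_nonneg_right h9 hHr.le
    have h11 : 2 * ((K : ℝ) / H) * I γ * H = I γ * (2 * K) := by
      field_simp
    linarith
  have hcardIoo : ((Ioo (-(H : ℤ)) (H : ℤ)).card : ℝ) ≤ 2 * H := by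
    rw [Int.card_Ioo]
    have : ((H : ℤ) - -(H : ℤ) - 1).toNat ≤ 2 * H := by omega
    exact_mod_cast this
  have h12 : ∑ γ ∈ Ioo (-(H : ℤ)) H, I γ ≤ (S.card : ℝ) * H + 2 * H * (H / (2 * K)) := by
    rw [← sum_filter_add_sum_filter_not (Ioo (-(H : ℤ)) (H : ℤ))
      (fun g : ℤ => nrm ((g : ℝ) * (((2 * c : ℤ) : ℝ) * ((ξ.val : ℝ) / M))) ≤ (K : ℝ) / H)]
    refine add_le_add ?_ ?_
    · refine le_trans (sum_le_card_nsmul _ _ (H : ℝ) (fun γ _ => hI1 γ)) ?_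
      rw [nsmul_eq_mul]
    · refine le_trans (sum_le_card_nsmul _ _ ((H : ℝ) / (2 * K)) hI2) ?_
      rw [nsmul_eq_mul]
      refine mul_le_mul_of_nonneg_right ?_ (by positivity)
      refine le_trans ?_ hcardIoo
      exact_mod_cast card_filter_le _ _
  have hcount : (H : ℝ) / K ≤ S.card := by
    have h13 : (H : ℝ) ^ 2 * (1 / (R : ℝ)) ^ 2 ≤ (S.card : ℝ) * H + 2 * H * (H / (2 * K)) :=
      le_trans (le_trans (mul_le_mul_of_nonneg_left h2 (by positivity)) h3) h12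
    have h14 : (K : ℝ) = 4 * (R : ℝ) ^ 2 := by
      rw [hK]
      push_cast
      ring
    have h15 : (H : ℝ) * ((S.card : ℝ) - 3 * (H : ℝ) / K) ≥ 0 := by
      have h16 : (H : ℝ) ^ 2 * (1 / (R : ℝ)) ^ 2 = 4 * (H : ℝ) ^ 2 / K := by
        rw [h14]
        field_simp
      have h17 : 2 * (H : ℝ) * (H / (2 * K)) = (H : ℝ) ^ 2 / K := by
        field_simp
      rw [h16, h17] at h13
      have h18 : (H : ℝ) * ((S.card : ℝ) - 3 * (H : ℝ) / K) =
        (S.card : ℝ) * H + (H : ℝ) ^ 2 / K - 4 * (H : ℝ) ^ 2 / K := by ring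
      rw [h18]
      linarith
    have h19 : (S.card : ℝ) - 3 * (H : ℝ) / K ≥ 0 := by
      by_contra h
      push Not at h
      have := mul_neg_of_pos_of_neg hHr h
      linarith
    have h20 : (0 : ℝ) < H / K := by positivity
    have h21 : 3 * (H : ℝ) / K = 3 * (H / K) := by ring
    linarith
  refine maj_of_count M H H K (R ^ (20 + c.natAbs)) ξ (2 * c) (by simpa using hc) ?_ hH ?_ ?_ ?_ S ?_ hcount
  · rw [hK]
    have : 1 ≤ R ^ 2 := Nat.one_le_pow _ _ (by omega)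
    omega
  · refine le_trans ?_ hRH
    calc 28 * K ^ 2 = 448 * R ^ 4 := by rw [hK]; ring
      _ ≤ 2 ^ 9 * R ^ 4 := by omega
      _ ≤ R ^ 9 * R ^ 4 := Nat.mul_le_mul_right _ (Nat.pow_le_pow_left hR 9)
      _ = R ^ 13 := by ring
      _ ≤ R ^ (20 + c.natAbs) := Nat.pow_le_pow_right (by omega) (by omega)
  · rw [Int.natAbs_mul]
    have hcp : c.natAbs ≤ R ^ c.natAbs :=
      le_trans (Nat.lt_two_pow_self).le (Nat.pow_le_pow_left hR _)
    calc 5 * K * ((2 : ℤ).natAbs * c.natAbs) = 40 * R ^ 2 * c.natAbs := by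
          rw [hK]
          simp only [Int.reduceAbs]
          ring
      _ ≤ 2 ^ 6 * R ^ 2 * R ^ c.natAbs := Nat.mul_le_mul (by omega) hcp
      _ ≤ R ^ 6 * R ^ 2 * R ^ c.natAbs :=
          Nat.mul_le_mul_right _ (Nat.mul_le_mul_right _ (Nat.pow_le_pow_left hR 6))
      _ = R ^ (8 + c.natAbs) := by ring
      _ ≤ R ^ (20 + c.natAbs) := Nat.pow_le_pow_right (by omega) (by omega)
  · refine Nat.mul_le_mul_right _ ?_
    calc 100 * K ^ 3 = 6400 * R ^ 6 := by rw [hK]; ring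
      _ ≤ 2 ^ 13 * R ^ 6 := by omega
      _ ≤ R ^ 13 * R ^ 6 := Nat.mul_le_mul_right _ (Nat.pow_le_pow_left hR 13)
      _ = R ^ 19 := by ring
      _ ≤ R ^ (20 + c.natAbs) := Nat.pow_le_pow_right (by omega) (by omega)
  · intro g hg
    rw [hS, mem_filter, mem_Ioo] at hg
    refine ⟨?_, hg.2⟩
    rw [abs_le]
    constructor <;> omega

end Pool.Agent.NLT
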