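import Pool.Agent.Lib.NLT.LowA
import Pool.Agent.Lib.NLT.MA

/-!
# Module LowB: the frequencies split, two derivatives

PROOF. `F = FF a c d H f0 f1` is bounded by 1. `U4 F = avr_h1 avr_h2 U2 (Dl h1 (Dl h2 F))` (`Dl_comm`, `avr_comm`). For each
`h = (h1, h2)` choose `ξ h` with `U2 (Dl h1 (Dl h2 F)) ≤ ‖ft (Dl h1 (Dl h2 F)) (ξ h)‖^2` (`exists_U2_le`). Let `T h` be this
coefficient, `S0 = {h : ‖T h‖^2 ≥ 1 / (2 R)}`; `avr_h 1[S0] ‖T h‖^2 ≥ 1 / (2 R)`, so with `b h = 1[S0] conj (T h) / ‖T h‖`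
(bounded by 1, zero outside `S0`) `av_h b h T h = avr_h 1[S0] ‖T h‖ ≥ 1 / (2 R)`. `low_cs_two`:
`(2 R)^-4 ≤ avr_(h1,h1',h2,h2') 1[four corners in S0] * ‖W‖`. Hence for a proportion `≥ (2 R)^-4 / 2` of the quadruples all
four corners are in `S0` and `‖W‖ ≥ (2 R)^-4 / 2 ≥ 1 / R^9` (`32 ≤ R^5`), and `ma` (with `R^9` for `R`) gives
`-Ξ ∈ Maj M H (R^(9 C1))`, so `Ξ ∈ Maj` (`neg_mem_Maj`), `C1` the constant of `ma`. Choose `(h1', h2')` with a proportion `≥ R^-9` of good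
`(h1, h2)`, and then `m ∈ Maj` with `Ξ = m` for a proportion `≥ R^-9 / Maj.card ≥ R^-9 / (3 R^(18 C1) R)` of the `(h1, h2)`
(`card_Maj`; `R^(9 C1) < M`). For these `ξ h1 h2 = (m + ξ h1' h2 - ξ h1' h2') + ξ h1 h2' = ψ1 h2 + ψ2 h1` and `‖T h‖^2 ≥ 1 / (2 R)`.
So the average of `‖ft (..) (ψ1 h2 + ψ2 h1)‖^2` is at least `R^-9 / (3 R^(18 C1 + 1)) / (2 R) ≥ R^-C`.
-/

set_option autoImplicit false

open Finset

namespace Pool.Agent.NLT

open Pool.Agent.HLT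

namespace LowBAux

section grp

variable {M : ℕ} [NeZero M]

/-- Average over two variables. -/
noncomputable def A2 (f : ZMod M → ZMod M → ℝ) : ℝ := avr (fun h1 => avr (fun h2 => f h1 h2))

lemma A2_mono {f g : ZMod M → ZMod M → ℝ} (h : ∀ x y, f x y ≤ g x y) : A2 f ≤ A2 g :=
  avr_mono fun x => avr_mono fun y => h x y

lemma A2_add (f g : ZMod M → ZMod M → ℝ) : A2 (fun x y => f x y + g x y) = A2 f + A2 g := by
  unfold A2
  rw [← avr_add]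
  congr 1
  funext x
  exact avr_add _ _

lemma A2_const (c : ℝ) : A2 (fun _ _ : ZMod M => c) = c := by
  unfold A2
  rw [avr_const, avr_const]

lemma A2_mul (c : ℝ) (f : ZMod M → ZMod M → ℝ) : A2 (fun x y => c * f x y) = c * A2 f := by
  unfold A2
  rw [← avr_mul_left]
  congr 1
  funext x
  exact avr_mul_left _ _

lemma A2_sum {ι : Type} (s : Finset ι) (f : ι → ZMod M → ZMod M → ℝ) :
    A2 (fun x y => ∑ i ∈ s, f i x y) = ∑ i ∈ s, A2 (f i) := by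
  unfold A2
  rw [← avr_sum]
  congr 1
  funext x
  exact avr_sum _ _

lemma A2_ofReal (f : ZMod M → ZMod M → ℝ) :
    av (fun h1 => av (fun h2 => (f h1 h2 : ℂ))) = (A2 f : ℂ) := by
  unfold A2
  rw [← av_ofReal]
  congr 1
  funext x
  exact av_ofReal _

lemma step1 {F : ZMod M → ℂ} (hF : Bd F) (r : ℝ) (hr : 0 < r) (hU : 1 / r ≤ U4 F) :
    ∃ (ξ : ZMod M → ZMod M → ZMod M) (b : ZMod M → ZMod M → ℂ), (∀ h1 h2, ‖b h1 h2‖ ≤ 1) ∧
      (∀ h1 h2, b h1 h2 ≠ 0 → 1 / (2 * r) ≤ ‖ft (Dl h1 (Dl h2 F)) (ξ h1 h2)‖ ^ 2) ∧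
      1 / (2 * r) ≤ ‖av (fun h1 => av (fun h2 => b h1 h2 * ft (Dl h1 (Dl h2 F)) (ξ h1 h2)))‖ := by
  classical
  have hex : ∀ h1 h2 : ZMod M, ∃ ξ, U2 (Dl h1 (Dl h2 F)) ≤ ‖ft (Dl h1 (Dl h2 F)) ξ‖ ^ 2 :=
    fun h1 h2 => exists_U2_le (Dl_Bd h1 (Dl_Bd h2 hF))
  choose ξ hξ using hex
  set T : ZMod M → ZMod M → ℂ := fun h1 h2 => ft (Dl h1 (Dl h2 F)) (ξ h1 h2) with hT
  have hT1 : ∀ h1 h2, ‖T h1 h2‖ ≤ 1 := fun h1 h2 => norm_ft_le_one (Dl_Bd h1 (Dl_Bd h2 hF)) _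
  have hUT : 1 / r ≤ A2 (fun h1 h2 => ‖T h1 h2‖ ^ 2) := by
    refine hU.trans ?_
    unfold U4 U3
    refine avr_mono fun h1 => avr_mono fun h2 => ?_
    rw [Dl_comm]
    exact hξ h1 h2
  refine ⟨ξ, fun h1 h2 => if 1 / (2 * r) ≤ ‖T h1 h2‖ ^ 2 then
    (starRingEnd ℂ) (T h1 h2) / (‖T h1 h2‖ : ℂ) else 0, ?_, ?_, ?_⟩
  · intro h1 h2
    show ‖(if 1 / (2 * r) ≤ ‖T h1 h2‖ ^ 2 then (starRingEnd ℂ) (T h1 h2) / (‖T h1 h2‖ : ℂ) else 0)‖ ≤ 1
    split_ifs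
    · rw [norm_div, Complex.norm_conj, Complex.norm_real, norm_norm]
      exact div_self_le_one _
    · simp
  · intro h1 h2 hb
    by_contra hcon
    apply hb
    exact if_neg hcon
  · have heq : (fun h1 => av (fun h2 => (if 1 / (2 * r) ≤ ‖T h1 h2‖ ^ 2 then
        (starRingEnd ℂ) (T h1 h2) / (‖T h1 h2‖ : ℂ) else 0) * ft (Dl h1 (Dl h2 F)) (ξ h1 h2))) =
        fun h1 => av (fun h2 => (((if 1 / (2 * r) ≤ ‖T h1 h2‖ ^ 2 then ‖T h1 h2‖ else 0 : ℝ)) : ℂ)) := by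
      funext h1
      congr 1
      funext h2
      change (if 1 / (2 * r) ≤ ‖T h1 h2‖ ^ 2 then
        (starRingEnd ℂ) (T h1 h2) / (‖T h1 h2‖ : ℂ) else 0) * T h1 h2 = _
      split_ifs with h
      · have hne : (‖T h1 h2‖ : ℂ) ≠ 0 := by
          intro h0
          have h0' : ‖T h1 h2‖ = 0 := by exact_mod_cast h0
          rw [h0', zero_pow two_ne_zero] at h
          have : 0 < 1 / (2 * r) := by positivity
          linarith
        have h2' : (starRingEnd ℂ) (T h1 h2) * T h1 h2 = (‖T h1 h2‖ : ℂ) * (‖T h1 h2‖ : ℂ) := by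
          rw [mul_comm, Complex.mul_conj, Complex.normSq_eq_norm_sq]
          push_cast
          ring
        rw [div_mul_eq_mul_div, h2', mul_div_assoc, div_self hne, mul_one]
      · simp
    rw [heq, A2_ofReal, Complex.norm_real]
    refine le_trans ?_ (le_abs_self _)
    have h3 : A2 (fun h1 h2 => ‖T h1 h2‖ ^ 2) ≤
        A2 (fun h1 h2 => (if 1 / (2 * r) ≤ ‖T h1 h2‖ ^ 2 then ‖T h1 h2‖ else 0) + 1 / (2 * r)) := by
      refine A2_mono fun h1 h2 => ?_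
      have h4 : 0 < 1 / (2 * r) := by positivity
      split_ifs with h
      · nlinarith [norm_nonneg (T h1 h2), hT1 h1 h2]
      · push Not at h
        linarith
    rw [A2_add, A2_const] at h3
    have h5 : 1 / r = 1 / (2 * r) + 1 / (2 * r) := by
      field_simp
      norm_num
    linarith

lemma step2 (g : ZMod M → ZMod M → ZMod M → ZMod M → ℝ) (δ : ℝ)
    (h : δ ≤ avr (fun h1 => avr (fun h1' => avr (fun h2 => avr (fun h2' => g h1 h1' h2 h2'))))) :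
    ∃ h1' h2', δ ≤ A2 (fun h1 h2 => g h1 h1' h2 h2') := by
  rw [avr_comm] at h
  obtain ⟨h1', hh⟩ := exists_avr_le (fun h1' => avr (fun h1 => avr (fun h2 => avr (fun h2' => g h1 h1' h2 h2'))))
  have hh0 : δ ≤ avr (fun h1 => avr (fun h2 => avr (fun h2' => g h1 h1' h2 h2'))) := h.trans hh
  have e1 : (fun h1 => avr (fun h2 => avr (fun h2' => g h1 h1' h2 h2'))) =
      fun h1 => avr (fun h2' => avr (fun h2 => g h1 h1' h2 h2')) := by
    funext h1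
    exact avr_comm _
  rw [e1, avr_comm] at hh0
  obtain ⟨h2', hh'⟩ := exists_avr_le (fun h2' => avr (fun h1 => avr (fun h2 => g h1 h1' h2 h2')))
  exact ⟨h1', h2', hh0.trans hh'⟩

/-- Pigeonhole over a finite set of values. -/
lemma step3 (S : Finset (ZMod M)) (Ξ : ZMod M → ZMod M → ZMod M) (G : ZMod M → ZMod M → Prop)
    [∀ x y, Decidable (G x y)] (hG : ∀ x y, G x y → Ξ x y ∈ S) (δ K : ℝ) (hδ : 0 < δ) (hK : 0 < K)
    (hS : (S.card : ℝ) ≤ K) (h : δ ≤ A2 (fun x y => if G x y then (1 : ℝ) else 0)) :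
    ∃ m, δ / K ≤ A2 (fun x y => if G x y ∧ Ξ x y = m then (1 : ℝ) else 0) := by
  by_contra hcon
  push Not at hcon
  have h1 : A2 (fun x y => if G x y then (1 : ℝ) else 0) ≤
      A2 (fun x y => ∑ m ∈ S, if G x y ∧ Ξ x y = m then (1 : ℝ) else 0) := by
    refine A2_mono fun x y => ?_
    split_ifs with hg
    · have h2 : (1 : ℝ) = if G x y ∧ Ξ x y = Ξ x y then (1 : ℝ) else 0 := by
        rw [if_pos ⟨hg, rfl⟩]
      refine le_trans (le_of_eq h2) ?_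
      exact Finset.single_le_sum (f := fun m => if G x y ∧ Ξ x y = m then (1 : ℝ) else 0)
        (fun m _ => by
          show (0 : ℝ) ≤ if G x y ∧ Ξ x y = m then (1 : ℝ) else 0
          split_ifs <;> norm_num) (hG x y hg)
    · exact Finset.sum_nonneg fun m _ => by split_ifs <;> norm_num
  rw [A2_sum] at h1
  have h2 : 0 < A2 (fun x y => if G x y then (1 : ℝ) else 0) := lt_of_lt_of_le hδ h
  have hne : S.Nonempty := by
    by_contra hem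
    rw [Finset.not_nonempty_iff_eq_empty] at hem
    rw [hem, Finset.sum_empty] at h1
    linarith
  have h3 : ∑ m ∈ S, A2 (fun x y => if G x y ∧ Ξ x y = m then (1 : ℝ) else 0) <
      ∑ m ∈ S, δ / K := Finset.sum_lt_sum_of_nonempty hne fun m _ => hcon m
  rw [Finset.sum_const, nsmul_eq_mul] at h3
  have h4 : (S.card : ℝ) * (δ / K) ≤ δ := by
    have : (S.card : ℝ) * (δ / K) ≤ K * (δ / K) :=
      mul_le_mul_of_nonneg_right hS (by positivity)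
    have h5 : K * (δ / K) = δ := by field_simp
    linarith
  linarith

end grp

end LowBAux

open LowBAux

theorem FF_Bd {M : ℕ} [NeZero M] (a c d : ℤ) (H : ℕ) {f0 f1 : ZMod M → ℂ} (h0 : Bd f0) (h1 : Bd f1) :
    Bd (FF a c d H f0 f1) := by
  intro x
  unfold FF
  refine norm_tv_le_one H _ fun t => ?_
  rw [Complex.norm_conj, norm_mul]
  exact mul_le_one₀ (h0 _) (norm_nonneg _) (h1 _)

theorem low_split_two (a c d : ℤ) (hc : c ≠ 0) : ∃ C : ℕ, ∀ (R H M : ℕ) [Fact M.Prime], 2 ≤ R → R ^ C ≤ H →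
    H ^ 2 ≤ M → M ≤ R * H ^ 2 → ∀ f0 f1 : ZMod M → ℂ, Bd f0 → Bd f1 → 1 / (R : ℝ) ≤ U4 (FF a c d H f0 f1) →
    ∃ ψ1 ψ2 : ZMod M → ZMod M, 1 / (R : ℝ) ^ C ≤
      avr (fun h1 => avr (fun h2 => ‖ft (Dl h1 (Dl h2 (FF a c d H f0 f1))) (ψ1 h2 + ψ2 h1)‖ ^ 2)) := by
  classical
  obtain ⟨C1, hma⟩ := ma a c d hc
  refine ⟨18 * C1 + 20, ?_⟩
  intro R H M _ hR hRH hHM hMR f0 f1 hf0 hf1 hU
  have hR0 : 0 < R := by omega
  have hRr : (2 : ℝ) ≤ R := by exact_mod_cast hR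
  have hRp : (0 : ℝ) < R := by linarith
  set F := FF a c d H f0 f1 with hFdef
  have hF : Bd F := FF_Bd a c d H hf0 hf1
  obtain ⟨ξ, b, hb1, hb2, hb3⟩ := step1 hF (R : ℝ) hRp hU
  have hcs := low_cs_two a c d H f0 f1 hf0 hf1 b hb1 ξ
  rw [← hFdef] at hcs
  set W : ZMod M → ZMod M → ZMod M → ZMod M → ℝ := fun h1 h1' h2 h2' =>
    ‖tv H (fun t => av (fun x => G4 f0 h1 h1' h2 h2' x *
          G4 f1 h1 h1' h2 h2' (x + ((a * (t : ℤ) : ℤ) : ZMod M)) *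
          chi (-(ξ h1 h2 - ξ h1 h2' - ξ h1' h2 + ξ h1' h2')) (x + ((PP c d t : ℤ) : ZMod M))))‖ with hW
  have hW1 : ∀ h1 h1' h2 h2', W h1 h1' h2 h2' ≤ 1 := by
    intro h1 h1' h2 h2'
    refine norm_tv_le_one H _ fun t => norm_av_le_one fun x => ?_
    rw [norm_mul, norm_mul, norm_chi, mul_one]
    exact mul_le_one₀ (G4_Bd hf0 _ _ _ _ _) (norm_nonneg _) (G4_Bd hf1 _ _ _ _ _)
  have hW0 : ∀ h1 h1' h2 h2', 0 ≤ W h1 h1' h2 h2' := fun h1 h1' h2 h2' => norm_nonneg _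
  have hcs2 : (1 / (2 * (R : ℝ))) ^ 4 ≤ avr (fun h1 => avr (fun h1' => avr (fun h2 => avr (fun h2' =>
        ‖b h1 h2‖ * ‖b h1 h2'‖ * ‖b h1' h2‖ * ‖b h1' h2'‖ * W h1 h1' h2 h2')))) := by
    refine le_trans ?_ hcs
    exact pow_le_pow_left₀ (by positivity) hb3 4
  obtain ⟨h1', h2', hh⟩ := step2 _ _ hcs2
  -- the good pairs
  set δ : ℝ := (1 / (2 * (R : ℝ))) ^ 4 with hδ
  have hδpos : 0 < δ := by positivity
  have hδ9 : 1 / (R : ℝ) ^ 9 ≤ δ / 2 := by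
    have h5 : (32 : ℝ) ≤ (R : ℝ) ^ 5 := by
      calc (32 : ℝ) = 2 ^ 5 := by norm_num
        _ ≤ (R : ℝ) ^ 5 := pow_le_pow_left₀ (by norm_num) hRr 5
    have h6 : δ / 2 = 1 / (32 * (R : ℝ) ^ 4) := by
      rw [hδ]
      field_simp
      norm_num
    rw [h6]
    apply one_div_le_one_div_of_le (by positivity)
    have h7 : (R : ℝ) ^ 9 = (R : ℝ) ^ 5 * (R : ℝ) ^ 4 := by ring
    rw [h7]
    exact mul_le_mul_of_nonneg_right h5 (by positivity)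
  set G : ZMod M → ZMod M → Prop := fun h1 h2 => b h1 h2 ≠ 0 ∧ δ / 2 ≤ W h1 h1' h2 h2' with hG
  have hGbig : δ / 2 ≤ A2 (fun h1 h2 => if G h1 h2 then (1 : ℝ) else 0) := by
    have h3 : A2 (fun h1 h2 => ‖b h1 h2‖ * ‖b h1 h2'‖ * ‖b h1' h2‖ * ‖b h1' h2'‖ * W h1 h1' h2 h2') ≤
        A2 (fun h1 h2 => (if G h1 h2 then (1 : ℝ) else 0) + δ / 2) := by
      refine A2_mono fun h1 h2 => ?_
      have hp : ‖b h1 h2‖ * ‖b h1 h2'‖ * ‖b h1' h2‖ * ‖b h1' h2'‖ ≤ 1 := by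
        have := hb1 h1 h2
        have := hb1 h1 h2'
        have := hb1 h1' h2
        have := hb1 h1' h2'
        refine mul_le_one₀ (mul_le_one₀ (mul_le_one₀ ?_ (norm_nonneg _) ?_) (norm_nonneg _) ?_)
          (norm_nonneg _) ?_ <;> assumption
      have hp0 : 0 ≤ ‖b h1 h2‖ * ‖b h1 h2'‖ * ‖b h1' h2‖ * ‖b h1' h2'‖ := by positivity
      by_cases hg : G h1 h2
      · rw [if_pos hg]
        have : ‖b h1 h2‖ * ‖b h1 h2'‖ * ‖b h1' h2‖ * ‖b h1' h2'‖ * W h1 h1' h2 h2' ≤ 1 :=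
          mul_le_one₀ hp (hW0 _ _ _ _) (hW1 _ _ _ _)
        linarith
      · rw [if_neg hg, zero_add]
        by_cases hb0 : b h1 h2 = 0
        · rw [hb0]
          simp only [norm_zero, zero_mul]
          linarith
        · have hw : W h1 h1' h2 h2' < δ / 2 := by
            by_contra hcon
            exact hg ⟨hb0, not_lt.1 hcon⟩
          calc ‖b h1 h2‖ * ‖b h1 h2'‖ * ‖b h1' h2‖ * ‖b h1' h2'‖ * W h1 h1' h2 h2'
              ≤ 1 * W h1 h1' h2 h2' := mul_le_mul_of_nonneg_right hp (hW0 _ _ _ _)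
            _ ≤ δ / 2 := by linarith
    rw [A2_add, A2_const] at h3
    linarith
  have hGmaj : ∀ h1 h2, G h1 h2 → ξ h1 h2 - ξ h1 h2' - ξ h1' h2 + ξ h1' h2' ∈ Maj M H (R ^ (9 * C1)) := by
    intro h1 h2 hg
    have h3 : 1 / ((R ^ 9 : ℕ) : ℝ) ≤ W h1 h1' h2 h2' := by
      push_cast
      exact hδ9.trans hg.2
    have h4 := hma (R ^ 9) H M (by
      calc 2 ≤ R := hR
        _ ≤ R ^ 9 := Nat.le_self_pow (by norm_num) R) (by
      calc (R ^ 9) ^ C1 = R ^ (9 * C1) := by rw [pow_mul]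
        _ ≤ R ^ (18 * C1 + 20) := Nat.pow_le_pow_right hR0 (by omega)
        _ ≤ H := hRH) _ _ (G4_Bd hf0 h1 h1' h2 h2') (G4_Bd hf1 h1 h1' h2 h2') _ h3
    have h5 := neg_mem_Maj h4
    rw [neg_neg, ← pow_mul] at h5
    exact h5
  have hcard := card_Maj M H (R ^ (9 * C1)) R (Nat.one_le_pow _ _ hR0) (by omega) (by
    have hH1 : 1 ≤ H := le_trans (Nat.one_le_pow _ _ hR0) hRH
    calc R ^ (9 * C1) < R ^ (18 * C1 + 20) := Nat.pow_lt_pow_right (by omega) (by omega)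
      _ ≤ H := hRH
      _ ≤ H ^ 2 := Nat.le_self_pow (by norm_num) H
      _ ≤ M := hHM) hMR
  obtain ⟨m, hm⟩ := step3 (Maj M H (R ^ (9 * C1)))
    (fun h1 h2 => ξ h1 h2 - ξ h1 h2' - ξ h1' h2 + ξ h1' h2') G hGmaj (1 / (R : ℝ) ^ 9)
    (3 * ((R ^ (9 * C1) : ℕ) : ℝ) ^ 2 * R) (by positivity) (by positivity) hcard (hδ9.trans hGbig)
  refine ⟨fun h2 => m + ξ h1' h2 - ξ h1' h2', fun h1 => ξ h1 h2', ?_⟩
  have hfin : A2 (fun h1 h2 => 1 / (2 * (R : ℝ)) * (if G h1 h2 ∧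
      ξ h1 h2 - ξ h1 h2' - ξ h1' h2 + ξ h1' h2' = m then (1 : ℝ) else 0)) ≤
      A2 (fun h1 h2 => ‖ft (Dl h1 (Dl h2 F)) (m + ξ h1' h2 - ξ h1' h2' + ξ h1 h2')‖ ^ 2) := by
    refine A2_mono fun h1 h2 => ?_
    split_ifs with hg
    · have h3 : m + ξ h1' h2 - ξ h1' h2' + ξ h1 h2' = ξ h1 h2 := by
        rw [← hg.2]
        ring
      rw [h3, mul_one]
      exact hb2 h1 h2 hg.1.1
    · rw [mul_zero]
      positivity
  rw [A2_mul] at hfin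
  refine le_trans ?_ hfin
  refine le_trans ?_ (mul_le_mul_of_nonneg_left hm (by positivity))
  have h9 : (3 : ℝ) ≤ (R : ℝ) ^ 2 := by nlinarith
  have e1 : 1 / (2 * (R : ℝ)) * (1 / (R : ℝ) ^ 9 / (3 * ((R ^ (9 * C1) : ℕ) : ℝ) ^ 2 * R)) =
      1 / (2 * 3 * (R : ℝ) ^ (18 * C1 + 11)) := by
    push_cast
    rw [← pow_mul]
    have e2 : 9 * C1 * 2 = 18 * C1 := by ring
    rw [e2, pow_add]
    field_simp
  rw [e1]
  apply one_div_le_one_div_of_le (by positivity)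
  have e3 : (R : ℝ) ^ (18 * C1 + 20) = (R : ℝ) * (R : ℝ) ^ 2 * ((R : ℝ) ^ (18 * C1 + 11) * (R : ℝ) ^ 6) := by
    ring
  rw [e3]
  have h10 : (1 : ℝ) ≤ (R : ℝ) ^ 6 := one_le_pow₀ (by linarith)
  have h11 : (2 : ℝ) * 3 ≤ (R : ℝ) * (R : ℝ) ^ 2 := mul_le_mul hRr h9 (by norm_num) (by linarith)
  refine mul_le_mul h11 ?_ (by positivity) (by positivity)
  exact le_mul_of_one_le_right (by positivity) h10

end Pool.Agent.NLT
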