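import Pool.Agent.Lib.NLT.BasicC

/-!
# Module LowC: split frequencies are controlled by `U3`

PROOF. By `norm_ft_sq` and `Dl_comm`, `‖ft (Dl h1 (Dl h2 F)) ξ‖^2 = av_u chi ξ u * av (Dl h1 (Dl h2 (Dl u F)))`, so with
`ξ = ψ1 h2 + ψ2 h1` the left average is `av_u J u`, `J u = av_h1 av_h2 chi (ψ1 h2) u * chi (ψ2 h1) u * av_x Dl h1 (Dl h2 K) x`,
`K = Dl u F`. Claim: `‖J u‖^2 ≤ U2 K`. `Dl h1 (Dl h2 K) x = K x conj K (x + h1) conj K (x + h2) K (x + h1 + h2)` and
`J u = av_x av_h1 [K x conj K (x + h1) b2 h1] * av_h2 b1 h2 conj K (x + h2) K (x + h1 + h2)`; Cauchy-Schwarz in `(x, h1)`: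
`‖J u‖^2 ≤ av_h2 av_h2' b1 h2 conj (b1 h2') av_x [conj K (x + h2) K (x + h2')] av_h1 [K (x + h1 + h2) conj K (x + h1 + h2')]`;
the average over `h1` does not depend on `x` (substitute `y = x + h1`), so it is
`av_h2 av_h2' b1 conj b1 * conj (w) * w`-like with `‖w‖ = ‖av (Dl (h2' - h2) K)‖`: bounded by `avr_v ‖av (Dl v K)‖^2 = U2 K` (`U2_eq`).
Then `(avr ..)^2 ≤ (avr_u ‖J u‖)^2 ≤ avr_u ‖J u‖^2 ≤ avr_u U2 (Dl u F) = U3 F`.
(`F` need not be bounded by 1 except for the bracket: `K` is bounded by 1.)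
-/

set_option autoImplicit false

open Finset

namespace Pool.Agent.NLT

open Pool.Agent.HLT

namespace LowCAux

variable {M : ℕ} [NeZero M]

lemma Dl_two (h k : ZMod M) (K : ZMod M → ℂ) (x : ZMod M) :
    Dl h (Dl k K) x = (K x * (starRingEnd ℂ) (K (x + h))) *
      ((starRingEnd ℂ) (K (x + k)) * K (x + h + k)) := by
  unfold Dl
  simp only [map_mul, Complex.conj_conj]
  ring

lemma first_form (K : ZMod M → ℂ) (b1 b2 : ZMod M → ℂ) (h : ZMod M) :
    av (fun k => b1 k * b2 h * av (Dl h (Dl k K))) =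
      av (fun x => (K x * (starRingEnd ℂ) (K (x + h)) * b2 h) *
        av (fun k => b1 k * ((starRingEnd ℂ) (K (x + k)) * K (x + h + k)))) := by
  have e1 : ∀ k, b1 k * b2 h * av (Dl h (Dl k K)) =
      av (fun x => (K x * (starRingEnd ℂ) (K (x + h)) * b2 h) *
        (b1 k * ((starRingEnd ℂ) (K (x + k)) * K (x + h + k)))) := by
    intro k
    rw [← av_mul_left]
    congr 1
    funext x
    rw [Dl_two]
    ring
  simp only [e1]
  rw [av_comm]
  congr 1
  funext x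
  rw [av_mul_left]

lemma Dl_g (K : ZMod M → ℂ) (b1 : ZMod M → ℂ) (h x v k : ZMod M) :
    Dl v (fun k => b1 k * ((starRingEnd ℂ) (K (x + k)) * K (x + h + k))) k =
      Dl v b1 k * ((starRingEnd ℂ) (Dl v K (x + k)) * Dl v K (h + (x + k))) := by
  unfold Dl
  simp only [map_mul, Complex.conj_conj]
  have e1 : x + (k + v) = x + k + v := by ring
  have e2 : x + h + (k + v) = h + (x + k) + v := by ring
  have e3 : x + h + k = h + (x + k) := by ring
  rw [e1, e2, e3]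
  ring

lemma avr_sq_eq (K : ZMod M → ℂ) (b1 : ZMod M → ℂ) :
    ((avr (fun h => avr (fun x =>
      ‖av (fun k => b1 k * ((starRingEnd ℂ) (K (x + k)) * K (x + h + k)))‖ ^ 2)) : ℝ) : ℂ) =
    av (fun v => av (Dl v b1) * ((starRingEnd ℂ) (av (Dl v K)) * av (Dl v K))) := by
  rw [← av_ofReal]
  simp only [← av_ofReal]
  simp only [norm_av_sq]
  have e1 : ∀ h : ZMod M, av (fun x => av (fun v => av (Dl v (fun k => b1 k *
      ((starRingEnd ℂ) (K (x + k)) * K (x + h + k)))))) =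
      av (fun v => av (fun k => av (fun x =>
        Dl v b1 k * ((starRingEnd ℂ) (Dl v K (x + k)) * Dl v K (h + (x + k)))))) := by
    intro h
    rw [av_comm]
    congr 1
    funext v
    rw [av_comm (fun k x => Dl v b1 k * ((starRingEnd ℂ) (Dl v K (x + k)) * Dl v K (h + (x + k))))]
    congr 1
    funext x
    congr 1
    funext k
    rw [Dl_g]
  simp only [e1]
  rw [av_comm]
  congr 1
  funext v
  rw [av_comm, ← av_mul_right]
  congr 1
  funext k
  rw [av_comm]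
  have e2 : ∀ x : ZMod M, av (fun h => Dl v b1 k * ((starRingEnd ℂ) (Dl v K (x + k)) * Dl v K (h + (x + k)))) =
      (Dl v b1 k * av (Dl v K)) * (starRingEnd ℂ) (Dl v K (x + k)) := by
    intro x
    rw [av_mul_left, av_mul_left, av_shift (Dl v K) (x + k)]
    ring
  simp only [e2]
  rw [av_mul_left, av_shift (fun x => (starRingEnd ℂ) (Dl v K x)) k, av_conj]
  ring

lemma J_le (K : ZMod M → ℂ) (hK : Bd K) (b1 b2 : ZMod M → ℂ) (h1 : Bd b1) (h2 : Bd b2) :
    ‖av (fun h => av (fun k => b1 k * b2 h * av (Dl h (Dl k K))))‖ ^ 2 ≤ U2 K := by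
  refine le_trans (norm_av_sq_le _) ?_
  have s1 : avr (fun h => ‖av (fun k => b1 k * b2 h * av (Dl h (Dl k K)))‖ ^ 2) ≤
      avr (fun h => avr (fun x =>
        ‖av (fun k => b1 k * ((starRingEnd ℂ) (K (x + k)) * K (x + h + k)))‖ ^ 2)) := by
    refine avr_mono (fun h => ?_)
    rw [first_form]
    refine norm_av_mul_sq_le _ _ ?_
    intro x
    rw [norm_mul, norm_mul, RCLike.norm_conj]
    exact mul_le_one₀ (mul_le_one₀ (hK _) (norm_nonneg _) (hK _)) (norm_nonneg _) (h2 _)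
  refine le_trans s1 ?_
  have s2 := avr_sq_eq K b1
  have s3 : ∀ r : ℝ, r ≤ ‖(r : ℂ)‖ := fun r => by
    rw [Complex.norm_real]
    exact le_abs_self r
  refine le_trans (s3 _) ?_
  rw [s2, U2_eq]
  refine le_trans (norm_av_le _) (avr_mono (fun v => ?_))
  rw [norm_mul, norm_mul, RCLike.norm_conj]
  have s4 : ‖av (Dl v b1)‖ ≤ 1 := norm_av_le_one (Dl_Bd v h1)
  have s5 := norm_nonneg (av (Dl v K))
  nlinarith [mul_nonneg s5 s5]

end LowCAux

open LowCAux

theorem split_le_U3 {M : ℕ} [NeZero M] (F : ZMod M → ℂ) (hF : Bd F) (ψ1 ψ2 : ZMod M → ZMod M) :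
    avr (fun h1 => avr (fun h2 => ‖ft (Dl h1 (Dl h2 F)) (ψ1 h2 + ψ2 h1)‖ ^ 2)) ^ 2 ≤ U3 F := by
  have e0 : ((avr (fun h1 => avr (fun h2 => ‖ft (Dl h1 (Dl h2 F)) (ψ1 h2 + ψ2 h1)‖ ^ 2)) : ℝ) : ℂ) =
      av (fun u => av (fun h => av (fun k => chi (ψ1 k) u * chi (ψ2 h) u * av (Dl h (Dl k (Dl u F)))))) := by
    rw [← av_ofReal]
    simp only [← av_ofReal]
    simp only [norm_ft_sq]
    rw [av_comm (fun u h => av (fun k => chi (ψ1 k) u * chi (ψ2 h) u * av (Dl h (Dl k (Dl u F)))))]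
    congr 1
    funext h
    rw [av_comm (fun u k => chi (ψ1 k) u * chi (ψ2 h) u * av (Dl h (Dl k (Dl u F))))]
    congr 1
    funext k
    congr 1
    funext u
    rw [chi_add_left, Dl_comm u h, Dl_comm u k]
  have s1 : avr (fun h1 => avr (fun h2 => ‖ft (Dl h1 (Dl h2 F)) (ψ1 h2 + ψ2 h1)‖ ^ 2)) ^ 2 =
      ‖av (fun u => av (fun h => av (fun k => chi (ψ1 k) u * chi (ψ2 h) u * av (Dl h (Dl k (Dl u F))))))‖ ^ 2 := by
    rw [← e0, Complex.norm_real, Real.norm_eq_abs, sq_abs]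
  rw [s1]
  refine le_trans (norm_av_sq_le _) ?_
  unfold U3
  refine avr_mono (fun u => ?_)
  exact J_le (Dl u F) (Dl_Bd u hF) (fun k => chi (ψ1 k) u) (fun h => chi (ψ2 h) u)
    (fun k => (norm_chi _ _).le) (fun h => (norm_chi _ _).le)

end Pool.Agent.NLT
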