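import Pool.Agent.Lib.NLT.LowB

/-!
# Module LowOne: degree lowering with one derivative

PROOF. `F = FF a c d H f0 f1`, `U3 F = avr_h U2 (Dl h F)`. Choose `ξ h` with `U2 (Dl h F) ≤ ‖ft (Dl h F) (ξ h)‖^2`; `T h`, `S0`, `b` as in
`LowB`: `av_h b h T h ≥ 1 / (2 R)`. `T h = av_x F x conj F (x + h) chi (-ξ h) x` and `conj F (x + h) = tv_t φ t (x + h)` with
`φ t x = f0 (x - P t) f1 (x - P t + a t)`. Cauchy-Schwarz over `(t, x)` removes `F x`:
`(2 R)^-2 ≤ avr_h avr_h' ‖b h‖ ‖b h'‖ ‖tv_t av_x chi (-(ξ h - ξ h')) x φ t (x + h) conj φ t (x + h')‖`; shift `x` by `P t`: the inner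
average is `tv_t av_x G0 x G1 (x + a t) chi (-(ξ h - ξ h')) (x + P t)`, `G0 x = f0 (x + h) conj f0 (x + h')`, `G1` alike. By `ma`
(with `R^5`, `8 R^2 ≤ R^5`) `ξ h - ξ h' ∈ Maj M H (R^(5 C1))` for a proportion `≥ R^-5` of pairs in `S0 × S0`; fix `h'`, then the value
`m` (`card_Maj`): `ξ h = ξ0` on a subset of `S0` of density `≥ R^-5 / (3 R^(10 C1 + 1))`. Hence
`R^-C ≤ avr_h ‖ft (Dl h F) ξ0‖^2 ≤ U2 F` (`avr_ft_Dl_le`) and `U2 F ≤ ‖ft F η‖^2` for some `η` (`exists_U2_le`).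
-/

set_option autoImplicit false

open Finset

namespace Pool.Agent.NLT

open Pool.Agent.HLT

namespace LowOneAux

variable {M : ℕ} [NeZero M]

lemma norm_av_sq_two (G : ZMod M → ℂ) :
    ((‖av G‖ ^ 2 : ℝ) : ℂ) = av (fun h => av (fun h' => G h * (starRingEnd ℂ) (G h'))) := by
  have h1 : ((‖av G‖ ^ 2 : ℝ) : ℂ) = av G * (starRingEnd ℂ) (av G) := by
    rw [Complex.mul_conj, Complex.normSq_eq_norm_sq]
  rw [h1, ← av_conj, ← av_mul_right]
  congr 1
  funext h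
  rw [← av_mul_left]

lemma tvr_cast (H : ℕ) (f : ℕ → ℝ) : ((tvr H f : ℝ) : ℂ) = tv H (fun t => (f t : ℂ)) := by
  unfold tvr tv
  push_cast
  rfl

lemma cs (H : ℕ) (F : ZMod M → ℂ) (hF : Bd F) (b : ZMod M → ℂ) (φ : ℕ → ZMod M → ℂ)
    (hφ : ∀ x, (starRingEnd ℂ) (F x) = tv H (fun t => φ t x)) (ξ : ZMod M → ZMod M) :
    ‖av (fun h => b h * ft (Dl h F) (ξ h))‖ ^ 2 ≤ avr (fun h => avr (fun h' => ‖b h‖ * ‖b h'‖ *
      ‖tv H (fun t => av (fun x => φ t (x + h) * (starRingEnd ℂ) (φ t (x + h')) * chi (-(ξ h - ξ h')) x))‖)) := by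
  set g : ℕ → ZMod M → ℂ := fun t x => av (fun h => b h * φ t (x + h) * chi (-ξ h) x) with hg
  have e1 : av (fun h => b h * ft (Dl h F) (ξ h)) = tv H (fun t => av (fun x => F x * g t x)) := by
    have e2 : ∀ h, b h * ft (Dl h F) (ξ h) =
        av (fun x => tv H (fun t => F x * (b h * φ t (x + h) * chi (-ξ h) x))) := by
      intro h
      unfold ft
      rw [← av_mul_left]
      congr 1
      funext x
      unfold Dl
      rw [hφ (x + h)]
      rw [show b h * (F x * tv H (fun t => φ t (x + h)) * chi (-ξ h) x) =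
        (F x * b h * chi (-ξ h) x) * tv H (fun t => φ t (x + h)) by ring, ← tv_mul_left]
      congr 1
      funext t
      ring
    simp only [e2]
    rw [av_comm (fun h x => tv H (fun t => F x * (b h * φ t (x + h) * chi (-ξ h) x)))]
    rw [tv_av_comm]
    congr 1
    funext x
    rw [← tv_av_comm]
    congr 1
    funext t
    rw [av_mul_left]
  rw [e1]
  have h1 : ‖tv H (fun t => av (fun x => F x * g t x))‖ ^ 2 ≤ tvr H (fun t => avr (fun x => ‖g t x‖ ^ 2)) := by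
    refine le_trans (norm_tv_sq_le _ _) (tvr_mono _ (fun t _ => ?_))
    exact norm_av_mul_sq_le F (g t) hF
  refine le_trans h1 ?_
  have e3 : ((tvr H (fun t => avr (fun x => ‖g t x‖ ^ 2)) : ℝ) : ℂ) =
      av (fun h => av (fun h' => b h * (starRingEnd ℂ) (b h') *
        tv H (fun t => av (fun x => φ t (x + h) * (starRingEnd ℂ) (φ t (x + h')) * chi (-(ξ h - ξ h')) x)))) := by
    rw [tvr_cast]
    have e4 : ∀ t, ((avr (fun x => ‖g t x‖ ^ 2) : ℝ) : ℂ) = av (fun h => av (fun h' =>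
        b h * (starRingEnd ℂ) (b h') *
          av (fun x => φ t (x + h) * (starRingEnd ℂ) (φ t (x + h')) * chi (-(ξ h - ξ h')) x))) := by
      intro t
      rw [← av_ofReal]
      have e5 : ∀ x, ((‖g t x‖ ^ 2 : ℝ) : ℂ) = av (fun h => av (fun h' =>
          (b h * φ t (x + h) * chi (-ξ h) x) * (starRingEnd ℂ) (b h' * φ t (x + h') * chi (-ξ h') x))) :=
        fun x => norm_av_sq_two _
      simp only [e5]
      rw [av_comm (fun x h => av (fun h' =>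
          (b h * φ t (x + h) * chi (-ξ h) x) * (starRingEnd ℂ) (b h' * φ t (x + h') * chi (-ξ h') x)))]
      congr 1
      funext h
      rw [av_comm (fun x h' =>
          (b h * φ t (x + h) * chi (-ξ h) x) * (starRingEnd ℂ) (b h' * φ t (x + h') * chi (-ξ h') x))]
      congr 1
      funext h'
      rw [← av_mul_left]
      congr 1
      funext x
      rw [map_mul, map_mul, show -(ξ h - ξ h') = -ξ h - -ξ h' by ring, chi_sub_left]
      ring
    simp only [e4]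
    rw [tv_av_comm H (fun t h => av (fun h' =>
        b h * (starRingEnd ℂ) (b h') *
          av (fun x => φ t (x + h) * (starRingEnd ℂ) (φ t (x + h')) * chi (-(ξ h - ξ h')) x)))]
    congr 1
    funext h
    rw [tv_av_comm H (fun t h' =>
        b h * (starRingEnd ℂ) (b h') *
          av (fun x => φ t (x + h) * (starRingEnd ℂ) (φ t (x + h')) * chi (-(ξ h - ξ h')) x))]
    congr 1
    funext h'
    rw [← tv_mul_left]
  have h2 : tvr H (fun t => avr (fun x => ‖g t x‖ ^ 2)) ≤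
      ‖((tvr H (fun t => avr (fun x => ‖g t x‖ ^ 2)) : ℝ) : ℂ)‖ := by
    rw [Complex.norm_real]
    exact le_abs_self _
  refine le_trans h2 ?_
  rw [e3]
  refine le_trans (norm_av_le _) (avr_mono (fun h => ?_))
  refine le_trans (norm_av_le _) (avr_mono (fun h' => ?_))
  rw [norm_mul, norm_mul, RCLike.norm_conj]

/-- pigeonhole over the values of the frequency -/
lemma pigeon (S : Finset (ZMod M)) (ξ : ZMod M → ZMod M) (η0 : ZMod M) (Mj : Finset (ZMod M))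
    (E : ZMod M → Prop) [DecidablePred E] (hE : ∀ h, E h → h ∈ S ∧ ξ h - η0 ∈ Mj) (p N : ℝ) (hp : 0 < p)
    (hN : (Mj.card : ℝ) ≤ N) (hN0 : 0 < N)
    (h : p ≤ avr (fun h => if E h then (1 : ℝ) else 0)) :
    ∃ m, p / N ≤ avr (fun h => if h ∈ S ∧ ξ h = m then (1 : ℝ) else 0) := by
  classical
  by_contra hcon
  push Not at hcon
  have h1 : avr (fun h => if E h then (1 : ℝ) else 0) ≤
      ∑ m ∈ Mj, avr (fun h => if h ∈ S ∧ ξ h = m + η0 then (1 : ℝ) else 0) := by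
    rw [← avr_sum]
    refine avr_mono (fun h => ?_)
    split_ifs with hh
    · obtain ⟨h2, h3⟩ := hE h hh
      have h4 : (if h ∈ S ∧ ξ h = (ξ h - η0) + η0 then (1 : ℝ) else 0) = 1 := by
        rw [if_pos ⟨h2, by ring⟩]
      refine le_trans h4.ge ?_
      exact single_le_sum (f := fun m => if h ∈ S ∧ ξ h = m + η0 then (1 : ℝ) else 0)
        (fun i _ => by split_ifs <;> norm_num) h3
    · exact sum_nonneg (fun i _ => by split_ifs <;> norm_num)
  have h2 : ∑ m ∈ Mj, avr (fun h => if h ∈ S ∧ ξ h = m + η0 then (1 : ℝ) else 0) ≤ Mj.card • (p / N) :=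
    sum_le_card_nsmul _ _ _ (fun m _ => (hcon (m + η0)).le)
  rw [nsmul_eq_mul] at h2
  rcases Mj.eq_empty_or_nonempty with h3 | h3
  · rw [h3] at h1
    simp only [sum_empty] at h1
    linarith
  have h5 : ∑ m ∈ Mj, avr (fun h => if h ∈ S ∧ ξ h = m + η0 then (1 : ℝ) else 0) < ∑ _m ∈ Mj, (p / N) :=
    sum_lt_sum_of_nonempty h3 (fun m _ => hcon (m + η0))
  rw [sum_const, nsmul_eq_mul] at h5
  have h6 : (Mj.card : ℝ) * (p / N) ≤ p := by
    rw [mul_div_assoc', div_le_iff₀ hN0]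
    nlinarith
  linarith

end LowOneAux

open LowOneAux

theorem low_one (a c d : ℤ) (hc : c ≠ 0) : ∃ C : ℕ, ∀ (R H M : ℕ) [Fact M.Prime], 2 ≤ R → R ^ C ≤ H →
    H ^ 2 ≤ M → M ≤ R * H ^ 2 → ∀ f0 f1 : ZMod M → ℂ, Bd f0 → Bd f1 → 1 / (R : ℝ) ≤ U3 (FF a c d H f0 f1) →
    ∃ η : ZMod M, 1 / (R : ℝ) ^ C ≤ ‖ft (FF a c d H f0 f1) η‖ ^ 2 := by
  obtain ⟨C1, hma⟩ := ma a c d hc
  refine ⟨10 + 10 * C1, ?_⟩
  intro R H M _ hR hRH hHM hMR f0 f1 hf0 hf1 hU
  classical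
  have hR0 : 0 < R := by omega
  have hRr : (2 : ℝ) ≤ R := by exact_mod_cast hR
  have hRp : (0 : ℝ) < R := by linarith
  set F := FF a c d H f0 f1 with hFdef
  have hF : Bd F := FF_Bd a c d H hf0 hf1
  have hex : ∀ h, ∃ ξ, U2 (Dl h F) ≤ ‖ft (Dl h F) ξ‖ ^ 2 := fun h => exists_U2_le (Dl_Bd h hF)
  choose ξ hξ using hex
  set T : ZMod M → ℂ := fun h => ft (Dl h F) (ξ h) with hT
  have hT1 : ∀ h, ‖T h‖ ≤ 1 := fun h => norm_ft_le_one (Dl_Bd h hF) _
  have hTavr : 1 / (R : ℝ) ≤ avr (fun h => ‖T h‖ ^ 2) := le_trans hU (avr_mono hξ)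
  set S0 : Finset (ZMod M) := univ.filter (fun h => 1 / (2 * (R : ℝ)) ≤ ‖T h‖ ^ 2) with hS0
  set b : ZMod M → ℂ := fun h => if h ∈ S0 then (starRingEnd ℂ) (T h) / (‖T h‖ : ℂ) else 0 with hb
  have hb1 : ∀ h, ‖b h‖ ≤ if h ∈ S0 then (1 : ℝ) else 0 := by
    intro h
    rw [hb]
    simp only
    split_ifs with hh
    · rw [norm_div, RCLike.norm_conj, Complex.norm_real, norm_norm]
      exact div_self_le_one _
    · simp
  have hbT : ∀ h, b h * T h = ((if h ∈ S0 then ‖T h‖ else 0 : ℝ) : ℂ) := by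
    intro h
    rw [hb]
    simp only
    split_ifs with hh
    · rcases eq_or_ne (T h) 0 with h0 | h0
      · rw [h0]
        simp
      · have hn : (‖T h‖ : ℂ) ≠ 0 := by
          rw [Complex.ofReal_ne_zero]
          exact norm_ne_zero_iff.mpr h0
        rw [div_mul_eq_mul_div, div_eq_iff hn, mul_comm, Complex.mul_conj, Complex.normSq_eq_norm_sq]
        push_cast
        ring
    · simp
  have h1 : 1 / (2 * (R : ℝ)) ≤ ‖av (fun h => b h * T h)‖ := by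
    simp only [hbT]
    rw [av_ofReal, Complex.norm_real]
    refine le_trans ?_ (le_abs_self _)
    have h2 : avr (fun h => ‖T h‖ ^ 2) ≤ avr (fun h => (if h ∈ S0 then ‖T h‖ else 0) + 1 / (2 * (R : ℝ))) := by
      refine avr_mono (fun h => ?_)
      split_ifs with hh
      · have h3 : ‖T h‖ ^ 2 ≤ ‖T h‖ := by
          have := hT1 h
          have := norm_nonneg (T h)
          nlinarith
        have : 0 < 1 / (2 * (R : ℝ)) := by positivity
        linarith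
      · rw [hS0, mem_filter, not_and, not_le] at hh
        have := hh (mem_univ _)
        linarith
    rw [avr_add, avr_const] at h2
    have h4 : 1 / (R : ℝ) = 1 / (2 * (R : ℝ)) + 1 / (2 * (R : ℝ)) := by
      field_simp
      norm_num
    linarith
  -- Cauchy-Schwarz
  set φ : ℕ → ZMod M → ℂ := fun t x => f0 (x - ((PP c d t : ℤ) : ZMod M)) *
    f1 (x - ((PP c d t : ℤ) : ZMod M) + ((a * (t : ℤ) : ℤ) : ZMod M)) with hφ
  have hφF : ∀ x, (starRingEnd ℂ) (F x) = tv H (fun t => φ t x) := by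
    intro x
    rw [hFdef]
    unfold FF tv
    rw [map_div₀, map_sum, Complex.conj_natCast]
    congr 1
    refine sum_congr rfl (fun t _ => ?_)
    rw [Complex.conj_conj]
  have hcs := cs H F hF b φ hφF ξ
  set W : ZMod M → ZMod M → ℂ := fun h h' =>
    tv H (fun t => av (fun x => φ t (x + h) * (starRingEnd ℂ) (φ t (x + h')) * chi (-(ξ h - ξ h')) x)) with hW
  have hφ1 : ∀ t, Bd (φ t) := fun t x => by
    rw [hφ]
    simp only [norm_mul]
    exact mul_le_one₀ (hf0 _) (norm_nonneg _) (hf1 _)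
  have hW1 : ∀ h h', ‖W h h'‖ ≤ 1 := by
    intro h h'
    refine norm_tv_le_one _ _ (fun t => norm_av_le_one ?_)
    exact Bd_mul (Bd_mul (Bd_shift h (hφ1 t)) (Bd_conj (Bd_shift h' (hφ1 t)))) (fun x => (norm_chi _ x).le)
  have hWeq : ∀ h h', W h h' = tv H (fun t => av (fun x => (f0 (x + h) * (starRingEnd ℂ) (f0 (x + h'))) *
      ((fun y => f1 (y + h) * (starRingEnd ℂ) (f1 (y + h'))) (x + ((a * (t : ℤ) : ℤ) : ZMod M))) *
      chi (-(ξ h - ξ h')) (x + ((PP c d t : ℤ) : ZMod M)))) := by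
    intro h h'
    rw [hW]
    simp only
    congr 1
    funext t
    rw [← av_shift (fun x => φ t (x + h) * (starRingEnd ℂ) (φ t (x + h')) * chi (-(ξ h - ξ h')) x)
      ((PP c d t : ℤ) : ZMod M)]
    congr 1
    funext x
    rw [hφ]
    simp only [map_mul]
    rw [show x + ((PP c d t : ℤ) : ZMod M) + h - ((PP c d t : ℤ) : ZMod M) = x + h by ring,
      show x + ((PP c d t : ℤ) : ZMod M) + h' - ((PP c d t : ℤ) : ZMod M) = x + h' by ring,
      show x + h + ((a * (t : ℤ) : ℤ) : ZMod M) = x + ((a * (t : ℤ) : ℤ) : ZMod M) + h by ring,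
      show x + h' + ((a * (t : ℤ) : ℤ) : ZMod M) = x + ((a * (t : ℤ) : ℤ) : ZMod M) + h' by ring]
    ring
  -- good pairs
  have hR5 : (2 : ℕ) ≤ R ^ 5 := le_trans hR (Nat.le_self_pow (by norm_num) R)
  have hRC1 : (R ^ 5) ^ C1 ≤ H := by
    refine le_trans ?_ hRH
    rw [← pow_mul]
    exact Nat.pow_le_pow_right hR0 (by omega)
  have hgood : ∀ h h', 1 / (R : ℝ) ^ 5 ≤ ‖W h h'‖ → ξ h - ξ h' ∈ Maj M H ((R ^ 5) ^ C1) := by
    intro h h' hh
    have h5 := hma (R ^ 5) H M hR5 hRC1 (fun x => f0 (x + h) * (starRingEnd ℂ) (f0 (x + h')))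
      (fun y => f1 (y + h) * (starRingEnd ℂ) (f1 (y + h')))
      (Bd_mul (Bd_shift h hf0) (Bd_conj (Bd_shift h' hf0)))
      (Bd_mul (Bd_shift h hf1) (Bd_conj (Bd_shift h' hf1))) (-(ξ h - ξ h')) (by
        rw [← hWeq h h']
        push_cast
        exact hh)
    have h6 := neg_mem_Maj h5
    rwa [neg_neg] at h6
  have h7 : (1 / (2 * (R : ℝ))) ^ 2 ≤ avr (fun h => avr (fun h' => ‖b h‖ * ‖b h'‖ * ‖W h h'‖)) :=
    le_trans (pow_le_pow_left₀ (by positivity) h1 2) hcs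
  have h8 : avr (fun h => avr (fun h' => ‖b h‖ * ‖b h'‖ * ‖W h h'‖)) ≤
      avr (fun h => avr (fun h' => (if h ∈ S0 ∧ h' ∈ S0 ∧ 1 / (R : ℝ) ^ 5 ≤ ‖W h h'‖ then (1 : ℝ) else 0) +
        1 / (R : ℝ) ^ 5)) := by
    refine avr_mono (fun h => avr_mono (fun h' => ?_))
    have hbh := hb1 h
    have hbh' := hb1 h'
    have n1 := norm_nonneg (b h)
    have n2 := norm_nonneg (b h')
    have n3 := norm_nonneg (W h h')
    have n4 : (0 : ℝ) < 1 / (R : ℝ) ^ 5 := by positivity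
    by_cases hh : h ∈ S0
    · by_cases hh' : h' ∈ S0
      · rw [if_pos hh] at hbh
        rw [if_pos hh'] at hbh'
        have n5 : ‖b h‖ * ‖b h'‖ ≤ 1 := mul_le_one₀ hbh n2 hbh'
        have n6 : ‖b h‖ * ‖b h'‖ * ‖W h h'‖ ≤ ‖W h h'‖ := mul_le_of_le_one_left n3 n5
        split_ifs with h9
        · have := hW1 h h'
          linarith
        · have : ‖W h h'‖ < 1 / (R : ℝ) ^ 5 := by
            by_contra h10
            exact h9 ⟨hh, hh', not_lt.mp h10⟩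
          linarith
      · rw [if_neg hh'] at hbh'
        have n5 : ‖b h'‖ = 0 := le_antisymm hbh' n2
        rw [n5, mul_zero, zero_mul]
        split_ifs <;> linarith
    · rw [if_neg hh] at hbh
      have n5 : ‖b h‖ = 0 := le_antisymm hbh n1
      rw [n5, zero_mul, zero_mul]
      split_ifs <;> linarith
  have h9 : 1 / (R : ℝ) ^ 5 ≤ avr (fun h' => avr (fun h =>
      (if h ∈ S0 ∧ h' ∈ S0 ∧ 1 / (R : ℝ) ^ 5 ≤ ‖W h h'‖ then (1 : ℝ) else 0))) := by
    rw [← avr_comm (fun h h' => (if h ∈ S0 ∧ h' ∈ S0 ∧ 1 / (R : ℝ) ^ 5 ≤ ‖W h h'‖ then (1 : ℝ) else 0))]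
    have h10 : avr (fun h => avr (fun h' => (if h ∈ S0 ∧ h' ∈ S0 ∧ 1 / (R : ℝ) ^ 5 ≤ ‖W h h'‖ then (1 : ℝ) else 0) +
        1 / (R : ℝ) ^ 5)) = avr (fun h => avr (fun h' =>
          (if h ∈ S0 ∧ h' ∈ S0 ∧ 1 / (R : ℝ) ^ 5 ≤ ‖W h h'‖ then (1 : ℝ) else 0))) + 1 / (R : ℝ) ^ 5 := by
      have h11 : ∀ h, avr (fun h' => (if h ∈ S0 ∧ h' ∈ S0 ∧ 1 / (R : ℝ) ^ 5 ≤ ‖W h h'‖ then (1 : ℝ) else 0) +
          1 / (R : ℝ) ^ 5) = avr (fun h' =>
          (if h ∈ S0 ∧ h' ∈ S0 ∧ 1 / (R : ℝ) ^ 5 ≤ ‖W h h'‖ then (1 : ℝ) else 0)) + 1 / (R : ℝ) ^ 5 := by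
        intro h
        rw [avr_add, avr_const]
      simp only [h11]
      rw [avr_add, avr_const]
    rw [h10] at h8
    have h12 : 2 * (1 / (R : ℝ) ^ 5) ≤ (1 / (2 * (R : ℝ))) ^ 2 := by
      rw [mul_one_div, div_pow, one_pow, div_le_div_iff₀ (by positivity) (by positivity)]
      have : (8 : ℝ) ≤ (R : ℝ) ^ 3 := by
        calc (8 : ℝ) = 2 ^ 3 := by norm_num
          _ ≤ (R : ℝ) ^ 3 := pow_le_pow_left₀ (by norm_num) hRr 3
      nlinarith [pow_pos hRp 2]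
    linarith
  obtain ⟨h', hh'⟩ := exists_avr_le (fun h' => avr (fun h =>
      (if h ∈ S0 ∧ h' ∈ S0 ∧ 1 / (R : ℝ) ^ 5 ≤ ‖W h h'‖ then (1 : ℝ) else 0)))
  have h13 : 1 / (R : ℝ) ^ 5 ≤ avr (fun h =>
      (if h ∈ S0 ∧ h' ∈ S0 ∧ 1 / (R : ℝ) ^ 5 ≤ ‖W h h'‖ then (1 : ℝ) else 0)) := le_trans h9 hh'
  -- the number of major arcs
  have hK1 : 1 ≤ (R ^ 5) ^ C1 := Nat.one_le_pow _ _ (by omega)
  have hKM : (R ^ 5) ^ C1 < M := by
    have k1 : (R ^ 5) ^ C1 < R ^ (10 + 10 * C1) := by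
      rw [← pow_mul]
      exact Nat.pow_lt_pow_right (by omega) (by omega)
    have k2 : H ≤ H ^ 2 := Nat.le_self_pow (by norm_num) H
    omega
  have hcard := card_Maj M H ((R ^ 5) ^ C1) R hK1 (by omega) hKM hMR
  obtain ⟨ξ0, hξ0⟩ := pigeon S0 ξ (ξ h') (Maj M H ((R ^ 5) ^ C1))
    (fun h => h ∈ S0 ∧ h' ∈ S0 ∧ 1 / (R : ℝ) ^ 5 ≤ ‖W h h'‖) (fun h hE => ⟨hE.1, hgood h h' hE.2.2⟩)
    (1 / (R : ℝ) ^ 5) (3 * (((R ^ 5) ^ C1 : ℕ) : ℝ) ^ 2 * R) (by positivity) hcard (by positivity) h13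
  have h14 : avr (fun h => if h ∈ S0 ∧ ξ h = ξ0 then (1 : ℝ) else 0) * (1 / (2 * (R : ℝ))) ≤
      avr (fun h => ‖ft (Dl h F) ξ0‖ ^ 2) := by
    rw [mul_comm, ← avr_mul_left]
    refine avr_mono (fun h => ?_)
    split_ifs with hh
    · rw [mul_one]
      have h15 := hh.1
      rw [hS0, mem_filter] at h15
      have h16 := h15.2
      rw [hT] at h16
      simp only at h16
      rw [hh.2] at h16
      exact h16
    · rw [mul_zero]
      positivity
  have h17 := avr_ft_Dl_le F ξ0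
  obtain ⟨η, hη⟩ := exists_U2_le hF
  refine ⟨η, le_trans ?_ (le_trans h17 hη)⟩
  refine le_trans ?_ h14
  have h18 : 1 / (R : ℝ) ^ 5 / (3 * (((R ^ 5) ^ C1 : ℕ) : ℝ) ^ 2 * R) * (1 / (2 * (R : ℝ))) ≤
      avr (fun h => if h ∈ S0 ∧ ξ h = ξ0 then (1 : ℝ) else 0) * (1 / (2 * (R : ℝ))) :=
    mul_le_mul_of_nonneg_right hξ0 (by positivity)
  refine le_trans ?_ h18
  have h19 : 1 / (R : ℝ) ^ 5 / (3 * (((R ^ 5) ^ C1 : ℕ) : ℝ) ^ 2 * R) * (1 / (2 * (R : ℝ))) =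
      1 / (6 * (R : ℝ) ^ (7 + 10 * C1)) := by
    have k3 : (((R ^ 5) ^ C1 : ℕ) : ℝ) ^ 2 = (R : ℝ) ^ (10 * C1) := by
      push_cast
      rw [← pow_mul, ← pow_mul]
      congr 1
      ring
    rw [k3, div_div, div_mul_div_comm, one_mul]
    congr 1
    rw [pow_add]
    ring
  rw [h19]
  apply one_div_le_one_div_of_le (by positivity)
  have k4 : (6 : ℝ) ≤ (R : ℝ) ^ 3 := by
    calc (6 : ℝ) ≤ 2 ^ 3 := by norm_num
      _ ≤ (R : ℝ) ^ 3 := pow_le_pow_left₀ (by norm_num) hRr 3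
  calc 6 * (R : ℝ) ^ (7 + 10 * C1) ≤ (R : ℝ) ^ 3 * (R : ℝ) ^ (7 + 10 * C1) :=
        mul_le_mul_of_nonneg_right k4 (by positivity)
    _ = (R : ℝ) ^ (10 + 10 * C1) := by
        rw [← pow_add]
        congr 1
        ring

end Pool.Agent.NLT
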