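import Pool.Agent.Lib.NLT.Pet
import Pool.Agent.Lib.NLT.Conc
import Pool.Agent.Lib.NLT.LowB
import Pool.Agent.Lib.NLT.LowC
import Pool.Agent.Lib.NLT.LowOne
import Pool.Agent.Lib.NLT.ConcOne

/-!
# Module InvOne: inverse theorem, first part

PROOF. `F = FF a c d H f0 f1`: `TT a c d H f0 f1 g = av_x g x * conj (F x)` (shift `x` by `P t`). So `‖TT f0 f1 f2‖^2 ≤ avr ‖F‖^2
= ‖TT f0 f1 F‖` (Cauchy-Schwarz, `f2` bounded), and `‖TT f0 f1 F‖ ≥ 1 / R^2`. `pet` for `(f0, f1, F)` with `A = H / R^80` (so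
`10000 A / H ≤ R^-64 / 2` and `H ≤ R^81 A`): `BX (2 c) A F ≥ R^-64 / 2 ≥ R^-65`. `conc` with `R^81` (`κ = 2 c ≠ 0` in `ZMod M` since
`M ≥ H^2 > 2 |c|`): `U4 F ≥ R^-C`. `low_split_two`, `split_le_U3`: `U3 F ≥ R^-C`. `low_one`: `‖ft F η‖ ≥ R^-C`. `conc_f1`. All
constants depend only on `a, c, d`; every theorem is applied with a power of `R` in place of `R`.
-/

set_option autoImplicit false

open Finset

namespace Pool.Agent.NLT

open Pool.Agent.HLT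

theorem TT_dual {M : ℕ} [NeZero M] (a c d : ℤ) (H : ℕ) (f0 f1 g : ZMod M → ℂ) :
    TT a c d H f0 f1 g = av (fun x => g x * (starRingEnd ℂ) (FF a c d H f0 f1 x)) := by
  have h1 : ∀ x, g x * (starRingEnd ℂ) (FF a c d H f0 f1 x) =
      tv H (fun t => g x * (f0 (x - ((PP c d t : ℤ) : ZMod M)) *
        f1 (x - ((PP c d t : ℤ) : ZMod M) + ((a * (t : ℤ) : ℤ) : ZMod M)))) := by
    intro x
    rw [tv_mul_left]
    congr 1
    unfold FF tv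
    rw [map_div₀, map_sum, Complex.conj_natCast]
    simp only [Complex.conj_conj]
  simp only [h1]
  rw [← tv_av_comm]
  unfold TT
  congr 1
  funext t
  rw [← av_shift_sub _ ((PP c d t : ℤ) : ZMod M)]
  congr 1
  funext x
  simp only [sub_add_cancel]
  ring

namespace InvOneAux

lemma TT_FF {M : ℕ} [NeZero M] (a c d : ℤ) (H : ℕ) (f0 f1 : ZMod M → ℂ) :
    TT a c d H f0 f1 (FF a c d H f0 f1) = ((avr (fun x => ‖FF a c d H f0 f1 x‖ ^ 2) : ℝ) : ℂ) := by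
  rw [TT_dual, ← av_ofReal]
  congr 1
  funext x
  rw [Complex.mul_conj, Complex.normSq_eq_norm_sq]

lemma TT_sq_le {M : ℕ} [NeZero M] (a c d : ℤ) (H : ℕ) (f0 f1 f2 : ZMod M → ℂ) (h2 : Bd f2) :
    ‖TT a c d H f0 f1 f2‖ ^ 2 ≤ ‖TT a c d H f0 f1 (FF a c d H f0 f1)‖ := by
  rw [TT_FF, TT_dual, Complex.norm_real, Real.norm_of_nonneg (avr_nonneg (fun x => by positivity))]
  refine (norm_av_mul_sq_le f2 _ h2).trans (le_of_eq ?_)
  congr 1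
  funext x
  rw [RCLike.norm_conj]

lemma kappa_ne {M : ℕ} (c : ℤ) (hc : c ≠ 0) (hM : 2 * c.natAbs < M) : ((2 * c : ℤ) : ZMod M) ≠ 0 := by
  intro h
  rw [ZMod.intCast_zmod_eq_zero_iff_dvd] at h
  have h1 : M ∣ (2 * c).natAbs := Int.natCast_dvd.1 h
  have h2 : (2 * c).natAbs = 2 * c.natAbs := by rw [Int.natAbs_mul]; rfl
  rw [h2] at h1
  have h3 := Nat.le_of_dvd (by have := Int.natAbs_pos.2 hc; omega) h1
  omega

lemma pow_inv_mono {R : ℕ} (hR : 2 ≤ R) {m n : ℕ} (h : m ≤ n) : 1 / (R : ℝ) ^ n ≤ 1 / (R : ℝ) ^ m := by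
  have hR' : (1 : ℝ) ≤ R := by exact_mod_cast (by omega : 1 ≤ R)
  exact one_div_le_one_div_of_le (by positivity) (pow_le_pow_right₀ hR' h)

lemma A_facts (R H : ℕ) (hR : 2 ≤ R) (hH : R ^ 80 ≤ H) :
    1 ≤ H / R ^ 80 ∧ H / R ^ 80 ≤ H ∧ H ≤ R ^ 81 * (H / R ^ 80) ∧
      10000 * ((H / R ^ 80 : ℕ) : ℝ) / H ≤ 1 / (2 * (R : ℝ) ^ 64) := by
  have hp : 0 < R ^ 80 := by positivity
  have hA : 1 ≤ H / R ^ 80 := (Nat.one_le_div_iff hp).2 hH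
  have hH0 : 0 < H := lt_of_lt_of_le hp hH
  refine ⟨hA, Nat.div_le_self _ _, ?_, ?_⟩
  · have h1 : H < R ^ 80 * (H / R ^ 80 + 1) := Nat.lt_mul_div_succ H hp
    have h2 : R ^ 80 * (H / R ^ 80 + 1) ≤ R ^ 81 * (H / R ^ 80) := by
      rw [pow_succ R 80, mul_assoc]
      refine Nat.mul_le_mul_left _ ?_
      have : 2 * (H / R ^ 80) ≤ R * (H / R ^ 80) := Nat.mul_le_mul_right _ hR
      omega
    omega
  · have hR' : (2 : ℝ) ≤ R := by exact_mod_cast hR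
    have hH' : (0 : ℝ) < H := by exact_mod_cast hH0
    have h1 : ((H / R ^ 80 : ℕ) : ℝ) ≤ (H : ℝ) / (R : ℝ) ^ 80 := by
      have := @Nat.cast_div_le ℝ _ _ _ H (R ^ 80)
      simpa using this
    have h3 : (R : ℝ) ^ 80 = R ^ 64 * R ^ 16 := by ring
    have h4 : (65536 : ℝ) ≤ (R : ℝ) ^ 16 := by
      calc (65536 : ℝ) = 2 ^ 16 := by norm_num
        _ ≤ (R : ℝ) ^ 16 := pow_le_pow_left₀ (by norm_num) hR' 16
    have h64 : (0 : ℝ) < (R : ℝ) ^ 64 := by positivity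
    rw [div_le_div_iff₀ hH' (by positivity), one_mul]
    have h5 : ((H / R ^ 80 : ℕ) : ℝ) * R ^ 80 ≤ H := by
      rw [le_div_iff₀ (by positivity)] at h1
      exact h1
    rw [h3] at h5
    have h6 : (0 : ℝ) ≤ ((H / R ^ 80 : ℕ) : ℝ) := Nat.cast_nonneg _
    nlinarith [mul_nonneg (mul_nonneg h6 h64.le) (sub_nonneg.2 h4)]

end InvOneAux

open InvOneAux

theorem inv_one (a c d : ℤ) (ha : a ≠ 0) (hc : c ≠ 0) : ∃ C : ℕ, ∀ (R H M : ℕ) [Fact M.Prime], 2 ≤ R →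
    R ^ C ≤ H → H ^ 2 ≤ M → M ≤ R * H ^ 2 → ∀ f0 f1 f2 : ZMod M → ℂ, Bd f0 → Bd f1 → Bd f2 →
    1 / (R : ℝ) ≤ ‖TT a c d H f0 f1 f2‖ →
    ∃ q : ℕ, 1 ≤ q ∧ q ≤ R ^ C ∧ ∀ J : ℕ, 1 ≤ J → J * R ^ C ≤ H →
      1 / (R : ℝ) ^ C ≤ avr (fun x => ‖tv J (fun j => f1 (x + ((q * j : ℕ) : ZMod M)))‖) := by
  obtain ⟨C1, hC1⟩ := conc
  obtain ⟨C2, hC2⟩ := low_split_two a c d hc
  obtain ⟨C3, hC3⟩ := low_one a c d hc
  obtain ⟨C4, hC4⟩ := conc_f1 a c d ha hc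
  set E2 := 81 * C1 + 1 with hE2
  set E3 := E2 * (2 * C2 + 1) with hE3
  set E4 := E3 * (C3 + 1) with hE4
  set C := 80 + 2 * c.natAbs + 81 * C1 + E2 * C2 + E3 * C3 + E4 * C4 with hC
  refine ⟨C, ?_⟩
  intro R H M _ hR hRH hHM hMR f0 f1 f2 h0 h1 h2 hT
  have hR1 : 1 ≤ R := by omega
  have hRr : (1 : ℝ) ≤ R := by exact_mod_cast hR1
  have hRr2 : (2 : ℝ) ≤ R := by exact_mod_cast hR
  have hle : ∀ {n : ℕ}, n ≤ C → R ^ n ≤ H := fun {n} hn => (Nat.pow_le_pow_right hR1 hn).trans hRH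
  have hMH : ∀ {n : ℕ}, 1 ≤ n → M ≤ R ^ n * H ^ 2 := fun {n} hn =>
    hMR.trans (Nat.mul_le_mul_right _ (by simpa using Nat.pow_le_pow_right hR1 hn))
  have h2R : ∀ {n : ℕ}, 1 ≤ n → 2 ≤ R ^ n := fun {n} hn =>
    hR.trans (by simpa using Nat.pow_le_pow_right hR1 hn)
  have hE21 : 1 ≤ E2 := by omega
  have hE31 : 1 ≤ E3 := by rw [hE3]; exact Nat.one_le_iff_ne_zero.2 (Nat.mul_ne_zero (by omega) (by omega))
  have hE41 : 1 ≤ E4 := by rw [hE4]; exact Nat.one_le_iff_ne_zero.2 (Nat.mul_ne_zero (by omega) (by omega))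
  set F := FF a c d H f0 f1 with hF
  have hFB : Bd F := FF_Bd a c d H h0 h1
  -- step 1
  have hT1 : 1 / (R : ℝ) ^ 2 ≤ ‖TT a c d H f0 f1 F‖ := by
    refine le_trans ?_ (TT_sq_le a c d H f0 f1 f2 h2)
    calc 1 / (R : ℝ) ^ 2 = (1 / (R : ℝ)) ^ 2 := by rw [div_pow, one_pow]
      _ ≤ _ := pow_le_pow_left₀ (by positivity) hT 2
  -- step 2
  obtain ⟨hA1, hAH, hHA, hAe⟩ := A_facts R H hR (hle (by omega))
  set A := H / R ^ 80 with hA
  have hBX : 1 / (R : ℝ) ^ 65 ≤ BX ((2 * c : ℤ) : ZMod M) A F := by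
    have hp := pet a c d H A M hA1 hAH f0 f1 F h0 h1 hFB
    have hq : 1 / (R : ℝ) ^ 64 ≤ ‖TT a c d H f0 f1 F‖ ^ 32 := by
      calc 1 / (R : ℝ) ^ 64 = (1 / (R : ℝ) ^ 2) ^ 32 := by rw [div_pow, one_pow, ← pow_mul]
        _ ≤ _ := pow_le_pow_left₀ (by positivity) hT1 32
    have hr : 1 / (R : ℝ) ^ 65 ≤ 1 / (2 * (R : ℝ) ^ 64) := by
      refine one_div_le_one_div_of_le (by positivity) ?_
      rw [pow_succ (R : ℝ) 64, mul_comm]
      exact mul_le_mul_of_nonneg_left hRr2 (by positivity)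
    have hs : 1 / (R : ℝ) ^ 64 = 1 / (2 * (R : ℝ) ^ 64) + 1 / (2 * (R : ℝ) ^ 64) := by
      field_simp
      norm_num
    linarith
  -- step 3
  have hκ : ((2 * c : ℤ) : ZMod M) ≠ 0 := by
    refine kappa_ne c hc ?_
    have e1 : 2 * c.natAbs < 2 ^ (2 * c.natAbs) := Nat.lt_two_pow_self
    have e2 : 2 ^ (2 * c.natAbs) ≤ R ^ (2 * c.natAbs) := Nat.pow_le_pow_left hR _
    have e3 : R ^ (2 * c.natAbs) ≤ H := hle (by omega)
    have e4 : H ≤ H ^ 2 := by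
      rcases Nat.eq_zero_or_pos H with h | h
      · simp [h]
      · calc H = H ^ 1 := (pow_one H).symm
          _ ≤ H ^ 2 := Nat.pow_le_pow_right h (by norm_num)
    omega
  have hU4 : 1 / (R : ℝ) ^ (81 * C1) ≤ U4 F := by
    have := hC1 (R ^ 81) H M A (h2R (by norm_num)) (by rw [← pow_mul]; exact hle (by omega)) hAH hHA hHM
      (hMH (by norm_num)) _ hκ F hFB (by
        rw [Nat.cast_pow]
        exact le_trans (pow_inv_mono hR (by norm_num)) hBX)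
    rw [Nat.cast_pow, ← pow_mul] at this
    exact this
  -- step 4
  have hU3 : 1 / (R : ℝ) ^ E3 ≤ U3 F := by
    obtain ⟨ψ1, ψ2, hψ⟩ := hC2 (R ^ E2) H M (h2R hE21) (by rw [← pow_mul]; exact hle (by omega)) hHM
      (hMH hE21) f0 f1 h0 h1 (by
        rw [Nat.cast_pow]
        exact le_trans (pow_inv_mono hR (by omega)) hU4)
    have hs := split_le_U3 F hFB ψ1 ψ2
    refine le_trans ?_ hs
    rw [Nat.cast_pow, ← pow_mul] at hψ
    calc 1 / (R : ℝ) ^ E3 ≤ 1 / (R : ℝ) ^ (E2 * C2 * 2) := pow_inv_mono hR (by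
            rw [hE3]
            nlinarith)
      _ = (1 / (R : ℝ) ^ (E2 * C2)) ^ 2 := by rw [div_pow, one_pow, ← pow_mul]
      _ ≤ _ := pow_le_pow_left₀ (by positivity) hψ 2
  -- step 6
  obtain ⟨η, hη⟩ := hC3 (R ^ E3) H M (h2R hE31) (by rw [← pow_mul]; exact hle (by omega)) hHM (hMH hE31)
    f0 f1 h0 h1 (by rw [Nat.cast_pow]; exact hU3)
  have hη1 : 1 / (R : ℝ) ^ E4 ≤ ‖ft F η‖ := by
    have e1 : ‖ft F η‖ ≤ 1 := norm_ft_le_one hFB η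
    have e2 : ‖ft F η‖ ^ 2 ≤ ‖ft F η‖ := by nlinarith [norm_nonneg (ft F η)]
    refine le_trans ?_ (hη.trans e2)
    rw [Nat.cast_pow, ← pow_mul]
    exact pow_inv_mono hR (by rw [hE4]; nlinarith)
  -- step 7
  obtain ⟨q, hq1, hq2, hq3⟩ := hC4 (R ^ E4) H M (h2R hE41) (by rw [← pow_mul]; exact hle (by omega))
    f0 f1 h0 h1 η (by rw [Nat.cast_pow]; exact hη1)
  rw [← pow_mul] at hq2
  refine ⟨q, hq1, hq2.trans (Nat.pow_le_pow_right hR1 (by omega)), ?_⟩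
  intro J hJ1 hJ
  have hh := hq3 J hJ1 (by
    rw [← pow_mul]
    exact (Nat.mul_le_mul_left J (Nat.pow_le_pow_right hR1 (by omega))).trans hJ)
  refine le_trans ?_ hh
  rw [Nat.cast_pow, ← pow_mul]
  exact pow_inv_mono hR (by omega)

end Pool.Agent.NLT
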