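import Pool.Agent.Lib.NLT.BasicC
import Pool.Agent.Lib.NLT.MajLem

/-!
# Module Weyl: a quadratic Weyl sum over short progressions

PROOF. Expand the square and average over `t` first:
`w = (1 / I^2) ∑_{i, i' < I} tv_t chi ξ (P (t + q i) - P (t + q i'))`, and `P (t + q i) - P (t + q i') = 2 c q (i - i') t + const(i, i')`, so
the norm of the average over `t` is `≤ min(1, 1 / (2 H nrm (2 c q (i - i') ξ / M)))` (`chi_tv`). Let `K = 4 R` and
`S = {ι : |ι| < I, nrm (ι (2 c q ξ / M)) ≤ K / I}`; for `i - i' ∉ S` the norm is `≤ I / (2 H K) ≤ 1 / (2 K) = 1 / (8 R)`; each difference `ι`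
occurs `≤ I` times: `1 / R ≤ w ≤ S.card / I + 1 / (8 R)`, so `S.card ≥ I / (2 R) ≥ I / K`. `maj_of_count` with `B = I`, `m = 2 c q`,
`K' = R^C`: `28 K^2 = 448 R^2 ≤ I` (`I ≥ H / R ≥ R^(C-1)`), `5 K |m| = 40 R |c| q ≤ 40 |c| R^2 ≤ R^C`,
`100 K^3 H^2 = 6400 R^3 H^2 ≤ R^C I^2` (`H ≤ R I`).
-/

set_option autoImplicit false

open Finset

namespace Pool.Agent.NLT

open Pool.Agent.HLT

namespace WeylAux

lemma tv_ofReal (H : ℕ) (f : ℕ → ℝ) : tv H (fun t => ((f t : ℝ) : ℂ)) = ((tvr H f : ℝ) : ℂ) := by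
  unfold tv tvr
  push_cast
  rfl

lemma tvr_add (H : ℕ) (f g : ℕ → ℝ) : tvr H (fun t => f t + g t) = tvr H f + tvr H g := by
  unfold tvr
  rw [sum_add_distrib, add_div]

/-- the phase of a pair -/
lemma pair_phase {M : ℕ} [NeZero M] (c d : ℤ) (q : ℕ) (ξ : ZMod M) (t i j : ℕ) :
    chi ξ ((PP c d (t + q * i) : ℤ) : ZMod M) * (starRingEnd ℂ) (chi ξ ((PP c d (t + q * j) : ℤ) : ZMod M)) =
      chi ξ (((2 * c * q * ((i : ℤ) - j)) * (t : ℤ) +
        (c * q ^ 2 * ((i : ℤ) ^ 2 - (j : ℤ) ^ 2) + d * q * ((i : ℤ) - j)) : ℤ) : ZMod M) := by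
  rw [← chi_sub_right, ← Int.cast_sub]
  congr 2
  unfold PP
  push_cast
  ring

/-- expansion of the mean square -/
lemma expand {M : ℕ} [NeZero M] (c d : ℤ) (H I q : ℕ) (ξ : ZMod M) :
    tvr H (fun t => ‖tv I (fun i => chi ξ ((PP c d (t + q * i) : ℤ) : ZMod M))‖ ^ 2) ≤
      tvr I (fun i => tvr I (fun j => ‖tv H (fun t => chi ξ (((2 * c * q * ((i : ℤ) - j)) * (t : ℤ) +
        (c * q ^ 2 * ((i : ℤ) ^ 2 - (j : ℤ) ^ 2) + d * q * ((i : ℤ) - j)) : ℤ) : ZMod M))‖)) := by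
  have h1 : ((tvr H (fun t => ‖tv I (fun i => chi ξ ((PP c d (t + q * i) : ℤ) : ZMod M))‖ ^ 2) : ℝ) : ℂ) =
      tv I (fun i => tv I (fun j => tv H (fun t => chi ξ (((2 * c * q * ((i : ℤ) - j)) * (t : ℤ) +
        (c * q ^ 2 * ((i : ℤ) ^ 2 - (j : ℤ) ^ 2) + d * q * ((i : ℤ) - j)) : ℤ) : ZMod M)))) := by
    rw [← tv_ofReal]
    have h2 : ∀ t, ((‖tv I (fun i => chi ξ ((PP c d (t + q * i) : ℤ) : ZMod M))‖ ^ 2 : ℝ) : ℂ) =
        tv I (fun i => tv I (fun j => chi ξ (((2 * c * q * ((i : ℤ) - j)) * (t : ℤ) +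
        (c * q ^ 2 * ((i : ℤ) ^ 2 - (j : ℤ) ^ 2) + d * q * ((i : ℤ) - j)) : ℤ) : ZMod M))) := by
      intro t
      rw [norm_tv_sq]
      simp only [pair_phase]
    simp only [h2]
    rw [tv_comm]
    congr 1
    funext i
    rw [tv_comm]
  have h3 : 0 ≤ tvr H (fun t => ‖tv I (fun i => chi ξ ((PP c d (t + q * i) : ℤ) : ZMod M))‖ ^ 2) :=
    tvr_nonneg H (fun t => by positivity)
  have h4 := congrArg norm h1
  rw [Complex.norm_real, Real.norm_of_nonneg h3] at h4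
  rw [h4]
  refine (norm_tv_le _ _).trans (tvr_mono I (fun i _ => ?_))
  exact norm_tv_le _ _

/-- counting the pairs with difference in `S` -/
lemma count (I : ℕ) (S : Finset ℤ) :
    ∑ i ∈ range I, ∑ j ∈ range I, (if (i : ℤ) - j ∈ S then (1 : ℝ) else 0) ≤ I * S.card := by
  have h1 : ∀ i ∈ range I, ∑ j ∈ range I, (if (i : ℤ) - j ∈ S then (1 : ℝ) else 0) ≤ S.card := by
    intro i _
    rw [← sum_filter, sum_const, nsmul_eq_mul, mul_one]
    have : ((range I).filter (fun j : ℕ => (i : ℤ) - j ∈ S)).card ≤ S.card := by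
      refine card_le_card_of_injOn (fun j : ℕ => (i : ℤ) - j) ?_ ?_
      · intro j hj
        exact (mem_filter.1 hj).2
      · intro j _ j' _ h
        simp only at h
        omega
    exact_mod_cast this
  refine (sum_le_sum h1).trans ?_
  rw [sum_const, card_range, nsmul_eq_mul]

end WeylAux

open WeylAux

theorem weyl (c d : ℤ) (hc : c ≠ 0) : ∃ C : ℕ, ∀ (R H M q I : ℕ) [NeZero M], 2 ≤ R → R ^ C ≤ H → 1 ≤ q → q ≤ R →
    H ≤ R * I → I ≤ H → ∀ ξ : ZMod M,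
    1 / (R : ℝ) ≤ tvr H (fun t => ‖tv I (fun i => chi ξ ((PP c d (t + q * i) : ℤ) : ZMod M))‖ ^ 2) →
    ξ ∈ Maj M H (R ^ C) := by
  classical
  refine ⟨20 + c.natAbs, ?_⟩
  intro R H M q I _ hR hRH hq hqR hHI hIH ξ hw
  have hR1 : 1 ≤ R := by omega
  have hI : R ^ 11 * R ^ (8 + c.natAbs) ≤ I := by
    have h : R * (R ^ 11 * R ^ (8 + c.natAbs)) ≤ R * I := by
      calc R * (R ^ 11 * R ^ (8 + c.natAbs)) = R ^ (20 + c.natAbs) := by
            rw [← pow_add, ← pow_succ']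
            congr 1
            omega
        _ ≤ R * I := hRH.trans hHI
    exact Nat.le_of_mul_le_mul_left h (by omega)
  have hI11 : R ^ 11 ≤ I := by
    refine le_trans ?_ hI
    exact Nat.le_mul_of_pos_right _ (by positivity)
  have hI1 : 1 ≤ I := (Nat.one_le_pow _ _ (by omega)).trans hI11
  have hH1 : 1 ≤ H := hI1.trans hIH
  have hRr : (2 : ℝ) ≤ R := by exact_mod_cast hR
  have hIr : (1 : ℝ) ≤ I := by exact_mod_cast hI1
  have hHr : (1 : ℝ) ≤ H := by exact_mod_cast hH1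
  have hIHr : (I : ℝ) ≤ H := by exact_mod_cast hIH
  set m0 : ℤ := 2 * c * q with hm0
  set θ : ℝ := (m0 : ℝ) * ((ξ.val : ℝ) / M) with hθ
  set S := (Icc (-(I : ℤ)) I).filter (fun g : ℤ => nrm ((g : ℝ) * θ) ≤ ((4 * R : ℕ) : ℝ) / I) with hS
  refine maj_of_count M H I (4 * R) (R ^ (20 + c.natAbs)) ξ m0 ?_ (by omega) hH1 ?_ ?_ ?_ S ?_ ?_
  · rw [hm0]
    have : (q : ℤ) ≠ 0 := by exact_mod_cast (by omega : q ≠ 0)
    exact mul_ne_zero (mul_ne_zero two_ne_zero hc) this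
  · -- 28 K^2 ≤ I
    refine le_trans ?_ hI11
    have h9 : 2 ^ 9 ≤ R ^ 9 := Nat.pow_le_pow_left hR 9
    have h10 : R ^ 11 = R ^ 9 * R ^ 2 := by ring
    rw [h10]
    have h11 : 2 ^ 9 * R ^ 2 ≤ R ^ 9 * R ^ 2 := Nat.mul_le_mul_right _ h9
    have h12 : 28 * (4 * R) ^ 2 = 448 * R ^ 2 := by ring
    rw [h12]
    omega
  · -- 5 K |m0| ≤ R^C
    have h1 : m0.natAbs = 2 * c.natAbs * q := by
      rw [hm0, Int.natAbs_mul, Int.natAbs_mul, Int.natAbs_natCast]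
      rfl
    rw [h1]
    have h2 : c.natAbs ≤ R ^ c.natAbs :=
      (Nat.lt_two_pow_self (n := c.natAbs)).le.trans (Nat.pow_le_pow_left hR _)
    have h3 : 40 ≤ R ^ 18 := le_trans (by norm_num) (Nat.pow_le_pow_left hR 18)
    calc 5 * (4 * R) * (2 * c.natAbs * q) = 40 * (c.natAbs * (R * q)) := by ring
      _ ≤ R ^ 18 * (R ^ c.natAbs * (R * R)) :=
          Nat.mul_le_mul h3 (Nat.mul_le_mul h2 (Nat.mul_le_mul_left R hqR))
      _ = R ^ (20 + c.natAbs) := by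
          rw [show 20 + c.natAbs = 18 + c.natAbs + 2 by ring, pow_add, pow_add]
          ring
  · -- 100 K^3 H^2 ≤ R^C I^2
    have h1 : H ^ 2 ≤ R ^ 2 * I ^ 2 := by
      rw [← mul_pow]
      exact Nat.pow_le_pow_left hHI 2
    have h2 : 6400 ≤ R ^ 13 := le_trans (by norm_num) (Nat.pow_le_pow_left hR 13)
    calc 100 * (4 * R) ^ 3 * H ^ 2 = 6400 * R ^ 3 * H ^ 2 := by ring
      _ ≤ R ^ 13 * R ^ 3 * (R ^ 2 * I ^ 2) :=
          Nat.mul_le_mul (Nat.mul_le_mul_right _ h2) h1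
      _ = R ^ 18 * I ^ 2 := by ring
      _ ≤ R ^ (20 + c.natAbs) * I ^ 2 :=
          Nat.mul_le_mul_right _ (Nat.pow_le_pow_right hR1 (by omega))
  · intro g hg
    rw [hS, mem_filter, mem_Icc] at hg
    exact ⟨abs_le.2 hg.1, hg.2⟩
  · -- the number of differences
    have hb : ∀ i < I, ∀ j < I, ‖tv H (fun t => chi ξ (((2 * c * q * ((i : ℤ) - j)) * (t : ℤ) +
        (c * q ^ 2 * ((i : ℤ) ^ 2 - (j : ℤ) ^ 2) + d * q * ((i : ℤ) - j)) : ℤ) : ZMod M))‖ ≤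
        (if (i : ℤ) - j ∈ S then (1 : ℝ) else 0) + 1 / (8 * R) := by
      intro i hi j hj
      set T := ‖tv H (fun t => chi ξ (((2 * c * q * ((i : ℤ) - j)) * (t : ℤ) +
        (c * q ^ 2 * ((i : ℤ) ^ 2 - (j : ℤ) ^ 2) + d * q * ((i : ℤ) - j)) : ℤ) : ZMod M))‖ with hT
      have hT1 : T ≤ 1 := norm_tv_le_one H _ (fun t => (norm_chi _ _).le)
      have hT0 : 0 ≤ T := norm_nonneg _
      have hR8 : (0 : ℝ) < 1 / (8 * R) := by positivity
      split_ifs with hS'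
      · linarith
      · have h1 := chi_tv H ξ (2 * c * q * ((i : ℤ) - j))
          (c * q ^ 2 * ((i : ℤ) ^ 2 - (j : ℤ) ^ 2) + d * q * ((i : ℤ) - j))
        rw [← hT] at h1
        have e : ((2 * c * q * ((i : ℤ) - j) : ℤ) : ℝ) * ((ξ.val : ℝ) / M) =
            (((i : ℤ) - j : ℤ) : ℝ) * θ := by
          rw [hθ, hm0]
          push_cast
          ring
        rw [e] at h1
        have h2 : ((4 * R : ℕ) : ℝ) / I < nrm ((((i : ℤ) - j : ℤ) : ℝ) * θ) := by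
          by_contra hcon
          rw [not_lt] at hcon
          apply hS'
          rw [hS, mem_filter, mem_Icc]
          exact ⟨⟨by omega, by omega⟩, hcon⟩
        rw [zero_add, le_div_iff₀ (by positivity)]
        rw [show ((4 * R : ℕ) : ℝ) = 4 * (R : ℝ) by push_cast; ring,
          div_lt_iff₀ (by linarith)] at h2
        have h3 : 4 * (R : ℝ) ≤ nrm ((((i : ℤ) - j : ℤ) : ℝ) * θ) * H := by
          refine h2.le.trans (mul_le_mul_of_nonneg_left hIHr (nrm_nonneg _))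
        have h4 : T * (8 * R) ≤ T * (2 * (nrm ((((i : ℤ) - j : ℤ) : ℝ) * θ) * H)) :=
          mul_le_mul_of_nonneg_left (by linarith) hT0
        calc T * (8 * R) ≤ T * (2 * (nrm ((((i : ℤ) - j : ℤ) : ℝ) * θ) * H)) := h4
          _ = 2 * H * nrm ((((i : ℤ) - j : ℤ) : ℝ) * θ) * T := by ring
          _ ≤ 1 := h1
    have h1 : 1 / (R : ℝ) ≤ (∑ i ∈ range I, ∑ j ∈ range I,
        ((if (i : ℤ) - j ∈ S then (1 : ℝ) else 0) + 1 / (8 * R))) / I ^ 2 := by
      refine (hw.trans (expand c d H I q ξ)).trans ?_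
      have h2 : tvr I (fun i => tvr I (fun j => ‖tv H (fun t => chi ξ (((2 * c * q * ((i : ℤ) - j)) * (t : ℤ) +
        (c * q ^ 2 * ((i : ℤ) ^ 2 - (j : ℤ) ^ 2) + d * q * ((i : ℤ) - j)) : ℤ) : ZMod M))‖)) ≤
          tvr I (fun i => tvr I (fun j : ℕ => (if (i : ℤ) - j ∈ S then (1 : ℝ) else 0) + 1 / (8 * R))) :=
        tvr_mono I (fun i hi => tvr_mono I (fun j hj => hb i hi j hj))
      refine h2.trans (le_of_eq ?_)
      unfold tvr
      rw [← sum_div, div_div, ← pow_two]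
    have h2 : (∑ i ∈ range I, ∑ j ∈ range I,
        ((if (i : ℤ) - j ∈ S then (1 : ℝ) else 0) + 1 / (8 * R))) ≤ I * S.card + I ^ 2 * (1 / (8 * R)) := by
      simp only [sum_add_distrib]
      refine add_le_add (count I S) (le_of_eq ?_)
      simp only [sum_const, card_range, nsmul_eq_mul]
      ring
    have hIpos : (0 : ℝ) < I := by linarith
    have hRpos : (0 : ℝ) < R := by linarith
    have h3 : 1 / (R : ℝ) ≤ (I * S.card + I ^ 2 * (1 / (8 * R))) / I ^ 2 :=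
      h1.trans (div_le_div_of_nonneg_right h2 (by positivity))
    have h4 : ((I : ℝ) * S.card + I ^ 2 * (1 / (8 * R))) / I ^ 2 = S.card / I + 1 / (8 * R) := by
      field_simp
    rw [h4] at h3
    have h5 : 1 / (R : ℝ) = 8 * (1 / (8 * R)) := by field_simp
    have h6 : 7 * (1 / (8 * (R : ℝ))) ≤ S.card / I := by linarith
    rw [le_div_iff₀ hIpos] at h6
    push_cast
    have h7 : (I : ℝ) / (4 * R) = 2 * (1 / (8 * R)) * I := by field_simp; norm_num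
    rw [h7]
    have h8 : 0 ≤ 1 / (8 * (R : ℝ)) * I := by positivity
    linarith

end Pool.Agent.NLT
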