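import Pool.Agent.Lib.NLT.InvOne
import Pool.Agent.Lib.NLT.Weyl

/-!
# Module InvTwo: inverse theorem, second part

PROOF. `F1 z = conj (tv_t f0 (z - a t) * f2 (z - a t + P t))`: `TT f0 g f2 = av_z g z * conj (F1 z)` (shift `x` by `- a t`), so
`‖TT f0 F1 f2‖ = avr ‖F1‖^2 ≥ ‖TT f0 f1 f2‖^2 ≥ 1 / R^2`; `F1` is bounded by 1. `inv_one` for `(f0, F1, f2)` with `R^2`: `q ≤ R^C1` and, with
`J = H / R^(2 C1)`-like (any `J` with `J R^(C1') ≤ H ≤ J R^(C1' + 1)`), `avr_x ‖tv_{j<J} F1 (x + q j)‖ ≥ R^-C1`. Let `b x` be the number of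
norm one (or 0) with `‖tv_j F1 (x + q j)‖ = b x * conj (tv_j F1 (x + q j))`. Then
`R^-C1 ≤ av_x b x tv_j tv_t f0 (x + q j - a t) f2 (x + q j - a t + P t)`; for each `j, t` shift `x` by `- q j + a t`:
`= tv_t av_x f0 x * cg (x + a t) * f2 (x + P t)`, `cg z = tv_j b (z - q j)`, and `‖cg (z + q i) - cg z‖ ≤ 2 i / J`, hence
`‖cg (z + a q i) - cg z‖ ≤ 2 |a| i / J`. Replace `t` by `t + q i`, `i < I`, where `I = J / R^C2` (`norm_tv_shift`, error `2 q I / H`; and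
`cg (x + a t + a q i) = cg (x + a t) + O(2 |a| I / J)`), average over `i`:
`R^-C1 / 2 ≤ tvr_t avr_x ‖tv_i f2 (x + P (t + q i))‖ =: w0`. Square: `R^(-2 C1) / 4 ≤ tvr_t avr_x ‖tv_i f2 (x + P (t + q i))‖^2
= ∑ ξ, ‖ft f2 ξ‖^2 w ξ`, `w ξ = tvr_t ‖tv_i chi ξ (P (t + q i))‖^2` (Fourier coefficients of `x ↦ tv_i f2 (x + P (t + q i))` by
`ft_shift`; `parseval`). The `ξ` with `w ξ < R^(-2 C1) / 8` contribute `< R^(-2 C1) / 8`; the others lie in `Maj M H (R^C3)` by `weyl` (with a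
power of `R`). So `∑ ξ ∈ Maj M H (R^C3), ‖ft f2 ξ‖^2 ≥ R^(-2 C1) / 8` and `card_Maj` gives one `ξ` with `‖ft f2 ξ‖^2 ≥ R^-C4`; `‖..‖ ≥ ‖..‖^2`.
-/

set_option autoImplicit false

open Finset

namespace Pool.Agent.NLT

open Pool.Agent.HLT

namespace InvTwoAux

section group

variable {M : ℕ} [NeZero M]

/-- The dual function in the middle place. -/
noncomputable def GG (a c d : ℤ) (H : ℕ) (f0 f2 : ZMod M → ℂ) (z : ZMod M) : ℂ :=
  tv H (fun t => f0 (z - ((a * (t : ℤ) : ℤ) : ZMod M)) *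
    f2 (z - ((a * (t : ℤ) : ℤ) : ZMod M) + ((PP c d t : ℤ) : ZMod M)))

lemma TT_mid (a c d : ℤ) (H : ℕ) (f0 g f2 : ZMod M → ℂ) :
    TT a c d H f0 g f2 = av (fun z => g z * GG a c d H f0 f2 z) := by
  have h1 : ∀ t : ℕ, av (fun x => f0 x * g (x + ((a * (t : ℤ) : ℤ) : ZMod M)) * f2 (x + ((PP c d t : ℤ) : ZMod M))) =
      av (fun z => g z * (f0 (z - ((a * (t : ℤ) : ℤ) : ZMod M)) *
        f2 (z - ((a * (t : ℤ) : ℤ) : ZMod M) + ((PP c d t : ℤ) : ZMod M)))) := by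
    intro t
    rw [← av_shift_sub (fun x => f0 x * g (x + ((a * (t : ℤ) : ℤ) : ZMod M)) * f2 (x + ((PP c d t : ℤ) : ZMod M)))
      ((a * (t : ℤ) : ℤ) : ZMod M)]
    congr 1
    funext x
    simp only [sub_add_cancel]
    ring
  unfold TT
  simp only [h1]
  rw [tv_av_comm H (fun t z => g z * (f0 (z - ((a * (t : ℤ) : ℤ) : ZMod M)) *
        f2 (z - ((a * (t : ℤ) : ℤ) : ZMod M) + ((PP c d t : ℤ) : ZMod M))))]
  congr 1
  funext z
  rw [tv_mul_left]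
  rfl

lemma norm_GG (a c d : ℤ) (H : ℕ) {f0 f2 : ZMod M → ℂ} (h0 : Bd f0) (h2 : Bd f2) : Bd (GG a c d H f0 f2) := by
  intro z
  refine norm_tv_le_one H _ fun t => ?_
  rw [norm_mul]
  exact mul_le_one₀ (h0 _) (norm_nonneg _) (h2 _)

lemma mid_large (a c d : ℤ) (H : ℕ) (f0 f1 f2 : ZMod M → ℂ) (h1 : Bd f1) :
    ‖TT a c d H f0 f1 f2‖ ^ 2 ≤
      ‖TT a c d H f0 (fun z => (starRingEnd ℂ) (GG a c d H f0 f2 z)) f2‖ := by
  have e1 : TT a c d H f0 (fun z => (starRingEnd ℂ) (GG a c d H f0 f2 z)) f2 =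
      ((avr (fun z => ‖GG a c d H f0 f2 z‖ ^ 2) : ℝ) : ℂ) := by
    rw [TT_mid, ← av_ofReal]
    congr 1
    funext z
    rw [mul_comm, Complex.mul_conj, Complex.normSq_eq_norm_sq]
  have hn : 0 ≤ avr (fun z => ‖GG a c d H f0 f2 z‖ ^ 2) := avr_nonneg fun z => by positivity
  rw [e1, Complex.norm_real, Real.norm_of_nonneg hn, TT_mid]
  exact norm_av_mul_sq_le f1 _ h1

/-- The slowly varying function. -/
noncomputable def cg (J q : ℕ) (b : ZMod M → ℂ) (z : ZMod M) : ℂ :=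
  tv J (fun j => b (z - ((q * j : ℕ) : ZMod M)))

lemma Bd_cg (J q : ℕ) {b : ZMod M → ℂ} (hb : Bd b) : Bd (cg J q b) :=
  fun _ => norm_tv_le_one J _ fun _ => hb _

lemma cg_shift (J q i : ℕ) {b : ZMod M → ℂ} (hb : Bd b) (z : ZMod M) :
    ‖cg J q b (z - ((q * i : ℕ) : ZMod M)) - cg J q b z‖ ≤ 2 * i / J := by
  have h := norm_tv_shift J i (fun j => b (z - ((q * j : ℕ) : ZMod M))) (fun t => hb _)
  have e : cg J q b (z - ((q * i : ℕ) : ZMod M)) = tv J (fun j => b (z - ((q * (j + i) : ℕ) : ZMod M))) := by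
    unfold cg
    congr 1
    funext j
    congr 1
    push_cast
    ring
  rw [e]
  exact h

lemma cg_shift_int (J q : ℕ) (n : ℤ) {b : ZMod M → ℂ} (hb : Bd b) (z : ZMod M) :
    ‖cg J q b (z + ((n * q : ℤ) : ZMod M)) - cg J q b z‖ ≤ 2 * |(n : ℝ)| / J := by
  obtain ⟨m, rfl | rfl⟩ := Int.eq_nat_or_neg n
  · have h := cg_shift J q m hb (z + (((m : ℤ) * q : ℤ) : ZMod M))
    have e : z + (((m : ℤ) * q : ℤ) : ZMod M) - ((q * m : ℕ) : ZMod M) = z := by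
      push_cast
      ring
    rw [e, norm_sub_rev] at h
    have e2 : |(((m : ℕ) : ℤ) : ℝ)| = (m : ℝ) := by
      rw [Int.cast_natCast, Nat.abs_cast]
    rw [e2]
    exact h
  · have h := cg_shift J q m hb z
    have e : z + ((-(m : ℤ) * q : ℤ) : ZMod M) = z - ((q * m : ℕ) : ZMod M) := by
      push_cast
      ring
    rw [e]
    have e2 : |((-((m : ℕ) : ℤ) : ℤ) : ℝ)| = (m : ℝ) := by
      rw [Int.cast_neg, Int.cast_natCast, abs_neg, Nat.abs_cast]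
    rw [e2]
    exact h

/-- The phase of a complex number. -/
lemma exists_phase (w : ℂ) : ∃ b : ℂ, ‖b‖ ≤ 1 ∧ b * w = (‖w‖ : ℂ) := by
  by_cases hw : w = 0
  · exact ⟨0, by simp, by simp [hw]⟩
  · refine ⟨(starRingEnd ℂ) w / (‖w‖ : ℂ), ?_, ?_⟩
    · rw [norm_div, RCLike.norm_conj, Complex.norm_real, norm_norm]
      exact (div_self (norm_ne_zero_iff.2 hw)).le
    · have h0 : (‖w‖ : ℂ) ≠ 0 := by
        rw [Ne, Complex.ofReal_eq_zero, norm_eq_zero]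
        exact hw
      rw [div_mul_eq_mul_div, div_eq_iff h0, mul_comm, Complex.mul_conj, Complex.normSq_eq_norm_sq]
      push_cast
      ring

lemma step_b (a c d : ℤ) (H J q : ℕ) (f0 f2 : ZMod M → ℂ) : ∃ b : ZMod M → ℂ, Bd b ∧
    ((avr (fun x => ‖tv J (fun j => (starRingEnd ℂ) (GG a c d H f0 f2 (x + ((q * j : ℕ) : ZMod M))))‖) : ℝ) : ℂ) =
      TT a c d H f0 (cg J q b) f2 := by
  choose b hb1 hb2 using fun x : ZMod M => exists_phase (tv J (fun j => GG a c d H f0 f2 (x + ((q * j : ℕ) : ZMod M))))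
  refine ⟨b, hb1, ?_⟩
  have e1 : ∀ x : ZMod M, ‖tv J (fun j => (starRingEnd ℂ) (GG a c d H f0 f2 (x + ((q * j : ℕ) : ZMod M))))‖ =
      ‖tv J (fun j => GG a c d H f0 f2 (x + ((q * j : ℕ) : ZMod M)))‖ := by
    intro x
    have : tv J (fun j => (starRingEnd ℂ) (GG a c d H f0 f2 (x + ((q * j : ℕ) : ZMod M)))) =
        (starRingEnd ℂ) (tv J (fun j => GG a c d H f0 f2 (x + ((q * j : ℕ) : ZMod M)))) := by
      unfold tv
      rw [map_div₀, map_sum, Complex.conj_natCast]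
    rw [this, RCLike.norm_conj]
  simp only [e1]
  rw [← av_ofReal]
  simp only [← hb2, ← tv_mul_left]
  rw [← tv_av_comm J (fun j x => b x * GG a c d H f0 f2 (x + ((q * j : ℕ) : ZMod M))), TT_mid]
  have e2 : ∀ j : ℕ, av (fun x => b x * GG a c d H f0 f2 (x + ((q * j : ℕ) : ZMod M))) =
      av (fun x => b (x - ((q * j : ℕ) : ZMod M)) * GG a c d H f0 f2 x) := by
    intro j
    rw [← av_shift_sub (fun x => b x * GG a c d H f0 f2 (x + ((q * j : ℕ) : ZMod M))) ((q * j : ℕ) : ZMod M)]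
    congr 1
    funext x
    simp only [sub_add_cancel]
  simp only [e2]
  rw [tv_av_comm J (fun j x => b (x - ((q * j : ℕ) : ZMod M)) * GG a c d H f0 f2 x)]
  congr 1
  funext x
  rw [mul_comm, cg, ← tv_mul_left]
  congr 1
  funext j
  ring

lemma step_c (a c d : ℤ) (H J I q : ℕ) (hI : 1 ≤ I) {f0 f2 b : ZMod M → ℂ} (h0 : Bd f0)
    (h2 : Bd f2) (hb : Bd b) :
    ‖TT a c d H f0 (cg J q b) f2‖ ≤
      tvr H (fun t => avr (fun x => ‖tv I (fun i => f2 (x + ((PP c d (t + q * i) : ℤ) : ZMod M)))‖)) +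
        (2 * ((q : ℝ) * I) / H + 2 * (|(a : ℝ)| * I) / J) := by
  set Φ : ℕ → ℂ := fun t => av (fun x => f0 x * cg J q b (x + ((a * (t : ℤ) : ℤ) : ZMod M)) *
    f2 (x + ((PP c d t : ℤ) : ZMod M))) with hΦ
  set Ψ : ℕ → ℕ → ℂ := fun i t => av (fun x => f0 x * cg J q b (x + ((a * (t : ℤ) : ℤ) : ZMod M)) *
    f2 (x + ((PP c d (t + q * i) : ℤ) : ZMod M))) with hΨ
  have hcg : Bd (cg J q b) := Bd_cg J q hb
  have hΦ1 : ∀ t, ‖Φ t‖ ≤ 1 := by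
    intro t
    refine norm_av_le_one fun x => ?_
    rw [norm_mul, norm_mul]
    exact mul_le_one₀ (mul_le_one₀ (h0 _) (norm_nonneg _) (hcg _)) (norm_nonneg _) (h2 _)
  have hTT : TT a c d H f0 (cg J q b) f2 = tv H Φ := rfl
  have hH0 : (0 : ℝ) ≤ H := Nat.cast_nonneg H
  have hJ0 : (0 : ℝ) ≤ J := Nat.cast_nonneg J
  have hE0 : 0 ≤ 2 * ((q : ℝ) * I) / H + 2 * (|(a : ℝ)| * I) / J := by positivity
  have key : ∀ i, i < I → ‖tv H Φ - tv H (Ψ i)‖ ≤ 2 * ((q : ℝ) * I) / H + 2 * (|(a : ℝ)| * I) / J := by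
    intro i hi
    have hi' : (i : ℝ) ≤ I := by exact_mod_cast hi.le
    have k1 : ‖tv H Φ - tv H (fun t => Φ (t + q * i))‖ ≤ 2 * ((q : ℝ) * I) / H := by
      rw [norm_sub_rev]
      refine (norm_tv_shift H (q * i) Φ hΦ1).trans ?_
      push_cast
      gcongr
    have k2 : ‖tv H (fun t => Φ (t + q * i)) - tv H (Ψ i)‖ ≤ 2 * (|(a : ℝ)| * I) / J := by
      rw [← tv_sub]
      refine (norm_tv_le H _).trans (tvr_le H (by positivity) fun t _ => ?_)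
      simp only [hΦ, hΨ]
      rw [← av_sub]
      refine (norm_av_le _).trans (avr_le fun x => ?_)
      have e1 : x + ((a * ((t + q * i : ℕ) : ℤ) : ℤ) : ZMod M) =
          x + ((a * (t : ℤ) : ℤ) : ZMod M) + (((a * i : ℤ) * q : ℤ) : ZMod M) := by
        push_cast
        ring
      have e2 := cg_shift_int J q (a * i) hb (x + ((a * (t : ℤ) : ℤ) : ZMod M))
      rw [← e1] at e2
      have e3 : f0 x * cg J q b (x + ((a * ((t + q * i : ℕ) : ℤ) : ℤ) : ZMod M)) *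
          f2 (x + ((PP c d (t + q * i) : ℤ) : ZMod M)) -
          f0 x * cg J q b (x + ((a * (t : ℤ) : ℤ) : ZMod M)) * f2 (x + ((PP c d (t + q * i) : ℤ) : ZMod M)) =
          f0 x * (cg J q b (x + ((a * ((t + q * i : ℕ) : ℤ) : ℤ) : ZMod M)) -
            cg J q b (x + ((a * (t : ℤ) : ℤ) : ZMod M))) * f2 (x + ((PP c d (t + q * i) : ℤ) : ZMod M)) := by
        ring
      rw [e3, norm_mul, norm_mul]
      have e4 : |(((a * i : ℤ) : ℤ) : ℝ)| ≤ |(a : ℝ)| * I := by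
        push_cast
        rw [abs_mul, Nat.abs_cast]
        exact mul_le_mul_of_nonneg_left hi' (abs_nonneg _)
      have e5 : 2 * |(((a * i : ℤ) : ℤ) : ℝ)| / J ≤ 2 * (|(a : ℝ)| * I) / J := by
        gcongr
      have e6 := e2.trans e5
      calc ‖f0 x‖ * ‖cg J q b (x + ((a * ((t + q * i : ℕ) : ℤ) : ℤ) : ZMod M)) -
            cg J q b (x + ((a * (t : ℤ) : ℤ) : ZMod M))‖ * ‖f2 (x + ((PP c d (t + q * i) : ℤ) : ZMod M))‖
          ≤ 1 * ‖cg J q b (x + ((a * ((t + q * i : ℕ) : ℤ) : ℤ) : ZMod M)) -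
            cg J q b (x + ((a * (t : ℤ) : ℤ) : ZMod M))‖ * 1 := by
            gcongr
            · exact h0 _
            · exact h2 _
        _ = ‖cg J q b (x + ((a * ((t + q * i : ℕ) : ℤ) : ℤ) : ZMod M)) -
            cg J q b (x + ((a * (t : ℤ) : ℤ) : ZMod M))‖ := by ring
        _ ≤ 2 * (|(a : ℝ)| * I) / J := e6
    calc ‖tv H Φ - tv H (Ψ i)‖ = ‖(tv H Φ - tv H (fun t => Φ (t + q * i))) +
          (tv H (fun t => Φ (t + q * i)) - tv H (Ψ i))‖ := by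
          congr 1
          ring
      _ ≤ _ := (norm_add_le _ _).trans (add_le_add k1 k2)
  have k3 : ‖tv H Φ - tv I (fun i => tv H (Ψ i))‖ ≤ 2 * ((q : ℝ) * I) / H + 2 * (|(a : ℝ)| * I) / J := by
    have : tv H Φ - tv I (fun i => tv H (Ψ i)) = tv I (fun i => tv H Φ - tv H (Ψ i)) := by
      rw [tv_sub, tv_const I hI]
    rw [this]
    exact (norm_tv_le I _).trans (tvr_le I hE0 key)
  have k4 : ‖tv I (fun i => tv H (Ψ i))‖ ≤
      tvr H (fun t => avr (fun x => ‖tv I (fun i => f2 (x + ((PP c d (t + q * i) : ℤ) : ZMod M)))‖)) := by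
    rw [tv_comm I H (fun i t => Ψ i t)]
    refine (norm_tv_le H _).trans (tvr_mono H fun t _ => ?_)
    have : tv I (fun i => Ψ i t) = av (fun x => f0 x * cg J q b (x + ((a * (t : ℤ) : ℤ) : ZMod M)) *
        tv I (fun i => f2 (x + ((PP c d (t + q * i) : ℤ) : ZMod M)))) := by
      simp only [hΨ]
      rw [tv_av_comm I (fun i x => f0 x * cg J q b (x + ((a * (t : ℤ) : ℤ) : ZMod M)) *
        f2 (x + ((PP c d (t + q * i) : ℤ) : ZMod M)))]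
      simp only [tv_mul_left]
    rw [this]
    refine (norm_av_le _).trans (avr_mono fun x => ?_)
    rw [norm_mul, norm_mul]
    have : ‖f0 x‖ * ‖cg J q b (x + ((a * (t : ℤ) : ℤ) : ZMod M))‖ ≤ 1 :=
      mul_le_one₀ (h0 _) (norm_nonneg _) (hcg _)
    exact mul_le_of_le_one_left (norm_nonneg _) this
  rw [hTT]
  calc ‖tv H Φ‖ = ‖tv I (fun i => tv H (Ψ i)) + (tv H Φ - tv I (fun i => tv H (Ψ i)))‖ := by
        congr 1
        ring
    _ ≤ _ := (norm_add_le _ _).trans (add_le_add k4 k3)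

lemma step_d (c d : ℤ) (H I q : ℕ) (f2 : ZMod M → ℂ) :
    (tvr H (fun t => avr (fun x => ‖tv I (fun i => f2 (x + ((PP c d (t + q * i) : ℤ) : ZMod M)))‖))) ^ 2 ≤
      ∑ ξ, ‖ft f2 ξ‖ ^ 2 * tvr H (fun t => ‖tv I (fun i => chi ξ ((PP c d (t + q * i) : ℤ) : ZMod M))‖ ^ 2) := by
  refine (tvr_sq_le H _).trans ?_
  have e1 : ∀ t : ℕ, avr (fun x => ‖tv I (fun i => f2 (x + ((PP c d (t + q * i) : ℤ) : ZMod M)))‖ ^ 2) =
      ∑ ξ, ‖ft f2 ξ‖ ^ 2 * ‖tv I (fun i => chi ξ ((PP c d (t + q * i) : ℤ) : ZMod M))‖ ^ 2 := by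
    intro t
    rw [← parseval]
    refine sum_congr rfl fun ξ _ => ?_
    have : ft (fun x => tv I (fun i => f2 (x + ((PP c d (t + q * i) : ℤ) : ZMod M)))) ξ =
        ft f2 ξ * tv I (fun i => chi ξ ((PP c d (t + q * i) : ℤ) : ZMod M)) := by
      rw [← tv_mul_left]
      have e2 : ∀ i : ℕ, ft f2 ξ * chi ξ ((PP c d (t + q * i) : ℤ) : ZMod M) =
          av (fun x => f2 (x + ((PP c d (t + q * i) : ℤ) : ZMod M)) * chi (-ξ) x) := by
        intro i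
        rw [mul_comm, ← ft_shift]
        rfl
      simp only [e2]
      rw [tv_av_comm I (fun i x => f2 (x + ((PP c d (t + q * i) : ℤ) : ZMod M)) * chi (-ξ) x)]
      unfold ft
      congr 1
      funext x
      rw [mul_comm, ← tv_mul_left]
      congr 1
      funext i
      ring
    rw [this, norm_mul, mul_pow]
  calc tvr H (fun t => avr (fun x => ‖tv I (fun i => f2 (x + ((PP c d (t + q * i) : ℤ) : ZMod M)))‖) ^ 2)
      ≤ tvr H (fun t => avr (fun x => ‖tv I (fun i => f2 (x + ((PP c d (t + q * i) : ℤ) : ZMod M)))‖ ^ 2)) :=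
        tvr_mono H fun t _ => avr_sq_le _
    _ = tvr H (fun t => ∑ ξ, ‖ft f2 ξ‖ ^ 2 * ‖tv I (fun i => chi ξ ((PP c d (t + q * i) : ℤ) : ZMod M))‖ ^ 2) := by
        simp only [e1]
    _ = _ := by
        unfold tvr
        rw [sum_comm, sum_div]
        refine sum_congr rfl fun ξ _ => ?_
        rw [← mul_sum, mul_div_assoc]
    _ ≤ _ := le_rfl

lemma Maj_mono_two (H K K' : ℕ) (h : K ≤ K') : Maj M H K ⊆ Maj M H K' := by
  intro ξ hξ
  unfold Maj at hξ ⊢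
  rw [mem_filter] at hξ ⊢
  obtain ⟨h1, q, hq, h2⟩ := hξ
  refine ⟨h1, q, ?_, h2.trans ?_⟩
  · rw [mem_Icc] at hq ⊢
    exact ⟨hq.1, hq.2.trans h⟩
  · have : (K : ℝ) ≤ K' := by exact_mod_cast h
    gcongr

/-- Pigeonhole in the sum over the frequencies. -/
lemma pick (f : ZMod M → ℂ) (hf : Bd f) (w : ZMod M → ℝ) (δ : ℝ)
    (h1 : 2 * δ ≤ ∑ ξ, ‖ft f ξ‖ ^ 2 * w ξ) (hw1 : ∀ ξ, w ξ ≤ 1) (S : Finset (ZMod M)) (N : ℝ) (hδ : 0 < δ)
    (hS : ∀ ξ, δ ≤ w ξ → ξ ∈ S) (hN : (S.card : ℝ) ≤ N) (hN0 : 0 < N) : ∃ ξ ∈ S, δ / N ≤ ‖ft f ξ‖ := by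
  classical
  by_contra hcon
  push Not at hcon
  have hft : ∀ ξ, ‖ft f ξ‖ ^ 2 ≤ ‖ft f ξ‖ := by
    intro ξ
    have := norm_ft_le_one hf ξ
    nlinarith [norm_nonneg (ft f ξ)]
  have hs1 : ∑ ξ, ‖ft f ξ‖ ^ 2 * w ξ = ∑ ξ ∈ univ.filter (fun ξ => δ ≤ w ξ), ‖ft f ξ‖ ^ 2 * w ξ +
      ∑ ξ ∈ univ.filter (fun ξ => ¬ δ ≤ w ξ), ‖ft f ξ‖ ^ 2 * w ξ := (sum_filter_add_sum_filter_not _ _ _).symm
  have hs2 : ∑ ξ ∈ univ.filter (fun ξ => ¬ δ ≤ w ξ), ‖ft f ξ‖ ^ 2 * w ξ ≤ δ := by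
    calc ∑ ξ ∈ univ.filter (fun ξ => ¬ δ ≤ w ξ), ‖ft f ξ‖ ^ 2 * w ξ
        ≤ ∑ ξ ∈ univ.filter (fun ξ => ¬ δ ≤ w ξ), ‖ft f ξ‖ ^ 2 * δ := by
          refine sum_le_sum fun ξ hξ => ?_
          rw [mem_filter] at hξ
          exact mul_le_mul_of_nonneg_left (le_of_not_ge hξ.2) (by positivity)
      _ ≤ ∑ ξ, ‖ft f ξ‖ ^ 2 * δ := sum_le_sum_of_subset_of_nonneg (filter_subset _ _) fun _ _ _ => by positivity
      _ = (∑ ξ, ‖ft f ξ‖ ^ 2) * δ := by rw [sum_mul]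
      _ ≤ 1 * δ := mul_le_mul_of_nonneg_right (sum_ft_sq_le_one hf) hδ.le
      _ = δ := one_mul δ
  have hsub : univ.filter (fun ξ => δ ≤ w ξ) ⊆ S := fun ξ hξ => hS ξ (mem_filter.1 hξ).2
  have hs3 : ∑ ξ ∈ univ.filter (fun ξ => δ ≤ w ξ), ‖ft f ξ‖ ^ 2 * w ξ ≤
      ∑ ξ ∈ univ.filter (fun ξ => δ ≤ w ξ), ‖ft f ξ‖ := by
    refine sum_le_sum fun ξ _ => ?_
    calc ‖ft f ξ‖ ^ 2 * w ξ ≤ ‖ft f ξ‖ ^ 2 * 1 := mul_le_mul_of_nonneg_left (hw1 ξ) (by positivity)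
      _ = ‖ft f ξ‖ ^ 2 := mul_one _
      _ ≤ _ := hft ξ
  have hs4 : δ ≤ ∑ ξ ∈ univ.filter (fun ξ => δ ≤ w ξ), ‖ft f ξ‖ := by linarith
  have hne : (univ.filter (fun ξ => δ ≤ w ξ)).Nonempty := by
    rw [nonempty_iff_ne_empty]
    intro h0
    rw [h0, sum_empty] at hs4
    linarith
  have hs5 : ∑ ξ ∈ univ.filter (fun ξ => δ ≤ w ξ), ‖ft f ξ‖ <
      ∑ _ξ ∈ univ.filter (fun ξ => δ ≤ w ξ), δ / N := by
    refine sum_lt_sum_of_nonempty hne fun ξ hξ => hcon ξ (hsub hξ)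
  rw [sum_const, nsmul_eq_mul] at hs5
  have hcard : (((univ.filter (fun ξ => δ ≤ w ξ)).card : ℕ) : ℝ) ≤ N := by
    refine le_trans ?_ hN
    exact_mod_cast card_le_card hsub
  have : (((univ.filter (fun ξ => δ ≤ w ξ)).card : ℕ) : ℝ) * (δ / N) ≤ N * (δ / N) :=
    mul_le_mul_of_nonneg_right hcard (by positivity)
  rw [mul_div_cancel₀ _ hN0.ne'] at this
  linarith

end group

lemma le_two_div (n k : ℕ) (hk : 1 ≤ k) (hkn : k ≤ n) : n ≤ 2 * (n / k * k) := by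
  have h1 : n / k * k + n % k = n := by
    rw [mul_comm]
    exact Nat.div_add_mod n k
  have h2 : n % k < k := Nat.mod_lt _ hk
  have h3 : 1 ≤ n / k := Nat.div_pos hkn hk
  have h4 : k ≤ n / k * k := Nat.le_mul_of_pos_left k h3
  omega

end InvTwoAux

open InvTwoAux in
theorem inv_two (a c d : ℤ) (ha : a ≠ 0) (hc : c ≠ 0) : ∃ C : ℕ, ∀ (R H M : ℕ) [Fact M.Prime], 2 ≤ R →
    R ^ C ≤ H → H ^ 2 ≤ M → M ≤ R * H ^ 2 → ∀ f0 f1 f2 : ZMod M → ℂ, Bd f0 → Bd f1 → Bd f2 →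
    1 / (R : ℝ) ≤ ‖TT a c d H f0 f1 f2‖ →
    ∃ ξ ∈ Maj M H (R ^ C), 1 / (R : ℝ) ^ C ≤ ‖ft f2 ξ‖ := by
  obtain ⟨C1, hone⟩ := inv_one a c d ha hc
  obtain ⟨C2, hweyl⟩ := weyl c d hc
  set E : ℕ := 4 * C1 + 4 + a.natAbs with hE
  refine ⟨4 * C1 + 6 + E + 2 * ((E + 1) * C2), ?_⟩
  set C : ℕ := 4 * C1 + 6 + E + 2 * ((E + 1) * C2) with hC
  intro R H M hM hR hRH hHM hMR f0 f1 f2 h0 h1 h2 hlow
  have hR1 : 1 ≤ R := by omega
  have hpow : ∀ n : ℕ, n ≤ C → R ^ n ≤ H := fun n hn => (Nat.pow_le_pow_right hR1 hn).trans hRH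
  have hH1 : 1 ≤ H := (Nat.one_le_pow _ _ hR1).trans hRH
  have hρ : (2 : ℝ) ≤ R := by exact_mod_cast hR
  have hρ0 : (0 : ℝ) < R := by linarith
  have hρ1 : (1 : ℝ) ≤ R := by linarith
  have hH0 : (0 : ℝ) < H := by exact_mod_cast hH1
  -- the function in the middle
  set F1 : ZMod M → ℂ := fun z => (starRingEnd ℂ) (GG a c d H f0 f2 z) with hF1
  have hF1b : Bd F1 := by
    intro z
    rw [hF1, RCLike.norm_conj]
    exact norm_GG a c d H h0 h2 z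
  have hTT1 : 1 / ((R ^ 2 : ℕ) : ℝ) ≤ ‖TT a c d H f0 F1 f2‖ := by
    refine le_trans ?_ (mid_large a c d H f0 f1 f2 h1)
    have : (1 / (R : ℝ)) ^ 2 ≤ ‖TT a c d H f0 f1 f2‖ ^ 2 := pow_le_pow_left₀ (by positivity) hlow 2
    refine le_trans (le_of_eq ?_) this
    push_cast
    rw [div_pow, one_pow]
  have hR2C : (R ^ 2) ^ C1 = R ^ (2 * C1) := by rw [← pow_mul]
  obtain ⟨q, hq1, hq2, hq3⟩ := hone (R ^ 2) H M (by nlinarith) (by rw [hR2C]; exact hpow _ (by omega)) hHM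
    (hMR.trans (Nat.mul_le_mul_right _ (by nlinarith))) f0 F1 f2 h0 hF1b h2 hTT1
  rw [hR2C] at hq2
  have hA1 : 1 ≤ R ^ (2 * C1) := Nat.one_le_pow _ _ hR1
  have hAH : R ^ (2 * C1) ≤ H := hpow _ (by omega)
  set J : ℕ := H / R ^ (2 * C1) with hJdef
  have hJ1 : 1 ≤ J := Nat.div_pos hAH hA1
  have hJle : J * R ^ (2 * C1) ≤ H := Nat.div_mul_le_self _ _
  have hJge : H ≤ 2 * (J * R ^ (2 * C1)) := le_two_div H _ hA1 hAH
  have hj := hq3 J hJ1 (by rw [hR2C]; exact hJle)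
  obtain ⟨b, hb, hb2⟩ := step_b a c d H J q f0 f2
  have hj2 : 1 / (R : ℝ) ^ (2 * C1) ≤ ‖TT a c d H f0 (cg J q b) f2‖ := by
    rw [← hb2, Complex.norm_real]
    refine le_trans ?_ (le_abs_self _)
    refine le_trans (le_of_eq ?_) hj
    push_cast
    rw [← pow_mul]
  have hB1 : 1 ≤ R ^ E := Nat.one_le_pow _ _ hR1
  have hBH : R ^ E ≤ H := hpow _ (by omega)
  set I : ℕ := H / R ^ E with hIdef
  have hI1 : 1 ≤ I := Nat.div_pos hBH hB1
  have hIle : I * R ^ E ≤ H := Nat.div_mul_le_self _ _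
  have hIge : H ≤ 2 * (I * R ^ E) := le_two_div H _ hB1 hBH
  have hIH : I ≤ H := Nat.div_le_self _ _
  have hc1 := step_c a c d H J I q hI1 h0 h2 hb
  set w0 : ℝ := tvr H (fun t => avr (fun x => ‖tv I (fun i => f2 (x + ((PP c d (t + q * i) : ℤ) : ZMod M)))‖))
    with hw0
  -- real forms of the size relations
  set X : ℝ := (R : ℝ) ^ (2 * C1) with hX
  have hX1 : 1 ≤ X := one_le_pow₀ hρ1
  have hX0 : 0 < X := by linarith
  set Y : ℝ := (R : ℝ) ^ E with hY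
  have hY0 : 0 < Y := by positivity
  have hIr : (I : ℝ) * Y ≤ H := by
    rw [hY]
    exact_mod_cast hIle
  have hJr : (H : ℝ) ≤ 2 * (J * X) := by
    rw [hX]
    exact_mod_cast hJge
  have hqr : (q : ℝ) ≤ X := by
    rw [hX]
    exact_mod_cast hq2
  have hI0 : (0 : ℝ) < I := by exact_mod_cast hI1
  have hJ0 : (0 : ℝ) < J := by exact_mod_cast hJ1
  have hxx : X * X = (R : ℝ) ^ (4 * C1) := by
    rw [hX, ← pow_add]
    congr 1
    omega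
  have ha2 : |(a : ℝ)| ≤ (R : ℝ) ^ a.natAbs := by
    have e1 : |(a : ℝ)| = ((a.natAbs : ℕ) : ℝ) := by
      rw [Nat.cast_natAbs, Int.cast_abs]
    rw [e1]
    have e2 : a.natAbs < 2 ^ a.natAbs := Nat.lt_two_pow_self
    have e3 : ((a.natAbs : ℕ) : ℝ) ≤ (2 : ℝ) ^ a.natAbs := by exact_mod_cast e2.le
    exact e3.trans (pow_le_pow_left₀ (by norm_num) hρ _)
  have ha1 : 1 ≤ |(a : ℝ)| := by
    have : 1 ≤ |a| := Int.one_le_abs ha
    have e : ((|a| : ℤ) : ℝ) = |(a : ℝ)| := Int.cast_abs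
    rw [← e]
    exact_mod_cast this
  have hYb : 16 * (|(a : ℝ)| * (X * X)) ≤ Y := by
    rw [hY, hE, pow_add, pow_add, hxx]
    have e1 : (16 : ℝ) ≤ (R : ℝ) ^ 4 := by
      have : (2 : ℝ) ^ 4 ≤ (R : ℝ) ^ 4 := pow_le_pow_left₀ (by norm_num) hρ 4
      linarith
    calc 16 * (|(a : ℝ)| * (R : ℝ) ^ (4 * C1)) = (R : ℝ) ^ (4 * C1) * 16 * |(a : ℝ)| := by ring
      _ ≤ (R : ℝ) ^ (4 * C1) * (R : ℝ) ^ 4 * (R : ℝ) ^ a.natAbs := by gcongr
  have hb1 : 2 * ((q : ℝ) * I) / H ≤ 1 / (4 * X) := by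
    rw [div_le_div_iff₀ hH0 (by positivity)]
    have e1 : 8 * (X * X) ≤ Y := by
      have : 8 * (X * X) ≤ 16 * (|(a : ℝ)| * (X * X)) := by nlinarith [mul_pos hX0 hX0]
      linarith
    calc 2 * ((q : ℝ) * I) * (4 * X) = 8 * (q * X) * I := by ring
      _ ≤ 8 * (X * X) * I := by gcongr
      _ ≤ Y * I := by gcongr
      _ = I * Y := mul_comm _ _
      _ ≤ H := hIr
      _ = 1 * H := (one_mul _).symm
  have hb2' : 2 * (|(a : ℝ)| * I) / J ≤ 1 / (4 * X) := by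
    rw [div_le_div_iff₀ hJ0 (by positivity)]
    have e1 : 16 * (|(a : ℝ)| * (X * X)) * I ≤ 2 * (J * X) := by
      calc 16 * (|(a : ℝ)| * (X * X)) * I ≤ Y * I := by gcongr
        _ = I * Y := mul_comm _ _
        _ ≤ H := hIr
        _ ≤ _ := hJr
    have e2 : (2 * (|(a : ℝ)| * I) * (4 * X)) * (2 * X) ≤ (1 * J) * (2 * X) := by
      calc (2 * (|(a : ℝ)| * I) * (4 * X)) * (2 * X) = 16 * (|(a : ℝ)| * (X * X)) * I := by ring
        _ ≤ 2 * (J * X) := e1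
        _ = (1 * J) * (2 * X) := by ring
    exact le_of_mul_le_mul_right e2 (by positivity)
  have hw0ge : 1 / (2 * X) ≤ w0 := by
    have e1 : 1 / X = 1 / (2 * X) + (1 / (4 * X) + 1 / (4 * X)) := by
      field_simp
      norm_num
    linarith
  set δ : ℝ := 1 / (8 * (X * X)) with hδ
  have hδ0 : 0 < δ := by positivity
  have hd := step_d c d H I q f2
  rw [← hw0] at hd
  have hsum : 2 * δ ≤ ∑ ξ, ‖ft f2 ξ‖ ^ 2 *
      tvr H (fun t => ‖tv I (fun i => chi ξ ((PP c d (t + q * i) : ℤ) : ZMod M))‖ ^ 2) := by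
    refine le_trans ?_ hd
    have : (1 / (2 * X)) ^ 2 ≤ w0 ^ 2 := pow_le_pow_left₀ (by positivity) hw0ge 2
    refine le_trans (le_of_eq ?_) this
    rw [hδ]
    field_simp
    norm_num
  set K : ℕ := (R ^ (E + 1)) ^ C2 with hK
  have hKp : K = R ^ ((E + 1) * C2) := by rw [hK, ← pow_mul]
  have hK1 : 1 ≤ K := by rw [hKp]; exact Nat.one_le_pow _ _ hR1
  have hKM : K < M := by
    rw [hKp]
    calc R ^ ((E + 1) * C2) < R ^ C := Nat.pow_lt_pow_right (by omega) (by omega)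
      _ ≤ H := hRH
      _ ≤ H ^ 2 := by nlinarith
      _ ≤ M := hHM
  have hS : ∀ ξ : ZMod M, δ ≤ tvr H (fun t => ‖tv I (fun i => chi ξ ((PP c d (t + q * i) : ℤ) : ZMod M))‖ ^ 2) →
      ξ ∈ Maj M H K := by
    intro ξ hξ
    refine hweyl (R ^ (E + 1)) H M q I ?_ ?_ hq1 ?_ ?_ hIH ξ (le_trans ?_ hξ)
    · calc 2 ≤ R := hR
        _ = R ^ 1 := (pow_one R).symm
        _ ≤ R ^ (E + 1) := Nat.pow_le_pow_right hR1 (by omega)
    · rw [← hK, hKp]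
      exact hpow _ (by omega)
    · exact hq2.trans (Nat.pow_le_pow_right hR1 (by omega))
    · calc H ≤ 2 * (I * R ^ E) := hIge
        _ ≤ R * (I * R ^ E) := Nat.mul_le_mul_right _ hR
        _ = R ^ (E + 1) * I := by ring
    · rw [hδ]
      have e1 : 8 * (X * X) ≤ Y := by
        have : 8 * (X * X) ≤ 16 * (|(a : ℝ)| * (X * X)) := by nlinarith [mul_pos hX0 hX0]
        linarith
      have e2 : Y ≤ ((R ^ (E + 1) : ℕ) : ℝ) := by
        rw [hY]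
        push_cast
        exact pow_le_pow_right₀ hρ1 (by omega)
      exact one_div_le_one_div_of_le (by positivity) (e1.trans e2)
  have hcard := card_Maj M H K R hK1 hR1 hKM hMR
  obtain ⟨ξ, hξ, hξ2⟩ := pick f2 h2 (fun ξ => tvr H (fun t =>
      ‖tv I (fun i => chi ξ ((PP c d (t + q * i) : ℤ) : ZMod M))‖ ^ 2)) δ hsum (fun ξ => by
        refine tvr_le H zero_le_one fun t _ => ?_
        exact pow_le_one₀ (norm_nonneg _) (norm_tv_le_one I _ fun i => (norm_chi _ _).le))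
      (Maj M H K) (3 * (K : ℝ) ^ 2 * R) hδ0 hS hcard (by
        have : (0 : ℝ) < K := by exact_mod_cast hK1
        positivity)
  refine ⟨ξ, Maj_mono_two H K (R ^ C) ?_ hξ, le_trans ?_ hξ2⟩
  · rw [hKp]
    exact Nat.pow_le_pow_right hR1 (by omega)
  · have hKr : (K : ℝ) = (R : ℝ) ^ ((E + 1) * C2) := by
      rw [hKp]
      push_cast
      rfl
    rw [hδ, div_div, hxx, hKr, ← pow_mul]
    refine one_div_le_one_div_of_le (by positivity) ?_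
    have e1 : (8 : ℝ) ≤ (R : ℝ) ^ 3 := by
      have : (2 : ℝ) ^ 3 ≤ (R : ℝ) ^ 3 := pow_le_pow_left₀ (by norm_num) hρ 3
      linarith
    have e2 : (3 : ℝ) ≤ (R : ℝ) ^ 2 := by nlinarith
    calc 8 * (R : ℝ) ^ (4 * C1) * (3 * (R : ℝ) ^ ((E + 1) * C2 * 2) * R)
        ≤ (R : ℝ) ^ 3 * (R : ℝ) ^ (4 * C1) * ((R : ℝ) ^ 2 * (R : ℝ) ^ ((E + 1) * C2 * 2) * R) := by gcongr
      _ = (R : ℝ) ^ (4 * C1 + 6 + 2 * ((E + 1) * C2)) := by ring
      _ ≤ (R : ℝ) ^ C := pow_le_pow_right₀ hρ1 (by omega)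

end Pool.Agent.NLT
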