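import Pool.Agent.Lib.NLT.BasicC
import Pool.Agent.Lib.NLT.MajLem

/-!
# Module Kernel: the Weyl kernel is small outside the major arcs

PROOF of `kernel` (contrapositive, `C = 30` is enough). Let `B = 2 A` and suppose `(∑ γ, ‖tv ..‖^2) / A > 1 / R`. There
are `4 A + 1 ≤ 5 A` values of `γ`; those with `‖tv ..‖^2 < 1 / (10 R)` contribute less than `A / (2 R)`, so the set `S`
of the others has at least `A / (2 R)` elements (each term is at most 1). For `γ ∈ S` we have `‖tv ..‖ ≥ ‖tv ..‖^2 ≥ 1 / (10 R)`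
and by `chi_tv` (with `m = γ`, `n = 0`, `H := A'`; `((γ : ZMod M) * i = ((γ * i + 0 : ℤ) : ZMod M)`)
`2 A' nrm (γ ξ / M) ‖tv ..‖ ≤ 1`, so `nrm (γ ξ / M) ≤ 5 R / A' ≤ 10 R^2 / B` (`A' ≥ H / R ≥ A / R = B / (2 R)`).
Apply `maj_of_count` with `m = 1`, `K = 10 R^2`, `K' = R^C`: `S.card ≥ A / (2 R) = B / (4 R) ≥ B / K`,
`28 K^2 = 2800 R^4 ≤ B` because `B = 2 A ≥ 2 A' ≥ 2 H / R ≥ 2 R^(C-1)`, `5 K ≤ R^C`, and
`100 K^3 H^2 = 10^5 R^6 H^2 ≤ R^C B^2` because `B^2 ≥ 4 H^2 / R^2`.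

PROOF of `kernel_two`: by `Q2_eq` the left side is `∑ ξ, ‖ft g ξ‖^2 ((∑ γ, ‖tv A' (..)‖^2) / A)`; the factor is at most
`(4 A + 1) / A ≤ 5` for every `ξ` and at most `1 / R` outside `Maj`; `∑ ‖ft g ξ‖^2 ≤ 1`.
-/

set_option autoImplicit false

open Finset

namespace Pool.Agent.NLT

open Pool.Agent.HLT

namespace KernelAux

lemma card_Icc_A (A : ℕ) : ((Icc (-(2 * A : ℤ)) (2 * A)).card : ℝ) = 4 * A + 1 := by
  rw [Int.card_Icc]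
  have h : ((2 * (A : ℤ) + 1 - -(2 * (A : ℤ))).toNat : ℕ) = 4 * A + 1 := by omega
  rw [h]
  push_cast
  ring

lemma pow_ge (R k n : ℕ) (hR : 2 ≤ R) (h : k ≤ 2 ^ n) : k ≤ R ^ n :=
  h.trans (Nat.pow_le_pow_left hR n)

section group

variable {M : ℕ} [NeZero M]

lemma tv_le_one (A' : ℕ) (ξ : ZMod M) (γ : ℤ) :
    ‖tv A' (fun i => chi ξ ((γ : ZMod M) * (i : ZMod M)))‖ ≤ 1 :=
  norm_tv_le_one A' _ (fun _ => (norm_chi ξ _).le)

lemma sum_le (A A' : ℕ) (hA : 1 ≤ A) (ξ : ZMod M) :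
    (∑ γ ∈ Icc (-(2 * A : ℤ)) (2 * A), ‖tv A' (fun i => chi ξ ((γ : ZMod M) * (i : ZMod M)))‖ ^ 2) / A
      ≤ 5 := by
  have hA' : (1 : ℝ) ≤ A := by exact_mod_cast hA
  rw [div_le_iff₀ (by linarith)]
  have h : (∑ γ ∈ Icc (-(2 * A : ℤ)) (2 * A),
      ‖tv A' (fun i => chi ξ ((γ : ZMod M) * (i : ZMod M)))‖ ^ 2) ≤
      ∑ _γ ∈ Icc (-(2 * A : ℤ)) (2 * A), (1 : ℝ) := by
    refine sum_le_sum (fun γ _ => ?_)
    exact pow_le_one₀ (norm_nonneg _) (tv_le_one A' ξ γ)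
  rw [sum_const, nsmul_eq_mul, mul_one, card_Icc_A] at h
  linarith

lemma nrm_le (A' R : ℕ) (hR : 2 ≤ R) (hA' : 1 ≤ A') (ξ : ZMod M) (γ : ℤ)
    (h : 1 / (10 * (R : ℝ)) ≤ ‖tv A' (fun i => chi ξ ((γ : ZMod M) * (i : ZMod M)))‖ ^ 2) :
    nrm ((γ : ℝ) * ((ξ.val : ℝ) / M)) ≤ 5 * R / A' := by
  have hR' : (2 : ℝ) ≤ R := by exact_mod_cast hR
  have hA1 : (1 : ℝ) ≤ A' := by exact_mod_cast hA'
  have h1 := chi_tv A' ξ γ 0
  have e : (fun t : ℕ => chi ξ ((γ * (t : ℤ) + 0 : ℤ) : ZMod M)) =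
      (fun i : ℕ => chi ξ ((γ : ZMod M) * (i : ZMod M))) := by
    funext _
    push_cast
    rw [add_zero]
  rw [e] at h1
  set T := ‖tv A' (fun i => chi ξ ((γ : ZMod M) * (i : ZMod M)))‖ with hT
  have hT1 : T ≤ 1 := tv_le_one A' ξ γ
  have hT0 : 0 ≤ T := norm_nonneg _
  have hT2 : 1 / (10 * (R : ℝ)) ≤ T := by nlinarith
  have hn := nrm_nonneg ((γ : ℝ) * ((ξ.val : ℝ) / M))
  rw [le_div_iff₀ (by linarith)]
  have h3 : 1 ≤ 10 * (R : ℝ) * T := by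
    rw [div_le_iff₀ (by linarith)] at hT2
    linarith
  have h4 : 0 ≤ 2 * (A' : ℝ) * nrm ((γ : ℝ) * ((ξ.val : ℝ) / M)) := by positivity
  have h5 : 2 * (A' : ℝ) * nrm ((γ : ℝ) * ((ξ.val : ℝ) / M)) * 1 ≤
      2 * (A' : ℝ) * nrm ((γ : ℝ) * ((ξ.val : ℝ) / M)) * (10 * (R : ℝ) * T) :=
    mul_le_mul_of_nonneg_left h3 h4
  have h6 : 2 * (A' : ℝ) * nrm ((γ : ℝ) * ((ξ.val : ℝ) / M)) * (10 * (R : ℝ) * T) =
      10 * R * (2 * (A' : ℝ) * nrm ((γ : ℝ) * ((ξ.val : ℝ) / M)) * T) := by ring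
  have h7 : 10 * (R : ℝ) * (2 * (A' : ℝ) * nrm ((γ : ℝ) * ((ξ.val : ℝ) / M)) * T) ≤ 10 * R * 1 :=
    mul_le_mul_of_nonneg_left h1 (by linarith)
  linarith

end group

end KernelAux

open KernelAux

theorem kernel : ∃ C : ℕ, ∀ (R H M A A' : ℕ) [NeZero M], 2 ≤ R → R ^ C ≤ H → H ≤ R * A' → A' ≤ A → A ≤ H →
    ∀ ξ : ZMod M, ξ ∉ Maj M H (R ^ C) →
      (∑ γ ∈ Icc (-(2 * A : ℤ)) (2 * A), ‖tv A' (fun i => chi ξ ((γ : ZMod M) * (i : ZMod M)))‖ ^ 2) / A ≤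
        1 / (R : ℝ) := by
  classical
  refine ⟨30, ?_⟩
  intro R H M A A' _ hR hRH hHA hA'A hAH ξ hξ
  by_contra hcon
  rw [not_le] at hcon
  apply hξ
  have hR1 : 1 ≤ R := by omega
  have hRA : R * A' ≤ R * A := Nat.mul_le_mul_left R hA'A
  have hA29' : R ^ 29 ≤ A' := by
    have h : R * R ^ 29 ≤ R * A' := by
      calc R * R ^ 29 = R ^ 30 := by ring
        _ ≤ R * A' := hRH.trans hHA
    exact Nat.le_of_mul_le_mul_left h (by omega)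
  have hA29 : R ^ 29 ≤ A := hA29'.trans hA'A
  have hA'1 : 1 ≤ A' := (Nat.one_le_pow _ _ (by omega)).trans hA29'
  have hA1 : 1 ≤ A := hA'1.trans hA'A
  have hRr : (2 : ℝ) ≤ R := by exact_mod_cast hR
  have hAr : (1 : ℝ) ≤ A := by exact_mod_cast hA1
  have hA'r : (1 : ℝ) ≤ A' := by exact_mod_cast hA'1
  set f : ℤ → ℝ := fun γ => ‖tv A' (fun i => chi ξ ((γ : ZMod M) * (i : ZMod M)))‖ ^ 2 with hf
  set S := (Icc (-(2 * A : ℤ)) (2 * A)).filter (fun γ => 1 / (10 * (R : ℝ)) ≤ f γ) with hS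
  have hf1 : ∀ γ, f γ ≤ 1 := fun γ => pow_le_one₀ (norm_nonneg _) (tv_le_one A' ξ γ)
  have hc : (A : ℝ) / (2 * R) ≤ S.card := by
    have h1 : ∑ γ ∈ Icc (-(2 * A : ℤ)) (2 * A), f γ ≤
        (S.card : ℝ) + (4 * A + 1) * (1 / (10 * (R : ℝ))) := by
      rw [← sum_filter_add_sum_filter_not (Icc (-(2 * A : ℤ)) (2 * A))
        (fun γ => 1 / (10 * (R : ℝ)) ≤ f γ)]
      refine add_le_add ?_ ?_
      · calc ∑ γ ∈ S, f γ ≤ ∑ _γ ∈ S, (1 : ℝ) := sum_le_sum (fun γ _ => hf1 γ)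
          _ = S.card := by simp
      · calc ∑ γ ∈ (Icc (-(2 * A : ℤ)) (2 * A)).filter (fun γ => ¬ 1 / (10 * (R : ℝ)) ≤ f γ), f γ
            ≤ ∑ _γ ∈ (Icc (-(2 * A : ℤ)) (2 * A)).filter (fun γ => ¬ 1 / (10 * (R : ℝ)) ≤ f γ),
              (1 / (10 * (R : ℝ))) :=
              sum_le_sum (fun γ hγ => (not_le.1 (mem_filter.1 hγ).2).le)
          _ ≤ ∑ _γ ∈ Icc (-(2 * A : ℤ)) (2 * A), (1 / (10 * (R : ℝ))) :=
              sum_le_sum_of_subset_of_nonneg (filter_subset _ _) (fun _ _ _ => by positivity)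
          _ = (4 * A + 1) * (1 / (10 * (R : ℝ))) := by
              rw [sum_const, nsmul_eq_mul, card_Icc_A]
    have h2 : (A : ℝ) / R < ∑ γ ∈ Icc (-(2 * A : ℤ)) (2 * A), f γ := by
      rw [lt_div_iff₀ (by linarith)] at hcon
      calc (A : ℝ) / R = 1 / (R : ℝ) * A := by ring
        _ < _ := hcon
    have h3 : (4 * (A : ℝ) + 1) * (1 / (10 * (R : ℝ))) ≤ A / (2 * R) := by
      rw [mul_one_div, div_le_div_iff₀ (by linarith) (by linarith)]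
      nlinarith
    have h4 : (A : ℝ) / R = A / (2 * R) + A / (2 * R) := by
      field_simp
      ring
    linarith
  refine maj_of_count M H (2 * A) (10 * R ^ 2) (R ^ 30) ξ 1 one_ne_zero ?_ ?_ ?_ ?_ ?_ S ?_ ?_
  · have := Nat.one_le_pow 2 R (by omega)
    omega
  · exact (Nat.one_le_pow _ _ (by omega)).trans hRH
  · have h : 1400 * R ^ 4 ≤ R ^ 29 := by
      calc 1400 * R ^ 4 ≤ R ^ 25 * R ^ 4 := Nat.mul_le_mul_right _ (pow_ge R 1400 25 hR (by norm_num))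
        _ = R ^ 29 := by ring
    calc 28 * (10 * R ^ 2) ^ 2 = 2 * (1400 * R ^ 4) := by ring
      _ ≤ 2 * A := Nat.mul_le_mul_left 2 (h.trans hA29)
  · calc 5 * (10 * R ^ 2) * (1 : ℤ).natAbs = 50 * R ^ 2 := by
          rw [Int.natAbs_one]
          ring
      _ ≤ R ^ 28 * R ^ 2 := Nat.mul_le_mul_right _ (pow_ge R 50 28 hR (by norm_num))
      _ = R ^ 30 := by ring
  · have h : H ^ 2 ≤ (R * A) ^ 2 := Nat.pow_le_pow_left (hHA.trans hRA) 2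
    calc 100 * (10 * R ^ 2) ^ 3 * H ^ 2 ≤ 100 * (10 * R ^ 2) ^ 3 * (R * A) ^ 2 :=
          Nat.mul_le_mul_left _ h
      _ = 25000 * (4 * R ^ 8 * A ^ 2) := by ring
      _ ≤ R ^ 22 * (4 * R ^ 8 * A ^ 2) :=
          Nat.mul_le_mul_right _ (pow_ge R 25000 22 hR (by norm_num))
      _ = R ^ 30 * (2 * A) ^ 2 := by ring
  · intro γ hγ
    have hγ' := mem_filter.1 hγ
    have hI := mem_Icc.1 hγ'.1
    constructor
    · push_cast
      exact abs_le.2 ⟨hI.1, hI.2⟩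
    · have h1 := nrm_le A' R hR hA'1 ξ γ hγ'.2
      have h2 : ((1 : ℤ) : ℝ) * ((ξ.val : ℝ) / M) = (ξ.val : ℝ) / M := by
        rw [Int.cast_one, one_mul]
      rw [h2]
      refine h1.trans ?_
      have h3 : (A : ℝ) ≤ R * A' := by exact_mod_cast hAH.trans hHA
      push_cast
      rw [div_le_div_iff₀ (by linarith) (by linarith)]
      nlinarith
  · push_cast
    refine le_trans ?_ hc
    rw [div_le_div_iff₀ (by positivity) (by linarith)]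
    have h0 : (0 : ℝ) ≤ A * R := by positivity
    have h1 : (A : ℝ) * R * 1 ≤ A * R * R := mul_le_mul_of_nonneg_left (by linarith) h0
    nlinarith [h0, h1]

theorem kernel_two : ∃ C : ℕ, ∀ (R H M A A' : ℕ) [NeZero M], 2 ≤ R → R ^ C ≤ H → H ≤ R * A' → A' ≤ A → A ≤ H →
    ∀ g : ZMod M → ℂ, Bd g →
      (∑ γ ∈ Icc (-(2 * A : ℤ)) (2 * A), Q2 A' g (γ : ZMod M)) / A ≤
        5 * ∑ ξ ∈ Maj M H (R ^ C), ‖ft g ξ‖ ^ 2 + 1 / (R : ℝ) := by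
  classical
  obtain ⟨C, hC⟩ := kernel
  refine ⟨C, ?_⟩
  intro R H M A A' _ hR hRH hHA hA'A hAH g hg
  have hH1 : 1 ≤ H := (Nat.one_le_pow _ _ (by omega)).trans hRH
  have hA'1 : 1 ≤ A' := by
    rcases Nat.eq_zero_or_pos A' with h | h
    · rw [h] at hHA
      omega
    · exact h
  have hA1 : 1 ≤ A := hA'1.trans hA'A
  have hRr : (2 : ℝ) ≤ R := by exact_mod_cast hR
  set k : ZMod M → ℝ := fun ξ =>
    (∑ γ ∈ Icc (-(2 * A : ℤ)) (2 * A), ‖tv A' (fun i => chi ξ ((γ : ZMod M) * (i : ZMod M)))‖ ^ 2) / A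
    with hk
  have e : (∑ γ ∈ Icc (-(2 * A : ℤ)) (2 * A), Q2 A' g (γ : ZMod M)) / A =
      ∑ ξ, ‖ft g ξ‖ ^ 2 * k ξ := by
    have h1 : (∑ γ ∈ Icc (-(2 * A : ℤ)) (2 * A), Q2 A' g (γ : ZMod M)) =
        ∑ ξ, ‖ft g ξ‖ ^ 2 * ∑ γ ∈ Icc (-(2 * A : ℤ)) (2 * A),
          ‖tv A' (fun i => chi ξ ((γ : ZMod M) * (i : ZMod M)))‖ ^ 2 := by
      simp only [Q2_eq, mul_sum]
      exact sum_comm
    rw [h1, sum_div]
    exact sum_congr rfl (fun ξ _ => by rw [hk, mul_div_assoc])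
  rw [e, ← sum_filter_add_sum_filter_not univ (fun ξ => ξ ∈ Maj M H (R ^ C))]
  refine add_le_add ?_ ?_
  · rw [filter_mem_eq_inter, univ_inter, mul_sum]
    refine sum_le_sum (fun ξ _ => ?_)
    rw [mul_comm]
    exact mul_le_mul_of_nonneg_right (sum_le A A' hA1 ξ) (by positivity)
  · calc ∑ ξ ∈ univ.filter (fun ξ => ¬ ξ ∈ Maj M H (R ^ C)), ‖ft g ξ‖ ^ 2 * k ξ
        ≤ ∑ ξ ∈ univ.filter (fun ξ => ¬ ξ ∈ Maj M H (R ^ C)), ‖ft g ξ‖ ^ 2 * (1 / (R : ℝ)) := by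
          refine sum_le_sum (fun ξ hξ => ?_)
          exact mul_le_mul_of_nonneg_left
            (hC R H M A A' hR hRH hHA hA'A hAH ξ (mem_filter.1 hξ).2) (by positivity)
      _ ≤ ∑ ξ, ‖ft g ξ‖ ^ 2 * (1 / (R : ℝ)) :=
          sum_le_sum_of_subset_of_nonneg (filter_subset _ _) (fun _ _ _ => by positivity)
      _ = (∑ ξ, ‖ft g ξ‖ ^ 2) * (1 / (R : ℝ)) := by rw [sum_mul]
      _ ≤ 1 * (1 / (R : ℝ)) :=
          mul_le_mul_of_nonneg_right (sum_ft_sq_le_one hg) (by positivity)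
      _ = 1 / (R : ℝ) := one_mul _

end Pool.Agent.NLT
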