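import Pool.Agent.Lib.NLT.Vdc

/-!
# Module Lin: linear averages are controlled by box norms

Notation `e = 8 A / H`. If `e > 1` the bounds are trivial (left side `≤ 1`), so let `e ≤ 1`.

PROOF of `lin_one`: `vdc_sq` with `b = g0`, `φ x t = g1 (x + u t)`: `≤ tvr_t avr_x ‖tv_k g1 (x + u t + u k)‖^2 + e`, shift `x`:
`= Q2 A g1 u + e`.

PROOF of `lin_two`: `vdc_norm` with `b = g0`, `φ x t = g1 (x + u t) * g2 (x + v t)`: the average over `n, n' < A` of
`‖tv_t av_x g1 (x + u t + u n) conj g1 (x + u t + u n') g2 (x + v t + v n) conj g2 (x + v t + v n')‖`, plus `e`. Shift `x` by `-u t`: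
`tv_t av_x G1 x * G2 (x + (v - u) t)` with `G1 x = g1 (x + u n) * conj (g1 (x + u n'))`, `G2 x = Dl (v (n' - n)) g2 (x + v n)`.
`lin_one`: `‖..‖^2 ≤ Q2 A G2 (v - u) + e = Q2 A (Dl (v (n' - n)) g2) (v - u) + e` (`Q2_shift`). So (power means)
`‖..‖^4 ≤ (y + e)^2 ≤ y^2 + 3 e ≤ dv A (n ↦ Q2 A (Dl (v n) g2) (v - u)) + 4 e`. (Average over `n, n' < A` of a function
of `n' - n` is `dv`.)

PROOF of `lin_three`: the same with `lin_two` in the last step: `vdc_norm` with `b = g0`, shift by `-u t`: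
`G1 x * G2 (x + (v - u) t) * G3 (x + (w - u) t)`, `G3 x = Dl (w (m' - m)) g3 (x + w m)`; `lin_two` for the pair
`(v - u, w - u)`: `‖Y‖^4 ≤ dv A (n ↦ Q2 A (Dl ((w - u) n) (Dl (w (m' - m)) g3)) (w - v)) + 4 e`, where `w - v = (w - u) - (v - u)`
(`Dl_shift`, `Q2_shift`). Then `‖..‖^8 ≤ (avg ‖Y‖ + e)^4 ≤ avg ‖Y‖^4 + 15 e` for `e ≤ 1`; total `19 e = 152 A / H`.
-/

set_option autoImplicit false

open Finset

namespace Pool.Agent.NLT

open Pool.Agent.HLT

variable {M : ℕ} [NeZero M]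

namespace LinAux

lemma dv_eq (A : ℕ) (F : ℤ → ℝ) :
    tvr A (fun k => tvr A (fun k' => F ((k' : ℤ) - k))) = dv A F := by
  simp only [tvr, dv, ← sum_div]
  rw [div_div, sq]

lemma tt_mono (A : ℕ) {Z W : ℕ → ℕ → ℝ} (h : ∀ k k', Z k k' ≤ W k k') :
    tvr A (fun k => tvr A (fun k' => Z k k')) ≤ tvr A (fun k => tvr A (fun k' => W k k')) :=
  tvr_mono A (fun k _ => tvr_mono A (fun k' _ => h k k'))

lemma tt_nonneg (A : ℕ) {Z : ℕ → ℕ → ℝ} (h : ∀ k k', 0 ≤ Z k k') :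
    0 ≤ tvr A (fun k => tvr A (fun k' => Z k k')) :=
  tvr_nonneg A (fun k => tvr_nonneg A (fun k' => h k k'))

lemma tt_le_one (A : ℕ) {Z : ℕ → ℕ → ℝ} (h : ∀ k k', Z k k' ≤ 1) :
    tvr A (fun k => tvr A (fun k' => Z k k')) ≤ 1 :=
  tvr_le A zero_le_one (fun k _ => tvr_le A zero_le_one (fun k' _ => h k k'))

lemma tt_sq (A : ℕ) (Z : ℕ → ℕ → ℝ) :
    (tvr A (fun k => tvr A (fun k' => Z k k'))) ^ 2 ≤
      tvr A (fun k => tvr A (fun k' => Z k k' ^ 2)) :=
  (tvr_sq_le A _).trans (tvr_mono A (fun _ _ => tvr_sq_le A _))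

lemma tt_bound (A : ℕ) (hA : 1 ≤ A) {W : ℕ → ℕ → ℝ} {D : ℤ → ℝ} {c : ℝ}
    (h : ∀ k k' : ℕ, W k k' ≤ D ((k' : ℤ) - k) + c) :
    tvr A (fun k => tvr A (fun k' => W k k')) ≤ dv A D + c := by
  refine (tt_mono A h).trans ?_
  rw [dv_eq A (fun n => D n + c), dv_add, dv_const A hA]

lemma nrm1 (H : ℕ) (F : ℕ → ZMod M → ℂ) (h : ∀ t, Bd (F t)) :
    ‖tv H (fun t => av (F t))‖ ≤ 1 :=
  norm_tv_le_one H _ (fun t => norm_av_le_one (h t))

end LinAux

open LinAux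

theorem lin_one (H A : ℕ) (hA : 1 ≤ A) (hAH : A ≤ H) (u : ZMod M) (g0 g1 : ZMod M → ℂ) (h0 : Bd g0) (h1 : Bd g1) :
    ‖tv H (fun t => av (fun x => g0 x * g1 (x + u * (t : ZMod M))))‖ ^ 2 ≤ Q2 A g1 u + 8 * (A : ℝ) / H := by
  refine (vdc_sq H A hA hAH g0 h0 (fun x t => g1 (x + u * (t : ZMod M))) (fun x t => h1 _)).trans ?_
  refine add_le_add_left ?_ _
  refine tvr_le H (Q2_nonneg A g1 u) (fun t _ => ?_)
  have e : (fun x : ZMod M => ‖tv A (fun k => g1 (x + u * ((t + k : ℕ) : ZMod M)))‖ ^ 2) =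
      (fun x : ZMod M => (fun y : ZMod M => ‖tv A (fun i => g1 (y + u * (i : ZMod M)))‖ ^ 2)
        (x + u * (t : ZMod M))) := by
    funext x
    have e1 : (fun k : ℕ => g1 (x + u * ((t + k : ℕ) : ZMod M))) =
        (fun i : ℕ => g1 (x + u * (t : ZMod M) + u * (i : ZMod M))) := by
      funext k
      congr 1
      push_cast
      ring
    simp only [e1]
  rw [e, avr_shift (fun y : ZMod M => ‖tv A (fun i => g1 (y + u * (i : ZMod M)))‖ ^ 2)]
  exact le_rfl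

theorem lin_two (H A : ℕ) (hA : 1 ≤ A) (hAH : A ≤ H) (u v : ZMod M) (g0 g1 g2 : ZMod M → ℂ) (h0 : Bd g0)
    (h1 : Bd g1) (h2 : Bd g2) :
    ‖tv H (fun t => av (fun x => g0 x * g1 (x + u * (t : ZMod M)) * g2 (x + v * (t : ZMod M))))‖ ^ 4 ≤
      dv A (fun n => Q2 A (Dl (v * (n : ZMod M)) g2) (v - u)) + 32 * (A : ℝ) / H := by
  set e : ℝ := 8 * (A : ℝ) / H with he
  have he0 : 0 ≤ e := by positivity
  have h32 : 32 * (A : ℝ) / H = 4 * e := by rw [he]; ring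
  set X := ‖tv H (fun t => av (fun x => g0 x * g1 (x + u * (t : ZMod M)) * g2 (x + v * (t : ZMod M))))‖
    with hX
  have hX0 : 0 ≤ X := norm_nonneg _
  have hX1 : X ≤ 1 := nrm1 H _ (fun t => Bd_mul (Bd_mul h0 (Bd_shift _ h1)) (Bd_shift _ h2))
  have hD0 : 0 ≤ dv A (fun n => Q2 A (Dl (v * (n : ZMod M)) g2) (v - u)) :=
    dv_nonneg A (fun k => Q2_nonneg A _ _)
  rw [h32]
  rcases lt_or_ge 1 e with h1e | he1
  · have : X ^ 4 ≤ 1 := pow_le_one₀ hX0 hX1
    linarith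
  set φ : ZMod M → ℕ → ℂ := fun x t => g1 (x + u * (t : ZMod M)) * g2 (x + v * (t : ZMod M)) with hφ
  have hφ1 : ∀ x t, ‖φ x t‖ ≤ 1 := fun x t => Bd_mul (Bd_shift _ h1) (Bd_shift _ h2) x
  have hφe : (fun t : ℕ => av (fun x => g0 x * g1 (x + u * (t : ZMod M)) * g2 (x + v * (t : ZMod M)))) =
      (fun t : ℕ => av (fun x => g0 x * φ x t)) := by
    funext t
    congr 1
    funext x
    rw [hφ, mul_assoc]
  set Z : ℕ → ℕ → ℝ := fun k k' =>
    ‖tv H (fun t => av (fun x => φ x (t + k) * (starRingEnd ℂ) (φ x (t + k'))))‖ with hZ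
  have hXZ : X ^ 2 ≤ tvr A (fun k => tvr A (fun k' => Z k k')) + e := by
    rw [hX, hφe]
    exact vdc_norm H A hA hAH g0 h0 φ hφ1
  have hZ0 : ∀ k k', 0 ≤ Z k k' := fun k k' => norm_nonneg _
  have hZ1 : ∀ k k', Z k k' ≤ 1 := fun k k' => nrm1 H _ (fun t =>
    Bd_mul (fun x => hφ1 x _) (Bd_conj (fun x => hφ1 x _)))
  have hZ2 : ∀ k k' : ℕ, Z k k' ^ 2 ≤
      (fun n : ℤ => Q2 A (Dl (v * (n : ZMod M)) g2) (v - u)) ((k' : ℤ) - k) + e := by
    intro k k'
    have e1 : (fun t : ℕ => av (fun x => φ x (t + k) * (starRingEnd ℂ) (φ x (t + k')))) =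
        (fun t : ℕ => av (fun x => (g1 (x + u * (k : ZMod M)) *
          (starRingEnd ℂ) (g1 (x + u * (k' : ZMod M)))) *
          (fun y => Dl (v * ((k' : ZMod M) - (k : ZMod M))) g2 (y + v * (k : ZMod M))) (x + (v - u) * (t : ZMod M)))) := by
      funext t
      rw [← av_shift (fun x => (g1 (x + u * (k : ZMod M)) *
          (starRingEnd ℂ) (g1 (x + u * (k' : ZMod M)))) *
          (fun y => Dl (v * ((k' : ZMod M) - (k : ZMod M))) g2 (y + v * (k : ZMod M))) (x + (v - u) * (t : ZMod M)))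
          (u * (t : ZMod M))]
      congr 1
      funext x
      have a1 : x + u * ((t + k : ℕ) : ZMod M) = x + u * (t : ZMod M) + u * (k : ZMod M) := by
        push_cast
        ring
      have a2 : x + u * ((t + k' : ℕ) : ZMod M) = x + u * (t : ZMod M) + u * (k' : ZMod M) := by
        push_cast
        ring
      have a3 : x + v * ((t + k : ℕ) : ZMod M) =
          x + u * (t : ZMod M) + (v - u) * (t : ZMod M) + v * (k : ZMod M) := by
        push_cast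
        ring
      have a4 : x + v * ((t + k' : ℕ) : ZMod M) =
          x + u * (t : ZMod M) + (v - u) * (t : ZMod M) + v * (k : ZMod M) +
            v * ((k' : ZMod M) - (k : ZMod M)) := by
        push_cast
        ring
      simp only [hφ, Dl, a1, a2, a3, a4, map_mul]
      ring
    have h3 := lin_one H A hA hAH (v - u) (fun x => g1 (x + u * (k : ZMod M)) *
          (starRingEnd ℂ) (g1 (x + u * (k' : ZMod M))))
          (fun y => Dl (v * ((k' : ZMod M) - (k : ZMod M))) g2 (y + v * (k : ZMod M)))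
          (Bd_mul (Bd_shift _ h1) (Bd_conj (Bd_shift _ h1))) (Bd_shift _ (Dl_Bd _ h2))
    rw [Q2_shift] at h3
    have e2 : (((k' : ℤ) - (k : ℤ) : ℤ) : ZMod M) = (k' : ZMod M) - (k : ZMod M) := by push_cast; rfl
    simp only [hZ, e1, e2]
    exact h3
  set Y := tvr A (fun k => tvr A (fun k' => Z k k')) with hY
  have hY0 : 0 ≤ Y := tt_nonneg A hZ0
  have hY1 : Y ≤ 1 := tt_le_one A hZ1
  have hY2 : Y ^ 2 ≤ dv A (fun n => Q2 A (Dl (v * (n : ZMod M)) g2) (v - u)) + e :=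
    (tt_sq A Z).trans (tt_bound A hA hZ2)
  have h5 : X ^ 4 ≤ (Y + e) ^ 2 := by
    calc X ^ 4 = (X ^ 2) ^ 2 := by ring
      _ ≤ (Y + e) ^ 2 := pow_le_pow_left₀ (by positivity) hXZ 2
  nlinarith [mul_nonneg he0 (sub_nonneg.2 hY1), mul_nonneg he0 (sub_nonneg.2 he1)]

theorem lin_three (H A : ℕ) (hA : 1 ≤ A) (hAH : A ≤ H) (u v w : ZMod M) (g0 g1 g2 g3 : ZMod M → ℂ) (h0 : Bd g0)
    (h1 : Bd g1) (h2 : Bd g2) (h3 : Bd g3) :
    ‖tv H (fun t => av (fun x => g0 x * g1 (x + u * (t : ZMod M)) * g2 (x + v * (t : ZMod M)) *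
        g3 (x + w * (t : ZMod M))))‖ ^ 8 ≤
      dv A (fun m => dv A (fun n => Q2 A (Dl ((w - u) * (n : ZMod M)) (Dl (w * (m : ZMod M)) g3)) (w - v))) +
        152 * (A : ℝ) / H := by
  set e : ℝ := 8 * (A : ℝ) / H with he
  have he0 : 0 ≤ e := by positivity
  have h32 : 152 * (A : ℝ) / H = 19 * e := by rw [he]; ring
  have h4e : 32 * (A : ℝ) / H = 4 * e := by rw [he]; ring
  set X := ‖tv H (fun t => av (fun x => g0 x * g1 (x + u * (t : ZMod M)) * g2 (x + v * (t : ZMod M)) *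
        g3 (x + w * (t : ZMod M))))‖ with hX
  have hX0 : 0 ≤ X := norm_nonneg _
  have hX1 : X ≤ 1 := nrm1 H _ (fun t => Bd_mul (Bd_mul (Bd_mul h0 (Bd_shift _ h1)) (Bd_shift _ h2))
    (Bd_shift _ h3))
  have hD0 : 0 ≤ dv A (fun m => dv A (fun n =>
      Q2 A (Dl ((w - u) * (n : ZMod M)) (Dl (w * (m : ZMod M)) g3)) (w - v))) :=
    dv_nonneg A (fun m => dv_nonneg A (fun k => Q2_nonneg A _ _))
  rw [h32]
  rcases lt_or_ge 1 e with h1e | he1
  · have : X ^ 8 ≤ 1 := pow_le_one₀ hX0 hX1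
    linarith
  set φ : ZMod M → ℕ → ℂ := fun x t =>
    g1 (x + u * (t : ZMod M)) * g2 (x + v * (t : ZMod M)) * g3 (x + w * (t : ZMod M)) with hφ
  have hφ1 : ∀ x t, ‖φ x t‖ ≤ 1 := fun x t =>
    Bd_mul (Bd_mul (Bd_shift _ h1) (Bd_shift _ h2)) (Bd_shift _ h3) x
  have hφe : (fun t : ℕ => av (fun x => g0 x * g1 (x + u * (t : ZMod M)) * g2 (x + v * (t : ZMod M)) *
        g3 (x + w * (t : ZMod M)))) =
      (fun t : ℕ => av (fun x => g0 x * φ x t)) := by
    funext t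
    congr 1
    funext x
    simp only [hφ]
    ring
  set Z : ℕ → ℕ → ℝ := fun k k' =>
    ‖tv H (fun t => av (fun x => φ x (t + k) * (starRingEnd ℂ) (φ x (t + k'))))‖ with hZ
  have hXZ : X ^ 2 ≤ tvr A (fun k => tvr A (fun k' => Z k k')) + e := by
    rw [hX, hφe]
    exact vdc_norm H A hA hAH g0 h0 φ hφ1
  have hZ0 : ∀ k k', 0 ≤ Z k k' := fun k k' => norm_nonneg _
  have hZ1 : ∀ k k', Z k k' ≤ 1 := fun k k' => nrm1 H _ (fun t =>
    Bd_mul (fun x => hφ1 x _) (Bd_conj (fun x => hφ1 x _)))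
  have hZ2 : ∀ k k' : ℕ, (Z k k' ^ 2) ^ 2 ≤
      (fun m : ℤ => dv A (fun n => Q2 A (Dl ((w - u) * (n : ZMod M)) (Dl (w * (m : ZMod M)) g3)) (w - v)))
        ((k' : ℤ) - k) + 4 * e := by
    intro k k'
    have e1 : (fun t : ℕ => av (fun x => φ x (t + k) * (starRingEnd ℂ) (φ x (t + k')))) =
        (fun t : ℕ => av (fun x => (fun y => g1 (y + u * (k : ZMod M)) *
          (starRingEnd ℂ) (g1 (y + u * (k' : ZMod M)))) x *
          (fun y => Dl (v * ((k' : ZMod M) - (k : ZMod M))) g2 (y + v * (k : ZMod M))) (x + (v - u) * (t : ZMod M)) *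
          (fun y => Dl (w * ((k' : ZMod M) - (k : ZMod M))) g3 (y + w * (k : ZMod M)))
            (x + (w - u) * (t : ZMod M)))) := by
      funext t
      rw [← av_shift (fun x => (fun y => g1 (y + u * (k : ZMod M)) *
          (starRingEnd ℂ) (g1 (y + u * (k' : ZMod M)))) x *
          (fun y => Dl (v * ((k' : ZMod M) - (k : ZMod M))) g2 (y + v * (k : ZMod M))) (x + (v - u) * (t : ZMod M)) *
          (fun y => Dl (w * ((k' : ZMod M) - (k : ZMod M))) g3 (y + w * (k : ZMod M)))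
            (x + (w - u) * (t : ZMod M)))
          (u * (t : ZMod M))]
      congr 1
      funext x
      have a1 : x + u * ((t + k : ℕ) : ZMod M) = x + u * (t : ZMod M) + u * (k : ZMod M) := by
        push_cast
        ring
      have a2 : x + u * ((t + k' : ℕ) : ZMod M) = x + u * (t : ZMod M) + u * (k' : ZMod M) := by
        push_cast
        ring
      have a3 : x + v * ((t + k : ℕ) : ZMod M) =
          x + u * (t : ZMod M) + (v - u) * (t : ZMod M) + v * (k : ZMod M) := by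
        push_cast
        ring
      have a4 : x + v * ((t + k' : ℕ) : ZMod M) =
          x + u * (t : ZMod M) + (v - u) * (t : ZMod M) + v * (k : ZMod M) +
            v * ((k' : ZMod M) - (k : ZMod M)) := by
        push_cast
        ring
      have a5 : x + w * ((t + k : ℕ) : ZMod M) =
          x + u * (t : ZMod M) + (w - u) * (t : ZMod M) + w * (k : ZMod M) := by
        push_cast
        ring
      have a6 : x + w * ((t + k' : ℕ) : ZMod M) =
          x + u * (t : ZMod M) + (w - u) * (t : ZMod M) + w * (k : ZMod M) +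
            w * ((k' : ZMod M) - (k : ZMod M)) := by
        push_cast
        ring
      simp only [hφ, Dl, a1, a2, a3, a4, a5, a6, map_mul]
      ring
    have h5 := lin_two H A hA hAH (v - u) (w - u) (fun x => g1 (x + u * (k : ZMod M)) *
          (starRingEnd ℂ) (g1 (x + u * (k' : ZMod M))))
          (fun y => Dl (v * ((k' : ZMod M) - (k : ZMod M))) g2 (y + v * (k : ZMod M)))
          (fun y => Dl (w * ((k' : ZMod M) - (k : ZMod M))) g3 (y + w * (k : ZMod M)))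
          (Bd_mul (Bd_shift _ h1) (Bd_conj (Bd_shift _ h1))) (Bd_shift _ (Dl_Bd _ h2))
          (Bd_shift _ (Dl_Bd _ h3))
    have e3 : (fun n : ℤ => Q2 A (Dl ((w - u) * (n : ZMod M))
          (fun y => Dl (w * ((k' : ZMod M) - (k : ZMod M))) g3 (y + w * (k : ZMod M)))) (w - u - (v - u))) =
        (fun n : ℤ => Q2 A (Dl ((w - u) * (n : ZMod M)) (Dl (w * ((k' : ZMod M) - (k : ZMod M))) g3)) (w - v)) := by
      funext n
      rw [Dl_shift, Q2_shift, sub_sub_sub_cancel_right]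
    rw [e3, h4e] at h5
    have e2 : (((k' : ℤ) - (k : ℤ) : ℤ) : ZMod M) = (k' : ZMod M) - (k : ZMod M) := by push_cast; rfl
    have e4 : (Z k k' ^ 2) ^ 2 = Z k k' ^ 4 := by ring
    rw [e4]
    simp only [hZ, e1, e2]
    exact h5
  set Y := tvr A (fun k => tvr A (fun k' => Z k k')) with hY
  have hY0 : 0 ≤ Y := tt_nonneg A hZ0
  have hY1 : Y ≤ 1 := tt_le_one A hZ1
  have hY2 : Y ^ 4 ≤ dv A (fun m => dv A (fun n =>
      Q2 A (Dl ((w - u) * (n : ZMod M)) (Dl (w * (m : ZMod M)) g3)) (w - v))) + 4 * e := by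
    calc Y ^ 4 = (Y ^ 2) ^ 2 := by ring
      _ ≤ (tvr A (fun k => tvr A (fun k' => Z k k' ^ 2))) ^ 2 :=
          pow_le_pow_left₀ (by positivity) (tt_sq A Z) 2
      _ ≤ tvr A (fun k => tvr A (fun k' => (Z k k' ^ 2) ^ 2)) := tt_sq A _
      _ ≤ _ := tt_bound A hA hZ2
  have h6 : X ^ 8 ≤ (Y + e) ^ 4 := by
    calc X ^ 8 = (X ^ 2) ^ 4 := by ring
      _ ≤ (Y + e) ^ 4 := pow_le_pow_left₀ (by positivity) hXZ 4
  have h7 : (Y + e) ^ 4 ≤ Y ^ 4 + 15 * e := by
    have hY3 : Y ^ 3 ≤ 1 := pow_le_one₀ hY0 hY1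
    have hY22 : Y ^ 2 ≤ 1 := pow_le_one₀ hY0 hY1
    have e2 : e ^ 2 ≤ e := by nlinarith
    have e3 : e ^ 3 ≤ e := by
      calc e ^ 3 = e ^ 2 * e := by ring
        _ ≤ 1 * e := mul_le_mul_of_nonneg_right (pow_le_one₀ he0 he1) he0
        _ = e := one_mul e
    have e4 : e ^ 4 ≤ e := by
      calc e ^ 4 = e ^ 3 * e := by ring
        _ ≤ 1 * e := mul_le_mul_of_nonneg_right (pow_le_one₀ he0 he1) he0
        _ = e := one_mul e
    have b1 : Y ^ 3 * e ≤ 1 * e := mul_le_mul_of_nonneg_right hY3 he0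
    have b2 : Y ^ 2 * e ^ 2 ≤ 1 * e := mul_le_mul hY22 e2 (by positivity) zero_le_one
    have b3 : Y * e ^ 3 ≤ 1 * e := mul_le_mul hY1 e3 (by positivity) zero_le_one
    have b : (Y + e) ^ 4 = Y ^ 4 + 4 * (Y ^ 3 * e) + 6 * (Y ^ 2 * e ^ 2) + 4 * (Y * e ^ 3) + e ^ 4 := by
      ring
    rw [b]
    linarith
  linarith

end Pool.Agent.NLT
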