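import Pool.Agent.Lib.NLT.BasicC

/-!
# Module LowA: Cauchy-Schwarz for degree lowering, two derivatives

`G4 f h1 h1' h2 h2' x = conj (f (x + h1 + h2) * conj f (x + h1 + h2') * conj f (x + h1' + h2) * f (x + h1' + h2'))`.

PROOF. `F = FF a c d H f0 f1 = tv_t φ t`, `φ t x = conj (f0 (x - P t) * f1 (x - P t + a t))`, `P = PP c d`. Expand
`ft (Dl h1 (Dl h2 F)) ξ = av_x F x * conj F (x + h1) * conj F (x + h2) * F (x + h1 + h2) * chi (-ξ) x` (check: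
`Dl h1 (Dl h2 F) x = Dl h2 F x * conj (Dl h2 F (x + h1))`) and write the factor `F (x + h1 + h2) = tv_t φ t (x + h1 + h2)`. The quantity is
`Z = tv_t av_x av_h1 [F x conj F (x + h1)] * av_h2 b h1 h2 conj F (x + h2) chi (-ξ h1 h2) x φ t (x + h1 + h2)`.
Cauchy-Schwarz over `(t, x, h1)` (the bracket is bounded by 1): `‖Z‖^2 ≤ tv_t av_x av_h1 av_h2 av_h2'
 b h1 h2 conj (b h1 h2') conj F (x + h2) F (x + h2') chi (-(ξ h1 h2 - ξ h1 h2')) x φ t (x + h1 + h2) conj φ t (x + h1 + h2')`.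
Cauchy-Schwarz over `(t, x, h2, h2')` removes `conj F (x + h2) F (x + h2')`: `‖Z‖^4 ≤ av_h1 av_h1' av_h2 av_h2'
 b b b b * tv_t av_x chi (-Ξ) x φ t (x + h1 + h2) conj φ t (x + h1 + h2') conj φ t (x + h1' + h2) φ t (x + h1' + h2')`,
`Ξ = ξ h1 h2 - ξ h1 h2' - ξ h1' h2 + ξ h1' h2'`. Triangle inequality; the product of the four `φ t` is
`G4 f0 .. (x - P t) * G4 f1 .. (x - P t + a t)`; shift `x` by `P t`.
-/

set_option autoImplicit false

open Finset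

namespace Pool.Agent.NLT

open Pool.Agent.HLT

variable {M : ℕ} [NeZero M]

noncomputable def G4 (f : ZMod M → ℂ) (h1 h1' h2 h2' : ZMod M) : ZMod M → ℂ := fun x =>
  (starRingEnd ℂ) (f (x + h1 + h2) * (starRingEnd ℂ) (f (x + h1 + h2')) * (starRingEnd ℂ) (f (x + h1' + h2)) *
    f (x + h1' + h2'))

namespace LowAAux

lemma mul_le_one' {a b : ℝ} (ha : 0 ≤ a) (_hb : 0 ≤ b) (ha' : a ≤ 1) (hb' : b ≤ 1) : a * b ≤ 1 := by
  nlinarith

lemma tv_ofReal (H : ℕ) (F : ℕ → ℝ) : tv H (fun t => (F t : ℂ)) = (tvr H F : ℂ) := by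
  unfold tv tvr
  push_cast
  rfl

lemma norm_av_sq' (f : ZMod M → ℂ) :
    ((‖av f‖ ^ 2 : ℝ) : ℂ) = av (fun y => av (fun z => f y * (starRingEnd ℂ) (f z))) := by
  have h : ∀ y, av (fun z => f y * (starRingEnd ℂ) (f z)) = f y * (starRingEnd ℂ) (av f) := by
    intro y
    rw [av_mul_left, av_conj]
  simp_rw [h]
  rw [av_mul_right, Complex.mul_conj, Complex.normSq_eq_norm_sq]

/-- move `tv av` inside -/
lemma tva_comm (H : ℕ) (G : ℕ → ZMod M → ZMod M → ℂ) :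
    tv H (fun t => av (fun x => av (fun h => G t x h))) = av (fun h => tv H (fun t => av (fun x => G t x h))) := by
  rw [← tv_av_comm]
  congr 1
  funext t
  rw [av_comm]

lemma tvr_avr_sq (H : ℕ) (q : ℕ → ZMod M → ℂ) :
    ‖tv H (fun t => av (fun x => q t x))‖ ^ 2 ≤ tvr H (fun t => avr (fun x => ‖q t x‖ ^ 2)) :=
  (norm_tv_sq_le _ _).trans (tvr_mono _ fun _ _ => norm_av_sq_le _)

/-- first Cauchy-Schwarz -/
lemma cs_one (H : ℕ) (p : ZMod M → ZMod M → ℂ) (q : ℕ → ZMod M → ZMod M → ℂ) (hp : ∀ x h, ‖p x h‖ ≤ 1) :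
    ‖tv H (fun t => av (fun x => av (fun h => p x h * q t x h)))‖ ^ 2 ≤
      tvr H (fun t => avr (fun x => avr (fun h => ‖q t x h‖ ^ 2))) :=
  (tvr_avr_sq _ _).trans (tvr_mono _ fun _ _ => avr_mono fun _ => norm_av_mul_sq_le _ _ (hp _))

/-- second Cauchy-Schwarz -/
lemma cs_two (H : ℕ) (p : ZMod M → ZMod M → ZMod M → ℂ) (q : ℕ → ZMod M → ZMod M → ZMod M → ℂ)
    (hp : ∀ x h h', ‖p x h h'‖ ≤ 1) :
    ‖tv H (fun t => av (fun x => av (fun h => av (fun h' => p x h h' * q t x h h'))))‖ ^ 2 ≤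
      tvr H (fun t => avr (fun x => avr (fun h => avr (fun h' => ‖q t x h h'‖ ^ 2)))) :=
  (tvr_avr_sq _ _).trans (tvr_mono _ fun _ _ => avr_mono fun _ =>
    (norm_av_sq_le _).trans (avr_mono fun _ => norm_av_mul_sq_le _ _ (hp _ _)))

lemma ofReal_av2 (f : ZMod M → ZMod M → ℝ) :
    ((avr (fun x => avr (fun y => f x y)) : ℝ) : ℂ) = av (fun x => av (fun y => (f x y : ℂ))) := by
  rw [← av_ofReal]
  congr 1
  funext x
  rw [← av_ofReal]

lemma av3_comm (g : ZMod M → ZMod M → ZMod M → ℂ) :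
    av (fun h1 => av (fun h2 => av (fun h3 => g h1 h2 h3))) =
      av (fun h2 => av (fun h3 => av (fun h1 => g h1 h2 h3))) := by
  rw [av_comm]
  congr 1
  funext h2
  rw [av_comm]

lemma av4_comm (g : ZMod M → ZMod M → ZMod M → ZMod M → ℂ) :
    av (fun h1 => av (fun h2 => av (fun h3 => av (fun h4 => g h1 h2 h3 h4)))) =
      av (fun h3 => av (fun h4 => av (fun h1 => av (fun h2 => g h1 h2 h3 h4)))) := by
  have e1 : ∀ h1, av (fun h2 => av (fun h3 => av (fun h4 => g h1 h2 h3 h4))) =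
      av (fun h3 => av (fun h4 => av (fun h2 => g h1 h2 h3 h4))) := fun h1 => av3_comm _
  simp_rw [e1]
  exact av3_comm (fun h1 h3 h4 => av (fun h2 => g h1 h2 h3 h4))

/-- the dual kernel -/
noncomputable def ph (a c d : ℤ) (f0 f1 : ZMod M → ℂ) (t : ℕ) (x : ZMod M) : ℂ :=
  (starRingEnd ℂ) (f0 (x - ((PP c d t : ℤ) : ZMod M)) *
    f1 (x - ((PP c d t : ℤ) : ZMod M) + ((a * (t : ℤ) : ℤ) : ZMod M)))

lemma FF_eq (a c d : ℤ) (H : ℕ) (f0 f1 : ZMod M → ℂ) (x : ZMod M) :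
    FF a c d H f0 f1 x = tv H (fun t => ph a c d f0 f1 t x) := rfl

lemma norm_ph_le (a c d : ℤ) {f0 f1 : ZMod M → ℂ} (h0 : Bd f0) (h1 : Bd f1) (t : ℕ) (x : ZMod M) :
    ‖ph a c d f0 f1 t x‖ ≤ 1 := by
  unfold ph
  rw [RCLike.norm_conj, norm_mul]
  exact mul_le_one' (norm_nonneg _) (norm_nonneg _) (h0 _) (h1 _)

lemma norm_FF_le (a c d : ℤ) (H : ℕ) {f0 f1 : ZMod M → ℂ} (h0 : Bd f0) (h1 : Bd f1) (x : ZMod M) :
    ‖FF a c d H f0 f1 x‖ ≤ 1 := by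
  rw [FF_eq]
  exact norm_tv_le_one _ _ fun t => norm_ph_le a c d h0 h1 t x

/-- the inner kernel after the first step -/
noncomputable def K1 (φ : ℕ → ZMod M → ℂ) (F : ZMod M → ℂ) (b : ZMod M → ZMod M → ℂ)
    (ξ : ZMod M → ZMod M → ZMod M) (t : ℕ) (x h1 h2 : ZMod M) : ℂ :=
  b h1 h2 * (starRingEnd ℂ) (F (x + h2)) * chi (-ξ h1 h2) x * φ t (x + h1 + h2)

/-- the inner kernel after the second step -/
noncomputable def K2 (φ : ℕ → ZMod M → ℂ) (b : ZMod M → ZMod M → ℂ)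
    (ξ : ZMod M → ZMod M → ZMod M) (t : ℕ) (x h1 h2 h2' : ZMod M) : ℂ :=
  b h1 h2 * (starRingEnd ℂ) (b h1 h2') * (chi (-ξ h1 h2) x * (starRingEnd ℂ) (chi (-ξ h1 h2') x)) *
    (φ t (x + h1 + h2) * (starRingEnd ℂ) (φ t (x + h1 + h2')))

lemma Z_eq (φ : ℕ → ZMod M → ℂ) (F : ZMod M → ℂ) (H : ℕ) (hF : ∀ x, F x = tv H (fun t => φ t x))
    (b : ZMod M → ZMod M → ℂ) (ξ : ZMod M → ZMod M → ZMod M) :
    av (fun h1 => av (fun h2 => b h1 h2 * ft (Dl h1 (Dl h2 F)) (ξ h1 h2))) =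
      tv H (fun t => av (fun x => av (fun h1 => (F x * (starRingEnd ℂ) (F (x + h1))) *
        av (fun h2 => K1 φ F b ξ t x h1 h2)))) := by
  have e1 : ∀ h1 h2, b h1 h2 * ft (Dl h1 (Dl h2 F)) (ξ h1 h2) =
      tv H (fun t => av (fun x => (F x * (starRingEnd ℂ) (F (x + h1))) * K1 φ F b ξ t x h1 h2)) := by
    intro h1 h2
    rw [tv_av_comm]
    unfold ft
    rw [← av_mul_left]
    congr 1
    funext x
    have e2 : tv H (fun t => (F x * (starRingEnd ℂ) (F (x + h1))) * K1 φ F b ξ t x h1 h2) =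
        (F x * (starRingEnd ℂ) (F (x + h1))) * (b h1 h2 * (starRingEnd ℂ) (F (x + h2)) * chi (-ξ h1 h2) x) *
          F (x + h1 + h2) := by
      rw [hF (x + h1 + h2), ← tv_mul_left]
      congr 1
      funext t
      unfold K1
      ring
    rw [e2]
    unfold Dl
    simp only [map_mul, Complex.conj_conj]
    ring
  simp_rw [e1]
  have e3 : ∀ h1, av (fun h2 => tv H (fun t => av (fun x => (F x * (starRingEnd ℂ) (F (x + h1))) *
      K1 φ F b ξ t x h1 h2))) =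
      tv H (fun t => av (fun x => (F x * (starRingEnd ℂ) (F (x + h1))) * av (fun h2 => K1 φ F b ξ t x h1 h2))) := by
    intro h1
    rw [← tva_comm]
    simp_rw [av_mul_left]
  simp_rw [e3]
  rw [← tva_comm]

lemma step_one (φ : ℕ → ZMod M → ℂ) (F : ZMod M → ℂ) (H : ℕ) (b : ZMod M → ZMod M → ℂ)
    (ξ : ZMod M → ZMod M → ZMod M) :
    ((tvr H (fun t => avr (fun x => avr (fun h1 => ‖av (fun h2 => K1 φ F b ξ t x h1 h2)‖ ^ 2))) : ℝ) : ℂ) =
      tv H (fun t => av (fun x => av (fun h2 => av (fun h2' =>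
        ((starRingEnd ℂ) (F (x + h2)) * F (x + h2')) * av (fun h1 => K2 φ b ξ t x h1 h2 h2'))))) := by
  rw [← tv_ofReal]
  congr 1
  funext t
  rw [ofReal_av2]
  congr 1
  funext x
  simp_rw [norm_av_sq']
  rw [av3_comm]
  congr 1
  funext h2
  congr 1
  funext h2'
  rw [← av_mul_left]
  congr 1
  funext h1
  unfold K1 K2
  simp only [map_mul, Complex.conj_conj]
  ring

lemma step_two (φ : ℕ → ZMod M → ℂ) (H : ℕ) (b : ZMod M → ZMod M → ℂ)
    (ξ : ZMod M → ZMod M → ZMod M) :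
    ((tvr H (fun t => avr (fun x => avr (fun h2 => avr (fun h2' => ‖av (fun h1 => K2 φ b ξ t x h1 h2 h2')‖ ^ 2)))) : ℝ) : ℂ) =
      av (fun h1 => av (fun h1' => av (fun h2 => av (fun h2' => tv H (fun t => av (fun x =>
        K2 φ b ξ t x h1 h2 h2' * (starRingEnd ℂ) (K2 φ b ξ t x h1' h2 h2'))))))) := by
  have e1 : ((tvr H (fun t => avr (fun x => avr (fun h2 => avr (fun h2' =>
      ‖av (fun h1 => K2 φ b ξ t x h1 h2 h2')‖ ^ 2)))) : ℝ) : ℂ) =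
      tv H (fun t => av (fun x => av (fun h1 => av (fun h1' => av (fun h2 => av (fun h2' =>
        K2 φ b ξ t x h1 h2 h2' * (starRingEnd ℂ) (K2 φ b ξ t x h1' h2 h2'))))))) := by
    rw [← tv_ofReal]
    congr 1
    funext t
    rw [← av_ofReal]
    congr 1
    funext x
    rw [ofReal_av2]
    simp_rw [norm_av_sq']
    exact av4_comm _
  rw [e1, tva_comm]
  congr 1
  funext h1
  rw [tva_comm]
  congr 1
  funext h1'
  rw [tva_comm]
  congr 1
  funext h2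
  rw [tva_comm]

end LowAAux

open LowAAux

lemma G4_Bd {f : ZMod M → ℂ} (hf : Bd f) (h1 h1' h2 h2' : ZMod M) : Bd (G4 f h1 h1' h2 h2') := by
  intro x
  unfold G4
  rw [RCLike.norm_conj, norm_mul, norm_mul, norm_mul, RCLike.norm_conj, RCLike.norm_conj]
  have e1 := mul_le_one' (norm_nonneg (f (x + h1 + h2))) (norm_nonneg (f (x + h1 + h2'))) (hf _) (hf _)
  have e2 := mul_le_one' (mul_nonneg (norm_nonneg (f (x + h1 + h2))) (norm_nonneg (f (x + h1 + h2'))))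
    (norm_nonneg (f (x + h1' + h2))) e1 (hf _)
  exact mul_le_one' (mul_nonneg (mul_nonneg (norm_nonneg _) (norm_nonneg _)) (norm_nonneg _))
    (norm_nonneg _) e2 (hf _)

theorem low_cs_two (a c d : ℤ) (H : ℕ) (f0 f1 : ZMod M → ℂ) (h0 : Bd f0) (h1 : Bd f1)
    (b : ZMod M → ZMod M → ℂ) (hb : ∀ h1 h2, ‖b h1 h2‖ ≤ 1) (ξ : ZMod M → ZMod M → ZMod M) :
    ‖av (fun h1 => av (fun h2 => b h1 h2 * ft (Dl h1 (Dl h2 (FF a c d H f0 f1))) (ξ h1 h2)))‖ ^ 4 ≤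
      avr (fun h1 => avr (fun h1' => avr (fun h2 => avr (fun h2' =>
        ‖b h1 h2‖ * ‖b h1 h2'‖ * ‖b h1' h2‖ * ‖b h1' h2'‖ *
        ‖tv H (fun t => av (fun x => G4 f0 h1 h1' h2 h2' x *
          G4 f1 h1 h1' h2 h2' (x + ((a * (t : ℤ) : ℤ) : ZMod M)) *
          chi (-(ξ h1 h2 - ξ h1 h2' - ξ h1' h2 + ξ h1' h2')) (x + ((PP c d t : ℤ) : ZMod M))))‖)))) := by
  set F := FF a c d H f0 f1 with hFd
  have hF1 : ∀ x, ‖F x‖ ≤ 1 := fun x => norm_FF_le a c d H h0 h1 x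
  have hF : ∀ x, F x = tv H (fun t => ph a c d f0 f1 t x) := fun x => rfl
  have hbr : ∀ x h, ‖F x * (starRingEnd ℂ) (F (x + h))‖ ≤ 1 := by
    intro x h
    rw [norm_mul, RCLike.norm_conj]
    exact mul_le_one' (norm_nonneg _) (norm_nonneg _) (hF1 _) (hF1 _)
  have hbr2 : ∀ x h h', ‖(starRingEnd ℂ) (F (x + h)) * F (x + h')‖ ≤ 1 := by
    intro x h h'
    rw [norm_mul, RCLike.norm_conj]
    exact mul_le_one' (norm_nonneg _) (norm_nonneg _) (hF1 _) (hF1 _)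
  set Z := av (fun h1 => av (fun h2 => b h1 h2 * ft (Dl h1 (Dl h2 F)) (ξ h1 h2))) with hZ
  set X := tvr H (fun t => avr (fun x => avr (fun h1 =>
    ‖av (fun h2 => K1 (ph a c d f0 f1) F b ξ t x h1 h2)‖ ^ 2))) with hX
  set Y := tvr H (fun t => avr (fun x => avr (fun h2 => avr (fun h2' =>
    ‖av (fun h1 => K2 (ph a c d f0 f1) b ξ t x h1 h2 h2')‖ ^ 2)))) with hY
  have s1 : ‖Z‖ ^ 2 ≤ X := by
    rw [hZ, Z_eq (ph a c d f0 f1) F H hF b ξ]
    exact cs_one H _ _ hbr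
  have s2 : X ^ 2 ≤ Y := by
    have e : ‖(X : ℂ)‖ ^ 2 ≤ Y := by
      rw [hX, step_one]
      exact cs_two H _ _ hbr2
    rwa [Complex.norm_real, Real.norm_eq_abs, sq_abs] at e
  have s3 : Y ≤ ‖(Y : ℂ)‖ := by
    rw [Complex.norm_real, Real.norm_eq_abs]
    exact le_abs_self _
  have s4 : ‖Z‖ ^ 4 ≤ X ^ 2 := by
    have e : ‖Z‖ ^ 4 = (‖Z‖ ^ 2) ^ 2 := by ring
    rw [e]
    exact pow_le_pow_left₀ (sq_nonneg _) s1 2
  refine s4.trans (s2.trans (s3.trans ?_))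
  rw [hY, step_two]
  refine (norm_av_le _).trans (avr_mono fun k1 => (norm_av_le _).trans (avr_mono fun k1' =>
    (norm_av_le _).trans (avr_mono fun k2 => (norm_av_le _).trans (avr_mono fun k2' => ?_))))
  have e1 : tv H (fun t => av (fun x => K2 (ph a c d f0 f1) b ξ t x k1 k2 k2' *
      (starRingEnd ℂ) (K2 (ph a c d f0 f1) b ξ t x k1' k2 k2'))) =
      (b k1 k2 * (starRingEnd ℂ) (b k1 k2') * (starRingEnd ℂ) (b k1' k2) * b k1' k2') *
      tv H (fun t => av (fun x => G4 f0 k1 k1' k2 k2' x *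
          G4 f1 k1 k1' k2 k2' (x + ((a * (t : ℤ) : ℤ) : ZMod M)) *
          chi (-(ξ k1 k2 - ξ k1 k2' - ξ k1' k2 + ξ k1' k2')) (x + ((PP c d t : ℤ) : ZMod M)))) := by
    rw [← tv_mul_left]
    congr 1
    funext t
    rw [← av_mul_left]
    rw [← av_shift_sub (fun x => b k1 k2 * (starRingEnd ℂ) (b k1 k2') * (starRingEnd ℂ) (b k1' k2) * b k1' k2' *
      (G4 f0 k1 k1' k2 k2' x * G4 f1 k1 k1' k2 k2' (x + ((a * (t : ℤ) : ℤ) : ZMod M)) *
          chi (-(ξ k1 k2 - ξ k1 k2' - ξ k1' k2 + ξ k1' k2')) (x + ((PP c d t : ℤ) : ZMod M))))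
      ((PP c d t : ℤ) : ZMod M)]
    congr 1
    funext x
    have ec : chi (-(ξ k1 k2 - ξ k1 k2' - ξ k1' k2 + ξ k1' k2')) (x - ((PP c d t : ℤ) : ZMod M) +
        ((PP c d t : ℤ) : ZMod M)) =
        chi (-ξ k1 k2) x * (starRingEnd ℂ) (chi (-ξ k1 k2') x) *
          ((starRingEnd ℂ) (chi (-ξ k1' k2) x) * chi (-ξ k1' k2') x) := by
      rw [sub_add_cancel]
      have : -(ξ k1 k2 - ξ k1 k2' - ξ k1' k2 + ξ k1' k2') =
        (-ξ k1 k2 - -ξ k1 k2') + (-ξ k1' k2' - -ξ k1' k2) := by ring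
      rw [this, chi_add_left, chi_sub_left, chi_sub_left]
      ring
    rw [ec]
    have ep : ∀ u v : ZMod M, x + u + v - ((PP c d t : ℤ) : ZMod M) = x - ((PP c d t : ℤ) : ZMod M) + u + v := by
      intro u v
      ring
    have eq : ∀ u v : ZMod M, x + u + v - ((PP c d t : ℤ) : ZMod M) + ((a * (t : ℤ) : ℤ) : ZMod M) =
        x - ((PP c d t : ℤ) : ZMod M) + ((a * (t : ℤ) : ℤ) : ZMod M) + u + v := by
      intro u v
      ring
    unfold K2 G4 ph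
    simp only [map_mul, Complex.conj_conj]
    rw [eq, eq, eq, eq, ep, ep, ep, ep]
    ring
  rw [e1, norm_mul]
  simp only [norm_mul, RCLike.norm_conj]
  exact le_rfl

end Pool.Agent.NLT
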