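import Pool.Agent.Lib.NLT.WDefs
import Pool.Agent.Lib.VN.Final

/-!
# Nonlinear triples: parameter sets with the mean square property
-/

set_option autoImplicit false

open Finset Filter

namespace Pool.Agent.NLT

open Pool.Agent.HLB Pool.Agent.HL Pool.Agent.HLT Pool.Agent.HLU

/-- Mean square property of a parameter set `Ω` with `r` shift maps `s`. -/
def MSQ {τ : Type} (r A K B x : ℕ) (Ω : Finset τ) (s : τ → Fin r → ℕ) : Prop :=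
  (∀ t ∈ Ω, ∀ i, s t i ≤ x) ∧
  ∀ (j : Fin r) (w : ℕ → ℂ) (G : Fin r → ℕ → ℝ), (∀ n ∈ Icc 1 x, ‖w n‖ ≤ Real.log x ^ K) →
    (∀ i, ∀ n ∈ Icc 1 (2 * x), |G i n| ≤ Real.log x ^ K) → G j = ff (zA A x) →
    ∑ t ∈ Ω, ‖∑ n ∈ Icc 1 x, w n * ∏ i, (G i (n + s t i) : ℂ)‖ ^ 2 ≤
      (Ω.card : ℝ) * ((x : ℝ) ^ 2 / Real.log x ^ B)

/-- Independence of every sequence and the Hardy-Littlewood formula, for almost all parameters. -/
def UBO {τ : Type} (r K A B x : ℕ) (Ω : Finset τ) (s : τ → Fin r → ℕ) : Prop :=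
  ∀ w : ℕ → ℂ, (∀ n ∈ Icc 1 x, ‖w n‖ ≤ Real.log x ^ K) → ∀ c : ℕ, c ≤ x →
    ∃ E ⊆ Ω, (E.card : ℝ) ≤ (Ω.card : ℝ) / Real.log x ^ A ∧
      ∀ t ∈ Ω, t ∉ E →
        (∀ y : ℕ, y ≤ x →
          ‖∑ n ∈ Icc 1 y, w n * ((∏ i, G0 (n + s t i) - ∏ i, G1 (zA B x) (n + s t i) : ℝ) : ℂ)‖ ≤
            x / Real.log x ^ A) ∧
        (Function.Injective (Fin.cons c (s t) : Fin (r + 1) → ℕ) → ∀ y : ℕ, y ≤ x →
          |(((Icc 1 y).filter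
              (fun n : ℕ => ∀ i, (n + (Fin.cons c (s t) : Fin (r + 1) → ℕ) i).Prime)).card : ℝ) -
            SI (Fin.cons c (s t) : Fin (r + 1) → ℕ) *
              ∑ n ∈ Icc 2 y, hl univ (Fin.cons c (s t) : Fin (r + 1) → ℕ) n| ≤ x / Real.log x ^ A)

end Pool.Agent.NLT
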