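import Pool.Agent.Lib.NLT.MsqW

/-!
# Module MsqHL: the Hardy-Littlewood formula for almost all parameters

PROOF: copy of VN/HLMs.lean (`fixed_ms`, `hl_ms`) and of `univ_ms` (VN/Final.lean) with the parameter set `Ω : Finset τ` in place of
`Fintype.piFinset T`, the shifts `s t` in place of `t` (`s t i ≤ x` by the first part of `MSQ`) and `weights_msq`,
`weights_prime_msq` in place of `weights_ms`, `weights_prime_ms`. `MSQ` is monotone in `K`, `B` (for `1 ≤ log x`), as in `MSP.mono`.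
-/

set_option autoImplicit false

open Finset Filter

namespace Pool.Agent.NLT

open Pool.Agent.HLB Pool.Agent.HL Pool.Agent.HLT Pool.Agent.HLU

theorem MSQ_mono {τ : Type} {r A K K' B B' x : ℕ} {Ω : Finset τ} {s : τ → Fin r → ℕ} (h : MSQ r A K' B' x Ω s)
    (hK : K ≤ K') (hB : B ≤ B') (hL : 1 ≤ Real.log x) : MSQ r A K B x Ω s := by
  refine ⟨h.1, fun j w G hw hG hj => ?_⟩
  have hKK : Real.log x ^ K ≤ Real.log x ^ K' := pow_le_pow_right₀ hL hK
  refine (h.2 j w G (fun n hn => (hw n hn).trans hKK) (fun i n hn => (hG i n hn).trans hKK)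
    hj).trans ?_
  refine mul_le_mul_of_nonneg_left ?_ (Nat.cast_nonneg _)
  have hL0 : 0 < Real.log x := by linarith
  exact div_le_div_of_nonneg_left (by positivity) (by positivity) (pow_le_pow_right₀ hL hB)

namespace MsqHLAux

theorem fixed_msq {τ : Type} (m A : ℕ) : ∃ K' B : ℕ, ∀ A' : ℕ, ∀ᶠ x : ℕ in atTop,
    ∀ (Ω : Finset τ) (s : τ → Fin m → ℕ), MSQ m A' K' B x Ω s → ∀ c : ℕ, c ≤ x →
    ∃ E ⊆ Ω, (E.card : ℝ) ≤ (Ω.card : ℝ) / Real.log x ^ A ∧
      ∀ t ∈ Ω, t ∉ E → ∀ y : ℕ, y ≤ x →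
        |∑ n ∈ Icc 1 y, (pl univ (Fin.cons c (s t) : Fin (m + 1) → ℕ) n -
          pn (zA A' x) univ (Fin.cons c (s t) : Fin (m + 1) → ℕ) n)| ≤ x / Real.log x ^ A := by
  classical
  obtain ⟨K1, B1, h1⟩ := weights_msq (τ := τ) m 2 (A + 1)
  refine ⟨K1, B1, fun A' => ?_⟩
  filter_upwards [h1 A', VK.first_all m (A + 1) A', ev_log 2] with x h1 h2 hL Ω s hΩ c hc
  have hL0 : 0 < Real.log x := by linarith
  have hL1 : 1 ≤ Real.log x := by linarith
  obtain ⟨E1, hE1, hE1c, hE1'⟩ := h1 Ω s hΩ univ (fun n => (lp (n + c) : ℂ))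
    (fun n hn => by
      rw [Complex.norm_real, Real.norm_eq_abs, abs_of_nonneg (lp_nonneg _)]
      rw [mem_Icc] at hn
      exact lp_le_sq hL (by omega))
  refine ⟨E1, hE1, hE1c.trans ?_, ?_⟩
  · exact div_le_div_of_nonneg_left (Nat.cast_nonneg _)
      (by positivity) (pow_le_pow_right₀ hL1 (by omega))
  · intro t ht htE y hy
    have a1 := hE1' t ht htE y hy
    have a2 := h2 c hc (s t) (hΩ.1 t ht) y hy
    have e : ∑ n ∈ Icc 1 y, (pl univ (Fin.cons c (s t) : Fin (m + 1) → ℕ) n -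
          pn (zA A' x) univ (Fin.cons c (s t) : Fin (m + 1) → ℕ) n) =
        ∑ n ∈ Icc 1 y, lp (n + c) * (pl univ (s t) n - pn (zA A' x) univ (s t) n) +
          ∑ n ∈ Icc 1 y, ff (zA A' x) (n + c) * pn (zA A' x) univ (s t) n := by
      rw [← Finset.sum_add_distrib]
      refine Finset.sum_congr rfl fun n _ => ?_
      rw [pl_cons, pn_cons]
      unfold ff
      ring
    rw [e]
    have a1' : |∑ n ∈ Icc 1 y, lp (n + c) * (pl univ (s t) n - pn (zA A' x) univ (s t) n)| ≤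
        x / Real.log x ^ (A + 1) := by
      refine le_trans (le_of_eq ?_) a1
      rw [← Real.norm_eq_abs, ← Complex.norm_real]
      congr 1
      push_cast
      rfl
    refine (abs_add_le _ _).trans ((add_le_add a1' a2).trans ?_)
    have hx0 : (0 : ℝ) ≤ x := Nat.cast_nonneg x
    rw [← two_mul, pow_succ, ← mul_div_assoc, div_le_div_iff₀ (by positivity) (by positivity)]
    have h7 : 0 ≤ (x : ℝ) * Real.log x ^ A := by positivity
    nlinarith

theorem hl_msq {τ : Type} (m A : ℕ) : ∃ K' B A0 : ℕ, ∀ A' : ℕ, A0 ≤ A' → ∀ᶠ x : ℕ in atTop,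
    ∀ (Ω : Finset τ) (s : τ → Fin m → ℕ), MSQ m A' K' B x Ω s → ∀ c : ℕ, c ≤ x →
    ∃ E ⊆ Ω, (E.card : ℝ) ≤ (Ω.card : ℝ) / Real.log x ^ A ∧
      ∀ t ∈ Ω, t ∉ E → Function.Injective (Fin.cons c (s t) : Fin (m + 1) → ℕ) →
        ∀ y : ℕ, y ≤ x →
        |(((Icc 1 y).filter
            (fun n : ℕ => ∀ i, (n + (Fin.cons c (s t) : Fin (m + 1) → ℕ) i).Prime)).card : ℝ) -
          SI (Fin.cons c (s t) : Fin (m + 1) → ℕ) *
            ∑ n ∈ Icc 2 y, hl univ (Fin.cons c (s t) : Fin (m + 1) → ℕ) n| ≤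
              x / Real.log x ^ A := by
  classical
  obtain ⟨K', B, hf⟩ := fixed_msq (τ := τ) m (A + 2)
  refine ⟨K', B, (A + 2) + (m + 1) + 6, fun A' hA' => ?_⟩
  filter_upwards [hf A', eventually_ge_atTop 1, model_y (m + 1) A' (A + 2) hA', sing_upper (m + 1),
    ev_pow (m + 2) (A + 2), ev_log (2 ^ (m + 5))] with x h1 hx1 h2 h3 h4 hL
  intro Ω s hΩ c hc
  have hL2 : 2 ≤ Real.log x := by
    refine le_trans ?_ hL
    calc (2 : ℝ) = 2 ^ 1 := by norm_num
      _ ≤ 2 ^ (m + 5) := pow_le_pow_right₀ (by norm_num) (by omega)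
  have hL0 : 0 < Real.log x := by linarith
  have hx0 : (0 : ℝ) ≤ x := Nat.cast_nonneg x
  obtain ⟨E, hE, hEc, hE'⟩ := h1 Ω s hΩ c hc
  refine ⟨E, hE, hEc.trans ?_, ?_⟩
  · exact div_le_div_of_nonneg_left (Nat.cast_nonneg _)
      (by positivity) (pow_le_pow_right₀ (by linarith) (by omega))
  · intro t ht htE hinj y hy
    set a : Fin (m + 1) → ℕ := Fin.cons c (s t) with ha
    have hax : ∀ i, a i ≤ 2 * x := by
      intro i
      refine Fin.cases ?_ ?_ i
      · rw [ha, Fin.cons_zero]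
        omega
      · intro j
        have h7 := hΩ.1 t ht j
        rw [ha, Fin.cons_succ]
        omega
    have b1 := h3 (Fin (m + 1)) a (Fintype.card_fin _) hinj hax
    have b2 : ∀ y : ℕ, y ≤ x → |∑ n ∈ Icc 1 y, pl univ a n - y * SI a| ≤
        2 * (x / Real.log x ^ (A + 2)) := by
      intro y hy
      have c1 := hE' t ht htE y hy
      have c2 := h2 (Fin (m + 1)) a (Fintype.card_fin _) hinj hax y hy
      rw [Finset.sum_sub_distrib] at c1
      calc |∑ n ∈ Icc 1 y, pl univ a n - y * SI a|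
          = |(∑ n ∈ Icc 1 y, pl univ a n - ∑ n ∈ Icc 1 y, pn (zA A' x) univ a n) +
              (∑ n ∈ Icc 1 y, pn (zA A' x) univ a n - y * SI a)| := by ring_nf
        _ ≤ _ := abs_add_le _ _
        _ ≤ _ := by linarith
    have b3 := abel_log_real univ a (pl univ a) (SI a) (2 * (x / Real.log x ^ (A + 2))) x b2 y hy
    rw [count_eq, Finset.card_univ, Fintype.card_fin, abs_of_nonneg (SI_nonneg a hinj)] at b3
    have b4 : 2 * (x / Real.log x ^ (A + 2)) + SI a ≤ 4 * (x / Real.log x ^ (A + 2)) := by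
      have : SI a ≤ x / Real.log x ^ (A + 2) := b1.trans h4
      have h0 : 0 ≤ x / Real.log x ^ (A + 2) := by positivity
      linarith
    have key : 2 ^ (m + 1 + 2) * (2 * (x / Real.log x ^ (A + 2)) + SI a) ≤ x / Real.log x ^ A := by
     calc 2 ^ (m + 1 + 2) * (2 * (x / Real.log x ^ (A + 2)) + SI a)
        ≤ 2 ^ (m + 1 + 2) * (4 * (x / Real.log x ^ (A + 2))) := by gcongr
      _ = 2 ^ (m + 5) * (x / Real.log x ^ (A + 2)) := by
          rw [show m + 5 = (m + 1 + 2) + 2 by ring, pow_add _ (m + 1 + 2) 2]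
          ring
      _ ≤ Real.log x * (x / Real.log x ^ (A + 2)) := by gcongr
      _ = x / Real.log x ^ (A + 1) := by
          rw [show A + 2 = (A + 1) + 1 by ring, pow_succ _ (A + 1)]
          field_simp
      _ ≤ x / Real.log x ^ A := by
          refine div_le_div_of_nonneg_left hx0 (by positivity)
            (pow_le_pow_right₀ (by linarith) (by omega))
    refine le_trans (le_of_eq ?_) (b3.trans key)
    congr!

end MsqHLAux

theorem univ_msq {τ : Type} (r K A : ℕ) : ∃ K' B A0 : ℕ, ∀ A' : ℕ, A0 ≤ A' → ∀ᶠ x : ℕ in atTop,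
    ∀ (Ω : Finset τ) (s : τ → Fin r → ℕ), MSQ r A' K' B x Ω s → UBO r K A A' x Ω s := by
  classical
  obtain ⟨K1, B1, h1⟩ := weights_prime_msq (τ := τ) r K (A + 1)
  obtain ⟨K2, B2, A0, h2⟩ := MsqHLAux.hl_msq (τ := τ) r (A + 1)
  refine ⟨max K1 K2, max B1 B2, A0, fun A' hA' => ?_⟩
  filter_upwards [h1 A', h2 A' hA', ev_log 2] with x h1 h2 hL Ω s hΩ w hw c hc
  have hL1 : 1 ≤ Real.log x := by linarith
  have hL0 : 0 < Real.log x := by linarith
  obtain ⟨E1, a1, a2, a3⟩ := h1 Ω s (MSQ_mono hΩ (le_max_left _ _) (le_max_left _ _) hL1) w hw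
  obtain ⟨E2, b1, b2, b3⟩ := h2 Ω s (MSQ_mono hΩ (le_max_right _ _) (le_max_right _ _) hL1) c hc
  have hP0 : (0 : ℝ) ≤ (Ω.card : ℝ) := Nat.cast_nonneg _
  have hx0 : (0 : ℝ) ≤ x := Nat.cast_nonneg x
  have hle : ∀ M : ℝ, 0 ≤ M → M / Real.log x ^ (A + 1) ≤ M / Real.log x ^ A := fun M hM =>
    div_le_div_of_nonneg_left hM (by positivity) (pow_le_pow_right₀ hL1 (by omega))
  refine ⟨E1 ∪ E2, Finset.union_subset a1 b1, ?_, fun t ht htE => ?_⟩
  · have h3 : ((E1 ∪ E2).card : ℝ) ≤ E1.card + E2.card := by exact_mod_cast Finset.card_union_le _ _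
    refine h3.trans ((add_le_add a2 b2).trans ?_)
    rw [← two_mul, pow_succ, ← mul_div_assoc, div_le_div_iff₀ (by positivity) (by positivity)]
    have h7 : 0 ≤ (Ω.card : ℝ) * Real.log x ^ A := by positivity
    nlinarith only [h7, hL]
  · rw [Finset.mem_union, not_or] at htE
    exact ⟨fun y hy => (a3 t ht htE.1 y hy).trans (hle _ hx0),
      fun hinj y hy => (b3 t ht htE.2 hinj y hy).trans (hle _ hx0)⟩

end Pool.Agent.NLT
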