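import Pool.Agent.Lib.NLT.PetA
import Pool.Agent.Lib.NLT.Lin

/-!
# Module Pet: the counting operator is controlled by averaged box norms

PROOF. If `32 A / H > 1` the bound is trivial (`‖TT‖ ≤ 1`). Otherwise `pet_four` and `(y + δ)^8 ≤ y^8 + 255 δ` for
`0 ≤ y ≤ 1`, `0 ≤ δ ≤ 1` with `δ = 32 A / H`, power means: `‖TT‖^32 ≤ avg_{k,k',l,l'} ‖Y3‖^8 + 255 * 32 A / H`. Apply
`lin_three` to `Y3` with `α = k' - k`, `β = l' - l`, `u = 2 c β`, `v = 2 c α`, `w = 2 c (α + β)`, `g1 = conj ∘ f2 (· + e2)`,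
`g2 = conj ∘ f2 (· + e1)`, `g3 = f2 (· + e3)`: `w - u = 2 c α`, `w - v = 2 c β`, so (`Dl_shift`, `Q2_shift`, `Dl_comm`)
`‖Y3‖^8 ≤ dv_m dv_n Q2 A (Dl (2 c (α + β) m) (Dl (2 c α n) f2)) (2 c β) + 152 A / H`. The average over `k, k'` and `l, l'` is `dv` in
`α` and `β`; with `dv_comm` this is `BX (2 c) A f2 + 152 A / H` (`RR κ A α g = dv_β dv_m Q2 A (Dl (κ (α + β) m) g) (κ β)`,
`g = Dl (κ α n) f2`).
-/

set_option autoImplicit false

open Finset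

namespace Pool.Agent.NLT

open Pool.Agent.HLT

namespace PetAux

lemma dv_eq_tvr (A : ℕ) (F : ℤ → ℝ) : dv A F = tvr A (fun i => tvr A (fun j => F ((j : ℤ) - i))) := by
  unfold dv tvr
  rw [← sum_div, div_div, sq]

lemma tvr_pow8 (H : ℕ) (F : ℕ → ℝ) : tvr H F ^ 8 ≤ tvr H (fun t => F t ^ 8) := by
  have h1 : tvr H F ^ 8 = ((tvr H F ^ 2) ^ 2) ^ 2 := by ring
  have h2 : (fun t => F t ^ 8) = (fun t => ((F t ^ 2) ^ 2) ^ 2) := by
    funext t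
    ring
  rw [h1, h2]
  have s1 : tvr H F ^ 2 ≤ tvr H (fun t => F t ^ 2) := tvr_sq_le H F
  have s2 : (tvr H F ^ 2) ^ 2 ≤ tvr H (fun t => (F t ^ 2) ^ 2) :=
    le_trans (pow_le_pow_left₀ (sq_nonneg _) s1 2) (tvr_sq_le H _)
  exact le_trans (pow_le_pow_left₀ (sq_nonneg _) s2 2) (tvr_sq_le H _)

lemma tvr4_pow8 (A : ℕ) (W : ℕ → ℕ → ℕ → ℕ → ℝ) :
    tvr A (fun k => tvr A (fun k' => tvr A (fun l => tvr A (fun l' => W k k' l l')))) ^ 8 ≤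
    tvr A (fun k => tvr A (fun k' => tvr A (fun l => tvr A (fun l' => W k k' l l' ^ 8)))) := by
  refine le_trans (tvr_pow8 A _) (tvr_mono A (fun k _ => ?_))
  refine le_trans (tvr_pow8 A _) (tvr_mono A (fun k' _ => ?_))
  refine le_trans (tvr_pow8 A _) (tvr_mono A (fun l _ => ?_))
  exact tvr_pow8 A _

lemma tvr4_eq (A : ℕ) (G : ℤ → ℤ → ℝ) :
    tvr A (fun k => tvr A (fun k' => tvr A (fun l => tvr A (fun l' =>
      G ((k' : ℤ) - k) ((l' : ℤ) - l))))) = dv A (fun α => dv A (fun β => G α β)) := by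
  rw [dv_eq_tvr]
  simp only [dv_eq_tvr]

lemma pow8_add_le {y δ : ℝ} (hy0 : 0 ≤ y) (hy1 : y ≤ 1) (hδ0 : 0 ≤ δ) (hδ1 : δ ≤ 1) :
    (y + δ) ^ 8 ≤ y ^ 8 + 255 * δ := by
  have h1 : ∀ n : ℕ, y ^ n ≤ 1 := fun n => pow_le_one₀ hy0 hy1
  have h2 : ∀ n : ℕ, 0 ≤ y ^ n := fun n => pow_nonneg hy0 n
  have h3 : ∀ n : ℕ, 1 ≤ n → δ ^ n ≤ δ := fun n hn => by
    calc δ ^ n ≤ δ ^ 1 := pow_le_pow_of_le_one hδ0 hδ1 hn
      _ = δ := pow_one δ
  have h4 : ∀ n : ℕ, 0 ≤ δ ^ n := fun n => pow_nonneg hδ0 n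
  have h5 : ∀ a b : ℕ, 1 ≤ b → y ^ a * δ ^ b ≤ δ := fun a b hb => by
    calc y ^ a * δ ^ b ≤ 1 * δ := mul_le_mul (h1 a) (h3 b hb) (h4 b) zero_le_one
      _ = δ := one_mul δ
  have e : (y + δ) ^ 8 = y ^ 8 + (8 * (y ^ 7 * δ ^ 1) + 28 * (y ^ 6 * δ ^ 2) + 56 * (y ^ 5 * δ ^ 3) +
      70 * (y ^ 4 * δ ^ 4) + 56 * (y ^ 3 * δ ^ 5) + 28 * (y ^ 2 * δ ^ 6) + 8 * (y ^ 1 * δ ^ 7) +
      y ^ 0 * δ ^ 8) := by ring
  rw [e]
  linarith [h5 7 1 le_rfl, h5 6 2 (by norm_num), h5 5 3 (by norm_num), h5 4 4 (by norm_num),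
    h5 3 5 (by norm_num), h5 2 6 (by norm_num), h5 1 7 (by norm_num), h5 0 8 (by norm_num)]

section group

variable {M : ℕ} [NeZero M]

/-- The iterated quantity. -/
noncomputable def GG (κ : ZMod M) (A : ℕ) (f : ZMod M → ℂ) (α β : ℤ) : ℝ :=
  dv A (fun m => dv A (fun n => Q2 A (Dl (κ * ((α + β : ℤ) : ZMod M) * (m : ZMod M))
    (Dl (κ * (α : ZMod M) * (n : ZMod M)) f)) (κ * (β : ZMod M))))

lemma BX_eq (κ : ZMod M) (A : ℕ) (f : ZMod M → ℂ) :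
    BX κ A f = dv A (fun α => dv A (fun β => GG κ A f α β)) := by
  have h1 : ∀ α : ℤ, dv A (fun n => RR κ A α (Dl (κ * (α : ZMod M) * (n : ZMod M)) f)) =
      dv A (fun β => GG κ A f α β) := by
    intro α
    unfold RR
    rw [dv_comm A A (fun n β => dv A (fun m => Q2 A (Dl (κ * ((α + β : ℤ) : ZMod M) * (m : ZMod M))
      (Dl (κ * (α : ZMod M) * (n : ZMod M)) f)) (κ * (β : ZMod M))))]
    refine congrArg (dv A) (funext (fun β => ?_))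
    unfold GG
    exact dv_comm A A (fun n m => Q2 A (Dl (κ * ((α + β : ℤ) : ZMod M) * (m : ZMod M))
      (Dl (κ * (α : ZMod M) * (n : ZMod M)) f)) (κ * (β : ZMod M)))
  unfold BX
  exact congrArg (dv A) (funext h1)

lemma GG_nonneg (κ : ZMod M) (A : ℕ) (f : ZMod M → ℂ) (α β : ℤ) : 0 ≤ GG κ A f α β :=
  dv_nonneg A (fun _ => dv_nonneg A (fun _ => Q2_nonneg _ _ _))

lemma Y_le (c : ℤ) (H A : ℕ) (hA : 1 ≤ A) (hAH : A ≤ H) (f : ZMod M → ℂ) (hf : Bd f) (α β : ℤ)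
    (e1 e2 e3 : ZMod M) :
    ‖tv H (fun t => av (fun x => f x *
        (starRingEnd ℂ) (f (x + ((2 * c * α : ℤ) : ZMod M) * (t : ZMod M) + e1)) *
        (starRingEnd ℂ) (f (x + ((2 * c * β : ℤ) : ZMod M) * (t : ZMod M) + e2)) *
        f (x + ((2 * c * (α + β) : ℤ) : ZMod M) * (t : ZMod M) + e3)))‖ ^ 8 ≤
      GG ((2 * c : ℤ) : ZMod M) A f α β + 152 * (A : ℝ) / H := by
  have h := lin_three H A hA hAH ((2 * c * β : ℤ) : ZMod M) ((2 * c * α : ℤ) : ZMod M)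
    ((2 * c * (α + β) : ℤ) : ZMod M) f (fun x => (starRingEnd ℂ) (f (x + e2)))
    (fun x => (starRingEnd ℂ) (f (x + e1))) (fun x => f (x + e3)) hf
    (Bd_conj (Bd_shift e2 hf)) (Bd_conj (Bd_shift e1 hf)) (Bd_shift e3 hf)
  have e1' : ∀ t : ℕ, av (fun x => f x *
        (starRingEnd ℂ) (f (x + ((2 * c * α : ℤ) : ZMod M) * (t : ZMod M) + e1)) *
        (starRingEnd ℂ) (f (x + ((2 * c * β : ℤ) : ZMod M) * (t : ZMod M) + e2)) *
        f (x + ((2 * c * (α + β) : ℤ) : ZMod M) * (t : ZMod M) + e3)) =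
      av (fun x => f x *
        (starRingEnd ℂ) (f (x + ((2 * c * β : ℤ) : ZMod M) * (t : ZMod M) + e2)) *
        (starRingEnd ℂ) (f (x + ((2 * c * α : ℤ) : ZMod M) * (t : ZMod M) + e1)) *
        f (x + ((2 * c * (α + β) : ℤ) : ZMod M) * (t : ZMod M) + e3)) := by
    intro t
    congr 1
    funext x
    ring
  simp only [e1']
  refine le_trans h (le_of_eq ?_)
  refine congrArg (fun r => r + 152 * (A : ℝ) / H) ?_
  unfold GG
  refine congrArg (dv A) (funext (fun m => ?_))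
  refine congrArg (dv A) (funext (fun n => ?_))
  have s1 : ((2 * c * (α + β) : ℤ) : ZMod M) - ((2 * c * β : ℤ) : ZMod M) =
      ((2 * c : ℤ) : ZMod M) * (α : ZMod M) := by
    push_cast
    ring
  have s2 : ((2 * c * (α + β) : ℤ) : ZMod M) - ((2 * c * α : ℤ) : ZMod M) =
      ((2 * c : ℤ) : ZMod M) * (β : ZMod M) := by
    push_cast
    ring
  have s3 : ((2 * c * (α + β) : ℤ) : ZMod M) = ((2 * c : ℤ) : ZMod M) * ((α + β : ℤ) : ZMod M) := by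
    push_cast
    ring
  rw [s1, s2, s3, Dl_shift, Dl_shift, Q2_shift, Dl_comm]

end group

end PetAux

open PetAux

theorem pet (a c d : ℤ) (H A M : ℕ) [NeZero M] (hA : 1 ≤ A) (hAH : A ≤ H) (f0 f1 f2 : ZMod M → ℂ)
    (h0 : Bd f0) (h1 : Bd f1) (h2 : Bd f2) :
    ‖TT a c d H f0 f1 f2‖ ^ 32 ≤ BX ((2 * c : ℤ) : ZMod M) A f2 + 10000 * (A : ℝ) / H := by
  have hH : 1 ≤ H := le_trans hA hAH
  have hH0 : (0 : ℝ) < H := by exact_mod_cast hH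
  have hA0 : (0 : ℝ) < A := by exact_mod_cast hA
  have hT1 : ‖TT a c d H f0 f1 f2‖ ≤ 1 := by
    unfold TT
    refine norm_tv_le_one H _ (fun t => norm_av_le_one ?_)
    intro x
    rw [norm_mul, norm_mul]
    exact mul_le_one₀ (mul_le_one₀ (h0 _) (norm_nonneg _) (h1 _)) (norm_nonneg _) (h2 _)
  have hT0 := norm_nonneg (TT a c d H f0 f1 f2)
  have hBX := BX_nonneg ((2 * c : ℤ) : ZMod M) A f2
  by_cases hδ : 32 * (A : ℝ) / H ≤ 1
  swap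
  · push Not at hδ
    have s1 : ‖TT a c d H f0 f1 f2‖ ^ 32 ≤ 1 := pow_le_one₀ hT0 hT1
    have s2 : 32 * (A : ℝ) / H ≤ 10000 * (A : ℝ) / H := by
      apply div_le_div_of_nonneg_right _ hH0.le
      linarith
    linarith
  have hδ0 : 0 ≤ 32 * (A : ℝ) / H := by positivity
  obtain ⟨e1, e2, e3, he⟩ := pet_four a c d H A M hA hAH f0 f1 f2 h0 h1 h2
  set W : ℕ → ℕ → ℕ → ℕ → ℝ := fun k k' l l' => ‖tv H (fun t => av (fun x => f2 x *
        (starRingEnd ℂ) (f2 (x + ((2 * c * ((k' : ℤ) - k) : ℤ) : ZMod M) * (t : ZMod M) + e1 k k' l l')) *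
        (starRingEnd ℂ) (f2 (x + ((2 * c * ((l' : ℤ) - l) : ℤ) : ZMod M) * (t : ZMod M) + e2 k k' l l')) *
        f2 (x + ((2 * c * (((k' : ℤ) - k) + ((l' : ℤ) - l)) : ℤ) : ZMod M) * (t : ZMod M) +
          e3 k k' l l')))‖ with hW
  have hW0 : ∀ k k' l l', 0 ≤ W k k' l l' := fun _ _ _ _ => norm_nonneg _
  have hW1 : ∀ k k' l l', W k k' l l' ≤ 1 := by
    intro k k' l l'
    refine norm_tv_le_one H _ (fun t => norm_av_le_one ?_)
    intro x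
    rw [norm_mul, norm_mul, norm_mul, RCLike.norm_conj, RCLike.norm_conj]
    exact mul_le_one₀ (mul_le_one₀ (mul_le_one₀ (h2 _) (norm_nonneg _) (h2 _)) (norm_nonneg _) (h2 _))
      (norm_nonneg _) (h2 _)
  set y : ℝ := tvr A (fun k => tvr A (fun k' => tvr A (fun l => tvr A (fun l' => W k k' l l')))) with hy
  have hy0 : 0 ≤ y := tvr_nonneg A (fun _ => tvr_nonneg A (fun _ => tvr_nonneg A (fun _ =>
    tvr_nonneg A (fun _ => hW0 _ _ _ _))))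
  have hy1 : y ≤ 1 := tvr_le A zero_le_one (fun _ _ => tvr_le A zero_le_one (fun _ _ =>
    tvr_le A zero_le_one (fun _ _ => tvr_le A zero_le_one (fun _ _ => hW1 _ _ _ _))))
  have t1 : ‖TT a c d H f0 f1 f2‖ ^ 32 ≤ (y + 32 * (A : ℝ) / H) ^ 8 := by
    calc ‖TT a c d H f0 f1 f2‖ ^ 32 = (‖TT a c d H f0 f1 f2‖ ^ 4) ^ 8 := by ring
      _ ≤ _ := pow_le_pow_left₀ (pow_nonneg hT0 4) he 8
  have t2 := pow8_add_le hy0 hy1 hδ0 hδ
  have t3 : y ^ 8 ≤ tvr A (fun k => tvr A (fun k' => tvr A (fun l => tvr A (fun l' => W k k' l l' ^ 8)))) :=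
    tvr4_pow8 A W
  have t4 : tvr A (fun k => tvr A (fun k' => tvr A (fun l => tvr A (fun l' => W k k' l l' ^ 8)))) ≤
      tvr A (fun k => tvr A (fun k' => tvr A (fun l => tvr A (fun l' =>
        (fun α β => GG ((2 * c : ℤ) : ZMod M) A f2 α β + 152 * (A : ℝ) / H)
          ((k' : ℤ) - k) ((l' : ℤ) - l))))) := by
    refine tvr_mono A (fun k _ => tvr_mono A (fun k' _ => tvr_mono A (fun l _ => tvr_mono A (fun l' _ => ?_))))
    exact Y_le c H A hA hAH f2 h2 ((k' : ℤ) - k) ((l' : ℤ) - l) (e1 k k' l l') (e2 k k' l l') (e3 k k' l l')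
  rw [tvr4_eq A (fun α β => GG ((2 * c : ℤ) : ZMod M) A f2 α β + 152 * (A : ℝ) / H)] at t4
  have t5 : dv A (fun α => dv A (fun β => GG ((2 * c : ℤ) : ZMod M) A f2 α β + 152 * (A : ℝ) / H)) =
      BX ((2 * c : ℤ) : ZMod M) A f2 + 152 * (A : ℝ) / H := by
    rw [BX_eq]
    simp only [dv_add, dv_const A hA]
  rw [t5] at t4
  have t6 : 255 * (32 * (A : ℝ) / H) + 152 * (A : ℝ) / H ≤ 10000 * (A : ℝ) / H := by
    rw [show 255 * (32 * (A : ℝ) / H) + 152 * (A : ℝ) / H = 8312 * (A : ℝ) / H by ring]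
    apply div_le_div_of_nonneg_right _ hH0.le
    linarith
  linarith

end Pool.Agent.NLT
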