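import Pool.Agent.Lib.NLT.Vdc

/-!
# Module PetA: two Cauchy-Schwarz steps for the counting operator

`P = PP c d`, `κ = 2 c`, `e = 8 A / H` (if `e > 1` trivial).
PROOF. In `TT` shift `x` by `- a t`: `TT = tv_t av_x f1 x * (f0 (x - a t) * f2 (x + P t - a t))`. `vdc_norm` with `b = f1`,
`φ x t = f0 (x - a t) f2 (x + P t - a t)`: `‖TT‖^2 ≤ avg_{k,k'} ‖Y2 k k'‖ + e`,
`Y2 = tv_t av_x φ x (t + k) conj (φ x (t + k'))`; shift `x` by `a t`:
`Y2 = tv_t av_x b x * ψ x t`, `b x = f0 (x - a k) * conj (f0 (x - a k'))`,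
`ψ x t = f2 (x + P (t + k) - a k) * conj (f2 (x + P (t + k') - a k'))`. `vdc_norm` again (variables `l, l'`):
`‖Y2‖^2 ≤ avg_{l,l'} ‖Y3‖ + e`, `Y3 = tv_t av_x ψ x (t + l) * conj (ψ x (t + l'))`; shift `x` by `- P (t + l + k) + a k`. Since
`P (t + s') - P (t + s) = 2 c (s' - s) t + const`, the four factors are
`f2 x`, `conj f2 (x + κ (k' - k) t + e1)`, `conj f2 (x + κ (l' - l) t + e2)`, `f2 (x + κ ((k' - k) + (l' - l)) t + e3)` with
`e1 = P (l + k') - P (l + k) - a (k' - k)`, `e2 = P (l' + k) - P (l + k)`, `e3 = P (l' + k') - P (l + k) - a (k' - k)`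
(with natural number arguments, cast to `ZMod M`). Finally
`‖TT‖^4 ≤ (avg ‖Y2‖ + e)^2 ≤ avg ‖Y2‖^2 + 3 e ≤ avg_{k,k',l,l'} ‖Y3‖ + 4 e`.
-/

set_option autoImplicit false

open Finset

namespace Pool.Agent.NLT

open Pool.Agent.HLT

namespace PetAAux

variable {M : ℕ} [NeZero M]

/-- First Cauchy-Schwarz step. -/
noncomputable def ph (a c d : ℤ) (f0 f2 : ZMod M → ℂ) (x : ZMod M) (t : ℕ) : ℂ :=
  f0 (x - ((a * (t : ℤ) : ℤ) : ZMod M)) * f2 (x - ((a * (t : ℤ) : ℤ) : ZMod M) + ((PP c d t : ℤ) : ZMod M))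

/-- Second Cauchy-Schwarz step. -/
noncomputable def ps (a c d : ℤ) (f2 : ZMod M → ℂ) (k k' : ℕ) (x : ZMod M) (t : ℕ) : ℂ :=
  f2 (x - ((a * (k : ℤ) : ℤ) : ZMod M) + ((PP c d (t + k) : ℤ) : ZMod M)) *
    (starRingEnd ℂ) (f2 (x - ((a * (k' : ℤ) : ℤ) : ZMod M) + ((PP c d (t + k') : ℤ) : ZMod M)))

/-- The removed factor. -/
noncomputable def bb (a : ℤ) (f0 : ZMod M → ℂ) (k k' : ℕ) (x : ZMod M) : ℂ :=
  f0 (x - ((a * (k : ℤ) : ℤ) : ZMod M)) * (starRingEnd ℂ) (f0 (x - ((a * (k' : ℤ) : ℤ) : ZMod M)))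

/-- The average after the first step. -/
noncomputable def Y2 (a c d : ℤ) (H : ℕ) (f0 f2 : ZMod M → ℂ) (k k' : ℕ) : ℂ :=
  tv H (fun t => av (fun x => ph a c d f0 f2 x (t + k) * (starRingEnd ℂ) (ph a c d f0 f2 x (t + k'))))

/-- The average after the second step. -/
noncomputable def Y3 (a c d : ℤ) (H : ℕ) (f2 : ZMod M → ℂ) (k k' l l' : ℕ) : ℂ :=
  tv H (fun t => av (fun x => ps a c d f2 k k' x (t + l) * (starRingEnd ℂ) (ps a c d f2 k k' x (t + l'))))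

lemma norm_ph (a c d : ℤ) {f0 f2 : ZMod M → ℂ} (h0 : Bd f0) (h2 : Bd f2) (x : ZMod M) (t : ℕ) :
    ‖ph a c d f0 f2 x t‖ ≤ 1 := by
  unfold ph
  rw [norm_mul]
  exact mul_le_one₀ (h0 _) (norm_nonneg _) (h2 _)

lemma norm_ps (a c d : ℤ) {f2 : ZMod M → ℂ} (h2 : Bd f2) (k k' : ℕ) (x : ZMod M) (t : ℕ) :
    ‖ps a c d f2 k k' x t‖ ≤ 1 := by
  unfold ps
  rw [norm_mul, RCLike.norm_conj]
  exact mul_le_one₀ (h2 _) (norm_nonneg _) (h2 _)

lemma Bd_bb (a : ℤ) {f0 : ZMod M → ℂ} (h0 : Bd f0) (k k' : ℕ) : Bd (bb a f0 k k') := by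
  intro x
  unfold bb
  rw [norm_mul, RCLike.norm_conj]
  exact mul_le_one₀ (h0 _) (norm_nonneg _) (h0 _)

lemma TT_eq (a c d : ℤ) (H : ℕ) (f0 f1 f2 : ZMod M → ℂ) :
    TT a c d H f0 f1 f2 = tv H (fun t => av (fun x => f1 x * ph a c d f0 f2 x t)) := by
  unfold TT
  congr 1
  funext t
  rw [← av_shift_sub (fun x => f0 x * f1 (x + ((a * (t : ℤ) : ℤ) : ZMod M)) * f2 (x + ((PP c d t : ℤ) : ZMod M)))
    ((a * (t : ℤ) : ℤ) : ZMod M)]
  congr 1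
  funext x
  simp only [ph, sub_add_cancel]
  ring

lemma Y2_eq (a c d : ℤ) (H : ℕ) (f0 f2 : ZMod M → ℂ) (k k' : ℕ) :
    Y2 a c d H f0 f2 k k' = tv H (fun t => av (fun x => bb a f0 k k' x * ps a c d f2 k k' x t)) := by
  unfold Y2
  congr 1
  funext t
  rw [← av_shift (fun x => ph a c d f0 f2 x (t + k) * (starRingEnd ℂ) (ph a c d f0 f2 x (t + k')))
    ((a * (t : ℤ) : ℤ) : ZMod M)]
  congr 1
  funext x
  have e1 : ∀ j : ℕ, x + ((a * (t : ℤ) : ℤ) : ZMod M) - ((a * ((t + j : ℕ) : ℤ) : ℤ) : ZMod M) =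
      x - ((a * (j : ℤ) : ℤ) : ZMod M) := by
    intro j
    push_cast
    ring
  simp only [ph, bb, ps, e1, map_mul]
  ring

lemma PP_sub (c d : ℤ) (t s s' : ℕ) :
    PP c d (t + s') = PP c d (t + s) + 2 * c * ((s' : ℤ) - s) * t + (PP c d s' - PP c d s) := by
  unfold PP
  push_cast
  ring

lemma Y3_eq (a c d : ℤ) (H : ℕ) (f2 : ZMod M → ℂ) (k k' l l' : ℕ) :
    Y3 a c d H f2 k k' l l' = tv H (fun t => av (fun x => f2 x *
        (starRingEnd ℂ) (f2 (x + ((2 * c * ((k' : ℤ) - k) : ℤ) : ZMod M) * (t : ZMod M) +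
          ((PP c d (l + k') - PP c d (l + k) - a * ((k' : ℤ) - k) : ℤ) : ZMod M))) *
        (starRingEnd ℂ) (f2 (x + ((2 * c * ((l' : ℤ) - l) : ℤ) : ZMod M) * (t : ZMod M) +
          ((PP c d (l' + k) - PP c d (l + k) : ℤ) : ZMod M))) *
        f2 (x + ((2 * c * (((k' : ℤ) - k) + ((l' : ℤ) - l)) : ℤ) : ZMod M) * (t : ZMod M) +
          ((PP c d (l' + k') - PP c d (l + k) - a * ((k' : ℤ) - k) : ℤ) : ZMod M)))) := by
  unfold Y3
  congr 1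
  funext t
  rw [← av_shift (fun x => ps a c d f2 k k' x (t + l) * (starRingEnd ℂ) (ps a c d f2 k k' x (t + l')))
    ((a * (k : ℤ) - PP c d (t + l + k) : ℤ) : ZMod M)]
  congr 1
  funext x
  have e1 : x + ((a * (k : ℤ) - PP c d (t + l + k) : ℤ) : ZMod M) - ((a * (k : ℤ) : ℤ) : ZMod M) +
      ((PP c d (t + l + k) : ℤ) : ZMod M) = x := by
    push_cast
    ring
  have e2 : x + ((a * (k : ℤ) - PP c d (t + l + k) : ℤ) : ZMod M) - ((a * (k' : ℤ) : ℤ) : ZMod M) +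
      ((PP c d (t + l + k') : ℤ) : ZMod M) = x + ((2 * c * ((k' : ℤ) - k) : ℤ) : ZMod M) * (t : ZMod M) +
          ((PP c d (l + k') - PP c d (l + k) - a * ((k' : ℤ) - k) : ℤ) : ZMod M) := by
    rw [add_assoc t l k', PP_sub c d t (l + k) (l + k'), add_assoc t l k]
    push_cast
    ring
  have e3 : x + ((a * (k : ℤ) - PP c d (t + l + k) : ℤ) : ZMod M) - ((a * (k : ℤ) : ℤ) : ZMod M) +
      ((PP c d (t + l' + k) : ℤ) : ZMod M) = x + ((2 * c * ((l' : ℤ) - l) : ℤ) : ZMod M) * (t : ZMod M) +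
          ((PP c d (l' + k) - PP c d (l + k) : ℤ) : ZMod M) := by
    rw [add_assoc t l' k, PP_sub c d t (l + k) (l' + k), add_assoc t l k]
    push_cast
    ring
  have e4 : x + ((a * (k : ℤ) - PP c d (t + l + k) : ℤ) : ZMod M) - ((a * (k' : ℤ) : ℤ) : ZMod M) +
      ((PP c d (t + l' + k') : ℤ) : ZMod M) =
        x + ((2 * c * (((k' : ℤ) - k) + ((l' : ℤ) - l)) : ℤ) : ZMod M) * (t : ZMod M) +
          ((PP c d (l' + k') - PP c d (l + k) - a * ((k' : ℤ) - k) : ℤ) : ZMod M) := by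
    rw [add_assoc t l' k', PP_sub c d t (l + k) (l' + k'), add_assoc t l k]
    push_cast
    ring
  simp only [ps, e1, e2, e3, e4, map_mul, Complex.conj_conj]
  ring

lemma tvr_add_const (A : ℕ) (hA : 1 ≤ A) (F : ℕ → ℝ) (e : ℝ) : tvr A (fun k => F k + e) = tvr A F + e := by
  unfold tvr
  have hA' : (A : ℝ) ≠ 0 := by
    have : (0 : ℝ) < A := by exact_mod_cast hA
    exact this.ne'
  rw [sum_add_distrib, add_div, sum_const, card_range, nsmul_eq_mul]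
  field_simp

end PetAAux

open PetAAux in
theorem pet_four (a c d : ℤ) (H A M : ℕ) [NeZero M] (hA : 1 ≤ A) (hAH : A ≤ H) (f0 f1 f2 : ZMod M → ℂ)
    (h0 : Bd f0) (h1 : Bd f1) (h2 : Bd f2) : ∃ e1 e2 e3 : ℕ → ℕ → ℕ → ℕ → ZMod M,
    ‖TT a c d H f0 f1 f2‖ ^ 4 ≤ tvr A (fun k => tvr A (fun k' => tvr A (fun l => tvr A (fun l' =>
      ‖tv H (fun t => av (fun x => f2 x *
        (starRingEnd ℂ) (f2 (x + ((2 * c * ((k' : ℤ) - k) : ℤ) : ZMod M) * (t : ZMod M) + e1 k k' l l')) *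
        (starRingEnd ℂ) (f2 (x + ((2 * c * ((l' : ℤ) - l) : ℤ) : ZMod M) * (t : ZMod M) + e2 k k' l l')) *
        f2 (x + ((2 * c * (((k' : ℤ) - k) + ((l' : ℤ) - l)) : ℤ) : ZMod M) * (t : ZMod M) +
          e3 k k' l l')))‖)))) + 32 * (A : ℝ) / H := by
  refine ⟨fun k k' l l' => ((PP c d (l + k') - PP c d (l + k) - a * ((k' : ℤ) - k) : ℤ) : ZMod M),
    fun k k' l l' => ((PP c d (l' + k) - PP c d (l + k) : ℤ) : ZMod M),
    fun k k' l l' => ((PP c d (l' + k') - PP c d (l + k) - a * ((k' : ℤ) - k) : ℤ) : ZMod M), ?_⟩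
  simp only [← Y3_eq]
  have hH : (0 : ℝ) < H := by
    have : 1 ≤ H := hA.trans hAH
    exact_mod_cast this
  have hA0 : (0 : ℝ) < A := by exact_mod_cast hA
  set e : ℝ := 8 * (A : ℝ) / H with he
  have he0 : 0 ≤ e := by positivity
  have he4 : 32 * (A : ℝ) / H = 4 * e := by rw [he]; ring
  rw [he4]
  have hpos : 0 ≤ tvr A (fun k => tvr A (fun k' => tvr A (fun l => tvr A (fun l' =>
      ‖Y3 a c d H f2 k k' l l'‖)))) :=
    tvr_nonneg A fun k => tvr_nonneg A fun k' => tvr_nonneg A fun l => tvr_nonneg A fun l' => norm_nonneg _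
  have hTT : ‖TT a c d H f0 f1 f2‖ ≤ 1 := by
    rw [TT_eq]
    refine norm_tv_le_one H _ fun t => norm_av_le_one fun x => ?_
    rw [norm_mul]
    exact mul_le_one₀ (h1 _) (norm_nonneg _) (norm_ph a c d h0 h2 x t)
  have hY2 : ∀ k k', ‖Y2 a c d H f0 f2 k k'‖ ≤ 1 := by
    intro k k'
    rw [Y2_eq]
    refine norm_tv_le_one H _ fun t => norm_av_le_one fun x => ?_
    rw [norm_mul]
    exact mul_le_one₀ (Bd_bb a h0 k k' _) (norm_nonneg _) (norm_ps a c d h2 k k' x t)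
  by_cases hbig : 1 ≤ e
  · have : ‖TT a c d H f0 f1 f2‖ ^ 4 ≤ 1 := pow_le_one₀ (norm_nonneg _) hTT
    linarith
  push Not at hbig
  have s1 : ‖TT a c d H f0 f1 f2‖ ^ 2 ≤ tvr A (fun k => tvr A (fun k' => ‖Y2 a c d H f0 f2 k k'‖)) + e := by
    rw [TT_eq]
    exact vdc_norm H A hA hAH f1 h1 (ph a c d f0 f2) (norm_ph a c d h0 h2)
  have s2 : ∀ k k', ‖Y2 a c d H f0 f2 k k'‖ ^ 2 ≤
      tvr A (fun l => tvr A (fun l' => ‖Y3 a c d H f2 k k' l l'‖)) + e := by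
    intro k k'
    rw [Y2_eq]
    exact vdc_norm H A hA hAH (bb a f0 k k') (Bd_bb a h0 k k') (ps a c d f2 k k') (norm_ps a c d h2 k k')
  set S2 : ℝ := tvr A (fun k => tvr A (fun k' => ‖Y2 a c d H f0 f2 k k'‖)) with hS2
  have hS2n : 0 ≤ S2 := tvr_nonneg A fun k => tvr_nonneg A fun k' => norm_nonneg _
  have hS21 : S2 ≤ 1 := tvr_le A zero_le_one fun k _ => tvr_le A zero_le_one fun k' _ => hY2 k k'
  have s3 : S2 ^ 2 ≤ tvr A (fun k => tvr A (fun k' => ‖Y2 a c d H f0 f2 k k'‖ ^ 2)) := by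
    refine (tvr_sq_le A _).trans ?_
    exact tvr_mono A fun k _ => tvr_sq_le A _
  have s4 : tvr A (fun k => tvr A (fun k' => ‖Y2 a c d H f0 f2 k k'‖ ^ 2)) ≤
      tvr A (fun k => tvr A (fun k' => tvr A (fun l => tvr A (fun l' => ‖Y3 a c d H f2 k k' l l'‖)))) + e := by
    rw [← tvr_add_const A hA]
    refine tvr_mono A fun k _ => ?_
    rw [← tvr_add_const A hA]
    exact tvr_mono A fun k' _ => s2 k k'
  have s5 : ‖TT a c d H f0 f1 f2‖ ^ 4 ≤ (S2 + e) ^ 2 := by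
    have : ‖TT a c d H f0 f1 f2‖ ^ 4 = (‖TT a c d H f0 f1 f2‖ ^ 2) ^ 2 := by ring
    rw [this]
    exact pow_le_pow_left₀ (by positivity) s1 2
  nlinarith [s3, s4, s5, hS2n, hS21, he0, hbig, mul_nonneg he0 (sub_nonneg.2 hS21), mul_nonneg he0 (sub_nonneg.2 hbig.le)]

end Pool.Agent.NLT
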