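import Pool.Agent.Lib.NLT.InvOne
import Pool.Agent.Lib.NLT.Auto
import Pool.Agent.Lib.NLT.Blocks

/-!
# Module PmsOne: mean square with the structured function in the linear slot

PROOF. `b = bb a c d`, `N2 = (2 b + 1) H^2`. Suppose the bound fails. Take a prime `M` with
`(2 b + 2) H^2 < M ≤ 2 (2 b + 2) H^2` and `P` from `many_blocks` (with `g := e`, `e := g`; constant `C1`). `inv_one` with `R^k` for `R`
(`k ≥ C1`, `4 (b + 1) ≤ R^k`): for each `p = (h, y) ∈ P` some `q ≤ R^C2` with `avr_x ‖tv J (j ↦ f1 (x + q j))‖ ≥ R^-C2` for all `J` with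
`J R^C2 ≤ H`, `f1 = bl M y 0 N2 (cr h e)`. Fix `J = H / R^C3`, `C3 = 2 C2 + 10`. Pigeonhole: one `q` serves `P' ⊆ P`,
`P'.card ≥ X^2 / R^C4`. For `p ∈ P'`:
`M / R^C2 ≤ ∑_x ‖tv J f1 (x + q j)‖ ≤ ∑ n ∈ Ioc y (y + N2), ‖tv J (j ↦ cr h e (n + q j))‖ + 3 q J`: for `x.val ∈ (0, N2 - q J]` all points
`x + q j` have values `x.val + q j ∈ (0, N2]`, the terms are those of `n = y + x.val`; the other `x` with a nonzero term are
`x.val = 0`, `x.val ∈ (N2 - q J, N2]` or `x.val ≥ M - q J`: at most `2 q J + 1` of them, each term `≤ 1`. As `3 q J ≤ M / (2 R^C2)`,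
the sum over `n` is `≥ M / (2 R^C2)`, and by Cauchy-Schwarz `∑ n ∈ Ioc y (y + N2), ‖tv J cr h e (n + q j)‖^2 ≥ H^2 / (4 (2 b + 1) R^(2 C2))`.
Sum over `P'`: `X^2 / R^C4 * H^2 / (4 (2 b + 1) R^(2 C2)) ≤ ∑_h ∑_y ∑ n ∈ Ioc y (y + N2) ‖..‖^2 ≤ N2 ∑_h ∑_{n ∈ U} ‖tv J cr h e (n + q j)‖^2
≤ N2 J^-2 (∑_{|n| ≤ 3 X} ‖e n‖^2) X (q J)^2 / R^C ≤ (2 b + 1) H^2 * 7 X^2 q^2 / R^C` by `auto_ap` and the hypothesis with `W = q J`
(`H ≤ R^C q J`, `q J ≤ H ≤ C H^2`). Contradiction for `C` large.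
-/

set_option autoImplicit false

open Finset Filter

namespace Pool.Agent.NLT

open Pool.Agent.HLT

namespace PmsOneAux

lemma sum_val {M : ℕ} [NeZero M] (f : ℕ → ℝ) : ∑ x : ZMod M, f x.val = ∑ m ∈ range M, f m := by
  refine Finset.sum_nbij' (fun x : ZMod M => x.val) (fun m : ℕ => (m : ZMod M)) ?_ ?_ ?_ ?_ ?_
  · intro x _
    exact Finset.mem_range.2 (ZMod.val_lt x)
  · intro m _
    exact Finset.mem_univ _
  · intro x _
    exact ZMod.natCast_zmod_val x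
  · intro m hm
    exact ZMod.val_natCast_of_lt (Finset.mem_range.1 hm)
  · intro x _
    rfl

lemma norm_tv_le {J : ℕ} (F : ℕ → ℂ) (hF : ∀ j, ‖F j‖ ≤ 1) : ‖tv J F‖ ≤ 1 := by
  unfold tv
  rw [norm_div, Complex.norm_natCast]
  refine div_le_one_of_le₀ ?_ (Nat.cast_nonneg J)
  refine (norm_sum_le _ _).trans ?_
  refine (Finset.sum_le_sum fun j _ => hF j).trans ?_
  simp

lemma cr_Bd (h : ℤ) (f : ℤ → ℂ) (hf : Bd f) : Bd (cr h f) := by
  intro n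
  unfold cr
  rw [norm_mul, Complex.norm_conj]
  exact mul_le_one₀ (hf _) (norm_nonneg _) (hf _)

lemma bl_Bd (M : ℕ) (y : ℤ) (lo hi : ℕ) (f : ℤ → ℂ) (hf : Bd f) : Bd (bl M y lo hi f) := by
  intro z
  unfold bl
  split_ifs
  · exact hf _
  · simp

/-- Pointwise bound for the averages over a progression of a block function. -/
lemma point {M : ℕ} [NeZero M] (y : ℤ) (N q J : ℕ) (hq : 1 ≤ q) (hN : N < M) (F : ℤ → ℂ) (hF : Bd F) (x : ZMod M) :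
    ‖tv J (fun j => bl M y 0 N F (x + ((q * j : ℕ) : ZMod M)))‖ ≤
      (((if 0 < x.val ∧ x.val ≤ N then ‖tv J (fun j => F (y + (x.val : ℤ) + q * j))‖ else 0) +
        (if x.val = 0 then 1 else 0)) + (if 0 < x.val ∧ N < x.val + q * J ∧ x.val ≤ N then 1 else 0)) +
        (if M < x.val + q * J then 1 else 0) := by
  have hb : ‖tv J (fun j => bl M y 0 N F (x + ((q * j : ℕ) : ZMod M)))‖ ≤ 1 :=
    norm_tv_le _ (fun j => bl_Bd M y 0 N F hF _)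
  have h1 : (0 : ℝ) ≤ (if 0 < x.val ∧ x.val ≤ N then ‖tv J (fun j => F (y + (x.val : ℤ) + q * j))‖ else 0) := by
    split_ifs
    · exact norm_nonneg _
    · exact le_refl _
  have h2 : (0 : ℝ) ≤ (if x.val = 0 then 1 else 0) := by split_ifs <;> norm_num
  have h3 : (0 : ℝ) ≤ (if 0 < x.val ∧ N < x.val + q * J ∧ x.val ≤ N then 1 else 0) := by split_ifs <;> norm_num
  have h4 : (0 : ℝ) ≤ (if M < x.val + q * J then 1 else 0) := by split_ifs <;> norm_num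
  by_cases hv0 : x.val = 0
  · have : (if x.val = 0 then (1 : ℝ) else 0) = 1 := if_pos hv0
    linarith
  have hval : ∀ j ∈ range J, x.val + q * J ≤ M → (x + ((q * j : ℕ) : ZMod M)).val = x.val + q * j := by
    intro j hj hle
    have hj' := Finset.mem_range.1 hj
    have hlt : q * j < q * J := Nat.mul_lt_mul_of_pos_left hj' (by omega)
    have e1 : x + ((q * j : ℕ) : ZMod M) = ((x.val + q * j : ℕ) : ZMod M) := by
      rw [Nat.cast_add, ZMod.natCast_zmod_val]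
    rw [e1]
    exact ZMod.val_natCast_of_lt (by omega)
  by_cases hvN : x.val ≤ N
  · by_cases hvq : N < x.val + q * J
    · have : (if 0 < x.val ∧ N < x.val + q * J ∧ x.val ≤ N then (1 : ℝ) else 0) = 1 := if_pos ⟨Nat.pos_of_ne_zero hv0, hvq, hvN⟩
      linarith
    · have e2 : (if 0 < x.val ∧ x.val ≤ N then ‖tv J (fun j => F (y + (x.val : ℤ) + q * j))‖ else 0) =
          ‖tv J (fun j => F (y + (x.val : ℤ) + q * j))‖ := if_pos ⟨Nat.pos_of_ne_zero hv0, hvN⟩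
      have e3 : tv J (fun j => bl M y 0 N F (x + ((q * j : ℕ) : ZMod M))) =
          tv J (fun j => F (y + (x.val : ℤ) + q * j)) := by
        unfold tv
        congr 1
        refine Finset.sum_congr rfl fun j hj => ?_
        have hv := hval j hj (by omega)
        have hj' := Finset.mem_range.1 hj
        have hlt : q * j < q * J := Nat.mul_lt_mul_of_pos_left hj' (by omega)
        show bl M y 0 N F (x + ((q * j : ℕ) : ZMod M)) = F (y + (x.val : ℤ) + q * j)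
        simp only [bl]
        rw [hv, if_pos ⟨by omega, by omega⟩]
        push_cast
        congr 1
        ring
      rw [e3, e2]
      linarith
  · by_cases hvq : M < x.val + q * J
    · have : (if M < x.val + q * J then (1 : ℝ) else 0) = 1 := if_pos hvq
      linarith
    · have e3 : tv J (fun j => bl M y 0 N F (x + ((q * j : ℕ) : ZMod M))) = 0 := by
        unfold tv
        rw [Finset.sum_eq_zero, zero_div]
        intro j hj
        have hv := hval j hj (by omega)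
        simp only [bl]
        rw [hv, if_neg (by omega)]
      rw [e3, norm_zero]
      positivity

/-- A block function in terms of the integers. -/
lemma block_le {M : ℕ} [NeZero M] (y : ℤ) (N q J : ℕ) (hq : 1 ≤ q) (hN : N < M) (F : ℤ → ℂ) (hF : Bd F) :
    ∑ x : ZMod M, ‖tv J (fun j => bl M y 0 N F (x + ((q * j : ℕ) : ZMod M)))‖ ≤
      ∑ n ∈ Ioc y (y + N), ‖tv J (fun j => F (n + q * j))‖ + (1 + 2 * ((q * J : ℕ) : ℝ)) := by
  refine (Finset.sum_le_sum fun x _ => point y N q J hq hN F hF x).trans ?_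
  rw [Finset.sum_add_distrib, Finset.sum_add_distrib, Finset.sum_add_distrib]
  have e1 : ∑ x : ZMod M, (if 0 < x.val ∧ x.val ≤ N then ‖tv J (fun j => F (y + (x.val : ℤ) + q * j))‖ else 0) =
      ∑ n ∈ Ioc y (y + N), ‖tv J (fun j => F (n + q * j))‖ := by
    rw [sum_val (fun m => if 0 < m ∧ m ≤ N then ‖tv J (fun j => F (y + (m : ℤ) + q * j))‖ else 0),
      ← Finset.sum_filter]
    refine Finset.sum_nbij' (fun m : ℕ => y + (m : ℤ)) (fun n : ℤ => (n - y).toNat) ?_ ?_ ?_ ?_ ?_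
    · intro m hm
      rw [Finset.mem_filter] at hm
      rw [Finset.mem_Ioc]
      omega
    · intro n hn
      rw [Finset.mem_Ioc] at hn
      rw [Finset.mem_filter, Finset.mem_range]
      omega
    · intro m hm
      show (y + (m : ℤ) - y).toNat = m
      omega
    · intro n hn
      rw [Finset.mem_Ioc] at hn
      show y + ((n - y).toNat : ℤ) = n
      omega
    · intro m hm
      rfl
  have e2 : ∑ x : ZMod M, (if x.val = 0 then (1 : ℝ) else 0) ≤ 1 := by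
    rw [sum_val (fun m => if m = 0 then (1 : ℝ) else 0), Finset.sum_ite_eq']
    split_ifs <;> norm_num
  have e3 : ∑ x : ZMod M, (if 0 < x.val ∧ N < x.val + q * J ∧ x.val ≤ N then (1 : ℝ) else 0) ≤ ((q * J : ℕ) : ℝ) := by
    rw [sum_val (fun m => if 0 < m ∧ N < m + q * J ∧ m ≤ N then (1 : ℝ) else 0), ← Finset.sum_filter, Finset.sum_const,
      nsmul_eq_mul, mul_one]
    refine Nat.cast_le.2 ?_
    have : (range M).filter (fun m => 0 < m ∧ N < m + q * J ∧ m ≤ N) ⊆ Ioc (N - q * J) N := by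
      intro m hm
      rw [Finset.mem_filter] at hm
      rw [Finset.mem_Ioc]
      omega
    refine (Finset.card_le_card this).trans ?_
    rw [Nat.card_Ioc]
    omega
  have e4 : ∑ x : ZMod M, (if M < x.val + q * J then (1 : ℝ) else 0) ≤ ((q * J : ℕ) : ℝ) := by
    rw [sum_val (fun m => if M < m + q * J then (1 : ℝ) else 0), ← Finset.sum_filter, Finset.sum_const,
      nsmul_eq_mul, mul_one]
    refine Nat.cast_le.2 ?_
    have : (range M).filter (fun m => M < m + q * J) ⊆ Ico (M - q * J) M := by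
      intro m hm
      rw [Finset.mem_filter, Finset.mem_range] at hm
      rw [Finset.mem_Ico]
      omega
    refine (Finset.card_le_card this).trans ?_
    rw [Nat.card_Ico]
    omega
  rw [e1]
  linarith

/-- Sum over windows. -/
lemma sum_windows (A N : ℕ) (f : ℤ → ℝ) (hf : ∀ n, 0 ≤ f n) :
    ∑ y ∈ Icc (-(A : ℤ)) A, ∑ n ∈ Ioc y (y + N), f n ≤ N * ∑ n ∈ Ioc (-(A : ℤ)) (A + N), f n := by
  classical
  rw [Finset.sum_comm' (t' := Ioc (-(A : ℤ)) (A + N))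
    (s' := fun n => (Ico (n - N) n).filter (fun y => y ∈ Icc (-(A : ℤ)) A))]
  · rw [Finset.mul_sum]
    refine Finset.sum_le_sum fun n _ => ?_
    rw [Finset.sum_const, nsmul_eq_mul]
    refine mul_le_mul_of_nonneg_right ?_ (hf n)
    refine Nat.cast_le.2 ?_
    refine (Finset.card_filter_le _ _).trans ?_
    rw [Int.card_Ico]
    omega
  · intro y n
    rw [Finset.mem_filter]
    simp only [Finset.mem_Icc, Finset.mem_Ioc, Finset.mem_Ico]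
    omega

/-- The upper bound for one step `q`. -/
lemma upper (e : ℤ → ℂ) (X : ℕ) (hX : 1 ≤ X) (he : Bd e) (hse : ∀ n : ℤ, 3 * (X : ℤ) < |n| → e n = 0) (q J : ℕ)
    (hq : 1 ≤ q) (hJ : 1 ≤ J) (D : ℝ) (hD : WB e (q * J) D) (A N B : ℕ) (P : Finset (ℤ × ℤ))
    (hP : ∀ p ∈ P, |p.1| ≤ B ∧ |p.2| ≤ A) :
    ∑ p ∈ P, ∑ n ∈ Ioc p.2 (p.2 + N), ‖tv J (fun j => cr p.1 e (n + q * j))‖ ^ 2 ≤
      N * (7 * X * D) / (J : ℝ) ^ 2 := by
  have hD0 : 0 ≤ D := by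
    have := hD 0 ∅
    simpa using this
  have hJ' : (0 : ℝ) < (J : ℝ) := by exact_mod_cast hJ
  have hsub : P ⊆ Icc (-(B : ℤ)) B ×ˢ Icc (-(A : ℤ)) A := by
    intro p hp
    have h := hP p hp
    rw [Finset.mem_product, Finset.mem_Icc, Finset.mem_Icc]
    rw [abs_le, abs_le] at h
    exact h
  have h1 : ∑ p ∈ P, ∑ n ∈ Ioc p.2 (p.2 + N), ‖tv J (fun j => cr p.1 e (n + q * j))‖ ^ 2 ≤
      ∑ h ∈ Icc (-(B : ℤ)) B, ∑ y ∈ Icc (-(A : ℤ)) A, ∑ n ∈ Ioc y (y + N),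
        ‖tv J (fun j => cr h e (n + q * j))‖ ^ 2 := by
    rw [← Finset.sum_product' (f := fun (h y : ℤ) => ∑ n ∈ Ioc y (y + N), ‖tv J (fun j => cr h e (n + q * j))‖ ^ 2)]
    exact Finset.sum_le_sum_of_subset_of_nonneg hsub
      (fun p _ _ => Finset.sum_nonneg fun n _ => by positivity)
  have h2 : ∑ h ∈ Icc (-(B : ℤ)) B, ∑ y ∈ Icc (-(A : ℤ)) A, ∑ n ∈ Ioc y (y + N),
        ‖tv J (fun j => cr h e (n + q * j))‖ ^ 2 ≤
      ∑ h ∈ Icc (-(B : ℤ)) B, N * ∑ n ∈ Ioc (-(A : ℤ)) (A + N), ‖tv J (fun j => cr h e (n + q * j))‖ ^ 2 :=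
    Finset.sum_le_sum fun h _ => sum_windows A N _ (fun n => by positivity)
  have h3 := auto_ap e (3 * X) (by
    intro n hn
    refine hse n ?_
    push_cast at hn
    exact hn) q J hq D hD (Icc (-(B : ℤ)) B) (Ioc (-(A : ℤ)) (A + N))
  have h4 : ∑ n ∈ Icc (-((3 * X : ℕ) : ℤ)) ((3 * X : ℕ) : ℤ), ‖e n‖ ^ 2 ≤ 7 * X := by
    calc ∑ n ∈ Icc (-((3 * X : ℕ) : ℤ)) ((3 * X : ℕ) : ℤ), ‖e n‖ ^ 2
        ≤ ∑ _n ∈ Icc (-((3 * X : ℕ) : ℤ)) ((3 * X : ℕ) : ℤ), (1 : ℝ) := by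
          refine Finset.sum_le_sum fun n _ => ?_
          have := he n
          exact pow_le_one₀ (norm_nonneg _) this
      _ ≤ 7 * X := by
          rw [Finset.sum_const, nsmul_eq_mul, mul_one, Int.card_Icc]
          have : (((3 * X : ℕ) : ℤ) + 1 - -((3 * X : ℕ) : ℤ)).toNat ≤ 7 * X := by omega
          exact_mod_cast this
  have h5 : ∀ (h n : ℤ), ‖tv J (fun j => cr h e (n + q * j))‖ ^ 2 =
      ‖∑ j ∈ range J, cr h e (n + q * j)‖ ^ 2 / (J : ℝ) ^ 2 := by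
    intro h n
    unfold tv
    rw [norm_div, Complex.norm_natCast, div_pow]
  refine h1.trans (h2.trans ?_)
  simp only [h5]
  rw [← Finset.mul_sum]
  simp only [← Finset.sum_div]
  rw [mul_div_assoc]
  refine mul_le_mul_of_nonneg_left ?_ (Nat.cast_nonneg N)
  refine div_le_div_of_nonneg_right ?_ (by positivity)
  exact h3.trans (mul_le_mul_of_nonneg_right h4 hD0)

end PmsOneAux

open PmsOneAux

theorem pms_one (a c d : ℤ) (ha : a ≠ 0) (hc : c ≠ 0) : ∃ C : ℕ, ∀ (R H X : ℕ), 2 ≤ R → R ^ C ≤ H →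
    H ^ 2 ≤ X → ∀ w g e : ℤ → ℂ, Bd w → Bd g → Bd e → (∀ n : ℤ, ¬ (0 < n ∧ n ≤ X) → w n = 0) →
    (∀ n : ℤ, 3 * (X : ℤ) < |n| → e n = 0) →
    (∀ W : ℕ, H ≤ R ^ C * W → W ≤ C * H ^ 2 → WB e W ((X : ℝ) * W ^ 2 / (R : ℝ) ^ C)) →
    ∑ t ∈ range H, ‖∑ n ∈ Ioc (0 : ℤ) X, w n * e (n + a * t) * g (n + PP c d t)‖ ^ 2 ≤
      (H : ℝ) * X ^ 2 / R := by
  obtain ⟨C1, hmb⟩ := many_blocks a c d
  obtain ⟨C2, hio⟩ := inv_one a c d ha hc
  set b := bb a c d with hb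
  set k := C1 + 4 * (b + 1) with hk
  set E := k * C2 with hE
  set C3 := 2 * E + 3 with hC3
  set C := 5 * E + C1 + 4 + (2 * b + 1) + C3 + 1 with hC
  refine ⟨C, ?_⟩
  intro R H X hR hRH hHX w g e hw hg he hsw hse hWB
  by_contra hcon
  push Not at hcon
  have hR1 : 1 ≤ R := by omega
  have hRr : (2 : ℝ) ≤ R := by exact_mod_cast hR
  have hRr1 : (1 : ℝ) ≤ R := by linarith
  have hR0 : (0 : ℝ) < R := by linarith
  have hle : ∀ {n : ℕ}, n ≤ C → R ^ n ≤ H := fun {n} hn => (Nat.pow_le_pow_right hR1 hn).trans hRH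
  have hH1 : 1 ≤ H := (Nat.one_le_pow _ _ (by omega)).trans hRH
  have hHH : H ≤ H ^ 2 := by nlinarith
  have hX1 : 1 ≤ X := le_trans hH1 (hHH.trans hHX)
  obtain ⟨M, hMp, hM1, hM2⟩ := Nat.exists_prime_lt_and_le_two_mul ((2 * b + 2) * H ^ 2) (by positivity)
  have : Fact M.Prime := ⟨hMp⟩
  have : NeZero M := ⟨hMp.ne_zero⟩
  obtain ⟨P, hPc, hP⟩ := hmb R H X M hR (hle (by omega)) hHX hM1.le hM2 w e g hw he hg hsw hcon
  have hk2 : 2 ≤ R ^ k := hR.trans (by simpa using Nat.pow_le_pow_right hR1 (show 1 ≤ k by omega))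
  have hkM : M ≤ R ^ k * H ^ 2 := by
    refine hM2.trans ?_
    rw [← mul_assoc]
    refine Nat.mul_le_mul_right _ ?_
    have e1 : 4 * (b + 1) < 2 ^ (4 * (b + 1)) := Nat.lt_two_pow_self
    have e2 : 2 ^ (4 * (b + 1)) ≤ R ^ (4 * (b + 1)) := Nat.pow_le_pow_left hR _
    have e3 : R ^ (4 * (b + 1)) ≤ R ^ k := Nat.pow_le_pow_right hR1 (by omega)
    omega
  have hHM : H ^ 2 ≤ M := by nlinarith
  set J := H / R ^ C3 with hJ
  have hJ1 : 1 ≤ J := (Nat.one_le_div_iff (by positivity)).2 (hle (by omega))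
  have hJH : J * R ^ C3 ≤ H := Nat.div_mul_le_self _ _
  -- the step
  have hq : ∀ p ∈ P, ∃ q : ℕ, 1 ≤ q ∧ q ≤ R ^ E ∧ 1 / (R : ℝ) ^ E ≤
      avr (fun x => ‖tv J (fun j => bl M p.2 0 ((2 * b + 1) * H ^ 2) (cr p.1 e) (x + ((q * j : ℕ) : ZMod M)))‖) := by
    intro p hp
    have h1 := (hP p hp).2.2
    obtain ⟨q, hq1, hq2, hq3⟩ := hio (R ^ k) H M hk2 (by rw [← pow_mul]; exact hle (by omega)) hHM hkM
      (bl M p.2 (b * H ^ 2) ((b + 1) * H ^ 2) (cr p.1 w)) (bl M p.2 0 ((2 * b + 1) * H ^ 2) (cr p.1 e))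
      (bl M p.2 0 ((2 * b + 1) * H ^ 2) (cr p.1 g)) (bl_Bd _ _ _ _ _ (cr_Bd _ _ hw)) (bl_Bd _ _ _ _ _ (cr_Bd _ _ he))
      (bl_Bd _ _ _ _ _ (cr_Bd _ _ hg)) (by
        refine le_trans ?_ h1
        rw [Nat.cast_pow]
        exact one_div_le_one_div_of_le (by positivity) (pow_le_pow_right₀ hRr1 (by omega)))
    rw [← pow_mul] at hq2 hq3
    refine ⟨q, hq1, hq2, ?_⟩
    have h2 := hq3 J hJ1 (le_trans (Nat.mul_le_mul_left J (Nat.pow_le_pow_right hR1 (by omega))) hJH)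
    rw [Nat.cast_pow, ← pow_mul] at h2
    exact h2
  choose! qf hq1 hq2 hq3 using hq
  -- the lower bound
  have hN : (2 * b + 1) * H ^ 2 < M := by nlinarith
  have hMr : ((2 * b + 2) * H ^ 2 : ℝ) ≤ M := by
    have : (((2 * b + 2) * H ^ 2 : ℕ) : ℝ) ≤ M := by exact_mod_cast hM1.le
    push_cast at this
    exact this
  have hM0 : (0 : ℝ) < M := by exact_mod_cast hMp.pos
  have hHr : (1 : ℝ) ≤ H := by exact_mod_cast hH1
  have hlow : ∀ p ∈ P, (H : ℝ) ^ 2 / (2 * (R : ℝ) ^ (2 * E)) ≤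
      ∑ n ∈ Ioc p.2 (p.2 + ((2 * b + 1) * H ^ 2 : ℕ)), ‖tv J (fun j => cr p.1 e (n + qf p * j))‖ ^ 2 := by
    intro p hp
    have h1 := hq3 p hp
    unfold avr at h1
    rw [le_div_iff₀ hM0] at h1
    have h2 := block_le p.2 ((2 * b + 1) * H ^ 2) (qf p) J (hq1 p hp) hN (cr p.1 e) (cr_Bd _ _ he)
    -- the error
    have h3 : 1 + 2 * ((qf p * J : ℕ) : ℝ) ≤ (M : ℝ) / (2 * (R : ℝ) ^ E) := by
      have e1 : 1 + 2 * ((qf p * J : ℕ) : ℝ) ≤ 3 * ((qf p * J : ℕ) : ℝ) := by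
        have : 1 ≤ qf p * J := Nat.mul_pos (hq1 p hp) hJ1
        have : (1 : ℝ) ≤ ((qf p * J : ℕ) : ℝ) := by exact_mod_cast this
        linarith
      refine e1.trans ?_
      rw [le_div_iff₀ (by positivity)]
      have e2 : qf p * J * R ^ (E + 3) ≤ H := by
        calc qf p * J * R ^ (E + 3) ≤ R ^ E * J * R ^ (E + 3) := by
              gcongr
              exact hq2 p hp
          _ = J * R ^ C3 := by
              rw [hC3, show 2 * E + 3 = E + (E + 3) by ring, pow_add R E (E + 3)]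
              ring
          _ ≤ H := hJH
      have e3 : ((qf p * J : ℕ) : ℝ) * (R : ℝ) ^ (E + 3) ≤ H := by exact_mod_cast e2
      have e4 : (8 : ℝ) ≤ (R : ℝ) ^ 3 := by
        calc (8 : ℝ) = 2 ^ 3 := by norm_num
          _ ≤ (R : ℝ) ^ 3 := pow_le_pow_left₀ (by norm_num) hRr 3
      have e5 : (H : ℝ) ≤ M := by exact_mod_cast hHH.trans hHM
      have e6 : (0 : ℝ) ≤ ((qf p * J : ℕ) : ℝ) * (R : ℝ) ^ E := by positivity
      calc 3 * ((qf p * J : ℕ) : ℝ) * (2 * (R : ℝ) ^ E) = 6 * (((qf p * J : ℕ) : ℝ) * (R : ℝ) ^ E) := by ring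
        _ ≤ (R : ℝ) ^ 3 * (((qf p * J : ℕ) : ℝ) * (R : ℝ) ^ E) :=
            mul_le_mul_of_nonneg_right (by linarith) e6
        _ = ((qf p * J : ℕ) : ℝ) * (R : ℝ) ^ (E + 3) := by ring
        _ ≤ M := e3.trans e5
    have h4 : (M : ℝ) / (2 * (R : ℝ) ^ E) ≤
        ∑ n ∈ Ioc p.2 (p.2 + ((2 * b + 1) * H ^ 2 : ℕ)), ‖tv J (fun j => cr p.1 e (n + qf p * j))‖ := by
      have e1 : 1 / (R : ℝ) ^ E * M = (M : ℝ) / (2 * (R : ℝ) ^ E) + (M : ℝ) / (2 * (R : ℝ) ^ E) := by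
        field_simp
        ring
      linarith
    have h5 := sq_sum_le_card_mul_sum_sq (s := Ioc p.2 (p.2 + ((2 * b + 1) * H ^ 2 : ℕ)))
      (f := fun n => ‖tv J (fun j => cr p.1 e (n + qf p * j))‖)
    rw [Int.card_Ioc, show (p.2 + ((2 * b + 1) * H ^ 2 : ℕ) - p.2).toNat = (2 * b + 1) * H ^ 2 by omega] at h5
    have h6 : ((M : ℝ) / (2 * (R : ℝ) ^ E)) ^ 2 ≤ ((((2 * b + 1) * H ^ 2 : ℕ) : ℝ)) *
        ∑ n ∈ Ioc p.2 (p.2 + ((2 * b + 1) * H ^ 2 : ℕ)), ‖tv J (fun j => cr p.1 e (n + qf p * j))‖ ^ 2 :=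
      (pow_le_pow_left₀ (by positivity) h4 2).trans h5
    have h7 : ((((2 * b + 1) * H ^ 2 : ℕ) : ℝ)) * ((H : ℝ) ^ 2 / (2 * (R : ℝ) ^ (2 * E))) ≤
        ((M : ℝ) / (2 * (R : ℝ) ^ E)) ^ 2 := by
      rw [div_pow, mul_pow, ← pow_mul, mul_comm E 2, ← mul_div_assoc, div_le_div_iff₀ (by positivity) (by positivity)]
      have e1 : (((2 * b + 1) * H ^ 2 : ℕ) : ℝ) * 2 ≤ M ^ 2 / (H : ℝ) ^ 2 := by
        rw [le_div_iff₀ (by positivity)]
        push_cast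
        have e2 : ((2 * b + 2) * H ^ 2 : ℝ) ^ 2 ≤ (M : ℝ) ^ 2 := pow_le_pow_left₀ (by positivity) hMr 2
        refine le_trans ?_ e2
        have e3 : (0 : ℝ) ≤ b := Nat.cast_nonneg b
        have e4 : (0 : ℝ) ≤ (H : ℝ) ^ 2 * (H : ℝ) ^ 2 := by positivity
        nlinarith [mul_nonneg e3 e4, mul_nonneg (mul_nonneg e3 e3) e4]
      rw [le_div_iff₀ (by positivity)] at e1
      have e5 : (0 : ℝ) ≤ (R : ℝ) ^ (2 * E) := by positivity
      calc (((2 * b + 1) * H ^ 2 : ℕ) : ℝ) * (H : ℝ) ^ 2 * (2 ^ 2 * (R : ℝ) ^ (2 * E))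
          = ((((2 * b + 1) * H ^ 2 : ℕ) : ℝ) * 2 * (H : ℝ) ^ 2) * (2 * (R : ℝ) ^ (2 * E)) := by ring
        _ ≤ (M : ℝ) ^ 2 * (2 * (R : ℝ) ^ (2 * E)) := mul_le_mul_of_nonneg_right e1 (by positivity)
    exact le_of_mul_le_mul_left (h7.trans h6) (by positivity)
  -- the upper bound
  have hup : ∀ q ∈ Icc 1 (R ^ E), ∑ p ∈ P, ∑ n ∈ Ioc p.2 (p.2 + ((2 * b + 1) * H ^ 2 : ℕ)),
      ‖tv J (fun j => cr p.1 e (n + q * j))‖ ^ 2 ≤
      7 * (2 * b + 1) * (H : ℝ) ^ 2 * (X : ℝ) ^ 2 * (R : ℝ) ^ (2 * E) / (R : ℝ) ^ C := by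
    intro q hq
    rw [Finset.mem_Icc] at hq
    have hqJ1 : H ≤ R ^ C * (q * J) := by
      have e1 : H < R ^ C3 * (J + 1) := Nat.lt_mul_div_succ H (by positivity)
      have e2 : R ^ C3 * (J + 1) ≤ R ^ C3 * (R * J) := Nat.mul_le_mul_left _ (by nlinarith)
      have e3 : R ^ C3 * (R * J) = R ^ (C3 + 1) * J := by ring
      have e4 : R ^ (C3 + 1) * J ≤ R ^ C * (q * J) :=
        Nat.mul_le_mul (Nat.pow_le_pow_right hR1 (by omega)) (Nat.le_mul_of_pos_left _ (by omega))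
      omega
    have hqJ2 : q * J ≤ C * H ^ 2 := by
      have e1 : q * J ≤ J * R ^ C3 := by
        rw [mul_comm]
        exact Nat.mul_le_mul_left J (hq.2.trans (Nat.pow_le_pow_right hR1 (by omega)))
      have e2 : H ^ 2 ≤ C * H ^ 2 := Nat.le_mul_of_pos_left _ (by omega)
      omega
    have h1 := upper e X hX1 he hse q J hq.1 hJ1 _ (hWB (q * J) hqJ1 hqJ2) (C1 * X) ((2 * b + 1) * H ^ 2) X P
      (fun p hp => ⟨(hP p hp).1, by push_cast; exact (hP p hp).2.1⟩)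
    refine h1.trans ?_
    have hJ0 : (0 : ℝ) < J := by exact_mod_cast hJ1
    have hqr : (q : ℝ) ≤ (R : ℝ) ^ E := by exact_mod_cast hq.2
    have e1 : ((((2 * b + 1) * H ^ 2 : ℕ) : ℝ)) * (7 * X * ((X : ℝ) * ((q * J : ℕ) : ℝ) ^ 2 / (R : ℝ) ^ C)) /
        (J : ℝ) ^ 2 = 7 * (2 * b + 1) * (H : ℝ) ^ 2 * (X : ℝ) ^ 2 * (q : ℝ) ^ 2 / (R : ℝ) ^ C := by
      push_cast
      field_simp
    rw [e1]
    refine div_le_div_of_nonneg_right ?_ (by positivity)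
    refine mul_le_mul_of_nonneg_left ?_ (by positivity)
    rw [mul_comm 2 E, pow_mul]
    exact pow_le_pow_left₀ (Nat.cast_nonneg q) hqr 2
  -- comparison
  have hsum : (P.card : ℝ) * ((H : ℝ) ^ 2 / (2 * (R : ℝ) ^ (2 * E))) ≤ (R : ℝ) ^ E *
      (7 * (2 * b + 1) * (H : ℝ) ^ 2 * (X : ℝ) ^ 2 * (R : ℝ) ^ (2 * E) / (R : ℝ) ^ C) := by
    calc (P.card : ℝ) * ((H : ℝ) ^ 2 / (2 * (R : ℝ) ^ (2 * E)))
        = ∑ _p ∈ P, ((H : ℝ) ^ 2 / (2 * (R : ℝ) ^ (2 * E))) := by rw [Finset.sum_const, nsmul_eq_mul]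
      _ ≤ ∑ p ∈ P, ∑ n ∈ Ioc p.2 (p.2 + ((2 * b + 1) * H ^ 2 : ℕ)), ‖tv J (fun j => cr p.1 e (n + qf p * j))‖ ^ 2 :=
          Finset.sum_le_sum hlow
      _ ≤ ∑ p ∈ P, ∑ q ∈ Icc 1 (R ^ E), ∑ n ∈ Ioc p.2 (p.2 + ((2 * b + 1) * H ^ 2 : ℕ)),
            ‖tv J (fun j => cr p.1 e (n + q * j))‖ ^ 2 := by
          refine Finset.sum_le_sum fun p hp => ?_
          exact Finset.single_le_sum (f := fun q : ℕ => ∑ n ∈ Ioc p.2 (p.2 + ((2 * b + 1) * H ^ 2 : ℕ)),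
            ‖tv J (fun j => cr p.1 e (n + q * j))‖ ^ 2) (fun q _ => Finset.sum_nonneg fun n _ => by positivity)
            (Finset.mem_Icc.2 ⟨hq1 p hp, hq2 p hp⟩)
      _ = ∑ q ∈ Icc 1 (R ^ E), ∑ p ∈ P, ∑ n ∈ Ioc p.2 (p.2 + ((2 * b + 1) * H ^ 2 : ℕ)),
            ‖tv J (fun j => cr p.1 e (n + q * j))‖ ^ 2 := Finset.sum_comm
      _ ≤ ∑ _q ∈ Icc 1 (R ^ E),
            7 * (2 * b + 1) * (H : ℝ) ^ 2 * (X : ℝ) ^ 2 * (R : ℝ) ^ (2 * E) / (R : ℝ) ^ C :=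
          Finset.sum_le_sum hup
      _ = _ := by
          rw [Finset.sum_const, Nat.card_Icc, nsmul_eq_mul, Nat.add_sub_cancel, Nat.cast_pow]
  have hXr : (1 : ℝ) ≤ X := by exact_mod_cast hX1
  have h1 : (X : ℝ) ^ 2 / (R : ℝ) ^ C1 * ((H : ℝ) ^ 2 / (2 * (R : ℝ) ^ (2 * E))) ≤ (R : ℝ) ^ E *
      (7 * (2 * b + 1) * (H : ℝ) ^ 2 * (X : ℝ) ^ 2 * (R : ℝ) ^ (2 * E) / (R : ℝ) ^ C) :=
    (mul_le_mul_of_nonneg_right hPc (by positivity)).trans hsum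
  have h2 : (R : ℝ) ^ C ≤ 14 * (2 * b + 1) * ((R : ℝ) ^ E * (R : ℝ) ^ (2 * E) * (R : ℝ) ^ (2 * E) * (R : ℝ) ^ C1) := by
    have e1 : (0 : ℝ) < (X : ℝ) ^ 2 * (H : ℝ) ^ 2 := by positivity
    have e2 : (X : ℝ) ^ 2 / (R : ℝ) ^ C1 * ((H : ℝ) ^ 2 / (2 * (R : ℝ) ^ (2 * E))) =
        ((X : ℝ) ^ 2 * (H : ℝ) ^ 2) * (1 / (2 * ((R : ℝ) ^ (2 * E) * (R : ℝ) ^ C1))) := by
      field_simp
    have e3 : (R : ℝ) ^ E * (7 * (2 * b + 1) * (H : ℝ) ^ 2 * (X : ℝ) ^ 2 * (R : ℝ) ^ (2 * E) / (R : ℝ) ^ C) =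
        ((X : ℝ) ^ 2 * (H : ℝ) ^ 2) * (7 * (2 * b + 1) * ((R : ℝ) ^ E * (R : ℝ) ^ (2 * E)) / (R : ℝ) ^ C) := by
      field_simp
    rw [e2, e3] at h1
    have h3 := le_of_mul_le_mul_left h1 e1
    rw [div_le_div_iff₀ (by positivity) (by positivity), one_mul] at h3
    refine h3.trans (le_of_eq ?_)
    ring
  have h3 : 14 * (2 * b + 1) * ((R : ℝ) ^ E * (R : ℝ) ^ (2 * E) * (R : ℝ) ^ (2 * E) * (R : ℝ) ^ C1) < (R : ℝ) ^ C := by
    have e1 : (16 : ℝ) ≤ (R : ℝ) ^ 4 := by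
      calc (16 : ℝ) = 2 ^ 4 := by norm_num
        _ ≤ (R : ℝ) ^ 4 := pow_le_pow_left₀ (by norm_num) hRr 4
    have e2 : ((2 * b + 1 : ℕ) : ℝ) ≤ (R : ℝ) ^ (2 * b + 1) := by
      have e3 : 2 * b + 1 < 2 ^ (2 * b + 1) := Nat.lt_two_pow_self
      have e4 : 2 ^ (2 * b + 1) ≤ R ^ (2 * b + 1) := Nat.pow_le_pow_left hR _
      exact_mod_cast (e3.le.trans e4)
    push_cast at e2
    have e5 : (0 : ℝ) < (R : ℝ) ^ E * (R : ℝ) ^ (2 * E) * (R : ℝ) ^ (2 * E) * (R : ℝ) ^ C1 := by positivity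
    have e6 : (14 * (2 * b + 1) : ℝ) < (R : ℝ) ^ 4 * (R : ℝ) ^ (2 * b + 1) := by
      have e7 : (0 : ℝ) < (2 * b + 1 : ℝ) := by positivity
      nlinarith
    calc 14 * (2 * b + 1) * ((R : ℝ) ^ E * (R : ℝ) ^ (2 * E) * (R : ℝ) ^ (2 * E) * (R : ℝ) ^ C1)
        < (R : ℝ) ^ 4 * (R : ℝ) ^ (2 * b + 1) *
            ((R : ℝ) ^ E * (R : ℝ) ^ (2 * E) * (R : ℝ) ^ (2 * E) * (R : ℝ) ^ C1) :=
          mul_lt_mul_of_pos_right e6 e5
      _ = (R : ℝ) ^ (5 * E + C1 + 4 + (2 * b + 1)) := by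
          rw [show 5 * E + C1 + 4 + (2 * b + 1) = 4 + (2 * b + 1) + (E + 2 * E + 2 * E + C1) by ring,
            pow_add (R : ℝ) (4 + (2 * b + 1)), pow_add (R : ℝ) 4, pow_add (R : ℝ) (E + 2 * E + 2 * E),
            pow_add (R : ℝ) (E + 2 * E), pow_add (R : ℝ) E]
      _ ≤ (R : ℝ) ^ C := pow_le_pow_right₀ hRr1 (by omega)
  exact absurd h2 (not_le.2 h3)

end Pool.Agent.NLT
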