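import Pool.Agent.Lib.NLT.Kernel

/-!
# Module TwoDir: box norms with two averaged directions are controlled by `U2`

PROOF of `avr_ft_dir` (`Y`): for every `ξ` and `G` bounded by 1
  `(∑ γ', dv A' (j ↦ ‖ft (Dl (γ' j) G) ξ‖^2)) / A ≤ 5 (Maj M H (R2^C)).card * U2 G + 1 / R2`.
By `norm_ft_sq`, `‖ft (Dl v G) ξ‖^2 = av_u chi ξ u * av (Dl u (Dl v G))` and `Dl u (Dl v G) = Dl v (Dl u G)`; averaging over
`v = γ' j` (in the difference variable `j`) and using `Q2_dvc` and the triangle inequality,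
`dv A' (j ↦ ‖ft (Dl (γ' j) G) ξ‖^2) ≤ avr_u Q2 A' (Dl u G) γ'`, so the left side is at most
`avr_u ((∑ γ', Q2 A' (Dl u G) γ') / A) ≤ avr_u (5 ∑ ζ ∈ Maj, ‖ft (Dl u G) ζ‖^2 + 1 / R2) ≤ 5 Maj.card U2 G + 1 / R2`
by `kernel_two` and `avr_ft_Dl_le`.

PROOF of `two_dir`: `QQ A' γ γ' G = dv A' (j ↦ Q2 A' (Dl (γ' j) G) γ)`. For fixed `γ', j` apply `kernel_two` with `R1` to
`Dl (γ' j) G` in the variable `γ`: the left side is at most
`(∑ γ', dv A' (j ↦ 5 ∑ ξ ∈ Maj1, ‖ft (Dl (γ' j) G) ξ‖^2 + 1 / R1)) / A`; the second part is at most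
`((4 A + 1) / A) / R1 ≤ 5 / R1`; the first part is `5 ∑ ξ ∈ Maj1, Y(ξ)`. The same constant `C` (of `kernel_two`) works for
both; take the constant of `kernel_two` for all statements.
-/

set_option autoImplicit false

open Finset

namespace Pool.Agent.NLT

open Pool.Agent.HLT

namespace TwoDirAux

lemma dvc_mul_left (A : ℕ) (c : ℂ) (F : ℤ → ℂ) : dvc A (fun k => c * F k) = c * dvc A F := by
  unfold dvc
  rw [mul_div_assoc', Finset.mul_sum]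
  congr 1
  refine Finset.sum_congr rfl fun i _ => ?_
  rw [Finset.mul_sum]

lemma dv_sum {ι : Type} (A : ℕ) (s : Finset ι) (F : ι → ℤ → ℝ) :
    dv A (fun k => ∑ i ∈ s, F i k) = ∑ i ∈ s, dv A (F i) := by
  unfold dv
  rw [← Finset.sum_div]
  congr 1
  rw [Finset.sum_comm]
  have h : ∀ j ∈ range A, ∑ i ∈ range A, ∑ x ∈ s, F x ((j : ℤ) - i) =
      ∑ x ∈ s, ∑ i ∈ range A, F x ((j : ℤ) - i) := fun j _ => Finset.sum_comm
  rw [Finset.sum_congr rfl h, Finset.sum_comm]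
  refine Finset.sum_congr rfl fun x _ => ?_
  rw [Finset.sum_comm]

lemma dv_div (A : ℕ) (c : ℝ) (F : ℤ → ℝ) : dv A (fun k => F k / c) = dv A F / c := by
  have h := dv_mul_left A c⁻¹ F
  have e : (fun k => F k / c) = fun k => c⁻¹ * F k := by
    funext k
    rw [div_eq_mul_inv, mul_comm]
  rw [e, h, div_eq_mul_inv, mul_comm]

lemma avr_div {M : ℕ} [NeZero M] (c : ℝ) (F : ZMod M → ℝ) : avr (fun k => F k / c) = avr F / c := by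
  have h := avr_mul_left c⁻¹ F
  have e : (fun k => F k / c) = fun k => c⁻¹ * F k := by
    funext k
    rw [div_eq_mul_inv, mul_comm]
  rw [e, h, div_eq_mul_inv, mul_comm]

variable {M : ℕ} [NeZero M]

lemma dv_ft_le (A : ℕ) (G : ZMod M → ℂ) (ξ v : ZMod M) :
    dv A (fun j => ‖ft (Dl (v * (j : ZMod M)) G) ξ‖ ^ 2) ≤ avr (fun u => Q2 A (Dl u G) v) := by
  have h0 : 0 ≤ dv A (fun j => ‖ft (Dl (v * (j : ZMod M)) G) ξ‖ ^ 2) := dv_nonneg A (fun k => sq_nonneg _)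
  have h1 : ((dv A (fun j => ‖ft (Dl (v * (j : ZMod M)) G) ξ‖ ^ 2) : ℝ) : ℂ) =
      av (fun u => chi ξ u * ((Q2 A (Dl u G) v : ℝ) : ℂ)) := by
    rw [← dvc_ofReal]
    have e : (fun k : ℤ => ((‖ft (Dl (v * (k : ZMod M)) G) ξ‖ ^ 2 : ℝ) : ℂ)) =
        fun k : ℤ => av (fun u => chi ξ u * av (Dl (v * (k : ZMod M)) (Dl u G))) := by
      funext k
      rw [norm_ft_sq]
      congr 1
      funext u
      rw [Dl_comm]
    rw [e, dvc_av_comm]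
    congr 1
    funext u
    rw [dvc_mul_left, Q2_dvc]
  have h2 : ‖((dv A (fun j => ‖ft (Dl (v * (j : ZMod M)) G) ξ‖ ^ 2) : ℝ) : ℂ)‖ ≤
      avr (fun u => Q2 A (Dl u G) v) := by
    rw [h1]
    refine (norm_av_le _).trans (avr_mono fun u => ?_)
    rw [norm_mul, norm_chi, one_mul, Complex.norm_real, Real.norm_of_nonneg (Q2_nonneg _ _ _)]
  rwa [Complex.norm_real, Real.norm_of_nonneg h0] at h2

lemma avr_ft_dir {C : ℕ} (hC : ∀ (R H M A A' : ℕ) [NeZero M], 2 ≤ R → R ^ C ≤ H → H ≤ R * A' → A' ≤ A → A ≤ H →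
    ∀ g : ZMod M → ℂ, Bd g →
      (∑ γ ∈ Icc (-(2 * A : ℤ)) (2 * A), Q2 A' g (γ : ZMod M)) / A ≤
        5 * ∑ ξ ∈ Maj M H (R ^ C), ‖ft g ξ‖ ^ 2 + 1 / (R : ℝ))
    (R H A A' : ℕ) (h1 : 2 ≤ R) (h2 : R ^ C ≤ H) (h3 : H ≤ R * A') (h4 : A' ≤ A) (h5 : A ≤ H)
    (G : ZMod M → ℂ) (hG : Bd G) (ξ : ZMod M) :
    (∑ γ ∈ Icc (-(2 * A : ℤ)) (2 * A), dv A' (fun j => ‖ft (Dl ((γ : ZMod M) * (j : ZMod M)) G) ξ‖ ^ 2)) / A ≤
      5 * ((Maj M H (R ^ C)).card : ℝ) * U2 G + 1 / (R : ℝ) := by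
  have hA : (0 : ℝ) ≤ A := Nat.cast_nonneg _
  calc (∑ γ ∈ Icc (-(2 * A : ℤ)) (2 * A), dv A' (fun j => ‖ft (Dl ((γ : ZMod M) * (j : ZMod M)) G) ξ‖ ^ 2)) / A
      ≤ (∑ γ ∈ Icc (-(2 * A : ℤ)) (2 * A), avr (fun u => Q2 A' (Dl u G) (γ : ZMod M))) / A :=
        div_le_div_of_nonneg_right (Finset.sum_le_sum fun γ _ => dv_ft_le A' G ξ (γ : ZMod M)) hA
    _ = avr (fun u => (∑ γ ∈ Icc (-(2 * A : ℤ)) (2 * A), Q2 A' (Dl u G) (γ : ZMod M)) / A) := by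
        rw [avr_div, avr_sum]
    _ ≤ avr (fun u => 5 * ∑ ζ ∈ Maj M H (R ^ C), ‖ft (Dl u G) ζ‖ ^ 2 + 1 / (R : ℝ)) :=
        avr_mono fun u => hC R H M A A' h1 h2 h3 h4 h5 (Dl u G) (Dl_Bd u hG)
    _ = 5 * ∑ ζ ∈ Maj M H (R ^ C), avr (fun u => ‖ft (Dl u G) ζ‖ ^ 2) + 1 / (R : ℝ) := by
        rw [avr_add, avr_mul_left, avr_sum, avr_const]
    _ ≤ 5 * ∑ _ζ ∈ Maj M H (R ^ C), U2 G + 1 / (R : ℝ) := by
        have := Finset.sum_le_sum (s := Maj M H (R ^ C)) fun ζ _ => avr_ft_Dl_le G ζ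
        linarith
    _ = 5 * ((Maj M H (R ^ C)).card : ℝ) * U2 G + 1 / (R : ℝ) := by
        rw [Finset.sum_const, nsmul_eq_mul]
        ring

end TwoDirAux

open TwoDirAux

theorem two_dir : ∃ C : ℕ, ∀ (R1 R2 H M A A' : ℕ) [NeZero M], 2 ≤ R1 → 2 ≤ R2 → R1 ^ C ≤ H → R2 ^ C ≤ H →
    H ≤ R1 * A' → H ≤ R2 * A' → A' ≤ A → A ≤ H → ∀ G : ZMod M → ℂ, Bd G →
    (∑ γ ∈ Icc (-(2 * A : ℤ)) (2 * A), ∑ γ' ∈ Icc (-(2 * A : ℤ)) (2 * A),
        QQ A' (γ : ZMod M) (γ' : ZMod M) G) / (A : ℝ) ^ 2 ≤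
      25 * ((Maj M H (R1 ^ C)).card : ℝ) * (Maj M H (R2 ^ C)).card * U2 G +
        5 * ((Maj M H (R1 ^ C)).card : ℝ) / R2 + 5 / R1 := by
  obtain ⟨C, hC⟩ := kernel_two
  refine ⟨C, fun R1 R2 H M A A' _ h1 h2 h3 h4 h5 h6 h7 h8 G hG => ?_⟩
  have hH : 1 ≤ H := le_trans (Nat.one_le_pow _ _ (by omega)) h3
  have hA' : 1 ≤ A' := by
    by_contra hn
    have : A' = 0 := by omega
    rw [this] at h5
    omega
  have hA1 : 1 ≤ A := hA'.trans h7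
  have hA : (0 : ℝ) < A := by exact_mod_cast hA1
  have hR1 : (0 : ℝ) < R1 := by
    have : 0 < R1 := by omega
    exact_mod_cast this
  set I : Finset ℤ := Icc (-(2 * A : ℤ)) (2 * A) with hI
  have hcard : ((I.card : ℕ) : ℝ) = 4 * A + 1 := by
    rw [hI, Int.card_Icc]
    have : (2 * (A : ℤ) + 1 - -(2 * (A : ℤ))).toNat = 4 * A + 1 := by omega
    rw [this]
    push_cast
    ring
  calc (∑ γ ∈ I, ∑ γ' ∈ I, QQ A' (γ : ZMod M) (γ' : ZMod M) G) / (A : ℝ) ^ 2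
      = (∑ γ' ∈ I, dv A' (fun j => (∑ γ ∈ I, Q2 A' (Dl ((γ' : ZMod M) * (j : ZMod M)) G) (γ : ZMod M)) / A)) / A := by
        rw [Finset.sum_comm, pow_two, ← div_div]
        congr 1
        rw [Finset.sum_div]
        refine Finset.sum_congr rfl fun γ' _ => ?_
        rw [dv_div, dv_sum]
        rfl
    _ ≤ (∑ γ' ∈ I, dv A' (fun j => 5 * ∑ ξ ∈ Maj M H (R1 ^ C), ‖ft (Dl ((γ' : ZMod M) * (j : ZMod M)) G) ξ‖ ^ 2 +
          1 / (R1 : ℝ))) / A := by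
        refine div_le_div_of_nonneg_right (Finset.sum_le_sum fun γ' _ => dv_mono A' fun j _ => ?_) hA.le
        exact hC R1 H M A A' h1 h3 h5 h7 h8 _ (Dl_Bd _ hG)
    _ = 5 * ∑ ξ ∈ Maj M H (R1 ^ C),
          (∑ γ' ∈ I, dv A' (fun j => ‖ft (Dl ((γ' : ZMod M) * (j : ZMod M)) G) ξ‖ ^ 2)) / A +
          (4 * A + 1) / A * (1 / (R1 : ℝ)) := by
        have e : ∀ γ' ∈ I, dv A' (fun j => 5 * ∑ ξ ∈ Maj M H (R1 ^ C),
            ‖ft (Dl ((γ' : ZMod M) * (j : ZMod M)) G) ξ‖ ^ 2 + 1 / (R1 : ℝ)) =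
            5 * ∑ ξ ∈ Maj M H (R1 ^ C), dv A' (fun j => ‖ft (Dl ((γ' : ZMod M) * (j : ZMod M)) G) ξ‖ ^ 2) +
            1 / (R1 : ℝ) := by
          intro γ' _
          rw [dv_add, dv_mul_left, dv_sum, dv_const A' hA']
        rw [Finset.sum_congr rfl e, Finset.sum_add_distrib, ← Finset.mul_sum, Finset.sum_comm,
          Finset.sum_const, nsmul_eq_mul, hcard, ← Finset.sum_div]
        ring
    _ ≤ 5 * ∑ _ξ ∈ Maj M H (R1 ^ C), (5 * ((Maj M H (R2 ^ C)).card : ℝ) * U2 G + 1 / (R2 : ℝ)) + 5 * (1 / (R1 : ℝ)) := by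
        have e1 : ∑ ξ ∈ Maj M H (R1 ^ C),
            (∑ γ' ∈ I, dv A' (fun j => ‖ft (Dl ((γ' : ZMod M) * (j : ZMod M)) G) ξ‖ ^ 2)) / A ≤
            ∑ _ξ ∈ Maj M H (R1 ^ C), (5 * ((Maj M H (R2 ^ C)).card : ℝ) * U2 G + 1 / (R2 : ℝ)) :=
          Finset.sum_le_sum fun ξ _ => avr_ft_dir hC R2 H A A' h2 h4 h6 h7 h8 G hG ξ
        have e2 : (4 * (A : ℝ) + 1) / A * (1 / (R1 : ℝ)) ≤ 5 * (1 / (R1 : ℝ)) := by
          refine mul_le_mul_of_nonneg_right ?_ (by positivity)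
          rw [div_le_iff₀ hA]
          have : (1 : ℝ) ≤ A := by exact_mod_cast hA1
          linarith
        linarith
    _ = 25 * ((Maj M H (R1 ^ C)).card : ℝ) * (Maj M H (R2 ^ C)).card * U2 G +
        5 * ((Maj M H (R1 ^ C)).card : ℝ) / R2 + 5 / R1 := by
        rw [Finset.sum_const, nsmul_eq_mul]
        ring

end Pool.Agent.NLT
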