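import Pool.Agent.Lib.NLT.Defs

/-!
# Nonlinear triples: definitions for the part on primes

`WB E W D`: the sums of `E n ex (n α)` over the windows `(y, y + W]` are in mean square at most `D`, for every real `α`.
`cr h f n = f n * conj (f (n + h))`. `bl M y lo hi f`: the function on `ZMod M` with value `f (y + z)` at the residues
`z ∈ (lo, hi]` and 0 elsewhere. `EZ A x v`: the function `ff (zA A x) (n + v) / (log x)^2`, cut off to `1 ≤ n + v ≤ 2 x`.
`WBA`: window bounds for `EZ`. `MSQ`: mean square property of a parameter set `Ω` with shift maps `s`; `UBO`: the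
conclusions (independence of every sequence and the Hardy-Littlewood formula) for almost all parameters.
-/

set_option autoImplicit false

open Finset Filter

namespace Pool.Agent.NLT

open Pool.Agent.HLT

/-- Window bound. -/
def WB (E : ℤ → ℂ) (W : ℕ) (D : ℝ) : Prop :=
  ∀ (α : ℝ) (U : Finset ℤ), ∑ y ∈ U, ‖∑ n ∈ Ioc y (y + W), E n * ex ((n : ℝ) * α)‖ ^ 2 ≤ D

/-- Correlation. -/
noncomputable def cr (h : ℤ) (f : ℤ → ℂ) : ℤ → ℂ := fun n => f n * (starRingEnd ℂ) (f (n + h))

/-- Block function. -/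
noncomputable def bl (M : ℕ) (y : ℤ) (lo hi : ℕ) (f : ℤ → ℂ) : ZMod M → ℂ :=
  fun z => if lo < z.val ∧ z.val ≤ hi then f (y + (z.val : ℤ)) else 0

/-- Size of the coefficients. -/
def bb (a c d : ℤ) : ℕ := a.natAbs + c.natAbs + d.natAbs

/-- The normalised function `ff`, shifted and cut off. -/
noncomputable def EZ (A x v : ℕ) : ℤ → ℂ :=
  fun n => if 1 ≤ n + v ∧ n + v ≤ 2 * (x : ℤ) then ((ff (zA A x) (n + v).toNat / Real.log x ^ 2 : ℝ) : ℂ) else 0

/-- Window bounds for `EZ`. -/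
def WBA (A B C : ℕ) (ε : ℝ) (x : ℕ) : Prop :=
  ∀ W v : ℕ, (x : ℝ) ^ (1 / 6 + ε) ≤ W → W ≤ C * x → WB (EZ A x v) W ((x : ℝ) * W ^ 2 / Real.log x ^ B)

end Pool.Agent.NLT
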